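import Pool.Agent.HYM.Bil
import Pool.Agent.HYM.MainA

set_option autoImplicit false

/-!
# DAD/Prm: primitives of line integrals (Fubini)
-/

open Complex MeasureTheory

namespace DAD

open HYM

private theorem ln_ne {c : ℝ} (hc : c + 1 ≠ 0) (t : ℝ) : ln (c + 1) t ≠ 0 := by
  intro h
  have h1 := congrArg Complex.re h
  rw [ln_re, Complex.zero_re] at h1
  exact hc h1

private theorem lam_int {c : ℝ} (hc : c + 1 ≠ 0) {Lam : ℝ → ℂ} (h : Integrable Lam) :
    Integrable fun t => Lam t / ln (c + 1) t := by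
  have h1 : Continuous fun t : ℝ => (ln (c + 1) t)⁻¹ := by
    refine Continuous.inv₀ ?_ (fun t => ln_ne hc t)
    unfold ln
    fun_prop
  have h2 := h.mul_bdd (c := |c + 1|⁻¹) h1.aestronglyMeasurable
    (Filter.Eventually.of_forall fun t => by
      rw [norm_inv]
      refine inv_anti₀ (abs_pos.2 hc) ?_
      have h3 := abs_re_le_norm (ln (c + 1) t)
      rwa [ln_re] at h3)
  exact h2

theorem vint_prim {c : ℝ} (hc : c + 1 ≠ 0) {Lam : ℝ → ℂ} (h : Integrable Lam) {a b : ℝ}
    (ha : 0 < a) (hab : a ≤ b) :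
    ∫ x in a..b, vint c Lam x =
      vint (c + 1) (fun t => Lam t / ln (c + 1) t) b -
        vint (c + 1) (fun t => Lam t / ln (c + 1) t) a := by
  have hb : 0 < b := lt_of_lt_of_le ha hab
  have hpos : ∀ x ∈ Set.Ioc a b, 0 < x := fun x hx => ha.trans hx.1
  have hint : Integrable (fun q : ℝ × ℝ => Lam q.2 * (q.1 : ℂ) ^ (ln c q.2))
      ((volume.restrict (Set.Ioc a b)).prod volume) := by
    have h4 : Integrable (fun x : ℝ => ((x ^ c : ℝ) : ℂ)) (volume.restrict (Set.Ioc a b)) := by
      have h5 : ContinuousOn (fun x : ℝ => x ^ c) (Set.Icc a b) := by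
        intro x hx
        exact (Real.continuousAt_rpow_const x c
          (Or.inl (lt_of_lt_of_le ha hx.1).ne')).continuousWithinAt
      exact ((h5.integrableOn_Icc).mono_set Set.Ioc_subset_Icc_self).ofReal
    have h5 := h4.mul_prod h
    have h6 : Measurable fun q : ℝ × ℝ => cexp ((q.2 : ℂ) * I * (Real.log q.1 : ℂ)) := by
      fun_prop
    have h7 := h5.mul_bdd (c := 1) h6.aestronglyMeasurable
      (Filter.Eventually.of_forall fun q => (bil_exp_norm q.2 (Real.log q.1)).le)
    refine h7.congr ?_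
    have h8 : ∀ᵐ q : ℝ × ℝ ∂((volume.restrict (Set.Ioc a b)).prod volume),
        q.1 ∈ Set.Ioc a b :=
      (Measure.quasiMeasurePreserving_fst (μ := (volume : Measure ℝ).restrict (Set.Ioc a b))
        (ν := (volume : Measure ℝ))).ae (ae_restrict_mem (measurableSet_Ioc))
    filter_upwards [h8] with q hq
    rw [bil_cpow (hpos _ hq)]
    ring
  rw [intervalIntegral.integral_of_le hab]
  have e0 : ∫ x in Set.Ioc a b, vint c Lam x =
      (2 * (Real.pi : ℂ))⁻¹ * ∫ x in Set.Ioc a b, ∫ t : ℝ, Lam t * (x : ℂ) ^ (ln c t) := by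
    rw [← integral_const_mul]
    rfl
  have e1 : ∫ x in Set.Ioc a b, ∫ t : ℝ, Lam t * (x : ℂ) ^ (ln c t) =
      ∫ t : ℝ, ∫ x in Set.Ioc a b, Lam t * (x : ℂ) ^ (ln c t) :=
    integral_integral_swap hint
  have e2 : ∀ t : ℝ, ∫ x in Set.Ioc a b, Lam t * (x : ℂ) ^ (ln c t) =
      Lam t / ln (c + 1) t * (b : ℂ) ^ (ln (c + 1) t) -
        Lam t / ln (c + 1) t * (a : ℂ) ^ (ln (c + 1) t) := by
    intro t
    have h1 : ln c t + 1 = ln (c + 1) t := by
      unfold ln
      push_cast
      ring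
    rw [integral_const_mul, ← intervalIntegral.integral_of_le hab,
      integral_cpow (Or.inr ⟨?_, ?_⟩), h1]
    · ring
    · intro h2
      apply ln_ne hc t
      rw [← h1, h2]
      ring
    · rw [Set.uIcc_of_le hab]
      intro h2
      exact absurd h2.1 (not_le.2 ha)
  rw [e0, e1]
  simp only [e2]
  rw [integral_sub (bil_integrable (lam_int hc h) hb) (bil_integrable (lam_int hc h) ha)]
  unfold vint
  ring

end DAD
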