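import Pool.Agent.DAD.Kd1
import Pool.Agent.DAD.Prm
import Pool.Agent.WYL.Mvl

set_option autoImplicit false

/-!
# DAD/Base: the lowest frequencies from a pointwise bound on the critical line

Plan: `K.EV V x = vint (1/2) (K.Lam V) x`, `Lam_pt` (WYL/Mvl) and `EV_deriv_line`;
`∫ ‖K.L‖ (1+|t|)^(-1) exp (-(t/V)²) dt ≤ C V^(Bd)` for `Bd > 0`; third: `vint_prim`.
-/

open Complex MeasureTheory

namespace DAD

open HYM

/-- The pointwise bound of the integrand. -/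
theorem Lam_pt_le (K : Sel) {Bd C₀ : ℝ}
    (hK : ∀ t : ℝ, ‖K.L (ln (1 / 2) t)‖ ≤ C₀ * (1 + |t|) ^ Bd) {V : ℝ} (hV : 1 ≤ V) (t : ℝ) :
    ‖K.Lam V t‖ ≤ 3 * Real.exp 1 * C₀ * ((1 + |t|) ^ (-1 + Bd) * Real.exp (-(t / V) ^ 2)) := by
  have h1 := WYL.Lam_pt K hV t
  have ht : 0 < 1 + |t| := by positivity
  have h2 : (1 + |t|) ^ (-1 + Bd) = (1 + |t|)⁻¹ * (1 + |t|) ^ Bd := by
    rw [Real.rpow_add ht, Real.rpow_neg_one]
  refine h1.trans ?_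
  rw [h2]
  calc 3 * Real.exp 1 * ((1 + |t|)⁻¹ * Real.exp (-(t / V) ^ 2) * ‖K.L (ln (1 / 2) t)‖)
      ≤ 3 * Real.exp 1 * ((1 + |t|)⁻¹ * Real.exp (-(t / V) ^ 2) * (C₀ * (1 + |t|) ^ Bd)) :=
        mul_le_mul_of_nonneg_left (mul_le_mul_of_nonneg_left (hK t) (by positivity))
          (by positivity)
    _ = _ := by ring

theorem EV_vint (K : Sel) (V x : ℝ) : K.EV V x = vint (1 / 2) (K.Lam V) x := rfl

theorem ln_norm_le (t : ℝ) : ‖ln (1 / 2) t‖ ≤ 1 + |t| := by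
  unfold ln
  refine (norm_add_le _ _).trans ?_
  rw [norm_mul, Complex.norm_I, mul_one, Complex.norm_real, Complex.norm_real,
    Real.norm_eq_abs, Real.norm_eq_abs]
  have : |(1 / 2 : ℝ)| = 1 / 2 := abs_of_pos (by norm_num)
  rw [this]
  linarith

theorem base_bd (K : Sel) {Bd C₀ : ℝ} (hB : 0 < Bd) (hC₀ : 0 < C₀)
    (hK : ∀ t : ℝ, ‖K.L (ln (1 / 2) t)‖ ≤ C₀ * (1 + |t|) ^ Bd) : ∃ C : ℝ, 0 < C ∧
    ∀ V x : ℝ, 1 ≤ V → 0 < x →
      Integrable (K.Lam V) ∧ ‖K.EV V x‖ ≤ C * x ^ (1 / 2 : ℝ) * V ^ Bd ∧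
      ‖deriv (K.EV V) x‖ ≤ C * x ^ (-(1 / 2) : ℝ) * V ^ (Bd + 1) := by
  obtain ⟨C₁, hC₁, H₁⟩ := int_weight hB
  obtain ⟨C₂, hC₂, H₂⟩ := int_weight (q := Bd + 1) (by linarith)
  refine ⟨3 * Real.exp 1 * C₀ * (C₁ + C₂), by positivity, fun V x hV hx => ?_⟩
  obtain ⟨i1, b1⟩ := H₁ V hV
  obtain ⟨i2, b2⟩ := H₂ V hV
  have hV0 : 0 < V := by linarith
  have hint : Integrable (K.Lam V) :=
    (i1.const_mul (3 * Real.exp 1 * C₀)).mono' (Lam_continuous K V).aestronglyMeasurable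
      (Filter.Eventually.of_forall fun t => Lam_pt_le K hK hV t)
  have hL1 : ∫ t : ℝ, ‖K.Lam V t‖ ≤ 3 * Real.exp 1 * C₀ * (C₁ * V ^ Bd) := by
    calc ∫ t : ℝ, ‖K.Lam V t‖ ≤ ∫ t : ℝ, 3 * Real.exp 1 * C₀ *
          ((1 + |t|) ^ (-1 + Bd) * Real.exp (-(t / V) ^ 2)) :=
          integral_mono hint.norm (i1.const_mul _) (fun t => Lam_pt_le K hK hV t)
      _ = 3 * Real.exp 1 * C₀ * ∫ t : ℝ, (1 + |t|) ^ (-1 + Bd) * Real.exp (-(t / V) ^ 2) :=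
          integral_const_mul _ _
      _ ≤ _ := mul_le_mul_of_nonneg_left b1 (by positivity)
  refine ⟨hint, ?_, ?_⟩
  · rw [EV_vint]
    refine (vint_norm_le hx).trans ?_
    calc x ^ (1 / 2 : ℝ) * ∫ t : ℝ, ‖K.Lam V t‖
        ≤ x ^ (1 / 2 : ℝ) * (3 * Real.exp 1 * C₀ * (C₁ * V ^ Bd)) :=
          mul_le_mul_of_nonneg_left hL1 (by positivity)
      _ ≤ x ^ (1 / 2 : ℝ) * (3 * Real.exp 1 * C₀ * ((C₁ + C₂) * V ^ Bd)) := by
          refine mul_le_mul_of_nonneg_left (mul_le_mul_of_nonneg_left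
            (mul_le_mul_of_nonneg_right ?_ (by positivity)) (by positivity)) (by positivity)
          linarith
      _ = _ := by ring
  · have hd := EV_deriv_line K hV hx
    have hpt : ∀ t : ℝ, ‖ln (1 / 2) t * K.Lam V t‖ ≤ 3 * Real.exp 1 * C₀ *
        ((1 + |t|) ^ (-1 + (Bd + 1)) * Real.exp (-(t / V) ^ 2)) := by
      intro t
      have ht : 0 < 1 + |t| := by positivity
      have h2 : (1 + |t|) ^ (-1 + (Bd + 1)) = (1 + |t|) * (1 + |t|) ^ (-1 + Bd) := by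
        rw [show -1 + (Bd + 1) = 1 + (-1 + Bd) by ring, Real.rpow_add ht, Real.rpow_one]
      rw [norm_mul, h2]
      calc ‖ln (1 / 2) t‖ * ‖K.Lam V t‖ ≤ (1 + |t|) * (3 * Real.exp 1 * C₀ *
            ((1 + |t|) ^ (-1 + Bd) * Real.exp (-(t / V) ^ 2))) :=
            mul_le_mul (ln_norm_le t) (Lam_pt_le K hK hV t) (norm_nonneg _) ht.le
        _ = _ := by ring
    have hint2 : Integrable (fun t => ln (1 / 2) t * K.Lam V t) :=
      (i2.const_mul (3 * Real.exp 1 * C₀)).mono'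
        ((ln_continuous _).mul (Lam_continuous K V)).aestronglyMeasurable
        (Filter.Eventually.of_forall hpt)
    have hL2 : ∫ t : ℝ, ‖ln (1 / 2) t * K.Lam V t‖ ≤
        3 * Real.exp 1 * C₀ * (C₂ * V ^ (Bd + 1)) := by
      calc ∫ t : ℝ, ‖ln (1 / 2) t * K.Lam V t‖ ≤ ∫ t : ℝ, 3 * Real.exp 1 * C₀ *
            ((1 + |t|) ^ (-1 + (Bd + 1)) * Real.exp (-(t / V) ^ 2)) :=
            integral_mono hint2.norm (i2.const_mul _) hpt
        _ = 3 * Real.exp 1 * C₀ *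
            ∫ t : ℝ, (1 + |t|) ^ (-1 + (Bd + 1)) * Real.exp (-(t / V) ^ 2) :=
            integral_const_mul _ _
        _ ≤ _ := mul_le_mul_of_nonneg_left b2 (by positivity)
    have h3 : x * ‖deriv (K.EV V) x‖ ≤
        x ^ (1 / 2 : ℝ) * (3 * Real.exp 1 * C₀ * (C₂ * V ^ (Bd + 1))) := by
      have h4 : ‖(x : ℂ) * deriv (K.EV V) x‖ = x * ‖deriv (K.EV V) x‖ := by
        rw [norm_mul, Complex.norm_real, Real.norm_of_nonneg hx.le]
      rw [← h4, hd]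
      exact (vint_norm_le hx).trans (mul_le_mul_of_nonneg_left hL2 (by positivity))
    have h5 : x ^ (-(1 / 2) : ℝ) * x = x ^ (1 / 2 : ℝ) := by
      nth_rewrite 2 [← Real.rpow_one x]
      rw [← Real.rpow_add hx]
      norm_num
    have h6 : x * ‖deriv (K.EV V) x‖ ≤
        x * (3 * Real.exp 1 * C₀ * (C₁ + C₂) * x ^ (-(1 / 2) : ℝ) * V ^ (Bd + 1)) := by
      refine h3.trans ?_
      rw [← h5]
      have h7 : 0 ≤ 3 * Real.exp 1 * C₀ * C₁ * x ^ (-(1 / 2) : ℝ) * V ^ (Bd + 1) * x := by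
        positivity
      nlinarith
    exact le_of_mul_le_mul_left h6 hx

theorem base_int (K : Sel) {Bd C₀ : ℝ} (hB : 1 ≤ Bd) (hC₀ : 0 < C₀)
    (hK : ∀ t : ℝ, ‖K.L (ln (1 / 2) t)‖ ≤ C₀ * (1 + |t|) ^ Bd) {ε : ℝ} (hε : 0 < ε) :
    ∃ C : ℝ, 0 < C ∧ ∀ V a b : ℝ, 1 ≤ V → 0 < a → a ≤ b →
      ‖∫ x in a..b, K.EV V x‖ ≤ C * b ^ (3 / 2 : ℝ) * V ^ (Bd - 1 + ε) := by
  obtain ⟨C₁, hC₁, H₁⟩ := int_weight (q := Bd - 1 + ε) (by linarith)
  obtain ⟨C₂, hC₂, H₂⟩ := base_bd K (lt_of_lt_of_le one_pos hB) hC₀ hK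
  refine ⟨2 * (9 * Real.exp 1 * C₀ * C₁), by positivity, fun V a b hV ha hab => ?_⟩
  obtain ⟨i1, b1⟩ := H₁ V hV
  have hV0 : 0 < V := by linarith
  have hb : 0 < b := lt_of_lt_of_le ha hab
  have hint := (H₂ V 1 hV one_pos).1
  have hln : ∀ t : ℝ, (1 + |t|) / 3 ≤ ‖ln (1 / 2 + 1) t‖ := by
    intro t
    have h1 : |t| ≤ ‖ln (1 / 2 + 1) t‖ := by
      have := Complex.abs_im_le_norm (ln (1 / 2 + 1) t)
      rwa [ln_im] at this
    have h2 : 1 / 2 ≤ ‖ln (1 / 2 + 1) t‖ := by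
      have := Complex.abs_re_le_norm (ln (1 / 2 + 1) t)
      rw [ln_re, abs_of_pos (by norm_num : (0 : ℝ) < 1 / 2 + 1)] at this
      linarith
    linarith
  have hpt : ∀ t : ℝ, ‖K.Lam V t / ln (1 / 2 + 1) t‖ ≤ 9 * Real.exp 1 * C₀ *
      ((1 + |t|) ^ (-1 + (Bd - 1 + ε)) * Real.exp (-(t / V) ^ 2)) := by
    intro t
    have ht : 0 < 1 + |t| := by positivity
    have ht1 : 1 ≤ 1 + |t| := by linarith [abs_nonneg t]
    have h1 := Lam_pt_le K hK hV t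
    have h2 : ‖ln (1 / 2 + 1) t‖⁻¹ ≤ 3 * (1 + |t|)⁻¹ := by
      rw [inv_le_comm₀ (lt_of_lt_of_le (by positivity) (hln t)) (by positivity), mul_inv, inv_inv]
      linarith [hln t]
    rw [norm_div, div_eq_mul_inv]
    have h3 : (1 + |t|) ^ (-1 + Bd) * (1 + |t|)⁻¹ ≤ (1 + |t|) ^ (-1 + (Bd - 1 + ε)) := by
      rw [← Real.rpow_neg_one (1 + |t|), ← Real.rpow_add ht]
      exact Real.rpow_le_rpow_of_exponent_le ht1 (by linarith)
    calc ‖K.Lam V t‖ * ‖ln (1 / 2 + 1) t‖⁻¹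
        ≤ (3 * Real.exp 1 * C₀ * ((1 + |t|) ^ (-1 + Bd) * Real.exp (-(t / V) ^ 2))) *
          (3 * (1 + |t|)⁻¹) := mul_le_mul h1 h2 (by positivity) (by positivity)
      _ = 9 * Real.exp 1 * C₀ * (((1 + |t|) ^ (-1 + Bd) * (1 + |t|)⁻¹) *
          Real.exp (-(t / V) ^ 2)) := by ring
      _ ≤ _ := mul_le_mul_of_nonneg_left (mul_le_mul_of_nonneg_right h3 (Real.exp_pos _).le)
          (by positivity)
  have hne : ∀ t : ℝ, ln (1 / 2 + 1) t ≠ 0 := by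
    intro t h
    have h1 := hln t
    rw [h, norm_zero] at h1
    have := abs_nonneg t
    linarith
  have hint2 : Integrable (fun t => K.Lam V t / ln (1 / 2 + 1) t) :=
    (i1.const_mul (9 * Real.exp 1 * C₀)).mono'
      ((Lam_continuous K V).div (ln_continuous _) hne).aestronglyMeasurable
      (Filter.Eventually.of_forall hpt)
  have hL2 : ∫ t : ℝ, ‖K.Lam V t / ln (1 / 2 + 1) t‖ ≤
      9 * Real.exp 1 * C₀ * (C₁ * V ^ (Bd - 1 + ε)) := by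
    calc ∫ t : ℝ, ‖K.Lam V t / ln (1 / 2 + 1) t‖ ≤ ∫ t : ℝ, 9 * Real.exp 1 * C₀ *
          ((1 + |t|) ^ (-1 + (Bd - 1 + ε)) * Real.exp (-(t / V) ^ 2)) :=
          integral_mono hint2.norm (i1.const_mul _) hpt
      _ = 9 * Real.exp 1 * C₀ *
          ∫ t : ℝ, (1 + |t|) ^ (-1 + (Bd - 1 + ε)) * Real.exp (-(t / V) ^ 2) :=
          integral_const_mul _ _
      _ ≤ _ := mul_le_mul_of_nonneg_left b1 (by positivity)
  have hp := vint_prim (c := 1 / 2) (by norm_num) hint ha hab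
  have he : ∫ x in a..b, K.EV V x = ∫ x in a..b, vint (1 / 2) (K.Lam V) x := rfl
  rw [he, hp]
  have hone : ∀ y : ℝ, 0 < y → y ≤ b →
      ‖vint (1 / 2 + 1) (fun t => K.Lam V t / ln (1 / 2 + 1) t) y‖ ≤
        b ^ (3 / 2 : ℝ) * (9 * Real.exp 1 * C₀ * (C₁ * V ^ (Bd - 1 + ε))) := by
    intro y hy hyb
    refine (vint_norm_le hy).trans ?_
    have h1 : y ^ (1 / 2 + 1 : ℝ) ≤ b ^ (3 / 2 : ℝ) := by
      rw [show (1 / 2 + 1 : ℝ) = 3 / 2 by norm_num]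
      exact Real.rpow_le_rpow hy.le hyb (by norm_num)
    exact mul_le_mul h1 hL2 (integral_nonneg fun t => norm_nonneg _) (by positivity)
  refine (norm_sub_le _ _).trans ?_
  have h1 := hone b hb le_rfl
  have h2 := hone a ha hab
  calc _ ≤ b ^ (3 / 2 : ℝ) * (9 * Real.exp 1 * C₀ * (C₁ * V ^ (Bd - 1 + ε))) +
      b ^ (3 / 2 : ℝ) * (9 * Real.exp 1 * C₀ * (C₁ * V ^ (Bd - 1 + ε))) := add_le_add h1 h2
    _ = _ := by ring

end DAD
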