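import Pool.Agent.WYL.Low

set_option autoImplicit false

/-!
# DAD/Bpr: a function of degree 2 against an absolutely convergent integral
-/

open Complex MeasureTheory

namespace DAD

open HYM

theorem bpr (F : Sel) (hF : F.deg ≤ 2) {η : ℝ} (hη : 0 < η) (hη4 : η ≤ 1 / 4) :
    ∃ C : ℝ, 0 < C ∧ ∀ Y T : ℝ, 1 ≤ Y → 1 ≤ T → ∀ Lam : ℝ → ℂ, Integrable Lam →
      IntervalIntegrable (fun x => F.EV Y x * vint (1 / 2) Lam x) volume 0 T ∧
      ‖∫ x in (0 : ℝ)..T, F.EV Y x * vint (1 / 2) Lam x‖ ≤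
        C * (T ^ (3 / 2 : ℝ) * Y ^ (4 * η)) * ∫ t : ℝ, ‖Lam t‖ := by
  obtain ⟨A, hA, HA⟩ := vint_mul_bound (c₁ := 1 / 2) (c₂ := -η) (by linarith)
  obtain ⟨B₂, hB₂, HB₂⟩ := full_bound F hη hF
  obtain ⟨B₃, hB₃, HB₃⟩ := WYL.kernel_shift2 hη
  obtain ⟨B₄, hB₄, HB₄⟩ := WYL.vint_single (c := 1 / 2) (by norm_num)
  refine ⟨‖F.L 0‖ * B₄ + A * B₂ * B₃, by positivity, fun Y T hY hT Lam iL => ?_⟩
  have hT0 : 0 < T := by linarith
  have hY0 : 0 < Y := by linarith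
  have iF := full_integrable F hη hY (T := Y)
  have m0 := vint_ii (c := 1 / 2) (T := T) (by norm_num) hT0.le iL
  have m1 := vint_mul_ii (c₁ := 1 / 2) (c₂ := -η) (T := T) (by linarith) hT0.le iL iF
  have hfun : ∀ x ∈ Set.uIoc 0 T, F.EV Y x * vint (1 / 2) Lam x =
      F.L 0 * vint (1 / 2) Lam x + vint (1 / 2) Lam x * vint (-η) (F.full η Y) x := by
    intro x hx
    rw [Set.uIoc_of_le hT0.le] at hx
    rw [EV_left F hη (by linarith) hY0 hx.1]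
    ring
  have i1 := m0.const_mul (F.L 0)
  refine ⟨(i1.add m1).congr fun x hx => (hfun x hx).symm, ?_⟩
  rw [intervalIntegral.integral_congr_ae (Filter.Eventually.of_forall hfun),
    intervalIntegral.integral_add i1 m1, intervalIntegral.integral_const_mul]
  set Φ : ℝ := ∫ t : ℝ, ‖Lam t‖ with hΦ
  have hΦ0 : 0 ≤ Φ := integral_nonneg fun t => norm_nonneg _
  have g1 : 1 ≤ Y ^ (4 * η) := Real.one_le_rpow hY (by linarith)
  have g5 : Y ^ (3 * η) ≤ Y ^ (4 * η) := Real.rpow_le_rpow_of_exponent_le hY (by linarith)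
  have n1 : ‖F.L 0 * ∫ x in (0 : ℝ)..T, vint (1 / 2) Lam x‖ ≤
      ‖F.L 0‖ * B₄ * (T ^ (3 / 2 : ℝ) * Y ^ (4 * η)) * Φ := by
    rw [norm_mul]
    have h1 := HB₄ T hT0 Lam iL
    have h2 : ∫ t : ℝ, ‖Lam t‖ * (1 + |t|)⁻¹ ≤ Φ := by
      refine integral_mono_of_nonneg (Filter.Eventually.of_forall fun t => by positivity)
        iL.norm (Filter.Eventually.of_forall fun t => ?_)
      refine mul_le_of_le_one_right (norm_nonneg _) (inv_le_one_of_one_le₀ ?_)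
      linarith [abs_nonneg t]
    have e1 : (1 : ℝ) + 1 / 2 = 3 / 2 := by norm_num
    rw [e1] at h1
    calc _ ≤ ‖F.L 0‖ * (B₄ * T ^ (3 / 2 : ℝ) * Φ) := by
          refine mul_le_mul_of_nonneg_left (h1.trans ?_) (norm_nonneg _)
          exact mul_le_mul_of_nonneg_left h2 (by positivity)
      _ = ‖F.L 0‖ * B₄ * (T ^ (3 / 2 : ℝ) * 1) * Φ := by ring
      _ ≤ _ := by gcongr
  have n2 : ‖∫ x in (0 : ℝ)..T, vint (1 / 2) Lam x * vint (-η) (F.full η Y) x‖ ≤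
      A * B₂ * B₃ * (T ^ (3 / 2 : ℝ) * Y ^ (4 * η)) * Φ := by
    have h1 := HA T hT0 Lam (F.full η Y) iL iF
    have hin : ∀ t₁ : ℝ, ∫ t₂ : ℝ, ‖Lam t₁‖ * ‖F.full η Y t₂‖ * (1 + |t₁ + t₂|)⁻¹ ≤
        ‖Lam t₁‖ * (B₂ * B₃ * Y ^ (3 * η)) := by
      intro t₁
      obtain ⟨ki, kb⟩ := HB₃ Y hY t₁
      have hd : 1 ≤ 1 + |t₁| / Y := by
        have : 0 ≤ |t₁| / Y := by positivity
        linarith
      have kb' : ∫ t : ℝ, (1 + |t|) ^ (2 * η) * Real.exp (-(t / Y) ^ 2) * (1 + |t₁ + t|)⁻¹ ≤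
          B₃ * Y ^ (3 * η) := by
        have h0 : 0 ≤ ∫ t : ℝ, (1 + |t|) ^ (2 * η) * Real.exp (-(t / Y) ^ 2) *
            (1 + |t₁ + t|)⁻¹ := integral_nonneg fun t => by positivity
        nlinarith
      calc _ ≤ ∫ t₂ : ℝ, (‖Lam t₁‖ * B₂) * ((1 + |t₂|) ^ (2 * η) *
            Real.exp (-(t₂ / Y) ^ 2) * (1 + |t₁ + t₂|)⁻¹) := by
            refine integral_mono_of_nonneg (Filter.Eventually.of_forall fun t₂ => by positivity)
              (ki.const_mul _) (Filter.Eventually.of_forall fun t₂ => ?_)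
            have := HB₂ Y hY t₂
            calc _ = ‖F.full η Y t₂‖ * (‖Lam t₁‖ * (1 + |t₁ + t₂|)⁻¹) := by ring
              _ ≤ (B₂ * (1 + |t₂|) ^ (2 * η) * Real.exp (-(t₂ / Y) ^ 2)) *
                  (‖Lam t₁‖ * (1 + |t₁ + t₂|)⁻¹) :=
                  mul_le_mul_of_nonneg_right this (by positivity)
              _ = _ := by ring
        _ = (‖Lam t₁‖ * B₂) * ∫ t₂ : ℝ, ((1 + |t₂|) ^ (2 * η) *
            Real.exp (-(t₂ / Y) ^ 2) * (1 + |t₁ + t₂|)⁻¹) := by rw [integral_const_mul]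
        _ ≤ (‖Lam t₁‖ * B₂) * (B₃ * Y ^ (3 * η)) :=
            mul_le_mul_of_nonneg_left kb' (by positivity)
        _ = _ := by ring
    have hout : ∫ t₁ : ℝ, ∫ t₂ : ℝ, ‖Lam t₁‖ * ‖F.full η Y t₂‖ * (1 + |t₁ + t₂|)⁻¹ ≤
        Φ * (B₂ * B₃ * Y ^ (3 * η)) := by
      calc _ ≤ ∫ t₁ : ℝ, ‖Lam t₁‖ * (B₂ * B₃ * Y ^ (3 * η)) := by
            refine integral_mono_of_nonneg (Filter.Eventually.of_forall fun t₁ => ?_)
              (iL.norm.mul_const _) (Filter.Eventually.of_forall hin)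
            exact integral_nonneg fun t₂ => by positivity
        _ = _ := by rw [integral_mul_const]
    calc _ ≤ _ := h1
      _ ≤ A * T ^ (1 + 1 / 2 + -η) * (Φ * (B₂ * B₃ * Y ^ (3 * η))) :=
          mul_le_mul_of_nonneg_left hout (by positivity)
      _ = A * B₂ * B₃ * (T ^ (1 + 1 / 2 + -η) * Y ^ (3 * η)) * Φ := by
          generalize T ^ (1 + 1 / 2 + -η) = y
          ring
      _ ≤ _ := by
          have hTT : T ^ (1 + 1 / 2 + -η) ≤ T ^ (3 / 2 : ℝ) :=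
            Real.rpow_le_rpow_of_exponent_le hT (by linarith)
          gcongr
  refine (norm_add_le _ _).trans ((add_le_add n1 n2).trans (le_of_eq ?_))
  ring

end DAD
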