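import Pool.Agent.HYM.Afe
import Pool.Agent.HYM.Dyd
import Pool.Agent.HYM.Chi

set_option autoImplicit false

/-!
# DAD/Cvx: the convexity bound on the critical line

Plan: as WYL/Wey.lean (`HYM.afe` at `2^K ≈ (1+|t|)^(deg/2)`), with the trivial block bounds
`‖dsum (blk k) (ln c t)‖ ≤ C (2^k)^(c+ε)`.
-/

open Complex MeasureTheory

open scoped ComplexConjugate

namespace DAD

open HYM

private theorem ker_norm {σ U : ℝ} (hσ : σ ≠ 0) (hU : 0 < U) (v : ℝ) :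
    ‖(U : ℂ) ^ (HYM.ln σ v) * cexp ((HYM.ln σ v) ^ 2) / HYM.ln σ v‖ ≤
      U ^ σ * (Real.exp (σ ^ 2) / |σ|) * Real.exp (-v ^ 2) := by
  have h1 : ‖(U : ℂ) ^ (HYM.ln σ v)‖ = U ^ σ := by
    rw [Complex.norm_cpow_eq_rpow_re_of_pos hU, HYM.ln_re]
  have h2 : ‖cexp ((HYM.ln σ v) ^ 2)‖ = Real.exp (σ ^ 2) * Real.exp (-v ^ 2) := by
    rw [Complex.norm_exp, ← Real.exp_add]
    congr 1
    rw [pow_two, Complex.mul_re, HYM.ln_re, HYM.ln_im]
    ring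
  have h3 : |σ| ≤ ‖HYM.ln σ v‖ := by
    have := Complex.abs_re_le_norm (HYM.ln σ v)
    rwa [HYM.ln_re] at this
  have h4 : 0 < |σ| := abs_pos.2 hσ
  rw [norm_div, norm_mul, h1, h2]
  calc U ^ σ * (Real.exp (σ ^ 2) * Real.exp (-v ^ 2)) / ‖HYM.ln σ v‖
      ≤ U ^ σ * (Real.exp (σ ^ 2) * Real.exp (-v ^ 2)) / |σ| := by gcongr
    _ = _ := by ring

private theorem gint {q : ℝ} (hq : 0 ≤ q) :
    Integrable (fun v : ℝ => (1 + |v|) ^ q * Real.exp (-v ^ 2)) := by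
  obtain ⟨C, hC, h⟩ := HYM.pow_gauss hq
  have hs : (1 : ℝ) ≤ √2 := by
    rw [Real.one_le_sqrt]; norm_num
  have hI : Integrable (fun v : ℝ => C * √2 ^ q * Real.exp (-(1 / 2) * v ^ 2)) :=
    (integrable_exp_neg_mul_sq (by norm_num : (0 : ℝ) < 1 / 2)).const_mul _
  refine hI.mono' ?_ ?_
  · apply Continuous.aestronglyMeasurable
    apply Continuous.mul
    · apply Continuous.rpow_const (by fun_prop)
      intro v
      left
      positivity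
    · fun_prop
  · refine Filter.Eventually.of_forall fun v => ?_
    have h1 := h √2 hs v
    have e1 : (v / √2) ^ 2 = v ^ 2 / 2 := by
      rw [div_pow, Real.sq_sqrt (by norm_num)]
    rw [e1] at h1
    have e2 : Real.exp (-v ^ 2) = Real.exp (-(v ^ 2 / 2)) * Real.exp (-(1 / 2) * v ^ 2) := by
      rw [← Real.exp_add]; congr 1; ring
    rw [Real.norm_eq_abs, abs_of_nonneg (by positivity), e2, ← mul_assoc]
    exact mul_le_mul_of_nonneg_right h1 (Real.exp_pos _).le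

private theorem shift_le (a t v : ℝ) : (1 + |t + v|) ^ a ≤ (1 + |t|) ^ a * (1 + |v|) ^ |a| := by
  have ht := abs_nonneg t
  have hv := abs_nonneg v
  have htv := abs_nonneg (t + v)
  rcases le_total 0 a with h | h
  · rw [abs_of_nonneg h, ← Real.mul_rpow (by positivity) (by positivity)]
    apply Real.rpow_le_rpow (by positivity) _ h
    have := abs_add_le t v
    nlinarith
  · rw [abs_of_nonpos h]
    have h1 : (1 + |t|) ^ a * (1 + |v|) ^ (-a) = ((1 + |t|) / (1 + |v|)) ^ a := by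
      rw [Real.div_rpow (by positivity) (by positivity), Real.rpow_neg (by positivity)]
      field_simp
    rw [h1]
    apply Real.rpow_le_rpow_of_nonpos (by positivity) _ h
    rw [div_le_iff₀ (by positivity)]
    have h2 : |t| ≤ |t + v| + |v| := by
      have := abs_sub (t + v) v
      rwa [add_sub_cancel_right] at this
    nlinarith

private theorem jbd (σ a : ℝ) (hσ : σ ≠ 0) : ∃ C : ℝ, 0 < C ∧
    ∀ (U : ℝ) (G : ℝ → ℂ) (B t : ℝ), 0 < U → 0 ≤ B →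
    (∀ τ, ‖G τ‖ ≤ B * (1 + |τ|) ^ a) →
    ‖HYM.Jop σ U G t‖ ≤ C * U ^ σ * (B * (1 + |t|) ^ a) := by
  set D := Real.exp (σ ^ 2) / |σ| with hD
  have hσ' : 0 < |σ| := abs_pos.2 hσ
  have hD0 : 0 < D := by positivity
  have hia := gint (abs_nonneg a)
  set Ia := ∫ v : ℝ, (1 + |v|) ^ |a| * Real.exp (-v ^ 2) with hIa
  have hIa0 : 0 ≤ Ia := integral_nonneg fun v => by positivity
  refine ⟨D * (Ia + 1), by positivity, ?_⟩
  intro U G B t hU hB hG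
  have hX : 0 < 1 + |t| := by positivity
  have hXa : 0 < (1 + |t|) ^ a := Real.rpow_pos_of_pos hX _
  have hUσ : 0 < U ^ σ := Real.rpow_pos_of_pos hU _
  have hgi : Integrable (fun v : ℝ => U ^ σ * D * (B * (1 + |t|) ^ a *
      ((1 + |v|) ^ |a| * Real.exp (-v ^ 2)))) :=
    (hia.const_mul _).const_mul _
  have hle : ∀ v : ℝ, ‖G (t + v) * ((U : ℂ) ^ (HYM.ln σ v) * cexp ((HYM.ln σ v) ^ 2) /
      HYM.ln σ v)‖ ≤ U ^ σ * D * (B * (1 + |t|) ^ a *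
      ((1 + |v|) ^ |a| * Real.exp (-v ^ 2))) := by
    intro v
    rw [norm_mul]
    have h1 := hG (t + v)
    have h2 := ker_norm hσ hU v
    have h3 := shift_le a t v
    calc ‖G (t + v)‖ * ‖(U : ℂ) ^ (HYM.ln σ v) * cexp ((HYM.ln σ v) ^ 2) / HYM.ln σ v‖
        ≤ (B * ((1 + |t|) ^ a * (1 + |v|) ^ |a|)) *
          (U ^ σ * D * Real.exp (-v ^ 2)) := by
          apply mul_le_mul _ h2 (norm_nonneg _) (by positivity)
          refine h1.trans ?_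
          gcongr
      _ = _ := by ring
  have h5 := norm_integral_le_of_norm_le hgi (Filter.Eventually.of_forall hle)
  rw [integral_const_mul, integral_const_mul] at h5
  unfold HYM.Jop
  rw [norm_mul]
  have h6 : ‖(2 * (Real.pi : ℂ))⁻¹‖ ≤ 1 := by
    rw [norm_inv, norm_mul, Complex.norm_real, Real.norm_eq_abs, abs_of_pos Real.pi_pos,
      Complex.norm_ofNat]
    apply inv_le_one_of_one_le₀
    have := Real.pi_gt_three
    linarith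
  refine (mul_le_mul h6 h5 (norm_nonneg _) zero_le_one).trans ?_
  rw [one_mul]
  have h7 : B * (1 + |t|) ^ a * Ia ≤ B * (1 + |t|) ^ a * (Ia + 1) := by
    apply mul_le_mul_of_nonneg_left (by linarith) (by positivity)
  calc U ^ σ * D * (B * (1 + |t|) ^ a * Ia)
      ≤ U ^ σ * D * (B * (1 + |t|) ^ a * (Ia + 1)) := by gcongr
    _ = _ := by ring

private theorem pow_two_rpow (k : ℕ) (e : ℝ) : ((2 : ℝ) ^ k) ^ e = ((2 : ℝ) ^ e) ^ k := by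
  rw [← Real.rpow_natCast, ← Real.rpow_mul (by norm_num), mul_comm,
    Real.rpow_mul (by norm_num), Real.rpow_natCast]

private theorem geo2 {e : ℝ} (he : 0 < e) : ∃ C : ℝ, 0 < C ∧ ∀ K : ℕ,
    ∑ k ∈ Finset.range K, ((2 : ℝ) ^ k) ^ e ≤ C * ((2 : ℝ) ^ K) ^ e := by
  have h1 : 1 < (2 : ℝ) ^ e := Real.one_lt_rpow (by norm_num) he
  refine ⟨1 / (2 ^ e - 1), by apply one_div_pos.2; linarith, fun K => ?_⟩
  simp only [pow_two_rpow]
  rw [geom_sum_eq h1.ne', one_div_mul_eq_div]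
  apply div_le_div_of_nonneg_right _ (by linarith)
  linarith

private theorem ddir_norm (a : ℕ → ℂ) {c d : ℝ} (h : d = 1 - c) (t : ℝ) :
    ‖HYM.ddir a (HYM.ln c t)‖ = ‖HYM.dsum a (HYM.ln d t)‖ := by
  have h1 : 1 - (starRingEnd ℂ) (HYM.ln c t) = HYM.ln d t := by
    rw [h]
    apply Complex.ext <;> simp [HYM.ln]
  unfold HYM.ddir
  rw [RCLike.norm_conj, h1]

/-- powers of comparable numbers -/
private theorem rp {A B : ℝ} (hA : 0 < A) (h1 : A ≤ B) (h2 : B ≤ 2 * A) (p : ℝ) :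
    B ^ p ≤ 2 ^ |p| * A ^ p := by
  have hB : 0 < B := by linarith
  rcases le_total 0 p with h | h
  · rw [abs_of_nonneg h, ← Real.mul_rpow (by norm_num) hA.le]
    exact Real.rpow_le_rpow hB.le h2 h
  · have h3 : B ^ p ≤ A ^ p := Real.rpow_le_rpow_of_nonpos hA h1 h
    have h4 : (1 : ℝ) ≤ 2 ^ |p| := Real.one_le_rpow (by norm_num) (abs_nonneg _)
    have h5 : 0 < A ^ p := Real.rpow_pos_of_pos hA _
    nlinarith

/-- one term `U^p X^e` -/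
private theorem uterm {U X κ p e E : ℝ} (hX : 1 ≤ X) (h1 : X ^ κ ≤ U) (h2 : U ≤ 2 * X ^ κ)
    (he : κ * p + e ≤ E) : U ^ p * X ^ e ≤ 2 ^ |p| * X ^ E := by
  have hX0 : 0 < X := by linarith
  have h3 := rp (Real.rpow_pos_of_pos hX0 κ) h1 h2 p
  have h4 : 0 < X ^ e := Real.rpow_pos_of_pos hX0 _
  rw [← Real.rpow_mul hX0.le] at h3
  calc U ^ p * X ^ e ≤ (2 ^ |p| * X ^ (κ * p)) * X ^ e := by gcongr
    _ = 2 ^ |p| * X ^ (κ * p + e) := by rw [Real.rpow_add hX0]; ring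
    _ ≤ 2 ^ |p| * X ^ E := by
        apply mul_le_mul_of_nonneg_left _ (by positivity)
        exact Real.rpow_le_rpow_of_exponent_le hX he

/-- the sum over the blocks -/
private theorem blocks {κ σ a e E : ℝ} (hσ : σ ≠ 0) (he : 0 < e)
    (h1 : κ * (σ + e) + a ≤ E) (C₀ : ℝ) (hC₀ : 0 < C₀) :
    ∃ C : ℝ, 0 < C ∧ ∀ (K : ℕ) (G : ℕ → ℝ → ℂ) (t : ℝ), (1 + |t|) ^ κ ≤ 2 ^ K →
      (2 : ℝ) ^ K ≤ 2 * (1 + |t|) ^ κ →
      (∀ k τ, ‖G k τ‖ ≤ C₀ * ((2 : ℝ) ^ k) ^ e * (1 + |τ|) ^ a) →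
      ‖∑ k ∈ Finset.range K, HYM.Jop σ (2 ^ K) (G k) t‖ ≤ C * (1 + |t|) ^ E := by
  obtain ⟨CJ, hCJ, hJ⟩ := jbd σ a hσ
  obtain ⟨S2, hS2, hs2⟩ := geo2 he
  refine ⟨CJ * C₀ * (S2 * 2 ^ |σ + e|), by positivity, ?_⟩
  intro K G t hU1 hU2 hG
  set X := 1 + |t| with hX
  have hX1 : 1 ≤ X := by rw [hX]; linarith [abs_nonneg t]
  have hX0 : 0 < X := by linarith
  set U : ℝ := 2 ^ K with hU
  have hU0 : 0 < U := by positivity
  have hUσ : 0 < U ^ σ := Real.rpow_pos_of_pos hU0 _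
  have hXa : 0 < X ^ a := Real.rpow_pos_of_pos hX0 _
  have hk : ∀ k ∈ Finset.range K, ‖HYM.Jop σ U (G k) t‖ ≤
      CJ * U ^ σ * C₀ * X ^ a * ((2 : ℝ) ^ k) ^ e := by
    intro k _
    refine (hJ U (G k) (C₀ * ((2 : ℝ) ^ k) ^ e) t hU0 (by positivity)
      (hG k)).trans (le_of_eq ?_)
    ring
  refine (norm_sum_le_of_le _ hk).trans ?_
  rw [← Finset.mul_sum]
  have t2 := uterm (p := σ + e) (e := a) hX1 hU1 hU2 h1
  calc CJ * U ^ σ * C₀ * X ^ a * ∑ k ∈ Finset.range K, ((2 : ℝ) ^ k) ^ e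
      ≤ CJ * U ^ σ * C₀ * X ^ a * (S2 * U ^ e) :=
        mul_le_mul_of_nonneg_left (hs2 K) (by positivity)
    _ = CJ * C₀ * S2 * (U ^ (σ + e) * X ^ a) := by
        rw [Real.rpow_add hU0]; ring
    _ ≤ CJ * C₀ * S2 * (2 ^ |σ + e| * X ^ E) := by
        gcongr
    _ = _ := by ring

/-- the tail -/
private theorem tail {κ σ a e E : ℝ} (hσ : σ ≠ 0)
    (h1 : κ * (σ + e) + a ≤ E) (C₀ : ℝ) (hC₀ : 0 < C₀) :
    ∃ C : ℝ, 0 < C ∧ ∀ (K : ℕ) (G : ℝ → ℂ) (t : ℝ), (1 + |t|) ^ κ ≤ 2 ^ K →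
      (2 : ℝ) ^ K ≤ 2 * (1 + |t|) ^ κ →
      (∀ τ, ‖G τ‖ ≤ C₀ * ((2 : ℝ) ^ K) ^ e * (1 + |τ|) ^ a) →
      ‖HYM.Jop σ (2 ^ K) G t‖ ≤ C * (1 + |t|) ^ E := by
  obtain ⟨CJ, hCJ, hJ⟩ := jbd σ a hσ
  refine ⟨CJ * C₀ * 2 ^ |σ + e|, by positivity, ?_⟩
  intro K G t hU1 hU2 hG
  set X := 1 + |t| with hX
  have hX1 : 1 ≤ X := by rw [hX]; linarith [abs_nonneg t]
  have hX0 : 0 < X := by linarith
  set U : ℝ := 2 ^ K with hU
  have hU0 : 0 < U := by positivity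
  refine (hJ U G (C₀ * U ^ e) t hU0 (by positivity) hG).trans ?_
  have t1 := uterm (p := σ + e) (e := a) hX1 hU1 hU2 h1
  calc CJ * U ^ σ * (C₀ * U ^ e * X ^ a)
      = CJ * C₀ * (U ^ (σ + e) * X ^ a) := by
        rw [Real.rpow_add hU0]; ring
    _ ≤ CJ * C₀ * (2 ^ |σ + e| * X ^ E) := by
        gcongr
    _ = _ := by ring

/-- `K` with `(1+|t|)^κ ≤ 2^K ≤ 2 (1+|t|)^κ` -/
private theorem exists_K {κ : ℝ} (hκ : 0 ≤ κ) (t : ℝ) : ∃ K : ℕ, (1 + |t|) ^ κ ≤ 2 ^ K ∧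
    (2 : ℝ) ^ K ≤ 2 * (1 + |t|) ^ κ := by
  have h1 : 1 ≤ (1 + |t|) ^ κ := Real.one_le_rpow (by linarith [abs_nonneg t]) hκ
  obtain ⟨h2, h3⟩ := HYM.KT_spec ((1 + |t|) ^ κ) h1
  refine ⟨HYM.KT ((1 + |t|) ^ κ), h2, ?_⟩
  rcases Nat.eq_zero_or_pos (HYM.KT ((1 + |t|) ^ κ)) with h0 | h0
  · rw [h0, pow_zero]; linarith
  · obtain ⟨j, hj⟩ : ∃ j, HYM.KT ((1 + |t|) ^ κ) = j + 1 :=
      ⟨HYM.KT ((1 + |t|) ^ κ) - 1, by omega⟩
    have h4 := h3 j (by omega)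
    rw [hj, pow_succ]
    linarith

/-- a bound for `rr * chi * dsum` -/
private theorem dual_pt (Z : HYM.Sel) {c : ℝ} (hc : c < 1) (hc2 : -(1 / 2) ≤ c) :
    ∃ C : ℝ, 0 < C ∧ ∀ (τ : ℝ) (d : ℂ) (M : ℝ), 0 ≤ M → ‖d‖ ≤ M →
      ‖Z.rr (HYM.ln c τ) * Z.chi (HYM.ln c τ) * d‖ ≤
        C * M * (1 + |τ|) ^ (Z.deg * (1 / 2 - c)) := by
  obtain ⟨C, hC, h⟩ := HYM.chi_bound Z c c hc
  refine ⟨C, hC, fun τ d M hM hd => ?_⟩
  have h1 := HYM.rr_le Z (s := HYM.ln c τ) (by rw [HYM.ln_re]; exact hc2)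
  have h2 := h c ⟨le_rfl, le_rfl⟩ τ
  rw [norm_mul, norm_mul]
  calc ‖Z.rr (HYM.ln c τ)‖ * ‖Z.chi (HYM.ln c τ)‖ * ‖d‖
      ≤ 1 * (C * (1 + |τ|) ^ (Z.deg * (1 / 2 - c))) * M := by
        apply mul_le_mul _ hd (norm_nonneg _) (by positivity)
        exact mul_le_mul h1 h2 (norm_nonneg _) zero_le_one
    _ = _ := by ring

/-- the trivial bound of a block -/
private theorem blk_triv (F : Sel) {δ : ℝ} (hδ : 0 < δ) (c : ℝ) : ∃ C : ℝ, 0 < C ∧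
    ∀ (k : ℕ) (τ : ℝ), ‖dsum (F.blk k) (ln c τ)‖ ≤ C * ((2 : ℝ) ^ k) ^ (c + δ) := by
  obtain ⟨D, hD⟩ := F.ram δ hδ
  refine ⟨(|D| + 1) * 2 ^ |c - 1 + δ|, by positivity, fun k τ => ?_⟩
  have h0 : dsum (F.blk k) (ln c τ) = ∑ n ∈ Finset.Ico (2 ^ k) (2 ^ (k + 1)),
      F.blk k n * (n : ℂ) ^ (ln c τ - 1) := by
    unfold dsum
    refine tsum_eq_sum fun n hn => ?_
    rw [Finset.mem_Ico] at hn
    unfold Sel.blk
    rw [if_neg hn, zero_mul]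
  rw [h0]
  have hA : (0 : ℝ) < 2 ^ k := by positivity
  have h1 : ∀ n ∈ Finset.Ico (2 ^ k) (2 ^ (k + 1)), ‖F.blk k n * (n : ℂ) ^ (ln c τ - 1)‖ ≤
      (|D| + 1) * 2 ^ |c - 1 + δ| * ((2 : ℝ) ^ k) ^ (c - 1 + δ) := by
    intro n hn
    rw [Finset.mem_Ico] at hn
    have hk1 : 1 ≤ 2 ^ k := Nat.one_le_two_pow
    have hn1 : 1 ≤ n := by omega
    have hn0 : (0 : ℝ) < n := by exact_mod_cast hn1
    have h2 : ‖(n : ℂ) ^ (ln c τ - 1)‖ = (n : ℝ) ^ (c - 1) := by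
      rw [Complex.norm_natCast_cpow_of_pos hn1]
      congr 1
      rw [Complex.sub_re, ln_re, Complex.one_re]
    have h3 : ‖F.blk k n‖ = ‖F.f n‖ := by
      unfold Sel.blk
      rw [if_pos hn, RCLike.norm_conj]
    have h4 := hD n hn1
    have h5 : (n : ℝ) ^ (c - 1 + δ) ≤ 2 ^ |c - 1 + δ| * ((2 : ℝ) ^ k) ^ (c - 1 + δ) := by
      apply rp hA
      · exact_mod_cast hn.1
      · have := hn.2.le
        rw [pow_succ, mul_comm] at this
        exact_mod_cast this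
    rw [norm_mul, h2, h3]
    have h6 : (0 : ℝ) ≤ (n : ℝ) ^ δ := by positivity
    calc ‖F.f n‖ * (n : ℝ) ^ (c - 1) ≤ ((|D| + 1) * (n : ℝ) ^ δ) * (n : ℝ) ^ (c - 1) := by
          apply mul_le_mul_of_nonneg_right _ (by positivity)
          refine h4.trans ?_
          apply mul_le_mul_of_nonneg_right _ h6
          linarith [le_abs_self D]
      _ = (|D| + 1) * (n : ℝ) ^ (c - 1 + δ) := by
          rw [Real.rpow_add hn0]; ring
      _ ≤ (|D| + 1) * (2 ^ |c - 1 + δ| * ((2 : ℝ) ^ k) ^ (c - 1 + δ)) := by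
          apply mul_le_mul_of_nonneg_left h5 (by positivity)
      _ = _ := by ring
  refine (norm_sum_le_of_le _ h1).trans ?_
  rw [Finset.sum_const, Nat.card_Ico, nsmul_eq_mul]
  have h2 : 2 ^ (k + 1) - 2 ^ k = 2 ^ k := by
    rw [pow_succ]; omega
  rw [h2]
  apply le_of_eq
  have h3 : ((2 : ℝ) ^ k) ^ (c + δ) = (2 : ℝ) ^ k * ((2 : ℝ) ^ k) ^ (c - 1 + δ) := by
    have : c + δ = 1 + (c - 1 + δ) := by ring
    rw [this, Real.rpow_add hA, Real.rpow_one]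
  rw [h3]
  push_cast
  ring

/-- the trivial bound of a tail -/
private theorem tl_triv (F : Sel) {δ : ℝ} (hδ : 0 < δ) {c : ℝ} (hc : c < 0)
    (hcδ : c + 2 * δ ≤ 0) : ∃ C : ℝ, 0 < C ∧
    ∀ (K : ℕ) (τ : ℝ), ‖dsum (F.tl K) (ln c τ)‖ ≤ C * ((2 : ℝ) ^ K) ^ (c + 2 * δ) := by
  obtain ⟨D, hD⟩ := F.ram δ hδ
  have hsum : Summable (fun n : ℕ => (n : ℝ) ^ (-1 - δ)) :=
    Real.summable_nat_rpow.2 (by linarith)
  have hnn : 0 ≤ ∑' n : ℕ, (n : ℝ) ^ (-1 - δ) := tsum_nonneg fun n => by positivity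
  refine ⟨(|D| + 1) * (∑' n : ℕ, (n : ℝ) ^ (-1 - δ) + 1), by positivity, fun K τ => ?_⟩
  have hA : (0 : ℝ) < 2 ^ K := by positivity
  have hs := tl_summable F K (s := ln c τ) (by rw [ln_re]; exact hc)
  have hle : ∀ n : ℕ, ‖F.tl K n * (n : ℂ) ^ (ln c τ - 1)‖ ≤
      (|D| + 1) * ((2 : ℝ) ^ K) ^ (c + 2 * δ) * (n : ℝ) ^ (-1 - δ) := by
    intro n
    by_cases hn : 2 ^ K ≤ n
    · have hk1 : 1 ≤ 2 ^ K := Nat.one_le_two_pow
      have hn1 : 1 ≤ n := by omega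
      have hn0 : (0 : ℝ) < n := by exact_mod_cast hn1
      have h2 : ‖(n : ℂ) ^ (ln c τ - 1)‖ = (n : ℝ) ^ (c - 1) := by
        rw [Complex.norm_natCast_cpow_of_pos hn1]
        congr 1
        rw [Complex.sub_re, ln_re, Complex.one_re]
      have h3 : ‖F.tl K n‖ = ‖F.f n‖ := by
        unfold Sel.tl
        rw [if_pos hn, RCLike.norm_conj]
      have h4 := hD n hn1
      have h6 : (0 : ℝ) ≤ (n : ℝ) ^ δ := by positivity
      have h7 : (n : ℝ) ^ (c + 2 * δ) ≤ ((2 : ℝ) ^ K) ^ (c + 2 * δ) :=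
        Real.rpow_le_rpow_of_nonpos hA (by exact_mod_cast hn) hcδ
      rw [norm_mul, h2, h3]
      calc ‖F.f n‖ * (n : ℝ) ^ (c - 1) ≤ ((|D| + 1) * (n : ℝ) ^ δ) * (n : ℝ) ^ (c - 1) := by
            apply mul_le_mul_of_nonneg_right _ (by positivity)
            refine h4.trans ?_
            apply mul_le_mul_of_nonneg_right _ h6
            linarith [le_abs_self D]
        _ = (|D| + 1) * ((n : ℝ) ^ (c + 2 * δ) * (n : ℝ) ^ (-1 - δ)) := by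
            rw [← Real.rpow_add hn0, mul_assoc, ← Real.rpow_add hn0]
            congr 2; ring
        _ ≤ (|D| + 1) * (((2 : ℝ) ^ K) ^ (c + 2 * δ) * (n : ℝ) ^ (-1 - δ)) := by
            apply mul_le_mul_of_nonneg_left _ (by positivity)
            apply mul_le_mul_of_nonneg_right h7 (by positivity)
        _ = _ := by ring
    · unfold Sel.tl
      rw [if_neg hn, zero_mul, norm_zero]
      positivity
  unfold dsum
  refine (norm_tsum_le_tsum_norm hs).trans ?_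
  refine (Summable.tsum_le_tsum hle hs (hsum.mul_left _)).trans ?_
  rw [tsum_mul_left]
  have h8 : 0 < ((2 : ℝ) ^ K) ^ (c + 2 * δ) := Real.rpow_pos_of_pos hA _
  calc (|D| + 1) * ((2 : ℝ) ^ K) ^ (c + 2 * δ) * ∑' n : ℕ, (n : ℝ) ^ (-1 - δ)
      ≤ (|D| + 1) * ((2 : ℝ) ^ K) ^ (c + 2 * δ) * (∑' n : ℕ, (n : ℝ) ^ (-1 - δ) + 1) := by
        apply mul_le_mul_of_nonneg_left (by linarith) (by positivity)
    _ = _ := by ring

private theorem deg_nonneg (F : Sel) : 0 ≤ F.deg := by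
  unfold Sel.deg
  have : 0 ≤ ∑ j, F.lam j := Finset.sum_nonneg fun j _ => (F.lam_pos j).le
  linarith

theorem convex_half (F : Sel) {ε : ℝ} (hε : 0 < ε) : ∃ C : ℝ, 0 < C ∧ ∀ t : ℝ,
    ‖F.L (ln (1 / 2) t)‖ ≤ C * (1 + |t|) ^ (F.deg / 4 + ε) := by
  have hdeg := deg_nonneg F
  set κ : ℝ := F.deg / 2 with hκ
  have hκ0 : 0 ≤ κ := by positivity
  set δ : ℝ := min (1 / 32) (ε / (2 * (κ + 1))) with hδ
  have hδ0 : 0 < δ := lt_min (by norm_num) (by positivity)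
  have hδ1 : δ ≤ 1 / 32 := min_le_left _ _
  have hδ2 : κ * (2 * δ) ≤ ε := by
    have h1 : δ ≤ ε / (2 * (κ + 1)) := min_le_right _ _
    rw [le_div_iff₀ (by positivity)] at h1
    nlinarith
  have hδ3 : κ * δ ≤ ε := by
    have : 0 ≤ κ * δ := by positivity
    linarith
  have hdk : F.deg / 4 + ε = κ / 2 + ε := by rw [hκ]; ring
  rw [hdk]
  set E : ℝ := κ / 2 + ε with hE
  obtain ⟨B1, hB1, hb1⟩ := blk_triv F hδ0 (1 / 2 - 1 / 8)
  obtain ⟨B2, hB2, hb2⟩ := tl_triv F hδ0 (c := -(1 / 4)) (by norm_num) (by linarith)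
  obtain ⟨B4, hB4, hb4⟩ := tl_triv F hδ0 (c := -(1 / 8)) (by norm_num) (by linarith)
  obtain ⟨Cd1, hCd1, hd1⟩ := dual_pt F (c := 1 / 2 - 1 / 8) (by norm_num) (by norm_num)
  obtain ⟨Cd2, hCd2, hd2⟩ := dual_pt F (c := -(1 / 8)) (by norm_num) (by norm_num)
  obtain ⟨C1, hC1, h1⟩ := blocks (κ := κ) (σ := 1 / 8) (a := 0) (e := 1 / 2 - 1 / 8 + δ) (E := E)
    (by norm_num) (by linarith) (by rw [hE]; nlinarith) B1 hB1
  obtain ⟨C2, hC2, h2⟩ := tail (κ := κ) (σ := 1 / 2 + 2 * (1 / 8)) (a := 0)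
    (e := -(1 / 4) + 2 * δ) (E := E)
    (by norm_num) (by rw [hE]; nlinarith) B2 hB2
  obtain ⟨C3, hC3, h3⟩ := blocks (κ := κ) (σ := -(1 / 8)) (a := F.deg * (1 / 2 - (1 / 2 - 1 / 8)))
    (e := 1 / 2 - 1 / 8 + δ) (E := E)
    (by norm_num) (by linarith) (by rw [hE, hκ] at *; nlinarith) (Cd1 * B1) (by positivity)
  obtain ⟨C4, hC4, h4⟩ := tail (κ := κ) (σ := -(1 / 2) - 1 / 8) (a := F.deg * (1 / 2 - -(1 / 8)))
    (e := -(1 / 8) + 2 * δ) (E := E)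
    (by norm_num) (by rw [hE, hκ] at *; nlinarith) (Cd2 * B4) (by positivity)
  refine ⟨5 ^ F.m * (C1 + C2 + C3 + C4), by positivity, fun t => ?_⟩
  obtain ⟨K, hK1, hK2⟩ := exists_K hκ0 t
  have hX0 : 0 < 1 + |t| := by positivity
  -- (1)
  have g1 := h1 K (fun k τ => F.rr (HYM.ln (1 / 2 + 1 / 8) τ) *
    HYM.ddir (F.blk k) (HYM.ln (1 / 2 + 1 / 8) τ)) t hK1 hK2 (fun k τ => by
      rw [norm_mul, ddir_norm (d := 1 / 2 - 1 / 8) _ (by norm_num), Real.rpow_zero, mul_one]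
      have r1 := HYM.rr_le F (s := HYM.ln (1 / 2 + 1 / 8) τ) (by rw [HYM.ln_re]; norm_num)
      exact (mul_le_of_le_one_left (norm_nonneg _) r1).trans (hb1 k τ))
  -- (2)
  have g2 := h2 K (fun τ => F.rr (HYM.ln (1 + 2 * (1 / 8)) τ) *
    HYM.ddir (F.tl K) (HYM.ln (1 + 2 * (1 / 8)) τ)) t hK1 hK2 (fun τ => by
      rw [norm_mul, ddir_norm (d := -(1 / 4)) _ (by norm_num), Real.rpow_zero, mul_one]
      have r1 := HYM.rr_le F (s := HYM.ln (1 + 2 * (1 / 8)) τ) (by rw [HYM.ln_re]; norm_num)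
      exact (mul_le_of_le_one_left (norm_nonneg _) r1).trans (hb2 K τ))
  -- (3)
  have g3 := h3 K (fun k τ => F.rr (HYM.ln (1 / 2 - 1 / 8) τ) * F.chi (HYM.ln (1 / 2 - 1 / 8) τ) *
    HYM.dsum (F.blk k) (HYM.ln (1 / 2 - 1 / 8) τ)) t hK1 hK2 (fun k τ => by
      have r3 := hd1 τ _ _ (by positivity) (hb1 k τ)
      refine r3.trans (le_of_eq ?_)
      ring)
  -- (4)
  have g4 := h4 K (fun τ => F.rr (HYM.ln (-(1 / 8)) τ) * F.chi (HYM.ln (-(1 / 8)) τ) *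
    HYM.dsum (F.tl K) (HYM.ln (-(1 / 8)) τ)) t hK1 hK2 (fun τ => by
      have r3 := hd2 τ _ _ (by positivity) (hb4 K τ)
      refine r3.trans (le_of_eq ?_)
      ring)
  have hU : (0 : ℝ) < 2 ^ K := by positivity
  have hafe := HYM.afe F (ε := 1 / 8) (by norm_num) le_rfl K hU t
  have hn : ‖F.RR (HYM.ln (1 / 2) t)‖ ≤ (C1 + C2 + C3 + C4) * (1 + |t|) ^ E := by
    rw [hafe]
    refine (norm_sub_le _ _).trans ?_
    refine (add_le_add (norm_sub_le _ _) le_rfl).trans ?_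
    refine (add_le_add (add_le_add (norm_add_le _ _) le_rfl) le_rfl).trans ?_
    linarith
  refine (HYM.L_le_RR F t).trans ?_
  rw [mul_assoc]
  exact mul_le_mul_of_nonneg_left hn (by positivity)

end DAD
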