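import Pool.Agent.WYL.Fm

set_option autoImplicit false

/-!
# DAD/Defs: definitions for the degrees 2 and d (MP_dafbe7_nt)
-/

open Complex MeasureTheory

namespace DAD

open HYM

/-- The coefficients of a member of the class as an arithmetic function. -/
noncomputable def af (G : Sel) : ArithmeticFunction ℂ :=
  ⟨fun n => if n = 0 then 0 else G.f n, by simp⟩

/-- The restriction of an arithmetic function to `n ≤ N`. -/
noncomputable def cut (N : ℝ) (a : ArithmeticFunction ℂ) : ArithmeticFunction ℂ :=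
  ⟨fun n => if (n : ℝ) ≤ N then a n else 0, by simp⟩

/-- The weight `(exp (s²/(2V)²) - exp (s²/V²)) / s` on the line `Re s = 1/2`. -/
noncomputable def wt (V t : ℝ) : ℂ :=
  (cexp ((ln (1 / 2) t) ^ 2 / ((2 * V : ℝ) : ℂ) ^ 2) - cexp ((ln (1 / 2) t) ^ 2 / (V : ℂ) ^ 2)) /
    ln (1 / 2) t

/-- The Dirichlet series of `a` on the line `Re s = 1/2` (used for finite support). -/
noncomputable def dp (a : ArithmeticFunction ℂ) (t : ℝ) : ℂ :=
  LSeries (fun n => a n) (ln (1 / 2) t)

/-- The difference of two smoothed sums of `a`. -/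
noncomputable def W (V : ℝ) (a : ArithmeticFunction ℂ) (x : ℝ) : ℂ :=
  ∑' n : ℕ, a n * ((Phi (2 * V) (Real.log (x / n)) - Phi V (Real.log (x / n)) : ℝ) : ℂ)

/-- The first `j` factors. -/
noncomputable def PP (g : ℕ → ArithmeticFunction ℂ) (j : ℕ) : ArithmeticFunction ℂ :=
  ∏ i ∈ Finset.range j, g i

/-- The factors `j ≤ i < r`. -/
noncomputable def RR (g : ℕ → ArithmeticFunction ℂ) (r j : ℕ) : ArithmeticFunction ℂ :=
  ∏ i ∈ Finset.Ico j r, g i

end DAD
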