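import Pool.Agent.DAD.Defs
import Pool.Agent.Helper8.DivBound

set_option autoImplicit false

/-!
# DAD/Div: coefficient bounds

The divisor bound `#divisors n ≤ C n^ε` gives that the arithmetic functions `a` with
`a n ≪ n^ε` for all `ε > 0` are closed under Dirichlet convolution. The majorant of a
product of arithmetic functions is the product of the functions of absolute values.
-/

open Complex MeasureTheory

namespace DAD

open HYM

/-- The arithmetic function of absolute values. -/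
noncomputable def ab (a : ArithmeticFunction ℂ) : ArithmeticFunction ℝ :=
  ⟨fun n => ‖a n‖, by simp⟩

/-- `a n ≪ n^ε` for every `ε > 0`. -/
def Sm (a : ArithmeticFunction ℝ) : Prop :=
  ∀ ε : ℝ, 0 < ε → ∃ C : ℝ, 0 < C ∧ ∀ n : ℕ, 1 ≤ n → |a n| ≤ C * (n : ℝ) ^ ε

theorem Sm_mul {a b : ArithmeticFunction ℝ} (ha : Sm a) (hb : Sm b) : Sm (a * b) := by
  intro ε hε
  obtain ⟨A, hA0, hA⟩ := ha (ε / 2) (by positivity)
  obtain ⟨B, hB0, hB⟩ := hb (ε / 2) (by positivity)
  obtain ⟨D, hD1, hD⟩ := Pool.Agent.Helper8.ArtinLS.divisor_bound (ε / 2) (by positivity)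
  refine ⟨A * B * D, by positivity, fun n hn => ?_⟩
  have hn0 : (0 : ℝ) < n := by exact_mod_cast hn
  rw [ArithmeticFunction.mul_apply]
  calc |∑ x ∈ n.divisorsAntidiagonal, a x.1 * b x.2|
      ≤ ∑ x ∈ n.divisorsAntidiagonal, |a x.1 * b x.2| := Finset.abs_sum_le_sum_abs _ _
    _ ≤ ∑ _x ∈ n.divisorsAntidiagonal, A * B * (n : ℝ) ^ (ε / 2) := by
        refine Finset.sum_le_sum fun x hx => ?_
        rw [Nat.mem_divisorsAntidiagonal] at hx
        obtain ⟨hx1, hx0⟩ := hx
        have h1 : 1 ≤ x.1 := Nat.one_le_iff_ne_zero.2 (by rintro h; simp [h] at hx1; omega)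
        have h2 : 1 ≤ x.2 := Nat.one_le_iff_ne_zero.2 (by rintro h; simp [h] at hx1; omega)
        have h1' : (0 : ℝ) ≤ x.1 := Nat.cast_nonneg _
        have h2' : (0 : ℝ) ≤ x.2 := Nat.cast_nonneg _
        rw [abs_mul]
        calc |a x.1| * |b x.2| ≤ (A * (x.1 : ℝ) ^ (ε / 2)) * (B * (x.2 : ℝ) ^ (ε / 2)) :=
              mul_le_mul (hA _ h1) (hB _ h2) (abs_nonneg _) (by positivity)
          _ = A * B * ((x.1 : ℝ) ^ (ε / 2) * (x.2 : ℝ) ^ (ε / 2)) := by ring
          _ = A * B * (n : ℝ) ^ (ε / 2) := by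
              rw [← Real.mul_rpow h1' h2', ← hx1]
              push_cast
              rfl
    _ = (n.divisors.card : ℝ) * (A * B * (n : ℝ) ^ (ε / 2)) := by
        rw [Finset.sum_const, nsmul_eq_mul]
        congr 2
        rw [← Nat.map_div_right_divisors, Finset.card_map]
    _ ≤ (D * (n : ℝ) ^ (ε / 2)) * (A * B * (n : ℝ) ^ (ε / 2)) := by
        have := hD n hn
        gcongr
    _ = A * B * D * ((n : ℝ) ^ (ε / 2) * (n : ℝ) ^ (ε / 2)) := by ring
    _ = A * B * D * (n : ℝ) ^ ε := by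
        rw [← Real.rpow_add hn0]
        congr 2
        ring

theorem Sm_one : Sm 1 := by
  intro ε hε
  refine ⟨1, one_pos, fun n hn => ?_⟩
  rw [ArithmeticFunction.one_apply]
  have h1 : (1 : ℝ) ≤ (n : ℝ) ^ ε := Real.one_le_rpow (by exact_mod_cast hn) hε.le
  split_ifs
  · simpa using h1
  · simpa using zero_le_one.trans h1

theorem Sm_af (G : Sel) : Sm (ab (af G)) := by
  intro ε hε
  obtain ⟨C, hC⟩ := G.ram ε hε
  refine ⟨max C 1, by positivity, fun n hn => ?_⟩
  have hn0 : n ≠ 0 := by omega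
  have h1 : (0 : ℝ) ≤ (n : ℝ) ^ ε := by positivity
  have h2 : ab (af G) n = ‖G.f n‖ := by simp [ab, af, hn0]
  rw [h2, abs_of_nonneg (norm_nonneg _)]
  exact (hC n hn).trans (mul_le_mul_of_nonneg_right (le_max_left _ _) h1)

theorem Sm_prod (G : ℕ → Sel) (s : Finset ℕ) : Sm (∏ i ∈ s, ab (af (G i))) := by
  classical
  induction s using Finset.induction_on with
  | empty => simpa using Sm_one
  | insert i s hi ih =>
    rw [Finset.prod_insert hi]
    exact Sm_mul (Sm_af _) ih

/-- A convolution of dominated functions is dominated. -/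
theorem dom_mul {a b : ArithmeticFunction ℂ} {A B : ArithmeticFunction ℝ}
    (ha : ∀ n, ‖a n‖ ≤ A n) (hb : ∀ n, ‖b n‖ ≤ B n) : ∀ n, ‖(a * b) n‖ ≤ (A * B) n := by
  intro n
  rw [ArithmeticFunction.mul_apply, ArithmeticFunction.mul_apply]
  refine (norm_sum_le _ _).trans (Finset.sum_le_sum fun x _ => ?_)
  rw [norm_mul]
  exact mul_le_mul (ha _) (hb _) (norm_nonneg _) ((norm_nonneg _).trans (ha _))

theorem dom_prod (g : ℕ → ArithmeticFunction ℂ) (s : Finset ℕ) :
    ∀ n, ‖(∏ i ∈ s, g i) n‖ ≤ (∏ i ∈ s, ab (g i)) n := by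
  classical
  induction s using Finset.induction_on with
  | empty =>
    intro n
    rw [Finset.prod_empty, Finset.prod_empty, ArithmeticFunction.one_apply,
      ArithmeticFunction.one_apply]
    split_ifs <;> simp
  | insert i s hi ih =>
    rw [Finset.prod_insert hi, Finset.prod_insert hi]
    exact dom_mul (fun n => le_of_eq rfl) ih

theorem dom_cut {a : ArithmeticFunction ℂ} {A : ArithmeticFunction ℝ} (N : ℝ)
    (ha : ∀ n, ‖a n‖ ≤ A n) : ∀ n, ‖cut N a n‖ ≤ A n := by
  intro n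
  have h : cut N a n = if (n : ℝ) ≤ N then a n else 0 := rfl
  rw [h]
  split_ifs
  · exact ha n
  · rw [norm_zero]
    exact (norm_nonneg _).trans (ha n)

end DAD
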