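import Pool.Agent.WYL.Smo

set_option autoImplicit false

/-!
# DAD/KInt: the primitive of the smoothing error

`K.E x - K.EV U x = ∫ kV U y (K.E x - K.E (x e^(-y))) dy`; with
`φ y = ∫_a^b (K.E x - K.E (x e^(-y))) dx` the integral over `[a, b]` is
`½ ∫ kV U y (φ y + φ (-y)) dy` (`kV U` is even), and for `0 ≤ y`, `h x = K.E (x e^y) - K.E x`,
`φ y + φ (-y) = ∫_a^b h (x e^(-y)) dx - ∫_a^b h x dx
= (e^y - 1) ∫_{a e^(-y)}^{b e^(-y)} h - ∫_a^{a e^(-y)} h - ∫_{b e^(-y)}^b h` is at most
`2 b y sup |h|` (`E_shift` of WYL/Smo).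
-/

open Complex MeasureTheory

namespace DAD

open HYM

namespace KI

theorem kV_even (V y : ℝ) : kV V (-y) = kV V y := by
  unfold kV
  rw [mul_neg, neg_sq]

theorem bdd_int {f : ℝ → ℂ} (hf : Measurable f) {a b M : ℝ} (hab : a ≤ b)
    (h : ∀ x ∈ Set.Ioc a b, ‖f x‖ ≤ M) : IntervalIntegrable f volume a b := by
  rw [intervalIntegrable_iff_integrableOn_Ioc_of_le hab]
  refine Measure.integrableOn_of_bounded (M := M) (by simp) hf.aestronglyMeasurable ?_
  exact (ae_restrict_mem measurableSet_Ioc).mono fun x hx => h x hx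

/-- The primitive of a difference. -/
noncomputable def ph (K : Sel) (a b y : ℝ) : ℂ :=
  ∫ x in a..b, (K.E x - K.E (x * Real.exp (-y)))

/-- The difference. -/
noncomputable def hd (K : Sel) (y x : ℝ) : ℂ := K.E (x * Real.exp y) - K.E x

theorem hd_meas (K : Sel) (y : ℝ) : Measurable (hd K y) :=
  ((E_measurable K).comp (measurable_id.mul_const _)).sub (E_measurable K)

theorem ph_pos (K : Sel) {a b M y : ℝ} (ha : 0 < a) (hab : a ≤ b) (hy : 0 ≤ y)
    (hM : ∀ x : ℝ, 0 < x → x ≤ b → ‖hd K y x‖ ≤ M) :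
    ‖ph K a b y + ph K a b (-y)‖ ≤ 2 * b * y * M := by
  obtain ⟨c, hc⟩ : ∃ c : ℝ, Real.exp (-y) = c := ⟨_, rfl⟩
  have hc0 : 0 < c := by rw [← hc]; exact Real.exp_pos _
  have hc1 : c ≤ 1 := by rw [← hc]; exact Real.exp_le_one_iff.2 (by linarith)
  have hcy : 1 - c ≤ y := by rw [← hc]; exact WYL.Smo.one_sub_exp_le y
  have hec : Real.exp y * c = 1 := by rw [← hc, ← Real.exp_add, add_neg_cancel, Real.exp_zero]
  have hM0 : 0 ≤ M := (norm_nonneg _).trans (hM a ha hab)
  have hb : 0 < b := ha.trans_le hab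
  have hi : ∀ u v : ℝ, 0 < u → u ≤ v → v ≤ b → IntervalIntegrable (hd K y) volume u v := by
    intro u v hu huv hv
    exact bdd_int (hd_meas K y) huv fun x hx => hM x (hu.trans hx.1) (hx.2.trans hv)
  have hac : 0 < a * c := by positivity
  have hbc : a * c ≤ b * c := mul_le_mul_of_nonneg_right hab hc0.le
  have hbc1 : b * c ≤ b := by nlinarith
  have hac1 : a * c ≤ a := by nlinarith
  have e1 : ph K a b y = ∫ x in a..b, hd K y (x * c) := by
    unfold ph
    refine intervalIntegral.integral_congr fun x _ => ?_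
    simp only [hd]
    rw [hc, mul_assoc, mul_comm c, hec, mul_one]
  have e2 : ph K a b (-y) = -∫ x in a..b, hd K y x := by
    unfold ph
    rw [← intervalIntegral.integral_neg]
    refine intervalIntegral.integral_congr fun x _ => ?_
    simp only [hd]
    rw [neg_neg]
    ring
  have e3 : ∫ x in a..b, hd K y (x * c) = (Real.exp y : ℂ) * ∫ x in a * c..b * c, hd K y x := by
    rw [intervalIntegral.integral_comp_mul_right _ hc0.ne']
    have : c⁻¹ = Real.exp y := by
      field_simp
      linarith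
    rw [this, Complex.real_smul]
  have e4 : ∫ x in a..b, hd K y x = (∫ x in a..a * c, hd K y x) + (∫ x in a * c..b * c, hd K y x) +
      ∫ x in b * c..b, hd K y x := by
    have i1 := (hi (a * c) a hac hac1 hab).symm
    have i2 := hi (a * c) (b * c) hac hbc hbc1
    have i3 := hi (b * c) b (by positivity) hbc1 le_rfl
    rw [intervalIntegral.integral_add_adjacent_intervals i1 i2,
      intervalIntegral.integral_add_adjacent_intervals (i1.trans i2) i3]
  have e5 : ph K a b y + ph K a b (-y) = ((Real.exp y : ℂ) - 1) * (∫ x in a * c..b * c, hd K y x) -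
      (∫ x in a..a * c, hd K y x) - ∫ x in b * c..b, hd K y x := by
    rw [e1, e2, e3, e4]
    ring
  have n1 : ‖∫ x in a * c..b * c, hd K y x‖ ≤ M * (b * c - a * c) := by
    have := intervalIntegral.norm_integral_le_of_norm_le_const (a := a * c) (b := b * c)
      (f := hd K y) (C := M) fun x hx => by
        rw [Set.uIoc_of_le hbc] at hx
        exact hM x (hac.trans hx.1) (hx.2.trans hbc1)
    rwa [abs_of_nonneg (by linarith)] at this
  have n2 : ‖∫ x in a..a * c, hd K y x‖ ≤ M * (a - a * c) := by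
    have := intervalIntegral.norm_integral_le_of_norm_le_const (a := a) (b := a * c)
      (f := hd K y) (C := M) fun x hx => by
        rw [Set.uIoc_of_ge hac1] at hx
        exact hM x (hac.trans hx.1) (hx.2.trans hab)
    rwa [abs_of_nonpos (by linarith), neg_sub] at this
  have n3 : ‖∫ x in b * c..b, hd K y x‖ ≤ M * (b - b * c) := by
    have := intervalIntegral.norm_integral_le_of_norm_le_const (a := b * c) (b := b)
      (f := hd K y) (C := M) fun x hx => by
        rw [Set.uIoc_of_le hbc1] at hx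
        exact hM x (by nlinarith [hx.1, mul_pos hb hc0]) hx.2
    rwa [abs_of_nonneg (by linarith)] at this
  have hexp : 1 ≤ Real.exp y := Real.one_le_exp hy
  have n4 : ‖((Real.exp y : ℂ) - 1)‖ = Real.exp y - 1 := by
    rw [← Complex.ofReal_one, ← Complex.ofReal_sub, Complex.norm_real, Real.norm_eq_abs,
      abs_of_nonneg (by linarith)]
  rw [e5]
  calc _ ≤ ‖((Real.exp y : ℂ) - 1) * (∫ x in a * c..b * c, hd K y x) -
        (∫ x in a..a * c, hd K y x)‖ + ‖∫ x in b * c..b, hd K y x‖ := norm_sub_le _ _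
    _ ≤ ‖((Real.exp y : ℂ) - 1) * (∫ x in a * c..b * c, hd K y x)‖ +
        ‖∫ x in a..a * c, hd K y x‖ + ‖∫ x in b * c..b, hd K y x‖ := by
        gcongr
        exact norm_sub_le _ _
    _ ≤ (Real.exp y - 1) * (M * (b * c - a * c)) + M * (a - a * c) + M * (b - b * c) := by
        rw [norm_mul, n4]
        have := mul_le_mul_of_nonneg_left n1 (by linarith : 0 ≤ Real.exp y - 1)
        linarith
    _ = (Real.exp y * c - c) * (M * (b - a)) + M * (a + b) * (1 - c) := by ring
    _ = 2 * b * M * (1 - c) := by rw [hec]; ring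
    _ ≤ 2 * b * M * y := mul_le_mul_of_nonneg_left hcy (by positivity)
    _ = _ := by ring

theorem fub_int (K : Sel) {a b U : ℝ} (ha : 0 < a) (hU : 0 < U) :
    Integrable (Function.uncurry fun (x y : ℝ) =>
      (kV U y : ℂ) * (K.E x - K.E (x * Real.exp (-y))))
      ((volume.restrict (Set.Ioc a b)).prod volume) := by
  obtain ⟨C, hC, h⟩ := E_crude K
  have h1 : Integrable (fun z : ℝ × ℝ => (2 * C * (1 + b ^ 2)) * (kV U z.2 * Real.exp (2 * |z.2|)))
      ((volume.restrict (Set.Ioc a b)).prod volume) := by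
    have h2 : Integrable (fun _ : ℝ => 2 * C * (1 + b ^ 2)) (volume.restrict (Set.Ioc a b)) :=
      integrable_const _
    exact h2.mul_prod (kV_exp_integrable hU 2)
  refine h1.mono' ?_ ?_
  · refine Measurable.aestronglyMeasurable ?_
    refine (Complex.measurable_ofReal.comp ((EVq_kV_cont U).measurable.comp measurable_snd)).mul ?_
    refine ((E_measurable K).comp measurable_fst).sub ((E_measurable K).comp ?_)
    exact measurable_fst.mul (Real.measurable_exp.comp measurable_snd.neg)
  · have h3 : ∀ᵐ z : ℝ × ℝ ∂((volume.restrict (Set.Ioc a b)).prod volume), z.1 ∈ Set.Ioc a b :=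
      Measure.quasiMeasurePreserving_fst.ae (ae_restrict_mem measurableSet_Ioc)
    refine h3.mono fun z hz => ?_
    obtain ⟨x, y⟩ := z
    simp only [Function.uncurry] at hz ⊢
    have hx : 0 < x := ha.trans hz.1
    have hxb : x ^ 2 ≤ b ^ 2 := pow_le_pow_left₀ hx.le hz.2 2
    have hexp : 1 ≤ Real.exp (2 * |y|) := Real.one_le_exp (by positivity)
    have h4 : ‖K.E x‖ ≤ C * (1 + b ^ 2) * Real.exp (2 * |y|) := by
      calc ‖K.E x‖ ≤ C * (1 + x ^ 2) := h x hx
        _ ≤ C * (1 + b ^ 2) := mul_le_mul_of_nonneg_left (by linarith) hC.le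
        _ ≤ _ := le_mul_of_one_le_right (by positivity) hexp
    have h5 : ‖K.E (x * Real.exp (-y))‖ ≤ C * (1 + b ^ 2) * Real.exp (2 * |y|) := by
      refine (E_comp_bound K hC h hx y).trans ?_
      refine mul_le_mul_of_nonneg_right ?_ (Real.exp_pos _).le
      exact mul_le_mul_of_nonneg_left (by linarith) hC.le
    rw [norm_mul, Complex.norm_real, Real.norm_eq_abs, abs_of_pos (kV_pos hU y)]
    have h6 := norm_sub_le (K.E x) (K.E (x * Real.exp (-y)))
    calc kV U y * ‖K.E x - K.E (x * Real.exp (-y))‖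
        ≤ kV U y * (2 * (C * (1 + b ^ 2) * Real.exp (2 * |y|))) := by
          refine mul_le_mul_of_nonneg_left ?_ (kV_pos hU y).le
          linarith
      _ = _ := by ring

theorem EV_diff (K : Sel) {U x : ℝ} (hU : 0 < U) (hx : 0 < x) :
    K.E x - K.EV U x = ∫ y : ℝ, (kV U y : ℂ) * (K.E x - K.E (x * Real.exp (-y))) := by
  have hint := kE_integrable K hU hx
  have hintc : Integrable fun y : ℝ => (kV U y : ℂ) * K.E x :=
    ((kV_integrable hU).ofReal).mul_const _
  have h1 : ∫ y : ℝ, (kV U y : ℂ) * K.E x = K.E x := by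
    rw [integral_mul_const, integral_complex_ofReal, kV_integral hU, Complex.ofReal_one, one_mul]
  have h3 : ∀ y : ℝ, (kV U y : ℂ) * (K.E x - K.E (x * Real.exp (-y))) =
      (kV U y : ℂ) * K.E x - (kV U y : ℂ) * K.E (x * Real.exp (-y)) := fun y => by ring
  simp only [h3]
  rw [integral_sub hintc hint, h1, ← EV_eq K hU hx]

end KI

open KI in
theorem K_int (K : Sel) {ε : ℝ} (hε : 0 < ε) : ∃ C : ℝ, 0 < C ∧
    ∀ X U a b : ℝ, 1 ≤ U → U ≤ X → X ≤ a → a ≤ b → b ≤ 2 * X →
      IntervalIntegrable (fun x => K.E x - K.EV U x) volume a b ∧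
      ‖∫ x in a..b, (K.E x - K.EV U x)‖ ≤ C * X ^ (2 + ε) / U ^ 2 := by
  obtain ⟨C, hC, hE⟩ := WYL.Smo.E_shift K hε
  obtain ⟨c, hc⟩ : ∃ c : ℝ, 3 + ε = c := ⟨_, rfl⟩
  have hc0 : 0 < c := by rw [← hc]; positivity
  have hKa := Ka_nonneg (1 + c)
  refine ⟨8 * C * 2 ^ ε * (Ka (1 + c) + 1), by positivity, fun X U a b hU hUX hXa hab hb => ?_⟩
  have hU0 : 0 < U := by linarith
  have hX0 : 0 < X := by linarith
  have ha0 : 0 < a := by linarith
  have hb0 : 0 < b := by linarith
  have hF := fub_int K (b := b) ha0 hU0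
  have hEV : ∀ x ∈ Set.Ioc a b, (∫ y : ℝ, (kV U y : ℂ) * (K.E x - K.E (x * Real.exp (-y)))) =
      K.E x - K.EV U x := fun x hx => (EV_diff K hU0 (ha0.trans hx.1)).symm
  refine ⟨?_, ?_⟩
  · rw [intervalIntegrable_iff_integrableOn_Ioc_of_le hab]
    refine (hF.integral_prod_left).congr ?_
    exact (ae_restrict_mem measurableSet_Ioc).mono fun x hx => hEV x hx
  have h1 : ∫ x in a..b, (K.E x - K.EV U x) = ∫ y : ℝ, (kV U y : ℂ) * ph K a b y := by
    rw [intervalIntegral.integral_of_le hab,
      ← setIntegral_congr_fun measurableSet_Ioc fun x hx => hEV x hx, integral_integral_swap hF]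
    refine integral_congr_ae (Filter.Eventually.of_forall fun y => ?_)
    simp only
    rw [integral_const_mul, ph, intervalIntegral.integral_of_le hab]
  have hphi : Integrable fun y : ℝ => (kV U y : ℂ) * ph K a b y := by
    refine (hF.integral_prod_right).congr (Filter.Eventually.of_forall fun y => ?_)
    simp only [Function.uncurry]
    rw [integral_const_mul, ph, intervalIntegral.integral_of_le hab]
  have hphi' : Integrable fun y : ℝ => (kV U y : ℂ) * ph K a b (-y) := by
    have := hphi.comp_neg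
    refine this.congr (Filter.Eventually.of_forall fun y => ?_)
    simp only [kV_even]
  have h2 : ∫ y : ℝ, (kV U y : ℂ) * ph K a b (-y) = ∫ y : ℝ, (kV U y : ℂ) * ph K a b y := by
    rw [← integral_neg_eq_self fun y : ℝ => (kV U y : ℂ) * ph K a b y]
    refine integral_congr_ae (Filter.Eventually.of_forall fun y => ?_)
    simp only [kV_even]
  have h3 : (2 : ℂ) * ∫ y : ℝ, (kV U y : ℂ) * ph K a b y =
      ∫ y : ℝ, (kV U y : ℂ) * (ph K a b y + ph K a b (-y)) := by
    have : ∀ y : ℝ, (kV U y : ℂ) * (ph K a b y + ph K a b (-y)) =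
        (kV U y : ℂ) * ph K a b y + (kV U y : ℂ) * ph K a b (-y) := fun y => by ring
    simp only [this]
    rw [integral_add hphi hphi', h2, two_mul]
  have hph : ∀ y : ℝ, ‖ph K a b y + ph K a b (-y)‖ ≤ 4 * X * |y| *
      (C * (2 * X) ^ ε * (1 + 2 * X * |y|) * Real.exp (c * |y|)) := by
    have key : ∀ y : ℝ, 0 ≤ y → ‖ph K a b y + ph K a b (-y)‖ ≤ 4 * X * |y| *
        (C * (2 * X) ^ ε * (1 + 2 * X * |y|) * Real.exp (c * |y|)) := by
      intro y hy
      have hM : ∀ x : ℝ, 0 < x → x ≤ b → ‖hd K y x‖ ≤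
          C * (2 * X) ^ ε * (1 + 2 * X * |y|) * Real.exp (c * |y|) := by
        intro x hx hxb
        have := hE (2 * X) (by linarith) x hx (hxb.trans hb) (-y)
        rw [neg_neg, abs_neg, hc] at this
        unfold hd
        rwa [norm_sub_rev]
      refine (ph_pos K ha0 hab hy hM).trans ?_
      refine mul_le_mul_of_nonneg_right ?_ (by positivity)
      rw [abs_of_nonneg hy]
      nlinarith
    intro y
    rcases le_total 0 y with hy | hy
    · exact key y hy
    · have := key (-y) (by linarith)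
      rwa [neg_neg, abs_neg, add_comm] at this
  have hbound : Integrable fun y : ℝ => 16 * (X ^ 2 / U ^ 2) * (C * (2 * X) ^ ε) *
      (kV U y * Real.exp ((1 + c) * U * |y|)) :=
    (kV_exp_integrable hU0 ((1 + c) * U)).const_mul _
  have h4 : ‖∫ y : ℝ, (kV U y : ℂ) * (ph K a b y + ph K a b (-y))‖ ≤
      16 * (X ^ 2 / U ^ 2) * (C * (2 * X) ^ ε) * Ka (1 + c) := by
    refine (norm_integral_le_of_norm_le hbound (Filter.Eventually.of_forall fun y => ?_)).trans ?_
    · rw [norm_mul, Complex.norm_real, Real.norm_eq_abs, abs_of_pos (kV_pos hU0 y)]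
      have hkv := (kV_pos hU0 y).le
      have q1 : |y| * (1 + 2 * X * |y|) ≤ 4 * (X / U ^ 2) * Real.exp (U * |y|) := by
        have q2 := Real.quadratic_le_exp_of_nonneg (x := U * |y|) (by positivity)
        have q3 : |y| * (1 + 2 * X * |y|) ≤ (X / U ^ 2) * (U * |y| + 2 * (U * |y|) ^ 2) := by
          have e : (X / U ^ 2) * (U * |y| + 2 * (U * |y|) ^ 2) =
              (X / U) * |y| + 2 * X * |y| ^ 2 := by
            field_simp
          rw [e]
          have : 1 ≤ X / U := by
            rw [le_div_iff₀ hU0]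
            linarith
          nlinarith [abs_nonneg y]
        have q4 : 0 ≤ X / U ^ 2 := by positivity
        have q5 : U * |y| + 2 * (U * |y|) ^ 2 ≤ 4 * Real.exp (U * |y|) := by
          have : 0 ≤ U * |y| := by positivity
          nlinarith
        calc _ ≤ (X / U ^ 2) * (U * |y| + 2 * (U * |y|) ^ 2) := q3
          _ ≤ (X / U ^ 2) * (4 * Real.exp (U * |y|)) := mul_le_mul_of_nonneg_left q5 q4
          _ = _ := by ring
      have q6 : Real.exp (c * |y|) ≤ Real.exp (c * U * |y|) := by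
        apply Real.exp_le_exp.2
        have : c * |y| ≤ c * |y| * U := le_mul_of_one_le_right (by positivity) hU
        linarith
      have q7 : Real.exp (U * |y|) * Real.exp (c * U * |y|) = Real.exp ((1 + c) * U * |y|) := by
        rw [← Real.exp_add]
        congr 1
        ring
      calc kV U y * ‖ph K a b y + ph K a b (-y)‖
          ≤ kV U y * (4 * X * |y| *
            (C * (2 * X) ^ ε * (1 + 2 * X * |y|) * Real.exp (c * |y|))) :=
            mul_le_mul_of_nonneg_left (hph y) hkv
        _ = (4 * X * (C * (2 * X) ^ ε) * kV U y) *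
            ((|y| * (1 + 2 * X * |y|)) * Real.exp (c * |y|)) := by ring
        _ ≤ (4 * X * (C * (2 * X) ^ ε) * kV U y) *
            ((4 * (X / U ^ 2) * Real.exp (U * |y|)) * Real.exp (c * U * |y|)) := by
            refine mul_le_mul_of_nonneg_left ?_ (by positivity)
            exact mul_le_mul q1 q6 (Real.exp_pos _).le (by positivity)
        _ = (4 * X * (C * (2 * X) ^ ε) * kV U y) *
            (4 * (X / U ^ 2) * Real.exp ((1 + c) * U * |y|)) := by rw [← q7]; ring
        _ = _ := by ring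
    · rw [integral_const_mul, kV_scale hU0 (1 + c)]
      exact le_of_eq rfl
  have h5 : ‖∫ x in a..b, (K.E x - K.EV U x)‖ =
      (1 / 2) * ‖∫ y : ℝ, (kV U y : ℂ) * (ph K a b y + ph K a b (-y))‖ := by
    rw [← h3, norm_mul, h1, Complex.norm_ofNat]
    ring
  rw [h5]
  have hpow : X ^ (2 + ε) = X ^ 2 * X ^ ε := by
    rw [Real.rpow_add hX0, Real.rpow_two]
  have hpow2 : (2 * X) ^ ε = 2 ^ ε * X ^ ε := Real.mul_rpow (by norm_num) hX0.le
  calc (1 / 2) * ‖∫ y : ℝ, (kV U y : ℂ) * (ph K a b y + ph K a b (-y))‖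
      ≤ (1 / 2) * (16 * (X ^ 2 / U ^ 2) * (C * (2 * X) ^ ε) * Ka (1 + c)) :=
        mul_le_mul_of_nonneg_left h4 (by norm_num)
    _ = 8 * C * 2 ^ ε * Ka (1 + c) * X ^ (2 + ε) / U ^ 2 := by
        rw [hpow, hpow2]
        ring
    _ ≤ _ := by
        rw [div_le_div_iff_of_pos_right (by positivity)]
        have : 0 ≤ 8 * C * 2 ^ ε := by positivity
        have h7 : 0 ≤ X ^ (2 + ε) := by positivity
        have h8 : 8 * C * 2 ^ ε * Ka (1 + c) ≤ 8 * C * 2 ^ ε * (Ka (1 + c) + 1) :=
          mul_le_mul_of_nonneg_left (by linarith) this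
        exact mul_le_mul_of_nonneg_right h8 h7

end DAD
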