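import Pool.Agent.DAD.High
import Pool.Agent.DAD.KInt

set_option autoImplicit false

/-!
# DAD/Fhigh: the high frequencies on a dyadic interval
-/

open Complex MeasureTheory

namespace DAD

open HYM

theorem high_sum (F K : Sel) (hF : F.deg ≤ 2) {ε : ℝ} (hε : 0 < ε) : ∃ C : ℝ, 0 < C ∧
    ∀ (X b : ℝ) (k : ℕ), 64 ≤ X → X ≤ b → b ≤ 2 * X → X ^ (3 / 5 : ℝ) ≤ 2 * (2 : ℝ) ^ k →
      (2 : ℝ) ^ k ≤ X ^ (3 / 5 : ℝ) →
      ‖∫ x in X..b, (F.EV (X ^ 5) x - F.L 0) * (K.E x - K.EV (2 ^ k) x)‖ ≤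
        C * X ^ (8 / 5 + ε) := by
  obtain ⟨C₁, hC₁, H₁⟩ := high F K hF (ε := ε / 5) (by positivity)
  obtain ⟨C₄, hC₄, H₄⟩ := K_int K hε
  refine ⟨3 * C₁ + ‖F.L 0‖ * (4 * C₄), by positivity, fun X b k hX hXb hb2 hk1 hk2 => ?_⟩
  have hX0 : 0 < X := by linarith
  have hX1 : 1 ≤ X := by linarith
  set U : ℝ := 2 ^ k with hUd
  have hU : 1 ≤ U := one_le_pow₀ (by norm_num)
  have hU0 : 0 < U := by linarith
  have hUX : U ≤ X := hk2.trans (by
    calc X ^ (3 / 5 : ℝ) ≤ X ^ (1 : ℝ) := Real.rpow_le_rpow_of_exponent_le hX1 (by norm_num)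
      _ = X := Real.rpow_one X)
  have h2X : 2 * X ≤ X ^ 5 := by
    have h4 : 2 ≤ X ^ 4 := by
      have := one_le_pow₀ hX1 (n := 3)
      calc (2 : ℝ) ≤ X * 1 := by linarith
        _ ≤ X * X ^ 3 := by gcongr
        _ = X ^ 4 := by ring
    calc 2 * X ≤ X ^ 4 * X := by gcongr
      _ = X ^ 5 := by ring
  have hY : 1 ≤ X ^ 5 := one_le_pow₀ hX1
  have h1 := H₁ X (X ^ 5) X b k hX1 hUX h2X le_rfl hXb hb2
  obtain ⟨k0, d0⟩ := H₄ X U X b hU hUX le_rfl hXb hb2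
  have cF : ContinuousOn (F.EV (X ^ 5)) (Set.uIcc X b) := by
    intro x hx
    rw [Set.uIcc_of_le hXb] at hx
    exact ((EV_differentiable F hY).1 x (by linarith [hx.1])).continuousAt.continuousWithinAt
  have iA : IntervalIntegrable (fun x => F.EV (X ^ 5) x * (K.E x - K.EV U x)) volume X b :=
    k0.continuousOn_mul cF
  have iB : IntervalIntegrable (fun x => F.L 0 * (K.E x - K.EV U x)) volume X b :=
    k0.const_mul _
  rw [intervalIntegral.integral_congr (g := fun x => F.EV (X ^ 5) x * (K.E x - K.EV U x) -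
      F.L 0 * (K.E x - K.EV U x)) (fun x _ => by simp only; ring),
    intervalIntegral.integral_sub iA iB, intervalIntegral.integral_const_mul]
  have hXU : X ^ (3 / 5 : ℝ) / 2 ≤ U := by linarith
  have hX35 : 0 < X ^ (3 / 5 : ℝ) := by positivity
  have n1 : ‖∫ x in X..b, F.EV (X ^ 5) x * (K.E x - K.EV U x)‖ ≤ 3 * C₁ * X ^ (8 / 5 + ε) := by
    refine h1.trans ?_
    have e1 : (X ^ 5 : ℝ) ^ (ε / 5) = X ^ ε := by
      rw [← Real.rpow_natCast, ← Real.rpow_mul hX0.le]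
      congr 1
      push_cast
      ring
    have e2 : U ^ (-(3 / 2) : ℝ) ≤ 3 * X ^ (-(9 / 10) : ℝ) := by
      calc U ^ (-(3 / 2) : ℝ) ≤ (X ^ (3 / 5 : ℝ) / 2) ^ (-(3 / 2) : ℝ) :=
            Real.rpow_le_rpow_of_nonpos (by positivity) hXU (by norm_num)
        _ = X ^ (-(9 / 10) : ℝ) * (2 : ℝ) ^ (3 / 2 : ℝ) := by
            rw [Real.div_rpow (by positivity) (by norm_num), ← Real.rpow_mul hX0.le,
              div_eq_mul_inv, ← Real.rpow_neg (by norm_num)]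
            norm_num
        _ ≤ X ^ (-(9 / 10) : ℝ) * 3 := by
            refine mul_le_mul_of_nonneg_left ?_ (by positivity)
            have h3 : ((2 : ℝ) ^ (3 / 2 : ℝ)) ^ 2 ≤ 3 ^ 2 := by
              rw [← Real.rpow_natCast, ← Real.rpow_mul (by norm_num)]
              norm_num
            exact le_of_sq_le_sq h3 (by norm_num)
        _ = _ := by ring
    rw [e1]
    calc C₁ * (X ^ (5 / 2 : ℝ) * U ^ (-(3 / 2) : ℝ)) * X ^ ε
        ≤ C₁ * (X ^ (5 / 2 : ℝ) * (3 * X ^ (-(9 / 10) : ℝ))) * X ^ ε := by gcongr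
      _ = 3 * C₁ * (X ^ (5 / 2 : ℝ) * X ^ (-(9 / 10) : ℝ) * X ^ ε) := by ring
      _ = 3 * C₁ * X ^ (8 / 5 + ε) := by
          rw [← Real.rpow_add hX0, ← Real.rpow_add hX0]
          norm_num
  have n2 : ‖F.L 0 * ∫ x in X..b, (K.E x - K.EV U x)‖ ≤
      ‖F.L 0‖ * (4 * C₄) * X ^ (8 / 5 + ε) := by
    rw [norm_mul, mul_assoc]
    refine mul_le_mul_of_nonneg_left (d0.trans ?_) (norm_nonneg _)
    have e3 : X ^ (2 + ε) / U ^ 2 ≤ 4 * X ^ (4 / 5 + ε) := by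
      rw [div_le_iff₀ (by positivity)]
      calc X ^ (2 + ε) = 4 * X ^ (4 / 5 + ε) * (X ^ (3 / 5 : ℝ) / 2) ^ 2 := by
            rw [div_pow, ← Real.rpow_natCast (X ^ (3 / 5 : ℝ)) 2, ← Real.rpow_mul hX0.le]
            have : (4 : ℝ) * X ^ (4 / 5 + ε) * (X ^ (3 / 5 * ((2 : ℕ) : ℝ)) / 2 ^ 2) =
                X ^ (4 / 5 + ε) * X ^ (3 / 5 * ((2 : ℕ) : ℝ)) := by ring
            rw [this, ← Real.rpow_add hX0]
            congr 1
            push_cast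
            ring
        _ ≤ 4 * X ^ (4 / 5 + ε) * U ^ 2 := by gcongr
    calc C₄ * X ^ (2 + ε) / U ^ 2 = C₄ * (X ^ (2 + ε) / U ^ 2) := by ring
      _ ≤ C₄ * (4 * X ^ (4 / 5 + ε)) := by gcongr
      _ ≤ C₄ * (4 * X ^ (8 / 5 + ε)) := by
          refine mul_le_mul_of_nonneg_left (mul_le_mul_of_nonneg_left ?_ (by norm_num)) hC₄.le
          exact Real.rpow_le_rpow_of_exponent_le hX1 (by linarith)
      _ = _ := by ring
  calc _ ≤ ‖∫ x in X..b, F.EV (X ^ 5) x * (K.E x - K.EV U x)‖ +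
        ‖F.L 0 * ∫ x in X..b, (K.E x - K.EV U x)‖ := norm_sub_le _ _
    _ ≤ 3 * C₁ * X ^ (8 / 5 + ε) + ‖F.L 0‖ * (4 * C₄) * X ^ (8 / 5 + ε) := add_le_add n1 n2
    _ = _ := by ring

end DAD
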