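import Pool.Agent.WYL.Ltw

set_option autoImplicit false

/-!
# DAD/Fl1: the first moment of the error term of degree 2, crude form

`2^k ≤ T^(1/3) < 2^(k+1)`. `WYL.EV_tail` with this `k`: `≤ C T^(3/2) (2^k)^(-1/2) Y^(2η)`.
`EV_left` at height `2^k`: `‖F.EV (2^k) x‖ ≤ ‖F.L 0‖ + C x^(-η) ∫ (1+|t|)^(2η) exp (-(t/2^k)²) dt`
(`full_bound`), `∫_0^T x^(-η) dx ≤ 2 T`.
-/

open Complex MeasureTheory

namespace DAD

open HYM

namespace Fl

theorem EV_pt (F : Sel) (hF : F.deg ≤ 2) {η : ℝ} (hη : 0 < η) (hη4 : η ≤ 1 / 4) :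
    ∃ C : ℝ, 0 < C ∧ ∀ V : ℝ, 1 ≤ V → ∀ x : ℝ, 0 < x →
      ‖F.EV V x‖ ≤ ‖F.L 0‖ + C * V ^ (1 + 2 * η) * x ^ (-η) := by
  obtain ⟨C₁, hC₁, H₁⟩ := full_bound F hη hF
  obtain ⟨C₂, hC₂, H₂⟩ := int_weight (q := 1 + 2 * η) (by positivity)
  refine ⟨C₁ * C₂, by positivity, fun V hV x hx => ?_⟩
  have hV0 : 0 < V := by linarith
  rw [EV_left F hη (by linarith) hV0 hx]
  refine (norm_add_le _ _).trans ?_
  have h1 := vint_norm_le (c := -η) (Lam := F.full η V) hx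
  obtain ⟨i, b⟩ := H₂ V hV
  have e : (-1 + (1 + 2 * η) : ℝ) = 2 * η := by ring
  rw [e] at i b
  have h2 : ∫ t : ℝ, ‖F.full η V t‖ ≤ C₁ * (C₂ * V ^ (1 + 2 * η)) := by
    calc ∫ t : ℝ, ‖F.full η V t‖
        ≤ ∫ t : ℝ, C₁ * ((1 + |t|) ^ (2 * η) * Real.exp (-(t / V) ^ 2)) := by
          refine integral_mono_of_nonneg (Filter.Eventually.of_forall fun t => norm_nonneg _)
            (i.const_mul _) (Filter.Eventually.of_forall fun t => ?_)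
          have := H₁ V hV t
          simp only
          linarith
      _ = C₁ * ∫ t : ℝ, (1 + |t|) ^ (2 * η) * Real.exp (-(t / V) ^ 2) := integral_const_mul _ _
      _ ≤ _ := mul_le_mul_of_nonneg_left b hC₁.le
  have h3 : 0 ≤ x ^ (-η) := by positivity
  have h4 := mul_le_mul_of_nonneg_left h2 h3
  linarith

theorem int_pow {η T : ℝ} (hη : 0 < η) (hη4 : η ≤ 1 / 4) (hT : 1 ≤ T) :
    IntervalIntegrable (fun x : ℝ => x ^ (-η)) volume 0 T ∧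
      ∫ x in (0 : ℝ)..T, x ^ (-η) ≤ 2 * T := by
  have hT0 : 0 < T := by linarith
  refine ⟨intervalIntegral.intervalIntegrable_rpow' (by linarith), ?_⟩
  rw [integral_rpow (Or.inl (by linarith)), Real.zero_rpow (by linarith), sub_zero,
    div_le_iff₀ (by linarith)]
  have h1 : T ^ (-η + 1) ≤ T := by
    calc T ^ (-η + 1) ≤ T ^ (1 : ℝ) := Real.rpow_le_rpow_of_exponent_le hT (by linarith)
      _ = T := Real.rpow_one T
  nlinarith

end Fl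

open Fl in
theorem F_l1 (F : Sel) (hF : F.deg ≤ 2) {η : ℝ} (hη : 0 < η) (hη4 : η ≤ 1 / 4) :
    ∃ C : ℝ, 0 < C ∧ ∀ Y T : ℝ, 1 ≤ T → T ≤ Y →
      IntervalIntegrable (F.EV Y) volume 0 T ∧
      ∫ x in (0 : ℝ)..T, ‖F.EV Y x‖ ≤ C * (T ^ (4 / 3 : ℝ) * Y ^ (4 * η)) := by
  obtain ⟨C₁, hC₁, H₁⟩ := EV_pt F hF hη hη4
  obtain ⟨C₂, hC₂, H₂⟩ := WYL.EV_tail F hF hη
  refine ⟨‖F.L 0‖ + 2 * C₁ + 2 * C₂, by positivity, fun Y T hT hTY => ?_⟩
  have hT0 : 0 < T := by linarith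
  have hY : 1 ≤ Y := hT.trans hTY
  have hY0 : 0 < Y := by linarith
  obtain ⟨k, hk1, hk2⟩ := exists_nat_pow_near (x := T ^ (1 / 3 : ℝ)) (y := 2)
    (Real.one_le_rpow hT (by norm_num)) (by norm_num)
  obtain ⟨U, hU⟩ : ∃ U : ℝ, (2 : ℝ) ^ k = U := ⟨_, rfl⟩
  have hU1 : 1 ≤ U := by rw [← hU]; exact one_le_pow₀ (by norm_num)
  have hU0 : 0 < U := by linarith
  have hUT3 : U ≤ T ^ (1 / 3 : ℝ) := by rw [← hU]; exact hk1
  have hTU : T ^ (1 / 3 : ℝ) ≤ 2 * U := by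
    rw [← hU, ← pow_succ']
    exact hk2.le
  have hUT : U ≤ T := by
    refine hUT3.trans ?_
    calc T ^ (1 / 3 : ℝ) ≤ T ^ (1 : ℝ) := Real.rpow_le_rpow_of_exponent_le hT (by norm_num)
      _ = T := Real.rpow_one T
  obtain ⟨i1, b1⟩ := H₂ Y hY k (by rw [hU]; exact hUT.trans hTY) T hT
  rw [hU] at i1 b1
  have iY : IntervalIntegrable (F.EV Y) volume 0 T :=
    vint_ii (c := 1 / 2) (by norm_num) hT0.le (WYL.Lam_int F hF hY)
  have iU : IntervalIntegrable (F.EV U) volume 0 T :=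
    vint_ii (c := 1 / 2) (by norm_num) hT0.le (WYL.Lam_int F hF hU1)
  refine ⟨iY, ?_⟩
  obtain ⟨ip, bp⟩ := int_pow hη hη4 hT
  have g1 : 1 ≤ Y ^ (4 * η) := Real.one_le_rpow hY (by linarith)
  have g2 : Y ^ (2 * η) ≤ Y ^ (4 * η) := Real.rpow_le_rpow_of_exponent_le hY (by linarith)
  have g3 : T ≤ T ^ (4 / 3 : ℝ) := by
    calc T = T ^ (1 : ℝ) := (Real.rpow_one T).symm
      _ ≤ T ^ (4 / 3 : ℝ) := Real.rpow_le_rpow_of_exponent_le hT (by norm_num)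
  have g4 : 0 ≤ T ^ (4 / 3 : ℝ) := by positivity
  -- the low part
  have h1 : ∫ x in (0 : ℝ)..T, ‖F.EV U x‖ ≤
      (‖F.L 0‖ + 2 * C₁) * (T ^ (4 / 3 : ℝ) * Y ^ (4 * η)) := by
    have ib : IntervalIntegrable (fun x : ℝ => ‖F.L 0‖ + C₁ * U ^ (1 + 2 * η) * x ^ (-η))
        volume 0 T := intervalIntegrable_const.add (ip.const_mul _)
    have hUp : U ^ (1 + 2 * η) ≤ T ^ (1 / 3 : ℝ) * Y ^ (4 * η) := by
      rw [Real.rpow_add hU0, Real.rpow_one]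
      have q1 : U ^ (2 * η) ≤ Y ^ (4 * η) :=
        (Real.rpow_le_rpow hU0.le (hUT.trans hTY) (by positivity)).trans g2
      exact mul_le_mul hUT3 q1 (by positivity) (by positivity)
    have hTT : T * T ^ (1 / 3 : ℝ) = T ^ (4 / 3 : ℝ) := by
      nth_rewrite 1 [← Real.rpow_one T]
      rw [← Real.rpow_add hT0]
      norm_num
    calc ∫ x in (0 : ℝ)..T, ‖F.EV U x‖
        ≤ ∫ x in (0 : ℝ)..T, (‖F.L 0‖ + C₁ * U ^ (1 + 2 * η) * x ^ (-η)) :=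
          intervalIntegral.integral_mono_on_of_le_Ioo hT0.le iU.norm ib
            fun x hx => H₁ U hU1 x hx.1
      _ = ‖F.L 0‖ * T + C₁ * U ^ (1 + 2 * η) * ∫ x in (0 : ℝ)..T, x ^ (-η) := by
          rw [intervalIntegral.integral_add intervalIntegrable_const (ip.const_mul _),
            intervalIntegral.integral_const_mul, intervalIntegral.integral_const]
          simp [mul_comm]
      _ ≤ ‖F.L 0‖ * (T ^ (4 / 3 : ℝ) * Y ^ (4 * η)) +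
          C₁ * (T ^ (1 / 3 : ℝ) * Y ^ (4 * η)) * (2 * T) := by
          have q2 : T ≤ T ^ (4 / 3 : ℝ) * Y ^ (4 * η) :=
            g3.trans (le_mul_of_one_le_right g4 g1)
          have q3 : 0 ≤ ∫ x in (0 : ℝ)..T, x ^ (-η) :=
            intervalIntegral.integral_nonneg hT0.le fun x hx => Real.rpow_nonneg hx.1 _
          gcongr
      _ = ‖F.L 0‖ * (T ^ (4 / 3 : ℝ) * Y ^ (4 * η)) +
          2 * C₁ * ((T * T ^ (1 / 3 : ℝ)) * Y ^ (4 * η)) := by ring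
      _ = _ := by rw [hTT]; ring
  -- the high part
  have h2 : ∫ x in (0 : ℝ)..T, ‖F.EV Y x - F.EV U x‖ ≤
      2 * C₂ * (T ^ (4 / 3 : ℝ) * Y ^ (4 * η)) := by
    have q1 : √(U⁻¹) ≤ 2 * T ^ (-(1 / 6) : ℝ) := by
      rw [Real.sqrt_le_left (by positivity), mul_pow, ← Real.rpow_natCast (T ^ (-(1 / 6) : ℝ)) 2,
        ← Real.rpow_mul hT0.le, inv_le_iff_one_le_mul₀ hU0]
      have q2 : T ^ (-(1 / 6) * (2 : ℕ) : ℝ) = (T ^ (1 / 3 : ℝ))⁻¹ := by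
        rw [← Real.rpow_neg hT0.le]
        congr 1
        norm_num
      rw [q2]
      have q3 : 0 < T ^ (1 / 3 : ℝ) := by positivity
      have q4 : 1 ≤ 2 * (T ^ (1 / 3 : ℝ))⁻¹ * U := by
        rw [mul_comm 2, mul_assoc, inv_mul_eq_div, one_le_div q3]
        exact hTU
      nlinarith
    have q5 : T ^ (3 / 2 : ℝ) * T ^ (-(1 / 6) : ℝ) = T ^ (4 / 3 : ℝ) := by
      rw [← Real.rpow_add hT0]
      norm_num
    calc _ ≤ C₂ * (T ^ (3 / 2 : ℝ) * √(U⁻¹)) * Y ^ (2 * η) := b1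
      _ ≤ C₂ * (T ^ (3 / 2 : ℝ) * (2 * T ^ (-(1 / 6) : ℝ))) * Y ^ (4 * η) := by gcongr
      _ = 2 * C₂ * ((T ^ (3 / 2 : ℝ) * T ^ (-(1 / 6) : ℝ)) * Y ^ (4 * η)) := by ring
      _ = _ := by rw [q5]
  have h3 : ∫ x in (0 : ℝ)..T, ‖F.EV Y x‖ ≤
      (∫ x in (0 : ℝ)..T, ‖F.EV U x‖) + ∫ x in (0 : ℝ)..T, ‖F.EV Y x - F.EV U x‖ := by
    rw [← intervalIntegral.integral_add iU.norm i1.norm]
    refine intervalIntegral.integral_mono_on hT0.le iY.norm (iU.norm.add i1.norm) fun x _ => ?_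
    have := norm_add_le (F.EV U x) (F.EV Y x - F.EV U x)
    rwa [add_sub_cancel] at this
  linarith

end DAD
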