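import Pool.Agent.WYL.Smo
import Pool.Agent.HYM.MainB

set_option autoImplicit false

/-!
# DAD/Kd1: the derivative of the regularised error term

`vint (1/2) Λ` is differentiated under the integral sign. For the size of the derivative,
`EV_eq` gives `K.EV V (x e^h) - K.EV V x = ∫ (kV V (y + h) - kV V y) (K.E (x e^(-y)) - K.E x) dy`, and the
shift estimate of WYL/Smo (`E_shift`) applies.
-/

open Complex MeasureTheory

namespace DAD

open HYM

theorem inv_ln_half_norm (t : ℝ) : ‖ln (1 / 2) t‖⁻¹ ≤ 2 := by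
  have h2 : 1 / 2 ≤ ‖ln (1 / 2) t‖ := by
    have := Complex.abs_re_le_norm (ln (1 / 2) t)
    rw [ln_re] at this
    rwa [abs_of_pos (by norm_num : (0 : ℝ) < 1 / 2)] at this
  rw [inv_le_comm₀ (by linarith) (by norm_num)]
  linarith

theorem ln_half_norm_le (t : ℝ) : ‖ln (1 / 2) t‖ ≤ 1 + |t| := by
  unfold ln
  refine (norm_add_le _ _).trans ?_
  rw [norm_mul, Complex.norm_I, mul_one, Complex.norm_real, Complex.norm_real, Real.norm_eq_abs,
    Real.norm_eq_abs, abs_of_pos (by norm_num : (0 : ℝ) < 1 / 2)]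
  linarith

theorem L_half_poly (K : Sel) : ∃ C : ℝ, ∃ N : ℕ, 0 < C ∧ ∀ t : ℝ,
    ‖K.L (ln (1 / 2) t)‖ ≤ C * (1 + |t|) ^ N := by
  obtain ⟨C, N, hC, h⟩ := P_growth K (1 / 2) (1 / 2)
  refine ⟨C * 2 ^ K.m, N, by positivity, fun t => ?_⟩
  have h1 := h (ln (1 / 2) t) (by rw [ln_re]) (by rw [ln_re])
  rw [ln_im] at h1
  have h2 : 1 / 2 ≤ ‖ln (1 / 2) t - 1‖ := by
    have := Complex.abs_re_le_norm (ln (1 / 2) t - 1)
    rw [Complex.sub_re, ln_re, Complex.one_re] at this
    norm_num at this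
    norm_num
    exact this
  unfold Sel.L
  rw [norm_div, norm_pow, div_eq_mul_inv, ← inv_pow]
  have h3 : ‖ln (1 / 2) t - 1‖⁻¹ ≤ 2 := by
    rw [inv_le_comm₀ (by linarith) (by norm_num)]
    linarith
  calc ‖K.P (ln (1 / 2) t)‖ * ‖ln (1 / 2) t - 1‖⁻¹ ^ K.m ≤
      (C * (1 + |t|) ^ N) * 2 ^ K.m :=
        mul_le_mul h1 (pow_le_pow_left₀ (by positivity) h3 _) (by positivity) (by positivity)
    _ = _ := by ring

/-- All polynomial weights are integrable against `K.Lam V`. -/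
theorem Lam_poly (K : Sel) {V : ℝ} (hV : 1 ≤ V) (k : ℕ) :
    Integrable (fun t : ℝ => (1 + |t|) ^ k * ‖K.Lam V t‖) := by
  obtain ⟨C, N, hC, h⟩ := L_half_poly K
  have hV0 : 0 < V := by linarith
  set M : ℝ := C * 2 * Real.exp 1 * Real.exp ((((N + k : ℕ) : ℝ) + 2) ^ 2 * V ^ 2 / 4) with hM
  have hint : Integrable (fun t : ℝ => M * (1 + t ^ 2)⁻¹) :=
    integrable_inv_one_add_sq.const_mul M
  refine hint.mono' ?_ (Filter.Eventually.of_forall fun t => ?_)
  · refine Continuous.aestronglyMeasurable ?_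
    exact ((continuous_const.add continuous_abs).pow k).mul (Lam_continuous K V).norm
  · rw [Real.norm_of_nonneg (by positivity)]
    unfold Sel.Lam
    rw [norm_mul, norm_div, div_eq_mul_inv]
    have h1 := h t
    have h2 := inv_ln_half_norm t
    have h3 := gauss_half_norm hV t
    have h4 := EVq_gauss hV0 (N + k) t
    have h5 : Real.exp (-(t / V) ^ 2) = Real.exp (-(t ^ 2) / V ^ 2) := by
      congr 1
      rw [div_pow, neg_div]
    rw [h5] at h3
    calc (1 + |t|) ^ k * (‖K.L (ln (1 / 2) t)‖ * ‖ln (1 / 2) t‖⁻¹ *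
          ‖cexp ((ln (1 / 2) t) ^ 2 / (V : ℂ) ^ 2)‖) ≤
        (1 + |t|) ^ k * ((C * (1 + |t|) ^ N) * 2 * (Real.exp 1 * Real.exp (-(t ^ 2) / V ^ 2))) := by
          refine mul_le_mul_of_nonneg_left ?_ (by positivity)
          refine mul_le_mul ?_ h3 (norm_nonneg _) (by positivity)
          exact mul_le_mul h1 h2 (by positivity) (by positivity)
      _ = C * 2 * Real.exp 1 * ((1 + |t|) ^ (N + k) * Real.exp (-(t ^ 2) / V ^ 2)) := by ring
      _ ≤ C * 2 * Real.exp 1 *
          (Real.exp ((((N + k : ℕ) : ℝ) + 2) ^ 2 * V ^ 2 / 4) / (1 + t ^ 2)) :=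
          mul_le_mul_of_nonneg_left h4 (by positivity)
      _ = M * (1 + t ^ 2)⁻¹ := by rw [hM]; ring

/-- Differentiation of a line integral under the integral sign. -/
theorem vint_hasDerivAt {Λ : ℝ → ℂ} (hc : Continuous Λ)
    (hi : Integrable (fun t : ℝ => (1 + |t|) * ‖Λ t‖)) {x : ℝ} (hx : 0 < x) :
    HasDerivAt (vint (1 / 2) Λ) (vint (1 / 2) (fun t => ln (1 / 2) t * Λ t) x / x) x := by
  have hx0 : (x : ℂ) ≠ 0 := by exact_mod_cast hx.ne'
  set F : ℝ → ℝ → ℂ := fun u t => Λ t * (u : ℂ) ^ (ln (1 / 2) t) with hF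
  set F' : ℝ → ℝ → ℂ := fun u t =>
    Λ t * (ln (1 / 2) t * (u : ℂ) ^ (ln (1 / 2) t - 1)) with hF'
  have hmeasF : ∀ u : ℝ, 0 < u → Continuous (F u) := by
    intro u hu
    have hu0 : (u : ℂ) ≠ 0 := by exact_mod_cast hu.ne'
    exact hc.mul ((ln_continuous _).const_cpow (Or.inl hu0))
  have hmeasF' : Continuous (F' x) :=
    hc.mul ((ln_continuous _).mul
      (((ln_continuous _).sub continuous_const).const_cpow (Or.inl hx0)))
  have hball : ∀ u ∈ Metric.ball x (x / 2), x / 2 < u := by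
    intro u hu
    rw [Metric.mem_ball, Real.dist_eq, abs_lt] at hu
    linarith [hu.1]
  have hint0 : Integrable (F x) := by
    refine (hi.const_mul (x ^ (1 / 2 : ℝ))).mono' (hmeasF x hx).aestronglyMeasurable
      (Filter.Eventually.of_forall fun t => ?_)
    simp only [hF]
    rw [norm_mul, Complex.norm_cpow_eq_rpow_re_of_pos hx, ln_re, mul_comm]
    refine mul_le_mul_of_nonneg_left ?_ (by positivity)
    refine le_mul_of_one_le_left (norm_nonneg _) ?_
    linarith [abs_nonneg t]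
  have key := hasDerivAt_integral_of_dominated_loc_of_deriv_le (μ := volume) (F := F) (F' := F')
    (x₀ := x) (s := Metric.ball x (x / 2))
    (bound := fun t => (x / 2) ^ (-(1 / 2) : ℝ) * ((1 + |t|) * ‖Λ t‖))
    (Metric.ball_mem_nhds x (by linarith))
    (by
      filter_upwards [Metric.ball_mem_nhds x (by linarith : 0 < x / 2)] with u hu
      exact (hmeasF u (by linarith [hball u hu])).aestronglyMeasurable)
    hint0 hmeasF'.aestronglyMeasurable
    (by
      refine Filter.Eventually.of_forall fun t u hu => ?_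
      have hu1 := hball u hu
      have hu0 : 0 < u := by linarith
      simp only [hF']
      rw [norm_mul, norm_mul, Complex.norm_cpow_eq_rpow_re_of_pos hu0, Complex.sub_re, ln_re,
        Complex.one_re]
      have e1 : (1 / 2 - 1 : ℝ) = -(1 / 2) := by norm_num
      rw [e1]
      have h1 : u ^ (-(1 / 2) : ℝ) ≤ (x / 2) ^ (-(1 / 2) : ℝ) :=
        Real.rpow_le_rpow_of_nonpos (by linarith) hu1.le (by norm_num)
      have h2 := ln_half_norm_le t
      calc ‖Λ t‖ * (‖ln (1 / 2) t‖ * u ^ (-(1 / 2) : ℝ)) ≤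
          ‖Λ t‖ * ((1 + |t|) * (x / 2) ^ (-(1 / 2) : ℝ)) := by
            refine mul_le_mul_of_nonneg_left ?_ (norm_nonneg _)
            exact mul_le_mul h2 h1 (by positivity) (by positivity)
        _ = _ := by ring)
    (hi.const_mul _)
    (by
      refine Filter.Eventually.of_forall fun t u hu => ?_
      have hu1 := hball u hu
      have hu0 : 0 < u := by linarith
      have h1 : HasDerivAt (fun z : ℂ => z ^ (ln (1 / 2) t))
          (ln (1 / 2) t * (u : ℂ) ^ (ln (1 / 2) t - 1)) (u : ℂ) := by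
        have := (hasDerivAt_id (u : ℂ)).cpow_const (c := ln (1 / 2) t)
          (Or.inl (by simpa using hu0))
        simpa using this
      exact (h1.comp_ofReal).const_mul (Λ t))
  have h2 := key.2.const_mul ((2 * (Real.pi : ℂ))⁻¹)
  have e2 : vint (1 / 2) (fun t => ln (1 / 2) t * Λ t) x / x =
      (2 * (Real.pi : ℂ))⁻¹ * ∫ t : ℝ, F' x t := by
    unfold vint
    rw [mul_div_assoc, ← integral_div]
    congr 1
    refine integral_congr_ae (Filter.Eventually.of_forall fun t => ?_)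
    simp only [hF']
    rw [Complex.cpow_sub _ _ hx0, Complex.cpow_one]
    ring
  rw [e2]
  exact h2

theorem EV_hasDerivAt (K : Sel) {V : ℝ} (hV : 1 ≤ V) {x : ℝ} (hx : 0 < x) :
    HasDerivAt (K.EV V) (vint (1 / 2) (fun t => ln (1 / 2) t * K.Lam V t) x / x) x := by
  have h := Lam_poly K hV 1
  simp only [pow_one] at h
  exact vint_hasDerivAt (Lam_continuous K V) h hx

theorem EV_differentiable (K : Sel) {V : ℝ} (hV : 1 ≤ V) :
    (∀ x : ℝ, 0 < x → DifferentiableAt ℝ (K.EV V) x) ∧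
      ContinuousOn (deriv (K.EV V)) (Set.Ioi 0) := by
  refine ⟨fun x hx => (EV_hasDerivAt K hV hx).differentiableAt, ?_⟩
  have h2 := Lam_poly K hV 2
  have hi : Integrable (fun t : ℝ => (1 + |t|) * ‖ln (1 / 2) t * K.Lam V t‖) := by
    refine h2.mono' ?_ (Filter.Eventually.of_forall fun t => ?_)
    · refine Continuous.aestronglyMeasurable ?_
      exact (continuous_const.add continuous_abs).mul
        (((ln_continuous _).mul (Lam_continuous K V)).norm)
    · rw [Real.norm_of_nonneg (by positivity), norm_mul, sq, mul_assoc]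
      refine mul_le_mul_of_nonneg_left ?_ (by positivity)
      exact mul_le_mul_of_nonneg_right (ln_half_norm_le t) (norm_nonneg _)
  have hc : ContinuousOn (fun x : ℝ =>
      vint (1 / 2) (fun t => ln (1 / 2) t * K.Lam V t) x / x) (Set.Ioi 0) := by
    intro x hx
    have hx0 : (0 : ℝ) < x := hx
    have h3 := vint_hasDerivAt (Λ := fun t => ln (1 / 2) t * K.Lam V t)
      ((ln_continuous _).mul (Lam_continuous K V)) hi hx0
    refine (h3.continuousAt.div (Complex.continuous_ofReal.continuousAt) ?_).continuousWithinAt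
    exact_mod_cast hx0.ne'
  refine hc.congr fun x hx => ?_
  exact (EV_hasDerivAt K hV hx).deriv

/-- `x * (EV V)'(x)` as a line integral. -/
theorem EV_deriv_line (K : Sel) {V x : ℝ} (hV : 1 ≤ V) (hx : 0 < x) :
    (x : ℂ) * deriv (K.EV V) x = vint (1 / 2) (fun t => ln (1 / 2) t * K.Lam V t) x := by
  have hx0 : (x : ℂ) ≠ 0 := by exact_mod_cast hx.ne'
  rw [(EV_hasDerivAt K hV hx).deriv]
  field_simp

/-! ## The size of the derivative -/

theorem kV_hasDerivAt (V y : ℝ) :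
    HasDerivAt (kV V) (-(V ^ 2 * y / 2) * kV V y) y := by
  unfold kV
  have h1 : HasDerivAt (fun y : ℝ => -(V * y) ^ 2 / 4) (-(V ^ 2 * y / 2)) y := by
    have h2 : HasDerivAt (fun y : ℝ => V * y) V y := by
      simpa using (hasDerivAt_id y).const_mul V
    have h3 := ((h2.pow 2).neg).div_const 4
    refine h3.congr_deriv ?_
    push_cast
    ring
  have h4 := (h1.exp).const_mul (V / (2 * √Real.pi))
  refine h4.congr_deriv ?_
  ring

theorem kV_deriv_le {V : ℝ} (hV : 1 ≤ V) {y u : ℝ} (hu : |u - y| ≤ 1 / V) :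
    ‖-(V ^ 2 * u / 2) * kV V u‖ ≤ V ^ 2 * ((1 + |V * y|) * Real.exp (-(V * y) ^ 2 / 8)) := by
  have hV0 : 0 < V := by linarith
  have hw : |V * u - V * y| ≤ 1 := by
    rw [← mul_sub, abs_mul, abs_of_pos hV0]
    calc V * |u - y| ≤ V * (1 / V) := mul_le_mul_of_nonneg_left hu hV0.le
      _ = 1 := by field_simp
  have h1 : |V * u| ≤ 1 + |V * y| := by
    have := abs_sub_abs_le_abs_sub (V * u) (V * y)
    linarith
  have h2 : (V * y) ^ 2 ≤ 2 * (V * u) ^ 2 + 2 := by
    have h3 : (V * u - V * y) ^ 2 ≤ 1 := by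
      rw [← sq_abs]
      have := abs_nonneg (V * u - V * y)
      nlinarith
    nlinarith [sq_nonneg (V * y - 2 * (V * u))]
  have h3 : Real.exp (-(V * u) ^ 2 / 4) ≤ Real.exp (1 / 4) * Real.exp (-(V * y) ^ 2 / 8) := by
    rw [← Real.exp_add]
    refine Real.exp_le_exp.2 ?_
    linarith
  have hpi : 1 ≤ √Real.pi := by
    rw [Real.one_le_sqrt]
    linarith [Real.pi_gt_three]
  have h4 : Real.exp (1 / 4) ≤ 4 := by
    have h5 : Real.exp (1 / 4) ≤ Real.exp 1 := Real.exp_le_exp.2 (by norm_num)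
    have h6 := Real.exp_one_lt_d9
    linarith
  have e : ‖-(V ^ 2 * u / 2) * kV V u‖ =
      V ^ 2 * |V * u| * Real.exp (-(V * u) ^ 2 / 4) / (4 * √Real.pi) := by
    unfold kV
    rw [Real.norm_eq_abs, abs_mul, abs_neg, abs_div, abs_mul, abs_mul, abs_div, Real.abs_exp,
      abs_mul, abs_of_pos (by positivity : 0 < V ^ 2), abs_of_pos (by norm_num : (0 : ℝ) < 2),
      abs_of_pos hV0, abs_mul, abs_of_nonneg (Real.sqrt_nonneg _), abs_of_pos hV0]
    ring
  rw [e, div_le_iff₀ (by positivity)]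
  calc V ^ 2 * |V * u| * Real.exp (-(V * u) ^ 2 / 4) ≤
      V ^ 2 * (1 + |V * y|) * (Real.exp (1 / 4) * Real.exp (-(V * y) ^ 2 / 8)) :=
        mul_le_mul (mul_le_mul_of_nonneg_left h1 (by positivity)) h3 (by positivity) (by positivity)
    _ = V ^ 2 * ((1 + |V * y|) * Real.exp (-(V * y) ^ 2 / 8)) * Real.exp (1 / 4) := by ring
    _ ≤ V ^ 2 * ((1 + |V * y|) * Real.exp (-(V * y) ^ 2 / 8)) * (4 * √Real.pi) := by
        refine mul_le_mul_of_nonneg_left ?_ (by positivity)
        linarith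

theorem kV_diff_le {V : ℝ} (hV : 1 ≤ V) {h : ℝ} (hh : |h| ≤ 1 / V) (y : ℝ) :
    |kV V (y + h) - kV V y| ≤
      |h| * (V ^ 2 * ((1 + |V * y|) * Real.exp (-(V * y) ^ 2 / 8))) := by
  have h1 := Convex.norm_image_sub_le_of_norm_hasDerivWithin_le (𝕜 := ℝ) (f := kV V)
    (f' := fun u => -(V ^ 2 * u / 2) * kV V u) (s := Metric.closedBall y (1 / V))
    (C := V ^ 2 * ((1 + |V * y|) * Real.exp (-(V * y) ^ 2 / 8))) (x := y) (y := y + h)
    (fun u _ => (kV_hasDerivAt V u).hasDerivWithinAt)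
    (fun u hu => kV_deriv_le hV (by rwa [Metric.mem_closedBall, Real.dist_eq] at hu))
    (convex_closedBall y (1 / V)) (Metric.mem_closedBall_self (by positivity))
    (by rw [Metric.mem_closedBall, Real.dist_eq, add_sub_cancel_left]; exact hh)
  rw [Real.norm_eq_abs, Real.norm_eq_abs, add_sub_cancel_left] at h1
  rw [mul_comm]
  exact h1

theorem one_add_sq_le_exp (u : ℝ) (hu : 0 ≤ u) : (1 + u) ^ 2 ≤ Real.exp (2 * u) := by
  have h1 : 1 + u ≤ Real.exp u := by
    have := Real.add_one_le_exp u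
    linarith
  calc (1 + u) ^ 2 ≤ (Real.exp u) ^ 2 := pow_le_pow_left₀ (by positivity) h1 2
    _ = Real.exp (2 * u) := by rw [← Real.exp_nat_mul]; norm_num

theorem kern_le {V T a y : ℝ} (hV : 1 ≤ V) (hT : 0 ≤ T) (ha : 0 ≤ a) :
    (V ^ 2 * ((1 + |V * y|) * Real.exp (-(V * y) ^ 2 / 8))) *
      ((1 + T * |y|) * Real.exp (a * |y|)) ≤
      V ^ 2 * (1 + T / V) * Real.exp (4 * (a + 2) ^ 2) * Real.exp (-(V ^ 2 / 16) * y ^ 2) := by
  have hV0 : 0 < V := by linarith
  have hab : |V * y| = V * |y| := by rw [abs_mul, abs_of_pos hV0]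
  set w : ℝ := |V * y| with hw
  have hw0 : 0 ≤ w := abs_nonneg _
  have hyw : |y| ≤ w := by
    rw [hab]
    exact le_mul_of_one_le_left (abs_nonneg y) hV
  have h1 : 1 + T * |y| ≤ (1 + T / V) * (1 + w) := by
    have : T * |y| = T / V * w := by
      rw [hab]
      field_simp
    rw [this]
    have h0 : 0 ≤ T / V := by positivity
    nlinarith
  have h2 : Real.exp (a * |y|) ≤ Real.exp (a * w) :=
    Real.exp_le_exp.2 (mul_le_mul_of_nonneg_left hyw ha)
  have h3 : (V * y) ^ 2 = w ^ 2 := (sq_abs _).symm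
  have h4 := one_add_sq_le_exp w hw0
  rw [h3]
  calc V ^ 2 * ((1 + w) * Real.exp (-w ^ 2 / 8)) * ((1 + T * |y|) * Real.exp (a * |y|)) ≤
      V ^ 2 * ((1 + w) * Real.exp (-w ^ 2 / 8)) *
        (((1 + T / V) * (1 + w)) * Real.exp (a * w)) := by
          refine mul_le_mul_of_nonneg_left ?_ (by positivity)
          exact mul_le_mul h1 h2 (by positivity) (by positivity)
    _ = V ^ 2 * (1 + T / V) * ((1 + w) ^ 2 * (Real.exp (-w ^ 2 / 8) * Real.exp (a * w))) := by
        ring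
    _ ≤ V ^ 2 * (1 + T / V) * (Real.exp (2 * w) * (Real.exp (-w ^ 2 / 8) * Real.exp (a * w))) := by
        refine mul_le_mul_of_nonneg_left ?_ (by positivity)
        exact mul_le_mul_of_nonneg_right h4 (by positivity)
    _ ≤ V ^ 2 * (1 + T / V) * (Real.exp (4 * (a + 2) ^ 2) * Real.exp (-(V ^ 2 / 16) * y ^ 2)) := by
        refine mul_le_mul_of_nonneg_left ?_ (by positivity)
        rw [← Real.exp_add, ← Real.exp_add, ← Real.exp_add]
        refine Real.exp_le_exp.2 ?_
        have h5 : -(V ^ 2 / 16) * y ^ 2 = -(w ^ 2 / 16) := by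
          rw [← h3]
          ring
        rw [h5]
        nlinarith [sq_nonneg (w / 4 - 2 * (a + 2))]
    _ = _ := by ring

theorem kern_integral {V : ℝ} (hV : 1 ≤ V) :
    Integrable (fun y : ℝ => Real.exp (-(V ^ 2 / 16) * y ^ 2)) ∧
      ∫ y : ℝ, Real.exp (-(V ^ 2 / 16) * y ^ 2) = 4 * √Real.pi / V := by
  have hV0 : 0 < V := by linarith
  refine ⟨integrable_exp_neg_mul_sq (by positivity), ?_⟩
  rw [integral_gaussian]
  have h1 : Real.pi / (V ^ 2 / 16) = (4 / V) ^ 2 * Real.pi := by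
    field_simp
    norm_num
  rw [h1, Real.sqrt_mul (by positivity), Real.sqrt_sq (by positivity)]
  ring

theorem EV_lip (K : Sel) {ε : ℝ} (hε : 0 < ε) : ∃ C : ℝ, 0 < C ∧
    ∀ T V : ℝ, 1 ≤ T → 1 ≤ V → ∀ x : ℝ, 0 < x → x ≤ T → ∀ h : ℝ, |h| ≤ 1 / V →
      ‖K.EV V (x * Real.exp h) - K.EV V x‖ ≤ (C * T ^ ε * (V + T)) * |h| := by
  obtain ⟨C, hC, HC⟩ := WYL.Smo.E_shift K hε
  refine ⟨C * Real.exp (4 * ((3 + ε) + 2) ^ 2) * (4 * √Real.pi), by positivity,
    fun T V hT hV x hx hxT h hh => ?_⟩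
  have hV0 : 0 < V := by linarith
  have hT0 : 0 < T := by linarith
  have hxe : 0 < x * Real.exp h := by positivity
  have i1 : ∀ z : ℝ, 0 < z → Integrable (fun y : ℝ => (kV V y : ℂ) * K.E (z * Real.exp (-y))) := by
    intro z hz
    have := (EVq_int_S K hV0 hz).sub (EVq_int_res K hV0 hz)
    refine this.congr (Filter.Eventually.of_forall fun y => ?_)
    simp only [Pi.sub_apply]
    rw [Sel.E]
    ring
  have e1 : K.EV V (x * Real.exp h) = ∫ y : ℝ, (kV V (y + h) : ℂ) * K.E (x * Real.exp (-y)) := by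
    rw [EV_eq K hV0 hxe, ← integral_add_right_eq_self _ h]
    refine integral_congr_ae (Filter.Eventually.of_forall fun y => ?_)
    simp only
    congr 2
    rw [mul_assoc, ← Real.exp_add]
    congr 2
    ring
  have i2 : Integrable (fun y : ℝ => (kV V (y + h) : ℂ) * K.E (x * Real.exp (-y))) := by
    have := (i1 _ hxe).comp_add_right h
    refine this.congr (Filter.Eventually.of_forall fun y => ?_)
    simp only
    congr 2
    rw [mul_assoc, ← Real.exp_add]
    congr 2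
    ring
  have ik : Integrable (fun y : ℝ => (kV V y : ℂ)) := (kV_integrable hV0).ofReal
  have ikh : Integrable (fun y : ℝ => (kV V (y + h) : ℂ)) := ik.comp_add_right h
  have e0 : ∫ y : ℝ, ((kV V (y + h) : ℂ) - (kV V y : ℂ)) * K.E x = 0 := by
    rw [integral_mul_const, integral_sub ikh ik]
    have := integral_add_right_eq_self (μ := volume) (fun y : ℝ => (kV V y : ℂ)) h
    rw [this, sub_self, zero_mul]
  have e2 : K.EV V (x * Real.exp h) - K.EV V x =
      ∫ y : ℝ, ((kV V (y + h) : ℂ) - (kV V y : ℂ)) * (K.E (x * Real.exp (-y)) - K.E x) := by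
    have e3 : ∀ y : ℝ, ((kV V (y + h) : ℂ) - (kV V y : ℂ)) * (K.E (x * Real.exp (-y)) - K.E x) =
        ((kV V (y + h) : ℂ) * K.E (x * Real.exp (-y)) - (kV V y : ℂ) * K.E (x * Real.exp (-y))) -
          ((kV V (y + h) : ℂ) - (kV V y : ℂ)) * K.E x := fun y => by ring
    simp only [e3]
    have i12 : Integrable (fun y : ℝ => (kV V (y + h) : ℂ) * K.E (x * Real.exp (-y)) -
        (kV V y : ℂ) * K.E (x * Real.exp (-y))) := i2.sub (i1 x hx)
    have i34 : Integrable (fun y : ℝ => ((kV V (y + h) : ℂ) - (kV V y : ℂ)) * K.E x) :=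
      (ikh.sub ik).mul_const _
    rw [integral_sub i12 i34, e0, sub_zero, integral_sub i2 (i1 x hx), e1, EV_eq K hV0 hx]
  rw [e2]
  obtain ⟨ig, eg⟩ := kern_integral hV
  set M : ℝ := C * T ^ ε * |h| * (V ^ 2 * (1 + T / V) * Real.exp (4 * ((3 + ε) + 2) ^ 2)) with hM
  have hb : ∀ y : ℝ, ‖((kV V (y + h) : ℂ) - (kV V y : ℂ)) * (K.E (x * Real.exp (-y)) - K.E x)‖ ≤
      M * Real.exp (-(V ^ 2 / 16) * y ^ 2) := by
    intro y
    have h1 := kV_diff_le hV hh y
    have h2 := HC T hT x hx hxT y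
    rw [norm_sub_rev] at h2
    have h3 := kern_le (V := V) (T := T) (a := 3 + ε) (y := y) hV hT0.le (by positivity)
    rw [norm_mul]
    have h4 : ‖(kV V (y + h) : ℂ) - (kV V y : ℂ)‖ = |kV V (y + h) - kV V y| := by
      rw [← Complex.ofReal_sub, Complex.norm_real, Real.norm_eq_abs]
    rw [h4]
    calc |kV V (y + h) - kV V y| * ‖K.E (x * Real.exp (-y)) - K.E x‖ ≤
        (|h| * (V ^ 2 * ((1 + |V * y|) * Real.exp (-(V * y) ^ 2 / 8)))) *
          (C * T ^ ε * (1 + T * |y|) * Real.exp ((3 + ε) * |y|)) :=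
          mul_le_mul h1 h2 (norm_nonneg _) (by positivity)
      _ = C * T ^ ε * |h| * ((V ^ 2 * ((1 + |V * y|) * Real.exp (-(V * y) ^ 2 / 8))) *
          ((1 + T * |y|) * Real.exp ((3 + ε) * |y|))) := by ring
      _ ≤ C * T ^ ε * |h| * (V ^ 2 * (1 + T / V) * Real.exp (4 * ((3 + ε) + 2) ^ 2) *
          Real.exp (-(V ^ 2 / 16) * y ^ 2)) := mul_le_mul_of_nonneg_left h3 (by positivity)
      _ = M * Real.exp (-(V ^ 2 / 16) * y ^ 2) := by rw [hM]; ring
  refine (norm_integral_le_of_norm_le (ig.const_mul M) (Filter.Eventually.of_forall hb)).trans ?_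
  rw [integral_const_mul, eg, hM]
  have hV1 : V ≠ 0 := hV0.ne'
  refine le_of_eq ?_
  field_simp

theorem EV_deriv (K : Sel) {ε : ℝ} (hε : 0 < ε) : ∃ C : ℝ, 0 < C ∧
    ∀ X V : ℝ, 1 ≤ X → 1 ≤ V → V ≤ X → ∀ x : ℝ, X ≤ 64 * x → x ≤ X →
      ‖deriv (K.EV V) x‖ ≤ C * X ^ ε := by
  obtain ⟨C, hC, HC⟩ := EV_lip K hε
  refine ⟨128 * C, by positivity, fun X V hX hV hVX x hx1 hx2 => ?_⟩
  have hX0 : 0 < X := by linarith
  have hV0 : 0 < V := by linarith
  have hx : 0 < x := by linarith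
  have hd := (EV_hasDerivAt K hV hx).differentiableAt.hasDerivAt
  have h1 : HasDerivAt (fun h : ℝ => x * Real.exp h) x 0 := by
    have := (Real.hasDerivAt_exp 0).const_mul x
    simpa using this
  have h2 : HasDerivAt (fun h : ℝ => K.EV V (x * Real.exp h)) (x • deriv (K.EV V) x) 0 := by
    have h3 : x * Real.exp 0 = x := by simp
    have h4 : HasDerivAt (K.EV V) (deriv (K.EV V) x) (x * Real.exp 0) := by
      rw [h3]
      exact hd
    exact h4.scomp 0 h1
  have h5 := h2.le_of_lip' (C := C * X ^ ε * (V + X)) (by positivity) (by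
    have hn : Metric.ball (0 : ℝ) (1 / V) ∈ nhds (0 : ℝ) :=
      Metric.ball_mem_nhds _ (by positivity)
    filter_upwards [hn] with h hh
    rw [Metric.mem_ball, Real.dist_eq, sub_zero] at hh
    have h6 := HC X V hX hV x hx hx2 h hh.le
    simpa using h6)
  rw [norm_smul, Real.norm_eq_abs, abs_of_pos hx] at h5
  have h7 : C * X ^ ε * (V + X) ≤ x * (128 * C * X ^ ε) := by
    have h8 : V + X ≤ 128 * x := by linarith
    have h9 : C * X ^ ε * (V + X) ≤ C * X ^ ε * (128 * x) :=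
      mul_le_mul_of_nonneg_left h8 (by positivity)
    linarith
  exact le_of_mul_le_mul_left (h5.trans h7) hx

end DAD
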