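import Pool.Agent.DAD.Mid
import Pool.Agent.DAD.Fl1
import Pool.Agent.DAD.Bpr
import Pool.Agent.DAD.KInt
import Pool.Agent.DAD.Kd1

set_option autoImplicit false

/-!
# DAD/Fmid: the middle frequencies on a dyadic interval
-/

open Complex MeasureTheory

namespace DAD

open HYM

theorem EV_cont (K : Sel) {V : ℝ} (hV : 1 ≤ V) {a b : ℝ} (ha : 0 < a) (hab : a ≤ b) :
    ContinuousOn (K.EV V) (Set.uIcc a b) := by
  intro x hx
  rw [Set.uIcc_of_le hab] at hx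
  exact ((EV_differentiable K hV).1 x (by linarith [hx.1])).continuousAt.continuousWithinAt

/-- One dyadic step of the middle range. -/
theorem mid_one (F : Sel) (hF : F.deg ≤ 2) (G : ℕ → Sel) (r : ℕ)
    (hG : ∀ i < r, (G i).deg ≤ 3) (K : Sel)
    (hK : ∀ n : ℕ, 1 ≤ n → K.f n = (∏ i ∈ Finset.range r, af (G i)) n)
    {ε : ℝ} (hε : 0 < ε) : ∃ C : ℝ, 0 < C ∧
    ∀ X b V : ℝ, 64 ≤ X → X ≤ b → b ≤ 2 * X → X ^ (41 / 100 : ℝ) ≤ V → V ≤ X ^ (3 / 5 : ℝ) →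
      ‖∫ x in X..b, (F.EV (X ^ 5) x - F.L 0) * (K.EV (2 * V) x - K.EV V x)‖ ≤
        C * X ^ (133 / 80 + ε) := by
  obtain ⟨η, hη, hη4, hηε⟩ : ∃ η : ℝ, 0 < η ∧ η ≤ 1 / 4 ∧ 22 * η ≤ ε :=
    ⟨min (ε / 22) (1 / 4), lt_min (by positivity) (by norm_num), min_le_right _ _, by
      have := min_le_left (ε / 22) (1 / 4)
      linarith⟩
  obtain ⟨C₁, hC₁, H₁⟩ := mid_rep G r hG K hK hη
  obtain ⟨C₂, hC₂, H₂⟩ := bpr F hF hη hη4
  obtain ⟨C₃, hC₃, H₃⟩ := F_l1 F hF hη hη4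
  obtain ⟨C₄, hC₄, H₄⟩ := K_int K hη
  refine ⟨8 * C₂ * C₁ + 8 * C₁ * C₃ + ‖F.L 0‖ * (2 * C₄), by positivity,
    fun X b V hX hXb hb2 hV1 hV2 => ?_⟩
  have hX0 : 0 < X := by linarith
  have hX1 : 1 ≤ X := by linarith
  have hb0 : 0 < b := by linarith
  have hb1 : 1 ≤ b := by linarith
  have hXp : 1 ≤ X ^ (41 / 100 : ℝ) := Real.one_le_rpow hX1 (by norm_num)
  have hV : 1 ≤ V := hXp.trans hV1
  have hV0 : 0 < V := by linarith
  have hV' : 1 ≤ 2 * V := by linarith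
  set Y : ℝ := X ^ 5 with hYd
  have hY : 1 ≤ Y := one_le_pow₀ hX1
  have hbY : b ≤ Y := by
    have : 2 * X ≤ X ^ 5 := by
      have h4 : 2 ≤ X ^ 4 := by
        have := one_le_pow₀ hX1 (n := 3)
        calc (2 : ℝ) ≤ X * 1 := by linarith
          _ ≤ X * X ^ 3 := by gcongr
          _ = X ^ 4 := by ring
      calc 2 * X ≤ X ^ 4 * X := by gcongr
        _ = X ^ 5 := by ring
    exact hb2.trans this
  have hXY : X ≤ Y := hXb.trans hbY
  -- 2 V ≤ X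
  have h2V : 2 * V ≤ X := by
    have h25 : (2 : ℝ) ≤ X ^ (2 / 5 : ℝ) := by
      have h64 : (64 : ℝ) ^ (2 / 5 : ℝ) ≤ X ^ (2 / 5 : ℝ) :=
        Real.rpow_le_rpow (by norm_num) hX (by norm_num)
      have h2 : (2 : ℝ) ≤ 64 ^ (2 / 5 : ℝ) := by
        rw [show (64 : ℝ) = 2 ^ (6 : ℝ) by norm_num, ← Real.rpow_mul (by norm_num)]
        calc (2 : ℝ) = 2 ^ (1 : ℝ) := (Real.rpow_one 2).symm
          _ ≤ 2 ^ (6 * (2 / 5) : ℝ) :=
            Real.rpow_le_rpow_of_exponent_le (by norm_num) (by norm_num)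
      exact h2.trans h64
    calc 2 * V ≤ X ^ (2 / 5 : ℝ) * X ^ (3 / 5 : ℝ) := by gcongr
      _ = X := by
        rw [← Real.rpow_add hX0]
        norm_num
  have hVX : V ≤ X := by linarith
  obtain ⟨Lam, iL, bL, eL⟩ := H₁ X V hX hV1 hV2
  obtain ⟨i0, b0⟩ := H₂ Y b hY hb1 Lam iL
  obtain ⟨i1, b1⟩ := H₂ Y X hY hX1 Lam iL
  obtain ⟨j0, c0⟩ := H₃ Y b hb1 hbY
  obtain ⟨k0, d0⟩ := H₄ X V X b hV hVX le_rfl hXb hb2
  obtain ⟨k1, d1⟩ := H₄ X (2 * V) X b hV' h2V le_rfl hXb hb2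
  have cF := EV_cont F hY hX0 hXb
  have cK1 := EV_cont K hV hX0 hXb
  have cK2 := EV_cont K hV' hX0 hXb
  have cL : ContinuousOn (vint (1 / 2) Lam) (Set.uIcc X b) :=
    (vint_continuousOn iL).mono (fun x hx => by
      rw [Set.uIcc_of_le hXb] at hx
      exact lt_of_lt_of_le hX0 hx.1)
  have iA : IntervalIntegrable (fun x => F.EV Y x * vint (1 / 2) Lam x) volume X b :=
    (cF.mul cL).intervalIntegrable
  have iB : IntervalIntegrable (fun x => F.EV Y x *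
      (K.EV (2 * V) x - K.EV V x - vint (1 / 2) Lam x)) volume X b :=
    (cF.mul ((cK2.sub cK1).sub cL)).intervalIntegrable
  have iC : IntervalIntegrable (fun x => F.L 0 *
      ((K.E x - K.EV V x) - (K.E x - K.EV (2 * V) x))) volume X b :=
    (k0.sub k1).const_mul _
  have hfun : ∀ x, (F.EV Y x - F.L 0) * (K.EV (2 * V) x - K.EV V x) =
      F.EV Y x * vint (1 / 2) Lam x +
        F.EV Y x * (K.EV (2 * V) x - K.EV V x - vint (1 / 2) Lam x) -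
        F.L 0 * ((K.E x - K.EV V x) - (K.E x - K.EV (2 * V) x)) := by
    intro x
    ring
  rw [intervalIntegral.integral_congr (g := fun x => F.EV Y x * vint (1 / 2) Lam x +
        F.EV Y x * (K.EV (2 * V) x - K.EV V x - vint (1 / 2) Lam x) -
        F.L 0 * ((K.E x - K.EV V x) - (K.E x - K.EV (2 * V) x))) (fun x _ => hfun x),
    intervalIntegral.integral_sub (iA.add iB) iC, intervalIntegral.integral_add iA iB,
    intervalIntegral.integral_const_mul, intervalIntegral.integral_sub k0 k1]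
  -- exponents
  have hYη : Y ^ (4 * η) = X ^ (20 * η) := by
    rw [hYd, ← Real.rpow_natCast, ← Real.rpow_mul hX0.le]
    congr 1
    push_cast
    ring
  have hpow : ∀ e : ℝ, e ≤ 133 / 80 + ε → X ^ e ≤ X ^ (133 / 80 + ε) := fun e he =>
    Real.rpow_le_rpow_of_exponent_le hX1 he
  have h22 : ∀ e : ℝ, 0 ≤ e → e ≤ 2 → (2 * X) ^ e ≤ 4 * X ^ e := by
    intro e he0 he
    rw [Real.mul_rpow (by norm_num) hX0.le]
    refine mul_le_mul_of_nonneg_right ?_ (by positivity)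
    calc (2 : ℝ) ^ e ≤ 2 ^ (2 : ℝ) := Real.rpow_le_rpow_of_exponent_le (by norm_num) he
      _ = 4 := by norm_num
  have hΦ0 : 0 ≤ ∫ t : ℝ, ‖Lam t‖ := integral_nonneg fun t => norm_nonneg _
  have n1 : ‖∫ x in X..b, F.EV Y x * vint (1 / 2) Lam x‖ ≤
      8 * C₂ * C₁ * X ^ (133 / 80 + ε) := by
    have e1 : ∫ x in X..b, F.EV Y x * vint (1 / 2) Lam x =
        (∫ x in (0 : ℝ)..b, F.EV Y x * vint (1 / 2) Lam x) -
          ∫ x in (0 : ℝ)..X, F.EV Y x * vint (1 / 2) Lam x := by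
      rw [intervalIntegral.integral_interval_sub_left i0 i1]
    rw [e1]
    have hb32 : b ^ (3 / 2 : ℝ) ≤ 4 * X ^ (3 / 2 : ℝ) :=
      (Real.rpow_le_rpow hb0.le hb2 (by norm_num)).trans (h22 _ (by norm_num) (by norm_num))
    have hX32 : X ^ (3 / 2 : ℝ) ≤ 4 * X ^ (3 / 2 : ℝ) := by
      have : 0 ≤ X ^ (3 / 2 : ℝ) := by positivity
      linarith
    have q : ∀ t : ℝ, t ≤ 4 * X ^ (3 / 2 : ℝ) → C₂ * (t * Y ^ (4 * η)) * ∫ t : ℝ, ‖Lam t‖ ≤
        4 * C₂ * C₁ * X ^ (133 / 80 + ε) := by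
      intro t ht
      calc C₂ * (t * Y ^ (4 * η)) * ∫ t : ℝ, ‖Lam t‖
          ≤ C₂ * ((4 * X ^ (3 / 2 : ℝ)) * Y ^ (4 * η)) * (C₁ * X ^ (13 / 80 + η)) := by
            gcongr
        _ = 4 * C₂ * C₁ * (X ^ (3 / 2 : ℝ) * X ^ (20 * η) * X ^ (13 / 80 + η)) := by
            rw [hYη]; ring
        _ = 4 * C₂ * C₁ * X ^ (3 / 2 + 20 * η + (13 / 80 + η)) := by
            rw [← Real.rpow_add hX0, ← Real.rpow_add hX0]
        _ ≤ _ := by
            refine mul_le_mul_of_nonneg_left (hpow _ ?_) (by positivity)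
            linarith
    calc _ ≤ ‖∫ x in (0 : ℝ)..b, F.EV Y x * vint (1 / 2) Lam x‖ +
          ‖∫ x in (0 : ℝ)..X, F.EV Y x * vint (1 / 2) Lam x‖ := norm_sub_le _ _
      _ ≤ 4 * C₂ * C₁ * X ^ (133 / 80 + ε) + 4 * C₂ * C₁ * X ^ (133 / 80 + ε) :=
          add_le_add (b0.trans (q _ hb32)) (b1.trans (q _ hX32))
      _ = _ := by ring
  have hV2 : X ^ (1 + η) / V ^ 2 ≤ X ^ (18 / 100 + η) := by
    rw [div_le_iff₀ (by positivity)]
    calc X ^ (1 + η) = X ^ (18 / 100 + η) * (X ^ (41 / 100 : ℝ)) ^ 2 := by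
          rw [← Real.rpow_natCast (X ^ (41 / 100 : ℝ)) 2, ← Real.rpow_mul hX0.le,
            ← Real.rpow_add hX0]
          congr 1
          push_cast
          ring
      _ ≤ X ^ (18 / 100 + η) * V ^ 2 := by gcongr
  have n2 : ‖∫ x in X..b, F.EV Y x * (K.EV (2 * V) x - K.EV V x - vint (1 / 2) Lam x)‖ ≤
      8 * C₁ * C₃ * X ^ (133 / 80 + ε) := by
    have herr : ∀ x : ℝ, X ≤ x → x ≤ 2 * X →
        ‖K.EV (2 * V) x - K.EV V x - vint (1 / 2) Lam x‖ ≤ 2 * C₁ * X ^ (18 / 100 + η) := by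
      intro x h1 h2
      refine (eL x h1 h2).trans ?_
      have h3 : C₁ * X ^ (1 + η) / V ^ 2 ≤ C₁ * X ^ (18 / 100 + η) := by
        rw [mul_div_assoc]
        exact mul_le_mul_of_nonneg_left hV2 hC₁.le
      have h4 : C₁ ≤ C₁ * X ^ (18 / 100 + η) :=
        le_mul_of_one_le_right hC₁.le (Real.one_le_rpow hX1 (by positivity))
      linarith
    have j1 : IntervalIntegrable (fun x => ‖F.EV Y x‖) volume X b := cF.norm.intervalIntegrable
    calc _ ≤ ∫ x in X..b, ‖F.EV Y x‖ * (2 * C₁ * X ^ (18 / 100 + η)) := by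
          refine (intervalIntegral.norm_integral_le_integral_norm hXb).trans ?_
          refine intervalIntegral.integral_mono_on hXb iB.norm (j1.mul_const _) fun x hx => ?_
          rw [norm_mul]
          exact mul_le_mul_of_nonneg_left (herr x hx.1 (hx.2.trans hb2)) (norm_nonneg _)
      _ = (∫ x in X..b, ‖F.EV Y x‖) * (2 * C₁ * X ^ (18 / 100 + η)) :=
          intervalIntegral.integral_mul_const _ _
      _ ≤ (C₃ * (b ^ (4 / 3 : ℝ) * Y ^ (4 * η))) * (2 * C₁ * X ^ (18 / 100 + η)) := by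
          refine mul_le_mul_of_nonneg_right (le_trans ?_ c0) (by positivity)
          have hs : ∫ x in (0 : ℝ)..b, ‖F.EV Y x‖ =
              (∫ x in (0 : ℝ)..X, ‖F.EV Y x‖) + ∫ x in X..b, ‖F.EV Y x‖ := by
            rw [intervalIntegral.integral_add_adjacent_intervals]
            · exact (j0.norm).mono_set (by
                rw [Set.uIcc_of_le hX0.le, Set.uIcc_of_le hb0.le]
                exact Set.Icc_subset_Icc le_rfl hXb)
            · exact j1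
          rw [hs]
          have : 0 ≤ ∫ x in (0 : ℝ)..X, ‖F.EV Y x‖ :=
            intervalIntegral.integral_nonneg hX0.le fun x _ => norm_nonneg _
          linarith
      _ ≤ (C₃ * ((4 * X ^ (4 / 3 : ℝ)) * X ^ (20 * η))) * (2 * C₁ * X ^ (18 / 100 + η)) := by
          rw [hYη]
          have hb43 : b ^ (4 / 3 : ℝ) ≤ 4 * X ^ (4 / 3 : ℝ) :=
            (Real.rpow_le_rpow hb0.le hb2 (by norm_num)).trans
              (h22 _ (by norm_num) (by norm_num))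
          gcongr
      _ = 8 * C₁ * C₃ * (X ^ (4 / 3 : ℝ) * X ^ (20 * η) * X ^ (18 / 100 + η)) := by ring
      _ = 8 * C₁ * C₃ * X ^ (4 / 3 + 20 * η + (18 / 100 + η)) := by
          rw [← Real.rpow_add hX0, ← Real.rpow_add hX0]
      _ ≤ _ := by
          refine mul_le_mul_of_nonneg_left (hpow _ ?_) (by positivity)
          linarith
  have n3 : ‖F.L 0 * ((∫ x in X..b, (K.E x - K.EV V x)) -
      ∫ x in X..b, (K.E x - K.EV (2 * V) x))‖ ≤
      ‖F.L 0‖ * (2 * C₄) * X ^ (133 / 80 + ε) := by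
    rw [norm_mul, mul_assoc]
    refine mul_le_mul_of_nonneg_left ?_ (norm_nonneg _)
    have h1 : C₄ * X ^ (2 + η) / V ^ 2 ≤ C₄ * X ^ (133 / 80 + ε) := by
      rw [mul_div_assoc]
      refine mul_le_mul_of_nonneg_left ?_ hC₄.le
      calc X ^ (2 + η) / V ^ 2 = X * (X ^ (1 + η) / V ^ 2) := by
            rw [show (2 + η : ℝ) = 1 + (1 + η) by ring, Real.rpow_add hX0 1, Real.rpow_one]
            ring
        _ ≤ X * X ^ (18 / 100 + η) := by gcongr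
        _ = X ^ (1 + (18 / 100 + η)) := by rw [Real.rpow_add hX0 1, Real.rpow_one]
        _ ≤ _ := hpow _ (by linarith)
    have h2 : C₄ * X ^ (2 + η) / (2 * V) ^ 2 ≤ C₄ * X ^ (2 + η) / V ^ 2 := by
      refine div_le_div_of_nonneg_left (by positivity) (by positivity) ?_
      nlinarith
    calc _ ≤ ‖∫ x in X..b, (K.E x - K.EV V x)‖ + ‖∫ x in X..b, (K.E x - K.EV (2 * V) x)‖ :=
          norm_sub_le _ _
      _ ≤ C₄ * X ^ (133 / 80 + ε) + C₄ * X ^ (133 / 80 + ε) :=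
          add_le_add (d0.trans h1) (d1.trans (h2.trans h1))
      _ = _ := by ring
  calc _ ≤ ‖∫ x in X..b, F.EV Y x * vint (1 / 2) Lam x‖ +
        ‖∫ x in X..b, F.EV Y x * (K.EV (2 * V) x - K.EV V x - vint (1 / 2) Lam x)‖ +
        ‖F.L 0 * ((∫ x in X..b, (K.E x - K.EV V x)) - ∫ x in X..b, (K.E x - K.EV (2 * V) x))‖ :=
        (norm_sub_le _ _).trans (add_le_add (norm_add_le _ _) le_rfl)
    _ ≤ 8 * C₂ * C₁ * X ^ (133 / 80 + ε) + 8 * C₁ * C₃ * X ^ (133 / 80 + ε) +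
        ‖F.L 0‖ * (2 * C₄) * X ^ (133 / 80 + ε) := add_le_add (add_le_add n1 n2) n3
    _ = _ := by ring

theorem mid_sum (F : Sel) (hF : F.deg ≤ 2) (G : ℕ → Sel) (r : ℕ)
    (hG : ∀ i < r, (G i).deg ≤ 3) (K : Sel)
    (hK : ∀ n : ℕ, 1 ≤ n → K.f n = (∏ i ∈ Finset.range r, af (G i)) n)
    {ε : ℝ} (hε : 0 < ε) : ∃ C : ℝ, 0 < C ∧
    ∀ (X b : ℝ) (m k : ℕ), 64 ≤ X → X ≤ b → b ≤ 2 * X → m ≤ k →
      X ^ (41 / 100 : ℝ) ≤ (2 : ℝ) ^ m → (2 : ℝ) ^ k ≤ X ^ (3 / 5 : ℝ) →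
      ‖∫ x in X..b, (F.EV (X ^ 5) x - F.L 0) * (K.EV (2 ^ k) x - K.EV (2 ^ m) x)‖ ≤
        C * X ^ (208 / 125 + ε) := by
  obtain ⟨C, hC, H⟩ := mid_one F hF G r hG K hK (ε := 1 / 1000) (by norm_num)
  refine ⟨3000 * C, by positivity, fun X b m k hX hXb hb2 hmk hm hk => ?_⟩
  have hX0 : 0 < X := by linarith
  have hX1 : 1 ≤ X := by linarith
  have hY : 1 ≤ X ^ 5 := one_le_pow₀ hX1
  have p1 : ∀ i : ℕ, (1 : ℝ) ≤ 2 ^ i := fun i => one_le_pow₀ (by norm_num)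
  have tel : ∀ x : ℝ, K.EV (2 ^ k) x - K.EV (2 ^ m) x =
      ∑ i ∈ Finset.Ico m k, (K.EV (2 * 2 ^ i) x - K.EV (2 ^ i) x) := by
    intro x
    have := Finset.sum_Ico_sub (fun i : ℕ => K.EV (2 ^ i) x) hmk
    rw [← this]
    refine Finset.sum_congr rfl fun i _ => ?_
    rw [pow_succ']
  have cF := EV_cont F hY hX0 hXb
  have hint : ∀ i ∈ Finset.Ico m k, IntervalIntegrable (fun x => (F.EV (X ^ 5) x - F.L 0) *
      (K.EV (2 * 2 ^ i) x - K.EV (2 ^ i) x)) volume X b := by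
    intro i _
    have c1 := EV_cont K (p1 i) hX0 hXb
    have c2 := EV_cont K (V := 2 * 2 ^ i) (by linarith [p1 i]) hX0 hXb
    exact ((cF.sub continuousOn_const).mul (c2.sub c1)).intervalIntegrable
  have e : ∫ x in X..b, (F.EV (X ^ 5) x - F.L 0) * (K.EV (2 ^ k) x - K.EV (2 ^ m) x) =
      ∑ i ∈ Finset.Ico m k, ∫ x in X..b, (F.EV (X ^ 5) x - F.L 0) *
        (K.EV (2 * 2 ^ i) x - K.EV (2 ^ i) x) := by
    rw [← intervalIntegral.integral_finsetSum hint]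
    refine intervalIntegral.integral_congr fun x _ => ?_
    show (F.EV (X ^ 5) x - F.L 0) * (K.EV (2 ^ k) x - K.EV (2 ^ m) x) = _
    rw [tel, Finset.mul_sum]
  rw [e]
  have hcount : (k : ℝ) ≤ 3000 * X ^ (1 / 2000 : ℝ) := by
    have h1 : (2 : ℝ) ^ k ≤ X := hk.trans (by
      calc X ^ (3 / 5 : ℝ) ≤ X ^ (1 : ℝ) := Real.rpow_le_rpow_of_exponent_le hX1 (by norm_num)
        _ = X := Real.rpow_one X)
    have h2 : (k : ℝ) * Real.log 2 ≤ Real.log X := by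
      rw [← Real.log_pow]
      exact Real.log_le_log (by positivity) h1
    have h3 : Real.log X ≤ X ^ (1 / 2000 : ℝ) / (1 / 2000) :=
      Real.log_le_rpow_div hX0.le (by norm_num)
    have h4 := Real.log_two_gt_d9
    have h5 : (k : ℝ) * 0.69 ≤ (k : ℝ) * Real.log 2 :=
      mul_le_mul_of_nonneg_left (by linarith) (Nat.cast_nonneg k)
    have h6 : 0 ≤ X ^ (1 / 2000 : ℝ) := by positivity
    have h7 : (k : ℝ) * 0.69 ≤ 2000 * X ^ (1 / 2000 : ℝ) := by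
      calc (k : ℝ) * 0.69 ≤ X ^ (1 / 2000 : ℝ) / (1 / 2000) := h5.trans (h2.trans h3)
        _ = _ := by ring
    linarith
  have hterm : ∀ i ∈ Finset.Ico m k, ‖∫ x in X..b, (F.EV (X ^ 5) x - F.L 0) *
      (K.EV (2 * 2 ^ i) x - K.EV (2 ^ i) x)‖ ≤ C * X ^ (133 / 80 + 1 / 1000 : ℝ) := by
    intro i hi
    rw [Finset.mem_Ico] at hi
    refine H X b (2 ^ i) hX hXb hb2 (hm.trans ?_) (le_trans ?_ hk)
    · exact pow_le_pow_right₀ (by norm_num) hi.1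
    · exact pow_le_pow_right₀ (by norm_num) hi.2.le
  calc _ ≤ ∑ i ∈ Finset.Ico m k, ‖∫ x in X..b, (F.EV (X ^ 5) x - F.L 0) *
        (K.EV (2 * 2 ^ i) x - K.EV (2 ^ i) x)‖ := norm_sum_le _ _
    _ ≤ ∑ i ∈ Finset.Ico m k, C * X ^ (133 / 80 + 1 / 1000 : ℝ) := Finset.sum_le_sum hterm
    _ = ((k - m : ℕ) : ℝ) * (C * X ^ (133 / 80 + 1 / 1000 : ℝ)) := by
        rw [Finset.sum_const, Nat.card_Ico, nsmul_eq_mul]
    _ ≤ (3000 * X ^ (1 / 2000 : ℝ)) * (C * X ^ (133 / 80 + 1 / 1000 : ℝ)) := by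
        refine mul_le_mul_of_nonneg_right (le_trans ?_ hcount) (by positivity)
        exact_mod_cast Nat.sub_le k m
    _ = 3000 * C * (X ^ (1 / 2000 : ℝ) * X ^ (133 / 80 + 1 / 1000 : ℝ)) := by ring
    _ = 3000 * C * X ^ (1 / 2000 + (133 / 80 + 1 / 1000) : ℝ) := by
        rw [← Real.rpow_add hX0]
    _ ≤ _ := by
        refine mul_le_mul_of_nonneg_left ?_ (by positivity)
        exact Real.rpow_le_rpow_of_exponent_le hX1 (by linarith)

end DAD
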