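import Pool.Agent.DAD.Flow
import Pool.Agent.DAD.Fmid
import Pool.Agent.DAD.Fhigh

/-!
# DAD/Fin1: see Flow, Fmid, Fhigh
-/
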