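import Pool.Agent.DAD.Cvx
import Pool.Agent.DAD.Defs

set_option autoImplicit false

/-!
# DAD/Prod: the product of several members

`L_prod` as `HYM.L_mul` (HYM/MainB.lean): `LSeries` of a product of arithmetic functions is the
product, then the identity theorem for `K.P s (s-1)^(∑ m_i) = ∏ (G i).P s (s-1)^(K.m)`.
-/

open Complex MeasureTheory

namespace DAD

open HYM

theorem prd_af_eq (G : Sel) {n : ℕ} (hn : n ≠ 0) : af G n = G.f n := by
  simp [af, hn]

theorem prd_af_summable (G : Sel) {s : ℂ} (hs : 1 < s.re) :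
    LSeriesSummable (fun n => af G n) s :=
  (LSeriesSummable_congr s (fun hn => prd_af_eq G hn)).2 (G.summable s hs)

theorem prd_af_series (G : Sel) (s : ℂ) :
    LSeries (fun n => af G n) s = LSeries G.f s :=
  LSeries_congr (fun hn => prd_af_eq G hn) s

theorem prd_series (G : ℕ → Sel) (t : Finset ℕ) {s : ℂ} (hs : 1 < s.re) :
    LSeriesSummable (fun n => (∏ i ∈ t, af (G i)) n) s ∧
      LSeries (fun n => (∏ i ∈ t, af (G i)) n) s = ∏ i ∈ t, LSeries (G i).f s := by
  classical
  induction t using Finset.induction_on with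
  | empty =>
    rw [Finset.prod_empty, Finset.prod_empty]
    have h : ∀ {n : ℕ}, n ≠ 0 → (1 : ArithmeticFunction ℂ) n = LSeries.delta n := by
      intro n _
      rw [ArithmeticFunction.one_apply]
      simp [LSeries.delta]
    refine ⟨?_, ?_⟩
    · refine (LSeriesSummable_congr s h).2 ?_
      exact summable_of_ne_finset_zero (s := {1}) fun n hn => by
        simp only [Finset.mem_singleton] at hn
        rcases eq_or_ne n 0 with rfl | h0
        · simp
        · rw [LSeries.term_of_ne_zero h0]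
          simp [LSeries.delta, hn]
    · rw [LSeries_congr h s, LSeries_delta]
      rfl
  | insert i t hi ih =>
    rw [Finset.prod_insert hi, Finset.prod_insert hi]
    refine ⟨ArithmeticFunction.LSeriesSummable_mul (prd_af_summable (G i) hs) ih.1, ?_⟩
    rw [ArithmeticFunction.LSeries_mul' (prd_af_summable (G i) hs) ih.1, ih.2, prd_af_series]

theorem L_prod (G : ℕ → Sel) (r : ℕ) (K : Sel)
    (hK : ∀ n : ℕ, 1 ≤ n → K.f n = (∏ i ∈ Finset.range r, af (G i)) n) {s : ℂ} (hs : s ≠ 1) :
    K.L s = ∏ i ∈ Finset.range r, (G i).L s := by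
  have hA : ∀ s : ℂ, 1 < s.re → K.P s * (s - 1) ^ (∑ i ∈ Finset.range r, (G i).m) =
      (∏ i ∈ Finset.range r, (G i).P s) * (s - 1) ^ K.m := by
    intro s hs
    have hs1 : s - 1 ≠ 0 := by
      intro h
      have : s = 1 := by linear_combination h
      rw [this] at hs
      simp at hs
    have h1 : LSeries K.f s = ∏ i ∈ Finset.range r, LSeries (G i).f s := by
      rw [← (prd_series G (Finset.range r) hs).2]
      exact LSeries_congr (fun {n} hn => hK n (Nat.one_le_iff_ne_zero.2 hn)) s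
    rw [K.series s hs, Finset.prod_congr rfl (fun i _ => (G i).series s hs),
      Finset.prod_div_distrib, Finset.prod_pow_eq_pow_sum] at h1
    rw [div_eq_div_iff (pow_ne_zero _ hs1) (pow_ne_zero _ hs1)] at h1
    exact h1
  have hall : (fun s : ℂ => K.P s * (s - 1) ^ (∑ i ∈ Finset.range r, (G i).m)) =
      fun s : ℂ => (∏ i ∈ Finset.range r, (G i).P s) * (s - 1) ^ K.m := by
    have e1 : AnalyticOnNhd ℂ
        (fun s : ℂ => K.P s * (s - 1) ^ (∑ i ∈ Finset.range r, (G i).m)) Set.univ := by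
      have h : Differentiable ℂ
          (fun s : ℂ => K.P s * (s - 1) ^ (∑ i ∈ Finset.range r, (G i).m)) :=
        K.P_diff.mul ((differentiable_id.sub_const 1).pow _)
      exact h.differentiableOn.analyticOnNhd isOpen_univ
    have e2 : AnalyticOnNhd ℂ
        (fun s : ℂ => (∏ i ∈ Finset.range r, (G i).P s) * (s - 1) ^ K.m) Set.univ := by
      have h0 : Differentiable ℂ (fun s : ℂ => ∏ i ∈ Finset.range r, (G i).P s) := by
        rw [show (fun s : ℂ => ∏ i ∈ Finset.range r, (G i).P s) =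
          ∏ i ∈ Finset.range r, (G i).P from by ext s; simp]
        exact Differentiable.finsetProd (fun i _ => (G i).P_diff)
      have h : Differentiable ℂ
          (fun s : ℂ => (∏ i ∈ Finset.range r, (G i).P s) * (s - 1) ^ K.m) :=
        h0.mul ((differentiable_id.sub_const 1).pow _)
      exact h.differentiableOn.analyticOnNhd isOpen_univ
    refine e1.eq_of_eventuallyEq e2 (z₀ := 2) ?_
    have ho : IsOpen {s : ℂ | 1 < s.re} := isOpen_lt continuous_const continuous_re
    filter_upwards [ho.mem_nhds (show (2 : ℂ) ∈ {s : ℂ | 1 < s.re} by simp)] with s hs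
    exact hA s hs
  have h : K.P s * (s - 1) ^ (∑ i ∈ Finset.range r, (G i).m) =
      (∏ i ∈ Finset.range r, (G i).P s) * (s - 1) ^ K.m := congrFun hall s
  have hs1 : s - 1 ≠ 0 := sub_ne_zero.2 hs
  unfold Sel.L
  rw [Finset.prod_div_distrib, Finset.prod_pow_eq_pow_sum,
    div_eq_div_iff (pow_ne_zero _ hs1) (pow_ne_zero _ hs1)]
  exact h

theorem prd_ln_ne (t : ℝ) : ln (1 / 2) t ≠ 1 := by
  intro h
  have := congrArg Complex.re h
  rw [ln_re] at this
  norm_num at this

theorem convex_prod (G : ℕ → Sel) (r : ℕ) (K : Sel)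
    (hK : ∀ n : ℕ, 1 ≤ n → K.f n = (∏ i ∈ Finset.range r, af (G i)) n) {D : ℝ}
    (hD : ∑ i ∈ Finset.range r, (G i).deg ≤ D) {ε : ℝ} (hε : 0 < ε) :
    ∃ C : ℝ, 0 < C ∧ ∀ t : ℝ, ‖K.L (ln (1 / 2) t)‖ ≤ C * (1 + |t|) ^ (D / 4 + ε) := by
  have hr0 : (0 : ℝ) < (r : ℝ) + 1 := by positivity
  have hε' : 0 < ε / ((r : ℝ) + 1) := by positivity
  choose C hC0 hC using fun i : ℕ => convex_half (G i) hε'
  refine ⟨∏ i ∈ Finset.range r, C i, Finset.prod_pos fun i _ => hC0 i, fun t => ?_⟩
  have ht1 : (1 : ℝ) ≤ 1 + |t| := by linarith [abs_nonneg t]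
  have ht0 : (0 : ℝ) < 1 + |t| := by linarith
  rw [L_prod G r K hK (prd_ln_ne t), norm_prod]
  calc ∏ i ∈ Finset.range r, ‖(G i).L (ln (1 / 2) t)‖
      ≤ ∏ i ∈ Finset.range r, (C i * (1 + |t|) ^ ((G i).deg / 4 + ε / ((r : ℝ) + 1))) :=
        Finset.prod_le_prod (fun i _ => norm_nonneg _) (fun i _ => hC i t)
    _ = (∏ i ∈ Finset.range r, C i) *
        (1 + |t|) ^ (∑ i ∈ Finset.range r, ((G i).deg / 4 + ε / ((r : ℝ) + 1))) := by
        rw [Finset.prod_mul_distrib, Real.rpow_sum_of_pos ht0]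
    _ ≤ (∏ i ∈ Finset.range r, C i) * (1 + |t|) ^ (D / 4 + ε) := by
        refine mul_le_mul_of_nonneg_left (Real.rpow_le_rpow_of_exponent_le ht1 ?_)
          (Finset.prod_nonneg fun i _ => (hC0 i).le)
        rw [Finset.sum_add_distrib, ← Finset.sum_div, Finset.sum_const, Finset.card_range,
          nsmul_eq_mul]
        have h1 : (r : ℝ) * (ε / ((r : ℝ) + 1)) ≤ ε := by
          rw [mul_div_assoc', div_le_iff₀ hr0]
          nlinarith
        linarith

end DAD
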