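import Pool.Agent.DAD.Base
import Pool.Agent.DAD.KInt
import Pool.Agent.DAD.Prod

set_option autoImplicit false

/-!
# DAD/Fin2: the primitive of the error term of a product

Dyadic `[X, 2X]` (the last one cut at `T`), `K.E = K.EV V + (K.E - K.EV V)` with
`V = X^(2/(D+4))`: `K_int` gives `C X^(2+ε)/V²` and `base_int` (with `Bd = D/4 + ε`) gives
`C (2X)^(3/2) V^(Bd-1+ε)`, both at most `C X^(2 - 4/(D+4) + ε)`.
-/

open Complex MeasureTheory

namespace DAD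

open HYM

theorem fin2_E_ii (K : Sel) {a b : ℝ} (ha : 0 < a) (hab : a ≤ b) :
    IntervalIntegrable K.E volume a b := by
  obtain ⟨M, hM, N⟩ := E_crude K
  refine (intervalIntegrable_const (c := M * (1 + b ^ 2))).mono_fun' ?_ ?_
  · exact (E_measurable K).aestronglyMeasurable
  · rw [Set.uIoc_of_le hab]
    refine (ae_restrict_iff' measurableSet_Ioc).2
      (Filter.Eventually.of_forall fun x hx => (N x (by linarith [hx.1])).trans ?_)
    refine mul_le_mul_of_nonneg_left ?_ hM.le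
    nlinarith [hx.1, hx.2]

theorem fin2_dyad (G : ℕ → Sel) (r : ℕ) (K : Sel)
    (hK : ∀ n : ℕ, 1 ≤ n → K.f n = (∏ i ∈ Finset.range r, af (G i)) n) {D : ℝ} (hD4 : 4 ≤ D)
    (hD : ∑ i ∈ Finset.range r, (G i).deg ≤ D) {ε : ℝ} (hε : 0 < ε) :
    ∃ C : ℝ, 0 < C ∧ ∀ X b : ℝ, 1 ≤ X → X ≤ b → b ≤ 2 * X →
      ‖∫ x in X..b, K.E x‖ ≤ C * X ^ (2 - 4 / (D + 4) + ε) := by
  obtain ⟨C₀, hC₀, h0⟩ := convex_prod G r K hK hD hε
  obtain ⟨C₁, hC₁, h1⟩ := base_int K (Bd := D / 4 + ε) (by linarith) hC₀ h0 hε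
  obtain ⟨C₂, hC₂, h2⟩ := K_int K hε
  have hD0 : 0 < D + 4 := by linarith
  refine ⟨C₁ * (2 : ℝ) ^ (3 / 2 : ℝ) + C₂, by positivity, fun X b hX hXb hb => ?_⟩
  have hX0 : 0 < X := by linarith
  have hq0 : 0 ≤ 2 / (D + 4) := by positivity
  have hq1 : 2 / (D + 4) ≤ 1 / 4 := by
    rw [div_le_div_iff₀ hD0 (by norm_num)]
    linarith
  obtain ⟨V, hV⟩ : ∃ V : ℝ, V = X ^ (2 / (D + 4)) := ⟨_, rfl⟩
  have hV1 : 1 ≤ V := by rw [hV]; exact Real.one_le_rpow hX hq0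
  have hVX : V ≤ X := by
    rw [hV]
    calc X ^ (2 / (D + 4)) ≤ X ^ (1 : ℝ) :=
          Real.rpow_le_rpow_of_exponent_le hX (by linarith)
      _ = X := Real.rpow_one X
  obtain ⟨i2, b2⟩ := h2 X V X b hV1 hVX le_rfl hXb hb
  have iE := fin2_E_ii K hX0 hXb
  have iV : IntervalIntegrable (K.EV V) volume X b := by
    have := iE.sub i2
    refine this.congr fun x _ => ?_
    simp
  have hsplit : ∫ x in X..b, K.E x =
      (∫ x in X..b, K.EV V x) + ∫ x in X..b, (K.E x - K.EV V x) := by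
    rw [← intervalIntegral.integral_add iV i2]
    refine intervalIntegral.integral_congr fun x _ => ?_
    simp
  have b1 := h1 V X b hV1 hX0 hXb
  have e1 : C₁ * b ^ (3 / 2 : ℝ) * V ^ (D / 4 + ε - 1 + ε) ≤
      C₁ * (2 : ℝ) ^ (3 / 2 : ℝ) * X ^ (2 - 4 / (D + 4) + ε) := by
    have hb32 : b ^ (3 / 2 : ℝ) ≤ (2 : ℝ) ^ (3 / 2 : ℝ) * X ^ (3 / 2 : ℝ) := by
      rw [← Real.mul_rpow (by norm_num) hX0.le]
      exact Real.rpow_le_rpow (by linarith) hb (by norm_num)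
    calc C₁ * b ^ (3 / 2 : ℝ) * V ^ (D / 4 + ε - 1 + ε)
        ≤ C₁ * ((2 : ℝ) ^ (3 / 2 : ℝ) * X ^ (3 / 2 : ℝ)) * V ^ (D / 4 + ε - 1 + ε) := by
          gcongr
      _ = C₁ * (2 : ℝ) ^ (3 / 2 : ℝ) *
          (X ^ (3 / 2 : ℝ) * X ^ (2 / (D + 4) * (D / 4 + ε - 1 + ε))) := by
          rw [hV, ← Real.rpow_mul hX0.le]
          ring
      _ = C₁ * (2 : ℝ) ^ (3 / 2 : ℝ) *
          X ^ (3 / 2 + 2 / (D + 4) * (D / 4 + ε - 1 + ε)) := by
          rw [← Real.rpow_add hX0]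
      _ ≤ C₁ * (2 : ℝ) ^ (3 / 2 : ℝ) * X ^ (2 - 4 / (D + 4) + ε) := by
          refine mul_le_mul_of_nonneg_left (Real.rpow_le_rpow_of_exponent_le hX ?_)
            (by positivity)
          have h3 : 3 / 2 + 2 / (D + 4) * (D / 4 - 1) = 2 - 4 / (D + 4) := by
            field_simp
            ring
          have h4 : 3 / 2 + 2 / (D + 4) * (D / 4 + ε - 1 + ε) =
              (3 / 2 + 2 / (D + 4) * (D / 4 - 1)) + 2 / (D + 4) * (2 * ε) := by ring
          rw [h4, h3]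
          nlinarith
  have e2 : C₂ * X ^ (2 + ε) / V ^ 2 = C₂ * X ^ (2 - 4 / (D + 4) + ε) := by
    have hV2 : V ^ 2 = X ^ (4 / (D + 4)) := by
      rw [hV, ← Real.rpow_natCast, ← Real.rpow_mul hX0.le]
      congr 1
      push_cast
      ring
    rw [hV2, mul_div_assoc, ← Real.rpow_sub hX0]
    congr 2
    ring
  rw [hsplit]
  calc ‖(∫ x in X..b, K.EV V x) + ∫ x in X..b, (K.E x - K.EV V x)‖
      ≤ ‖∫ x in X..b, K.EV V x‖ + ‖∫ x in X..b, (K.E x - K.EV V x)‖ := norm_add_le _ _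
    _ ≤ C₁ * (2 : ℝ) ^ (3 / 2 : ℝ) * X ^ (2 - 4 / (D + 4) + ε) +
        C₂ * X ^ (2 - 4 / (D + 4) + ε) := add_le_add (b1.trans e1) (b2.trans e2.le)
    _ = _ := by ring

theorem KE_int (G : ℕ → Sel) (r : ℕ) (K : Sel)
    (hK : ∀ n : ℕ, 1 ≤ n → K.f n = (∏ i ∈ Finset.range r, af (G i)) n) {D : ℝ} (hD4 : 4 ≤ D)
    (hD : ∑ i ∈ Finset.range r, (G i).deg ≤ D) {ε : ℝ} (hε : 0 < ε) :
    ∃ C : ℝ, ∀ T : ℝ, 1 ≤ T →
      ‖∫ x in (1 : ℝ)..T, K.E x‖ ≤ C * T ^ (2 - 4 / (D + 4) + ε) := by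
  obtain ⟨C, hC, h⟩ := fin2_dyad G r K hK hD4 hD hε
  obtain ⟨θ, hθ⟩ : ∃ θ : ℝ, θ = 2 - 4 / (D + 4) + ε := ⟨_, rfl⟩
  rw [← hθ] at h ⊢
  have hD0 : 0 < D + 4 := by linarith
  have hθ1 : 1 ≤ θ := by
    have : 4 / (D + 4) ≤ 1 := by
      rw [div_le_one hD0]
      linarith
    rw [hθ]
    linarith
  have key : ∀ n : ℕ, ∀ T : ℝ, 1 ≤ T → T ≤ (2 : ℝ) ^ (n + 1) →
      ‖∫ x in (1 : ℝ)..T, K.E x‖ ≤ C * T ^ θ := by
    intro n
    induction n with
    | zero =>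
      intro T hT hT2
      refine (h 1 T le_rfl hT (by simpa using hT2)).trans ?_
      rw [Real.one_rpow]
      exact mul_le_mul_of_nonneg_left (Real.one_le_rpow hT (by linarith)) hC.le
    | succ n ih =>
      intro T hT hT2
      rcases le_or_gt T 2 with hT' | hT'
      · refine (h 1 T le_rfl hT (by simpa using hT')).trans ?_
        rw [Real.one_rpow]
        exact mul_le_mul_of_nonneg_left (Real.one_le_rpow hT (by linarith)) hC.le
      · have h1 : 1 ≤ T / 2 := by linarith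
        have h2 : T / 2 ≤ (2 : ℝ) ^ (n + 1) := by
          rw [pow_succ] at hT2
          linarith
        have i1 := ih (T / 2) h1 h2
        have i2 := h (T / 2) T h1 (by linarith) (by linarith)
        have hs : ∫ x in (1 : ℝ)..T, K.E x =
            (∫ x in (1 : ℝ)..(T / 2), K.E x) + ∫ x in (T / 2)..T, K.E x :=
          (intervalIntegral.integral_add_adjacent_intervals
            (fin2_E_ii K one_pos h1) (fin2_E_ii K (by linarith) (by linarith))).symm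
        have h3 : (T / 2) ^ θ ≤ T ^ θ / 2 := by
          rw [Real.div_rpow (by linarith) (by norm_num)]
          refine div_le_div_of_nonneg_left (by positivity) (by norm_num) ?_
          calc (2 : ℝ) = (2 : ℝ) ^ (1 : ℝ) := (Real.rpow_one 2).symm
            _ ≤ (2 : ℝ) ^ θ := Real.rpow_le_rpow_of_exponent_le (by norm_num) hθ1
        rw [hs]
        calc ‖(∫ x in (1 : ℝ)..(T / 2), K.E x) + ∫ x in (T / 2)..T, K.E x‖
            ≤ C * (T / 2) ^ θ + C * (T / 2) ^ θ := (norm_add_le _ _).trans (add_le_add i1 i2)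
          _ = 2 * C * (T / 2) ^ θ := by ring
          _ ≤ 2 * C * (T ^ θ / 2) := by gcongr
          _ = C * T ^ θ := by ring
  refine ⟨C, fun T hT => ?_⟩
  obtain ⟨n, hn⟩ := pow_unbounded_of_one_lt T (by norm_num : (1 : ℝ) < 2)
  refine key n T hT (hn.le.trans ?_)
  exact pow_le_pow_right₀ (by norm_num) (Nat.le_succ n)

end DAD
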