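import Mathlib

set_option autoImplicit false

/-!
# DAD/Sub: a balanced subfamily

Plan: total `S`. If some `d i ≥ 2` (`i ∈ s`), take `t = {i}` (`d i ≤ 3`; the rest is `S - d i`, and
`max 2 (d i) + max 2 (S - d i) ≤ max (S) 5 ≤ D`). Otherwise all `d i < 2`: if `S ≤ 4`, `t = ∅`
(`2 + max 2 S ≤ 6`); if `S > 4` add elements until the sum is `≥ 2`: it is in `[2, 4)`, and
`max 2 (S - a) ≤ max (S-a) 2`, `a + max 2 (S-a) ≤ max S 6 ≤ D`.
-/

namespace DAD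

private theorem grow (d : ℕ → ℝ) (s : Finset ℕ) (h2 : ∀ i ∈ s, d i < 2)
    (hS : 2 ≤ ∑ i ∈ s, d i) : ∃ t ⊆ s, 2 ≤ ∑ i ∈ t, d i ∧ ∑ i ∈ t, d i < 4 := by
  induction s using Finset.induction_on with
  | empty => simp at hS; linarith
  | insert a s ha ih =>
    by_cases h : 2 ≤ ∑ i ∈ s, d i
    · obtain ⟨t, ht, h3⟩ := ih (fun i hi => h2 i (Finset.mem_insert_of_mem hi)) h
      exact ⟨t, ht.trans (Finset.subset_insert a s), h3⟩
    · push Not at h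
      refine ⟨insert a s, Finset.Subset.refl _, hS, ?_⟩
      rw [Finset.sum_insert ha]
      have := h2 a (Finset.mem_insert_self a s)
      linarith

theorem balanced (d : ℕ → ℝ) (s : Finset ℕ) (h0 : ∀ i ∈ s, 0 ≤ d i) (h3 : ∀ i ∈ s, d i ≤ 3)
    {D : ℝ} (hD6 : 6 ≤ D) (hD : ∑ i ∈ s, d i ≤ D) :
    ∃ t ⊆ s, max 2 (∑ i ∈ t, d i) + max 2 (∑ i ∈ s \ t, d i) ≤ D := by
  have hsp : ∀ t ⊆ s, ∑ i ∈ s \ t, d i = ∑ i ∈ s, d i - ∑ i ∈ t, d i := by
    intro t ht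
    have := Finset.sum_sdiff (f := d) ht
    linarith
  have key : ∀ t ⊆ s, 2 ≤ ∑ i ∈ t, d i → ∑ i ∈ t, d i ≤ 4 →
      max 2 (∑ i ∈ t, d i) + max 2 (∑ i ∈ s \ t, d i) ≤ D := by
    intro t ht h1 h2
    rw [max_eq_right h1, hsp t ht]
    rcases le_total 2 (∑ i ∈ s, d i - ∑ i ∈ t, d i) with h | h
    · rw [max_eq_right h]
      linarith
    · rw [max_eq_left h]
      linarith
  have hS0 : 0 ≤ ∑ i ∈ s, d i := Finset.sum_nonneg h0
  by_cases hA : ∃ i ∈ s, 2 ≤ d i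
  · obtain ⟨i, hi, h2⟩ := hA
    refine ⟨{i}, Finset.singleton_subset_iff.2 hi, key {i} (Finset.singleton_subset_iff.2 hi) ?_ ?_⟩
    · rw [Finset.sum_singleton]
      exact h2
    · rw [Finset.sum_singleton]
      linarith [h3 i hi]
  · push Not at hA
    by_cases h4 : ∑ i ∈ s, d i ≤ 4
    · refine ⟨∅, Finset.empty_subset s, ?_⟩
      rw [Finset.sum_empty, Finset.sdiff_empty]
      have h1 : max (2 : ℝ) 0 = 2 := max_eq_left (by norm_num)
      have h5 : max 2 (∑ i ∈ s, d i) ≤ 4 := max_le (by norm_num) h4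
      rw [h1]
      linarith
    · push Not at h4
      obtain ⟨t, ht, h5, h6⟩ := grow d s hA (by linarith)
      exact ⟨t, ht, key t ht h5 h6.le⟩

end DAD
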