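import Pool.Agent.DAD.MulSel
import Pool.Agent.DAD.MsD
import Pool.Agent.DAD.Sub
import Pool.Agent.DAD.Prod
import Pool.Agent.DAD.KInt
import Pool.Agent.DAD.Prm
import Pool.Agent.DAD.Kd1
import Pool.Agent.DAD.Fin2

set_option autoImplicit false

/-!
# DAD/Fin2b: the primitive of the error term of a product, sharper form

`balanced` gives `t`; `exists_prod` for `t` and for the complement: `A`, `B` with
`K.L = A.L * B.L` on the line (`HYM.L_mul`). Cauchy-Schwarz and `msD` (with `D₁ = max 2 A.deg`,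
`D₂ = max 2 B.deg`, `D₁ + D₂ ≤ D`): `∫ exp (-(t/2^k)²) ‖K.L‖ dt ≤ C (2^k)^(D/4+ε)`; dyadic sum:
`∫ ‖K.Lam V t‖ (1+|t|)^(-1) dt ≤ C V^(max 0 (D/4-2) + ε)`. Then as DAD/Fin2 (KE_int): dyadic `X`,
`V = X^(2/D)`: `vint_prim` for `K.EV V` (`≤ C X^(3/2) V^(max 0 (D/4-2)+ε)`) and `K_int`
(`≤ C X^(2+ε)/V²`), both `≤ C X^(max (3/2) (2-4/D) + ε)`.
-/

open Complex MeasureTheory

namespace DAD

open HYM

theorem f2b_af {A : Sel} {g : ArithmeticFunction ℂ} (h : ∀ n : ℕ, 1 ≤ n → A.f n = g n) :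
    af A = g := by
  ext n
  rcases Nat.eq_zero_or_pos n with rfl | hn
  · simp
  · rw [prd_af_eq A hn.ne', h n hn]

theorem f2b_split (G : ℕ → Sel) (r : ℕ) (K A B : Sel)
    (hK : ∀ n : ℕ, 1 ≤ n → K.f n = (∏ i ∈ Finset.range r, af (G i)) n) {t : Finset ℕ}
    (ht : t ⊆ Finset.range r) (hA : ∀ n : ℕ, 1 ≤ n → A.f n = (∏ i ∈ t, af (G i)) n)
    (hB : ∀ n : ℕ, 1 ≤ n → B.f n = (∏ i ∈ Finset.range r \ t, af (G i)) n) {s : ℂ}
    (hs : s ≠ 1) : K.L s = A.L s * B.L s := by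
  refine L_mul A B K (fun n hn => ?_) hs
  rw [hK n hn, ← Finset.prod_sdiff ht, mul_comm, ← f2b_af hA, ← f2b_af hB,
    ArithmeticFunction.mul_apply]
  refine Finset.sum_congr rfl fun p hp => ?_
  have hp1 := Nat.ne_zero_of_mem_divisorsAntidiagonal hp
  rw [prd_af_eq A hp1.1, prd_af_eq B hp1.2]

/-- The first moment of a product, by Cauchy-Schwarz. -/
theorem f2b_dyad (A B K : Sel)
    (hL : ∀ t : ℝ, K.L (ln (1 / 2) t) = A.L (ln (1 / 2) t) * B.L (ln (1 / 2) t))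
    {D₁ D₂ D : ℝ} (h1 : 2 ≤ D₁) (h2 : 2 ≤ D₂) (hA : A.deg ≤ D₁) (hB : B.deg ≤ D₂)
    (hD : D₁ + D₂ ≤ D) {ε : ℝ} (hε : 0 < ε) : ∃ C : ℝ, 0 < C ∧ ∀ k : ℕ, 1 ≤ k →
    Integrable (fun t : ℝ => Real.exp (-(t / 2 ^ k) ^ 2) * ‖K.L (ln (1 / 2) t)‖) ∧
    ∫ t : ℝ, Real.exp (-(t / 2 ^ k) ^ 2) * ‖K.L (ln (1 / 2) t)‖ ≤
      C * ((2 : ℝ) ^ k) ^ (D / 4 + ε) := by
  obtain ⟨C₁, hC₁, H₁⟩ := msD A h1 hA hε
  obtain ⟨C₂, hC₂, H₂⟩ := msD B h2 hB hε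
  refine ⟨C₁ + C₂, by positivity, fun k hk => ?_⟩
  obtain ⟨i1, b1⟩ := H₁ k hk
  obtain ⟨i2, b2⟩ := H₂ k hk
  obtain ⟨x, hx⟩ : ∃ x : ℝ, x = (2 : ℝ) ^ k := ⟨_, rfl⟩
  rw [← hx] at i1 i2 b1 b2 ⊢
  have hx1 : 1 ≤ x := by
    rw [hx]
    exact one_le_pow₀ (by norm_num)
  have hx0 : 0 < x := by linarith
  obtain ⟨μ, hμ⟩ : ∃ μ : ℝ, μ = x ^ ((D₂ - D₁) / 8) := ⟨_, rfl⟩
  have hμ0 : 0 < μ := by
    rw [hμ]
    positivity
  have hμ2 : μ * μ = x ^ ((D₂ - D₁) / 4) := by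
    rw [hμ, ← Real.rpow_add hx0]
    congr 1
    ring
  have hμ3 : μ⁻¹ * μ⁻¹ = x ^ (-((D₂ - D₁) / 4)) := by
    rw [← mul_inv, hμ2, Real.rpow_neg hx0.le]
  have hpt : ∀ t : ℝ, Real.exp (-(t / x) ^ 2) * ‖K.L (ln (1 / 2) t)‖ ≤
      μ * μ * (Real.exp (-(t / x) ^ 2) * ‖A.L (ln (1 / 2) t)‖ ^ 2) +
        μ⁻¹ * μ⁻¹ * (Real.exp (-(t / x) ^ 2) * ‖B.L (ln (1 / 2) t)‖ ^ 2) := by
    intro t
    rw [hL t, norm_mul]
    set p : ℝ := ‖A.L (ln (1 / 2) t)‖ with hp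
    set q : ℝ := ‖B.L (ln (1 / 2) t)‖ with hq
    have hp0 : 0 ≤ p := norm_nonneg _
    have hq0 : 0 ≤ q := norm_nonneg _
    have h5 : μ * μ⁻¹ = 1 := mul_inv_cancel₀ hμ0.ne'
    have h6 : 0 ≤ (μ * p - μ⁻¹ * q) ^ 2 := sq_nonneg _
    have h7 : (μ * p - μ⁻¹ * q) ^ 2 =
        μ * μ * p ^ 2 - 2 * (μ * μ⁻¹) * (p * q) + μ⁻¹ * μ⁻¹ * q ^ 2 := by ring
    rw [h7, h5] at h6
    have h8 : 0 ≤ p * q := mul_nonneg hp0 hq0
    have h9 : p * q ≤ μ * μ * p ^ 2 + μ⁻¹ * μ⁻¹ * q ^ 2 := by linarith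
    have h10 := mul_le_mul_of_nonneg_left h9 (Real.exp_pos (-(t / x) ^ 2)).le
    linarith
  have hint : Integrable (fun t : ℝ => Real.exp (-(t / x) ^ 2) * ‖K.L (ln (1 / 2) t)‖) := by
    refine ((i1.const_mul (μ * μ)).add (i2.const_mul (μ⁻¹ * μ⁻¹))).mono' ?_
      (Filter.Eventually.of_forall fun t => ?_)
    · refine Continuous.aestronglyMeasurable (Continuous.mul ?_ (L_half_continuous K).norm)
      exact Real.continuous_exp.comp ((continuous_id.div_const _).pow 2).neg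
    · rw [Real.norm_of_nonneg (mul_nonneg (Real.exp_pos _).le (norm_nonneg _))]
      exact hpt t
  refine ⟨hint, ?_⟩
  calc ∫ t : ℝ, Real.exp (-(t / x) ^ 2) * ‖K.L (ln (1 / 2) t)‖ ≤
      ∫ t : ℝ, (μ * μ * (Real.exp (-(t / x) ^ 2) * ‖A.L (ln (1 / 2) t)‖ ^ 2) +
        μ⁻¹ * μ⁻¹ * (Real.exp (-(t / x) ^ 2) * ‖B.L (ln (1 / 2) t)‖ ^ 2)) :=
        integral_mono hint ((i1.const_mul (μ * μ)).add (i2.const_mul (μ⁻¹ * μ⁻¹))) hpt
    _ = μ * μ * (∫ t : ℝ, Real.exp (-(t / x) ^ 2) * ‖A.L (ln (1 / 2) t)‖ ^ 2) +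
        μ⁻¹ * μ⁻¹ * ∫ t : ℝ, Real.exp (-(t / x) ^ 2) * ‖B.L (ln (1 / 2) t)‖ ^ 2 := by
        rw [integral_add (i1.const_mul _) (i2.const_mul _), integral_const_mul, integral_const_mul]
    _ ≤ μ * μ * (C₁ * x ^ (D₁ / 2 + ε)) + μ⁻¹ * μ⁻¹ * (C₂ * x ^ (D₂ / 2 + ε)) :=
        add_le_add (mul_le_mul_of_nonneg_left b1 (by positivity))
          (mul_le_mul_of_nonneg_left b2 (by positivity))
    _ = C₁ * x ^ ((D₁ + D₂) / 4 + ε) + C₂ * x ^ ((D₁ + D₂) / 4 + ε) := by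
        have e1 : x ^ ((D₁ + D₂) / 4 + ε) = x ^ ((D₂ - D₁) / 4) * x ^ (D₁ / 2 + ε) := by
          rw [← Real.rpow_add hx0]
          congr 1
          ring
        have e2 : x ^ ((D₁ + D₂) / 4 + ε) = x ^ (-((D₂ - D₁) / 4)) * x ^ (D₂ / 2 + ε) := by
          rw [← Real.rpow_add hx0]
          congr 1
          ring
        rw [hμ2, hμ3]
        nth_rewrite 1 [e1]
        rw [e2]
        ring
    _ ≤ C₁ * x ^ (D / 4 + ε) + C₂ * x ^ (D / 4 + ε) := by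
        have e3 : x ^ ((D₁ + D₂) / 4 + ε) ≤ x ^ (D / 4 + ε) :=
          Real.rpow_le_rpow_of_exponent_le hx1 (by linarith)
        exact add_le_add (mul_le_mul_of_nonneg_left e3 hC₁.le)
          (mul_le_mul_of_nonneg_left e3 hC₂.le)
    _ = _ := by ring

/-- The dyadic decomposition of the weight. -/
theorem f2b_weight {V : ℝ} (hV : 1 ≤ V) {N : ℕ} (hN : 1 ≤ N) (hVN : V ≤ 2 ^ N) (t : ℝ) :
    ∃ k ∈ Finset.Icc 1 N, (1 + |t|)⁻¹ * ((1 + |t|)⁻¹ * Real.exp (-(t / V) ^ 2)) ≤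
      16 * Real.exp 1 * ((((2 : ℝ) ^ k) ^ 2)⁻¹ * Real.exp (-(t / 2 ^ k) ^ 2)) := by
  have hV0 : 0 < V := by linarith
  have ht0 : 0 ≤ |t| := abs_nonneg t
  have he1 : Real.exp 1 * Real.exp (-1) = 1 := by
    rw [← Real.exp_add, add_neg_cancel, Real.exp_zero]
  have hge : ∀ k : ℕ, |t| ≤ 2 ^ k → 1 ≤ Real.exp 1 * Real.exp (-(t / 2 ^ k) ^ 2) := by
    intro k hk
    have h1 : (t / 2 ^ k) ^ 2 ≤ 1 := by
      rw [← sq_abs, abs_div, abs_of_pos (by positivity : (0 : ℝ) < 2 ^ k)]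
      have h2 : |t| / 2 ^ k ≤ 1 := (div_le_one (by positivity)).2 hk
      have h3 : 0 ≤ |t| / 2 ^ k := by positivity
      nlinarith
    calc (1 : ℝ) = Real.exp 1 * Real.exp (-1) := he1.symm
      _ ≤ _ := by
          refine mul_le_mul_of_nonneg_left (Real.exp_le_exp.2 ?_) (Real.exp_pos _).le
          linarith
  have hle1 : Real.exp (-(t / V) ^ 2) ≤ 1 := Real.exp_le_one_iff.2 (by
    have := sq_nonneg (t / V)
    linarith)
  have hinv : (1 + |t|)⁻¹ * ((1 + |t|)⁻¹ * Real.exp (-(t / V) ^ 2)) =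
      ((1 + |t|) ^ 2)⁻¹ * Real.exp (-(t / V) ^ 2) := by
    rw [pow_two (1 + |t|), mul_inv]
    ring
  rw [hinv]
  by_cases hA : |t| ≤ 2 ^ N
  · -- the minimal `k`
    have hex : ∃ k : ℕ, 1 ≤ k ∧ |t| ≤ 2 ^ k := ⟨N, hN, hA⟩
    classical
    obtain ⟨k, hk1, hk2, hk3⟩ : ∃ k : ℕ, 1 ≤ k ∧ |t| ≤ 2 ^ k ∧
        (k ≤ N ∧ (k = 1 ∨ (2 : ℝ) ^ (k - 1) < |t|)) := by
      refine ⟨Nat.find hex, (Nat.find_spec hex).1, (Nat.find_spec hex).2,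
        Nat.find_min' hex ⟨hN, hA⟩, ?_⟩
      by_contra hcon
      push Not at hcon
      obtain ⟨c1, c2⟩ := hcon
      have hge1 := (Nat.find_spec hex).1
      exact Nat.find_min hex (m := Nat.find hex - 1) (by omega) ⟨by omega, c2⟩
    refine ⟨k, Finset.mem_Icc.2 ⟨hk1, hk3.1⟩, ?_⟩
    have h4 : ((1 + |t|) ^ 2)⁻¹ ≤ 16 * (((2 : ℝ) ^ k) ^ 2)⁻¹ := by
      have h5 : (2 : ℝ) ^ k ≤ 4 * (1 + |t|) := by
        rcases hk3.2 with rfl | h6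
        · norm_num
          linarith
        · have h7 : (2 : ℝ) ^ k = 2 * 2 ^ (k - 1) := by
            rw [← pow_succ']
            congr 1
            omega
          rw [h7]
          linarith
      rw [inv_le_comm₀ (by positivity) (by positivity), mul_inv, inv_inv]
      have h8 : ((2 : ℝ) ^ k) ^ 2 ≤ (4 * (1 + |t|)) ^ 2 := pow_le_pow_left₀ (by positivity) h5 2
      have h9 : (4 * (1 + |t|)) ^ 2 = 16 * (1 + |t|) ^ 2 := by ring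
      rw [h9] at h8
      linarith
    calc ((1 + |t|) ^ 2)⁻¹ * Real.exp (-(t / V) ^ 2) ≤
        (16 * (((2 : ℝ) ^ k) ^ 2)⁻¹) * (Real.exp 1 * Real.exp (-(t / 2 ^ k) ^ 2)) :=
          mul_le_mul h4 (hle1.trans (hge k hk2)) (Real.exp_pos _).le (by positivity)
      _ = _ := by ring
  · push Not at hA
    refine ⟨N, Finset.mem_Icc.2 ⟨hN, le_refl _⟩, ?_⟩
    have h4 : ((1 + |t|) ^ 2)⁻¹ ≤ 16 * Real.exp 1 * (((2 : ℝ) ^ N) ^ 2)⁻¹ := by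
      have h5 : (((1 + |t|) ^ 2)⁻¹ : ℝ) ≤ (((2 : ℝ) ^ N) ^ 2)⁻¹ :=
        inv_anti₀ (by positivity) (pow_le_pow_left₀ (by positivity) (by linarith) 2)
      have h6 : (1 : ℝ) ≤ 16 * Real.exp 1 := by
        have := Real.add_one_le_exp (1 : ℝ)
        linarith
      exact h5.trans (le_mul_of_one_le_left (by positivity) h6)
    have h7 : Real.exp (-(t / V) ^ 2) ≤ Real.exp (-(t / 2 ^ N) ^ 2) := by
      refine Real.exp_le_exp.2 (neg_le_neg ?_)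
      rw [← sq_abs (t / 2 ^ N), ← sq_abs (t / V), abs_div, abs_div, abs_of_pos hV0,
        abs_of_pos (by positivity : (0 : ℝ) < 2 ^ N)]
      exact pow_le_pow_left₀ (by positivity) (div_le_div_of_nonneg_left ht0 hV0 hVN) 2
    calc ((1 + |t|) ^ 2)⁻¹ * Real.exp (-(t / V) ^ 2) ≤
        (16 * Real.exp 1 * (((2 : ℝ) ^ N) ^ 2)⁻¹) * Real.exp (-(t / 2 ^ N) ^ 2) :=
          mul_le_mul h4 h7 (Real.exp_pos _).le (by positivity)
      _ = _ := by ring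

/-- The first moment with the weight `(1+|t|)⁻¹`. -/
theorem f2b_fm (K : Sel) {D C₀ ε : ℝ} (hC₀ : 0 < C₀) (hε : 0 < ε)
    (hK : ∀ k : ℕ, 1 ≤ k →
      Integrable (fun t : ℝ => Real.exp (-(t / 2 ^ k) ^ 2) * ‖K.L (ln (1 / 2) t)‖) ∧
      ∫ t : ℝ, Real.exp (-(t / 2 ^ k) ^ 2) * ‖K.L (ln (1 / 2) t)‖ ≤
        C₀ * ((2 : ℝ) ^ k) ^ (D / 4 + ε)) : ∃ C : ℝ, 0 < C ∧ ∀ V : ℝ, 1 ≤ V →
    Integrable (K.Lam V) ∧ Integrable (fun t : ℝ => ‖K.Lam V t‖ * (1 + |t|)⁻¹) ∧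
      ∫ t : ℝ, ‖K.Lam V t‖ * (1 + |t|)⁻¹ ≤ C * V ^ (max 0 (D / 4 - 2) + 2 * ε) := by
  obtain ⟨CK, hCK, hKT⟩ := KT_le hε
  set m : ℝ := max 0 (D / 4 - 2) with hm
  have hm0 : 0 ≤ m := le_max_left _ _
  refine ⟨48 * Real.exp 1 ^ 2 * C₀ * CK * 4 ^ (m + ε), by positivity, fun V hV => ?_⟩
  have hV0 : 0 < V := by linarith
  obtain ⟨hs1, hs2⟩ := KT_spec V hV
  set N : ℕ := KT V + 1 with hN
  have hN1 : 1 ≤ N := by omega
  have hVN : V ≤ 2 ^ N := by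
    rw [hN, pow_succ]
    have : (0 : ℝ) < 2 ^ KT V := by positivity
    linarith
  have hN4 : (2 : ℝ) ^ N ≤ 4 * V := by
    rcases Nat.eq_zero_or_pos (KT V) with h0 | h0
    · rw [hN, h0]
      norm_num
      linarith
    · have h1 := hs2 (KT V - 1) (by omega)
      have h2 : (2 : ℝ) ^ N = 4 * 2 ^ (KT V - 1) := by
        have h3 : N = (KT V - 1) + 2 := by omega
        rw [h3, pow_add]
        ring
      rw [h2]
      linarith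
  have hLi : Integrable (K.Lam V) := by
    have h := Lam_poly K hV 0
    simp only [pow_zero, one_mul] at h
    exact (integrable_norm_iff (Lam_continuous K V).aestronglyMeasurable).1 h
  have hSi : Integrable (fun t : ℝ => ∑ k ∈ Finset.Icc 1 N, (48 * Real.exp 1 ^ 2 *
      (((2 : ℝ) ^ k) ^ 2)⁻¹) * (Real.exp (-(t / 2 ^ k) ^ 2) * ‖K.L (ln (1 / 2) t)‖)) :=
    integrable_finsetSum _ fun k hk => (hK k (Finset.mem_Icc.1 hk).1).1.const_mul _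
  have hpt : ∀ t : ℝ, ‖K.Lam V t‖ * (1 + |t|)⁻¹ ≤ ∑ k ∈ Finset.Icc 1 N, (48 * Real.exp 1 ^ 2 *
      (((2 : ℝ) ^ k) ^ 2)⁻¹) * (Real.exp (-(t / 2 ^ k) ^ 2) * ‖K.L (ln (1 / 2) t)‖) := by
    intro t
    obtain ⟨k, hk, h1⟩ := f2b_weight hV hN1 hVN t
    have h2 := WYL.Lam_pt K hV t
    have ht : 0 < 1 + |t| := by positivity
    calc ‖K.Lam V t‖ * (1 + |t|)⁻¹ ≤ (3 * Real.exp 1 *
          ((1 + |t|)⁻¹ * Real.exp (-(t / V) ^ 2) * ‖K.L (ln (1 / 2) t)‖)) * (1 + |t|)⁻¹ :=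
          mul_le_mul_of_nonneg_right h2 (by positivity)
      _ = 3 * Real.exp 1 * ‖K.L (ln (1 / 2) t)‖ *
          ((1 + |t|)⁻¹ * ((1 + |t|)⁻¹ * Real.exp (-(t / V) ^ 2))) := by ring
      _ ≤ 3 * Real.exp 1 * ‖K.L (ln (1 / 2) t)‖ *
          (16 * Real.exp 1 * ((((2 : ℝ) ^ k) ^ 2)⁻¹ * Real.exp (-(t / 2 ^ k) ^ 2))) :=
          mul_le_mul_of_nonneg_left h1 (by positivity)
      _ = (48 * Real.exp 1 ^ 2 * (((2 : ℝ) ^ k) ^ 2)⁻¹) *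
          (Real.exp (-(t / 2 ^ k) ^ 2) * ‖K.L (ln (1 / 2) t)‖) := by ring
      _ ≤ _ := Finset.single_le_sum (f := fun k : ℕ => (48 * Real.exp 1 ^ 2 *
          (((2 : ℝ) ^ k) ^ 2)⁻¹) * (Real.exp (-(t / 2 ^ k) ^ 2) * ‖K.L (ln (1 / 2) t)‖))
          (fun j _ => by positivity) hk
  have hWi : Integrable (fun t : ℝ => ‖K.Lam V t‖ * (1 + |t|)⁻¹) := by
    refine hSi.mono' ?_ (Filter.Eventually.of_forall fun t => ?_)
    · refine Continuous.aestronglyMeasurable ((Lam_continuous K V).norm.mul ?_)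
      exact WYL.inv_cont
    · rw [Real.norm_of_nonneg (by positivity)]
      exact hpt t
  refine ⟨hLi, hWi, ?_⟩
  have hterm : ∀ k ∈ Finset.Icc 1 N, (48 * Real.exp 1 ^ 2 * (((2 : ℝ) ^ k) ^ 2)⁻¹) *
      (∫ t : ℝ, Real.exp (-(t / 2 ^ k) ^ 2) * ‖K.L (ln (1 / 2) t)‖) ≤
        48 * Real.exp 1 ^ 2 * C₀ * (4 ^ (m + ε) * V ^ (m + ε)) := by
    intro k hk
    obtain ⟨hk1, hkN⟩ := Finset.mem_Icc.1 hk
    have h1 := (hK k hk1).2
    have hx1 : (1 : ℝ) ≤ 2 ^ k := one_le_pow₀ (by norm_num)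
    have hx0 : (0 : ℝ) < 2 ^ k := by positivity
    have h2 : (((2 : ℝ) ^ k) ^ 2)⁻¹ * ((2 : ℝ) ^ k) ^ (D / 4 + ε) ≤ 4 ^ (m + ε) * V ^ (m + ε) := by
      have e1 : (((2 : ℝ) ^ k) ^ 2)⁻¹ = ((2 : ℝ) ^ k) ^ (-2 : ℝ) := by
        rw [Real.rpow_neg hx0.le, show (2 : ℝ) = ((2 : ℕ) : ℝ) by norm_num, Real.rpow_natCast]
      rw [e1, ← Real.rpow_add hx0, ← Real.mul_rpow (by norm_num) hV0.le]
      have h3 : (2 : ℝ) ^ k ≤ 4 * V := (pow_le_pow_right₀ (by norm_num) hkN).trans hN4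
      have h4 : D / 4 - 2 ≤ m := le_max_right _ _
      calc ((2 : ℝ) ^ k) ^ (-2 + (D / 4 + ε)) ≤ ((2 : ℝ) ^ k) ^ (m + ε) :=
            Real.rpow_le_rpow_of_exponent_le hx1 (by linarith)
        _ ≤ (4 * V) ^ (m + ε) := Real.rpow_le_rpow hx0.le h3 (by positivity)
    calc (48 * Real.exp 1 ^ 2 * (((2 : ℝ) ^ k) ^ 2)⁻¹) *
        (∫ t : ℝ, Real.exp (-(t / 2 ^ k) ^ 2) * ‖K.L (ln (1 / 2) t)‖) ≤
        (48 * Real.exp 1 ^ 2 * (((2 : ℝ) ^ k) ^ 2)⁻¹) * (C₀ * ((2 : ℝ) ^ k) ^ (D / 4 + ε)) :=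
          mul_le_mul_of_nonneg_left h1 (by positivity)
      _ = 48 * Real.exp 1 ^ 2 * C₀ * ((((2 : ℝ) ^ k) ^ 2)⁻¹ * ((2 : ℝ) ^ k) ^ (D / 4 + ε)) := by
          ring
      _ ≤ _ := mul_le_mul_of_nonneg_left h2 (by positivity)
  calc ∫ t : ℝ, ‖K.Lam V t‖ * (1 + |t|)⁻¹ ≤ ∫ t : ℝ, ∑ k ∈ Finset.Icc 1 N,
      (48 * Real.exp 1 ^ 2 * (((2 : ℝ) ^ k) ^ 2)⁻¹) *
        (Real.exp (-(t / 2 ^ k) ^ 2) * ‖K.L (ln (1 / 2) t)‖) := integral_mono hWi hSi hpt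
    _ = ∑ k ∈ Finset.Icc 1 N, (48 * Real.exp 1 ^ 2 * (((2 : ℝ) ^ k) ^ 2)⁻¹) *
        ∫ t : ℝ, Real.exp (-(t / 2 ^ k) ^ 2) * ‖K.L (ln (1 / 2) t)‖ := by
        rw [integral_finsetSum _ fun k hk => (hK k (Finset.mem_Icc.1 hk).1).1.const_mul _]
        exact Finset.sum_congr rfl fun k _ => integral_const_mul _ _
    _ ≤ ∑ k ∈ Finset.Icc 1 N, 48 * Real.exp 1 ^ 2 * C₀ * (4 ^ (m + ε) * V ^ (m + ε)) :=
        Finset.sum_le_sum hterm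
    _ = N * (48 * Real.exp 1 ^ 2 * C₀ * (4 ^ (m + ε) * V ^ (m + ε))) := by
        rw [Finset.sum_const, Nat.card_Icc, nsmul_eq_mul]
        simp
    _ ≤ (CK * V ^ ε) * (48 * Real.exp 1 ^ 2 * C₀ * (4 ^ (m + ε) * V ^ (m + ε))) := by
        refine mul_le_mul_of_nonneg_right ?_ (by positivity)
        have := hKT V hV
        rw [hN]
        push_cast
        exact this
    _ = 48 * Real.exp 1 ^ 2 * C₀ * CK * 4 ^ (m + ε) * V ^ (m + 2 * ε) := by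
        have e1 : V ^ (m + 2 * ε) = V ^ ε * V ^ (m + ε) := by
          rw [← Real.rpow_add hV0]
          congr 1
          ring
        rw [e1]
        ring

theorem f2b_int (K : Sel) {M C₀ : ℝ} (hC₀ : 0 < C₀)
    (hK : ∀ V : ℝ, 1 ≤ V → Integrable (K.Lam V) ∧
      Integrable (fun t : ℝ => ‖K.Lam V t‖ * (1 + |t|)⁻¹) ∧
      ∫ t : ℝ, ‖K.Lam V t‖ * (1 + |t|)⁻¹ ≤ C₀ * V ^ M) :
    ∃ C : ℝ, 0 < C ∧ ∀ V a b : ℝ, 1 ≤ V → 0 < a → a ≤ b →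
      ‖∫ x in a..b, K.EV V x‖ ≤ C * b ^ (3 / 2 : ℝ) * V ^ M := by
  refine ⟨2 * (3 * C₀), by positivity, fun V a b hV ha hab => ?_⟩
  obtain ⟨hint, hWi, b1⟩ := hK V hV
  have hV0 : 0 < V := by linarith
  have hb : 0 < b := lt_of_lt_of_le ha hab
  have hln : ∀ t : ℝ, (1 + |t|) / 3 ≤ ‖ln (1 / 2 + 1) t‖ := by
    intro t
    have h1 : |t| ≤ ‖ln (1 / 2 + 1) t‖ := by
      have := Complex.abs_im_le_norm (ln (1 / 2 + 1) t)
      rwa [ln_im] at this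
    have h2 : 1 / 2 ≤ ‖ln (1 / 2 + 1) t‖ := by
      have := Complex.abs_re_le_norm (ln (1 / 2 + 1) t)
      rw [ln_re, abs_of_pos (by norm_num : (0 : ℝ) < 1 / 2 + 1)] at this
      linarith
    linarith
  have hpt : ∀ t : ℝ, ‖K.Lam V t / ln (1 / 2 + 1) t‖ ≤ 3 * (‖K.Lam V t‖ * (1 + |t|)⁻¹) := by
    intro t
    have h2 : ‖ln (1 / 2 + 1) t‖⁻¹ ≤ 3 * (1 + |t|)⁻¹ := by
      rw [inv_le_comm₀ (lt_of_lt_of_le (by positivity) (hln t)) (by positivity), mul_inv, inv_inv]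
      linarith [hln t]
    rw [norm_div, div_eq_mul_inv]
    calc ‖K.Lam V t‖ * ‖ln (1 / 2 + 1) t‖⁻¹ ≤ ‖K.Lam V t‖ * (3 * (1 + |t|)⁻¹) :=
          mul_le_mul_of_nonneg_left h2 (norm_nonneg _)
      _ = _ := by ring
  have hne : ∀ t : ℝ, ln (1 / 2 + 1) t ≠ 0 := by
    intro t h
    have h1 := hln t
    rw [h, norm_zero] at h1
    have := abs_nonneg t
    linarith
  have hint2 : Integrable (fun t => K.Lam V t / ln (1 / 2 + 1) t) :=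
    (hWi.const_mul 3).mono'
      ((Lam_continuous K V).div (ln_continuous _) hne).aestronglyMeasurable
      (Filter.Eventually.of_forall hpt)
  have hL2 : ∫ t : ℝ, ‖K.Lam V t / ln (1 / 2 + 1) t‖ ≤ 3 * (C₀ * V ^ M) := by
    calc ∫ t : ℝ, ‖K.Lam V t / ln (1 / 2 + 1) t‖ ≤ ∫ t : ℝ, 3 * (‖K.Lam V t‖ * (1 + |t|)⁻¹) :=
          integral_mono hint2.norm (hWi.const_mul _) hpt
      _ = 3 * ∫ t : ℝ, ‖K.Lam V t‖ * (1 + |t|)⁻¹ := integral_const_mul _ _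
      _ ≤ _ := mul_le_mul_of_nonneg_left b1 (by norm_num)
  have hp := vint_prim (c := 1 / 2) (by norm_num) hint ha hab
  have he : ∫ x in a..b, K.EV V x = ∫ x in a..b, vint (1 / 2) (K.Lam V) x := rfl
  rw [he, hp]
  have hone : ∀ y : ℝ, 0 < y → y ≤ b →
      ‖vint (1 / 2 + 1) (fun t => K.Lam V t / ln (1 / 2 + 1) t) y‖ ≤
        b ^ (3 / 2 : ℝ) * (3 * (C₀ * V ^ M)) := by
    intro y hy hyb
    refine (vint_norm_le hy).trans ?_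
    have h1 : y ^ (1 / 2 + 1 : ℝ) ≤ b ^ (3 / 2 : ℝ) := by
      rw [show (1 / 2 + 1 : ℝ) = 3 / 2 by norm_num]
      exact Real.rpow_le_rpow hy.le hyb (by norm_num)
    exact mul_le_mul h1 hL2 (integral_nonneg fun t => norm_nonneg _) (by positivity)
  refine (norm_sub_le _ _).trans ?_
  have h1 := hone b hb le_rfl
  have h2 := hone a ha hab
  calc _ ≤ b ^ (3 / 2 : ℝ) * (3 * (C₀ * V ^ M)) + b ^ (3 / 2 : ℝ) * (3 * (C₀ * V ^ M)) :=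
        add_le_add h1 h2
    _ = _ := by ring

/-- Dyadic summation. -/
theorem f2b_sum (K : Sel) {θ C : ℝ} (hθ1 : 1 ≤ θ) (hC : 0 < C)
    (h : ∀ X b : ℝ, 1 ≤ X → X ≤ b → b ≤ 2 * X → ‖∫ x in X..b, K.E x‖ ≤ C * X ^ θ) :
    ∀ T : ℝ, 1 ≤ T → ‖∫ x in (1 : ℝ)..T, K.E x‖ ≤ C * T ^ θ := by
  have key : ∀ n : ℕ, ∀ T : ℝ, 1 ≤ T → T ≤ (2 : ℝ) ^ (n + 1) →
      ‖∫ x in (1 : ℝ)..T, K.E x‖ ≤ C * T ^ θ := by
    intro n
    induction n with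
    | zero =>
      intro T hT hT2
      refine (h 1 T le_rfl hT (by simpa using hT2)).trans ?_
      rw [Real.one_rpow]
      exact mul_le_mul_of_nonneg_left (Real.one_le_rpow hT (by linarith)) hC.le
    | succ n ih =>
      intro T hT hT2
      rcases le_or_gt T 2 with hT' | hT'
      · refine (h 1 T le_rfl hT (by simpa using hT')).trans ?_
        rw [Real.one_rpow]
        exact mul_le_mul_of_nonneg_left (Real.one_le_rpow hT (by linarith)) hC.le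
      · have h1 : 1 ≤ T / 2 := by linarith
        have h2 : T / 2 ≤ (2 : ℝ) ^ (n + 1) := by
          rw [pow_succ] at hT2
          linarith
        have i1 := ih (T / 2) h1 h2
        have i2 := h (T / 2) T h1 (by linarith) (by linarith)
        have hs : ∫ x in (1 : ℝ)..T, K.E x =
            (∫ x in (1 : ℝ)..(T / 2), K.E x) + ∫ x in (T / 2)..T, K.E x :=
          (intervalIntegral.integral_add_adjacent_intervals
            (fin2_E_ii K one_pos h1) (fin2_E_ii K (by linarith) (by linarith))).symm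
        have h3 : (T / 2) ^ θ ≤ T ^ θ / 2 := by
          rw [Real.div_rpow (by linarith) (by norm_num)]
          refine div_le_div_of_nonneg_left (by positivity) (by norm_num) ?_
          calc (2 : ℝ) = (2 : ℝ) ^ (1 : ℝ) := (Real.rpow_one 2).symm
            _ ≤ (2 : ℝ) ^ θ := Real.rpow_le_rpow_of_exponent_le (by norm_num) hθ1
        rw [hs]
        calc ‖(∫ x in (1 : ℝ)..(T / 2), K.E x) + ∫ x in (T / 2)..T, K.E x‖
            ≤ C * (T / 2) ^ θ + C * (T / 2) ^ θ := (norm_add_le _ _).trans (add_le_add i1 i2)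
          _ = 2 * C * (T / 2) ^ θ := by ring
          _ ≤ 2 * C * (T ^ θ / 2) := by gcongr
          _ = C * T ^ θ := by ring
  intro T hT
  obtain ⟨n, hn⟩ := pow_unbounded_of_one_lt T (by norm_num : (1 : ℝ) < 2)
  refine key n T hT (hn.le.trans ?_)
  exact pow_le_pow_right₀ (by norm_num) (Nat.le_succ n)

theorem KE_int2 (G : ℕ → Sel) (r : ℕ) (hG : ∀ i < r, (G i).deg ≤ 3) (K : Sel)
    (hK : ∀ n : ℕ, 1 ≤ n → K.f n = (∏ i ∈ Finset.range r, af (G i)) n) {D : ℝ} (hD6 : 6 ≤ D)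
    (hD : ∑ i ∈ Finset.range r, (G i).deg ≤ D) {ε : ℝ} (hε : 0 < ε) :
    ∃ C : ℝ, ∀ T : ℝ, 1 ≤ T →
      ‖∫ x in (1 : ℝ)..T, K.E x‖ ≤ C * T ^ (max (3 / 2) (2 - 4 / D) + ε) := by
  classical
  obtain ⟨t, ht, hbal⟩ := balanced (fun i => (G i).deg) (Finset.range r)
    (fun i _ => ful_deg_nonneg (G i)) (fun i hi => hG i (Finset.mem_range.1 hi)) hD6 hD
  obtain ⟨A, hAd, hA⟩ := exists_prod G t
  obtain ⟨B, hBd, hB⟩ := exists_prod G (Finset.range r \ t)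
  rw [← hAd, ← hBd] at hbal
  have hL : ∀ t : ℝ, K.L (ln (1 / 2) t) = A.L (ln (1 / 2) t) * B.L (ln (1 / 2) t) :=
    fun u => f2b_split G r K A B hK ht hA hB (ln_half_ne_one u)
  obtain ⟨η, hη'⟩ : ∃ η : ℝ, η = ε / 2 := ⟨_, rfl⟩
  have hη : 0 < η := by rw [hη']; positivity
  obtain ⟨C₀, hC₀, h0⟩ := f2b_dyad A B K hL (le_max_left _ _) (le_max_left _ _) (le_max_right _ _)
    (le_max_right _ _) hbal hη
  obtain ⟨C₃, hC₃, h3⟩ := f2b_fm K hC₀ hη h0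
  obtain ⟨C₁, hC₁, h1⟩ := f2b_int K hC₃ h3
  obtain ⟨C₂, hC₂, h2⟩ := K_int K hε
  have hD0 : 0 < D := by linarith
  obtain ⟨θ, hθ⟩ : ∃ θ : ℝ, θ = max (3 / 2) (2 - 4 / D) + ε := ⟨_, rfl⟩
  rw [← hθ]
  have hθ1 : 1 ≤ θ := by
    have : (3 / 2 : ℝ) ≤ max (3 / 2) (2 - 4 / D) := le_max_left _ _
    rw [hθ]
    linarith
  refine ⟨C₁ * (2 : ℝ) ^ (3 / 2 : ℝ) + C₂, f2b_sum K hθ1 (by positivity) fun X b hX hXb hb => ?_⟩
  have hX0 : 0 < X := by linarith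
  have hq0 : 0 ≤ 2 / D := by positivity
  have hq1 : 2 / D ≤ 1 / 3 := by
    rw [div_le_div_iff₀ hD0 (by norm_num)]
    linarith
  obtain ⟨V, hV⟩ : ∃ V : ℝ, V = X ^ (2 / D) := ⟨_, rfl⟩
  have hV1 : 1 ≤ V := by rw [hV]; exact Real.one_le_rpow hX hq0
  have hVX : V ≤ X := by
    rw [hV]
    calc X ^ (2 / D) ≤ X ^ (1 : ℝ) :=
          Real.rpow_le_rpow_of_exponent_le hX (by linarith)
      _ = X := Real.rpow_one X
  obtain ⟨i2, b2⟩ := h2 X V X b hV1 hVX le_rfl hXb hb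
  have iE := fin2_E_ii K hX0 hXb
  have iV : IntervalIntegrable (K.EV V) volume X b := by
    have := iE.sub i2
    refine this.congr fun x _ => ?_
    simp
  have hsplit : ∫ x in X..b, K.E x =
      (∫ x in X..b, K.EV V x) + ∫ x in X..b, (K.E x - K.EV V x) := by
    rw [← intervalIntegral.integral_add iV i2]
    refine intervalIntegral.integral_congr fun x _ => ?_
    simp
  have b1 := h1 V X b hV1 hX0 hXb
  have e1 : C₁ * b ^ (3 / 2 : ℝ) * V ^ (max 0 (D / 4 - 2) + 2 * η) ≤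
      C₁ * (2 : ℝ) ^ (3 / 2 : ℝ) * X ^ θ := by
    have hb32 : b ^ (3 / 2 : ℝ) ≤ (2 : ℝ) ^ (3 / 2 : ℝ) * X ^ (3 / 2 : ℝ) := by
      rw [← Real.mul_rpow (by norm_num) hX0.le]
      exact Real.rpow_le_rpow (by linarith) hb (by norm_num)
    calc C₁ * b ^ (3 / 2 : ℝ) * V ^ (max 0 (D / 4 - 2) + 2 * η)
        ≤ C₁ * ((2 : ℝ) ^ (3 / 2 : ℝ) * X ^ (3 / 2 : ℝ)) * V ^ (max 0 (D / 4 - 2) + 2 * η) := by
          gcongr
      _ = C₁ * (2 : ℝ) ^ (3 / 2 : ℝ) *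
          (X ^ (3 / 2 : ℝ) * X ^ (2 / D * (max 0 (D / 4 - 2) + 2 * η))) := by
          rw [hV, ← Real.rpow_mul hX0.le]
          ring
      _ = C₁ * (2 : ℝ) ^ (3 / 2 : ℝ) *
          X ^ (3 / 2 + 2 / D * (max 0 (D / 4 - 2) + 2 * η)) := by
          rw [← Real.rpow_add hX0]
      _ ≤ C₁ * (2 : ℝ) ^ (3 / 2 : ℝ) * X ^ θ := by
          refine mul_le_mul_of_nonneg_left (Real.rpow_le_rpow_of_exponent_le hX ?_)
            (by positivity)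
          have h4 : 2 / D * (2 * η) ≤ ε := by
            rw [hη']
            nlinarith
          have h5 : 3 / 2 + 2 / D * max 0 (D / 4 - 2) ≤ max (3 / 2) (2 - 4 / D) := by
            rcases le_total 0 (D / 4 - 2) with h6 | h6
            · rw [max_eq_right h6]
              refine le_trans (le_of_eq ?_) (le_max_right _ _)
              field_simp
              ring
            · rw [max_eq_left h6, mul_zero, add_zero]
              exact le_max_left _ _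
          rw [hθ, mul_add]
          linarith
  have e2 : C₂ * X ^ (2 + ε) / V ^ 2 ≤ C₂ * X ^ θ := by
    have hV2 : V ^ 2 = X ^ (4 / D) := by
      rw [hV, ← Real.rpow_natCast, ← Real.rpow_mul hX0.le]
      congr 1
      push_cast
      ring
    rw [hV2, mul_div_assoc, ← Real.rpow_sub hX0]
    refine mul_le_mul_of_nonneg_left (Real.rpow_le_rpow_of_exponent_le hX ?_) hC₂.le
    have : 2 - 4 / D ≤ max (3 / 2) (2 - 4 / D) := le_max_right _ _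
    rw [hθ]
    linarith
  rw [hsplit]
  calc ‖(∫ x in X..b, K.EV V x) + ∫ x in X..b, (K.E x - K.EV V x)‖
      ≤ ‖∫ x in X..b, K.EV V x‖ + ‖∫ x in X..b, (K.E x - K.EV V x)‖ := norm_add_le _ _
    _ ≤ C₁ * (2 : ℝ) ^ (3 / 2 : ℝ) * X ^ θ + C₂ * X ^ θ := add_le_add (b1.trans e1) (b2.trans e2)
    _ = _ := by ring

end DAD
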