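import Pool.Agent.DAD.Fin1

set_option autoImplicit false

/-!
# DAD/Fin3: the hybrid moment
-/

open Complex MeasureTheory

namespace DAD

open HYM

/-- Integrability of the product of two error terms. -/
theorem iEE (A B : Sel) (c : ℂ) {a b : ℝ} (ha : 1 ≤ a) (hab : a ≤ b) :
    IntervalIntegrable (fun x => (A.E x - c) * B.E x) volume a b ∧
      ∃ M : ℝ, 0 < M ∧ ∀ x : ℝ, a ≤ x → x ≤ b → ‖(A.E x - c) * B.E x‖ ≤ M := by
  obtain ⟨M₁, hM₁, N₁⟩ := E_crude A
  obtain ⟨M₂, hM₂, N₂⟩ := E_crude B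
  have hbd : ∀ x : ℝ, a ≤ x → x ≤ b → ‖(A.E x - c) * B.E x‖ ≤
      (M₁ * (1 + b ^ 2) + ‖c‖) * (M₂ * (1 + b ^ 2)) := by
    intro x h1 h2
    have hx0 : 0 < x := by linarith
    have h3 : 1 + x ^ 2 ≤ 1 + b ^ 2 := by nlinarith
    rw [norm_mul]
    refine mul_le_mul ?_ ?_ (norm_nonneg _) (by positivity)
    · refine (norm_sub_le _ _).trans (add_le_add ((N₁ x hx0).trans ?_) le_rfl)
      exact mul_le_mul_of_nonneg_left h3 hM₁.le
    · exact (N₂ x hx0).trans (mul_le_mul_of_nonneg_left h3 hM₂.le)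
  refine ⟨?_, _, by positivity, hbd⟩
  refine (intervalIntegrable_const
    (c := (M₁ * (1 + b ^ 2) + ‖c‖) * (M₂ * (1 + b ^ 2)))).mono_fun' ?_ ?_
  · exact (((E_measurable A).sub_const c).mul (E_measurable B)).aestronglyMeasurable
  · rw [Set.uIoc_of_le hab]
    exact (ae_restrict_iff' measurableSet_Ioc).2
      (Filter.Eventually.of_forall fun x hx => hbd x hx.1.le hx.2)

/-- The hybrid moment on a dyadic interval. -/
theorem dyad (F : Sel) (hF : F.deg = 2) (G : ℕ → Sel) (r : ℕ)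
    (hG : ∀ i < r, (G i).deg ≤ 3) (K : Sel)
    (hK : ∀ n : ℕ, 1 ≤ n → K.f n = (∏ i ∈ Finset.range r, af (G i)) n) {D : ℝ} (hD6 : 6 ≤ D)
    (hD : ∑ i ∈ Finset.range r, (G i).deg ≤ D) {ε : ℝ} (hε : 0 < ε) :
    ∃ C : ℝ, 0 < C ∧ ∀ X b : ℝ, 64 ≤ X → X ≤ b → b ≤ 2 * X →
      ‖∫ x in X..b, (F.E x - F.L 0) * K.E x‖ ≤
        C * X ^ (max (208 / 125) (7 / 4 - 1 / D) + ε) := by
  obtain ⟨C₁, hC₁, H₁⟩ := low_sum F hF G r K hK hD6 hD hε
  obtain ⟨C₂, hC₂, H₂⟩ := mid_sum F hF.le G r hG K hK hε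
  obtain ⟨C₃, hC₃, H₃⟩ := high_sum F K hF.le hε
  obtain ⟨C₄, hC₄, H₄⟩ := K_int K hε
  obtain ⟨D₁, hD₁, K₁⟩ := E_L1 F
  obtain ⟨M₃, hM₃, N₃⟩ := E_crude K
  set p : ℝ := max (208 / 125) (7 / 4 - 1 / D) + ε with hp
  have hp1 : 208 / 125 + ε ≤ p := by
    rw [hp]
    have := le_max_left (208 / 125 : ℝ) (7 / 4 - 1 / D)
    linarith
  refine ⟨C₁ + C₂ + C₃ + 5 * M₃ * (8 * D₁), by positivity, fun X b hX hXb hb2 => ?_⟩
  have hX0 : 0 < X := by linarith
  have hX1 : 1 ≤ X := by linarith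
  have hb0 : 0 < b := by linarith
  have hY : 1 ≤ X ^ 5 := one_le_pow₀ hX1
  have hpow : ∀ e : ℝ, e ≤ p → X ^ e ≤ X ^ p := fun e he =>
    Real.rpow_le_rpow_of_exponent_le hX1 he
  -- the heights
  have h41 : 1 ≤ X ^ (41 / 100 : ℝ) := Real.one_le_rpow hX1 (by norm_num)
  have h35 : 1 ≤ X ^ (3 / 5 : ℝ) := Real.one_le_rpow hX1 (by norm_num)
  obtain ⟨n, hn1, hn2⟩ := exists_nat_pow_near h41 (by norm_num : (1 : ℝ) < 2)
  obtain ⟨k, hk1, hk2⟩ := exists_nat_pow_near h35 (by norm_num : (1 : ℝ) < 2)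
  set m : ℕ := n + 1 with hm
  have hm1 : X ^ (41 / 100 : ℝ) ≤ (2 : ℝ) ^ m := hn2.le
  have hm2 : (2 : ℝ) ^ m ≤ 2 * X ^ (41 / 100 : ℝ) := by
    rw [hm, pow_succ']
    linarith
  have hmk : m ≤ k := by
    by_contra hlt
    have hlt' : k + 1 ≤ m := by omega
    have h1 : (2 : ℝ) ^ (k + 1) ≤ 2 ^ m := pow_le_pow_right₀ (by norm_num) hlt'
    have h2 : X ^ (3 / 5 : ℝ) < 2 * X ^ (41 / 100 : ℝ) := by linarith
    have h3 : (2 : ℝ) ≤ X ^ (19 / 100 : ℝ) := by
      have h64 : (64 : ℝ) ^ (19 / 100 : ℝ) ≤ X ^ (19 / 100 : ℝ) :=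
        Real.rpow_le_rpow (by norm_num) hX (by norm_num)
      have h2 : (2 : ℝ) ≤ 64 ^ (19 / 100 : ℝ) := by
        rw [show (64 : ℝ) = 2 ^ (6 : ℝ) by norm_num, ← Real.rpow_mul (by norm_num)]
        calc (2 : ℝ) = 2 ^ (1 : ℝ) := (Real.rpow_one 2).symm
          _ ≤ 2 ^ (6 * (19 / 100) : ℝ) :=
            Real.rpow_le_rpow_of_exponent_le (by norm_num) (by norm_num)
      exact h2.trans h64
    have h4 : 2 * X ^ (41 / 100 : ℝ) ≤ X ^ (3 / 5 : ℝ) := by
      calc 2 * X ^ (41 / 100 : ℝ) ≤ X ^ (19 / 100 : ℝ) * X ^ (41 / 100 : ℝ) := by gcongr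
        _ = X ^ (3 / 5 : ℝ) := by
            rw [← Real.rpow_add hX0]
            norm_num
    linarith
  have hk3 : X ^ (3 / 5 : ℝ) ≤ 2 * (2 : ℝ) ^ k := by
    rw [pow_succ'] at hk2
    exact hk2.le
  have p1 : ∀ i : ℕ, (1 : ℝ) ≤ 2 ^ i := fun i => one_le_pow₀ (by norm_num)
  have hkX : (2 : ℝ) ^ k ≤ X := hk1.trans (by
    calc X ^ (3 / 5 : ℝ) ≤ X ^ (1 : ℝ) := Real.rpow_le_rpow_of_exponent_le hX1 (by norm_num)
      _ = X := Real.rpow_one X)
  have q1 := H₁ X b m hX hXb hb2 hm1 hm2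
  have q2 := H₂ X b m k hX hXb hb2 hmk hm1 hk1
  have q3 := H₃ X b k hX hXb hb2 hk3 hk1
  obtain ⟨k0, -⟩ := H₄ X (2 ^ k) X b (p1 k) hkX le_rfl hXb hb2
  have cF : ContinuousOn (fun x => F.EV (X ^ 5) x - F.L 0) (Set.uIcc X b) :=
    (EV_cont F hY hX0 hXb).sub continuousOn_const
  have iA : IntervalIntegrable (fun x => (F.EV (X ^ 5) x - F.L 0) * K.EV (2 ^ m) x) volume X b :=
    (cF.mul (EV_cont K (p1 m) hX0 hXb)).intervalIntegrable
  have iB : IntervalIntegrable (fun x => (F.EV (X ^ 5) x - F.L 0) *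
      (K.EV (2 ^ k) x - K.EV (2 ^ m) x)) volume X b :=
    (cF.mul ((EV_cont K (p1 k) hX0 hXb).sub (EV_cont K (p1 m) hX0 hXb))).intervalIntegrable
  have iC : IntervalIntegrable (fun x => (F.EV (X ^ 5) x - F.L 0) *
      (K.E x - K.EV (2 ^ k) x)) volume X b := k0.continuousOn_mul cF
  have iE := (iEE F K (F.L 0) hX1 hXb).1
  have iD : IntervalIntegrable (fun x => (F.E x - F.EV (X ^ 5) x) * K.E x) volume X b := by
    refine (((iE.sub iA).sub iB).sub iC).congr fun x _ => ?_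
    ring
  have hs : ∫ x in X..b, (F.E x - F.L 0) * K.E x =
      (∫ x in X..b, (F.EV (X ^ 5) x - F.L 0) * K.EV (2 ^ m) x) +
      (∫ x in X..b, (F.EV (X ^ 5) x - F.L 0) * (K.EV (2 ^ k) x - K.EV (2 ^ m) x)) +
      (∫ x in X..b, (F.EV (X ^ 5) x - F.L 0) * (K.E x - K.EV (2 ^ k) x)) +
      ∫ x in X..b, (F.E x - F.EV (X ^ 5) x) * K.E x := by
    rw [← intervalIntegral.integral_add iA iB, ← intervalIntegral.integral_add (iA.add iB) iC,
      ← intervalIntegral.integral_add ((iA.add iB).add iC) iD]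
    refine intervalIntegral.integral_congr fun x _ => ?_
    show (F.E x - F.L 0) * K.E x = _
    ring
  have n4 : ‖∫ x in X..b, (F.E x - F.EV (X ^ 5) x) * K.E x‖ ≤ 5 * M₃ * (8 * D₁) * X ^ p := by
    have hK4 : ∀ x : ℝ, X ≤ x → x ≤ b → ‖K.E x‖ ≤ 5 * M₃ * X ^ 2 := by
      intro x h1 h2
      refine (N₃ x (by linarith)).trans ?_
      have h3 : x ≤ 2 * X := h2.trans hb2
      have h4 : 1 + x ^ 2 ≤ 5 * X ^ 2 := by nlinarith
      nlinarith
    have iR : IntervalIntegrable (fun x => ‖F.E x - F.EV (X ^ 5) x‖) volume 1 (2 * X) := by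
      have cF' := EV_cont F hY (a := 1) (b := 2 * X) one_pos (by linarith)
      have iF : IntervalIntegrable F.E volume 1 (2 * X) := by
        obtain ⟨M, hM, N⟩ := E_crude F
        refine (intervalIntegrable_const (c := M * (1 + (2 * X) ^ 2))).mono_fun' ?_ ?_
        · exact (E_measurable F).aestronglyMeasurable
        · rw [Set.uIoc_of_le (by linarith)]
          refine (ae_restrict_iff' measurableSet_Ioc).2 (Filter.Eventually.of_forall fun x hx => ?_)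
          refine (N x (by linarith [hx.1])).trans (mul_le_mul_of_nonneg_left ?_ hM.le)
          nlinarith [hx.1, hx.2]
      exact (iF.sub cF'.intervalIntegrable).norm
    have iR' : IntervalIntegrable (fun x => ‖F.E x - F.EV (X ^ 5) x‖) volume X b :=
      iR.mono_set (by
        rw [Set.uIcc_of_le hXb, Set.uIcc_of_le (by linarith)]
        exact Set.Icc_subset_Icc hX1 hb2)
    have hL := K₁ (2 * X) (by linarith) (X ^ 5) hY
    have hsub : ∫ x in X..b, ‖F.E x - F.EV (X ^ 5) x‖ ≤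
        ∫ x in (1 : ℝ)..(2 * X), ‖F.E x - F.EV (X ^ 5) x‖ := by
      refine intervalIntegral.integral_mono_interval hX1 hXb hb2 ?_ iR
      exact Filter.Eventually.of_forall fun x => norm_nonneg _
    calc _ ≤ ∫ x in X..b, ‖F.E x - F.EV (X ^ 5) x‖ * (5 * M₃ * X ^ 2) := by
          refine (intervalIntegral.norm_integral_le_integral_norm hXb).trans ?_
          refine intervalIntegral.integral_mono_on hXb iD.norm (iR'.mul_const _) fun x hx => ?_
          rw [norm_mul]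
          exact mul_le_mul_of_nonneg_left (hK4 x hx.1 hx.2) (norm_nonneg _)
      _ = (∫ x in X..b, ‖F.E x - F.EV (X ^ 5) x‖) * (5 * M₃ * X ^ 2) :=
          intervalIntegral.integral_mul_const _ _
      _ ≤ (D₁ * (2 * X) ^ 3 / X ^ 5) * (5 * M₃ * X ^ 2) :=
          mul_le_mul_of_nonneg_right (hsub.trans hL) (by positivity)
      _ = 5 * M₃ * (8 * D₁) := by
          field_simp
          ring
      _ ≤ 5 * M₃ * (8 * D₁) * X ^ p := by
          refine le_mul_of_one_le_right (by positivity) (Real.one_le_rpow hX1 ?_)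
          linarith
  rw [hs]
  calc _ ≤ ‖∫ x in X..b, (F.EV (X ^ 5) x - F.L 0) * K.EV (2 ^ m) x‖ +
        ‖∫ x in X..b, (F.EV (X ^ 5) x - F.L 0) * (K.EV (2 ^ k) x - K.EV (2 ^ m) x)‖ +
        ‖∫ x in X..b, (F.EV (X ^ 5) x - F.L 0) * (K.E x - K.EV (2 ^ k) x)‖ +
        ‖∫ x in X..b, (F.E x - F.EV (X ^ 5) x) * K.E x‖ :=
        (norm_add_le _ _).trans (add_le_add ((norm_add_le _ _).trans
          (add_le_add (norm_add_le _ _) le_rfl)) le_rfl)
    _ ≤ C₁ * X ^ p + C₂ * X ^ p + C₃ * X ^ p + 5 * M₃ * (8 * D₁) * X ^ p := by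
        refine add_le_add (add_le_add (add_le_add q1 (q2.trans ?_)) (q3.trans ?_)) n4
        · exact mul_le_mul_of_nonneg_left (hpow _ hp1) hC₂.le
        · exact mul_le_mul_of_nonneg_left (hpow _ (by linarith)) hC₃.le
    _ = _ := by ring

theorem mainE (F : Sel) (hF : F.deg = 2) (G : ℕ → Sel) (r : ℕ)
    (hG : ∀ i < r, (G i).deg ≤ 3) (K : Sel)
    (hK : ∀ n : ℕ, 1 ≤ n → K.f n = (∏ i ∈ Finset.range r, af (G i)) n) {D : ℝ} (hD6 : 6 ≤ D)
    (hD : ∑ i ∈ Finset.range r, (G i).deg ≤ D) {ε : ℝ} (hε : 0 < ε) :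
    ∃ C : ℝ, ∀ T : ℝ, 1 ≤ T →
      ‖∫ x in (1 : ℝ)..T, (F.E x - F.L 0) * K.E x‖ ≤
        C * T ^ (max (208 / 125) (7 / 4 - 1 / D) + ε) := by
  obtain ⟨C, hC, H⟩ := dyad F hF G r hG K hK hD6 hD hε
  obtain ⟨-, M, hM, N⟩ := iEE F K (F.L 0) (a := 1) (b := 64) le_rfl (by norm_num)
  set p : ℝ := max (208 / 125) (7 / 4 - 1 / D) + ε with hp
  have hp1 : 1 ≤ p := by
    rw [hp]
    have := le_max_left (208 / 125 : ℝ) (7 / 4 - 1 / D)
    linarith
  -- the part up to 64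
  have hsmall : ∀ T : ℝ, 1 ≤ T → T ≤ 64 →
      ‖∫ x in (1 : ℝ)..T, (F.E x - F.L 0) * K.E x‖ ≤ 64 * M := by
    intro T h1 h2
    have h3 := intervalIntegral.norm_integral_le_of_norm_le_const (a := 1) (b := T) (C := M)
      (f := fun x => (F.E x - F.L 0) * K.E x) (fun x hx => by
        rw [Set.uIoc_of_le h1] at hx
        exact N x hx.1.le (hx.2.trans h2))
    refine h3.trans ?_
    rw [abs_of_nonneg (by linarith)]
    nlinarith
  -- dyadic induction
  have hind : ∀ n : ℕ, ∀ T : ℝ, 64 ≤ T → T ≤ 64 * 2 ^ (n + 1) →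
      ‖∫ x in (64 : ℝ)..T, (F.E x - F.L 0) * K.E x‖ ≤ C * T ^ p := by
    intro n
    induction n with
    | zero =>
      intro T h1 h2
      refine (H 64 T le_rfl h1 (by norm_num at h2 ⊢; exact h2)).trans ?_
      exact mul_le_mul_of_nonneg_left (Real.rpow_le_rpow (by norm_num) h1 (by linarith)) hC.le
    | succ n ih =>
      intro T h1 h2
      by_cases h3 : T ≤ 64 * 2 ^ (n + 1)
      · exact ih T h1 h3
      push Not at h3
      have h128 : 128 ≤ T := by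
        have : (2 : ℝ) ≤ 2 ^ (n + 1) := by
          calc (2 : ℝ) = 2 ^ 1 := (pow_one 2).symm
            _ ≤ 2 ^ (n + 1) := pow_le_pow_right₀ (by norm_num) (by omega)
        linarith
      have hT0 : 0 < T := by linarith
      have i1 := ih (T / 2) (by linarith) (by
        rw [pow_succ'] at h2
        linarith)
      have i2 := H (T / 2) T (by linarith) (by linarith) (by linarith)
      have e : ∫ x in (64 : ℝ)..T, (F.E x - F.L 0) * K.E x =
          (∫ x in (64 : ℝ)..(T / 2), (F.E x - F.L 0) * K.E x) +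
            ∫ x in (T / 2)..T, (F.E x - F.L 0) * K.E x :=
        (intervalIntegral.integral_add_adjacent_intervals
          (iEE F K (F.L 0) (by norm_num) (by linarith)).1
          (iEE F K (F.L 0) (by linarith) (by linarith)).1).symm
      rw [e]
      have h4 : (T / 2) ^ p ≤ T ^ p / 2 := by
        rw [Real.div_rpow hT0.le (by norm_num)]
        refine div_le_div_of_nonneg_left (by positivity) (by norm_num) ?_
        calc (2 : ℝ) = 2 ^ (1 : ℝ) := (Real.rpow_one 2).symm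
          _ ≤ 2 ^ p := Real.rpow_le_rpow_of_exponent_le (by norm_num) hp1
      calc _ ≤ C * (T / 2) ^ p + C * (T / 2) ^ p := (norm_add_le _ _).trans (add_le_add i1 i2)
        _ = 2 * C * (T / 2) ^ p := by ring
        _ ≤ 2 * C * (T ^ p / 2) := mul_le_mul_of_nonneg_left h4 (by positivity)
        _ = C * T ^ p := by ring
  refine ⟨C + 64 * M, fun T hT => ?_⟩
  have hTp : 1 ≤ T ^ p := Real.one_le_rpow hT (by linarith)
  by_cases h64 : T ≤ 64
  · refine (hsmall T hT h64).trans ?_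
    have : 0 ≤ C * T ^ p := by positivity
    nlinarith
  push Not at h64
  have hT0 : 0 < T := by linarith
  obtain ⟨n, hn⟩ := pow_unbounded_of_one_lt T (by norm_num : (1 : ℝ) < 2)
  have h1 := hind n T h64.le (by
    have : (2 : ℝ) ^ (n + 1) = 2 * 2 ^ n := pow_succ' 2 n
    have h2 : (0 : ℝ) < 2 ^ n := by positivity
    rw [this]
    linarith)
  have h2 := hsmall 64 (by norm_num) le_rfl
  have e : ∫ x in (1 : ℝ)..T, (F.E x - F.L 0) * K.E x =
      (∫ x in (1 : ℝ)..64, (F.E x - F.L 0) * K.E x) +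
        ∫ x in (64 : ℝ)..T, (F.E x - F.L 0) * K.E x :=
    (intervalIntegral.integral_add_adjacent_intervals
      (iEE F K (F.L 0) le_rfl (by norm_num)).1
      (iEE F K (F.L 0) (by norm_num) h64.le).1).symm
  rw [e]
  calc _ ≤ 64 * M + C * T ^ p := (norm_add_le _ _).trans (add_le_add h2 h1)
    _ ≤ 64 * M * T ^ p + C * T ^ p := by
        have : 64 * M * 1 ≤ 64 * M * T ^ p := mul_le_mul_of_nonneg_left hTp (by positivity)
        linarith
    _ = _ := by ring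

end DAD
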