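import Pool.Agent.DAD.LowA
import Pool.Agent.DAD.Base
import Pool.Agent.DAD.Prod
import Pool.Agent.WYL.Mvl
import Pool.Agent.WYL.Smo

set_option autoImplicit false

/-!
# DAD/Flow: the low frequencies on a dyadic interval

`X ≥ 64`, `Y = X^5`, `R = X^(87/1000)`, `2^i₁ ≤ X^(1/D) < 2^(i₁+1)`, `i₁ ≤ m`,
`K.EV (2^m) = K.EV (2^i₁) + ∑_{i₁≤i<m} (K.EV (2*2^i) - K.EV (2^i))`.
* base: `low_piece` with `S0 = C X^(3/4+..)`, `S1 = C X^(-1/4+1/D+..)` (`base_bd`, `convex_prod`).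
* `i₁ ≤ i < m`, `V = 2^i` (so `V ≤ X^(41/100)`, `V R ≤ X^(1/2 - 3/1000)`): `low_piece` with
  `S0 = C X^(1+ε)/V` (`E_smooth` at `4X`, twice), `S1 = C X^ε` (`EV_deriv` at `4X`), `c` constant
  (`convex_prod`), `S2` from `EV_crude`: `≤ X^(7/4+ε)/V + X^(7/4-87/1000+ε)`.
-/

open Complex MeasureTheory

namespace DAD

open HYM

private theorem lo_cont (K : Sel) {V : ℝ} (hV : 1 ≤ V) {a b : ℝ} (ha : 0 < a) (hab : a ≤ b) :
    ContinuousOn (K.EV V) (Set.uIcc a b) := by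
  intro x hx
  rw [Set.uIcc_of_le hab] at hx
  exact ((EV_differentiable K hV).1 x (by linarith [hx.1])).continuousAt.continuousWithinAt

private theorem lo_int (K : Sel) {V : ℝ} (hV : 1 ≤ V) : Integrable (K.Lam V) := by
  have h := Lam_poly K hV 0
  simp only [pow_zero, one_mul] at h
  exact (integrable_norm_iff (Lam_continuous K V).aestronglyMeasurable).1 h

private theorem lo_lam (K : Sel) {Bd C₀ : ℝ} (hC₀ : 0 < C₀)
    (hK : ∀ t : ℝ, ‖K.L (ln (1 / 2) t)‖ ≤ C₀ * (1 + |t|) ^ Bd) {V W : ℝ} (hV : 1 ≤ V)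
    (hW : V ≤ W) (t : ℝ) :
    ‖K.Lam V t‖ ≤ 3 * Real.exp 1 * C₀ * (1 + |t|) ^ Bd * Real.exp (-(t / W) ^ 2) := by
  have hV0 : 0 < V := by linarith
  have hW0 : 0 < W := by linarith
  refine (WYL.Lam_pt K hV t).trans ?_
  have h1 : (1 + |t|)⁻¹ ≤ 1 := inv_le_one_of_one_le₀ (by linarith [abs_nonneg t])
  have h2 : Real.exp (-(t / V) ^ 2) ≤ Real.exp (-(t / W) ^ 2) := by
    apply Real.exp_le_exp.2
    rw [neg_le_neg_iff, div_pow, div_pow]
    apply div_le_div_of_nonneg_left (by positivity) (by positivity)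
    gcongr
  have h3 := hK t
  have h4 : 0 < (1 + |t|) ^ Bd := Real.rpow_pos_of_pos (by positivity) _
  calc 3 * Real.exp 1 * ((1 + |t|)⁻¹ * Real.exp (-(t / V) ^ 2) * ‖K.L (ln (1 / 2) t)‖)
      ≤ 3 * Real.exp 1 * (1 * Real.exp (-(t / W) ^ 2) * (C₀ * (1 + |t|) ^ Bd)) := by
        gcongr
    _ = _ := by ring

private theorem lo_diff (K : Sel) {V W : ℝ} (hV : 1 ≤ V) (hW : 1 ≤ W) {x : ℝ} (hx : 0 < x) :
    vint (1 / 2) (fun t => K.Lam W t - K.Lam V t) x = K.EV W x - K.EV V x := by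
  have e1 : K.EV W x = vint (1 / 2) (K.Lam W) x := rfl
  have e2 : K.EV V x = vint (1 / 2) (K.Lam V) x := rfl
  rw [e1, e2]
  unfold vint
  rw [← mul_sub, ← integral_sub (bil_integrable (lo_int K hW) hx)
    (bil_integrable (lo_int K hV) hx)]
  congr 1
  refine integral_congr_ae (Filter.Eventually.of_forall fun t => ?_)
  simp only
  ring

/-- The lowest frequencies. -/
private theorem lo_base (F : Sel) (hF : F.deg = 2) (K : Sel) {D C₀ η : ℝ} (hD6 : 6 ≤ D)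
    (hη : 0 < η) (hη1 : η ≤ 1 / 100) (hC₀ : 0 < C₀)
    (hK : ∀ t : ℝ, ‖K.L (ln (1 / 2) t)‖ ≤ C₀ * (1 + |t|) ^ (D / 4 + η)) :
    ∃ C : ℝ, 0 < C ∧ ∀ X b V : ℝ, 64 ≤ X → X ≤ b → b ≤ 2 * X → 1 ≤ V → V ≤ X ^ (1 / D) →
      ‖∫ x in X..b, (F.EV (X ^ 5) x - F.L 0) * K.EV V x‖ ≤ C * X ^ (208 / 125 : ℝ) := by
  have hD0 : 0 < D := by linarith
  have hBd : 0 < D / 4 + η := by positivity
  obtain ⟨C₁, hC₁, H₁⟩ := low_piece F hF (δ := 3 / 1000) (Bd := D / 4 + η) (ε := η) (by norm_num)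
    hBd.le hη
  obtain ⟨C₂, hC₂, H₂⟩ := base_bd K hBd hC₀ hK
  obtain ⟨C₃, hC₃, H₃⟩ := EV_crude K
  refine ⟨C₁ * (4 * C₂ + 3 * Real.exp 1 * C₀ + C₃), by positivity,
    fun X b V hX hXb hb2 hV hVX => ?_⟩
  have hX0 : 0 < X := by linarith
  have hX1 : 1 ≤ X := by linarith
  have hV0 : 0 < V := by linarith
  have hpow : ∀ e f : ℝ, e ≤ f → X ^ e ≤ X ^ f := fun e f he =>
    Real.rpow_le_rpow_of_exponent_le hX1 he
  have hD1 : 1 / D ≤ 1 / 6 := one_div_le_one_div_of_le (by norm_num) hD6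
  have hXY : X ≤ X ^ 5 := by
    calc X = X ^ 1 := (pow_one X).symm
      _ ≤ X ^ 5 := pow_le_pow_right₀ hX1 (by norm_num)
  have hY6 : X ^ 5 ≤ X ^ 6 := pow_le_pow_right₀ hX1 (by norm_num)
  have hVR : V * X ^ (87 / 1000 : ℝ) ≤ X ^ (1 / 2 - 3 / 1000 : ℝ) := by
    calc V * X ^ (87 / 1000 : ℝ) ≤ X ^ (1 / 6 : ℝ) * X ^ (87 / 1000 : ℝ) := by
          gcongr
          exact hVX.trans (hpow _ _ hD1)
      _ = X ^ (1 / 6 + 87 / 1000 : ℝ) := by rw [← Real.rpow_add hX0]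
      _ ≤ _ := hpow _ _ (by norm_num)
  -- sizes
  have hVB : V ^ (D / 4 + η) ≤ X ^ (1 / 4 + η : ℝ) := by
    calc V ^ (D / 4 + η) ≤ (X ^ (1 / D)) ^ (D / 4 + η) := Real.rpow_le_rpow hV0.le hVX hBd.le
      _ = X ^ (1 / D * (D / 4 + η)) := by rw [← Real.rpow_mul hX0.le]
      _ ≤ _ := by
        apply hpow
        have : 1 / D * (D / 4 + η) = 1 / 4 + 1 / D * η := by field_simp
        rw [this]
        nlinarith
  have hVB1 : V ^ (D / 4 + η + 1) ≤ X ^ (5 / 12 + η : ℝ) := by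
    calc V ^ (D / 4 + η + 1) ≤ (X ^ (1 / D)) ^ (D / 4 + η + 1) :=
          Real.rpow_le_rpow hV0.le hVX (by positivity)
      _ = X ^ (1 / D * (D / 4 + η + 1)) := by rw [← Real.rpow_mul hX0.le]
      _ ≤ _ := by
        apply hpow
        have : 1 / D * (D / 4 + η + 1) = 1 / 4 + 1 / D * η + 1 / D := by field_simp
        rw [this]
        nlinarith
  set S0 : ℝ := 2 * C₂ * X ^ (3 / 4 + η : ℝ) with hS0
  set S1 : ℝ := 2 * C₂ * X ^ (-(1 / 12) + η : ℝ) with hS1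
  have key := H₁ X (X ^ 5) V (X ^ (87 / 1000 : ℝ)) X b (3 * Real.exp 1 * C₀) S0 S1 C₃ (K.Lam V)
    hX hXY hY6 hV (hpow _ _ (by norm_num)) hVR le_rfl hXb hb2 (by positivity)
    (Lam_continuous K V) (fun t => lo_lam K hC₀ hK hV (by linarith) t)
    (EV_differentiable K hV).1 (EV_differentiable K hV).2
    (fun x hx1 hx2 => by
      have hx0 : 0 < x := by linarith
      have h1 := (H₂ V x hV hx0).2.1
      refine h1.trans ?_
      have h2 : x ^ (1 / 2 : ℝ) ≤ 2 * X ^ (1 / 2 : ℝ) := by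
        calc x ^ (1 / 2 : ℝ) ≤ (4 * X) ^ (1 / 2 : ℝ) := Real.rpow_le_rpow hx0.le hx2 (by norm_num)
          _ = 4 ^ (1 / 2 : ℝ) * X ^ (1 / 2 : ℝ) := Real.mul_rpow (by norm_num) hX0.le
          _ = 2 * X ^ (1 / 2 : ℝ) := by
            congr 1
            rw [show (4 : ℝ) = 2 ^ (2 : ℝ) by norm_num, ← Real.rpow_mul (by norm_num)]
            norm_num
      calc C₂ * x ^ (1 / 2 : ℝ) * V ^ (D / 4 + η)
          ≤ C₂ * (2 * X ^ (1 / 2 : ℝ)) * X ^ (1 / 4 + η : ℝ) := by gcongr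
        _ = 2 * C₂ * (X ^ (1 / 2 : ℝ) * X ^ (1 / 4 + η : ℝ)) := by ring
        _ = 2 * C₂ * X ^ (1 / 2 + (1 / 4 + η) : ℝ) := by rw [← Real.rpow_add hX0]
        _ = S0 := by rw [hS0]; congr 2; ring)
    (fun x hx1 hx2 => by
      have hx0 : 0 < x := by linarith
      have h1 := (H₂ V x hV hx0).2.2
      refine h1.trans ?_
      have h2 : x ^ (-(1 / 2) : ℝ) ≤ 2 * X ^ (-(1 / 2) : ℝ) := by
        calc x ^ (-(1 / 2) : ℝ) ≤ (X / 2) ^ (-(1 / 2) : ℝ) :=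
              Real.rpow_le_rpow_of_nonpos (by positivity) hx1 (by norm_num)
          _ = 2 ^ (1 / 2 : ℝ) * X ^ (-(1 / 2) : ℝ) := by
            rw [Real.div_rpow hX0.le (by norm_num), div_eq_mul_inv, ← Real.rpow_neg (by norm_num),
              neg_neg, mul_comm]
          _ ≤ 2 * X ^ (-(1 / 2) : ℝ) := by
            gcongr
            calc (2 : ℝ) ^ (1 / 2 : ℝ) ≤ 2 ^ (1 : ℝ) :=
                  Real.rpow_le_rpow_of_exponent_le (by norm_num) (by norm_num)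
              _ = 2 := Real.rpow_one 2
      calc C₂ * x ^ (-(1 / 2) : ℝ) * V ^ (D / 4 + η + 1)
          ≤ C₂ * (2 * X ^ (-(1 / 2) : ℝ)) * X ^ (5 / 12 + η : ℝ) := by gcongr
        _ = 2 * C₂ * (X ^ (-(1 / 2) : ℝ) * X ^ (5 / 12 + η : ℝ)) := by ring
        _ = 2 * C₂ * X ^ (-(1 / 2) + (5 / 12 + η) : ℝ) := by rw [← Real.rpow_add hX0]
        _ = S1 := by rw [hS1]; congr 2; ring)
    (fun x hx => H₃ V hV x hx)
  refine key.trans ?_
  rw [mul_assoc C₁]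
  refine mul_le_mul_of_nonneg_left ?_ hC₁.le
  have h1 : X ^ (3 / 4 + η) * S0 ≤ 2 * C₂ * X ^ (208 / 125 : ℝ) := by
    calc X ^ (3 / 4 + η) * S0 = 2 * C₂ * (X ^ (3 / 4 + η) * X ^ (3 / 4 + η : ℝ)) := by
          rw [hS0]; ring
      _ = 2 * C₂ * X ^ (3 / 4 + η + (3 / 4 + η) : ℝ) := by rw [← Real.rpow_add hX0]
      _ ≤ _ := by
        refine mul_le_mul_of_nonneg_left (hpow _ _ ?_) (by positivity)
        linarith
  have h2 : X ^ (3 / 4 + η) * (X * S1 / X ^ (87 / 1000 : ℝ)) ≤ 2 * C₂ * X ^ (208 / 125 : ℝ) := by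
    calc X ^ (3 / 4 + η) * (X * S1 / X ^ (87 / 1000 : ℝ))
        = 2 * C₂ * (X ^ (3 / 4 + η) * (X ^ (1 : ℝ) * X ^ (-(1 / 12) + η : ℝ) *
          X ^ (-(87 / 1000) : ℝ))) := by
          rw [hS1, Real.rpow_neg hX0.le (87 / 1000), Real.rpow_one]; ring
      _ = 2 * C₂ * X ^ (3 / 4 + η + (1 + (-(1 / 12) + η) + -(87 / 1000)) : ℝ) := by
          rw [← Real.rpow_add hX0, ← Real.rpow_add hX0, ← Real.rpow_add hX0]
      _ ≤ _ := by
        refine mul_le_mul_of_nonneg_left (hpow _ _ ?_) (by positivity)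
        linarith
  have h3 : (1 : ℝ) ≤ X ^ (208 / 125 : ℝ) := Real.one_le_rpow hX1 (by norm_num)
  have h4 : 3 * Real.exp 1 * C₀ + C₃ ≤ (3 * Real.exp 1 * C₀ + C₃) * X ^ (208 / 125 : ℝ) :=
    le_mul_of_one_le_right (by positivity) h3
  calc X ^ (3 / 4 + η) * (S0 + X * S1 / X ^ (87 / 1000 : ℝ)) + 3 * Real.exp 1 * C₀ + C₃
      = X ^ (3 / 4 + η) * S0 + X ^ (3 / 4 + η) * (X * S1 / X ^ (87 / 1000 : ℝ)) +
        (3 * Real.exp 1 * C₀ + C₃) := by ring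
    _ ≤ 2 * C₂ * X ^ (208 / 125 : ℝ) + 2 * C₂ * X ^ (208 / 125 : ℝ) +
        (3 * Real.exp 1 * C₀ + C₃) * X ^ (208 / 125 : ℝ) := add_le_add (add_le_add h1 h2) h4
    _ = _ := by ring

/-- One dyadic step of the low range. -/
private theorem lo_one (F : Sel) (hF : F.deg = 2) (K : Sel) {D C₀ η : ℝ} (hD6 : 6 ≤ D)
    (hη : 0 < η) (hη1 : η ≤ 1 / 100) (hC₀ : 0 < C₀)
    (hK : ∀ t : ℝ, ‖K.L (ln (1 / 2) t)‖ ≤ C₀ * (1 + |t|) ^ (D / 4 + η)) :
    ∃ C : ℝ, 0 < C ∧ ∀ X b V : ℝ, 64 ≤ X → X ≤ b → b ≤ 2 * X → 1 ≤ V → X ^ (1 / D) ≤ 2 * V →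
      V ≤ X ^ (41 / 100 : ℝ) →
      ‖∫ x in X..b, (F.EV (X ^ 5) x - F.L 0) * (K.EV (2 * V) x - K.EV V x)‖ ≤
        C * X ^ (max (208 / 125) (7 / 4 - 1 / D) + 2 * η) := by
  have hD0 : 0 < D := by linarith
  have hBd : 0 < D / 4 + η := by positivity
  obtain ⟨C₁, hC₁, H₁⟩ := low_piece F hF (δ := 3 / 1000) (Bd := D / 4 + η) (ε := η) (by norm_num)
    hBd.le hη
  obtain ⟨C₂, hC₂, H₂⟩ := WYL.E_smooth K hη
  obtain ⟨C₃, hC₃, H₃⟩ := EV_crude K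
  obtain ⟨C₄, hC₄, H₄⟩ := EV_deriv K hη
  refine ⟨C₁ * (80 * C₂ + 8 * C₄ + 6 * Real.exp 1 * C₀ + 2 * C₃), by positivity,
    fun X b V hX hXb hb2 hV hDV hVX => ?_⟩
  have hX0 : 0 < X := by linarith
  have hX1 : 1 ≤ X := by linarith
  have hV0 : 0 < V := by linarith
  have hV' : 1 ≤ 2 * V := by linarith
  have hpow : ∀ e f : ℝ, e ≤ f → X ^ e ≤ X ^ f := fun e f he =>
    Real.rpow_le_rpow_of_exponent_le hX1 he
  have hXY : X ≤ X ^ 5 := by
    calc X = X ^ 1 := (pow_one X).symm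
      _ ≤ X ^ 5 := pow_le_pow_right₀ hX1 (by norm_num)
  have hY6 : X ^ 5 ≤ X ^ 6 := pow_le_pow_right₀ hX1 (by norm_num)
  have hVX1 : V ≤ X := by
    calc V ≤ X ^ (41 / 100 : ℝ) := hVX
      _ ≤ X ^ (1 : ℝ) := hpow _ _ (by norm_num)
      _ = X := Real.rpow_one X
  have hVR : V * X ^ (87 / 1000 : ℝ) ≤ X ^ (1 / 2 - 3 / 1000 : ℝ) := by
    calc V * X ^ (87 / 1000 : ℝ) ≤ X ^ (41 / 100 : ℝ) * X ^ (87 / 1000 : ℝ) := by
          gcongr
      _ = X ^ (41 / 100 + 87 / 1000 : ℝ) := by rw [← Real.rpow_add hX0]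
      _ ≤ _ := hpow _ _ (by norm_num)
  have h4η : (4 * X) ^ η ≤ 4 * X ^ η := by
    rw [Real.mul_rpow (by norm_num) hX0.le]
    gcongr
    calc (4 : ℝ) ^ η ≤ 4 ^ (1 : ℝ) :=
          Real.rpow_le_rpow_of_exponent_le (by norm_num) (by linarith)
      _ = 4 := Real.rpow_one 4
  have hXV : X / V ≤ 2 * X ^ (1 - 1 / D) := by
    rw [div_le_iff₀ hV0]
    calc X = X ^ (1 - 1 / D) * X ^ (1 / D) := by
          rw [← Real.rpow_add hX0, sub_add_cancel, Real.rpow_one]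
      _ ≤ X ^ (1 - 1 / D) * (2 * V) := by gcongr
      _ = _ := by ring
  have h1X : 1 + 4 * X / V ≤ 10 * X ^ (1 - 1 / D) := by
    have h1 : 1 ≤ X / V := by rw [le_div_iff₀ hV0]; linarith
    calc 1 + 4 * X / V ≤ X / V + 4 * (X / V) := by
          rw [mul_div_assoc]; linarith
      _ ≤ 5 * (2 * X ^ (1 - 1 / D)) := by linarith
      _ = _ := by ring
  have heq : ∀ x : ℝ, 0 < x → vint (1 / 2) (fun t => K.Lam (2 * V) t - K.Lam V t) x =
      K.EV (2 * V) x - K.EV V x := fun x hx => lo_diff K hV hV' hx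
  have hev : ∀ x : ℝ, 0 < x → vint (1 / 2) (fun t => K.Lam (2 * V) t - K.Lam V t) =ᶠ[nhds x]
      fun y => K.EV (2 * V) y - K.EV V y := by
    intro x hx
    filter_upwards [Ioi_mem_nhds hx] with y hy
    exact heq y hy
  have hd1 := EV_differentiable K hV
  have hd2 := EV_differentiable K hV'
  have hdiff : ∀ x : ℝ, 0 < x →
      DifferentiableAt ℝ (vint (1 / 2) (fun t => K.Lam (2 * V) t - K.Lam V t)) x := by
    intro x hx
    rw [(hev x hx).differentiableAt_iff]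
    exact (hd2.1 x hx).sub (hd1.1 x hx)
  have hder : ∀ x : ℝ, 0 < x →
      deriv (vint (1 / 2) (fun t => K.Lam (2 * V) t - K.Lam V t)) x =
        deriv (K.EV (2 * V)) x - deriv (K.EV V) x := by
    intro x hx
    rw [(hev x hx).deriv_eq]
    exact deriv_fun_sub (hd2.1 x hx) (hd1.1 x hx)
  have hdc : ContinuousOn (deriv (vint (1 / 2) (fun t => K.Lam (2 * V) t - K.Lam V t)))
      (Set.Ioi 0) := by
    refine (hd2.2.sub hd1.2).congr fun x hx => ?_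
    exact hder x hx
  set S0 : ℝ := 80 * C₂ * X ^ (1 - 1 / D + η) with hS0
  set S1 : ℝ := 8 * C₄ * X ^ η with hS1
  have key := H₁ X (X ^ 5) V (X ^ (87 / 1000 : ℝ)) X b (6 * Real.exp 1 * C₀) S0 S1 (2 * C₃)
    (fun t => K.Lam (2 * V) t - K.Lam V t)
    hX hXY hY6 hV (hpow _ _ (by norm_num)) hVR le_rfl hXb hb2 (by positivity)
    ((Lam_continuous K (2 * V)).sub (Lam_continuous K V))
    (fun t => by
      have h1 := lo_lam K hC₀ hK hV (W := 2 * V) (by linarith) t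
      have h2 := lo_lam K hC₀ hK hV' (W := 2 * V) le_rfl t
      refine (norm_sub_le _ _).trans ((add_le_add h2 h1).trans (le_of_eq ?_))
      ring)
    hdiff hdc
    (fun x hx1 hx2 => by
      have hx0 : 0 < x := by linarith
      rw [heq x hx0]
      have h1 := H₂ (4 * X) (by linarith) V hV x hx0 hx2
      have h2 := H₂ (4 * X) (by linarith) (2 * V) hV' x hx0 hx2
      have h3 : 4 * X / (2 * V) ≤ 4 * X / V := by
        apply div_le_div_of_nonneg_left (by positivity) hV0 (by linarith)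
      have h4 : ‖K.EV (2 * V) x - K.EV V x‖ ≤
          C₂ * (4 * X) ^ η * (1 + 4 * X / V) + C₂ * (4 * X) ^ η * (1 + 4 * X / V) := by
        have e : K.EV (2 * V) x - K.EV V x =
            (K.E x - K.EV V x) - (K.E x - K.EV (2 * V) x) := by ring
        rw [e]
        refine (norm_sub_le _ _).trans (add_le_add h1 (h2.trans ?_))
        gcongr
      refine h4.trans ?_
      calc C₂ * (4 * X) ^ η * (1 + 4 * X / V) + C₂ * (4 * X) ^ η * (1 + 4 * X / V)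
          = 2 * C₂ * (4 * X) ^ η * (1 + 4 * X / V) := by ring
        _ ≤ 2 * C₂ * (4 * X ^ η) * (10 * X ^ (1 - 1 / D)) := by gcongr
        _ = 80 * C₂ * (X ^ (1 - 1 / D) * X ^ η) := by ring
        _ = S0 := by rw [← Real.rpow_add hX0, hS0])
    (fun x hx1 hx2 => by
      have hx0 : 0 < x := by linarith
      rw [hder x hx0]
      have h1 := H₄ (4 * X) V (by linarith) hV (by linarith) x (by linarith) hx2
      have h2 := H₄ (4 * X) (2 * V) (by linarith) hV' (by linarith) x (by linarith) hx2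
      refine (norm_sub_le _ _).trans ((add_le_add h2 h1).trans ?_)
      calc C₄ * (4 * X) ^ η + C₄ * (4 * X) ^ η = 2 * C₄ * (4 * X) ^ η := by ring
        _ ≤ 2 * C₄ * (4 * X ^ η) := by gcongr
        _ = S1 := by rw [hS1]; ring)
    (fun x hx => by
      rw [heq x hx]
      refine (norm_sub_le _ _).trans ((add_le_add (H₃ (2 * V) hV' x hx) (H₃ V hV x hx)).trans
        (le_of_eq ?_))
      ring)
  have e0 : ∫ x in X..b, (F.EV (X ^ 5) x - F.L 0) * (K.EV (2 * V) x - K.EV V x) =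
      ∫ x in X..b, (F.EV (X ^ 5) x - F.L 0) *
        vint (1 / 2) (fun t => K.Lam (2 * V) t - K.Lam V t) x := by
    refine intervalIntegral.integral_congr fun x hx => ?_
    rw [Set.uIcc_of_le hXb] at hx
    rw [heq x (by linarith [hx.1])]
  rw [e0]
  refine key.trans ?_
  rw [mul_assoc C₁]
  refine mul_le_mul_of_nonneg_left ?_ hC₁.le
  set E : ℝ := max (208 / 125) (7 / 4 - 1 / D) with hE
  have hE1 : 208 / 125 ≤ E := le_max_left _ _
  have hE2 : 7 / 4 - 1 / D ≤ E := le_max_right _ _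
  have h1 : X ^ (3 / 4 + η) * S0 ≤ 80 * C₂ * X ^ (E + 2 * η) := by
    calc X ^ (3 / 4 + η) * S0 = 80 * C₂ * (X ^ (3 / 4 + η) * X ^ (1 - 1 / D + η)) := by
          rw [hS0]; ring
      _ = 80 * C₂ * X ^ (3 / 4 + η + (1 - 1 / D + η)) := by rw [← Real.rpow_add hX0]
      _ ≤ _ := by
        refine mul_le_mul_of_nonneg_left (hpow _ _ ?_) (by positivity)
        linarith
  have h2 : X ^ (3 / 4 + η) * (X * S1 / X ^ (87 / 1000 : ℝ)) ≤ 8 * C₄ * X ^ (E + 2 * η) := by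
    calc X ^ (3 / 4 + η) * (X * S1 / X ^ (87 / 1000 : ℝ))
        = 8 * C₄ * (X ^ (3 / 4 + η) * (X ^ (1 : ℝ) * X ^ η *
          X ^ (-(87 / 1000) : ℝ))) := by
          rw [hS1, Real.rpow_neg hX0.le (87 / 1000), Real.rpow_one]; ring
      _ = 8 * C₄ * X ^ (3 / 4 + η + (1 + η + -(87 / 1000)) : ℝ) := by
          rw [← Real.rpow_add hX0, ← Real.rpow_add hX0, ← Real.rpow_add hX0]
      _ ≤ _ := by
        refine mul_le_mul_of_nonneg_left (hpow _ _ ?_) (by positivity)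
        linarith
  have h3 : (1 : ℝ) ≤ X ^ (E + 2 * η) := Real.one_le_rpow hX1 (by linarith)
  have h4 : 6 * Real.exp 1 * C₀ + 2 * C₃ ≤ (6 * Real.exp 1 * C₀ + 2 * C₃) * X ^ (E + 2 * η) :=
    le_mul_of_one_le_right (by positivity) h3
  calc X ^ (3 / 4 + η) * (S0 + X * S1 / X ^ (87 / 1000 : ℝ)) + 6 * Real.exp 1 * C₀ + 2 * C₃
      = X ^ (3 / 4 + η) * S0 + X ^ (3 / 4 + η) * (X * S1 / X ^ (87 / 1000 : ℝ)) +
        (6 * Real.exp 1 * C₀ + 2 * C₃) := by ring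
    _ ≤ 80 * C₂ * X ^ (E + 2 * η) + 8 * C₄ * X ^ (E + 2 * η) +
        (6 * Real.exp 1 * C₀ + 2 * C₃) * X ^ (E + 2 * η) := add_le_add (add_le_add h1 h2) h4
    _ = _ := by ring

theorem low_sum (F : Sel) (hF : F.deg = 2) (G : ℕ → Sel) (r : ℕ) (K : Sel)
    (hK : ∀ n : ℕ, 1 ≤ n → K.f n = (∏ i ∈ Finset.range r, af (G i)) n) {D : ℝ} (hD6 : 6 ≤ D)
    (hD : ∑ i ∈ Finset.range r, (G i).deg ≤ D) {ε : ℝ} (hε : 0 < ε) : ∃ C : ℝ, 0 < C ∧
    ∀ (X b : ℝ) (m : ℕ), 64 ≤ X → X ≤ b → b ≤ 2 * X → X ^ (41 / 100 : ℝ) ≤ (2 : ℝ) ^ m →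
      (2 : ℝ) ^ m ≤ 2 * X ^ (41 / 100 : ℝ) →
      ‖∫ x in X..b, (F.EV (X ^ 5) x - F.L 0) * K.EV (2 ^ m) x‖ ≤
        C * X ^ (max (208 / 125) (7 / 4 - 1 / D) + ε) := by
  obtain ⟨η, hη, hη1, hηε⟩ : ∃ η : ℝ, 0 < η ∧ η ≤ 1 / 100 ∧ 3 * η ≤ ε :=
    ⟨min (ε / 3) (1 / 100), lt_min (by positivity) (by norm_num), min_le_right _ _, by
      have := min_le_left (ε / 3) (1 / 100)
      linarith⟩
  obtain ⟨C₀, hC₀, H₀⟩ := convex_prod G r K hK hD hη
  obtain ⟨C₁, hC₁, H₁⟩ := lo_base F hF K hD6 hη hη1 hC₀ H₀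
  obtain ⟨C₂, hC₂, H₂⟩ := lo_one F hF K hD6 hη hη1 hC₀ H₀
  refine ⟨C₁ + (1 + 2 / η) * C₂, by positivity, fun X b m hX hXb hb2 hm1 hm2 => ?_⟩
  have hD0 : 0 < D := by linarith
  have hX0 : 0 < X := by linarith
  have hX1 : 1 ≤ X := by linarith
  have hY : 1 ≤ X ^ 5 := one_le_pow₀ hX1
  have hpow : ∀ e f : ℝ, e ≤ f → X ^ e ≤ X ^ f := fun e f he =>
    Real.rpow_le_rpow_of_exponent_le hX1 he
  have p1 : ∀ i : ℕ, (1 : ℝ) ≤ 2 ^ i := fun i => one_le_pow₀ (by norm_num)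
  have hD1 : 1 / D ≤ 1 / 6 := one_div_le_one_div_of_le (by norm_num) hD6
  have hD2 : 0 ≤ 1 / D := by positivity
  obtain ⟨i₁, hi1, hi2⟩ := exists_nat_pow_near (x := X ^ (1 / D)) (y := 2)
    (Real.one_le_rpow hX1 hD2) (by norm_num)
  have hi1m : i₁ ≤ m := by
    have h : (2 : ℝ) ^ i₁ ≤ 2 ^ m := hi1.trans ((hpow _ _ (by linarith)).trans hm1)
    exact (pow_le_pow_iff_right₀ (by norm_num : (1 : ℝ) < 2)).1 h
  have tel : ∀ x : ℝ, K.EV (2 ^ m) x = K.EV (2 ^ i₁) x +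
      ∑ i ∈ Finset.Ico i₁ m, (K.EV (2 * 2 ^ i) x - K.EV (2 ^ i) x) := by
    intro x
    have := Finset.sum_Ico_sub (fun i : ℕ => K.EV (2 ^ i) x) hi1m
    have e : ∑ i ∈ Finset.Ico i₁ m, (K.EV (2 * 2 ^ i) x - K.EV (2 ^ i) x) =
        ∑ i ∈ Finset.Ico i₁ m, (K.EV (2 ^ (i + 1)) x - K.EV (2 ^ i) x) :=
      Finset.sum_congr rfl fun i _ => by rw [pow_succ']
    rw [e, this]
    ring
  have cF := lo_cont F hY hX0 hXb
  have hint : ∀ i ∈ Finset.Ico i₁ m, IntervalIntegrable (fun x => (F.EV (X ^ 5) x - F.L 0) *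
      (K.EV (2 * 2 ^ i) x - K.EV (2 ^ i) x)) volume X b := by
    intro i _
    have c1 := lo_cont K (p1 i) hX0 hXb
    have c2 := lo_cont K (V := 2 * 2 ^ i) (by linarith [p1 i]) hX0 hXb
    exact ((cF.sub continuousOn_const).mul (c2.sub c1)).intervalIntegrable
  have hint0 : IntervalIntegrable (fun x => (F.EV (X ^ 5) x - F.L 0) * K.EV (2 ^ i₁) x)
      volume X b :=
    ((cF.sub continuousOn_const).mul (lo_cont K (p1 i₁) hX0 hXb)).intervalIntegrable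
  have e : ∫ x in X..b, (F.EV (X ^ 5) x - F.L 0) * K.EV (2 ^ m) x =
      (∫ x in X..b, (F.EV (X ^ 5) x - F.L 0) * K.EV (2 ^ i₁) x) +
      ∑ i ∈ Finset.Ico i₁ m, ∫ x in X..b, (F.EV (X ^ 5) x - F.L 0) *
        (K.EV (2 * 2 ^ i) x - K.EV (2 ^ i) x) := by
    have hs : IntervalIntegrable (fun x => ∑ i ∈ Finset.Ico i₁ m, (F.EV (X ^ 5) x - F.L 0) *
        (K.EV (2 * 2 ^ i) x - K.EV (2 ^ i) x)) volume X b := by
      have h := IntervalIntegrable.sum (Finset.Ico i₁ m) hint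
      have e0 : (fun x => ∑ i ∈ Finset.Ico i₁ m, (F.EV (X ^ 5) x - F.L 0) *
          (K.EV (2 * 2 ^ i) x - K.EV (2 ^ i) x)) = ∑ i ∈ Finset.Ico i₁ m,
          fun x => (F.EV (X ^ 5) x - F.L 0) * (K.EV (2 * 2 ^ i) x - K.EV (2 ^ i) x) := by
        funext x
        rw [Finset.sum_apply]
      rw [e0]
      exact h
    rw [← intervalIntegral.integral_finsetSum hint, ← intervalIntegral.integral_add hint0 hs]
    refine intervalIntegral.integral_congr fun x _ => ?_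
    show (F.EV (X ^ 5) x - F.L 0) * K.EV (2 ^ m) x = _
    rw [tel, mul_add, Finset.mul_sum]
  rw [e]
  have hcount : (m : ℝ) ≤ (1 + 2 / η) * X ^ η := by
    have h1 : (2 : ℝ) ^ m ≤ 2 * X := hm2.trans (by
      gcongr
      calc X ^ (41 / 100 : ℝ) ≤ X ^ (1 : ℝ) := Real.rpow_le_rpow_of_exponent_le hX1 (by norm_num)
        _ = X := Real.rpow_one X)
    have h2 : (m : ℝ) * Real.log 2 ≤ Real.log 2 + Real.log X := by
      rw [← Real.log_pow, ← Real.log_mul (by norm_num) hX0.ne']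
      exact Real.log_le_log (by positivity) h1
    have h3 : Real.log X ≤ X ^ η / η := Real.log_le_rpow_div hX0.le hη
    have h4 := Real.log_two_gt_d9
    have h5 : ((m : ℝ) - 1) * Real.log 2 ≤ Real.log X := by linarith
    have h6 : 1 ≤ X ^ η := Real.one_le_rpow hX1 hη.le
    have h7 : 0 ≤ Real.log X := Real.log_nonneg hX1
    have h8 : (m : ℝ) - 1 ≤ 2 * Real.log X := by
      rcases le_total ((m : ℝ) - 1) 0 with h | h
      · linarith
      · nlinarith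
    have h9 : 2 / η * X ^ η = 2 * (X ^ η / η) := by ring
    have h10 : (1 + 2 / η) * X ^ η = X ^ η + 2 / η * X ^ η := by ring
    rw [h10, h9]
    linarith
  set E : ℝ := max (208 / 125) (7 / 4 - 1 / D) with hE
  have hE1 : 208 / 125 ≤ E := le_max_left _ _
  have hbase := H₁ X b (2 ^ i₁) hX hXb hb2 (p1 i₁) hi1
  have hterm : ∀ i ∈ Finset.Ico i₁ m, ‖∫ x in X..b, (F.EV (X ^ 5) x - F.L 0) *
      (K.EV (2 * 2 ^ i) x - K.EV (2 ^ i) x)‖ ≤ C₂ * X ^ (E + 2 * η) := by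
    intro i hi
    rw [Finset.mem_Ico] at hi
    refine H₂ X b (2 ^ i) hX hXb hb2 (p1 i) ?_ ?_
    · rw [pow_succ'] at hi2
      refine hi2.le.trans ?_
      have : (2 : ℝ) ^ i₁ ≤ 2 ^ i := pow_le_pow_right₀ (by norm_num) hi.1
      linarith
    · have h1 : (2 : ℝ) ^ (i + 1) ≤ 2 ^ m := pow_le_pow_right₀ (by norm_num) hi.2
      rw [pow_succ'] at h1
      linarith
  refine (norm_add_le _ _).trans ?_
  rw [add_mul]
  refine add_le_add ?_ ?_
  · refine hbase.trans (mul_le_mul_of_nonneg_left (hpow _ _ ?_) hC₁.le)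
    linarith
  · calc ‖∑ i ∈ Finset.Ico i₁ m, ∫ x in X..b, (F.EV (X ^ 5) x - F.L 0) *
        (K.EV (2 * 2 ^ i) x - K.EV (2 ^ i) x)‖
        ≤ ∑ i ∈ Finset.Ico i₁ m, ‖∫ x in X..b, (F.EV (X ^ 5) x - F.L 0) *
          (K.EV (2 * 2 ^ i) x - K.EV (2 ^ i) x)‖ := norm_sum_le _ _
      _ ≤ ∑ i ∈ Finset.Ico i₁ m, C₂ * X ^ (E + 2 * η) := Finset.sum_le_sum hterm
      _ = ((m - i₁ : ℕ) : ℝ) * (C₂ * X ^ (E + 2 * η)) := by
          rw [Finset.sum_const, Nat.card_Ico, nsmul_eq_mul]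
      _ ≤ ((1 + 2 / η) * X ^ η) * (C₂ * X ^ (E + 2 * η)) := by
          refine mul_le_mul_of_nonneg_right (le_trans ?_ hcount) (by positivity)
          exact_mod_cast Nat.sub_le m i₁
      _ = (1 + 2 / η) * C₂ * (X ^ η * X ^ (E + 2 * η)) := by ring
      _ = (1 + 2 / η) * C₂ * X ^ (η + (E + 2 * η)) := by rw [← Real.rpow_add hX0]
      _ ≤ _ := by
          refine mul_le_mul_of_nonneg_left (hpow _ _ ?_) (by positivity)
          linarith

end DAD
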