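import Pool.Agent.DAD.Fp1C

set_option autoImplicit false

/-!
# DAD/Fp1D: the size of the high primitive
-/

open Complex MeasureTheory

open scoped ComplexConjugate

namespace DAD

open HYM

theorem gk_cont (V Y : ℝ) : Continuous (gk V Y) := by
  have h1 := ln_cont' (1 / 2)
  have h2 := ln_cont' (3 / 2)
  unfold gk
  refine Continuous.div ?_ (h1.mul h2) fun t => mul_ne_zero (ln_ne (by norm_num) t)
    (ln_ne (by norm_num) t)
  fun_prop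

theorem gk_bd {V Y : ℝ} (hV : 1 ≤ V) (hY : 1 ≤ Y) (t : ℝ) :
    ‖gk V Y t‖ ≤ 2 * Real.exp ((1 / 2) ^ 2) * 4 * (1 + t ^ 2)⁻¹ := by
  have hg : ∀ W : ℝ, 1 ≤ W → ‖cexp ((ln (1 / 2) t) ^ 2 / (W : ℂ) ^ 2)‖ ≤ Real.exp ((1 / 2) ^ 2) := by
    intro W hW
    refine (gau_norm (R := 1 / 2) hW (s := ln (1 / 2) t) (by rw [ln_re]; norm_num)).trans ?_
    have : Real.exp (-((ln (1 / 2) t).im / W) ^ 2) ≤ 1 := by
      rw [Real.exp_le_one_iff]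
      have := sq_nonneg ((ln (1 / 2) t).im / W)
      linarith
    nlinarith [Real.exp_pos ((1 / 2 : ℝ) ^ 2)]
  have hn : ∀ c : ℝ, 1 / 2 ≤ c → Real.sqrt (1 / 4 + t ^ 2) ≤ ‖ln c t‖ := by
    intro c hc
    rw [Real.sqrt_le_left (norm_nonneg _), ← Complex.normSq_eq_norm_sq, Complex.normSq_apply,
      ln_re, ln_im]
    nlinarith
  have hden : (1 + t ^ 2) / 4 ≤ ‖ln (1 / 2) t * ln (3 / 2) t‖ := by
    rw [norm_mul]
    have e1 := hn (1 / 2) le_rfl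
    have e2 := hn (3 / 2) (by norm_num)
    have e3 : Real.sqrt (1 / 4 + t ^ 2) * Real.sqrt (1 / 4 + t ^ 2) = 1 / 4 + t ^ 2 :=
      Real.mul_self_sqrt (by positivity)
    have e4 := mul_le_mul e1 e2 (Real.sqrt_nonneg _) (norm_nonneg _)
    nlinarith [sq_nonneg t]
  unfold gk
  rw [norm_div, div_le_iff₀ (lt_of_lt_of_le (by positivity) hden)]
  have h1 : ‖cexp ((ln (1 / 2) t) ^ 2 / (Y : ℂ) ^ 2) - cexp ((ln (1 / 2) t) ^ 2 / (V : ℂ) ^ 2)‖ ≤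
      2 * Real.exp ((1 / 2) ^ 2) := by
    refine (norm_sub_le _ _).trans ?_
    have := hg Y hY
    have := hg V hV
    linarith
  have h2 : 2 * Real.exp ((1 / 2) ^ 2) =
      2 * Real.exp ((1 / 2) ^ 2) * 4 * (1 + t ^ 2)⁻¹ * ((1 + t ^ 2) / 4) := by
    have : (1 + t ^ 2) ≠ 0 := by positivity
    field_simp
  refine (h1.trans h2.le).trans ?_
  exact mul_le_mul_of_nonneg_left hden (by positivity)

theorem chi_half_bd (F : Sel) : ∃ C : ℝ, 0 < C ∧ ∀ t : ℝ, ‖F.chi (ln (1 / 2) t)‖ ≤ C := by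
  obtain ⟨C, hC, h⟩ := chi_bound F (1 / 2) (1 / 2) (by norm_num)
  refine ⟨C, hC, fun t => ?_⟩
  have := h (1 / 2) ⟨le_rfl, le_rfl⟩ t
  simpa using this

theorem chg_int (F : Sel) {V Y y : ℝ} (hV : 1 ≤ V) (hY : 1 ≤ Y) (hy : 0 < y) :
    Integrable (fun t : ℝ => F.chi (ln (1 / 2) t) * (y : ℂ) ^ ((t : ℂ) * I) * gk V Y t) := by
  obtain ⟨C, hC, h⟩ := chi_half_bd F
  have hint : Integrable (fun t : ℝ => C * (2 * Real.exp ((1 / 2) ^ 2) * 4) * (1 + t ^ 2)⁻¹) :=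
    integrable_inv_one_add_sq.const_mul _
  have hc : Continuous (fun t : ℝ => F.chi (ln (1 / 2) t) * (y : ℂ) ^ ((t : ℂ) * I) * gk V Y t) := by
    refine ((chi_half_continuous F).mul ?_).mul (gk_cont V Y)
    have : Continuous fun t : ℝ => ((t : ℂ) * I) := by fun_prop
    exact this.const_cpow (Or.inl (by exact_mod_cast hy.ne'))
  refine hint.mono' hc.aestronglyMeasurable ?_
  filter_upwards with t
  rw [norm_mul, norm_mul]
  have h1 : ‖(y : ℂ) ^ ((t : ℂ) * I)‖ = 1 := by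
    rw [Complex.norm_cpow_eq_rpow_re_of_pos hy]
    simp
  rw [h1, mul_one]
  have h2 := gk_bd hV hY t
  calc ‖F.chi (ln (1 / 2) t)‖ * ‖gk V Y t‖
      ≤ C * (2 * Real.exp ((1 / 2) ^ 2) * 4 * (1 + t ^ 2)⁻¹) :=
        mul_le_mul (h t) h2 (norm_nonneg _) hC.le
    _ = _ := by ring

theorem dsum_blk' (F : Sel) (k : ℕ) (s : ℂ) : dsum (F.blk k) s =
    ∑ n ∈ Finset.Ico (2 ^ k) (2 ^ (k + 1)), F.blk k n * (n : ℂ) ^ (s - 1) := by
  unfold dsum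
  apply tsum_eq_sum
  intro n hn
  rw [Finset.mem_Ico] at hn
  unfold Sel.blk
  rw [if_neg hn, zero_mul]

theorem hk_prim_eq (F : Sel) {V Y x : ℝ} (hV : 1 ≤ V) (hY : 1 ≤ Y) (hx : 0 < x) (k : ℕ) :
    vint (3 / 2) (fun t => hk F V Y (F.blk k) (ln (1 / 2) t) / ln (3 / 2) t) x =
      (2 * (Real.pi : ℂ))⁻¹ * ∑ n ∈ Finset.Ico (2 ^ k) (2 ^ (k + 1)),
        (F.blk k n * (n : ℂ) ^ (-(1 / 2) : ℂ) * (x : ℂ) ^ (3 / 2 : ℂ)) *
          ∫ t : ℝ, F.chi (ln (1 / 2) t) * (((n : ℝ) * x : ℝ) : ℂ) ^ ((t : ℂ) * I) * gk V Y t := by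
  unfold vint
  congr 1
  have hn0 : ∀ n ∈ Finset.Ico (2 ^ k) (2 ^ (k + 1)), 0 < n := by
    intro n hn
    rw [Finset.mem_Ico] at hn
    have : 0 < 2 ^ k := by positivity
    omega
  simp_rw [← integral_const_mul]
  rw [← integral_finsetSum]
  · congr 1
    funext t
    have h0 : ln (1 / 2) t ≠ 0 := ln_ne (by norm_num) t
    have h1 : ln (3 / 2) t ≠ 0 := ln_ne (by norm_num) t
    have hxp : (x : ℂ) ^ (ln (3 / 2) t) = (x : ℂ) ^ (3 / 2 : ℂ) * (x : ℂ) ^ ((t : ℂ) * I) := by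
      unfold ln
      rw [Complex.cpow_add _ _ (by exact_mod_cast hx.ne')]
      congr 2
      push_cast
      rfl
    unfold hk
    rw [dg_dslope_of_ne _ _ h0, dsum_blk', hxp, Finset.mul_sum, Finset.sum_mul, Finset.sum_div,
      Finset.sum_mul]
    refine Finset.sum_congr rfl fun n hn => ?_
    have hn' : (n : ℂ) ≠ 0 := by exact_mod_cast (hn0 n hn).ne'
    have hnr : (0 : ℝ) ≤ (n : ℝ) := by positivity
    have e1 : (n : ℂ) ^ (ln (1 / 2) t - 1) = (n : ℂ) ^ (-(1 / 2) : ℂ) * (n : ℂ) ^ ((t : ℂ) * I) := by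
      rw [← Complex.cpow_add _ _ hn']
      congr 1
      unfold ln
      push_cast
      ring
    have e2 : (((n : ℝ) * x : ℝ) : ℂ) ^ ((t : ℂ) * I) =
        (n : ℂ) ^ ((t : ℂ) * I) * (x : ℂ) ^ ((t : ℂ) * I) := by
      rw [Complex.ofReal_mul, Complex.mul_cpow_ofReal_nonneg hnr hx.le, Complex.ofReal_natCast]
    rw [e1, e2]
    unfold gk dg
    field_simp
  · intro n hn
    refine Integrable.const_mul ?_ _
    exact chg_int F hV hY (by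
      have : (0 : ℝ) < n := by exact_mod_cast hn0 n hn
      positivity)

theorem hk_prim_bd (F : Sel) (hF : 0 < F.deg) {δ : ℝ} (hδ : 0 < δ) (hδ1 : δ ≤ 1 / 2) :
    ∃ C : ℝ, 0 < C ∧ ∀ (k : ℕ) (V Y x : ℝ), 1 ≤ V → V ≤ Y → 0 < x →
      ‖vint (3 / 2) (fun t => hk F V Y (F.blk k) (ln (1 / 2) t) / ln (3 / 2) t) x‖ ≤
        C * (((2 : ℝ) ^ k) ^ (1 / 2 + 1 / 16 : ℝ) * x ^ (3 / 2 : ℝ) * V ^ (-3 / 2 + δ)) := by
  obtain ⟨C1, hC1, h1⟩ := high_ker F hF hδ hδ1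
  obtain ⟨C2, hC2⟩ := F.ram (1 / 16) (by norm_num)
  refine ⟨(|C2| + 1) * C1, by positivity, ?_⟩
  intro k V Y x hV hVY hx
  rw [hk_prim_eq F hV (hV.trans hVY) hx, norm_mul]
  have hpi : ‖(2 * (Real.pi : ℂ))⁻¹‖ ≤ 1 := by
    rw [norm_inv, norm_mul, Complex.norm_real, Real.norm_of_nonneg Real.pi_pos.le]
    have := Real.pi_gt_three
    rw [Complex.norm_ofNat]
    exact inv_le_one_of_one_le₀ (by linarith)
  have hN : (0 : ℝ) < (2 : ℝ) ^ k := by positivity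
  have hterm : ∀ n ∈ Finset.Ico (2 ^ k) (2 ^ (k + 1)),
      ‖(F.blk k n * (n : ℂ) ^ (-(1 / 2) : ℂ) * (x : ℂ) ^ (3 / 2 : ℂ)) *
          ∫ t : ℝ, F.chi (ln (1 / 2) t) * (((n : ℝ) * x : ℝ) : ℂ) ^ ((t : ℂ) * I) * gk V Y t‖ ≤
        (|C2| + 1) * ((2 : ℝ) ^ k) ^ (1 / 16 - 1 / 2 : ℝ) * x ^ (3 / 2 : ℝ) *
          (C1 * V ^ (-3 / 2 + δ)) := by
    intro n hn
    rw [Finset.mem_Ico] at hn
    have hn0 : 0 < n := lt_of_lt_of_le (by positivity) hn.1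
    have hn' : (0 : ℝ) < n := by exact_mod_cast hn0
    have hnN : (2 : ℝ) ^ k ≤ n := by exact_mod_cast hn.1
    rw [norm_mul, norm_mul, norm_mul]
    have e1 : ‖(n : ℂ) ^ (-(1 / 2) : ℂ)‖ = (n : ℝ) ^ (-(1 / 2) : ℝ) := by
      rw [Complex.norm_natCast_cpow_of_pos hn0]
      congr 1
      norm_num
    have e2 : ‖(x : ℂ) ^ (3 / 2 : ℂ)‖ = x ^ (3 / 2 : ℝ) := by
      rw [Complex.norm_cpow_eq_rpow_re_of_pos hx]
      congr 1
      norm_num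
    have e3 : ‖F.blk k n‖ ≤ |C2| * (n : ℝ) ^ (1 / 16 : ℝ) :=
      ((pc_blk F k).2 n).trans ((hC2 n hn0).trans
        (mul_le_mul_of_nonneg_right (le_abs_self _) (by positivity)))
    have e4 := h1 V Y ((n : ℝ) * x) hV hVY (by positivity)
    have e5 : ‖F.blk k n‖ * (n : ℝ) ^ (-(1 / 2) : ℝ) ≤
        (|C2| + 1) * ((2 : ℝ) ^ k) ^ (1 / 16 - 1 / 2 : ℝ) := by
      calc ‖F.blk k n‖ * (n : ℝ) ^ (-(1 / 2) : ℝ)
          ≤ |C2| * (n : ℝ) ^ (1 / 16 : ℝ) * (n : ℝ) ^ (-(1 / 2) : ℝ) := by gcongr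
        _ = |C2| * (n : ℝ) ^ (1 / 16 - 1 / 2 : ℝ) := by
            rw [mul_assoc, ← Real.rpow_add hn']
            congr 2
        _ ≤ |C2| * ((2 : ℝ) ^ k) ^ (1 / 16 - 1 / 2 : ℝ) := by
            apply mul_le_mul_of_nonneg_left _ (abs_nonneg _)
            exact Real.rpow_le_rpow_of_nonpos hN hnN (by norm_num)
        _ ≤ _ := by
            apply mul_le_mul_of_nonneg_right _ (by positivity)
            linarith
    rw [e1, e2]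
    have e6 : ‖F.blk k n‖ * (n : ℝ) ^ (-(1 / 2) : ℝ) * x ^ (3 / 2 : ℝ) ≤
        (|C2| + 1) * ((2 : ℝ) ^ k) ^ (1 / 16 - 1 / 2 : ℝ) * x ^ (3 / 2 : ℝ) :=
      mul_le_mul_of_nonneg_right e5 (by positivity)
    exact mul_le_mul e6 e4 (norm_nonneg _) (by positivity)
  have hsum := (norm_sum_le _ _).trans (Finset.sum_le_sum hterm)
  rw [Finset.sum_const, Nat.card_Ico, show 2 ^ (k + 1) - 2 ^ k = 2 ^ k by rw [pow_succ]; omega,
    nsmul_eq_mul, show ((2 ^ k : ℕ) : ℝ) = (2 : ℝ) ^ k by push_cast; rfl] at hsum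
  refine (mul_le_mul hpi hsum (norm_nonneg _) zero_le_one).trans ?_
  rw [one_mul]
  apply le_of_eq
  have e7 : (2 : ℝ) ^ k * ((2 : ℝ) ^ k) ^ (1 / 16 - 1 / 2 : ℝ) =
      ((2 : ℝ) ^ k) ^ (1 / 2 + 1 / 16 : ℝ) := by
    rw [← Real.rpow_one_add' hN.le (by norm_num)]
    congr 1
    norm_num
  calc (2 : ℝ) ^ k * ((|C2| + 1) * ((2 : ℝ) ^ k) ^ (1 / 16 - 1 / 2 : ℝ) * x ^ (3 / 2 : ℝ) *
          (C1 * V ^ (-3 / 2 + δ)))
      = (|C2| + 1) * C1 * (((2 : ℝ) ^ k * ((2 : ℝ) ^ k) ^ (1 / 16 - 1 / 2 : ℝ)) *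
          x ^ (3 / 2 : ℝ) * V ^ (-3 / 2 + δ)) := by ring
    _ = _ := by rw [e7]

end DAD
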