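import Pool.Agent.DAD.Phs
import Pool.Agent.DAD.Prm
import Pool.Agent.DAD.Fp1D

set_option autoImplicit false

/-!
# DAD/Fp1: the primitive of the error term of degree 2 is `≪ x^(3/4+ε)`

Plan (compare HYM/Defs `low`, `high` and HYM/Dec). `F.EV Y x - F.L 0 = vint (-η) (F.full η Y) x` (`EV_left`),
`F.full η Y t = chi(s)/s * dsum F.cf s * exp (s²/Y²)`, `s = ln (-η) t`,
`dsum F.cf = ∑_{k<K} dsum (F.blk k) + dsum (F.tl K)` (`dsum_split`).
For the block `k` let `V_k = (2^k X)^(1/2-e/3)`; `K` is the first `k` with `V_k ≥ Y`, so that `V_k < Y`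
for the blocks `k < K`. Split `exp (s²/Y²) = exp (s²/V_k²) + (exp (s²/Y²) - exp (s²/V_k²))`.
Low part and tail: line `Re s = -A` (`Fp1B`); high part: line `Re s = 1/2` (`Fp1C`, `Fp1D`, `Fp1A`).
-/

open Complex MeasureTheory

namespace DAD

open HYM

private theorem low_num {e A X P : ℝ} (he : 0 < e) (hA : A = 3 / (2 * e) + 1) (hX : 1 ≤ X)
    (hP : 1 ≤ P) :
    X ^ (1 - A) * (P ^ (1 / 16 - A) * ((P * X) ^ (1 / 2 - e / 3)) ^ (2 * A)) ≤
      P ^ (-(1 / 8) : ℝ) := by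
  have hX0 : 0 < X := by linarith
  have hP0 : 0 < P := by linarith
  have hab : (1 / 2 - e / 3) * (2 * A) = A - 1 - 2 * e / 3 := by
    rw [hA]
    field_simp
    ring
  rw [← Real.rpow_mul (by positivity), hab, Real.mul_rpow hP0.le hX0.le]
  have e1 : X ^ (1 - A) * (P ^ (1 / 16 - A) * (P ^ (A - 1 - 2 * e / 3) * X ^ (A - 1 - 2 * e / 3))) =
      P ^ (1 / 16 - 1 - 2 * e / 3) * X ^ (-(2 * e / 3)) := by
    have f1 : X ^ (1 - A) * X ^ (A - 1 - 2 * e / 3) = X ^ (-(2 * e / 3)) := by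
      rw [← Real.rpow_add hX0]
      congr 1
      ring
    have f2 : P ^ (1 / 16 - A) * P ^ (A - 1 - 2 * e / 3) = P ^ (1 / 16 - 1 - 2 * e / 3) := by
      rw [← Real.rpow_add hP0]
      congr 1
      ring
    rw [← f1, ← f2]
    ring
  rw [e1]
  have e2 : X ^ (-(2 * e / 3)) ≤ 1 := Real.rpow_le_one_of_one_le_of_nonpos hX (by linarith)
  have e3 : P ^ (1 / 16 - 1 - 2 * e / 3) ≤ P ^ (-(1 / 8) : ℝ) :=
    Real.rpow_le_rpow_of_exponent_le hP (by linarith)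
  calc P ^ (1 / 16 - 1 - 2 * e / 3) * X ^ (-(2 * e / 3)) ≤ P ^ (-(1 / 8) : ℝ) * 1 :=
        mul_le_mul e3 e2 (by positivity) (by positivity)
    _ = _ := mul_one _

private theorem high_num {e X P : ℝ} (he : 0 < e) (he1 : e ≤ 1 / 16) (hX : 1 ≤ X) (hP : 1 ≤ P) :
    P ^ (1 / 2 + 1 / 16 : ℝ) * X ^ (3 / 2 : ℝ) * ((P * X) ^ (1 / 2 - e / 3)) ^ (-3 / 2 + e) ≤
      P ^ (-(1 / 8) : ℝ) * X ^ (3 / 4 + e) := by
  have hX0 : 0 < X := by linarith
  have hP0 : 0 < P := by linarith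
  have hab : (1 / 2 - e / 3) * (-3 / 2 + e) = -3 / 4 + e - e ^ 2 / 3 := by ring
  rw [← Real.rpow_mul (by positivity), hab, Real.mul_rpow hP0.le hX0.le]
  have f1 : X ^ (3 / 2 : ℝ) * X ^ (-3 / 4 + e - e ^ 2 / 3) ≤ X ^ (3 / 4 + e) := by
    rw [← Real.rpow_add hX0]
    apply Real.rpow_le_rpow_of_exponent_le hX
    nlinarith [sq_nonneg e]
  have f2 : P ^ (1 / 2 + 1 / 16 : ℝ) * P ^ (-3 / 4 + e - e ^ 2 / 3) ≤ P ^ (-(1 / 8) : ℝ) := by
    rw [← Real.rpow_add hP0]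
    apply Real.rpow_le_rpow_of_exponent_le hP
    nlinarith [sq_nonneg e]
  calc P ^ (1 / 2 + 1 / 16 : ℝ) * X ^ (3 / 2 : ℝ) *
        (P ^ (-3 / 4 + e - e ^ 2 / 3) * X ^ (-3 / 4 + e - e ^ 2 / 3))
      = (P ^ (1 / 2 + 1 / 16 : ℝ) * P ^ (-3 / 4 + e - e ^ 2 / 3)) *
          (X ^ (3 / 2 : ℝ) * X ^ (-3 / 4 + e - e ^ 2 / 3)) := by ring
    _ ≤ _ := mul_le_mul f2 f1 (by positivity) (by positivity)

private theorem geo (k : ℕ) : ((2 : ℝ) ^ k) ^ (-(1 / 8) : ℝ) = ((2 : ℝ) ^ (-(1 / 8) : ℝ)) ^ k := by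
  rw [← Real.rpow_natCast, ← Real.rpow_mul (by norm_num), mul_comm, Real.rpow_mul (by norm_num),
    Real.rpow_natCast]

private theorem geo_sum (K : ℕ) : ∑ k ∈ Finset.range K, ((2 : ℝ) ^ k) ^ (-(1 / 8) : ℝ) ≤
    (1 - (2 : ℝ) ^ (-(1 / 8) : ℝ))⁻¹ := by
  have h1 : (2 : ℝ) ^ (-(1 / 8) : ℝ) < 1 :=
    Real.rpow_lt_one_of_one_lt_of_neg (by norm_num) (by norm_num)
  have h0 : 0 ≤ (2 : ℝ) ^ (-(1 / 8) : ℝ) := by positivity
  simp_rw [geo]
  rw [← tsum_geometric_of_lt_one h0 h1]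
  exact (summable_geometric_of_lt_one h0 h1).sum_le_tsum _ fun _ _ => by positivity

theorem F_prim (F : Sel) (hF : F.deg = 2) {ε : ℝ} (hε : 0 < ε) : ∃ C : ℝ, 0 < C ∧
    ∀ X Y : ℝ, 1 ≤ X → X ≤ Y → Y ≤ X ^ 10 → ∃ Gp : ℝ → ℂ,
      (∀ a b : ℝ, X ≤ a → a ≤ b → b ≤ 16 * X →
        ∫ x in a..b, (F.EV Y x - F.L 0) = Gp b - Gp a) ∧
      ∀ x : ℝ, X ≤ x → x ≤ 16 * X → ‖Gp x‖ ≤ C * X ^ (3 / 4 + ε) := by
  obtain ⟨e, he0, heε, he16⟩ : ∃ e : ℝ, 0 < e ∧ e ≤ ε ∧ e ≤ 1 / 16 :=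
    ⟨min ε (1 / 16), lt_min hε (by norm_num), min_le_left _ _, min_le_right _ _⟩
  set A : ℝ := 3 / (2 * e) + 1 with hAdef
  have hA1 : 1 < A := by
    have : 0 < 3 / (2 * e) := by positivity
    linarith
  obtain ⟨C1, hC1, h1⟩ := lk_line F (A := A) (by linarith)
  obtain ⟨C2, hC2, h2⟩ := hk_prim_bd F (by rw [hF]; norm_num) he0 (by linarith)
  set S : ℝ := (1 - (2 : ℝ) ^ (-(1 / 8) : ℝ))⁻¹ with hS
  have hSnn : 0 ≤ S := by
    have h5 : (2 : ℝ) ^ (-(1 / 8) : ℝ) < 1 :=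
      Real.rpow_lt_one_of_one_lt_of_neg (by norm_num) (by norm_num)
    exact inv_nonneg.2 (by linarith)
  refine ⟨C1 * S + C1 + C2 * 64 * S, by positivity, ?_⟩
  intro X Y hX hXY _
  have hX0 : 0 < X := by linarith
  have hY1 : 1 ≤ Y := hX.trans hXY
  set V : ℕ → ℝ := fun k => ((2 : ℝ) ^ k * X) ^ (1 / 2 - e / 3) with hVdef
  have h2k : ∀ k : ℕ, (1 : ℝ) ≤ 2 ^ k := fun k => one_le_pow₀ (by norm_num)
  have hpX : ∀ k : ℕ, 1 ≤ (2 : ℝ) ^ k * X := fun k => one_le_mul_of_one_le_of_one_le (h2k k) hX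
  have hV1 : ∀ k, 1 ≤ V k := fun k => Real.one_le_rpow (hpX k) (by linarith)
  have hex : ∃ K, Y ≤ V K := by
    have ht : Filter.Tendsto V Filter.atTop Filter.atTop := by
      apply (tendsto_rpow_atTop (show 0 < 1 / 2 - e / 3 by linarith)).comp
      exact (tendsto_pow_atTop_atTop_of_one_lt (by norm_num : (1 : ℝ) < 2)).atTop_mul_const hX0
    exact (ht.eventually (Filter.eventually_ge_atTop Y)).exists
  classical
  obtain ⟨K, hK, hKlt⟩ : ∃ K, Y ≤ V K ∧ ∀ k, k < K → V k < Y :=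
    ⟨Nat.find hex, Nat.find_spec hex, fun k hk => not_le.1 (Nat.find_min hex hk)⟩
  have hne : (-A + 1 : ℝ) ≠ 0 := by linarith
  have hne2 : (1 / 2 + 1 : ℝ) ≠ 0 := by norm_num
  refine ⟨fun x =>
      (∑ k ∈ Finset.range K,
        vint (-A + 1) (fun t => lk F (V k) (F.blk k) (ln (-A) t) / ln (-A + 1) t) x) +
      vint (-A + 1) (fun t => lk F Y (F.tl K) (ln (-A) t) / ln (-A + 1) t) x +
      ∑ k ∈ Finset.range K,
        vint (1 / 2 + 1) (fun t => hk F (V k) Y (F.blk k) (ln (1 / 2) t) / ln (1 / 2 + 1) t) x,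
    ?_, ?_⟩
  · intro a b ha hab hb
    have ha0 : 0 < a := by linarith
    have hi1 : ∀ k, Integrable (fun t : ℝ => lk F (V k) (F.blk k) (ln (-A) t)) := fun k =>
      (h1 k _ (pc_blk F k) (V k) (hV1 k)).1
    have hi2 : Integrable (fun t : ℝ => lk F Y (F.tl K) (ln (-A) t)) :=
      (h1 K _ (pc_tl F K) Y hY1).1
    have hi3 : ∀ k, Integrable (fun t : ℝ => hk F (V k) Y (F.blk k) (ln (1 / 2) t)) := fun k =>
      hk_line_int F (hV1 k) hY1 k (by norm_num) le_rfl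
    have hii : ∀ (c : ℝ) (L : ℝ → ℂ), Integrable L → IntervalIntegrable (vint c L) volume a b := by
      intro c L hL
      apply ContinuousOn.intervalIntegrable
      refine (vint_continuousOn hL).mono fun x hx => ?_
      rw [Set.uIcc_of_le hab] at hx
      exact lt_of_lt_of_le ha0 hx.1
    rw [intervalIntegral.integral_congr (g := fun x =>
      (∑ k ∈ Finset.range K, vint (-A) (fun t => lk F (V k) (F.blk k) (ln (-A) t)) x) +
      vint (-A) (fun t => lk F Y (F.tl K) (ln (-A) t)) x +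
      ∑ k ∈ Finset.range K, vint (1 / 2) (fun t => hk F (V k) Y (F.blk k) (ln (1 / 2) t)) x)
      (fun x hx => by
        rw [Set.uIcc_of_le hab] at hx
        exact dec_gen F (by linarith) hY1 (lt_of_lt_of_le ha0 hx.1) K V hV1)]
    have hs1 : IntervalIntegrable (fun x => ∑ k ∈ Finset.range K,
        vint (-A) (fun t => lk F (V k) (F.blk k) (ln (-A) t)) x) volume a b := by
      have := IntervalIntegrable.sum (μ := volume) (a := a) (b := b) (Finset.range K)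
        (f := fun k x => vint (-A) (fun t => lk F (V k) (F.blk k) (ln (-A) t)) x)
        (fun k _ => hii _ _ (hi1 k))
      simpa [Finset.sum_fn] using this
    have hs3 : IntervalIntegrable (fun x => ∑ k ∈ Finset.range K,
        vint (1 / 2) (fun t => hk F (V k) Y (F.blk k) (ln (1 / 2) t)) x) volume a b := by
      have := IntervalIntegrable.sum (μ := volume) (a := a) (b := b) (Finset.range K)
        (f := fun k x => vint (1 / 2) (fun t => hk F (V k) Y (F.blk k) (ln (1 / 2) t)) x)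
        (fun k _ => hii _ _ (hi3 k))
      simpa [Finset.sum_fn] using this
    rw [intervalIntegral.integral_add (hs1.add (hii _ _ hi2)) hs3,
      intervalIntegral.integral_add hs1 (hii _ _ hi2),
      intervalIntegral.integral_finset_sum fun k _ => hii _ _ (hi1 k),
      intervalIntegral.integral_finset_sum fun k _ => hii _ _ (hi3 k),
      vint_prim hne hi2 ha0 hab,
      Finset.sum_congr rfl fun k _ => vint_prim hne (hi1 k) ha0 hab,
      Finset.sum_congr rfl fun k _ => vint_prim hne2 (hi3 k) ha0 hab,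
      Finset.sum_sub_distrib, Finset.sum_sub_distrib]
    ring
  · intro x hx1 hx2
    have hx0 : 0 < x := by linarith
    have hXp : 1 ≤ X ^ (3 / 4 + e) := Real.one_le_rpow hX (by linarith)
    have hxA : x ^ (-A + 1) ≤ X ^ (1 - A) := by
      rw [show -A + 1 = 1 - A by ring]
      exact Real.rpow_le_rpow_of_nonpos hX0 hx1 (by linarith)
    have hlow : ∀ (k : ℕ) (a : ℕ → ℂ) (W : ℝ), Pc F k a → 1 ≤ W → W ≤ V k →
        ‖vint (-A + 1) (fun t => lk F W a (ln (-A) t) / ln (-A + 1) t) x‖ ≤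
          C1 * ((2 : ℝ) ^ k) ^ (-(1 / 8) : ℝ) := by
      intro k a W ha hW hWV
      refine (vint_norm_le hx0).trans ?_
      have h3 := (h1 k a ha W hW).2 hF hA1
      rw [show (1 : ℝ) - A = -A + 1 by ring] at h3
      have h4 : W ^ (2 * A) ≤ (V k) ^ (2 * A) := Real.rpow_le_rpow (by linarith) hWV (by linarith)
      calc x ^ (-A + 1) * ∫ t : ℝ, ‖lk F W a (ln (-A) t) / ln (-A + 1) t‖
          ≤ X ^ (1 - A) * (C1 * ((2 : ℝ) ^ k) ^ (1 / 16 - A) * W ^ (2 * A)) :=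
            mul_le_mul hxA h3 (integral_nonneg fun t => norm_nonneg _) (by positivity)
        _ ≤ X ^ (1 - A) * (C1 * ((2 : ℝ) ^ k) ^ (1 / 16 - A) * (V k) ^ (2 * A)) := by gcongr
        _ = C1 * (X ^ (1 - A) * (((2 : ℝ) ^ k) ^ (1 / 16 - A) *
              (((2 : ℝ) ^ k * X) ^ (1 / 2 - e / 3)) ^ (2 * A))) := by
            rw [hVdef]
            ring
        _ ≤ _ := mul_le_mul_of_nonneg_left (low_num he0 hAdef hX (h2k k)) hC1.le
    have hhigh : ∀ k, k < K →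
        ‖vint (1 / 2 + 1) (fun t => hk F (V k) Y (F.blk k) (ln (1 / 2) t) / ln (1 / 2 + 1) t) x‖ ≤
          C2 * 64 * X ^ (3 / 4 + e) * ((2 : ℝ) ^ k) ^ (-(1 / 8) : ℝ) := by
      intro k hk
      have h3 := h2 k (V k) Y x (hV1 k) (hKlt k hk).le hx0
      rw [show (3 / 2 : ℝ) = 1 / 2 + 1 by norm_num] at h3
      have h5 : x ^ (1 / 2 + 1 : ℝ) ≤ 64 * X ^ (3 / 2 : ℝ) := by
        rw [show (1 / 2 + 1 : ℝ) = 3 / 2 by norm_num]
        calc x ^ (3 / 2 : ℝ) ≤ (16 * X) ^ (3 / 2 : ℝ) :=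
              Real.rpow_le_rpow hx0.le hx2 (by norm_num)
          _ = 64 * X ^ (3 / 2 : ℝ) := by
              rw [Real.mul_rpow (by norm_num) hX0.le]
              congr 1
              rw [show (16 : ℝ) = 4 ^ (2 : ℝ) by norm_num, ← Real.rpow_mul (by norm_num)]
              norm_num
      have hVp : 0 < V k := lt_of_lt_of_le one_pos (hV1 k)
      refine h3.trans ?_
      have h6 := high_num he0 he16 hX (h2k k)
      calc C2 * (((2 : ℝ) ^ k) ^ (1 / 2 + 1 / 16 : ℝ) * x ^ (1 / 2 + 1 : ℝ) *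
            (V k) ^ (-3 / 2 + e))
          ≤ C2 * (((2 : ℝ) ^ k) ^ (1 / 2 + 1 / 16 : ℝ) * (64 * X ^ (3 / 2 : ℝ)) *
            (V k) ^ (-3 / 2 + e)) := by gcongr
        _ = C2 * 64 * (((2 : ℝ) ^ k) ^ (1 / 2 + 1 / 16 : ℝ) * X ^ (3 / 2 : ℝ) *
            (((2 : ℝ) ^ k * X) ^ (1 / 2 - e / 3)) ^ (-3 / 2 + e)) := by
            rw [hVdef]
            ring
        _ ≤ C2 * 64 * (((2 : ℝ) ^ k) ^ (-(1 / 8) : ℝ) * X ^ (3 / 4 + e)) :=
            mul_le_mul_of_nonneg_left h6 (by positivity)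
        _ = _ := by ring
    have hb1 : ‖∑ k ∈ Finset.range K,
        vint (-A + 1) (fun t => lk F (V k) (F.blk k) (ln (-A) t) / ln (-A + 1) t) x‖ ≤ C1 * S := by
      refine (norm_sum_le _ _).trans ?_
      refine (Finset.sum_le_sum fun k _ => hlow k _ (V k) (pc_blk F k) (hV1 k) le_rfl).trans ?_
      rw [← Finset.mul_sum]
      exact mul_le_mul_of_nonneg_left (geo_sum K) hC1.le
    have hb2 : ‖vint (-A + 1) (fun t => lk F Y (F.tl K) (ln (-A) t) / ln (-A + 1) t) x‖ ≤ C1 := by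
      refine (hlow K _ Y (pc_tl F K) hY1 hK).trans ?_
      have : ((2 : ℝ) ^ K) ^ (-(1 / 8) : ℝ) ≤ 1 :=
        Real.rpow_le_one_of_one_le_of_nonpos (h2k K) (by norm_num)
      nlinarith
    have hb3 : ‖∑ k ∈ Finset.range K,
        vint (1 / 2 + 1) (fun t => hk F (V k) Y (F.blk k) (ln (1 / 2) t) / ln (1 / 2 + 1) t) x‖ ≤
          C2 * 64 * X ^ (3 / 4 + e) * S := by
      refine (norm_sum_le _ _).trans ?_
      refine (Finset.sum_le_sum fun k hk => hhigh k (Finset.mem_range.1 hk)).trans ?_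
      rw [← Finset.mul_sum]
      exact mul_le_mul_of_nonneg_left (geo_sum K) (by positivity)
    have hXe : X ^ (3 / 4 + e) ≤ X ^ (3 / 4 + ε) :=
      Real.rpow_le_rpow_of_exponent_le hX (by linarith)
    calc _ ≤ C1 * S + C1 + C2 * 64 * X ^ (3 / 4 + e) * S :=
          (norm_add₃_le).trans (add_le_add (add_le_add hb1 hb2) hb3)
      _ ≤ (C1 * S + C1 + C2 * 64 * S) * X ^ (3 / 4 + e) := by
          nlinarith [mul_nonneg hC1.le hSnn, mul_nonneg (mul_nonneg hC2.le hSnn) (by linarith : (0:ℝ) ≤ X ^ (3/4+e))]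
      _ ≤ _ := mul_le_mul_of_nonneg_left hXe (by positivity)

end DAD
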