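import Pool.Agent.DAD.Phs

set_option autoImplicit false

/-!
# DAD/Fp1A: the kernel of the high part

`g t = (exp (s²/Y²) - exp (s²/V²)) / (s (s+1))`, `s = 1/2 + it`. With `chi_osc`, `Φ(t) = ∫_0^t chi y^(iu) du`,
`‖Φ t‖ ≤ C √(1+|t|)`, partial integration over the line: `≤ C ∫ ‖g'‖ √(1+|t|)`, and POINTWISE
`‖g' t‖ √(1+|t|) ≤ C V^(-3/2+δ) (1+|t|)^(-1-δ)`:
`g' = i (2s/Y² e^(s²/Y²) - 2s/V² e^(s²/V²)) / (s(s+1)) - i (e^(s²/Y²) - e^(s²/V²)) (2s+1)/(s(s+1))²`;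
first term: `e^(-t²/V²) ≤ C (V/(1+|t|))^(1/2+δ)` (V ≥ 1), the same for `Y`; second term:
`‖e^(s²/Y²) - e^(s²/V²)‖ ≤ C min(1, ‖s‖²/V²) ≤ C (‖s‖²/V²)^(3/4-δ/2)`.
-/

open Complex MeasureTheory

namespace DAD

open HYM

/-- The kernel of the high part. -/
noncomputable def gk (V Y t : ℝ) : ℂ :=
  (cexp ((ln (1 / 2) t) ^ 2 / (Y : ℂ) ^ 2) - cexp ((ln (1 / 2) t) ^ 2 / (V : ℂ) ^ 2)) /
    (ln (1 / 2) t * ln (3 / 2) t)

/-- Its derivative. -/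
private noncomputable def gd (V Y t : ℝ) : ℂ :=
  (2 * ln (1 / 2) t * I / (Y : ℂ) ^ 2 * cexp ((ln (1 / 2) t) ^ 2 / (Y : ℂ) ^ 2) -
    2 * ln (1 / 2) t * I / (V : ℂ) ^ 2 * cexp ((ln (1 / 2) t) ^ 2 / (V : ℂ) ^ 2)) /
      (ln (1 / 2) t * ln (3 / 2) t) -
    (cexp ((ln (1 / 2) t) ^ 2 / (Y : ℂ) ^ 2) - cexp ((ln (1 / 2) t) ^ 2 / (V : ℂ) ^ 2)) *
      (I * (ln (1 / 2) t + ln (3 / 2) t)) / (ln (1 / 2) t * ln (3 / 2) t) ^ 2

private theorem ln_hd (c t : ℝ) : HasDerivAt (fun t : ℝ => ln c t) I t := by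
  have h : HasDerivAt (fun t : ℝ => ((t : ℝ) : ℂ)) 1 t := by
    have := (hasDerivAt_id t).ofReal_comp
    simpa using this
  have h2 := (h.mul_const I).const_add (c : ℂ)
  rw [one_mul] at h2
  exact h2

private theorem le_nrm (c t : ℝ) (hc : 1 / 2 ≤ c) : 1 + |t| ≤ 3 * ‖ln c t‖ := by
  have h1 := Complex.abs_re_le_norm (ln c t)
  have h2 := Complex.abs_im_le_norm (ln c t)
  rw [ln_re] at h1
  rw [ln_im] at h2
  have h3 := le_abs_self c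
  linarith

private theorem nrm_le (t : ℝ) : ‖ln (1 / 2) t‖ ≤ 1 + |t| := by
  have h := Complex.norm_le_abs_re_add_abs_im (ln (1 / 2) t)
  rw [ln_re, ln_im, abs_of_pos (by norm_num : (0 : ℝ) < 1 / 2)] at h
  linarith

private theorem ln_ne (c t : ℝ) (hc : 1 / 2 ≤ c) : ln c t ≠ 0 := by
  intro h
  have h1 := le_nrm c t hc
  rw [h, norm_zero] at h1
  have := abs_nonneg t
  linarith

private theorem gk_hd (V Y t : ℝ) : HasDerivAt (gk V Y) (gd V Y t) t := by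
  have hs := ln_hd (1 / 2) t
  have hr := ln_hd (3 / 2) t
  have h1 : ∀ Z : ℝ, HasDerivAt (fun t : ℝ => (ln (1 / 2) t) ^ 2 / (Z : ℂ) ^ 2)
      (2 * ln (1 / 2) t * I / (Z : ℂ) ^ 2) t := by
    intro Z
    have h := (hs.pow 2).div_const ((Z : ℂ) ^ 2)
    refine h.congr_deriv ?_
    simp
  have hne : ln (1 / 2) t * ln (3 / 2) t ≠ 0 :=
    mul_ne_zero (ln_ne _ _ le_rfl) (ln_ne _ _ (by norm_num))
  have h := ((h1 Y).cexp.sub (h1 V).cexp).div (hs.mul hr) hne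
  refine h.congr_deriv ?_
  have e1 := ln_ne (1 / 2) t le_rfl
  have e2 := ln_ne (3 / 2) t (by norm_num)
  unfold gd
  simp only [Pi.mul_apply, Pi.sub_apply]
  field_simp
  ring

private theorem ln_cont (c : ℝ) : Continuous (fun t : ℝ => ln c t) := by
  unfold ln; fun_prop

private theorem gk_cont (V Y : ℝ) : Continuous (gk V Y) :=
  continuous_iff_continuousAt.2 fun t => (gk_hd V Y t).continuousAt

private theorem gd_cont (V Y : ℝ) : Continuous (gd V Y) := by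
  have h1 := ln_cont (1 / 2)
  have h2 := ln_cont (3 / 2)
  have hne : ∀ t, ln (1 / 2) t * ln (3 / 2) t ≠ 0 := fun t =>
    mul_ne_zero (ln_ne _ _ le_rfl) (ln_ne _ _ (by norm_num))
  have he : ∀ Z : ℝ, Continuous (fun t : ℝ => cexp ((ln (1 / 2) t) ^ 2 / (Z : ℂ) ^ 2)) :=
    fun Z => Complex.continuous_exp.comp ((h1.pow 2).div_const _)
  unfold gd
  apply Continuous.sub
  · apply Continuous.div _ (h1.mul h2) hne
    exact (((continuous_const.mul h1).mul continuous_const).div_const _).mul (he Y) |>.sub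
      ((((continuous_const.mul h1).mul continuous_const).div_const _).mul (he V))
  · apply Continuous.div _ ((h1.mul h2).pow 2) (fun t => pow_ne_zero 2 (hne t))
    exact ((he Y).sub (he V)).mul (continuous_const.mul (h1.add h2))

private theorem nrm_exp (Z t : ℝ) (hZ : 1 ≤ Z) :
    ‖cexp ((ln (1 / 2) t) ^ 2 / (Z : ℂ) ^ 2)‖ = Real.exp ((1 / 4 - t ^ 2) / Z ^ 2) := by
  rw [Complex.norm_exp]
  congr 1
  have e : (ln (1 / 2) t) ^ 2 / (Z : ℂ) ^ 2 = (((1 / 4 - t ^ 2) / Z ^ 2 : ℝ) : ℂ) +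
      ((t / Z ^ 2 : ℝ) : ℂ) * I := by
    unfold ln
    push_cast
    have hz : (Z : ℂ) ≠ 0 := by
      have : Z ≠ 0 := by linarith
      exact_mod_cast this
    field_simp
    ring_nf
    rw [Complex.I_sq]
    ring
  rw [e, Complex.add_re, Complex.ofReal_re, Complex.mul_re, Complex.ofReal_re, Complex.ofReal_im,
    Complex.I_re, Complex.I_im]
  ring

private theorem exp_small : Real.exp (5 / 4) ≤ 4 := by
  have h : Real.exp (5 / 4) = (Real.exp 1) * Real.exp (1 / 4) := by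
    rw [← Real.exp_add]; norm_num
  have h1 := Real.exp_one_lt_d9
  have h2 : Real.exp (1 / 4) ≤ 1 / (1 - 1 / 4) := by
    have := Real.add_one_le_exp (-(1 / 4 : ℝ))
    have h3 : Real.exp (1 / 4) * Real.exp (-(1 / 4)) = 1 := by
      rw [← Real.exp_add]; norm_num
    have h4 := Real.exp_pos (1 / 4)
    rw [le_div_iff₀ (by norm_num)]
    nlinarith
  rw [h]
  have h3 := Real.exp_pos (1 / 4)
  have h4 := Real.exp_pos 1
  nlinarith

private theorem exp_le (Z t p : ℝ) (hZ : 1 ≤ Z) (hp : 0 ≤ p) (hp2 : p ≤ 2) :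
    Real.exp ((1 / 4 - t ^ 2) / Z ^ 2) ≤ 8 * ((1 + |t|) / Z) ^ (-p) := by
  set u : ℝ := (1 + |t|) / Z with hu
  have hu0 : 0 < u := by positivity
  have hZ2 : 1 ≤ Z ^ 2 := by nlinarith
  have h1 : (1 / 4 - t ^ 2) / Z ^ 2 ≤ 5 / 4 - u ^ 2 / 2 := by
    have e : u ^ 2 = (1 + |t|) ^ 2 / Z ^ 2 := by rw [hu, div_pow]
    rw [e]
    have h2 : (1 + |t|) ^ 2 ≤ 2 + 2 * t ^ 2 := by
      have := sq_abs t
      nlinarith [sq_nonneg (1 - |t|)]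
    have h3 : (1 / 4 - t ^ 2) / Z ^ 2 ≤ (5 / 4 - (1 + |t|) ^ 2 / 2) / Z ^ 2 := by
      apply div_le_div_of_nonneg_right _ (by positivity)
      linarith
    have h4 : (5 / 4 - (1 + |t|) ^ 2 / 2) / Z ^ 2 = 5 / 4 / Z ^ 2 - (1 + |t|) ^ 2 / Z ^ 2 / 2 := by
      ring
    have h5 : 5 / 4 / Z ^ 2 ≤ 5 / 4 := by
      apply div_le_self (by norm_num) hZ2
    linarith
  have h2 : Real.exp (-(u ^ 2 / 2)) ≤ 2 * u ^ (-p) := by
    rcases le_or_gt u 1 with h | h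
    · have h3 : 1 ≤ u ^ (-p) := Real.one_le_rpow_of_pos_of_le_one_of_nonpos hu0 h (by linarith)
      have h4 : Real.exp (-(u ^ 2 / 2)) ≤ 1 := Real.exp_le_one_iff.2 (by nlinarith [sq_nonneg u])
      linarith
    · have h3 : Real.exp (-(u ^ 2 / 2)) ≤ 2 * (u ^ 2)⁻¹ := by
        rw [Real.exp_neg]
        have h4 := Real.add_one_le_exp (u ^ 2 / 2)
        have h5 : (Real.exp (u ^ 2 / 2))⁻¹ ≤ (u ^ 2 / 2)⁻¹ := by
          apply inv_anti₀ (by positivity)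
          linarith
        have h6 : (u ^ 2 / 2)⁻¹ = 2 * (u ^ 2)⁻¹ := by
          field_simp
        linarith
      have h4 : (u ^ 2)⁻¹ ≤ u ^ (-p) := by
        have e : (u ^ 2)⁻¹ = u ^ (-(2 : ℝ)) := by
          rw [Real.rpow_neg hu0.le]; norm_cast
        rw [e]
        exact Real.rpow_le_rpow_of_exponent_le h.le (by linarith)
      linarith
  calc Real.exp ((1 / 4 - t ^ 2) / Z ^ 2) ≤ Real.exp (5 / 4 + -(u ^ 2 / 2)) :=
        Real.exp_le_exp.2 (by linarith)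
    _ = Real.exp (5 / 4) * Real.exp (-(u ^ 2 / 2)) := Real.exp_add _ _
    _ ≤ 4 * (2 * u ^ (-p)) := mul_le_mul exp_small h2 (Real.exp_pos _).le (by norm_num)
    _ = 8 * u ^ (-p) := by ring

private theorem exp_le_two (Z t : ℝ) (hZ : 1 ≤ Z) : Real.exp ((1 / 4 - t ^ 2) / Z ^ 2) ≤ 2 := by
  have h1 : (1 / 4 - t ^ 2) / Z ^ 2 ≤ 1 / 4 := by
    rw [div_le_iff₀ (by positivity)]
    nlinarith [sq_nonneg t]
  have h2 : Real.exp (1 / 4) ≤ 2 := by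
    have := Real.add_one_le_exp (-(1 / 4 : ℝ))
    have h3 : Real.exp (1 / 4) * Real.exp (-(1 / 4)) = 1 := by
      rw [← Real.exp_add]; norm_num
    have h4 := Real.exp_pos (1 / 4)
    nlinarith
  exact (Real.exp_le_exp.2 h1).trans h2

private theorem diff_le (V Y t : ℝ) (hV : 1 ≤ V) (hY : V ≤ Y) :
    ‖cexp ((ln (1 / 2) t) ^ 2 / (Y : ℂ) ^ 2) - cexp ((ln (1 / 2) t) ^ 2 / (V : ℂ) ^ 2)‖ ≤
      4 * min 1 (‖ln (1 / 2) t‖ ^ 2 / V ^ 2) := by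
  have hY1 : 1 ≤ Y := hV.trans hY
  have hb : ‖cexp ((ln (1 / 2) t) ^ 2 / (Y : ℂ) ^ 2) -
      cexp ((ln (1 / 2) t) ^ 2 / (V : ℂ) ^ 2)‖ ≤ 4 := by
    have h := norm_sub_le (cexp ((ln (1 / 2) t) ^ 2 / (Y : ℂ) ^ 2))
      (cexp ((ln (1 / 2) t) ^ 2 / (V : ℂ) ^ 2))
    rw [nrm_exp _ _ hV, nrm_exp _ _ hY1] at h
    have h1 := exp_le_two V t hV
    have h2 := exp_le_two Y t hY1
    linarith
  rcases le_or_gt 1 (‖ln (1 / 2) t‖ ^ 2 / V ^ 2) with h | h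
  · rw [min_eq_left h]; linarith
  · rw [min_eq_right h.le]
    have nn : ∀ Z : ℝ, 1 ≤ Z → ‖(ln (1 / 2) t) ^ 2 / (Z : ℂ) ^ 2‖ =
        ‖ln (1 / 2) t‖ ^ 2 / Z ^ 2 := by
      intro Z hZ
      rw [norm_div, norm_pow, norm_pow, Complex.norm_real, Real.norm_eq_abs,
        abs_of_pos (by linarith)]
    have hYV : ‖ln (1 / 2) t‖ ^ 2 / Y ^ 2 ≤ ‖ln (1 / 2) t‖ ^ 2 / V ^ 2 := by
      apply div_le_div_of_nonneg_left (by positivity) (by positivity)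
      nlinarith
    have h1 := Complex.norm_exp_sub_one_le (x := (ln (1 / 2) t) ^ 2 / (V : ℂ) ^ 2)
      (by rw [nn V hV]; exact h.le)
    have h2 := Complex.norm_exp_sub_one_le (x := (ln (1 / 2) t) ^ 2 / (Y : ℂ) ^ 2)
      (by rw [nn Y hY1]; linarith)
    rw [nn V hV] at h1
    rw [nn Y hY1] at h2
    have e : cexp ((ln (1 / 2) t) ^ 2 / (Y : ℂ) ^ 2) - cexp ((ln (1 / 2) t) ^ 2 / (V : ℂ) ^ 2) =
        (cexp ((ln (1 / 2) t) ^ 2 / (Y : ℂ) ^ 2) - 1) -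
          (cexp ((ln (1 / 2) t) ^ 2 / (V : ℂ) ^ 2) - 1) := by ring
    rw [e]
    have h3 := norm_sub_le (cexp ((ln (1 / 2) t) ^ 2 / (Y : ℂ) ^ 2) - 1)
      (cexp ((ln (1 / 2) t) ^ 2 / (V : ℂ) ^ 2) - 1)
    linarith

private theorem gk_le (V Y t : ℝ) (hV : 1 ≤ V) (hY : V ≤ Y) :
    ‖gk V Y t‖ ≤ 36 * (1 + |t|) ^ (-(2 : ℝ)) := by
  have hw : 0 < 1 + |t| := by positivity
  have h1 := le_nrm (1 / 2) t le_rfl
  have h2 := le_nrm (3 / 2) t (by norm_num)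
  have hs : 0 < ‖ln (1 / 2) t‖ := by linarith
  have hr : 0 < ‖ln (3 / 2) t‖ := by linarith
  have hD : ‖cexp ((ln (1 / 2) t) ^ 2 / (Y : ℂ) ^ 2) -
      cexp ((ln (1 / 2) t) ^ 2 / (V : ℂ) ^ 2)‖ ≤ 4 := by
    have h := diff_le V Y t hV hY
    have := min_le_left (1 : ℝ) (‖ln (1 / 2) t‖ ^ 2 / V ^ 2)
    linarith
  unfold gk
  rw [norm_div, norm_mul, div_le_iff₀ (by positivity), Real.rpow_neg hw.le]
  have e : (1 + |t|) ^ (2 : ℝ) = (1 + |t|) ^ 2 := by norm_cast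
  rw [e]
  have h3 : (1 + |t|) ^ 2 ≤ 9 * (‖ln (1 / 2) t‖ * ‖ln (3 / 2) t‖) := by
    nlinarith [mul_le_mul h1 h2 hw.le (by positivity)]
  have h4 : 4 ≤ 36 * ((1 + |t|) ^ 2)⁻¹ * (‖ln (1 / 2) t‖ * ‖ln (3 / 2) t‖) := by
    rw [mul_assoc, inv_mul_eq_div, ← mul_div_assoc, le_div_iff₀ (by positivity)]
    linarith
  linarith

private theorem gd_le (V Y t δ : ℝ) (hV : 1 ≤ V) (hY : V ≤ Y) (hδ : 0 < δ) (hδ1 : δ ≤ 1 / 2) :
    ‖gd V Y t‖ ≤ 312 * V ^ (-3 / 2 + δ) * (1 + |t|) ^ (-3 / 2 - δ) := by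
  have hY1 : 1 ≤ Y := hV.trans hY
  have hw : 0 < 1 + |t| := by positivity
  set w : ℝ := 1 + |t| with hwd
  have h1 := le_nrm (1 / 2) t le_rfl
  have h2 := le_nrm (3 / 2) t (by norm_num)
  rw [← hwd] at h1 h2
  have hs : 0 < ‖ln (1 / 2) t‖ := by linarith
  have hr : 0 < ‖ln (3 / 2) t‖ := by linarith
  set s : ℂ := ln (1 / 2) t with hsd
  set r : ℂ := ln (3 / 2) t with hrd
  have is : ‖s‖⁻¹ ≤ 3 / w := by
    rw [inv_eq_one_div, div_le_div_iff₀ hs hw]; linarith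
  have ir : ‖r‖⁻¹ ≤ 3 / w := by
    rw [inv_eq_one_div, div_le_div_iff₀ hr hw]; linarith
  have hV0 : 0 < V := by linarith
  have hY0 : 0 < Y := by linarith
  -- the first two terms
  have hT : ∀ Z : ℝ, 1 ≤ Z → V ≤ Z →
      ‖2 * s * I / (Z : ℂ) ^ 2 * cexp (s ^ 2 / (Z : ℂ) ^ 2) / (s * r)‖ ≤
        48 * V ^ (-3 / 2 + δ) * w ^ (-3 / 2 - δ) := by
    intro Z hZ hVZ
    have hZ0 : 0 < Z := by linarith
    have e1 : ‖2 * s * I / (Z : ℂ) ^ 2 * cexp (s ^ 2 / (Z : ℂ) ^ 2) / (s * r)‖ =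
        2 * (Z ^ 2)⁻¹ * Real.exp ((1 / 4 - t ^ 2) / Z ^ 2) * ‖r‖⁻¹ := by
      rw [norm_div, norm_mul, norm_div, norm_mul, norm_mul, norm_mul, norm_pow, Complex.norm_real,
        Real.norm_eq_abs, abs_of_pos hZ0, Complex.norm_I, Complex.norm_ofNat, nrm_exp Z t hZ]
      field_simp
    rw [e1]
    have h3 := exp_le Z t (1 / 2 + δ) hZ (by linarith) (by linarith)
    rw [← hwd] at h3
    have e2 : (w / Z) ^ (-(1 / 2 + δ)) = w ^ (-(1 / 2 + δ)) * Z ^ (1 / 2 + δ) := by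
      rw [Real.div_rpow hw.le hZ0.le, Real.rpow_neg hZ0.le, div_inv_eq_mul]
    have e3 : (Z ^ 2)⁻¹ * Z ^ (1 / 2 + δ) = Z ^ (-3 / 2 + δ) := by
      have : (Z ^ 2)⁻¹ = Z ^ (-(2 : ℝ)) := by
        rw [Real.rpow_neg hZ0.le]; norm_cast
      rw [this, ← Real.rpow_add hZ0]
      congr 1; ring
    have e4 : w ^ (-(1 / 2 + δ)) * w⁻¹ = w ^ (-3 / 2 - δ) := by
      rw [← Real.rpow_neg_one w, ← Real.rpow_add hw]
      congr 1; ring
    have h4 : Z ^ (-3 / 2 + δ) ≤ V ^ (-3 / 2 + δ) :=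
      Real.rpow_le_rpow_of_nonpos hV0 hVZ (by linarith)
    calc 2 * (Z ^ 2)⁻¹ * Real.exp ((1 / 4 - t ^ 2) / Z ^ 2) * ‖r‖⁻¹
        ≤ 2 * (Z ^ 2)⁻¹ * (8 * (w ^ (-(1 / 2 + δ)) * Z ^ (1 / 2 + δ))) * (3 / w) := by
          rw [e2] at h3
          gcongr
      _ = 48 * ((Z ^ 2)⁻¹ * Z ^ (1 / 2 + δ)) * (w ^ (-(1 / 2 + δ)) * w⁻¹) := by
          rw [div_eq_mul_inv]; ring
      _ = 48 * Z ^ (-3 / 2 + δ) * w ^ (-3 / 2 - δ) := by rw [e3, e4]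
      _ ≤ 48 * V ^ (-3 / 2 + δ) * w ^ (-3 / 2 - δ) := by gcongr
  -- the last term
  have hD : ‖cexp (s ^ 2 / (Y : ℂ) ^ 2) - cexp (s ^ 2 / (V : ℂ) ^ 2)‖ ≤
      4 * (w / V) ^ (3 / 2 - δ) := by
    have h := diff_le V Y t hV hY
    rw [← hsd] at h
    refine h.trans ?_
    have hq : 0 ≤ ‖s‖ ^ 2 / V ^ 2 := by positivity
    have h3 : min 1 (‖s‖ ^ 2 / V ^ 2) ≤ (‖s‖ ^ 2 / V ^ 2) ^ (3 / 4 - δ / 2) := by
      rcases le_or_gt 1 (‖s‖ ^ 2 / V ^ 2) with h5 | h5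
      · rw [min_eq_left h5]
        exact Real.one_le_rpow h5 (by linarith)
      · rw [min_eq_right h5.le]
        rcases hq.eq_or_lt with h6 | h6
        · rw [← h6]; positivity
        · calc ‖s‖ ^ 2 / V ^ 2 = (‖s‖ ^ 2 / V ^ 2) ^ (1 : ℝ) := (Real.rpow_one _).symm
            _ ≤ _ := Real.rpow_le_rpow_of_exponent_ge h6 h5.le (by linarith)
    have h4 : (‖s‖ ^ 2 / V ^ 2) ^ (3 / 4 - δ / 2) ≤ (w / V) ^ (3 / 2 - δ) := by
      have e : (‖s‖ ^ 2 / V ^ 2) = (‖s‖ / V) ^ 2 := by rw [div_pow]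
      rw [e, ← Real.rpow_natCast, ← Real.rpow_mul (by positivity)]
      have e2 : ((2 : ℕ) : ℝ) * (3 / 4 - δ / 2) = 3 / 2 - δ := by push_cast; ring
      rw [e2]
      apply Real.rpow_le_rpow (by positivity) _ (by linarith)
      apply div_le_div_of_nonneg_right _ hV0.le
      exact nrm_le t
    linarith
  have hL : ‖(cexp (s ^ 2 / (Y : ℂ) ^ 2) - cexp (s ^ 2 / (V : ℂ) ^ 2)) * (I * (s + r)) /
      (s * r) ^ 2‖ ≤ 216 * V ^ (-3 / 2 + δ) * w ^ (-3 / 2 - δ) := by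
    rw [norm_div, norm_mul, norm_mul, Complex.norm_I, one_mul, norm_pow, norm_mul]
    have h3 : ‖s + r‖ / (‖s‖ * ‖r‖) ^ 2 ≤ 54 / w ^ 3 := by
      have h4 : ‖s + r‖ / (‖s‖ * ‖r‖) ^ 2 ≤ (‖s‖ + ‖r‖) / (‖s‖ * ‖r‖) ^ 2 := by
        apply div_le_div_of_nonneg_right (norm_add_le _ _) (by positivity)
      have e5 : (‖s‖ + ‖r‖) / (‖s‖ * ‖r‖) ^ 2 =
          ‖s‖⁻¹ * ‖r‖⁻¹ * ‖r‖⁻¹ + ‖s‖⁻¹ * ‖s‖⁻¹ * ‖r‖⁻¹ := by
        field_simp
        try ring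
      have h6 : ‖s‖⁻¹ * ‖r‖⁻¹ * ‖r‖⁻¹ ≤ 3 / w * (3 / w) * (3 / w) := by gcongr
      have h7 : ‖s‖⁻¹ * ‖s‖⁻¹ * ‖r‖⁻¹ ≤ 3 / w * (3 / w) * (3 / w) := by gcongr
      have e8 : 54 / w ^ 3 = 3 / w * (3 / w) * (3 / w) + 3 / w * (3 / w) * (3 / w) := by
        field_simp
        norm_num
      rw [e8]
      linarith
    have e9 : (w / V) ^ (3 / 2 - δ) * (54 / w ^ 3) =
        54 * V ^ (-3 / 2 + δ) * w ^ (-3 / 2 - δ) := by
      rw [Real.div_rpow hw.le hV0.le, div_eq_mul_inv, ← Real.rpow_neg hV0.le]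
      have : (54 : ℝ) / w ^ 3 = 54 * w ^ (-(3 : ℝ)) := by
        rw [Real.rpow_neg hw.le, div_eq_mul_inv]; norm_cast
      rw [this]
      have e10 : w ^ (-3 / 2 - δ) = w ^ (3 / 2 - δ) * w ^ (-(3 : ℝ)) := by
        rw [← Real.rpow_add hw]; congr 1; ring
      have e11 : (-(3 / 2 - δ)) = -3 / 2 + δ := by ring
      rw [e10, e11]; ring
    calc ‖cexp (s ^ 2 / (Y : ℂ) ^ 2) - cexp (s ^ 2 / (V : ℂ) ^ 2)‖ * ‖s + r‖ / (‖s‖ * ‖r‖) ^ 2
        = ‖cexp (s ^ 2 / (Y : ℂ) ^ 2) - cexp (s ^ 2 / (V : ℂ) ^ 2)‖ *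
            (‖s + r‖ / (‖s‖ * ‖r‖) ^ 2) := by rw [mul_div_assoc]
      _ ≤ (4 * (w / V) ^ (3 / 2 - δ)) * (54 / w ^ 3) := by gcongr
      _ = 4 * ((w / V) ^ (3 / 2 - δ) * (54 / w ^ 3)) := by ring
      _ = 216 * V ^ (-3 / 2 + δ) * w ^ (-3 / 2 - δ) := by rw [e9]; ring
  have e0 : gd V Y t = 2 * s * I / (Y : ℂ) ^ 2 * cexp (s ^ 2 / (Y : ℂ) ^ 2) / (s * r) -
      2 * s * I / (V : ℂ) ^ 2 * cexp (s ^ 2 / (V : ℂ) ^ 2) / (s * r) -
      (cexp (s ^ 2 / (Y : ℂ) ^ 2) - cexp (s ^ 2 / (V : ℂ) ^ 2)) * (I * (s + r)) /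
        (s * r) ^ 2 := by
    unfold gd
    rw [sub_div]
  rw [e0]
  have n1 := hT Y hY1 hY
  have n2 := hT V hV le_rfl
  refine (norm_sub_le _ _).trans ?_
  have n3 := norm_sub_le (2 * s * I / (Y : ℂ) ^ 2 * cexp (s ^ 2 / (Y : ℂ) ^ 2) / (s * r))
    (2 * s * I / (V : ℂ) ^ 2 * cexp (s ^ 2 / (V : ℂ) ^ 2) / (s * r))
  nlinarith [n1, n2, n3, hL]

theorem high_ker (F : Sel) (hF : 0 < F.deg) {δ : ℝ} (hδ : 0 < δ) (hδ1 : δ ≤ 1 / 2) :
    ∃ C : ℝ, 0 < C ∧ ∀ V Y y : ℝ, 1 ≤ V → V ≤ Y → 0 < y →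
      ‖∫ t : ℝ, F.chi (ln (1 / 2) t) * (y : ℂ) ^ ((t : ℂ) * I) * gk V Y t‖ ≤
        C * V ^ (-3 / 2 + δ) := by
  obtain ⟨C0, hC0, hosc⟩ := chi_osc F hF
  obtain ⟨C2, hC2, hchi⟩ := chi_bound F (1 / 2) (1 / 2) (by norm_num)
  set J : ℝ := ∫ t : ℝ, (1 + ‖t‖) ^ (-(1 + δ)) with hJ
  have hJ0 : 0 ≤ J := integral_nonneg fun t => by positivity
  have hJi : Integrable (fun t : ℝ => (1 + ‖t‖) ^ (-(1 + δ))) := by
    apply integrable_one_add_norm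
    simp
    exact hδ
  have hJ2 : Integrable (fun t : ℝ => (1 + ‖t‖) ^ (-(2 : ℝ))) := by
    apply integrable_one_add_norm
    simp
  have hJ3 : Integrable (fun t : ℝ => (1 + ‖t‖) ^ (-(3 / 2 : ℝ))) := by
    apply integrable_one_add_norm
    simp
    norm_num
  refine ⟨312 * C0 * J + 1, by positivity, ?_⟩
  intro V Y y hV hY hy
  set h : ℝ → ℂ := fun t => F.chi (ln (1 / 2) t) * (y : ℂ) ^ ((t : ℂ) * I) with hh
  have hyne : (y : ℂ) ≠ 0 := by exact_mod_cast hy.ne'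
  have hcont : Continuous h := by
    have h1 : Continuous (fun t : ℝ => F.chi (ln (1 / 2) t)) := by
      have h2 := (chi_diff F).continuousOn
      exact h2.comp_continuous (ln_cont _) (fun t => by
        show (ln (1 / 2) t).re < 1
        rw [ln_re]; norm_num)
    have h2 : Continuous (fun t : ℝ => (y : ℂ) ^ ((t : ℂ) * I)) := by
      apply Continuous.const_cpow
      · fun_prop
      · exact Or.inl hyne
    exact h1.mul h2
  have hnorm : ∀ t, ‖h t‖ ≤ C2 := by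
    intro t
    have h1 := hchi (1 / 2) ⟨le_rfl, le_rfl⟩ t
    rw [sub_self, mul_zero, Real.rpow_zero, mul_one] at h1
    have h2 : ‖(y : ℂ) ^ ((t : ℂ) * I)‖ = 1 := by
      rw [Complex.norm_cpow_eq_rpow_re_of_pos hy]
      simp
    rw [hh]
    simp only [norm_mul, h2, mul_one]
    exact h1
  set Φ : ℝ → ℂ := fun t => ∫ u in (0 : ℝ)..t, h u with hΦ
  have hΦd : ∀ t, HasDerivAt Φ (h t) t := fun t =>
    intervalIntegral.integral_hasDerivAt_right (hcont.intervalIntegrable _ _)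
      (hcont.stronglyMeasurableAtFilter _ _) hcont.continuousAt
  have hΦc : Continuous Φ := continuous_iff_continuousAt.2 fun t => (hΦd t).continuousAt
  have hΦn : ∀ t, ‖Φ t‖ ≤ C0 * (1 + |t|) ^ (1 / 2 : ℝ) := by
    intro t
    have hw : 1 ≤ 1 + |t| := by have := abs_nonneg t; linarith
    have h3 := neg_abs_le t
    have h4 := le_abs_self t
    rw [← Real.sqrt_eq_rpow]
    rcases le_total 0 t with ht | ht
    · exact hosc (1 + |t|) 0 t y hw (by linarith) ht (by linarith) hy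
    · have h5 := hosc (1 + |t|) t 0 y hw (by linarith) ht (by linarith) hy
      rw [hΦ]
      simp only
      rw [intervalIntegral.integral_symm, norm_neg]
      exact h5
  have hgd := gk_hd V Y
  have i1 : Integrable (gk V Y * h) := by
    refine (hJ2.const_mul (36 * C2)).mono' ((gk_cont V Y).mul hcont).aestronglyMeasurable
      (Filter.Eventually.of_forall fun t => ?_)
    rw [Pi.mul_apply, norm_mul, Real.norm_eq_abs]
    have h1 := gk_le V Y t hV hY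
    have h2 := hnorm t
    calc ‖gk V Y t‖ * ‖h t‖ ≤ 36 * (1 + |t|) ^ (-(2 : ℝ)) * C2 := by gcongr
      _ = _ := by ring
  have i2 : Integrable (gk V Y * Φ) := by
    refine (hJ3.const_mul (36 * C0)).mono' ((gk_cont V Y).mul hΦc).aestronglyMeasurable
      (Filter.Eventually.of_forall fun t => ?_)
    rw [Pi.mul_apply, norm_mul, Real.norm_eq_abs]
    have h1 := gk_le V Y t hV hY
    have h2 := hΦn t
    have hw : 0 < 1 + |t| := by positivity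
    calc ‖gk V Y t‖ * ‖Φ t‖ ≤ 36 * (1 + |t|) ^ (-(2 : ℝ)) * (C0 * (1 + |t|) ^ (1 / 2 : ℝ)) := by
          gcongr
      _ = 36 * C0 * ((1 + |t|) ^ (-(2 : ℝ)) * (1 + |t|) ^ (1 / 2 : ℝ)) := by ring
      _ = _ := by
          rw [← Real.rpow_add hw]
          norm_num
  have hb : ∀ t, ‖gd V Y t * Φ t‖ ≤ 312 * C0 * V ^ (-3 / 2 + δ) * (1 + ‖t‖) ^ (-(1 + δ)) := by
    intro t
    rw [norm_mul, Real.norm_eq_abs]
    have h1 := gd_le V Y t δ hV hY hδ hδ1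
    have h2 := hΦn t
    have hw : 0 < 1 + |t| := by positivity
    calc ‖gd V Y t‖ * ‖Φ t‖ ≤ 312 * V ^ (-3 / 2 + δ) * (1 + |t|) ^ (-3 / 2 - δ) *
          (C0 * (1 + |t|) ^ (1 / 2 : ℝ)) := by gcongr
      _ = 312 * C0 * V ^ (-3 / 2 + δ) * ((1 + |t|) ^ (-3 / 2 - δ) *
          (1 + |t|) ^ (1 / 2 : ℝ)) := by ring
      _ = _ := by
          rw [← Real.rpow_add hw]
          congr 2
          ring
  have i3 : Integrable (gd V Y * Φ) := by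
    refine (hJi.const_mul (312 * C0 * V ^ (-3 / 2 + δ))).mono'
      ((gd_cont V Y).mul hΦc).aestronglyMeasurable
      (Filter.Eventually.of_forall fun t => ?_)
    exact hb t
  have key := integral_mul_deriv_eq_deriv_mul_of_integrable (fun t _ => hgd t)
    (fun t _ => hΦd t) i1 i3 i2
  have e1 : (∫ t : ℝ, F.chi (ln (1 / 2) t) * (y : ℂ) ^ ((t : ℂ) * I) * gk V Y t) =
      ∫ t : ℝ, gk V Y t * h t := by
    congr 1
    funext t
    rw [hh]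
    ring
  rw [e1, key, norm_neg]
  calc ‖∫ t : ℝ, gd V Y t * Φ t‖
      ≤ ∫ t : ℝ, 312 * C0 * V ^ (-3 / 2 + δ) * (1 + ‖t‖) ^ (-(1 + δ)) := by
        apply norm_integral_le_of_norm_le (hJi.const_mul _)
        exact Filter.Eventually.of_forall hb
    _ = 312 * C0 * V ^ (-3 / 2 + δ) * J := by rw [integral_const_mul]
    _ ≤ (312 * C0 * J + 1) * V ^ (-3 / 2 + δ) := by
        have : 0 < V ^ (-3 / 2 + δ) := by positivity
        nlinarith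

end DAD
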