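import Pool.Agent.HYM.Dec
import Pool.Agent.HYM.Bil
import Pool.Agent.HYM.Ful

set_option autoImplicit false

/-!
# DAD/Fp1B: the low part (line `Re s = -A`)
-/

open Complex MeasureTheory

open scoped ComplexConjugate

namespace DAD

open HYM

/-- A piece of the dual coefficients which lives on `n ≥ 2^k`. -/
def Pc (F : Sel) (k : ℕ) (a : ℕ → ℂ) : Prop :=
  (∀ n, n < 2 ^ k → a n = 0) ∧ ∀ n, ‖a n‖ ≤ ‖F.f n‖

theorem pc_blk (F : Sel) (k : ℕ) : Pc F k (F.blk k) := by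
  constructor
  · intro n hn
    unfold Sel.blk
    rw [if_neg]
    omega
  · intro n
    unfold Sel.blk
    split_ifs
    · rw [RCLike.norm_conj]
    · simp

theorem pc_tl (F : Sel) (k : ℕ) : Pc F k (F.tl k) := by
  constructor
  · intro n hn
    unfold Sel.tl
    rw [if_neg]
    omega
  · intro n
    unfold Sel.tl
    split_ifs
    · rw [RCLike.norm_conj]
    · simp

theorem dsum_sz (F : Sel) {c : ℝ} (hc : 0 < c) : ∃ C : ℝ, 0 < C ∧ ∀ (k : ℕ) (a : ℕ → ℂ),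
    Pc F k a → ∀ s : ℂ, s.re ≤ -c → Summable (fun n : ℕ => ‖a n * (n : ℂ) ^ (s - 1)‖) ∧
      ‖dsum a s‖ ≤ C * ((2 : ℝ) ^ k) ^ (c + s.re) := by
  obtain ⟨C, hC⟩ := F.ram (c / 2) (by linarith)
  have hsum : Summable (fun n : ℕ => |C| * (n : ℝ) ^ (-(c / 2) - 1)) :=
    (Real.summable_nat_rpow.2 (by linarith)).mul_left |C|
  have hpos : 0 ≤ ∑' n : ℕ, |C| * (n : ℝ) ^ (-(c / 2) - 1) := tsum_nonneg fun n => by positivity
  refine ⟨(∑' n : ℕ, |C| * (n : ℝ) ^ (-(c / 2) - 1)) + 1, by linarith, ?_⟩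
  intro k a ha s hs
  have hN : (0 : ℝ) < (2 : ℝ) ^ k := by positivity
  have hpt : ∀ n : ℕ, ‖a n * (n : ℂ) ^ (s - 1)‖ ≤
      ((2 : ℝ) ^ k) ^ (c + s.re) * (|C| * (n : ℝ) ^ (-(c / 2) - 1)) := by
    intro n
    rcases lt_or_ge n (2 ^ k) with hn | hn
    · rw [ha.1 n hn, zero_mul, norm_zero]
      positivity
    · have hn0 : 0 < n := lt_of_lt_of_le (by positivity) hn
      have hn' : (0 : ℝ) < n := by exact_mod_cast hn0
      have hnN : (2 : ℝ) ^ k ≤ n := by exact_mod_cast hn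
      have h1 : ‖F.f n‖ ≤ |C| * (n : ℝ) ^ (c / 2) :=
        (hC n hn0).trans (mul_le_mul_of_nonneg_right (le_abs_self C) (by positivity))
      rw [norm_mul, Complex.norm_natCast_cpow_of_pos hn0, Complex.sub_re, Complex.one_re]
      calc ‖a n‖ * (n : ℝ) ^ (s.re - 1) ≤ |C| * (n : ℝ) ^ (c / 2) * (n : ℝ) ^ (s.re - 1) :=
            mul_le_mul_of_nonneg_right ((ha.2 n).trans h1) (by positivity)
        _ = (n : ℝ) ^ (c + s.re) * (|C| * (n : ℝ) ^ (-(c / 2) - 1)) := by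
            have e : (n : ℝ) ^ (c / 2) * (n : ℝ) ^ (s.re - 1) =
                (n : ℝ) ^ (c + s.re) * (n : ℝ) ^ (-(c / 2) - 1) := by
              rw [← Real.rpow_add hn', ← Real.rpow_add hn']
              congr 1
              ring
            linear_combination |C| * e
        _ ≤ _ := by
            apply mul_le_mul_of_nonneg_right _ (by positivity)
            exact Real.rpow_le_rpow_of_nonpos hN hnN (by linarith)
  have hs1 : Summable (fun n : ℕ => ‖a n * (n : ℂ) ^ (s - 1)‖) :=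
    Summable.of_nonneg_of_le (fun n => norm_nonneg _) hpt (hsum.mul_left _)
  refine ⟨hs1, ?_⟩
  unfold dsum
  refine (norm_tsum_le_tsum_norm hs1).trans ?_
  refine (hs1.tsum_le_tsum hpt (hsum.mul_left _)).trans ?_
  rw [tsum_mul_left, mul_comm]
  apply mul_le_mul_of_nonneg_right _ (by positivity)
  linarith

theorem dsum_dif (F : Sel) {k : ℕ} {a : ℕ → ℂ} (ha : Pc F k a) {s : ℂ} (hs : s.re < 0) :
    DifferentiableAt ℂ (dsum a) s := by
  have h0 : a 0 = 0 := ha.1 0 (by positivity)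
  have hterm : ∀ (w : ℂ) (n : ℕ), a n * (n : ℂ) ^ (w - 1) = LSeries.term a (1 - w) n := by
    intro w n
    rcases Nat.eq_zero_or_pos n with rfl | hn
    · simp [h0]
    · rw [LSeries.term_of_ne_zero hn.ne', show w - 1 = -(1 - w) by ring, Complex.cpow_neg,
        div_eq_mul_inv]
  have heq : dsum a = fun w => LSeries a (1 - w) := by
    funext w
    unfold dsum LSeries
    exact tsum_congr (hterm w)
  have habs : LSeries.abscissaOfAbsConv a ≤ ((1 - s.re / 2 : ℝ) : EReal) ∨ True := Or.inr trivial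
  have hab : LSeries.abscissaOfAbsConv a ≤ ((1 : ℝ) : EReal) := by
    apply LSeries.abscissaOfAbsConv_le_of_forall_lt_LSeriesSummable
    intro y hy
    obtain ⟨C, _, hC⟩ := dsum_sz F (c := y - 1) (by linarith)
    have h1 := (hC k a ha ((1 - y : ℝ) : ℂ) (by rw [Complex.ofReal_re]; linarith)).1
    have h2 : Summable (fun n : ℕ => a n * (n : ℂ) ^ (((1 - y : ℝ) : ℂ) - 1)) := h1.of_norm
    unfold LSeriesSummable
    refine h2.congr fun n => ?_
    rw [hterm]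
    congr 1
    push_cast
    ring
  rw [heq]
  have h3 : LSeries.abscissaOfAbsConv a < (1 - s).re := by
    refine hab.trans_lt ?_
    rw [Complex.sub_re, Complex.one_re]
    exact_mod_cast (by linarith : (1 : ℝ) < 1 - s.re)
  have h4 : DifferentiableAt ℂ (LSeries a) (1 - s) := (LSeries_hasDerivAt h3).differentiableAt
  exact DifferentiableAt.comp (g := LSeries a) s h4 (by fun_prop)

/-- The low integrand. -/
noncomputable def lk (F : Sel) (V : ℝ) (a : ℕ → ℂ) (s : ℂ) : ℂ :=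
  F.chi s / s * dsum a s * cexp (s ^ 2 / (V : ℂ) ^ 2)

theorem lk_dif (F : Sel) (V : ℝ) {k : ℕ} {a : ℕ → ℂ} (ha : Pc F k a) {s : ℂ} (hs : s.re < 0) :
    DifferentiableAt ℂ (lk F V a) s := by
  have h1 : DifferentiableAt ℂ F.chi s :=
    (chi_diff F s (show s.re < 1 by linarith)).differentiableAt
      ((isOpen_lt Complex.continuous_re continuous_const).mem_nhds (show s.re < 1 by linarith))
  have h2 := dsum_dif F ha hs
  have h0 : s ≠ 0 := by
    intro h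
    rw [h, Complex.zero_re] at hs
    exact lt_irrefl _ hs
  unfold lk
  exact ((h1.div differentiableAt_id h0).mul h2).mul (by fun_prop)

theorem gau_norm {W R : ℝ} (hW : 1 ≤ W) {s : ℂ} (hs : |s.re| ≤ R) :
    ‖cexp (s ^ 2 / (W : ℂ) ^ 2)‖ ≤ Real.exp (R ^ 2) * Real.exp (-(s.im / W) ^ 2) := by
  have h0 : (s ^ 2 / (W : ℂ) ^ 2).re = (s.re ^ 2 - s.im ^ 2) / W ^ 2 := by
    have h1 : (W : ℂ) ^ 2 = ((W ^ 2 : ℝ) : ℂ) := by push_cast; rfl
    rw [h1, Complex.div_ofReal_re, pow_two, Complex.mul_re]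
    ring
  rw [Complex.norm_exp, h0, ← Real.exp_add, Real.exp_le_exp]
  have hW0 : 0 < W := by linarith
  have h2 : s.re ^ 2 / W ^ 2 ≤ R ^ 2 := by
    rw [div_le_iff₀ (by positivity)]
    have h3 : s.re ^ 2 ≤ R ^ 2 := by
      rw [← sq_abs]
      exact pow_le_pow_left₀ (abs_nonneg _) hs 2
    have h4 : (1 : ℝ) ≤ W ^ 2 := one_le_pow₀ hW
    nlinarith [sq_nonneg R]
  rw [sub_div, div_pow]
  linarith

theorem ln_eq (s : ℂ) : s = ln s.re s.im := by
  unfold ln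
  exact (Complex.re_add_im s).symm

/-- pointwise bound of the low integrand in a strip -/
theorem lk_bd (F : Sel) {A : ℝ} (hA : 1 / 2 ≤ A) : ∃ C : ℝ, 0 < C ∧ ∀ (k : ℕ) (a : ℕ → ℂ),
    Pc F k a → ∀ V : ℝ, 1 ≤ V → ∀ s : ℂ, -A ≤ s.re → s.re ≤ -(1 / 2) →
      ‖lk F V a s‖ ≤ C * (1 + |s.im|) ^ (F.deg * (1 / 2 - s.re) - 1) *
        ((2 : ℝ) ^ k) ^ (1 / 16 + s.re) * Real.exp (-(s.im / V) ^ 2) := by
  obtain ⟨C1, hC1, h1⟩ := chi_bound F (-A) (-(1 / 2)) (by norm_num)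
  obtain ⟨C2, hC2, h2⟩ := dsum_sz F (c := 1 / 16) (by norm_num)
  refine ⟨C1 * 3 * C2 * Real.exp (A ^ 2), by positivity, ?_⟩
  intro k a ha V hV s hs1 hs2
  have ha1 := h1 s.re ⟨hs1, hs2⟩ s.im
  rw [← ln_eq] at ha1
  have ha2 := (h2 k a ha s (by linarith)).2
  have ha3 := gau_norm (R := A) hV (s := s) (by rw [abs_le]; constructor <;> linarith)
  have hp : 0 < 1 + |s.im| := by positivity
  have hsn : (1 + |s.im|) / 3 ≤ ‖s‖ := by
    have e1 := Complex.abs_re_le_norm s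
    have e2 := Complex.abs_im_le_norm s
    rw [abs_of_neg (by linarith)] at e1
    linarith
  have hsp : 0 < ‖s‖ := lt_of_lt_of_le (by positivity) hsn
  have hdiv : ‖F.chi s‖ / ‖s‖ ≤ C1 * 3 * (1 + |s.im|) ^ (F.deg * (1 / 2 - s.re) - 1) := by
    rw [div_le_iff₀ hsp]
    calc ‖F.chi s‖ ≤ C1 * (1 + |s.im|) ^ (F.deg * (1 / 2 - s.re)) := ha1
      _ = C1 * 3 * (1 + |s.im|) ^ (F.deg * (1 / 2 - s.re) - 1) * ((1 + |s.im|) / 3) := by
          rw [Real.rpow_sub_one hp.ne']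
          field_simp
      _ ≤ _ := mul_le_mul_of_nonneg_left hsn (by positivity)
  unfold lk
  rw [norm_mul, norm_mul, norm_div]
  calc ‖F.chi s‖ / ‖s‖ * ‖dsum a s‖ * ‖cexp (s ^ 2 / (V : ℂ) ^ 2)‖
      ≤ (C1 * 3 * (1 + |s.im|) ^ (F.deg * (1 / 2 - s.re) - 1)) *
          (C2 * ((2 : ℝ) ^ k) ^ (1 / 16 + s.re)) *
          (Real.exp (A ^ 2) * Real.exp (-(s.im / V) ^ 2)) := by
        gcongr
    _ = _ := by ring

theorem lk_strip (F : Sel) {A : ℝ} (hA : 1 / 2 ≤ A) {k : ℕ} {a : ℕ → ℂ} (ha : Pc F k a) {V x : ℝ}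
    (hV : 1 ≤ V) (hx : 0 < x) : ∃ B : ℝ, ∀ s : ℂ, -A ≤ s.re → s.re ≤ -(1 / 2) →
      ‖lk F V a s * (x : ℂ) ^ s‖ ≤ B / (1 + s.im ^ 2) := by
  obtain ⟨C, hC, h⟩ := lk_bd F hA
  have hd := low_deg_nonneg F
  set q : ℝ := F.deg * (1 / 2 + A) with hq
  have hq0 : 0 ≤ q := by positivity
  obtain ⟨C4, hC4, h4⟩ := pow_gauss (q := q + 2) (by linarith)
  refine ⟨C * C4 * V ^ (q + 2) * (x ^ (-A) + x ^ (-(1 / 2) : ℝ)), fun s hs1 hs2 => ?_⟩
  have ht : 0 < 1 + s.im ^ 2 := by positivity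
  rw [le_div_iff₀ ht]
  have hb := h k a ha V hV s hs1 hs2
  have hp : 0 < 1 + |s.im| := by positivity
  have hp1 : 1 ≤ 1 + |s.im| := by linarith [abs_nonneg s.im]
  have h2k : ((2 : ℝ) ^ k) ^ (1 / 16 + s.re) ≤ 1 :=
    Real.rpow_le_one_of_one_le_of_nonpos (one_le_pow₀ (by norm_num)) (by linarith)
  have hb2 : ‖lk F V a s‖ ≤ C * (1 + |s.im|) ^ q * Real.exp (-(s.im / V) ^ 2) := by
    refine hb.trans ?_
    have e1 : (1 + |s.im|) ^ (F.deg * (1 / 2 - s.re) - 1) ≤ (1 + |s.im|) ^ q := by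
      apply Real.rpow_le_rpow_of_exponent_le hp1
      rw [hq]
      have : F.deg * (1 / 2 - s.re) ≤ F.deg * (1 / 2 + A) :=
        mul_le_mul_of_nonneg_left (by linarith) hd
      linarith
    calc C * (1 + |s.im|) ^ (F.deg * (1 / 2 - s.re) - 1) * ((2 : ℝ) ^ k) ^ (1 / 16 + s.re) *
          Real.exp (-(s.im / V) ^ 2)
        ≤ C * (1 + |s.im|) ^ q * 1 * Real.exp (-(s.im / V) ^ 2) := by gcongr
      _ = _ := by ring
  have hdx : ‖(x : ℂ) ^ s‖ ≤ x ^ (-A) + x ^ (-(1 / 2) : ℝ) := by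
    rw [Complex.norm_cpow_eq_rpow_re_of_pos hx]
    have e1 : 0 < x ^ (-A) := Real.rpow_pos_of_pos hx _
    have e2 : 0 < x ^ (-(1 / 2) : ℝ) := Real.rpow_pos_of_pos hx _
    rcases le_total 1 x with h | h
    · have := Real.rpow_le_rpow_of_exponent_le h hs2
      linarith
    · have := Real.rpow_le_rpow_of_exponent_ge hx h hs1
      linarith
  have ht1 : 1 + s.im ^ 2 ≤ (1 + |s.im|) ^ (2 : ℝ) := by
    rw [Real.rpow_two]
    nlinarith [abs_nonneg s.im, sq_abs s.im]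
  have hpg : (1 + |s.im|) ^ q * Real.exp (-(s.im / V) ^ 2) * (1 + s.im ^ 2) ≤
      C4 * V ^ (q + 2) := by
    have e1 := h4 V hV s.im
    rw [Real.rpow_add hp] at e1
    refine le_trans ?_ e1
    calc (1 + |s.im|) ^ q * Real.exp (-(s.im / V) ^ 2) * (1 + s.im ^ 2)
        ≤ (1 + |s.im|) ^ q * Real.exp (-(s.im / V) ^ 2) * (1 + |s.im|) ^ (2 : ℝ) :=
          mul_le_mul_of_nonneg_left ht1 (by positivity)
      _ = _ := by ring
  rw [norm_mul]
  calc ‖lk F V a s‖ * ‖(x : ℂ) ^ s‖ * (1 + s.im ^ 2)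
      ≤ (C * (1 + |s.im|) ^ q * Real.exp (-(s.im / V) ^ 2)) *
          (x ^ (-A) + x ^ (-(1 / 2) : ℝ)) * (1 + s.im ^ 2) := by gcongr
    _ = C * ((1 + |s.im|) ^ q * Real.exp (-(s.im / V) ^ 2) * (1 + s.im ^ 2)) *
          (x ^ (-A) + x ^ (-(1 / 2) : ℝ)) := by ring
    _ ≤ C * (C4 * V ^ (q + 2)) * (x ^ (-A) + x ^ (-(1 / 2) : ℝ)) := by gcongr
    _ = _ := by ring

theorem ln_cont' (c : ℝ) : Continuous (fun t : ℝ => ln c t) := by
  unfold ln
  fun_prop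

theorem lk_line_cont (F : Sel) {k : ℕ} {a : ℕ → ℂ} (ha : Pc F k a) {V c : ℝ} (hc : c < 0) :
    Continuous (fun t : ℝ => lk F V a (ln c t)) := by
  rw [continuous_iff_continuousAt]
  intro t
  have h3 : ContinuousAt (lk F V a) (ln c t) := (lk_dif F V ha (by rw [ln_re]; exact hc)).continuousAt
  exact ContinuousAt.comp (f := fun t : ℝ => ln c t) h3 (ln_cont' c).continuousAt

/-- integrability and size on a line -/
theorem lk_line (F : Sel) {A : ℝ} (hA : 1 / 2 ≤ A) : ∃ C : ℝ, 0 < C ∧ ∀ (k : ℕ) (a : ℕ → ℂ),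
    Pc F k a → ∀ V : ℝ, 1 ≤ V →
      Integrable (fun t : ℝ => lk F V a (ln (-A) t)) ∧
      (F.deg = 2 → 1 < A → ∫ t : ℝ, ‖lk F V a (ln (-A) t) / ln (1 - A) t‖ ≤
        C * ((2 : ℝ) ^ k) ^ (1 / 16 - A) * V ^ (2 * A)) := by
  obtain ⟨C, hC, h⟩ := lk_bd F hA
  have hd := low_deg_nonneg F
  obtain ⟨C5, hC5, h5⟩ := int_weight (q := F.deg * (1 / 2 + A) + 1) (by positivity)
  obtain ⟨C6, hC6, h6⟩ := int_weight (q := 2 * A) (by linarith)
  set m : ℝ := min (A - 1) 1 with hm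
  refine ⟨C * (2 / |m| + 1) * C6, by positivity, ?_⟩
  intro k a ha V hV
  have hb : ∀ t : ℝ, ‖lk F V a (ln (-A) t)‖ ≤ C * (1 + |t|) ^ (F.deg * (1 / 2 + A) - 1) *
        ((2 : ℝ) ^ k) ^ (1 / 16 - A) * Real.exp (-(t / V) ^ 2) := by
    intro t
    have := h k a ha V hV (ln (-A) t) (by rw [ln_re]) (by rw [ln_re]; linarith)
    rw [ln_re, ln_im, sub_neg_eq_add, ← sub_eq_add_neg] at this
    exact this
  have hcont := lk_line_cont F ha (V := V) (c := -A) (by linarith)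
  refine ⟨?_, ?_⟩
  · refine (((h5 V hV).1.const_mul (C * ((2 : ℝ) ^ k) ^ (1 / 16 - A)))).mono'
      hcont.aestronglyMeasurable ?_
    filter_upwards with t
    refine (hb t).trans ?_
    have hp1 : 1 ≤ 1 + |t| := by linarith [abs_nonneg t]
    have e1 : (1 + |t|) ^ (F.deg * (1 / 2 + A) - 1) ≤
        (1 + |t|) ^ (-1 + (F.deg * (1 / 2 + A) + 1)) :=
      Real.rpow_le_rpow_of_exponent_le hp1 (by linarith)
    calc C * (1 + |t|) ^ (F.deg * (1 / 2 + A) - 1) * ((2 : ℝ) ^ k) ^ (1 / 16 - A) *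
          Real.exp (-(t / V) ^ 2)
        ≤ C * (1 + |t|) ^ (-1 + (F.deg * (1 / 2 + A) + 1)) * ((2 : ℝ) ^ k) ^ (1 / 16 - A) *
          Real.exp (-(t / V) ^ 2) := by gcongr
      _ = _ := by ring
  · intro hdeg hA1
    have hm0 : 0 < m := lt_min (by linarith) one_pos
    have hmA : m ≤ A - 1 := min_le_left _ _
    have hm1 : m ≤ 1 := min_le_right _ _
    have hlow : ∀ t : ℝ, m / 2 * (1 + |t|) ≤ ‖ln (1 - A) t‖ := by
      intro t
      have e1 := Complex.abs_re_le_norm (ln (1 - A) t)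
      have e2 := Complex.abs_im_le_norm (ln (1 - A) t)
      rw [ln_re, abs_of_neg (by linarith)] at e1
      rw [ln_im] at e2
      nlinarith [abs_nonneg t]
    have hpt : ∀ t : ℝ, ‖lk F V a (ln (-A) t) / ln (1 - A) t‖ ≤
        (C * (2 / |m| + 1) * ((2 : ℝ) ^ k) ^ (1 / 16 - A)) *
          ((1 + |t|) ^ (-1 + 2 * A) * Real.exp (-(t / V) ^ 2)) := by
      intro t
      have hp : 0 < 1 + |t| := by positivity
      have hl := hlow t
      have hlp : 0 < ‖ln (1 - A) t‖ := lt_of_lt_of_le (by positivity) hl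
      rw [norm_div, div_le_iff₀ hlp]
      have e0 := hb t
      rw [hdeg] at e0
      refine e0.trans ?_
      have e2 : (1 + |t|) ^ (2 * (1 / 2 + A) - 1) = (1 + |t|) ^ (-1 + 2 * A) * (1 + |t|) := by
        rw [← Real.rpow_add_one hp.ne']
        congr 1
        ring
      rw [e2]
      have e3 : (1 + |t|) ≤ (2 / |m| + 1) * ‖ln (1 - A) t‖ := by
        rw [abs_of_pos hm0]
        have : (1 + |t|) = 2 / m * (m / 2 * (1 + |t|)) := by field_simp
        have h7 : 2 / m * (m / 2 * (1 + |t|)) ≤ 2 / m * ‖ln (1 - A) t‖ :=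
          mul_le_mul_of_nonneg_left hl (by positivity)
        nlinarith
      calc C * ((1 + |t|) ^ (-1 + 2 * A) * (1 + |t|)) * ((2 : ℝ) ^ k) ^ (1 / 16 - A) *
            Real.exp (-(t / V) ^ 2)
          ≤ C * ((1 + |t|) ^ (-1 + 2 * A) * ((2 / |m| + 1) * ‖ln (1 - A) t‖)) *
            ((2 : ℝ) ^ k) ^ (1 / 16 - A) * Real.exp (-(t / V) ^ 2) := by gcongr
        _ = _ := by ring
    have hint := (h6 V hV)
    calc ∫ t : ℝ, ‖lk F V a (ln (-A) t) / ln (1 - A) t‖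
        ≤ ∫ t : ℝ, (C * (2 / |m| + 1) * ((2 : ℝ) ^ k) ^ (1 / 16 - A)) *
          ((1 + |t|) ^ (-1 + 2 * A) * Real.exp (-(t / V) ^ 2)) := by
          apply integral_mono_of_nonneg (Filter.Eventually.of_forall fun t => norm_nonneg _)
            (hint.1.const_mul _) (Filter.Eventually.of_forall hpt)
      _ = (C * (2 / |m| + 1) * ((2 : ℝ) ^ k) ^ (1 / 16 - A)) *
          ∫ t : ℝ, ((1 + |t|) ^ (-1 + 2 * A) * Real.exp (-(t / V) ^ 2)) := integral_const_mul _ _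
      _ ≤ (C * (2 / |m| + 1) * ((2 : ℝ) ^ k) ^ (1 / 16 - A)) * (C6 * V ^ (2 * A)) := by
          apply mul_le_mul_of_nonneg_left hint.2
          positivity
      _ = _ := by ring

theorem lk_shift (F : Sel) {A : ℝ} (hA : 1 / 2 ≤ A) {k : ℕ} {a : ℕ → ℂ} (ha : Pc F k a) {V x : ℝ}
    (hV : 1 ≤ V) (hx : 0 < x) :
    vint (-(1 / 2)) (fun t => lk F V a (ln (-(1 / 2)) t)) x =
      vint (-A) (fun t => lk F V a (ln (-A) t)) x := by
  obtain ⟨B, hB⟩ := lk_strip F hA ha hV hx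
  unfold vint
  congr 1
  refine (shift_lines (H := fun s => lk F V a s * (x : ℂ) ^ s) (by linarith) (fun s _ h2 => ?_)
    hB).symm
  have h4 : DifferentiableAt ℂ (fun s : ℂ => (x : ℂ) ^ s) s :=
    differentiableAt_id.const_cpow (Or.inl (by exact_mod_cast hx.ne'))
  exact (lk_dif F V ha (by linarith)).mul h4

end DAD
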