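import Pool.Agent.DAD.Fp1A
import Pool.Agent.DAD.Fp1B

set_option autoImplicit false

/-!
# DAD/Fp1C: the high part and the decomposition
-/

open Complex MeasureTheory

open scoped ComplexConjugate

namespace DAD

open HYM

/-- difference of two Gaussians -/
noncomputable def dg (W V : ℝ) (s : ℂ) : ℂ :=
  cexp (s ^ 2 / (W : ℂ) ^ 2) - cexp (s ^ 2 / (V : ℂ) ^ 2)

theorem dg_diff (W V : ℝ) : Differentiable ℂ (dg W V) := by
  unfold dg
  fun_prop

theorem dg_dslope_diff (W V : ℝ) : Differentiable ℂ (dslope (dg W V) 0) := by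
  intro z
  have h1 := (Complex.differentiableOn_dslope (f := dg W V) (c := (0 : ℂ)) (s := Set.univ)
    Filter.univ_mem).2 (dg_diff W V).differentiableOn
  exact (h1 z (Set.mem_univ z)).differentiableAt Filter.univ_mem

theorem dg_dslope_of_ne (W V : ℝ) {s : ℂ} (hs : s ≠ 0) :
    dslope (dg W V) 0 s = dg W V s / s := by
  rw [dslope_of_ne _ hs, slope_def_field, sub_zero]
  have : dg W V 0 = 0 := by simp [dg]
  rw [this, sub_zero]

theorem dg_bound {W V R : ℝ} (hW : 1 ≤ W) (hV : 1 ≤ V) :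
    ∃ M : ℝ, 0 < M ∧ ∀ s : ℂ, |s.re| ≤ R →
      ‖dslope (dg W V) 0 s‖ ≤
        M * (Real.exp (-(s.im / W) ^ 2) + Real.exp (-(s.im / V) ^ 2)) := by
  have hK : IsCompact (Set.Icc (-R) R ×ℂ Set.Icc (-1 : ℝ) 1) :=
    isCompact_Icc.reProdIm isCompact_Icc
  obtain ⟨M0, hM0⟩ := hK.exists_bound_of_continuousOn
    ((dg_dslope_diff W V).continuous.continuousOn)
  refine ⟨|M0| * Real.exp 1 + Real.exp (R ^ 2), by positivity, fun s hs => ?_⟩
  rcases le_total |s.im| 1 with h | h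
  · have h1 := hM0 s (by
      rw [mem_reProdIm]
      exact ⟨abs_le.1 hs, abs_le.1 h⟩)
    have h2 : Real.exp (-1) ≤ Real.exp (-(s.im / W) ^ 2) := by
      rw [Real.exp_le_exp]
      have h3 : |s.im / W| ≤ 1 := by
        rw [abs_div, abs_of_pos (by linarith : 0 < W), div_le_one (by linarith)]
        linarith
      have h4 : (s.im / W) ^ 2 ≤ 1 := by
        rw [← sq_abs]
        nlinarith [abs_nonneg (s.im / W)]
      linarith
    have h5 : Real.exp 1 * Real.exp (-1) = 1 := by rw [← Real.exp_add]; simp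
    have h6 : 0 < Real.exp (-(s.im / V) ^ 2) := Real.exp_pos _
    have h7 : 0 < Real.exp (-(s.im / W) ^ 2) := Real.exp_pos _
    calc ‖dslope (dg W V) 0 s‖ ≤ |M0| := h1.trans (le_abs_self _)
      _ = |M0| * (Real.exp 1 * Real.exp (-1)) := by rw [h5, mul_one]
      _ ≤ |M0| * (Real.exp 1 * Real.exp (-(s.im / W) ^ 2)) := by gcongr
      _ = |M0| * Real.exp 1 * Real.exp (-(s.im / W) ^ 2) := by ring
      _ ≤ (|M0| * Real.exp 1 + Real.exp (R ^ 2)) *
          (Real.exp (-(s.im / W) ^ 2) + Real.exp (-(s.im / V) ^ 2)) := by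
        apply mul_le_mul
        · linarith [Real.exp_pos (R ^ 2)]
        · linarith
        · exact h7.le
        · positivity
  · have hn : 1 ≤ ‖s‖ := h.trans (Complex.abs_im_le_norm s)
    have hs0 : s ≠ 0 := by
      intro h0
      rw [h0, norm_zero] at hn
      linarith
    rw [dg_dslope_of_ne W V hs0, norm_div]
    have h1 : ‖dg W V s‖ ≤ Real.exp (R ^ 2) *
        (Real.exp (-(s.im / W) ^ 2) + Real.exp (-(s.im / V) ^ 2)) := by
      unfold dg
      refine (norm_sub_le _ _).trans ?_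
      rw [mul_add]
      exact add_le_add (gau_norm hW hs) (gau_norm hV hs)
    refine (div_le_self (norm_nonneg _) hn).trans (h1.trans ?_)
    apply mul_le_mul_of_nonneg_right _ (by positivity)
    have : 0 ≤ |M0| * Real.exp 1 := by positivity
    linarith

/-- The high integrand. -/
noncomputable def hk (F : Sel) (V Y : ℝ) (a : ℕ → ℂ) (s : ℂ) : ℂ :=
  F.chi s * dsum a s * dslope (dg Y V) 0 s

theorem hk_dif (F : Sel) (V Y : ℝ) (k : ℕ) {s : ℂ} (hs : s.re < 1) :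
    DifferentiableAt ℂ (hk F V Y (F.blk k)) s := by
  have h1 : DifferentiableAt ℂ F.chi s :=
    (chi_diff F s hs).differentiableAt
      ((isOpen_lt Complex.continuous_re continuous_const).mem_nhds hs)
  have h2 : DifferentiableAt ℂ (dsum (F.blk k)) s := blk_diff F k s
  have h3 := dg_dslope_diff Y V s
  exact (h1.mul h2).mul h3

theorem hk_strip (F : Sel) {V Y x : ℝ} (hV : 1 ≤ V) (hY : 1 ≤ Y) (hx : 0 < x) (k : ℕ) :
    ∃ B : ℝ, ∀ s : ℂ, -(1 / 2) ≤ s.re → s.re ≤ 1 / 2 →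
      ‖hk F V Y (F.blk k) s * (x : ℂ) ^ s‖ ≤ B / (1 + s.im ^ 2) := by
  obtain ⟨C1, hC1, h1⟩ := chi_bound F (-(1 / 2)) (1 / 2) (by norm_num)
  obtain ⟨C2, hC2, h2⟩ := blk_bound F k (-(1 / 2)) (1 / 2)
  obtain ⟨M, hM, h3⟩ := dg_bound (R := 1 / 2) hY hV
  have hd := low_deg_nonneg F
  set q : ℝ := F.deg * (1 / 2 + 1 / 2) with hq
  have hq0 : 0 ≤ q := by positivity
  obtain ⟨C4, hC4, h4⟩ := pow_gauss (q := q + 2) (by linarith)
  refine ⟨C1 * C2 * M * (C4 * Y ^ (q + 2) + C4 * V ^ (q + 2)) *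
    (x ^ (-(1 / 2) : ℝ) + x ^ (1 / 2 : ℝ)), fun s hs1 hs2 => ?_⟩
  have ht : 0 < 1 + s.im ^ 2 := by positivity
  rw [le_div_iff₀ ht]
  have ha : ‖F.chi s‖ ≤ C1 * (1 + |s.im|) ^ q := by
    have h5 := h1 s.re ⟨hs1, hs2⟩ s.im
    rw [← ln_eq] at h5
    refine h5.trans (mul_le_mul_of_nonneg_left ?_ hC1.le)
    apply Real.rpow_le_rpow_of_exponent_le
    · linarith [abs_nonneg s.im]
    · rw [hq]
      apply mul_le_mul_of_nonneg_left _ hd
      linarith
  have hb := h2 s hs1 hs2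
  have hc := h3 s (by rw [abs_le]; constructor <;> linarith)
  have hdx : ‖(x : ℂ) ^ s‖ ≤ x ^ (-(1 / 2) : ℝ) + x ^ (1 / 2 : ℝ) := by
    rw [Complex.norm_cpow_eq_rpow_re_of_pos hx]
    have e1 : 0 < x ^ (-(1 / 2) : ℝ) := Real.rpow_pos_of_pos hx _
    have e2 : 0 < x ^ (1 / 2 : ℝ) := Real.rpow_pos_of_pos hx _
    rcases le_total 1 x with h | h
    · have := Real.rpow_le_rpow_of_exponent_le h hs2
      linarith
    · have := Real.rpow_le_rpow_of_exponent_ge hx h hs1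
      linarith
  have ht1 : 1 + s.im ^ 2 ≤ (1 + |s.im|) ^ (2 : ℝ) := by
    rw [Real.rpow_two]
    nlinarith [abs_nonneg s.im, sq_abs s.im]
  have hp : 0 < 1 + |s.im| := by positivity
  have hpg : ∀ W : ℝ, 1 ≤ W → (1 + |s.im|) ^ q * Real.exp (-(s.im / W) ^ 2) * (1 + s.im ^ 2) ≤
      C4 * W ^ (q + 2) := by
    intro W hW
    have e1 := h4 W hW s.im
    rw [Real.rpow_add hp] at e1
    refine le_trans ?_ e1
    calc (1 + |s.im|) ^ q * Real.exp (-(s.im / W) ^ 2) * (1 + s.im ^ 2)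
        ≤ (1 + |s.im|) ^ q * Real.exp (-(s.im / W) ^ 2) * (1 + |s.im|) ^ (2 : ℝ) :=
          mul_le_mul_of_nonneg_left ht1 (by positivity)
      _ = _ := by ring
  unfold hk
  rw [norm_mul, norm_mul, norm_mul]
  calc ‖F.chi s‖ * ‖dsum (F.blk k) s‖ * ‖dslope (dg Y V) 0 s‖ * ‖(x : ℂ) ^ s‖ *
        (1 + s.im ^ 2)
      ≤ (C1 * (1 + |s.im|) ^ q) * C2 *
          (M * (Real.exp (-(s.im / Y) ^ 2) + Real.exp (-(s.im / V) ^ 2))) *
          (x ^ (-(1 / 2) : ℝ) + x ^ (1 / 2 : ℝ)) * (1 + s.im ^ 2) := by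
        gcongr
    _ = C1 * C2 * M * ((1 + |s.im|) ^ q * Real.exp (-(s.im / Y) ^ 2) * (1 + s.im ^ 2) +
          (1 + |s.im|) ^ q * Real.exp (-(s.im / V) ^ 2) * (1 + s.im ^ 2)) *
          (x ^ (-(1 / 2) : ℝ) + x ^ (1 / 2 : ℝ)) := by ring
    _ ≤ _ := by
        have e1 := hpg Y hY
        have e2 := hpg V hV
        have e3 : 0 < x ^ (-(1 / 2) : ℝ) := Real.rpow_pos_of_pos hx _
        have e4 : 0 < x ^ (1 / 2 : ℝ) := Real.rpow_pos_of_pos hx _
        gcongr

theorem hk_line_cont (F : Sel) (V Y : ℝ) (k : ℕ) {c : ℝ} (hc : c < 1) :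
    Continuous (fun t : ℝ => hk F V Y (F.blk k) (ln c t)) := by
  rw [continuous_iff_continuousAt]
  intro t
  have h3 : ContinuousAt (hk F V Y (F.blk k)) (ln c t) :=
    (hk_dif F V Y k (by rw [ln_re]; exact hc)).continuousAt
  exact ContinuousAt.comp (f := fun t : ℝ => ln c t) h3 (ln_cont' c).continuousAt

theorem hk_line_int (F : Sel) {V Y c : ℝ} (hV : 1 ≤ V) (hY : 1 ≤ Y) (k : ℕ)
    (h1 : -(1 / 2) ≤ c) (h2 : c ≤ 1 / 2) :
    Integrable (fun t : ℝ => hk F V Y (F.blk k) (ln c t)) := by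
  obtain ⟨B, hB⟩ := hk_strip F hV hY one_pos k
  have hint : Integrable (fun t : ℝ => B * (1 + t ^ 2)⁻¹) := integrable_inv_one_add_sq.const_mul B
  refine hint.mono' (hk_line_cont F V Y k (by linarith)).aestronglyMeasurable ?_
  filter_upwards with t
  have h := hB (ln c t) (by rw [ln_re]; exact h1) (by rw [ln_re]; exact h2)
  rw [ln_im] at h
  simpa [div_eq_mul_inv] using h

theorem hk_shift (F : Sel) {V Y x : ℝ} (hV : 1 ≤ V) (hY : 1 ≤ Y) (hx : 0 < x) (k : ℕ) :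
    vint (-(1 / 2)) (fun t => hk F V Y (F.blk k) (ln (-(1 / 2)) t)) x =
      vint (1 / 2) (fun t => hk F V Y (F.blk k) (ln (1 / 2) t)) x := by
  obtain ⟨B, hB⟩ := hk_strip F hV hY hx k
  unfold vint
  congr 1
  refine shift_lines (H := fun s => hk F V Y (F.blk k) s * (x : ℂ) ^ s) (by norm_num)
    (fun s _ h2 => ?_) hB
  have h4 : DifferentiableAt ℂ (fun s : ℂ => (x : ℂ) ^ s) s :=
    differentiableAt_id.const_cpow (Or.inl (by exact_mod_cast hx.ne'))
  exact (hk_dif F V Y k (by linarith)).mul h4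

theorem ln_ne {c : ℝ} (hc : c ≠ 0) (t : ℝ) : ln c t ≠ 0 := by
  intro h
  have := congrArg Complex.re h
  rw [ln_re, Complex.zero_re] at this
  exact hc this

theorem vint_add' {c : ℝ} {f g : ℝ → ℂ} (hf : Integrable f) (hg : Integrable g) {x : ℝ}
    (hx : 0 < x) : vint c (fun t => f t + g t) x = vint c f x + vint c g x := by
  unfold vint
  rw [← mul_add, ← integral_add (bil_integrable hf hx) (bil_integrable hg hx)]
  congr 2
  funext t
  ring

theorem vint_sum' {c : ℝ} {ι : Type*} (s : Finset ι) {f : ι → ℝ → ℂ}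
    (hf : ∀ i ∈ s, Integrable (f i)) {x : ℝ} (hx : 0 < x) :
    vint c (fun t => ∑ i ∈ s, f i t) x = ∑ i ∈ s, vint c (f i) x := by
  unfold vint
  rw [← Finset.mul_sum, ← integral_finsetSum _ fun i hi => bil_integrable (hf i hi) hx]
  congr 2
  funext t
  rw [Finset.sum_mul]

/-- the decomposition with general parameters `V k` -/
theorem dec_gen (F : Sel) {A Y x : ℝ} (hA : 1 / 2 ≤ A) (hY : 1 ≤ Y) (hx : 0 < x) (K : ℕ)
    (V : ℕ → ℝ) (hV : ∀ k, 1 ≤ V k) :
    F.EV Y x - F.L 0 =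
      (∑ k ∈ Finset.range K, vint (-A) (fun t => lk F (V k) (F.blk k) (ln (-A) t)) x) +
      vint (-A) (fun t => lk F Y (F.tl K) (ln (-A) t)) x +
      ∑ k ∈ Finset.range K, vint (1 / 2) (fun t => hk F (V k) Y (F.blk k) (ln (1 / 2) t)) x := by
  obtain ⟨C, _, hline⟩ := lk_line F (A := 1 / 2) le_rfl
  have hi1 : ∀ k, Integrable (fun t : ℝ => lk F (V k) (F.blk k) (ln (-(1 / 2)) t)) := fun k =>
    (hline k _ (pc_blk F k) (V k) (hV k)).1
  have hi2 : Integrable (fun t : ℝ => lk F Y (F.tl K) (ln (-(1 / 2)) t)) :=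
    (hline K _ (pc_tl F K) Y hY).1
  have hi3 : ∀ k, Integrable (fun t : ℝ => hk F (V k) Y (F.blk k) (ln (-(1 / 2)) t)) := fun k =>
    hk_line_int F (hV k) hY k le_rfl (by norm_num)
  rw [EV_left F (ε := 1 / 2) (by norm_num) le_rfl (by linarith) hx, add_sub_cancel_left]
  have hpt : F.full (1 / 2) Y = fun t =>
      (∑ k ∈ Finset.range K, lk F (V k) (F.blk k) (ln (-(1 / 2)) t)) +
        lk F Y (F.tl K) (ln (-(1 / 2)) t) +
        ∑ k ∈ Finset.range K, hk F (V k) Y (F.blk k) (ln (-(1 / 2)) t) := by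
    funext t
    have h1 : (ln (-(1 / 2)) t).re < 0 := by rw [ln_re]; norm_num
    have h0 : ln (-(1 / 2)) t ≠ 0 := ln_ne (by norm_num) t
    unfold Sel.full
    rw [fe_left F _ h1, dsum_split F K h1]
    have h2 : ∀ k, hk F (V k) Y (F.blk k) (ln (-(1 / 2)) t) =
        F.chi (ln (-(1 / 2)) t) / ln (-(1 / 2)) t * dsum (F.blk k) (ln (-(1 / 2)) t) *
          cexp ((ln (-(1 / 2)) t) ^ 2 / (Y : ℂ) ^ 2) - lk F (V k) (F.blk k) (ln (-(1 / 2)) t) := by
      intro k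
      unfold hk lk
      rw [dg_dslope_of_ne _ _ h0]
      unfold dg
      ring
    simp_rw [h2, Finset.sum_sub_distrib, ← Finset.sum_mul, ← Finset.mul_sum]
    unfold lk
    ring
  have hj1 : Integrable (fun t : ℝ => ∑ k ∈ Finset.range K,
      lk F (V k) (F.blk k) (ln (-(1 / 2)) t)) := integrable_finsetSum _ fun k _ => hi1 k
  have hj12 : Integrable (fun t : ℝ => (∑ k ∈ Finset.range K,
      lk F (V k) (F.blk k) (ln (-(1 / 2)) t)) + lk F Y (F.tl K) (ln (-(1 / 2)) t)) := hj1.add hi2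
  have hj3 : Integrable (fun t : ℝ => ∑ k ∈ Finset.range K,
      hk F (V k) Y (F.blk k) (ln (-(1 / 2)) t)) := integrable_finsetSum _ fun k _ => hi3 k
  rw [hpt, vint_add' hj12 hj3 hx, vint_add' hj1 hi2 hx,
    vint_sum' (Finset.range K) (fun k _ => hi1 k) hx,
    vint_sum' (Finset.range K) (fun k _ => hi3 k) hx]
  congr 1
  · congr 1
    · exact Finset.sum_congr rfl fun k _ => lk_shift F hA (pc_blk F k) (hV k) hx
    · exact lk_shift F hA (pc_tl F K) hY hx
  · exact Finset.sum_congr rfl fun k _ => hk_shift F (hV k) hY hx k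

end DAD
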