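import Pool.Agent.DAD.KInt
import Pool.Agent.DAD.Kd1
import Pool.Agent.WYL.Ltw

set_option autoImplicit false

/-!
# DAD/High: the high frequencies

`F.EV Y = (F.EV Y - F.EV U) + F.EV U`, `U = 2^k`.
(1) `∫ (F.EV Y - F.EV U) (K.E - K.EV U)`: `E_smooth` (`≤ C X^(1+ε)/U` on `(0, 2X]`) times
`WYL.EV_tail` (`T = 2X`): `≤ C X^(5/2+ε) U^(-3/2) Y^(2η)`.
(2) `∫ F.EV U (K.E - K.EV U)`: integration by parts with `G x = ∫_a^x (K.E - K.EV U)`, `K_int`:
`‖F.EV U b‖ ‖G b‖ + ∫_a^b ‖deriv (F.EV U)‖ ‖G‖`; `‖F.EV U x‖ ≤ C x^(1/2) U^η`, and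
`∫_a^b ‖deriv (F.EV U)‖ ≤ C X^(1/2) U^(1/2+η)`: `x * deriv (F.EV U) x = vint (1/2) (s * F.Lam U)`, its square
in mean by `HYM.vint_sq` and `WYL.ms_pow`.
-/

open Complex MeasureTheory

namespace DAD

open HYM WYL

theorem swap_tri {u g : ℝ → ℂ} {a b : ℝ} (hab : a ≤ b) (hu : ContinuousOn u (Set.Icc a b))
    (hg : IntervalIntegrable g volume a b) :
    ∫ x in a..b, (∫ t in x..b, u t) * g x = ∫ t in a..b, u t * ∫ x in a..t, g x := by
  have hu' : Integrable u (volume.restrict (Set.Ioc a b)) :=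
    (hu.integrableOn_Icc).mono_set Set.Ioc_subset_Icc_self
  have hg' : Integrable g (volume.restrict (Set.Ioc a b)) :=
    (intervalIntegrable_iff_integrableOn_Ioc_of_le hab).1 hg
  set μ := volume.restrict (Set.Ioc a b) with hμ
  set F : ℝ → ℝ → ℂ := fun x t => if x < t then u t * g x else 0 with hF
  have hFi : Integrable (Function.uncurry F) (μ.prod μ) := by
    have h1 : Integrable (fun z : ℝ × ℝ => g z.1 * u z.2) (μ.prod μ) := hg'.mul_prod hu'
    have h2 : MeasurableSet {z : ℝ × ℝ | z.1 < z.2} := measurableSet_lt measurable_fst measurable_snd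
    refine (h1.indicator h2).congr (Filter.Eventually.of_forall fun z => ?_)
    simp only [Set.indicator, Set.mem_ofPred_eq, Function.uncurry, hF]
    split_ifs
    · ring
    · rfl
  have hsw := integral_integral_swap hFi
  rw [intervalIntegral.integral_of_le hab, intervalIntegral.integral_of_le hab]
  have e1 : ∫ x in Set.Ioc a b, (∫ t in x..b, u t) * g x = ∫ x, ∫ t, F x t ∂μ ∂μ := by
    refine setIntegral_congr_fun measurableSet_Ioc fun x hx => ?_
    have h1 : ∀ t, F x t = (Set.Ioi x).indicator (fun t => u t * g x) t := by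
      intro t
      simp only [hF, Set.indicator, Set.mem_Ioi]
    simp only [h1]
    rw [hμ, setIntegral_indicator measurableSet_Ioi, Set.Ioc_inter_Ioi, max_eq_right hx.1.le,
      integral_mul_const, intervalIntegral.integral_of_le hx.2]
  have e2 : ∫ t in Set.Ioc a b, u t * (∫ x in a..t, g x) = ∫ t, ∫ x, F x t ∂μ ∂μ := by
    refine setIntegral_congr_fun measurableSet_Ioc fun t ht => ?_
    have h1 : ∀ x, F x t = (Set.Iio t).indicator (fun x => u t * g x) x := by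
      intro x
      simp only [hF, Set.indicator, Set.mem_Iio]
    simp only [h1]
    have h2 : Set.Ioc a b ∩ Set.Iio t = Set.Ioo a t := by
      ext x
      simp only [Set.mem_inter_iff, Set.mem_Ioc, Set.mem_Iio, Set.mem_Ioo]
      constructor
      · rintro ⟨⟨h3, _⟩, h4⟩
        exact ⟨h3, h4⟩
      · rintro ⟨h3, h4⟩
        exact ⟨⟨h3, h4.le.trans ht.2⟩, h4⟩
    rw [hμ, setIntegral_indicator measurableSet_Iio, h2, integral_const_mul,
      intervalIntegral.integral_of_le ht.1.le, integral_Ioc_eq_integral_Ioo]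
  rw [e1, e2, hsw]

theorem parts_bound {f g : ℝ → ℂ} {a b M : ℝ} (hab : a ≤ b)
    (hf : ∀ x ∈ Set.Icc a b, DifferentiableAt ℝ f x) (hf' : ContinuousOn (deriv f) (Set.Icc a b))
    (hg : IntervalIntegrable g volume a b)
    (hG : ∀ x ∈ Set.Icc a b, ‖∫ t in a..x, g t‖ ≤ M) :
    ‖∫ x in a..b, f x * g x‖ ≤ M * (‖f b‖ + ∫ x in a..b, ‖deriv f x‖) := by
  have hfc : ContinuousOn f (Set.Icc a b) := fun x hx => (hf x hx).continuousAt.continuousWithinAt
  have h1 : ∀ x ∈ Set.uIcc a b, f x * g x = f b * g x - (∫ t in x..b, deriv f t) * g x := by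
    intro x hx
    rw [Set.uIcc_of_le hab] at hx
    have hsub : Set.uIcc x b ⊆ Set.Icc a b := by
      rw [Set.uIcc_of_le hx.2]
      exact Set.Icc_subset_Icc_left hx.1
    have h2 : ∫ t in x..b, deriv f t = f b - f x :=
      intervalIntegral.integral_deriv_eq_sub (fun t ht => hf t (hsub ht))
        ((hf'.mono hsub).intervalIntegrable)
    rw [h2]
    ring
  have i1 : IntervalIntegrable (fun x => f b * g x) volume a b := hg.const_mul _
  have i2 : IntervalIntegrable (fun x => (∫ t in x..b, deriv f t) * g x) volume a b := by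
    have hc : ContinuousOn (fun x => f b - f x) (Set.uIcc a b) := by
      rw [Set.uIcc_of_le hab]
      exact continuousOn_const.sub hfc
    refine (hg.continuousOn_mul hc).congr fun x hx => ?_
    have hx' : x ∈ Set.Icc a b := by
      rw [Set.uIoc_of_le hab] at hx
      exact Set.Ioc_subset_Icc_self hx
    have hsub : Set.uIcc x b ⊆ Set.Icc a b := by
      rw [Set.uIcc_of_le hx'.2]
      exact Set.Icc_subset_Icc_left hx'.1
    have h2 : ∫ t in x..b, deriv f t = f b - f x :=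
      intervalIntegral.integral_deriv_eq_sub (fun t ht => hf t (hsub ht))
        ((hf'.mono hsub).intervalIntegrable)
    simp only [h2]
  rw [intervalIntegral.integral_congr h1, intervalIntegral.integral_sub i1 i2,
    intervalIntegral.integral_const_mul, swap_tri hab hf' hg]
  have hb : b ∈ Set.Icc a b := Set.right_mem_Icc.2 hab
  have h3 : ‖f b * ∫ x in a..b, g x‖ ≤ M * ‖f b‖ := by
    rw [norm_mul, mul_comm]
    exact mul_le_mul_of_nonneg_right (hG b hb) (norm_nonneg _)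
  have i3 : IntervalIntegrable (fun t => M * ‖deriv f t‖) volume a b := by
    have : ContinuousOn (deriv f) (Set.uIcc a b) := by
      rw [Set.uIcc_of_le hab]
      exact hf'
    exact (this.norm.intervalIntegrable).const_mul M
  have h4 : ‖∫ t in a..b, deriv f t * ∫ x in a..t, g x‖ ≤ M * ∫ t in a..b, ‖deriv f t‖ := by
    rw [← intervalIntegral.integral_const_mul]
    refine intervalIntegral.norm_integral_le_of_norm_le hab
      (Filter.Eventually.of_forall fun t ht => ?_) i3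
    rw [norm_mul, mul_comm]
    exact mul_le_mul_of_nonneg_right (hG t (Set.Ioc_subset_Icc_self ht)) (norm_nonneg _)
  calc _ ≤ ‖f b * ∫ x in a..b, g x‖ + ‖∫ t in a..b, deriv f t * ∫ x in a..t, g x‖ :=
        norm_sub_le _ _
    _ ≤ M * ‖f b‖ + M * ∫ t in a..b, ‖deriv f t‖ := add_le_add h3 h4
    _ = _ := by ring

/-- The first moment of `F.Lam` for a function of degree at most two. -/
theorem Lam_L1' (F : Sel) (hF : F.deg ≤ 2) {η : ℝ} (hη : 0 < η) : ∃ C : ℝ, 0 < C ∧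
    ∀ V : ℝ, 1 ≤ V → ∫ t : ℝ, ‖F.Lam V t‖ ≤ C * V ^ η := by
  obtain ⟨C, hC, H⟩ := ms_pow F hF (q := η / 2) (ε := η / 2) (by positivity) (by positivity)
  have hφ := phi_integrable (δ := η / 4) (by positivity)
  set Φ : ℝ := ∫ v : ℝ, (1 + |v|) ^ (-1 - 2 * (η / 4)) with hΦ
  have hΦ0 : 0 ≤ Φ := integral_nonneg fun v => by positivity
  refine ⟨3 * Real.exp 1 * (C + Φ), by positivity, fun V hV => ?_⟩
  obtain ⟨i1, b1⟩ := H V hV
  have hpt : ∀ t : ℝ, ‖F.Lam V t‖ ≤ 3 * Real.exp 1 * ((1 + |t|) ^ (η / 2) *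
      ((1 + |t|)⁻¹ * Real.exp (-(t / V) ^ 2) * ‖F.L (ln (1 / 2) t)‖ ^ 2) +
        (1 + |t|) ^ (-1 - 2 * (η / 4))) := by
    intro t
    unfold Sel.Lam
    rw [norm_mul, norm_div]
    have h1 := ln_half_norm t
    set w : ℝ := 1 + |t| with hw
    have ht : 0 < w := by positivity
    set ℓ : ℝ := ‖F.L (ln (1 / 2) t)‖ with hℓ
    have hℓ0 : 0 ≤ ℓ := norm_nonneg _
    have h3 : ‖ln (1 / 2) t‖⁻¹ ≤ 3 * w⁻¹ := by
      rw [inv_le_comm₀ (lt_of_lt_of_le (by positivity) h1) (by positivity), mul_inv, inv_inv]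
      linarith
    have hg0 : Real.exp (-(t / V) ^ 2) ≤ 1 := Real.exp_le_one_iff.2 (by
      have := sq_nonneg (t / V)
      linarith)
    have hgp := Real.exp_pos (-(t / V) ^ 2)
    set A : ℝ := w ^ (η / 4) with hA
    have hA0 : 0 < A := by positivity
    have e1 : w ^ (η / 2) = A * A := by
      rw [hA, ← Real.rpow_add ht]
      congr 1
      ring
    have e2 : w ^ (-1 - 2 * (η / 4)) = w⁻¹ * (A⁻¹ * A⁻¹) := by
      rw [hA, ← Real.rpow_neg_one, ← Real.rpow_neg ht.le, ← Real.rpow_add ht, ← Real.rpow_add ht]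
      congr 1
      ring
    have h4 : ℓ ≤ A * A * ℓ ^ 2 + A⁻¹ * A⁻¹ := by
      have h5 : A * A⁻¹ = 1 := mul_inv_cancel₀ hA0.ne'
      have h6 : 0 ≤ (A * ℓ - A⁻¹) ^ 2 := sq_nonneg _
      have h7 : (A * ℓ - A⁻¹) ^ 2 = A * A * ℓ ^ 2 - 2 * (A * A⁻¹) * ℓ + A⁻¹ * A⁻¹ := by ring
      rw [h7, h5] at h6
      linarith
    rw [e1, e2]
    calc ℓ / ‖ln (1 / 2) t‖ * ‖cexp ((ln (1 / 2) t) ^ 2 / (V : ℂ) ^ 2)‖ ≤
        (ℓ * (3 * w⁻¹)) * (Real.exp 1 * Real.exp (-(t / V) ^ 2)) := by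
          refine mul_le_mul ?_ (gauss_half_norm hV t) (norm_nonneg _) (by positivity)
          rw [div_eq_mul_inv]
          exact mul_le_mul_of_nonneg_left h3 hℓ0
      _ = 3 * Real.exp 1 * (w⁻¹ * Real.exp (-(t / V) ^ 2) * ℓ) := by ring
      _ ≤ 3 * Real.exp 1 * (w⁻¹ * Real.exp (-(t / V) ^ 2) * (A * A * ℓ ^ 2 + A⁻¹ * A⁻¹)) := by
          refine mul_le_mul_of_nonneg_left ?_ (by positivity)
          exact mul_le_mul_of_nonneg_left h4 (by positivity)
      _ = 3 * Real.exp 1 * (A * A * (w⁻¹ * Real.exp (-(t / V) ^ 2) * ℓ ^ 2) +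
          w⁻¹ * (A⁻¹ * A⁻¹) * Real.exp (-(t / V) ^ 2)) := by ring
      _ ≤ 3 * Real.exp 1 * (A * A * (w⁻¹ * Real.exp (-(t / V) ^ 2) * ℓ ^ 2) +
          w⁻¹ * (A⁻¹ * A⁻¹)) := by
          refine mul_le_mul_of_nonneg_left ?_ (by positivity)
          have h8 : w⁻¹ * (A⁻¹ * A⁻¹) * Real.exp (-(t / V) ^ 2) ≤ w⁻¹ * (A⁻¹ * A⁻¹) * 1 :=
            mul_le_mul_of_nonneg_left hg0 (by positivity)
          linarith
  have hVe : (1 : ℝ) ≤ V ^ η := Real.one_le_rpow hV hη.le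
  calc ∫ t : ℝ, ‖F.Lam V t‖ ≤ ∫ t : ℝ, 3 * Real.exp 1 * ((1 + |t|) ^ (η / 2) *
      ((1 + |t|)⁻¹ * Real.exp (-(t / V) ^ 2) * ‖F.L (ln (1 / 2) t)‖ ^ 2) +
        (1 + |t|) ^ (-1 - 2 * (η / 4))) :=
        integral_mono (Lam_int F hF hV).norm ((i1.add hφ).const_mul (3 * Real.exp 1)) hpt
    _ = 3 * Real.exp 1 * ((∫ t : ℝ, (1 + |t|) ^ (η / 2) *
      ((1 + |t|)⁻¹ * Real.exp (-(t / V) ^ 2) * ‖F.L (ln (1 / 2) t)‖ ^ 2)) + Φ) := by
        rw [integral_const_mul, integral_add i1 hφ]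
    _ ≤ 3 * Real.exp 1 * (C * V ^ (η / 2 + η / 2) + Φ * V ^ η) := by
        refine mul_le_mul_of_nonneg_left (add_le_add b1 ?_) (by positivity)
        exact le_mul_of_one_le_right hΦ0 hVe
    _ = _ := by
        rw [add_halves]
        ring

theorem EV_sup (F : Sel) (hF : F.deg ≤ 2) {η : ℝ} (hη : 0 < η) : ∃ C : ℝ, 0 < C ∧
    ∀ V : ℝ, 1 ≤ V → ∀ x : ℝ, 0 < x → ‖F.EV V x‖ ≤ C * V ^ η * x ^ (1 / 2 : ℝ) := by
  obtain ⟨C, hC, H⟩ := Lam_L1' F hF hη
  refine ⟨C, hC, fun V hV x hx => ?_⟩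
  have e1 : F.EV V x = vint (1 / 2) (F.Lam V) x := rfl
  rw [e1, mul_comm]
  refine (vint_norm_le hx).trans ?_
  exact mul_le_mul_of_nonneg_left (H V hV) (by positivity)

/-- Cauchy-Schwarz on an interval. -/
theorem cs_int {a b : ℝ} (hab : a ≤ b) {g : ℝ → ℝ} (h1 : IntervalIntegrable g volume a b)
    (h2 : IntervalIntegrable (fun x => g x ^ 2) volume a b) :
    (∫ x in a..b, g x) ^ 2 ≤ (b - a) * ∫ x in a..b, g x ^ 2 := by
  rcases hab.eq_or_lt with rfl | hlt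
  · simp
  have hT : 0 < b - a := by linarith
  set T : ℝ := b - a with hTd
  set J : ℝ := ∫ x in a..b, g x with hJ
  have h3 : 0 ≤ ∫ x in a..b, (g x - J / T) ^ 2 :=
    intervalIntegral.integral_nonneg hab fun x _ => sq_nonneg _
  have h4 : ∫ x in a..b, (g x - J / T) ^ 2 =
      (∫ x in a..b, g x ^ 2) - 2 * (J / T) * J + T * (J / T) ^ 2 := by
    have e : ∀ x ∈ Set.uIcc a b, (g x - J / T) ^ 2 =
        g x ^ 2 - 2 * (J / T) * g x + (J / T) ^ 2 := fun x _ => by ring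
    rw [intervalIntegral.integral_congr e, intervalIntegral.integral_add
      (h2.sub (h1.const_mul _)) intervalIntegrable_const,
      intervalIntegral.integral_sub h2 (h1.const_mul _), intervalIntegral.integral_const_mul,
      intervalIntegral.integral_const, ← hJ]
    simp [hTd]
  rw [h4] at h3
  have h5 : 2 * (J / T) * J - T * (J / T) ^ 2 = J ^ 2 / T := by
    field_simp
    ring
  have h6 : J ^ 2 / T ≤ ∫ x in a..b, g x ^ 2 := by linarith
  rw [div_le_iff₀ hT] at h6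
  linarith

theorem EV_deriv_L1 (F : Sel) (hF : F.deg ≤ 2) {η : ℝ} (hη : 0 < η) : ∃ C : ℝ, 0 < C ∧
    ∀ U X a b : ℝ, 1 ≤ U → 1 ≤ X → X ≤ a → a ≤ b → b ≤ 2 * X →
      ∫ x in a..b, ‖deriv (F.EV U) x‖ ≤ C * (X ^ (1 / 2 : ℝ) * U ^ (1 / 2 : ℝ)) * U ^ (2 * η) := by
  obtain ⟨A, hA, HA⟩ := vint_sq (c := 1 / 2) (δ := η) (by norm_num) hη
  obtain ⟨B, hB, HB⟩ := ms_pow F hF (q := 1 + 2 * η) (ε := η) (by positivity) hη
  refine ⟨√(4 * A * (Real.exp 1 ^ 2 * B)), by positivity, fun U X a b hU hX hXa hab hb => ?_⟩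
  have hU0 : 0 < U := by linarith
  have hX0 : 0 < X := by linarith
  have ha0 : 0 < a := by linarith
  obtain ⟨i1, b1⟩ := HB U hU
  set f : ℝ → ℂ := fun t => ln (1 / 2) t * F.Lam U t with hf
  have hfc : Continuous f := (ln_continuous _).mul (Lam_continuous F U)
  have hfi : Integrable f := by
    have h := Lam_poly F hU 1
    refine h.mono' hfc.aestronglyMeasurable (Filter.Eventually.of_forall fun t => ?_)
    simp only [hf, pow_one]
    rw [norm_mul]
    exact mul_le_mul_of_nonneg_right (ln_half_norm_le t) (norm_nonneg _)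
  have hpt : ∀ t : ℝ, (1 + |t|) ^ (2 * η) * ‖f t‖ ^ 2 ≤ Real.exp 1 ^ 2 * ((1 + |t|) ^ (1 + 2 * η) *
      ((1 + |t|)⁻¹ * Real.exp (-(t / U) ^ 2) * ‖F.L (ln (1 / 2) t)‖ ^ 2)) := by
    intro t
    have e1 : f t = F.L (ln (1 / 2) t) * cexp ((ln (1 / 2) t) ^ 2 / (U : ℂ) ^ 2) := by
      simp only [hf, Sel.Lam]
      rw [← mul_assoc, mul_div_assoc', mul_div_cancel_left₀ _ (ln_half_ne t)]
    have h1 := gauss_half_norm hU t
    have hg0 : Real.exp (-(t / U) ^ 2) ≤ 1 := Real.exp_le_one_iff.2 (by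
      have := sq_nonneg (t / U)
      linarith)
    have hgp := Real.exp_pos (-(t / U) ^ 2)
    have ht : 0 < 1 + |t| := by positivity
    have e2 : (1 + |t|) ^ (1 + 2 * η) = (1 + |t|) * (1 + |t|) ^ (2 * η) := by
      rw [Real.rpow_add ht, Real.rpow_one]
    rw [e1, norm_mul, e2, mul_pow]
    have h2 : ‖cexp ((ln (1 / 2) t) ^ 2 / (U : ℂ) ^ 2)‖ ^ 2 ≤
        Real.exp 1 ^ 2 * Real.exp (-(t / U) ^ 2) := by
      calc ‖cexp ((ln (1 / 2) t) ^ 2 / (U : ℂ) ^ 2)‖ ^ 2 ≤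
          (Real.exp 1 * Real.exp (-(t / U) ^ 2)) ^ 2 := pow_le_pow_left₀ (norm_nonneg _) h1 2
        _ = Real.exp 1 ^ 2 * (Real.exp (-(t / U) ^ 2) * Real.exp (-(t / U) ^ 2)) := by ring
        _ ≤ Real.exp 1 ^ 2 * (Real.exp (-(t / U) ^ 2) * 1) := by
            refine mul_le_mul_of_nonneg_left ?_ (by positivity)
            exact mul_le_mul_of_nonneg_left hg0 hgp.le
        _ = _ := by ring
    calc (1 + |t|) ^ (2 * η) * (‖F.L (ln (1 / 2) t)‖ ^ 2 *
          ‖cexp ((ln (1 / 2) t) ^ 2 / (U : ℂ) ^ 2)‖ ^ 2) ≤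
        (1 + |t|) ^ (2 * η) * (‖F.L (ln (1 / 2) t)‖ ^ 2 *
          (Real.exp 1 ^ 2 * Real.exp (-(t / U) ^ 2))) := by
          refine mul_le_mul_of_nonneg_left ?_ (by positivity)
          exact mul_le_mul_of_nonneg_left h2 (by positivity)
      _ = _ := by
          field_simp
  have hji : Integrable (fun t : ℝ => (1 + |t|) ^ (2 * η) * ‖f t‖ ^ 2) := by
    refine (i1.const_mul (Real.exp 1 ^ 2)).mono' ?_ (Filter.Eventually.of_forall fun t => ?_)
    · exact ((rpow_cont _).mul (hfc.norm.pow 2)).aestronglyMeasurable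
    · rw [Real.norm_of_nonneg (by positivity)]
      exact hpt t
  have hjb : ∫ t : ℝ, (1 + |t|) ^ (2 * η) * ‖f t‖ ^ 2 ≤
      Real.exp 1 ^ 2 * (B * U ^ (1 + 2 * η + η)) := by
    calc _ ≤ ∫ t : ℝ, Real.exp 1 ^ 2 * ((1 + |t|) ^ (1 + 2 * η) *
      ((1 + |t|)⁻¹ * Real.exp (-(t / U) ^ 2) * ‖F.L (ln (1 / 2) t)‖ ^ 2)) :=
          integral_mono hji (i1.const_mul _) hpt
      _ = Real.exp 1 ^ 2 * ∫ t : ℝ, ((1 + |t|) ^ (1 + 2 * η) *
      ((1 + |t|)⁻¹ * Real.exp (-(t / U) ^ 2) * ‖F.L (ln (1 / 2) t)‖ ^ 2)) := integral_const_mul _ _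
      _ ≤ _ := mul_le_mul_of_nonneg_left b1 (by positivity)
  have hsq := HA (2 * X) (by positivity) f hfi hji
  have e3 : (1 : ℝ) + 2 * (1 / 2) = 2 := by norm_num
  rw [e3] at hsq
  obtain ⟨hd, hdc⟩ := EV_differentiable F hU
  have hIcc : Set.Icc a b ⊆ Set.Ioi 0 := fun x hx => lt_of_lt_of_le ha0 hx.1
  have hdc' : ContinuousOn (deriv (F.EV U)) (Set.uIcc a b) := by
    rw [Set.uIcc_of_le hab]
    exact hdc.mono hIcc
  have hcs := cs_int hab (g := fun x => ‖deriv (F.EV U) x‖) hdc'.norm.intervalIntegrable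
    (hdc'.norm.pow 2).intervalIntegrable
  have hv2 : IntervalIntegrable (fun x => ‖vint (1 / 2) f x‖ ^ 2) volume 0 (2 * X) :=
    vint_sq_ii (by norm_num) (by positivity) hfi
  have hs1 : ∫ x in a..b, ‖deriv (F.EV U) x‖ ^ 2 ≤ (X ^ 2)⁻¹ *
      ∫ x in (0 : ℝ)..(2 * X), ‖vint (1 / 2) f x‖ ^ 2 := by
    have hsub : Set.uIcc a b ⊆ Set.uIcc 0 (2 * X) := by
      rw [Set.uIcc_of_le hab, Set.uIcc_of_le (by positivity)]
      exact Set.Icc_subset_Icc ha0.le hb
    have hv2' : IntervalIntegrable (fun x => ‖vint (1 / 2) f x‖ ^ 2) volume a b := hv2.mono_set hsub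
    calc ∫ x in a..b, ‖deriv (F.EV U) x‖ ^ 2 ≤
        ∫ x in a..b, (X ^ 2)⁻¹ * ‖vint (1 / 2) f x‖ ^ 2 := by
          refine intervalIntegral.integral_mono_on hab (hdc'.norm.pow 2).intervalIntegrable
            (hv2'.const_mul _) fun x hx => ?_
          have hx0 : 0 < x := lt_of_lt_of_le ha0 hx.1
          have h1 := EV_deriv_line F hU hx0
          have h2 : ‖vint (1 / 2) f x‖ = x * ‖deriv (F.EV U) x‖ := by
            rw [← h1, norm_mul, Complex.norm_real, Real.norm_of_nonneg hx0.le]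
          rw [h2, mul_pow, ← mul_assoc]
          refine le_mul_of_one_le_left (by positivity) ?_
          rw [inv_mul_eq_div, one_le_div (by positivity)]
          exact pow_le_pow_left₀ hX0.le (hXa.trans hx.1) 2
      _ = (X ^ 2)⁻¹ * ∫ x in a..b, ‖vint (1 / 2) f x‖ ^ 2 := intervalIntegral.integral_const_mul _ _
      _ ≤ _ := by
          refine mul_le_mul_of_nonneg_left ?_ (by positivity)
          exact intervalIntegral.integral_mono_interval ha0.le hab hb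
            (Filter.Eventually.of_forall fun x => by positivity) hv2
  have h7 : (∫ x in a..b, ‖deriv (F.EV U) x‖) ^ 2 ≤
      (√(4 * A * (Real.exp 1 ^ 2 * B)) * (X ^ (1 / 2 : ℝ) * U ^ (1 / 2 : ℝ)) * U ^ (2 * η)) ^ 2 := by
    have e4 : (X ^ (1 / 2 : ℝ)) ^ 2 = X := by
      rw [← Real.rpow_natCast, ← Real.rpow_mul hX0.le]
      norm_num
    have e5 : (U ^ (1 / 2 : ℝ)) ^ 2 = U := by
      rw [← Real.rpow_natCast, ← Real.rpow_mul hU0.le]
      norm_num
    have e6 : U ^ (1 + 2 * η + η) ≤ U * (U ^ (2 * η)) ^ 2 := by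
      rw [← Real.rpow_natCast (U ^ (2 * η)), ← Real.rpow_mul hU0.le]
      nth_rewrite 2 [← Real.rpow_one U]
      rw [← Real.rpow_add hU0]
      refine Real.rpow_le_rpow_of_exponent_le hU ?_
      push_cast
      linarith
    have hI0 : 0 ≤ ∫ x in (0 : ℝ)..(2 * X), ‖vint (1 / 2) f x‖ ^ 2 :=
      intervalIntegral.integral_nonneg (by positivity) fun x _ => by positivity
    calc (∫ x in a..b, ‖deriv (F.EV U) x‖) ^ 2 ≤ (b - a) * ∫ x in a..b, ‖deriv (F.EV U) x‖ ^ 2 := hcs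
      _ ≤ X * ((X ^ 2)⁻¹ * ∫ x in (0 : ℝ)..(2 * X), ‖vint (1 / 2) f x‖ ^ 2) := by
          refine mul_le_mul (by linarith) hs1 ?_ hX0.le
          exact intervalIntegral.integral_nonneg hab fun x _ => by positivity
      _ ≤ X * ((X ^ 2)⁻¹ * (A * (2 * X) ^ (2 : ℝ) *
          (Real.exp 1 ^ 2 * (B * (U * (U ^ (2 * η)) ^ 2))))) := by
          refine mul_le_mul_of_nonneg_left ?_ hX0.le
          refine mul_le_mul_of_nonneg_left (hsq.trans ?_) (by positivity)
          refine mul_le_mul_of_nonneg_left (hjb.trans ?_) (by positivity)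
          refine mul_le_mul_of_nonneg_left ?_ (by positivity)
          exact mul_le_mul_of_nonneg_left e6 hB.le
      _ = _ := by
          rw [mul_pow, mul_pow, mul_pow, Real.sq_sqrt (by positivity), e4, e5]
          have e7 : (2 * X) ^ (2 : ℝ) = 4 * X ^ 2 := by
            rw [show (2 : ℝ) = ((2 : ℕ) : ℝ) by norm_num, Real.rpow_natCast]
            push_cast
            ring
          rw [e7]
          field_simp
  exact le_of_sq_le_sq h7 (by positivity)

theorem high (F K : Sel) (hF : F.deg ≤ 2) {ε : ℝ} (hε : 0 < ε) : ∃ C : ℝ, 0 < C ∧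
    ∀ (X Y a b : ℝ) (k : ℕ), 1 ≤ X → (2 : ℝ) ^ k ≤ X → 2 * X ≤ Y → X ≤ a → a ≤ b → b ≤ 2 * X →
      ‖∫ x in a..b, F.EV Y x * (K.E x - K.EV (2 ^ k) x)‖ ≤
        C * (X ^ (5 / 2 : ℝ) * ((2 : ℝ) ^ k) ^ (-(3 / 2) : ℝ)) * Y ^ ε := by
  obtain ⟨η, hηd⟩ : ∃ η : ℝ, η = ε / 3 := ⟨_, rfl⟩
  have hη : 0 < η := by rw [hηd]; positivity
  obtain ⟨C₁, hC₁, H₁⟩ := E_smooth K hη
  obtain ⟨C₂, hC₂, H₂⟩ := EV_tail F hF hη
  obtain ⟨C₃, hC₃, H₃⟩ := K_int K hη
  obtain ⟨C₄, hC₄, H₄⟩ := EV_sup F hF hη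
  obtain ⟨C₅, hC₅, H₅⟩ := EV_deriv_L1 F hF hη
  refine ⟨12 * C₁ * C₂ + C₃ * (2 * C₄ + C₅), by positivity,
    fun X Y a b k hX hkX hXY hXa hab hb => ?_⟩
  have h₂ := H₂ Y (by linarith) k (by linarith) (2 * X) (by linarith)
  set U : ℝ := 2 ^ k with hUd
  have hU : 1 ≤ U := one_le_pow₀ (by norm_num)
  have hU0 : 0 < U := by linarith
  have hX0 : 0 < X := by linarith
  have hY : 1 ≤ Y := by linarith
  have hY0 : 0 < Y := by linarith
  have ha0 : 0 < a := by linarith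
  obtain ⟨it, bt⟩ := h₂
  obtain ⟨ig, -⟩ := H₃ X U a b hU hkX hXa hab hb
  set g : ℝ → ℂ := fun x => K.E x - K.EV U x with hg
  have hIcc : Set.Icc a b ⊆ Set.Ioi 0 := fun x hx => lt_of_lt_of_le ha0 hx.1
  have hcY : ContinuousOn (F.EV Y) (Set.uIcc a b) := by
    rw [Set.uIcc_of_le hab]
    exact fun x hx => ((EV_differentiable F hY).1 x (hIcc hx)).continuousAt.continuousWithinAt
  have hcU : ContinuousOn (F.EV U) (Set.uIcc a b) := by
    rw [Set.uIcc_of_le hab]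
    exact fun x hx => ((EV_differentiable F hU).1 x (hIcc hx)).continuousAt.continuousWithinAt
  have i1 : IntervalIntegrable (fun x => (F.EV Y x - F.EV U x) * g x) volume a b :=
    ig.continuousOn_mul (hcY.sub hcU)
  have i2 : IntervalIntegrable (fun x => F.EV U x * g x) volume a b := ig.continuousOn_mul hcU
  have hsplit : ∫ x in a..b, F.EV Y x * (K.E x - K.EV U x) =
      (∫ x in a..b, (F.EV Y x - F.EV U x) * g x) + ∫ x in a..b, F.EV U x * g x := by
    rw [← intervalIntegral.integral_add i1 i2]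
    refine intervalIntegral.integral_congr fun x _ => ?_
    simp only [hg]
    ring
  rw [hsplit]
  set p : ℝ := X ^ (1 / 2 : ℝ) with hp
  set q : ℝ := U ^ (-(1 / 2) : ℝ) with hq
  have hp0 : 0 < p := by positivity
  have hq0 : 0 < q := by positivity
  have ep : X ^ (5 / 2 : ℝ) = X ^ 2 * p := by
    rw [hp, ← Real.rpow_natCast, ← Real.rpow_add hX0]
    norm_num
  have eq : U ^ (-(3 / 2) : ℝ) = U⁻¹ * q := by
    rw [hq, ← Real.rpow_neg_one, ← Real.rpow_add hU0]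
    norm_num
  have eq2 : U ^ (1 / 2 : ℝ) = U * q := by
    rw [hq]
    nth_rewrite 2 [← Real.rpow_one U]
    rw [← Real.rpow_add hU0]
    norm_num
  have eq3 : √(U⁻¹) = q := by
    rw [hq, Real.sqrt_eq_rpow, Real.inv_rpow hU0.le, ← Real.rpow_neg hU0.le]
  have hp2 : (2 * X) ^ (1 / 2 : ℝ) ≤ 2 * p := by
    rw [hp, Real.mul_rpow (by norm_num) hX0.le]
    refine mul_le_mul_of_nonneg_right ?_ (by positivity)
    calc (2 : ℝ) ^ (1 / 2 : ℝ) ≤ 2 ^ (1 : ℝ) :=
          Real.rpow_le_rpow_of_exponent_le (by norm_num) (by norm_num)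
      _ = 2 := Real.rpow_one 2
  have hp3 : (2 * X) ^ (3 / 2 : ℝ) ≤ 4 * (X * p) := by
    have e1 : (2 * X) ^ (3 / 2 : ℝ) = (2 * X) * (2 * X) ^ (1 / 2 : ℝ) := by
      nth_rewrite 2 [← Real.rpow_one (2 * X)]
      rw [← Real.rpow_add (by positivity)]
      norm_num
    rw [e1]
    calc (2 * X) * (2 * X) ^ (1 / 2 : ℝ) ≤ (2 * X) * (2 * p) :=
          mul_le_mul_of_nonneg_left hp2 (by positivity)
      _ = 4 * (X * p) := by ring
  have hYe : Y ^ ε = Y ^ η * Y ^ (2 * η) := by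
    rw [← Real.rpow_add hY0, hηd]
    congr 1
    ring
  -- the first part
  have hA : ‖∫ x in a..b, (F.EV Y x - F.EV U x) * g x‖ ≤
      12 * C₁ * C₂ * (X ^ 2 * p * (U⁻¹ * q)) * Y ^ ε := by
    set B : ℝ := C₁ * (2 * X) ^ η * (1 + 2 * X / U) with hB
    have hB0 : 0 ≤ B := by positivity
    have hsub : Set.uIcc a b ⊆ Set.uIcc 0 (2 * X) := by
      rw [Set.uIcc_of_le hab, Set.uIcc_of_le (by positivity)]
      exact Set.Icc_subset_Icc ha0.le hb
    have it' : IntervalIntegrable (fun x => ‖F.EV Y x - F.EV U x‖ * B) volume a b :=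
      ((it.mono_set hsub).norm).mul_const B
    have h1 : ‖∫ x in a..b, (F.EV Y x - F.EV U x) * g x‖ ≤
        ∫ x in a..b, ‖F.EV Y x - F.EV U x‖ * B := by
      refine intervalIntegral.norm_integral_le_of_norm_le hab
        (Filter.Eventually.of_forall fun x hx => ?_) it'
      rw [norm_mul]
      refine mul_le_mul_of_nonneg_left ?_ (norm_nonneg _)
      exact H₁ (2 * X) (by linarith) U hU x (lt_trans ha0 hx.1) (hx.2.trans hb)
    have h2 : ∫ x in a..b, ‖F.EV Y x - F.EV U x‖ ≤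
        ∫ x in (0 : ℝ)..(2 * X), ‖F.EV Y x - F.EV U x‖ :=
      intervalIntegral.integral_mono_interval ha0.le hab hb
        (Filter.Eventually.of_forall fun x => norm_nonneg _) it.norm
    have hB1 : B ≤ C₁ * Y ^ η * (3 * X * U⁻¹) := by
      rw [hB]
      have h3 : (2 * X) ^ η ≤ Y ^ η := Real.rpow_le_rpow (by positivity) hXY hη.le
      have h4 : 1 + 2 * X / U ≤ 3 * X * U⁻¹ := by
        have : 1 ≤ X * U⁻¹ := by
          rw [← div_eq_mul_inv, one_le_div hU0]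
          exact hkX
        rw [div_eq_mul_inv]
        linarith
      refine mul_le_mul (mul_le_mul_of_nonneg_left h3 hC₁.le) h4 (by positivity) (by positivity)
    rw [eq3] at bt
    calc ‖∫ x in a..b, (F.EV Y x - F.EV U x) * g x‖ ≤
        ∫ x in a..b, ‖F.EV Y x - F.EV U x‖ * B := h1
      _ = (∫ x in a..b, ‖F.EV Y x - F.EV U x‖) * B := intervalIntegral.integral_mul_const _ _
      _ ≤ (C₂ * (4 * (X * p) * q) * Y ^ (2 * η)) * (C₁ * Y ^ η * (3 * X * U⁻¹)) := by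
          refine mul_le_mul (h2.trans (bt.trans ?_)) hB1 hB0 (by positivity)
          refine mul_le_mul_of_nonneg_right ?_ (by positivity)
          refine mul_le_mul_of_nonneg_left ?_ hC₂.le
          exact mul_le_mul_of_nonneg_right hp3 hq0.le
      _ = _ := by
          rw [hYe]
          ring
  -- the second part
  have hBb : ‖∫ x in a..b, F.EV U x * g x‖ ≤
      C₃ * (2 * C₄ + C₅) * (X ^ 2 * p * (U⁻¹ * q)) * Y ^ ε := by
    set M : ℝ := C₃ * X ^ (2 + η) / U ^ 2 with hM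
    have hM0 : 0 ≤ M := by positivity
    have h1 := parts_bound (f := F.EV U) (g := g) (a := a) (b := b) (M := M) hab
      (fun x hx => (EV_differentiable F hU).1 x (hIcc hx))
      ((EV_differentiable F hU).2.mono hIcc) ig
      (fun x hx => (H₃ X U a x hU hkX hXa hx.1 (hx.2.trans hb)).2)
    have h2 : ‖F.EV U b‖ ≤ 2 * C₄ * (p * (U * q)) * U ^ (2 * η) := by
      have hb0 : 0 < b := by linarith
      have h3 := H₄ U hU b hb0
      have h4 : b ^ (1 / 2 : ℝ) ≤ 2 * p :=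
        (Real.rpow_le_rpow (by linarith) hb (by norm_num)).trans hp2
      have h5 : (1 : ℝ) ≤ U * q := by
        rw [← eq2]
        exact Real.one_le_rpow hU (by norm_num)
      have h6 : U ^ η ≤ U ^ (2 * η) := Real.rpow_le_rpow_of_exponent_le hU (by linarith)
      calc ‖F.EV U b‖ ≤ C₄ * U ^ η * b ^ (1 / 2 : ℝ) := h3
        _ ≤ C₄ * U ^ (2 * η) * (2 * p) :=
            mul_le_mul (mul_le_mul_of_nonneg_left h6 hC₄.le) h4 (by positivity) (by positivity)
        _ = 2 * C₄ * (p * 1) * U ^ (2 * η) := by ring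
        _ ≤ 2 * C₄ * (p * (U * q)) * U ^ (2 * η) := by
            refine mul_le_mul_of_nonneg_right ?_ (by positivity)
            refine mul_le_mul_of_nonneg_left ?_ (by positivity)
            exact mul_le_mul_of_nonneg_left h5 hp0.le
    have h3 := H₅ U X a b hU hX hXa hab hb
    rw [← hp, eq2] at h3
    have h4 : M ≤ C₃ * (X ^ 2 * Y ^ η) * (U⁻¹ * U⁻¹) := by
      have e1 : X ^ (2 + η) = X ^ 2 * X ^ η := by
        rw [Real.rpow_add hX0, show (2 : ℝ) = ((2 : ℕ) : ℝ) by norm_num, Real.rpow_natCast]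
      have h5 : X ^ η ≤ Y ^ η := Real.rpow_le_rpow hX0.le (by linarith) hη.le
      have e2 : M = C₃ * (X ^ 2 * X ^ η) * (U⁻¹ * U⁻¹) := by
        rw [hM, e1]
        field_simp
      rw [e2]
      refine mul_le_mul_of_nonneg_right ?_ (by positivity)
      refine mul_le_mul_of_nonneg_left ?_ hC₃.le
      exact mul_le_mul_of_nonneg_left h5 (by positivity)
    have h7 : U ^ (2 * η) ≤ Y ^ (2 * η) := Real.rpow_le_rpow hU0.le (by linarith) (by positivity)
    calc ‖∫ x in a..b, F.EV U x * g x‖ ≤ M * (‖F.EV U b‖ + ∫ x in a..b, ‖deriv (F.EV U) x‖) := h1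
      _ ≤ (C₃ * (X ^ 2 * Y ^ η) * (U⁻¹ * U⁻¹)) * (2 * C₄ * (p * (U * q)) * U ^ (2 * η) +
          C₅ * (p * (U * q)) * U ^ (2 * η)) := by
          refine mul_le_mul h4 (add_le_add h2 h3) ?_ (by positivity)
          exact add_nonneg (norm_nonneg _)
            (intervalIntegral.integral_nonneg hab fun x _ => norm_nonneg _)
      _ = C₃ * (2 * C₄ + C₅) * (X ^ 2 * p * (U⁻¹ * q)) * (Y ^ η * U ^ (2 * η)) := by
          field_simp
      _ ≤ C₃ * (2 * C₄ + C₅) * (X ^ 2 * p * (U⁻¹ * q)) * (Y ^ η * Y ^ (2 * η)) := by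
          refine mul_le_mul_of_nonneg_left ?_ (by positivity)
          exact mul_le_mul_of_nonneg_left h7 (by positivity)
      _ = _ := by rw [hYe]
  rw [ep, eq]
  calc _ ≤ ‖∫ x in a..b, (F.EV Y x - F.EV U x) * g x‖ + ‖∫ x in a..b, F.EV U x * g x‖ :=
        norm_add_le _ _
    _ ≤ 12 * C₁ * C₂ * (X ^ 2 * p * (U⁻¹ * q)) * Y ^ ε +
        C₃ * (2 * C₄ + C₅) * (X ^ 2 * p * (U⁻¹ * q)) * Y ^ ε := add_le_add hA hBb
    _ = _ := by ring

end DAD
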