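import Pool.Agent.DAD.Sc
import Pool.Agent.DAD.Fp1

set_option autoImplicit false

/-!
# DAD/LowA: a function of degree 2 against a slowly varying function

`1_[a,b] = psi + (1_[a,b] - psi)`; the first by `smooth_small`. For the second, on
`(0, X/2)` and `(4X, ∞)` the bounds `lA_far` and `EV_crude` give `≤ C S2`; on `[X/2, a]`, `[a, b]`,
`[b, 4X]` integrate by parts with the primitive `Gp` of `F_prim` (at `X/2` in place of `X`).
-/

open Complex MeasureTheory

namespace DAD

open HYM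

/-! ### The Gaussian distribution function -/

private theorem lA_cont (V : ℝ) : Continuous (kV V) := by
  unfold kV
  fun_prop

private theorem lA_deriv {V : ℝ} (hV : 0 < V) (y : ℝ) : HasDerivAt (Phi V) (kV V y) y := by
  have h1 : Phi V = fun z : ℝ => Phi V 0 + ∫ u in (0 : ℝ)..z, kV V u := by
    funext z
    have := intervalIntegral.integral_Iic_sub_Iic (μ := volume) (f := kV V) (a := 0) (b := z)
      (kV_integrable hV).integrableOn (kV_integrable hV).integrableOn
    rw [← this]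
    unfold Phi
    ring
  rw [h1]
  exact (intervalIntegral.integral_hasDerivAt_right ((lA_cont V).intervalIntegrable _ _)
      ((lA_cont V).stronglyMeasurableAtFilter _ _) (lA_cont V).continuousAt).const_add _

private theorem lA_neg {V : ℝ} (hV : 0 < V) (y : ℝ) : Phi V y + Phi V (-y) = 1 := by
  have h1 : Phi V (-y) = ∫ u in Set.Ioi y, kV V u := by
    unfold Phi
    have h2 : ∀ u, kV V (-u) = kV V u := by
      intro u
      unfold kV
      congr 2
      ring
    have h3 := integral_comp_neg_Iic (-y) (kV V)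
    simp_rw [h2] at h3
    rw [neg_neg] at h3
    exact h3
  rw [h1]
  unfold Phi
  rw [intervalIntegral.integral_Iic_add_Ioi (kV_integrable hV).integrableOn
    (kV_integrable hV).integrableOn, kV_integral hV]

private theorem lA_mono {V : ℝ} (hV : 0 < V) : Monotone (Phi V) := by
  intro x y hxy
  unfold Phi
  exact setIntegral_mono_set (kV_integrable hV).integrableOn
    (Filter.Eventually.of_forall fun u => (kV_pos hV u).le)
    (Filter.Eventually.of_forall (Set.Iic_subset_Iic.2 hxy))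

private theorem lA_tail {V : ℝ} (hV : 0 < V) {y : ℝ} (hy : 0 ≤ y) :
    Phi V (-y) ≤ Real.exp (-(V * y) ^ 2 / 4) := by
  have h1 : Phi V (-y) ≤ ∫ u in Set.Iic (-y), Real.exp (-(V * y) ^ 2 / 4) * kV V (u + y) := by
    unfold Phi
    refine setIntegral_mono_on (kV_integrable hV).integrableOn
      (((kV_integrable hV).comp_add_right y).const_mul _).integrableOn measurableSet_Iic
      fun u hu => ?_
    have hu : u ≤ -y := hu
    unfold kV
    rw [mul_left_comm, ← Real.exp_add]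
    have h3 : 0 < √Real.pi := Real.sqrt_pos.2 Real.pi_pos
    refine mul_le_mul_of_nonneg_left (Real.exp_le_exp.2 ?_) (by positivity)
    have h2 : 0 ≤ (-(u + y)) * y := mul_nonneg (by linarith) hy
    have h4 : (V * u) ^ 2 - (V * y) ^ 2 - (V * (u + y)) ^ 2 = 2 * V ^ 2 * (-(u + y) * y) := by ring
    have h5 : 0 ≤ 2 * V ^ 2 * (-(u + y) * y) := by positivity
    linarith
  have h2 : ∫ u in Set.Iic (-y), Real.exp (-(V * y) ^ 2 / 4) * kV V (u + y) ≤
      ∫ u : ℝ, Real.exp (-(V * y) ^ 2 / 4) * kV V (u + y) :=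
    setIntegral_le_integral (((kV_integrable hV).comp_add_right y).const_mul _)
      (Filter.Eventually.of_forall fun u => mul_nonneg (Real.exp_pos _).le (kV_pos hV _).le)
  have h3 : ∫ u : ℝ, Real.exp (-(V * y) ^ 2 / 4) * kV V (u + y) = Real.exp (-(V * y) ^ 2 / 4) := by
    rw [integral_const_mul, integral_add_right_eq_self (fun u => kV V u) y, kV_integral hV, mul_one]
  exact h1.trans (h2.trans h3.le)

/-! ### The cutoff -/

private theorem lA_psi_nonneg {R a b x : ℝ} (hR : 0 < R) (ha : 0 < a) (hab : a ≤ b) (hx : 0 < x) :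
    0 ≤ psi R a b x := by
  have hb : 0 < b := by linarith
  unfold psi
  have h : Real.log (x / b) ≤ Real.log (x / a) :=
    Real.log_le_log (by positivity) (div_le_div_of_nonneg_left hx.le ha hab)
  have := lA_mono hR h
  linarith

private theorem lA_psi_le {R a b x : ℝ} (hR : 0 < R) : psi R a b x ≤ 1 := by
  unfold psi
  linarith [(Phi_le_one hR (Real.log (x / a))).2, (Phi_le_one hR (Real.log (x / b))).1]

/-- to the left of `a` -/
private theorem lA_left {R a b x : ℝ} (hR : 0 < R) (hx : 0 < x) (hxa : x ≤ a) :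
    psi R a b x ≤ Real.exp (-(R * Real.log (a / x)) ^ 2 / 4) := by
  have h1 : 0 ≤ Real.log (a / x) := Real.log_nonneg (by rw [le_div_iff₀ hx]; linarith)
  have h2 := lA_tail hR h1
  have h3 : -Real.log (a / x) = Real.log (x / a) := by
    rw [← Real.log_inv, inv_div]
  rw [h3] at h2
  unfold psi
  linarith [(Phi_le_one hR (Real.log (x / b))).1]

/-- to the right of `b` -/
private theorem lA_right {R a b x : ℝ} (hR : 0 < R) (hb : 0 < b) (hxb : b ≤ x) :
    psi R a b x ≤ Real.exp (-(R * Real.log (x / b)) ^ 2 / 4) := by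
  have h1 : 0 ≤ Real.log (x / b) := Real.log_nonneg (by rw [le_div_iff₀ hb]; linarith)
  have h2 := lA_tail hR h1
  have h3 := lA_neg hR (Real.log (x / b))
  unfold psi
  linarith [(Phi_le_one hR (Real.log (x / a))).2]

/-- between `a` and `b` -/
private theorem lA_mid {R a b x : ℝ} (hR : 0 < R) (ha : 0 < a) (hx : 0 < x) (hxa : a ≤ x)
    (hxb : x ≤ b) :
    1 - psi R a b x ≤ Real.exp (-(R * Real.log (x / a)) ^ 2 / 4) +
      Real.exp (-(R * Real.log (b / x)) ^ 2 / 4) := by
  have h1 : 0 ≤ Real.log (x / a) := Real.log_nonneg (by rw [le_div_iff₀ ha]; linarith)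
  have h2 := lA_tail hR h1
  have h3 := lA_neg hR (Real.log (x / a))
  have h4 : 0 ≤ Real.log (b / x) := Real.log_nonneg (by rw [le_div_iff₀ hx]; linarith)
  have h5 := lA_tail hR h4
  have h6 : -Real.log (b / x) = Real.log (x / b) := by
    rw [← Real.log_inv, inv_div]
  rw [h6] at h5
  unfold psi
  linarith

/-- the bound for the logarithms -/
private theorem lA_log {x y Z : ℝ} (hx : 0 < x) (hxy : x ≤ y) (hy : y ≤ Z) (R : ℝ) :
    Real.exp (-(R * Real.log (y / x)) ^ 2 / 4) ≤ Real.exp (-(R / (2 * Z)) ^ 2 * (y - x) ^ 2) := by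
  have hy0 : 0 < y := by linarith
  have hZ : 0 < Z := by linarith
  have h1 : 1 - x / y ≤ Real.log (y / x) := by
    have := Real.one_sub_inv_le_log_of_pos (x := y / x) (by positivity)
    rwa [inv_div] at this
  have h2 : (y - x) / Z ≤ 1 - x / y := by
    have h3 : 1 - x / y = (y - x) / y := by field_simp
    rw [h3]
    exact div_le_div_of_nonneg_left (by linarith) hy0 hy
  have h4 : 0 ≤ (y - x) / Z := div_nonneg (by linarith) hZ.le
  have h5 : ((y - x) / Z) ^ 2 ≤ Real.log (y / x) ^ 2 := pow_le_pow_left₀ h4 (h2.trans h1) 2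
  refine Real.exp_le_exp.2 ?_
  have h6 : R ^ 2 * ((y - x) / Z) ^ 2 ≤ R ^ 2 * Real.log (y / x) ^ 2 :=
    mul_le_mul_of_nonneg_left h5 (sq_nonneg R)
  have h7 : -(R / (2 * Z)) ^ 2 * (y - x) ^ 2 = -(R ^ 2 * ((y - x) / Z) ^ 2) / 4 := by
    field_simp
    ring
  rw [h7, mul_pow]
  linarith

/-- the Gaussian bumps at the ends -/
private noncomputable def gam (R X a b x : ℝ) : ℝ :=
  Real.exp (-(R / (8 * X)) ^ 2 * (x - a) ^ 2) + Real.exp (-(R / (8 * X)) ^ 2 * (x - b) ^ 2)

private theorem lA_gam_int {R X a b : ℝ} (hR : 0 < R) (hX : 0 < X) :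
    Integrable (gam R X a b) ∧ ∫ x, gam R X a b x ≤ 32 * X / R := by
  have hq : 0 < (R / (8 * X)) ^ 2 := by positivity
  have h0 := integrable_exp_neg_mul_sq hq
  have h1 : Integrable fun x : ℝ => Real.exp (-(R / (8 * X)) ^ 2 * (x - a) ^ 2) :=
    h0.comp_sub_right a
  have h2 : Integrable fun x : ℝ => Real.exp (-(R / (8 * X)) ^ 2 * (x - b) ^ 2) :=
    h0.comp_sub_right b
  refine ⟨h1.add h2, ?_⟩
  unfold gam
  rw [integral_add h1 h2,
    integral_sub_right_eq_self (fun x : ℝ => Real.exp (-(R / (8 * X)) ^ 2 * x ^ 2)) a,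
    integral_sub_right_eq_self (fun x : ℝ => Real.exp (-(R / (8 * X)) ^ 2 * x ^ 2)) b,
    integral_gaussian]
  have h3 : √(Real.pi / (R / (8 * X)) ^ 2) ≤ 16 * X / R := by
    rw [Real.sqrt_le_left (by positivity)]
    have h4 : Real.pi ≤ 4 := Real.pi_le_four
    rw [div_le_iff₀ hq]
    have h5 : (16 * X / R) ^ 2 * (R / (8 * X)) ^ 2 = 4 := by
      field_simp
      norm_num
    rw [h5]
    exact h4
  have h6 : 32 * X / R = 16 * X / R + 16 * X / R := by ring
  linarith

/-- the error of the cutoff, on the three pieces -/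
private theorem lA_gam {R X a b x : ℝ} (hR : 0 < R) (hX : 0 < X) (ha : X ≤ a) (hab : a ≤ b)
    (hb : b ≤ 2 * X) (hx : X / 2 ≤ x) (hx4 : x ≤ 4 * X) :
    (x ≤ a → |psi R a b x| ≤ gam R X a b x) ∧ (b ≤ x → |psi R a b x| ≤ gam R X a b x) ∧
    (a ≤ x → x ≤ b → |1 - psi R a b x| ≤ gam R X a b x) := by
  have hx0 : 0 < x := by linarith
  have ha0 : 0 < a := by linarith
  have hb0 : 0 < b := by linarith
  have e8 : 8 * X = 2 * (4 * X) := by ring
  have p1 := Real.exp_pos (-(R / (8 * X)) ^ 2 * (x - a) ^ 2)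
  have p2 := Real.exp_pos (-(R / (8 * X)) ^ 2 * (x - b) ^ 2)
  refine ⟨fun h => ?_, fun h => ?_, fun h h' => ?_⟩
  · rw [abs_of_nonneg (lA_psi_nonneg hR ha0 hab hx0)]
    have h1 := lA_left (b := b) hR hx0 h
    have h2 := lA_log (Z := 4 * X) hx0 h (by linarith) R
    rw [← e8, show (a - x) ^ 2 = (x - a) ^ 2 by ring] at h2
    unfold gam
    linarith
  · rw [abs_of_nonneg (lA_psi_nonneg hR ha0 hab hx0)]
    have h1 := lA_right (a := a) hR hb0 h
    have h2 := lA_log (Z := 4 * X) hb0 h hx4 R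
    rw [← e8] at h2
    unfold gam
    linarith
  · rw [abs_of_nonneg (by linarith [lA_psi_le (a := a) (b := b) (x := x) hR])]
    have h1 := lA_mid hR ha0 hx0 h h'
    have h2 := lA_log (Z := 4 * X) ha0 h hx4 R
    have h3 := lA_log (Z := 4 * X) hx0 h' (by linarith) R
    rw [← e8] at h2 h3
    rw [show (b - x) ^ 2 = (x - b) ^ 2 by ring] at h3
    unfold gam
    linarith

/-! ### The derivative of the cutoff -/

/-- the sum of the absolute values of the two parts of the derivative of the cutoff -/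
private noncomputable def pp (R a b x : ℝ) : ℝ :=
  kV R (Real.log (x / a)) / x + kV R (Real.log (x / b)) / x

private theorem lA_hd {R a x : ℝ} (hR : 0 < R) (ha : 0 < a) (hx : 0 < x) :
    HasDerivAt (fun x => Phi R (Real.log (x / a))) (kV R (Real.log (x / a)) / x) x := by
  have h1 : HasDerivAt (fun x => Real.log (x / a)) (1 / x) x := by
    have h2 : HasDerivAt (fun x => Real.log (x / a)) (1 / a / (x / a)) x :=
      ((hasDerivAt_id x).div_const a).log (by
        show x / a ≠ 0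
        positivity)
    have e : 1 / a / (x / a) = 1 / x := by field_simp
    rwa [e] at h2
  have h3 := (lA_deriv hR (Real.log (x / a))).comp x h1
  rw [mul_one_div] at h3
  exact h3

private theorem lA_hpsi {R a b x : ℝ} (hR : 0 < R) (ha : 0 < a) (hb : 0 < b) (hx : 0 < x) :
    HasDerivAt (psi R a b) (kV R (Real.log (x / a)) / x - kV R (Real.log (x / b)) / x) x :=
  (lA_hd hR ha hx).sub (lA_hd hR hb hx)

private theorem lA_pp_abs {R a b x : ℝ} (hR : 0 < R) (hx : 0 < x) :
    |kV R (Real.log (x / a)) / x - kV R (Real.log (x / b)) / x| ≤ pp R a b x := by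
  have h1 := div_nonneg (kV_pos hR (Real.log (x / a))).le hx.le
  have h2 := div_nonneg (kV_pos hR (Real.log (x / b))).le hx.le
  unfold pp
  rw [abs_le]
  constructor <;> linarith

private theorem lA_pp_cont {R a : ℝ} (ha : 0 < a) :
    ContinuousOn (fun x => kV R (Real.log (x / a)) / x) (Set.Ioi 0) := by
  intro x hx
  have hx : 0 < x := hx
  refine ContinuousAt.continuousWithinAt ?_
  refine ContinuousAt.div ?_ continuousAt_id hx.ne'
  refine (lA_cont R).continuousAt.comp ?_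
  exact (continuousAt_id.div_const a).log (by
    show x / a ≠ 0
    positivity)

private theorem lA_pp_int {R a b u v : ℝ} (hR : 0 < R) (ha : 0 < a) (hb : 0 < b) (hu : 0 < u)
    (huv : u ≤ v) : ∫ x in u..v, pp R a b x ≤ 2 := by
  have hsub : Set.uIcc u v ⊆ Set.Ioi 0 := by
    rw [Set.uIcc_of_le huv]
    intro x hx
    exact lt_of_lt_of_le hu hx.1
  have h1 : IntervalIntegrable (fun x => kV R (Real.log (x / a)) / x) volume u v :=
    ((lA_pp_cont ha).mono hsub).intervalIntegrable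
  have h2 : IntervalIntegrable (fun x => kV R (Real.log (x / b)) / x) volume u v :=
    ((lA_pp_cont hb).mono hsub).intervalIntegrable
  unfold pp
  rw [intervalIntegral.integral_add h1 h2,
    intervalIntegral.integral_eq_sub_of_hasDerivAt (fun x hx => lA_hd hR ha (hsub hx)) h1,
    intervalIntegral.integral_eq_sub_of_hasDerivAt (fun x hx => lA_hd hR hb (hsub hx)) h2]
  linarith [(Phi_le_one hR (Real.log (v / a))).2, (Phi_le_one hR (Real.log (u / a))).1,
    (Phi_le_one hR (Real.log (v / b))).2, (Phi_le_one hR (Real.log (u / b))).1]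

/-! ### One piece -/

/-- integration by parts on one piece -/
private theorem lA_piece {E M M' Gp : ℝ → ℂ} {φ φ' g : ℝ → ℝ} {u v B S0 S1 : ℝ}
    (hu : 0 < u) (huv : u ≤ v) (hE : ContinuousOn E (Set.Ioi 0))
    (hG : ∀ a b : ℝ, u ≤ a → a ≤ b → b ≤ v → ∫ x in a..b, E x = Gp b - Gp a)
    (hB : ∀ x, u ≤ x → x ≤ v → ‖Gp x‖ ≤ B)
    (hφ : ∀ x, 0 < x → HasDerivAt φ (φ' x) x) (hφ' : ContinuousOn φ' (Set.Ioi 0))
    (hM : ∀ x, 0 < x → HasDerivAt M (M' x) x) (hM' : ContinuousOn M' (Set.Ioi 0))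
    (h1 : ∀ x, u ≤ x → x ≤ v → |φ x| ≤ 1) (h2 : ∀ x, u ≤ x → x ≤ v → ‖M x‖ ≤ S0)
    (h4 : ∀ x, u ≤ x → x ≤ v → ‖M' x‖ ≤ S1)
    (h3 : ∀ x, u ≤ x → x ≤ v → |φ' x| * S0 + |φ x| * S1 ≤ g x)
    (hg : IntervalIntegrable g volume u v) :
    ‖∫ x in u..v, E x * ((φ x : ℂ) * M x)‖ ≤ 2 * B * (S0 + ∫ x in u..v, g x) := by
  have hsub : Set.uIcc u v ⊆ Set.Ioi 0 := by
    rw [Set.uIcc_of_le huv]
    intro x hx
    exact lt_of_lt_of_le hu hx.1
  have hB0 : 0 ≤ B := (norm_nonneg _).trans (hB u le_rfl huv)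
  have hφc : ContinuousOn φ (Set.Ioi 0) := fun x hx => (hφ x hx).continuousAt.continuousWithinAt
  have hMc : ContinuousOn M (Set.Ioi 0) := fun x hx => (hM x hx).continuousAt.continuousWithinAt
  set G : ℝ → ℂ := fun x => ∫ t in u..x, E t with hGdef
  have hGd : ∀ x ∈ Set.uIcc u v, HasDerivAt G (E x) x := by
    intro x hx
    have hx0 : x ∈ Set.Ioi (0 : ℝ) := hsub hx
    rw [Set.uIcc_of_le huv] at hx
    refine intervalIntegral.integral_hasDerivAt_right ?_
      (hE.stronglyMeasurableAtFilter isOpen_Ioi x hx0) (hE.continuousAt (Ioi_mem_nhds hx0))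
    refine (hE.mono ?_).intervalIntegrable
    rw [Set.uIcc_of_le hx.1]
    intro z hz
    exact lt_of_lt_of_le hu hz.1
  have hWd : ∀ x ∈ Set.uIcc u v, HasDerivAt (fun x => (φ x : ℂ) * M x)
      ((φ' x : ℂ) * M x + (φ x : ℂ) * M' x) x := fun x hx =>
    ((hφ x (hsub hx)).ofReal_comp).mul (hM x (hsub hx))
  have hW'c : ContinuousOn (fun x => (φ' x : ℂ) * M x + (φ x : ℂ) * M' x) (Set.Ioi 0) :=
    ((continuous_ofReal.comp_continuousOn hφ').mul hMc).add
      ((continuous_ofReal.comp_continuousOn hφc).mul hM')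
  have iE : IntervalIntegrable E volume u v := (hE.mono hsub).intervalIntegrable
  have iW' : IntervalIntegrable (fun x => (φ' x : ℂ) * M x + (φ x : ℂ) * M' x) volume u v :=
    (hW'c.mono hsub).intervalIntegrable
  have hGc : ContinuousOn G (Set.uIcc u v) := fun x hx =>
    (hGd x hx).continuousAt.continuousWithinAt
  have hWc : ContinuousOn (fun x => (φ x : ℂ) * M x) (Set.uIcc u v) :=
    ((continuous_ofReal.comp_continuousOn hφc).mul hMc).mono hsub
  have ibp := intervalIntegral.integral_deriv_mul_eq_sub hGd hWd iE iW'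
  have i1 : IntervalIntegrable (fun x => E x * ((φ x : ℂ) * M x)) volume u v :=
    ((hE.mono hsub).mul hWc).intervalIntegrable
  have i2 : IntervalIntegrable (fun x => G x * ((φ' x : ℂ) * M x + (φ x : ℂ) * M' x)) volume u v :=
    (hGc.mul (hW'c.mono hsub)).intervalIntegrable
  rw [intervalIntegral.integral_add i1 i2] at ibp
  have hGu : G u = 0 := by
    rw [hGdef]
    exact intervalIntegral.integral_same
  have hGn : ∀ x, u ≤ x → x ≤ v → ‖G x‖ ≤ 2 * B := by
    intro x hx hxv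
    have e : G x = Gp x - Gp u := hG u x le_rfl hx hxv
    rw [e]
    exact (norm_sub_le _ _).trans (by linarith [hB x hx hxv, hB u le_rfl huv])
  have e1 : ∫ x in u..v, E x * ((φ x : ℂ) * M x) = G v * ((φ v : ℂ) * M v) -
      ∫ x in u..v, G x * ((φ' x : ℂ) * M x + (φ x : ℂ) * M' x) := by
    rw [hGu, zero_mul, sub_zero] at ibp
    rw [← ibp]
    ring
  rw [e1]
  have b1 : ‖G v * ((φ v : ℂ) * M v)‖ ≤ 2 * B * S0 := by
    rw [norm_mul, norm_mul, Complex.norm_real, Real.norm_eq_abs]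
    have c1 : |φ v| * ‖M v‖ ≤ 1 * S0 :=
      mul_le_mul (h1 v huv le_rfl) (h2 v huv le_rfl) (norm_nonneg _) zero_le_one
    rw [one_mul] at c1
    exact mul_le_mul (hGn v huv le_rfl) c1 (by positivity) (by positivity)
  have b2 : ‖∫ x in u..v, G x * ((φ' x : ℂ) * M x + (φ x : ℂ) * M' x)‖ ≤
      ∫ x in u..v, 2 * B * g x := by
    refine intervalIntegral.norm_integral_le_of_norm_le huv
      (Filter.Eventually.of_forall fun x hx => ?_) (hg.const_mul _)
    have hx1 : u ≤ x := hx.1.le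
    have hx2 : x ≤ v := hx.2
    rw [norm_mul]
    refine mul_le_mul (hGn x hx1 hx2) ?_ (norm_nonneg _) (by positivity)
    refine (norm_add_le _ _).trans (le_trans ?_ (h3 x hx1 hx2))
    rw [norm_mul, norm_mul, Complex.norm_real, Complex.norm_real, Real.norm_eq_abs,
      Real.norm_eq_abs]
    exact add_le_add (mul_le_mul_of_nonneg_left (h2 x hx1 hx2) (abs_nonneg _))
      (mul_le_mul_of_nonneg_left (h4 x hx1 hx2) (abs_nonneg _))
  rw [intervalIntegral.integral_const_mul] at b2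
  refine (norm_sub_le _ _).trans ((add_le_add b1 b2).trans (le_of_eq ?_))
  ring

/-! ### Far away -/

private theorem lA_far {δ : ℝ} (hδ : 0 < δ) : ∃ C : ℝ, 0 < C ∧ ∀ X R y : ℝ, 1 ≤ X → X ^ δ ≤ R →
    Real.log 2 ≤ y → Real.exp (-(R * y) ^ 2 / 4) ≤ C / X ^ 12 * Real.exp (-(6 * y)) := by
  obtain ⟨n, hn⟩ := exists_nat_ge (6 / δ)
  refine ⟨Real.exp 72 * (20 ^ n * n.factorial), by positivity, fun X R y hX hR hy => ?_⟩
  have hX0 : 0 < X := by linarith
  have hR1 : 1 ≤ R := (Real.one_le_rpow hX hδ.le).trans hR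
  have hy1 : (0.6931 : ℝ) ≤ y := by linarith [Real.log_two_gt_d9]
  have h1 : X ^ 6 ≤ R ^ n := by
    have h2 : (X ^ δ) ^ n ≤ R ^ n := pow_le_pow_left₀ (by positivity) hR n
    have h3 : X ^ (6 : ℝ) ≤ (X ^ δ) ^ n := by
      rw [← Real.rpow_natCast, ← Real.rpow_mul hX0.le]
      refine Real.rpow_le_rpow_of_exponent_le hX ?_
      rw [div_le_iff₀ hδ] at hn
      linarith
    have h4 : X ^ (6 : ℝ) = X ^ 6 := by
      rw [← Real.rpow_natCast]
      norm_num
    rw [h4] at h3
    exact h3.trans h2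
  have h5 : X ^ 12 ≤ (R ^ 2) ^ n := by
    have h6 : X ^ 12 = X ^ 6 * X ^ 6 := by ring
    have h7 : (R ^ 2) ^ n = R ^ n * R ^ n := by rw [← pow_mul, mul_comm 2 n, mul_two, pow_add]
    rw [h6, h7]
    exact mul_le_mul h1 h1 (by positivity) (by positivity)
  have h8 : X ^ 12 / (20 ^ n * n.factorial) ≤ Real.exp (R ^ 2 / 20) := by
    have h9 := Real.pow_div_factorial_le_exp (x := R ^ 2 / 20) (by positivity) n
    refine le_trans ?_ h9
    rw [div_pow, div_div]
    gcongr
  have h10 : Real.exp (-(R ^ 2 / 20)) ≤ 20 ^ n * n.factorial / X ^ 12 := by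
    rw [Real.exp_neg, inv_le_comm₀ (Real.exp_pos _) (by positivity), inv_div]
    exact h8
  have h11 : -(R * y) ^ 2 / 4 ≤ 72 + -(R ^ 2 / 20) + -(6 * y) := by
    have h12 : 0 ≤ (y - 24) ^ 2 := sq_nonneg _
    have h13 : (0.4 : ℝ) ≤ y ^ 2 := by nlinarith
    have h14 : 1 ≤ R ^ 2 := by nlinarith
    have h15 : 0.4 * R ^ 2 ≤ R ^ 2 * y ^ 2 := by nlinarith
    have h16 : y ^ 2 ≤ R ^ 2 * y ^ 2 := by nlinarith [sq_nonneg y]
    rw [mul_pow]
    linarith
  refine (Real.exp_le_exp.2 h11).trans ?_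
  rw [Real.exp_add, Real.exp_add]
  have h17 := mul_le_mul_of_nonneg_left h10 (Real.exp_pos 72).le
  have h18 := mul_le_mul_of_nonneg_right h17 (Real.exp_pos (-(6 * y))).le
  refine h18.trans (le_of_eq ?_)
  ring

/-! ### The theorem -/

private theorem lA_EVc (F : Sel) {Y : ℝ} (hY : 1 ≤ Y) :
    ContinuousOn (fun x => F.EV Y x - F.L 0) (Set.Ioi 0) := by
  have h := vint_continuousOn (c := -(1 / 4)) (full_integrable F (ε := 1 / 4) (T := Y) (by norm_num) hY)
  refine h.congr fun x hx => ?_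
  have hx : 0 < x := hx
  show F.EV Y x - F.L 0 = _
  rw [EV_left F (ε := 1 / 4) (by norm_num) (by norm_num) (by linarith) hx]
  ring

theorem low_piece (F : Sel) (hF : F.deg = 2) {δ Bd ε : ℝ} (hδ : 0 < δ) (hB : 0 ≤ Bd)
    (hε : 0 < ε) : ∃ C : ℝ, 0 < C ∧
    ∀ (X Y V R a b c S0 S1 S2 : ℝ) (Lam : ℝ → ℂ), 64 ≤ X → X ≤ Y → Y ≤ X ^ 6 → 1 ≤ V →
      X ^ δ ≤ R → V * R ≤ X ^ (1 / 2 - δ) → X ≤ a → a ≤ b → b ≤ 2 * X → 0 ≤ c →
      Continuous Lam →
      (∀ t : ℝ, ‖Lam t‖ ≤ c * (1 + |t|) ^ Bd * Real.exp (-(t / (2 * V)) ^ 2)) →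
      (∀ x : ℝ, 0 < x → DifferentiableAt ℝ (vint (1 / 2) Lam) x) →
      ContinuousOn (deriv (vint (1 / 2) Lam)) (Set.Ioi 0) →
      (∀ x : ℝ, X / 2 ≤ x → x ≤ 4 * X → ‖vint (1 / 2) Lam x‖ ≤ S0) →
      (∀ x : ℝ, X / 2 ≤ x → x ≤ 4 * X → ‖deriv (vint (1 / 2) Lam) x‖ ≤ S1) →
      (∀ x : ℝ, 0 < x → ‖vint (1 / 2) Lam x‖ ≤ S2 * (1 + x ^ 2)) →
      ‖∫ x in a..b, (F.EV Y x - F.L 0) * vint (1 / 2) Lam x‖ ≤
        C * (X ^ (3 / 4 + ε) * (S0 + X * S1 / R) + c + S2) := by
  obtain ⟨C1, hC1, H1⟩ := smooth_small F hF.le hδ hB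
  obtain ⟨C2, hC2, H2⟩ := EV_crude F
  obtain ⟨C3, hC3, H3⟩ := lA_far hδ
  obtain ⟨C4, hC4, H4⟩ := F_prim F hF hε
  obtain ⟨D, hD⟩ : ∃ D : ℝ, D = C2 + ‖F.L 0‖ := ⟨_, rfl⟩
  have hD0 : 0 < D := by
    rw [hD]
    have := norm_nonneg (F.L 0)
    linarith
  refine ⟨C1 + 260 * C3 * D + 192 * C4, by positivity, ?_⟩
  intro X Y V R a b c S0 S1 S2 Lam hX hXY hYX hV hR hVR ha hab hb hc hLc hLb hdM hdM' hS0 hS1 hS2
  have hX0 : 0 < X := by linarith
  have hX1 : 1 ≤ X := by linarith
  have hR1 : 1 ≤ R := (Real.one_le_rpow hX1 hδ.le).trans hR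
  have hR0 : 0 < R := by linarith
  have ha0 : 0 < a := by linarith
  have hb0 : 0 < b := by linarith
  have hY1 : 1 ≤ Y := by linarith
  obtain ⟨E, hE⟩ : ∃ E : ℝ → ℂ, E = fun x => F.EV Y x - F.L 0 := ⟨_, rfl⟩
  obtain ⟨M, hM⟩ : ∃ M : ℝ → ℂ, M = vint (1 / 2) Lam := ⟨_, rfl⟩
  have hS0' : 0 ≤ S0 := (norm_nonneg _).trans (hS0 X (by linarith) (by linarith))
  have hS1' : 0 ≤ S1 := (norm_nonneg _).trans (hS1 X (by linarith) (by linarith))
  have hS2' : 0 ≤ S2 := by
    have h := (norm_nonneg _).trans (hS2 1 one_pos)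
    linarith
  obtain ⟨I1, N1⟩ := H1 X Y V R a b c Lam hX1 hXY hV hR1 hVR ha hab hb hc hLc hLb
  have hEc : ContinuousOn E (Set.Ioi 0) := hE ▸ lA_EVc F hY1
  rw [← hM] at hdM hdM' hS0 hS1 hS2 I1 N1 ⊢
  have hEx : ∀ x, F.EV Y x - F.L 0 = E x := fun x => by rw [hE]
  simp only [hEx] at I1 N1 ⊢
  have hEb : ∀ x, 0 < x → ‖E x‖ ≤ D * (1 + x ^ 2) := by
    intro x hx
    rw [← hEx x]
    refine (norm_sub_le _ _).trans ?_
    have h1 := H2 Y hY1 x hx
    have h2 : ‖F.L 0‖ ≤ ‖F.L 0‖ * (1 + x ^ 2) := by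
      nlinarith [norm_nonneg (F.L 0), sq_nonneg x]
    rw [hD]
    linarith
  have hMd : ∀ x, 0 < x → HasDerivAt M (deriv M x) x := fun x hx => (hdM x hx).hasDerivAt
  have hMc : ContinuousOn M (Set.Ioi 0) := fun x hx => (hMd x hx).continuousAt.continuousWithinAt
  have hY10 : Y ≤ (X / 2) ^ 10 := by
    refine hYX.trans ?_
    have h1 : (64 : ℝ) ^ 4 ≤ X ^ 4 := pow_le_pow_left₀ (by norm_num) hX 4
    have h2 : (X / 2) ^ 10 = X ^ 6 * (X ^ 4 / 1024) := by ring
    rw [h2]
    have h3 : 1 ≤ X ^ 4 / 1024 := by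
      rw [le_div_iff₀ (by norm_num)]
      linarith
    have h4 : 0 < X ^ 6 := by positivity
    nlinarith
  obtain ⟨Gp, hG, hGb⟩ := H4 (X / 2) Y (by linarith) (by linarith) hY10
  simp only [hEx] at hG
  have hGb' : ∀ x, X / 2 ≤ x → x ≤ 4 * X → ‖Gp x‖ ≤ C4 * X ^ (3 / 4 + ε) := by
    intro x h1 h2
    refine (hGb x h1 (by linarith)).trans (mul_le_mul_of_nonneg_left ?_ hC4.le)
    exact Real.rpow_le_rpow (by linarith) (by linarith) (by linarith)
  -- the bound for one piece
  have hgi : ∀ u v, X / 2 ≤ u → u ≤ v →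
      IntervalIntegrable (fun x => pp R a b x * S0 + gam R X a b x * S1) volume u v ∧
      ∫ x in u..v, (pp R a b x * S0 + gam R X a b x * S1) ≤ 2 * S0 + 32 * X / R * S1 := by
    intro u v hu huv
    have hu0 : 0 < u := by linarith
    have hsub : Set.uIcc u v ⊆ Set.Ioi 0 := by
      rw [Set.uIcc_of_le huv]
      intro x hx
      exact lt_of_lt_of_le hu0 hx.1
    have i1 : IntervalIntegrable (pp R a b) volume u v :=
      (((lA_pp_cont ha0).add (lA_pp_cont hb0)).mono hsub).intervalIntegrable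
    have hgam := lA_gam_int (a := a) (b := b) hR0 hX0
    have i2 : IntervalIntegrable (gam R X a b) volume u v := hgam.1.intervalIntegrable
    refine ⟨(i1.mul_const _).add (i2.mul_const _), ?_⟩
    rw [intervalIntegral.integral_add (i1.mul_const _) (i2.mul_const _),
      intervalIntegral.integral_mul_const, intervalIntegral.integral_mul_const]
    have k1 := lA_pp_int (R := R) (a := a) (b := b) hR0 ha0 hb0 hu0 huv
    have k2 : ∫ x in u..v, gam R X a b x ≤ 32 * X / R := by
      rw [intervalIntegral.integral_of_le huv]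
      refine le_trans (setIntegral_le_integral hgam.1
        (Filter.Eventually.of_forall fun x => ?_)) hgam.2
      show 0 ≤ gam R X a b x
      unfold gam
      positivity
    exact add_le_add (mul_le_mul_of_nonneg_right k1 hS0') (mul_le_mul_of_nonneg_right k2 hS1')
  have piece : ∀ (φ φ' : ℝ → ℝ) (u v : ℝ), X / 2 ≤ u → u ≤ v → v ≤ 4 * X →
      (∀ x, 0 < x → HasDerivAt φ (φ' x) x) → ContinuousOn φ' (Set.Ioi 0) →
      (∀ x, u ≤ x → x ≤ v → |φ x| ≤ 1) → (∀ x, u ≤ x → x ≤ v → |φ x| ≤ gam R X a b x) →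
      (∀ x, 0 < x → |φ' x| ≤ pp R a b x) →
      ‖∫ x in u..v, E x * ((φ x : ℂ) * M x)‖ ≤
        64 * (C4 * X ^ (3 / 4 + ε)) * (S0 + X * S1 / R) := by
    intro φ φ' u v hu huv hv hφ hφ' h1 h2 h3
    obtain ⟨j1, j2⟩ := hgi u v hu huv
    have hu0 : 0 < u := by linarith
    have k := lA_piece (E := E) (M := M) (M' := deriv M) (Gp := Gp) (φ := φ) (φ' := φ')
      (g := fun x => pp R a b x * S0 + gam R X a b x * S1) (B := C4 * X ^ (3 / 4 + ε))
      (S0 := S0) (S1 := S1) hu0 huv hEc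
      (fun a' b' h4 h5 h6 => hG a' b' (by linarith) h5 (by linarith))
      (fun x h4 h5 => hGb' x (by linarith) (by linarith)) hφ hφ' hMd hdM' h1
      (fun x h4 h5 => hS0 x (by linarith) (by linarith))
      (fun x h4 h5 => hS1 x (by linarith) (by linarith))
      (fun x h4 h5 => add_le_add (mul_le_mul_of_nonneg_right (h3 x (by linarith)) hS0')
        (mul_le_mul_of_nonneg_right (h2 x h4 h5) hS1')) j1
    refine k.trans ?_
    have hBn : 0 < C4 * X ^ (3 / 4 + ε) := by positivity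
    have k2 : S0 + ∫ x in u..v, (pp R a b x * S0 + gam R X a b x * S1) ≤
        32 * (S0 + X * S1 / R) := by
      have e : 32 * (S0 + X * S1 / R) = 32 * S0 + 32 * X / R * S1 := by ring
      rw [e]
      linarith
    refine (mul_le_mul_of_nonneg_left k2 (by positivity)).trans (le_of_eq ?_)
    ring
  have hpsid : ∀ x, 0 < x → HasDerivAt (psi R a b)
      (kV R (Real.log (x / a)) / x - kV R (Real.log (x / b)) / x) x := fun x hx =>
    lA_hpsi hR0 ha0 hb0 hx
  have hpsic : ContinuousOn (psi R a b) (Set.Ioi 0) := fun x hx =>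
    (hpsid x hx).continuousAt.continuousWithinAt
  have hdc : ContinuousOn (fun x => kV R (Real.log (x / a)) / x - kV R (Real.log (x / b)) / x)
      (Set.Ioi 0) := (lA_pp_cont ha0).sub (lA_pp_cont hb0)
  have habs : ∀ x, 0 < x → |psi R a b x| ≤ 1 := fun x hx => by
    rw [abs_of_nonneg (lA_psi_nonneg hR0 ha0 hab hx)]
    exact lA_psi_le hR0
  have P1 := piece (psi R a b) _ (X / 2) a le_rfl (by linarith) (by linarith) hpsid hdc
    (fun x h1 _ => habs x (by linarith))
    (fun x h1 h2 => (lA_gam hR0 hX0 ha hab hb h1 (by linarith)).1 h2)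
    (fun x hx => lA_pp_abs hR0 hx)
  have P3 := piece (psi R a b) _ b (4 * X) (by linarith) (by linarith) le_rfl hpsid hdc
    (fun x h1 _ => habs x (by linarith))
    (fun x h1 h2 => (lA_gam hR0 hX0 ha hab hb (by linarith) h2).2.1 h1)
    (fun x hx => lA_pp_abs hR0 hx)
  have P2 := piece (fun x => 1 - psi R a b x)
    (fun x => -(kV R (Real.log (x / a)) / x - kV R (Real.log (x / b)) / x)) a b (by linarith) hab
    (by linarith) (fun x hx => (hpsid x hx).const_sub 1) hdc.neg
    (fun x h1 _ => by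
      have h3 := lA_psi_nonneg (R := R) hR0 ha0 hab (by linarith : 0 < x)
      have h4 := lA_psi_le (R := R) (a := a) (b := b) (x := x) hR0
      rw [abs_le]
      constructor <;> linarith)
    (fun x h1 h2 => (lA_gam hR0 hX0 ha hab hb (by linarith) (by linarith)).2.2 h1 h2)
    (fun x hx => by
      rw [abs_neg]
      exact lA_pp_abs hR0 hx)
  -- the outer parts
  have hlog2 : ∀ x y : ℝ, 0 < y → 2 * y ≤ x → Real.log 2 ≤ Real.log (x / y) := fun x y hy hxy =>
    Real.log_le_log (by norm_num) (by rw [le_div_iff₀ hy]; exact hxy)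
  have hW : ∀ x, 0 < x → ‖(psi R a b x : ℂ) * (E x * M x)‖ ≤
      psi R a b x * (D * S2 * (1 + x ^ 2) ^ 2) := by
    intro x hx
    have h0 := lA_psi_nonneg hR0 ha0 hab hx
    rw [norm_mul, norm_mul, Complex.norm_real, Real.norm_of_nonneg h0]
    refine mul_le_mul_of_nonneg_left ?_ h0
    refine (mul_le_mul (hEb x hx) (hS2 x hx) (norm_nonneg _) (by positivity)).trans (le_of_eq ?_)
    ring
  have hX12 : 0 < X ^ 12 := by positivity
  have LO : ‖∫ x in (0 : ℝ)..X / 2, (psi R a b x : ℂ) * (E x * M x)‖ ≤ 4 * C3 * D * S2 := by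
    have h1 : ∀ x ∈ Set.uIoc 0 (X / 2), ‖(psi R a b x : ℂ) * (E x * M x)‖ ≤
        4 * C3 * D * S2 / X := by
      intro x hx
      rw [Set.uIoc_of_le (by linarith)] at hx
      have hx0 : 0 < x := hx.1
      have hx2 : x ≤ X / 2 := hx.2
      refine (hW x hx0).trans ?_
      have h2 := lA_left (b := b) hR0 hx0 (by linarith : x ≤ a)
      have h3 := H3 X R (Real.log (a / x)) hX1 hR (hlog2 a x hx0 (by linarith))
      have h4 : Real.exp (-(6 * Real.log (a / x))) ≤ 1 := by
        rw [Real.exp_le_one_iff]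
        have := hlog2 a x hx0 (by linarith)
        have : 0 < Real.log 2 := Real.log_pos (by norm_num)
        linarith
      have h5 : psi R a b x ≤ C3 / X ^ 12 := by
        refine h2.trans (h3.trans ?_)
        exact mul_le_of_le_one_right (by positivity) h4
      have h6 : (1 + x ^ 2) ^ 2 ≤ 4 * X ^ 4 := by
        have h7 : 1 + x ^ 2 ≤ 2 * X ^ 2 := by nlinarith
        have h8 := pow_le_pow_left₀ (by positivity) h7 2
        refine h8.trans (le_of_eq ?_)
        ring
      have h9 : psi R a b x * (D * S2 * (1 + x ^ 2) ^ 2) ≤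
          C3 / X ^ 12 * (D * S2 * (4 * X ^ 4)) :=
        mul_le_mul h5 (mul_le_mul_of_nonneg_left h6 (by positivity)) (by positivity)
          (by positivity)
      refine h9.trans ?_
      have h10 : C3 / X ^ 12 * (D * S2 * (4 * X ^ 4)) = 4 * C3 * D * S2 / X * (1 / X ^ 7) := by
        field_simp
      rw [h10]
      have h11 : 1 / X ^ 7 ≤ 1 := by
        rw [div_le_one (by positivity)]
        exact one_le_pow₀ hX1
      exact mul_le_of_le_one_right (by positivity) h11
    refine (intervalIntegral.norm_integral_le_of_norm_le_const h1).trans ?_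
    rw [sub_zero, abs_of_pos (by linarith)]
    have h2 : 4 * C3 * D * S2 / X * (X / 2) = 2 * C3 * D * S2 := by
      field_simp
      ring
    rw [h2]
    have h3 : 0 ≤ C3 * D * S2 := by positivity
    linarith
  have HI : ‖∫ x in Set.Ioi (4 * X), (psi R a b x : ℂ) * (E x * M x)‖ ≤
      256 * C3 * D * S2 := by
    have h4X : 0 < 4 * X := by linarith
    have ig : IntegrableOn (fun x : ℝ => 256 * C3 * D * S2 * x ^ (-2 : ℝ)) (Set.Ioi (4 * X)) :=
      (integrableOn_Ioi_rpow_of_lt (by norm_num) h4X).const_mul _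
    have h1 : ‖∫ x in Set.Ioi (4 * X), (psi R a b x : ℂ) * (E x * M x)‖ ≤
        ∫ x in Set.Ioi (4 * X), 256 * C3 * D * S2 * x ^ (-2 : ℝ) := by
      refine norm_integral_le_of_norm_le ig ?_
      rw [ae_restrict_iff' measurableSet_Ioi]
      refine Filter.Eventually.of_forall fun x hx => ?_
      have hx4 : 4 * X < x := hx
      have hx0 : 0 < x := by linarith
      refine (hW x hx0).trans ?_
      have h2 := lA_right (a := a) hR0 hb0 (by linarith : b ≤ x)
      have h3 := H3 X R (Real.log (x / b)) hX1 hR (hlog2 x b hb0 (by linarith))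
      have h4 : Real.exp (-(6 * Real.log (x / b))) = (b / x) ^ 6 := by
        rw [Real.exp_neg, show 6 * Real.log (x / b) = ((6 : ℕ) : ℝ) * Real.log (x / b) by norm_num,
          Real.exp_nat_mul, Real.exp_log (by positivity), ← inv_pow, inv_div]
      have h5 : psi R a b x ≤ 64 * C3 / x ^ 6 := by
        refine h2.trans (h3.trans ?_)
        rw [h4]
        have h6 : (b / x) ^ 6 ≤ (2 * X / x) ^ 6 :=
          pow_le_pow_left₀ (by positivity) (div_le_div_of_nonneg_right hb hx0.le) 6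
        refine (mul_le_mul_of_nonneg_left h6 (by positivity)).trans ?_
        have h7 : C3 / X ^ 12 * (2 * X / x) ^ 6 = 64 * C3 / x ^ 6 * (1 / X ^ 6) := by
          field_simp
          ring
        rw [h7]
        have h8 : 1 / X ^ 6 ≤ 1 := by
          rw [div_le_one (by positivity)]
          exact one_le_pow₀ hX1
        exact mul_le_of_le_one_right (by positivity) h8
      have h6 : (1 + x ^ 2) ^ 2 ≤ 4 * x ^ 4 := by
        have h7 : 1 + x ^ 2 ≤ 2 * x ^ 2 := by nlinarith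
        have h8 := pow_le_pow_left₀ (by positivity) h7 2
        refine h8.trans (le_of_eq ?_)
        ring
      have h9 : psi R a b x * (D * S2 * (1 + x ^ 2) ^ 2) ≤
          64 * C3 / x ^ 6 * (D * S2 * (4 * x ^ 4)) :=
        mul_le_mul h5 (mul_le_mul_of_nonneg_left h6 (by positivity)) (by positivity)
          (by positivity)
      refine h9.trans (le_of_eq ?_)
      have h10 : x ^ (-2 : ℝ) = 1 / x ^ 2 := by
        rw [Real.rpow_neg hx0.le, one_div]
        norm_num
      rw [h10]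
      field_simp
      ring
    refine h1.trans ?_
    rw [integral_const_mul, integral_Ioi_rpow_of_lt (by norm_num) h4X]
    have h2 : -(4 * X) ^ ((-2 : ℝ) + 1) / ((-2 : ℝ) + 1) = 1 / (4 * X) := by
      have e : ((-2 : ℝ) + 1) = -1 := by norm_num
      rw [e, Real.rpow_neg_one]
      field_simp
    rw [h2]
    have h3 : 1 / (4 * X) ≤ 1 := by
      rw [div_le_one h4X]
      linarith
    exact mul_le_of_le_one_right (by positivity) h3
  -- splitting
  have hWc : ContinuousOn (fun x => (psi R a b x : ℂ) * (E x * M x)) (Set.Ioi 0) :=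
    (continuous_ofReal.comp_continuousOn hpsic).mul (hEc.mul hMc)
  have ii : ∀ (f : ℝ → ℂ), ContinuousOn f (Set.Ioi 0) → ∀ u v : ℝ, 0 < u → u ≤ v →
      IntervalIntegrable f volume u v := by
    intro f hf u v hu huv
    refine (hf.mono ?_).intervalIntegrable
    rw [Set.uIcc_of_le huv]
    intro x hx
    exact lt_of_lt_of_le hu hx.1
  have i0 : IntervalIntegrable (fun x => (psi R a b x : ℂ) * (E x * M x)) volume 0 (X / 2) := by
    rw [intervalIntegrable_iff_integrableOn_Ioc_of_le (by linarith)]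
    exact I1.mono_set fun x hx => hx.1
  have i1 := ii _ hWc (X / 2) a (by linarith) (by linarith)
  have i2 := ii _ hWc a b ha0 hab
  have i3 := ii _ hWc b (4 * X) hb0 (by linarith)
  have s1 : ∫ x in Set.Ioi (0 : ℝ), (psi R a b x : ℂ) * (E x * M x) =
      (∫ x in (0 : ℝ)..4 * X, (psi R a b x : ℂ) * (E x * M x)) +
        ∫ x in Set.Ioi (4 * X), (psi R a b x : ℂ) * (E x * M x) := by
    rw [intervalIntegral.integral_of_le (by linarith),
      ← Set.Ioc_union_Ioi_eq_Ioi (by linarith : (0 : ℝ) ≤ 4 * X)]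
    refine setIntegral_union (Set.Ioc_disjoint_Ioi le_rfl) measurableSet_Ioi
      (I1.mono_set fun x hx => hx.1) (I1.mono_set fun x hx => ?_)
    have hx : 4 * X < x := hx
    show 0 < x
    linarith
  have s2 : ∫ x in (0 : ℝ)..4 * X, (psi R a b x : ℂ) * (E x * M x) =
      (∫ x in (0 : ℝ)..X / 2, (psi R a b x : ℂ) * (E x * M x)) +
      (∫ x in X / 2..a, (psi R a b x : ℂ) * (E x * M x)) +
      (∫ x in a..b, (psi R a b x : ℂ) * (E x * M x)) +
      (∫ x in b..4 * X, (psi R a b x : ℂ) * (E x * M x)) := by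
    rw [intervalIntegral.integral_add_adjacent_intervals i0 i1,
      intervalIntegral.integral_add_adjacent_intervals (i0.trans i1) i2,
      intervalIntegral.integral_add_adjacent_intervals ((i0.trans i1).trans i2) i3]
  have s3 : ∫ x in a..b, E x * M x =
      (∫ x in a..b, E x * (((1 - psi R a b x : ℝ) : ℂ) * M x)) +
      ∫ x in a..b, (psi R a b x : ℂ) * (E x * M x) := by
    have hc1 : ContinuousOn (fun x => E x * (((1 - psi R a b x : ℝ) : ℂ) * M x)) (Set.Ioi 0) :=
      hEc.mul ((continuous_ofReal.comp_continuousOn (continuousOn_const.sub hpsic)).mul hMc)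
    rw [← intervalIntegral.integral_add (ii _ hc1 a b ha0 hab) i2]
    refine intervalIntegral.integral_congr fun x _ => ?_
    show E x * M x = E x * (((1 - psi R a b x : ℝ) : ℂ) * M x) + (psi R a b x : ℂ) * (E x * M x)
    push_cast
    ring
  have s4 : ∀ u v : ℝ, ∫ x in u..v, (psi R a b x : ℂ) * (E x * M x) =
      ∫ x in u..v, E x * ((psi R a b x : ℂ) * M x) := by
    intro u v
    refine intervalIntegral.integral_congr fun x _ => ?_
    show (psi R a b x : ℂ) * (E x * M x) = E x * ((psi R a b x : ℂ) * M x)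
    ring
  rw [s2] at s1
  have s5 : ∫ x in a..b, E x * M x =
      (∫ x in a..b, E x * (((1 - psi R a b x : ℝ) : ℂ) * M x)) +
      ((∫ x in Set.Ioi (0 : ℝ), (psi R a b x : ℂ) * (E x * M x)) -
      (∫ x in (0 : ℝ)..X / 2, (psi R a b x : ℂ) * (E x * M x)) -
      (∫ x in X / 2..a, E x * ((psi R a b x : ℂ) * M x)) -
      (∫ x in b..4 * X, E x * ((psi R a b x : ℂ) * M x)) -
      ∫ x in Set.Ioi (4 * X), (psi R a b x : ℂ) * (E x * M x)) := by
    rw [s3, s1, ← s4 (X / 2) a, ← s4 b (4 * X)]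
    ring
  rw [s5]
  have n0 : ∀ z1 z2 z3 z4 z5 z6 : ℂ, ‖z1 + (z2 - z3 - z4 - z5 - z6)‖ ≤
      ‖z1‖ + (‖z2‖ + ‖z3‖ + ‖z4‖ + ‖z5‖ + ‖z6‖) := by
    intro z1 z2 z3 z4 z5 z6
    refine (norm_add_le _ _).trans (add_le_add_right ?_ _)
    refine (norm_sub_le _ _).trans (add_le_add_left ?_ _)
    refine (norm_sub_le _ _).trans (add_le_add_left ?_ _)
    refine (norm_sub_le _ _).trans (add_le_add_left ?_ _)
    exact norm_sub_le _ _
  refine (n0 _ _ _ _ _ _).trans ?_
  have hQ : 0 ≤ X ^ (3 / 4 + ε) * (S0 + X * S1 / R) := by positivity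
  have f1 : 0 ≤ C1 * (X ^ (3 / 4 + ε) * (S0 + X * S1 / R)) := by positivity
  have f2 : 0 ≤ C1 * S2 := by positivity
  have f3 : 0 ≤ C3 * D * (X ^ (3 / 4 + ε) * (S0 + X * S1 / R)) := by positivity
  have f4 : 0 ≤ C3 * D * c := by positivity
  have f5 : 0 ≤ C4 * c := by positivity
  have f6 : 0 ≤ C4 * S2 := by positivity
  have e1 : (C1 + 260 * C3 * D + 192 * C4) * (X ^ (3 / 4 + ε) * (S0 + X * S1 / R) + c + S2) =
      192 * (C4 * X ^ (3 / 4 + ε) * (S0 + X * S1 / R)) + C1 * c + 260 * (C3 * D * S2) +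
      (C1 * (X ^ (3 / 4 + ε) * (S0 + X * S1 / R)) + C1 * S2 +
      260 * (C3 * D * (X ^ (3 / 4 + ε) * (S0 + X * S1 / R))) + 260 * (C3 * D * c) +
      192 * (C4 * c) + 192 * (C4 * S2)) := by ring
  rw [e1]
  linarith

end DAD
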