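import Pool.Agent.DAD.Div

set_option autoImplicit false

/-!
# DAD/Pack: the decomposition of the coefficients

Plan. `P_j = PP g j`, `R_j = RR g r j`, `κ_j = cut N P_j` (`κ_0 = 1`). Telescoping
`∑_{j<r} (κ_j * g_j - κ_(j+1)) * R_(j+1) = ∑ (κ_j * R_j - κ_(j+1) * R_(j+1)) = κ_0 R_0 - κ_r R_r`, and
`R_r = 1`, so `∏ g = κ_r + ∑ u_j * R_(j+1)`, `u_j = κ_j * g_j - κ_(j+1)`, `u_j n = 0` for `n ≤ N`
(a factorisation `n = p m` has `p ≤ N`). `R_(j+1) = cut B R_(j+1) + w_j`, and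
`u_j * cut B R_(j+1) = g_j * h_j - κ_(j+1) * cut B R_(j+1)`, `h_j = κ_j * cut B R_(j+1)`.
`z = κ_r - ∑ κ_(j+1) * cut B R_(j+1)`. Dyadic: `A i = N 2^i`, `i < J` iff `A i ≤ 16 X / B`,
`u j i = u_j` restricted to `A i < n ≤ 2 A i`, `w j i = w_j` restricted to `n ≤ 16 X / A i`; the rest `e`
lives on `n > 16 X`. Coefficients: majorants of DAD/Div (`‖u_j n‖ ≤ 2 M n`, ...) and
`n^ε ≤ (16 X)^ε` on the supports (`e`: `ε = 1`).
-/

open Complex MeasureTheory

namespace DAD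

open HYM

theorem pk_sub_app (a b : ArithmeticFunction ℂ) (n : ℕ) : (a - b) n = a n - b n := by
  rw [sub_eq_add_neg, ArithmeticFunction.add_apply, ArithmeticFunction.neg_apply, sub_eq_add_neg]

theorem pk_sum_app {R : Type*} [AddCommMonoid R] (s : Finset ℕ) (f : ℕ → ArithmeticFunction R)
    (n : ℕ) : (∑ i ∈ s, f i) n = ∑ i ∈ s, f i n := by
  classical
  induction s using Finset.induction_on with
  | empty => simp
  | insert a s ha ih => rw [Finset.sum_insert ha, Finset.sum_insert ha,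
      ArithmeticFunction.add_apply, ih]

theorem pk_cut_app (N : ℝ) (a : ArithmeticFunction ℂ) (n : ℕ) :
    cut N a n = if (n : ℝ) ≤ N then a n else 0 := rfl

theorem pk_cut_one (N : ℝ) (hN : 1 ≤ N) : cut N 1 = 1 := by
  ext n
  rw [pk_cut_app, ArithmeticFunction.one_apply]
  by_cases h : n = 1
  · subst h; simp [hN]
  · simp [h]

theorem pk_cut_mul (N : ℝ) (a b : ArithmeticFunction ℂ) (n : ℕ) (hn : (n : ℝ) ≤ N) :
    (cut N a * b) n = (a * b) n := by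
  rw [ArithmeticFunction.mul_apply, ArithmeticFunction.mul_apply]
  refine Finset.sum_congr rfl fun x hx => ?_
  rw [Nat.mem_divisorsAntidiagonal] at hx
  have hx1 : x.1 ≤ n := Nat.le_of_dvd (Nat.pos_of_ne_zero hx.2) ⟨x.2, hx.1.symm⟩
  have : (x.1 : ℝ) ≤ N := le_trans (by exact_mod_cast hx1) hn
  rw [pk_cut_app, if_pos this]

theorem pk_supp_mul {a b : ArithmeticFunction ℂ} {N B : ℝ} (hN : 0 ≤ N)
    (ha : ∀ n : ℕ, N < n → a n = 0) (hb : ∀ n : ℕ, B < n → b n = 0) (n : ℕ)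
    (hn : N * B < n) : (a * b) n = 0 := by
  rw [ArithmeticFunction.mul_apply]
  refine Finset.sum_eq_zero fun x hx => ?_
  rw [Nat.mem_divisorsAntidiagonal] at hx
  by_cases h1 : N < x.1
  · rw [ha _ h1, zero_mul]
  · by_cases h2 : B < x.2
    · rw [hb _ h2, mul_zero]
    · exfalso
      have h3 : (n : ℝ) = x.1 * x.2 := by rw [← hx.1]; push_cast; ring
      have : (x.1 : ℝ) * x.2 ≤ N * B :=
        mul_le_mul (not_lt.1 h1) (not_lt.1 h2) (Nat.cast_nonneg _) hN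
      linarith

/-- The pieces `u_j` before the dyadic division. -/
noncomputable def uu (g : ℕ → ArithmeticFunction ℂ) (N : ℝ) (j : ℕ) : ArithmeticFunction ℂ :=
  cut N (PP g j) * g j - cut N (PP g (j + 1))

/-- The pieces `w_j` before the dyadic division. -/
noncomputable def ww (g : ℕ → ArithmeticFunction ℂ) (r : ℕ) (B : ℝ) (j : ℕ) :
    ArithmeticFunction ℂ :=
  RR g r (j + 1) - cut B (RR g r (j + 1))

theorem pk_uu_zero (g : ℕ → ArithmeticFunction ℂ) (N : ℝ) (j n : ℕ) (hn : (n : ℝ) ≤ N) :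
    uu g N j n = 0 := by
  rw [uu, pk_sub_app, pk_cut_mul N _ _ n hn, pk_cut_app, if_pos hn]
  have : PP g (j + 1) = PP g j * g j := by rw [PP, PP, Finset.prod_range_succ]
  rw [this, sub_self]

theorem pk_ww_zero (g : ℕ → ArithmeticFunction ℂ) (r : ℕ) (B : ℝ) (j n : ℕ)
    (hn : (n : ℝ) ≤ B) : ww g r B j n = 0 := by
  rw [ww, pk_sub_app, pk_cut_app, if_pos hn, sub_self]

theorem pk_tele (g : ℕ → ArithmeticFunction ℂ) (r : ℕ) (N : ℝ) (hN : 1 ≤ N) :
    (∏ i ∈ Finset.range r, g i) = cut N (PP g r) +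
      ∑ j ∈ Finset.range r, uu g N j * RR g r (j + 1) := by
  have h1 : ∑ j ∈ Finset.range r, uu g N j * RR g r (j + 1) =
      ∑ j ∈ Finset.range r, (cut N (PP g j) * RR g r j -
        cut N (PP g (j + 1)) * RR g r (j + 1)) := by
    refine Finset.sum_congr rfl fun j hj => ?_
    have hj' : j < r := Finset.mem_range.1 hj
    have : RR g r j = g j * RR g r (j + 1) := by
      rw [RR, RR, Finset.prod_eq_prod_Ico_succ_bot hj']
    rw [uu, this]
    ring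
  rw [h1, Finset.sum_range_sub' (fun j => cut N (PP g j) * RR g r j)]
  have h0 : cut N (PP g 0) = 1 := by
    rw [PP, Finset.prod_range_zero, pk_cut_one N hN]
  have hr : RR g r r = 1 := by rw [RR, Finset.Ico_self, Finset.prod_empty]
  have h00 : RR g r 0 = ∏ i ∈ Finset.range r, g i := by
    rw [RR, Finset.range_eq_Ico]
  simp only [h0, hr, h00]
  ring

theorem pk_ident (g : ℕ → ArithmeticFunction ℂ) (r : ℕ) (N B : ℝ) (hN : 1 ≤ N) :
    (∏ i ∈ Finset.range r, g i) =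
      (cut N (PP g r) - ∑ j ∈ Finset.range r, cut N (PP g (j + 1)) * cut B (RR g r (j + 1))) +
      ∑ j ∈ Finset.range r, g j * (cut N (PP g j) * cut B (RR g r (j + 1))) +
      ∑ j ∈ Finset.range r, uu g N j * ww g r B j := by
  rw [pk_tele g r N hN]
  have h1 : ∑ j ∈ Finset.range r, uu g N j * RR g r (j + 1) =
      ∑ j ∈ Finset.range r, g j * (cut N (PP g j) * cut B (RR g r (j + 1))) -
      ∑ j ∈ Finset.range r, cut N (PP g (j + 1)) * cut B (RR g r (j + 1)) +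
      ∑ j ∈ Finset.range r, uu g N j * ww g r B j := by
    rw [← Finset.sum_sub_distrib, ← Finset.sum_add_distrib]
    refine Finset.sum_congr rfl fun j _ => ?_
    rw [ww, uu]
    ring
  rw [h1]
  ring

theorem pk_dy {M : Type*} [AddCommMonoid M] (N x : ℝ) (hN : 0 < N) (c : M) (J : ℕ) :
    ∑ i ∈ Finset.range J, (if N * 2 ^ i < x ∧ x ≤ 2 * (N * 2 ^ i) then c else 0) =
      if N < x ∧ x ≤ N * 2 ^ J then c else 0 := by
  induction J with
  | zero =>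
    simp only [Finset.range_zero, Finset.sum_empty, pow_zero, mul_one]
    rw [if_neg]
    rintro ⟨h1, h2⟩
    linarith
  | succ J ih =>
    rw [Finset.sum_range_succ, ih]
    have hJ : N ≤ N * 2 ^ J := by
      have : (1 : ℝ) ≤ 2 ^ J := one_le_pow₀ (by norm_num)
      nlinarith
    have hJ2 : N * 2 ^ (J + 1) = 2 * (N * 2 ^ J) := by ring
    rw [hJ2]
    by_cases h1 : N < x
    · by_cases h2 : x ≤ N * 2 ^ J
      · rw [if_pos ⟨h1, h2⟩, if_neg (by rintro ⟨h3, _⟩; linarith), add_zero,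
          if_pos ⟨h1, by linarith⟩]
      · rw [if_neg (by rintro ⟨_, h3⟩; exact h2 h3), zero_add]
        by_cases h3 : x ≤ 2 * (N * 2 ^ J)
        · rw [if_pos ⟨not_le.1 h2, h3⟩, if_pos ⟨h1, h3⟩]
        · rw [if_neg (by rintro ⟨_, h4⟩; exact h3 h4), if_neg (by rintro ⟨_, h4⟩; exact h3 h4)]
    · rw [if_neg (by rintro ⟨h3, _⟩; exact h1 h3), if_neg (by rintro ⟨h3, _⟩; linarith),
        if_neg (by rintro ⟨h3, _⟩; exact h1 h3), add_zero]

/-- The dyadic piece of `a` on `(N 2^i, N 2^(i+1)]`. -/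
noncomputable def dyp (N : ℝ) (i : ℕ) (a : ArithmeticFunction ℂ) : ArithmeticFunction ℂ :=
  ⟨fun n => if N * 2 ^ i < (n : ℝ) ∧ (n : ℝ) ≤ 2 * (N * 2 ^ i) then a n else 0, by simp⟩

theorem pk_dyp_app (N : ℝ) (i : ℕ) (a : ArithmeticFunction ℂ) (n : ℕ) :
    dyp N i a n = if N * 2 ^ i < (n : ℝ) ∧ (n : ℝ) ≤ 2 * (N * 2 ^ i) then a n else 0 := rfl

theorem pk_dyp_sum (N : ℝ) (hN : 0 < N) (a : ArithmeticFunction ℂ) (n J : ℕ) :
    ∑ i ∈ Finset.range J, dyp N i a n = if N < n ∧ (n : ℝ) ≤ N * 2 ^ J then a n else 0 := by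
  rw [← pk_dy N n hN (a n) J]
  rfl

theorem pk_dyp_norm (N : ℝ) (hN : 0 < N) (a : ArithmeticFunction ℂ) (n J : ℕ) :
    ∑ i ∈ Finset.range J, ‖dyp N i a n‖ ≤ ‖a n‖ := by
  have h1 : ∑ i ∈ Finset.range J, ‖dyp N i a n‖ =
      if N < n ∧ (n : ℝ) ≤ N * 2 ^ J then ‖a n‖ else 0 := by
    rw [← pk_dy N n hN (‖a n‖) J]
    refine Finset.sum_congr rfl fun i _ => ?_
    rw [pk_dyp_app]
    split_ifs <;> simp
  rw [h1]
  split_ifs
  · exact le_rfl
  · exact norm_nonneg _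

/-- For `n ≤ Y` the dyadic pieces give back the product. -/
theorem pk_recover (N B Y : ℝ) (hN : 0 < N) (hB : 0 < B) (a b : ArithmeticFunction ℂ) (J : ℕ)
    (ha : ∀ n : ℕ, (n : ℝ) ≤ N → a n = 0) (hb : ∀ n : ℕ, (n : ℝ) ≤ B → b n = 0)
    (hJ : Y / B < N * 2 ^ J) (n : ℕ) (hn : (n : ℝ) ≤ Y) :
    ∑ i ∈ Finset.range J, (dyp N i a * cut (Y / (N * 2 ^ i)) b) n = (a * b) n := by
  have h1 : ∀ i ∈ Finset.range J, (dyp N i a * cut (Y / (N * 2 ^ i)) b) n =
      ∑ x ∈ n.divisorsAntidiagonal, dyp N i a x.1 * b x.2 := by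
    intro i _
    rw [ArithmeticFunction.mul_apply]
    refine Finset.sum_congr rfl fun x hx => ?_
    rw [Nat.mem_divisorsAntidiagonal] at hx
    rw [pk_dyp_app]
    split_ifs with h
    · rw [pk_cut_app, if_pos]
      have h3 : (n : ℝ) = x.1 * x.2 := by rw [← hx.1]; push_cast; ring
      have h4 : 0 < N * 2 ^ i := by positivity
      rw [le_div_iff₀ h4]
      have h5 : (x.2 : ℝ) * (N * 2 ^ i) ≤ x.2 * x.1 :=
        mul_le_mul_of_nonneg_left h.1.le (Nat.cast_nonneg _)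
      nlinarith
    · simp
  rw [Finset.sum_congr rfl h1, Finset.sum_comm, ArithmeticFunction.mul_apply]
  refine Finset.sum_congr rfl fun x hx => ?_
  rw [Nat.mem_divisorsAntidiagonal] at hx
  rw [← Finset.sum_mul, pk_dyp_sum N hN]
  by_cases h1 : (x.1 : ℝ) ≤ N
  · rw [if_neg (by rintro ⟨h, _⟩; linarith), ha _ h1]
  · by_cases h2 : (x.2 : ℝ) ≤ B
    · rw [hb _ h2, mul_zero, mul_zero]
    · rw [if_pos]
      refine ⟨not_le.1 h1, le_trans ?_ hJ.le⟩
      rw [le_div_iff₀ hB]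
      have h3 : (n : ℝ) = x.1 * x.2 := by rw [← hx.1]; push_cast; ring
      have h5 : (x.1 : ℝ) * B ≤ x.1 * x.2 :=
        mul_le_mul_of_nonneg_left (not_le.1 h2).le (Nat.cast_nonneg _)
      linarith

theorem pk_norm_sum (N Y : ℝ) (hN : 0 < N) (a b : ArithmeticFunction ℂ)
    (A B : ArithmeticFunction ℝ) (J : ℕ) (ha : ∀ n, ‖a n‖ ≤ A n) (hb : ∀ n, ‖b n‖ ≤ B n)
    (n : ℕ) : ∑ i ∈ Finset.range J, ‖(dyp N i a * cut (Y / (N * 2 ^ i)) b) n‖ ≤ (A * B) n := by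
  have h1 : ∀ i ∈ Finset.range J, ‖(dyp N i a * cut (Y / (N * 2 ^ i)) b) n‖ ≤
      ∑ x ∈ n.divisorsAntidiagonal, ‖dyp N i a x.1‖ * B x.2 := by
    intro i _
    rw [ArithmeticFunction.mul_apply]
    refine (norm_sum_le _ _).trans (Finset.sum_le_sum fun x _ => ?_)
    rw [norm_mul]
    exact mul_le_mul_of_nonneg_left (dom_cut _ hb _) (norm_nonneg _)
  refine (Finset.sum_le_sum h1).trans ?_
  rw [Finset.sum_comm, ArithmeticFunction.mul_apply]
  refine Finset.sum_le_sum fun x _ => ?_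
  rw [← Finset.sum_mul]
  exact mul_le_mul_of_nonneg_right ((pk_dyp_norm N hN a x.1 J).trans (ha _))
    ((norm_nonneg _).trans (hb _))

theorem pk_Sm_add {a b : ArithmeticFunction ℝ} (ha : Sm a) (hb : Sm b) : Sm (a + b) := by
  intro ε hε
  obtain ⟨C, hC, h⟩ := ha ε hε
  obtain ⟨D, hD, h'⟩ := hb ε hε
  refine ⟨C + D, by positivity, fun n hn => ?_⟩
  rw [ArithmeticFunction.add_apply, add_mul]
  exact (abs_add_le _ _).trans (add_le_add (h n hn) (h' n hn))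

theorem pk_Sm_zero : Sm 0 := by
  intro ε _
  refine ⟨1, one_pos, fun n _ => ?_⟩
  rw [ArithmeticFunction.zero_apply, abs_zero]
  positivity

theorem pk_Sm_sum (s : Finset ℕ) (f : ℕ → ArithmeticFunction ℝ) (h : ∀ i, Sm (f i)) :
    Sm (∑ i ∈ s, f i) := by
  classical
  induction s using Finset.induction_on with
  | empty => simpa using pk_Sm_zero
  | insert a s ha ih => rw [Finset.sum_insert ha]; exact pk_Sm_add (h a) ih

/-- Majorant of everything. -/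
noncomputable def pkT (g : ℕ → ArithmeticFunction ℂ) (r : ℕ) : ArithmeticFunction ℝ :=
  (∏ i ∈ Finset.range r, ab (g i)) + ∑ j ∈ Finset.range r,
    ((∏ i ∈ Finset.range (j + 1), ab (g i)) * (∏ i ∈ Finset.Ico (j + 1) r, ab (g i)) +
     (∏ i ∈ Finset.range j, ab (g i)) * (∏ i ∈ Finset.Ico (j + 1) r, ab (g i)) +
     ((∏ i ∈ Finset.range (j + 1), ab (g i)) + (∏ i ∈ Finset.range (j + 1), ab (g i))) +
     (∏ i ∈ Finset.Ico (j + 1) r, ab (g i)) +
     ((∏ i ∈ Finset.range (j + 1), ab (g i)) + (∏ i ∈ Finset.range (j + 1), ab (g i))) *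
       (∏ i ∈ Finset.Ico (j + 1) r, ab (g i)))

theorem pkT_Sm (g : ℕ → ArithmeticFunction ℂ) (r : ℕ)
    (hg : ∀ s : Finset ℕ, Sm (∏ i ∈ s, ab (g i))) : Sm (pkT g r) := by
  unfold pkT
  refine pk_Sm_add (hg _) (pk_Sm_sum _ _ fun j => ?_)
  exact pk_Sm_add (pk_Sm_add (pk_Sm_add (pk_Sm_add (Sm_mul (hg _) (hg _)) (Sm_mul (hg _) (hg _)))
    (pk_Sm_add (hg _) (hg _))) (hg _)) (Sm_mul (pk_Sm_add (hg _) (hg _)) (hg _))


theorem pk_prod_nn (g : ℕ → ArithmeticFunction ℂ) (s : Finset ℕ) (n : ℕ) :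
    0 ≤ (∏ i ∈ s, ab (g i)) n := (norm_nonneg _).trans (dom_prod g s n)

theorem pk_mul_nn (g : ℕ → ArithmeticFunction ℂ) (s t : Finset ℕ) (n : ℕ) :
    0 ≤ ((∏ i ∈ s, ab (g i)) * (∏ i ∈ t, ab (g i))) n :=
  (norm_nonneg _).trans (dom_mul (dom_prod g s) (dom_prod g t) n)

theorem pk_uu_dom (g : ℕ → ArithmeticFunction ℂ) (N : ℝ) (j n : ℕ) :
    ‖uu g N j n‖ ≤ ((∏ i ∈ Finset.range (j + 1), ab (g i)) +
      (∏ i ∈ Finset.range (j + 1), ab (g i))) n := by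
  rw [uu, pk_sub_app, ArithmeticFunction.add_apply]
  refine (norm_sub_le _ _).trans (add_le_add ?_ ?_)
  · have h1 := dom_mul (dom_cut N (dom_prod g (Finset.range j))) (b := g j) (B := ab (g j))
      (fun n => le_rfl) n
    rw [Finset.prod_range_succ]
    exact h1
  · exact dom_cut N (dom_prod g (Finset.range (j + 1))) n

theorem pk_ww_dom (g : ℕ → ArithmeticFunction ℂ) (r : ℕ) (B : ℝ) (j n : ℕ) :
    ‖ww g r B j n‖ ≤ (∏ i ∈ Finset.Ico (j + 1) r, ab (g i)) n := by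
  rw [ww, pk_sub_app, pk_cut_app]
  split_ifs
  · rw [sub_self, norm_zero]; exact pk_prod_nn g _ n
  · rw [sub_zero]; exact dom_prod g _ n

theorem pk_uuww_nn (g : ℕ → ArithmeticFunction ℂ) (j r n : ℕ) :
    0 ≤ (((∏ i ∈ Finset.range (j + 1), ab (g i)) + (∏ i ∈ Finset.range (j + 1), ab (g i))) *
      (∏ i ∈ Finset.Ico (j + 1) r, ab (g i))) n :=
  (norm_nonneg _).trans (dom_mul (pk_uu_dom g 1 j) (dom_prod g (Finset.Ico (j + 1) r)) n)

theorem pkT_terms (g : ℕ → ArithmeticFunction ℂ) (r n : ℕ) :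
    pkT g r n = (∏ i ∈ Finset.range r, ab (g i)) n + ∑ j ∈ Finset.range r,
    (((∏ i ∈ Finset.range (j + 1), ab (g i)) * (∏ i ∈ Finset.Ico (j + 1) r, ab (g i))) n +
     ((∏ i ∈ Finset.range j, ab (g i)) * (∏ i ∈ Finset.Ico (j + 1) r, ab (g i))) n +
     ((∏ i ∈ Finset.range (j + 1), ab (g i)) + (∏ i ∈ Finset.range (j + 1), ab (g i))) n +
     (∏ i ∈ Finset.Ico (j + 1) r, ab (g i)) n +
     (((∏ i ∈ Finset.range (j + 1), ab (g i)) + (∏ i ∈ Finset.range (j + 1), ab (g i))) *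
       (∏ i ∈ Finset.Ico (j + 1) r, ab (g i))) n) := by
  unfold pkT
  rw [ArithmeticFunction.add_apply, pk_sum_app]
  rfl

theorem pk_two_nn (g : ℕ → ArithmeticFunction ℂ) (j n : ℕ) :
    0 ≤ ((∏ i ∈ Finset.range (j + 1), ab (g i)) + (∏ i ∈ Finset.range (j + 1), ab (g i))) n := by
  rw [ArithmeticFunction.add_apply]
  exact add_nonneg (pk_prod_nn g _ n) (pk_prod_nn g _ n)

theorem pkT_ge (g : ℕ → ArithmeticFunction ℂ) (r n j : ℕ) (hj : j < r) :
    ((∏ i ∈ Finset.range j, ab (g i)) * (∏ i ∈ Finset.Ico (j + 1) r, ab (g i))) n ≤ pkT g r n ∧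
    ((∏ i ∈ Finset.range (j + 1), ab (g i)) + (∏ i ∈ Finset.range (j + 1), ab (g i))) n
      ≤ pkT g r n ∧
    (∏ i ∈ Finset.Ico (j + 1) r, ab (g i)) n ≤ pkT g r n := by
  rw [pkT_terms]
  have h0 := pk_prod_nn g (Finset.range r) n
  have key := Finset.single_le_sum (f := fun j =>
    (((∏ i ∈ Finset.range (j + 1), ab (g i)) * (∏ i ∈ Finset.Ico (j + 1) r, ab (g i))) n +
     ((∏ i ∈ Finset.range j, ab (g i)) * (∏ i ∈ Finset.Ico (j + 1) r, ab (g i))) n +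
     ((∏ i ∈ Finset.range (j + 1), ab (g i)) + (∏ i ∈ Finset.range (j + 1), ab (g i))) n +
     (∏ i ∈ Finset.Ico (j + 1) r, ab (g i)) n +
     (((∏ i ∈ Finset.range (j + 1), ab (g i)) + (∏ i ∈ Finset.range (j + 1), ab (g i))) *
       (∏ i ∈ Finset.Ico (j + 1) r, ab (g i))) n)) (s := Finset.range r) (fun i _ => by
        have a1 := pk_mul_nn g (Finset.range (i + 1)) (Finset.Ico (i + 1) r) n
        have a2 := pk_mul_nn g (Finset.range i) (Finset.Ico (i + 1) r) n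
        have a3 := pk_two_nn g i n
        have a4 := pk_prod_nn g (Finset.Ico (i + 1) r) n
        have a5 := pk_uuww_nn g i r n
        positivity) (Finset.mem_range.2 hj)
  have a1 := pk_mul_nn g (Finset.range (j + 1)) (Finset.Ico (j + 1) r) n
  have a2 := pk_mul_nn g (Finset.range j) (Finset.Ico (j + 1) r) n
  have a3 := pk_two_nn g j n
  have a4 := pk_prod_nn g (Finset.Ico (j + 1) r) n
  have a5 := pk_uuww_nn g j r n
  refine ⟨?_, ?_, ?_⟩ <;> linarith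

theorem pkT_ge_z (g : ℕ → ArithmeticFunction ℂ) (r n : ℕ) :
    (∏ i ∈ Finset.range r, ab (g i)) n + ∑ j ∈ Finset.range r,
    ((∏ i ∈ Finset.range (j + 1), ab (g i)) * (∏ i ∈ Finset.Ico (j + 1) r, ab (g i))) n
      ≤ pkT g r n := by
  rw [pkT_terms]
  refine add_le_add le_rfl (Finset.sum_le_sum fun i _ => ?_)
  have a2 := pk_mul_nn g (Finset.range i) (Finset.Ico (i + 1) r) n
  have a3 := pk_two_nn g i n
  have a4 := pk_prod_nn g (Finset.Ico (i + 1) r) n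
  have a5 := pk_uuww_nn g i r n
  linarith

theorem pkT_ge_e (g : ℕ → ArithmeticFunction ℂ) (r n : ℕ) :
    ∑ j ∈ Finset.range r,
    (((∏ i ∈ Finset.range (j + 1), ab (g i)) + (∏ i ∈ Finset.range (j + 1), ab (g i))) *
       (∏ i ∈ Finset.Ico (j + 1) r, ab (g i))) n ≤ pkT g r n := by
  rw [pkT_terms]
  have h0 := pk_prod_nn g (Finset.range r) n
  refine le_trans (Finset.sum_le_sum fun i _ => ?_) (le_add_of_nonneg_left h0)
  have a1 := pk_mul_nn g (Finset.range (i + 1)) (Finset.Ico (i + 1) r) n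
  have a2 := pk_mul_nn g (Finset.range i) (Finset.Ico (i + 1) r) n
  have a3 := pk_two_nn g i n
  have a4 := pk_prod_nn g (Finset.Ico (i + 1) r) n
  linarith

theorem pk_J (y X : ℝ) (hX : 1 ≤ X) (h1 : 1 ≤ y) (hy : y ≤ 16 * X) :
    (∀ i < Nat.log 2 ⌊y⌋₊ + 1, (2 : ℝ) ^ i ≤ y) ∧ y < 2 ^ (Nat.log 2 ⌊y⌋₊ + 1) ∧
    ((Nat.log 2 ⌊y⌋₊ + 1 : ℕ) : ℝ) ≤ 6 * (1 + Real.log X) := by
  have hy0 : 0 ≤ y := by linarith
  have hf : ⌊y⌋₊ ≠ 0 := by
    have : 1 ≤ ⌊y⌋₊ := Nat.one_le_floor_iff y |>.2 h1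
    omega
  have hfy : ((⌊y⌋₊ : ℕ) : ℝ) ≤ y := Nat.floor_le hy0
  have hk : (2 : ℝ) ^ (Nat.log 2 ⌊y⌋₊) ≤ y := by
    have h := Nat.pow_log_le_self 2 hf
    have h' : ((2 ^ (Nat.log 2 ⌊y⌋₊) : ℕ) : ℝ) ≤ ((⌊y⌋₊ : ℕ) : ℝ) := by exact_mod_cast h
    push_cast at h'
    exact h'.trans hfy
  refine ⟨fun i hi => ?_, ?_, ?_⟩
  · exact (pow_le_pow_right₀ (by norm_num) (Nat.lt_succ_iff.1 hi)).trans hk
  · have h := Nat.lt_pow_succ_log_self (b := 2) (by norm_num) ⌊y⌋₊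
    rw [Nat.succ_eq_add_one, Nat.floor_lt hy0] at h
    push_cast at h
    exact h
  · push_cast
    have hlog : (Nat.log 2 ⌊y⌋₊ : ℝ) * Real.log 2 ≤ 4 * Real.log 2 + Real.log X := by
      have h1 : Real.log ((2 : ℝ) ^ (Nat.log 2 ⌊y⌋₊)) ≤ Real.log (16 * X) :=
        Real.log_le_log (by positivity) (hk.trans hy)
      rw [Real.log_pow, Real.log_mul (by norm_num) (by linarith)] at h1
      have h2 : Real.log 16 = 4 * Real.log 2 := by
        rw [show (16 : ℝ) = 2 ^ 4 by norm_num, Real.log_pow]; norm_num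
      linarith
    have h2 := Real.log_two_gt_d9
    have hX0 : 0 ≤ Real.log X := Real.log_nonneg hX
    by_cases h4 : (Nat.log 2 ⌊y⌋₊ : ℝ) ≤ 4
    · linarith
    · nlinarith

theorem pack_gen (g : ℕ → ArithmeticFunction ℂ) (hg : ∀ s : Finset ℕ, Sm (∏ i ∈ s, ab (g i)))
    (r : ℕ) {ε : ℝ} (hε : 0 < ε) : ∃ C : ℝ, 0 < C ∧
    ∀ X N B : ℝ, 1 ≤ N → 1 ≤ B → N * B ≤ X →
    ∃ (z e : ArithmeticFunction ℂ) (h : ℕ → ArithmeticFunction ℂ) (J : ℕ)
      (u w : ℕ → ℕ → ArithmeticFunction ℂ) (A : ℕ → ℝ),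
      (∏ i ∈ Finset.range r, g i) = z + ∑ j ∈ Finset.range r, g j * h j +
        ∑ j ∈ Finset.range r, ∑ i ∈ Finset.range J, u j i * w j i + e ∧
      (J : ℝ) ≤ C * (1 + Real.log X) ∧
      (∀ n : ℕ, N * B < n → z n = 0) ∧ (∀ n : ℕ, ‖z n‖ ≤ C * X ^ ε) ∧
      (∀ j < r, (∀ n : ℕ, N * B < n → h j n = 0) ∧ ∀ n : ℕ, ‖h j n‖ ≤ C * X ^ ε) ∧
      (∀ i < J, N ≤ A i ∧ A i ≤ 16 * X / B) ∧
      (∀ j < r, ∀ i < J, (∀ n : ℕ, 2 * A i < n → u j i n = 0) ∧
        (∀ n : ℕ, 16 * X / A i < n → w j i n = 0) ∧ (∀ n : ℕ, ‖u j i n‖ ≤ C * X ^ ε) ∧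
        ∀ n : ℕ, ‖w j i n‖ ≤ C * X ^ ε) ∧
      (∀ n : ℕ, (n : ℝ) ≤ 16 * X → e n = 0) ∧ ∀ n : ℕ, ‖e n‖ ≤ C * n := by
  obtain ⟨C0, hC0, h0⟩ := pkT_Sm g r hg ε hε
  obtain ⟨C1, hC1, h1⟩ := pkT_Sm g r hg 1 one_pos
  refine ⟨C0 * 32 ^ ε + 2 * C1 + 6, by positivity, fun X N B hN hB hX => ?_⟩
  set C := C0 * 32 ^ ε + 2 * C1 + 6 with hC
  have hN0 : 0 < N := by linarith
  have hB0 : 0 < B := by linarith
  have hNB1 : 1 ≤ N * B := by nlinarith
  have hX1 : 1 ≤ X := hNB1.trans hX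
  have hX0 : 0 < X := by linarith
  -- the bound for the majorant
  have hT : ∀ n : ℕ, (n : ℝ) ≤ 32 * X → pkT g r n ≤ C * X ^ ε := by
    intro n hn
    rcases Nat.eq_zero_or_pos n with rfl | hn1
    · rw [ArithmeticFunction.map_zero]; positivity
    · have h2 := (le_abs_self _).trans (h0 n hn1)
      have h3 : (n : ℝ) ^ ε ≤ (32 * X) ^ ε :=
        Real.rpow_le_rpow (Nat.cast_nonneg _) hn hε.le
      rw [Real.mul_rpow (by norm_num) hX0.le] at h3
      have h4 : (0 : ℝ) ≤ X ^ ε := by positivity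
      have h5 : C0 * (n : ℝ) ^ ε ≤ C0 * (32 ^ ε * X ^ ε) := mul_le_mul_of_nonneg_left h3 hC0.le
      have h6 : 0 ≤ (2 * C1 + 6) * X ^ ε := by positivity
      rw [hC]
      nlinarith
  have hT1 : ∀ n : ℕ, 2 * pkT g r n ≤ C * n := by
    intro n
    rcases Nat.eq_zero_or_pos n with rfl | hn1
    · rw [ArithmeticFunction.map_zero]; simp
    · have h2 := (le_abs_self _).trans (h1 n hn1)
      rw [Real.rpow_one] at h2
      have h3 : 0 ≤ C0 * (32 : ℝ) ^ ε := by positivity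
      have h4 : (0 : ℝ) ≤ n := Nat.cast_nonneg n
      have h5 : 0 ≤ (C0 * (32 : ℝ) ^ ε + 6) * n := by positivity
      rw [hC]
      nlinarith
  have hCX : 0 ≤ C * X ^ ε := by positivity
  set y : ℝ := 16 * X / (N * B) with hy
  have hNB0 : 0 < N * B := by positivity
  have hy1 : 1 ≤ y := by
    rw [hy, le_div_iff₀ hNB0]; linarith
  have hy2 : y ≤ 16 * X := by
    rw [hy, div_le_iff₀ hNB0]; nlinarith
  obtain ⟨hJ1, hJ2, hJ3⟩ := pk_J y X hX1 hy1 hy2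
  set J := Nat.log 2 ⌊y⌋₊ + 1 with hJ
  have hyN : N * y = 16 * X / B := by
    rw [hy]; field_simp
  have hA2 : ∀ i < J, N * 2 ^ i ≤ 16 * X / B := by
    intro i hi
    rw [← hyN]
    exact mul_le_mul_of_nonneg_left (hJ1 i hi) hN0.le
  have hAJ : 16 * X / B < N * 2 ^ J := by
    rw [← hyN]
    exact mul_lt_mul_of_pos_left hJ2 hN0
  have hA1 : ∀ i : ℕ, N ≤ N * 2 ^ i := by
    intro i
    have : (1 : ℝ) ≤ 2 ^ i := one_le_pow₀ (by norm_num)
    nlinarith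
  refine ⟨cut N (PP g r) - ∑ j ∈ Finset.range r, cut N (PP g (j + 1)) * cut B (RR g r (j + 1)),
    ∑ j ∈ Finset.range r, (uu g N j * ww g r B j -
      ∑ i ∈ Finset.range J, dyp N i (uu g N j) * cut (16 * X / (N * 2 ^ i)) (ww g r B j)),
    fun j => cut N (PP g j) * cut B (RR g r (j + 1)), J,
    fun j i => dyp N i (uu g N j), fun j i => cut (16 * X / (N * 2 ^ i)) (ww g r B j),
    fun i => N * 2 ^ i, ?_, ?_, ?_, ?_, ?_, ?_, ?_, ?_, ?_⟩
  · rw [pk_ident g r N B hN, Finset.sum_sub_distrib]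
    ring
  · have hl : 0 ≤ Real.log X := Real.log_nonneg hX1
    refine hJ3.trans (mul_le_mul_of_nonneg_right ?_ (by linarith))
    have : 0 ≤ C0 * (32 : ℝ) ^ ε := by positivity
    rw [hC]; linarith
  · intro n hn
    rw [pk_sub_app, pk_sum_app]
    have h2 : N < n := by nlinarith
    rw [pk_cut_app, if_neg (not_le.2 h2), Finset.sum_eq_zero, sub_zero]
    intro j _
    refine pk_supp_mul hN0.le (fun m hm => ?_) (fun m hm => ?_) n hn
    · rw [pk_cut_app, if_neg (not_le.2 hm)]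
    · rw [pk_cut_app, if_neg (not_le.2 hm)]
  · intro n
    by_cases hn : N * B < n
    · have h2 : N < n := by nlinarith
      rw [pk_sub_app, pk_sum_app, pk_cut_app, if_neg (not_le.2 h2), Finset.sum_eq_zero, sub_zero,
        norm_zero]
      · exact hCX
      · intro j _
        refine pk_supp_mul hN0.le (fun m hm => ?_) (fun m hm => ?_) n hn
        · rw [pk_cut_app, if_neg (not_le.2 hm)]
        · rw [pk_cut_app, if_neg (not_le.2 hm)]
    · refine le_trans ?_ (hT n (by linarith))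
      rw [pk_sub_app, pk_sum_app]
      refine (norm_sub_le _ _).trans (le_trans (add_le_add
        (dom_cut N (dom_prod g (Finset.range r)) n) ?_) (pkT_ge_z g r n))
      refine (norm_sum_le _ _).trans (Finset.sum_le_sum fun j _ => ?_)
      exact dom_mul (dom_cut N (dom_prod g _)) (dom_cut B (dom_prod g _)) n
  · intro j hj
    have hs : ∀ n : ℕ, N * B < n → (cut N (PP g j) * cut B (RR g r (j + 1))) n = 0 := by
      intro n hn
      refine pk_supp_mul hN0.le (fun m hm => ?_) (fun m hm => ?_) n hn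
      · rw [pk_cut_app, if_neg (not_le.2 hm)]
      · rw [pk_cut_app, if_neg (not_le.2 hm)]
    refine ⟨hs, fun n => ?_⟩
    by_cases hn : N * B < n
    · rw [hs n hn, norm_zero]; exact hCX
    · refine le_trans ?_ (hT n (by linarith))
      exact (dom_mul (dom_cut N (dom_prod g _)) (dom_cut B (dom_prod g _)) n).trans
        (pkT_ge g r n j hj).1
  · intro i hi
    exact ⟨hA1 i, hA2 i hi⟩
  · intro j hj i hi
    have hAi := hA2 i hi
    have hAi0 : 0 < N * 2 ^ i := by positivity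
    have hXB : 16 * X / B ≤ 16 * X := by
      rw [div_le_iff₀ hB0]; nlinarith
    have hXA : 16 * X / (N * 2 ^ i) ≤ 16 * X := by
      rw [div_le_iff₀ hAi0]
      have := hA1 i
      nlinarith
    refine ⟨fun n hn => ?_, fun n hn => ?_, fun n => ?_, fun n => ?_⟩
    · rw [pk_dyp_app, if_neg (by rintro ⟨_, h⟩; linarith)]
    · rw [pk_cut_app, if_neg (not_le.2 hn)]
    · rw [pk_dyp_app]
      split_ifs with h
      · refine le_trans ?_ (hT n (by linarith [h.2]))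
        exact (pk_uu_dom g N j n).trans (pkT_ge g r n j hj).2.1
      · rw [norm_zero]; exact hCX
    · rw [pk_cut_app]
      split_ifs with h
      · refine le_trans ?_ (hT n (by linarith))
        exact (pk_ww_dom g r B j n).trans (pkT_ge g r n j hj).2.2
      · rw [norm_zero]; exact hCX
  · intro n hn
    rw [pk_sum_app]
    refine Finset.sum_eq_zero fun j _ => ?_
    rw [pk_sub_app, pk_sum_app, pk_recover N B (16 * X) hN0 hB0 _ _ J
      (fun m hm => pk_uu_zero g N j m hm) (fun m hm => pk_ww_zero g r B j m hm) hAJ n hn, sub_self]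
  · intro n
    refine le_trans ?_ (hT1 n)
    rw [pk_sum_app]
    refine (norm_sum_le _ _).trans ?_
    have h2 : ∀ j ∈ Finset.range r, ‖(uu g N j * ww g r B j -
        ∑ i ∈ Finset.range J, dyp N i (uu g N j) * cut (16 * X / (N * 2 ^ i)) (ww g r B j)) n‖ ≤
        2 * (((∏ i ∈ Finset.range (j + 1), ab (g i)) + (∏ i ∈ Finset.range (j + 1), ab (g i))) *
          (∏ i ∈ Finset.Ico (j + 1) r, ab (g i))) n := by
      intro j _
      rw [pk_sub_app, pk_sum_app]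
      have h3 := dom_mul (pk_uu_dom g N j) (pk_ww_dom g r B j) n
      have h4 := pk_norm_sum N (16 * X) hN0 (uu g N j) (ww g r B j) _ _ J (pk_uu_dom g N j)
        (pk_ww_dom g r B j) n
      have h5 := norm_sum_le (Finset.range J)
        (fun i => (dyp N i (uu g N j) * cut (16 * X / (N * 2 ^ i)) (ww g r B j)) n)
      have h6 := norm_sub_le ((uu g N j * ww g r B j) n) (∑ i ∈ Finset.range J,
        (dyp N i (uu g N j) * cut (16 * X / (N * 2 ^ i)) (ww g r B j)) n)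
      linarith
    refine (Finset.sum_le_sum h2).trans ?_
    rw [← Finset.mul_sum]
    exact mul_le_mul_of_nonneg_left (pkT_ge_e g r n) (by norm_num)

theorem pack (G : ℕ → Sel) (r : ℕ) {ε : ℝ} (hε : 0 < ε) : ∃ C : ℝ, 0 < C ∧
    ∀ X N B : ℝ, 1 ≤ N → 1 ≤ B → N * B ≤ X →
    ∃ (z e : ArithmeticFunction ℂ) (h : ℕ → ArithmeticFunction ℂ) (J : ℕ)
      (u w : ℕ → ℕ → ArithmeticFunction ℂ) (A : ℕ → ℝ),
      (∏ i ∈ Finset.range r, af (G i)) = z + ∑ j ∈ Finset.range r, af (G j) * h j +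
        ∑ j ∈ Finset.range r, ∑ i ∈ Finset.range J, u j i * w j i + e ∧
      (J : ℝ) ≤ C * (1 + Real.log X) ∧
      (∀ n : ℕ, N * B < n → z n = 0) ∧ (∀ n : ℕ, ‖z n‖ ≤ C * X ^ ε) ∧
      (∀ j < r, (∀ n : ℕ, N * B < n → h j n = 0) ∧ ∀ n : ℕ, ‖h j n‖ ≤ C * X ^ ε) ∧
      (∀ i < J, N ≤ A i ∧ A i ≤ 16 * X / B) ∧
      (∀ j < r, ∀ i < J, (∀ n : ℕ, 2 * A i < n → u j i n = 0) ∧
        (∀ n : ℕ, 16 * X / A i < n → w j i n = 0) ∧ (∀ n : ℕ, ‖u j i n‖ ≤ C * X ^ ε) ∧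
        ∀ n : ℕ, ‖w j i n‖ ≤ C * X ^ ε) ∧
      (∀ n : ℕ, (n : ℝ) ≤ 16 * X → e n = 0) ∧ ∀ n : ℕ, ‖e n‖ ≤ C * n :=
  pack_gen (fun i => af (G i)) (fun s => Sm_prod G s) r hε

end DAD
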