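import Pool.Agent.DAD.Defs

set_option autoImplicit false

/-!
# DAD/Tail: convergence, additivity and the far tail of `W`

Plan: for `n ≥ 2x`, `L = log (n/x)`, `0 ≤ Phi V (-L) ≤ exp (-V² L² / 4)` (Gaussian tail,
`Phi V (-L) = ∫_{u ≤ -L} kV V u`), the same for `2V`.
For `n > 16 X ≥ 8 x`: `L ≥ log 8 > 2`, so `exp (-V² L²/4) ≤ exp (-V² L/2) = (x/n)^(V²/2)`
`≤ (x/n)^4 8^(-(V²/2 - 4))` for `V ≥ 4`; sum of `M n (x/n)^4`, `x ≤ 2X`, `X ≤ V^3`.
-/

open Complex MeasureTheory

namespace DAD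

open HYM

/-- Gaussian tail. -/
theorem Phi_tail {V L : ℝ} (hV : 0 < V) (hL : 0 ≤ L) :
    Phi V (-L) ≤ Real.exp (-(V * L) ^ 2 / 4) := by
  have hi : Integrable fun u : ℝ => Real.exp (-(V * L) ^ 2 / 4) * kV V (u + L) :=
    ((kV_integrable hV).comp_add_right L).const_mul _
  have h1 : Phi V (-L) ≤ ∫ u in Set.Iic (-L), Real.exp (-(V * L) ^ 2 / 4) * kV V (u + L) := by
    unfold Phi
    refine setIntegral_mono_on (kV_integrable hV).integrableOn hi.integrableOn measurableSet_Iic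
      fun u hu => ?_
    have hu' : u + L ≤ 0 := by
      have : u ≤ -L := hu
      linarith
    unfold kV
    have h2 : Real.exp (-(V * u) ^ 2 / 4) ≤
        Real.exp (-(V * L) ^ 2 / 4) * Real.exp (-(V * (u + L)) ^ 2 / 4) := by
      rw [← Real.exp_add]
      apply Real.exp_le_exp.2
      have h3 : 0 ≤ V ^ 2 * (L * (-(u + L))) :=
        mul_nonneg (sq_nonneg _) (mul_nonneg hL (by linarith))
      nlinarith
    have h4 : 0 ≤ V / (2 * √Real.pi) := by positivity
    calc V / (2 * √Real.pi) * Real.exp (-(V * u) ^ 2 / 4)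
        ≤ V / (2 * √Real.pi) *
          (Real.exp (-(V * L) ^ 2 / 4) * Real.exp (-(V * (u + L)) ^ 2 / 4)) :=
          mul_le_mul_of_nonneg_left h2 h4
      _ = _ := by ring
  have h5 : ∫ u in Set.Iic (-L), Real.exp (-(V * L) ^ 2 / 4) * kV V (u + L) ≤
      ∫ u, Real.exp (-(V * L) ^ 2 / 4) * kV V (u + L) :=
    setIntegral_le_integral hi (Filter.Eventually.of_forall fun u =>
      mul_nonneg (Real.exp_pos _).le (kV_pos hV _).le)
  have h6 : ∫ u, Real.exp (-(V * L) ^ 2 / 4) * kV V (u + L) = Real.exp (-(V * L) ^ 2 / 4) := by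
    rw [integral_const_mul, integral_add_right_eq_self (kV V) L, kV_integral hV, mul_one]
  linarith

/-- The difference of the weights beyond `x`. -/
theorem diff_le {V L : ℝ} (hV : 0 < V) (hL : 0 ≤ L) :
    |Phi (2 * V) (-L) - Phi V (-L)| ≤ Real.exp (-(V * L) ^ 2 / 4) := by
  have h1 := Phi_tail hV hL
  have h2 := Phi_tail (V := 2 * V) (by linarith) hL
  have h3 := (Phi_le_one hV (-L)).1
  have h4 := (Phi_le_one (V := 2 * V) (by linarith) (-L)).1
  have h5 : Real.exp (-(2 * V * L) ^ 2 / 4) ≤ Real.exp (-(V * L) ^ 2 / 4) := by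
    apply Real.exp_le_exp.2
    nlinarith [sq_nonneg (V * L)]
  rw [abs_le]
  constructor <;> linarith

theorem diff_pow {V x : ℝ} {n : ℕ} (hx : 0 < x) (hn : 0 < n) {L : ℝ}
    (hL : L = Real.log (n / x)) (hV : 0 < V) (hL0 : 0 ≤ L) :
    |Phi (2 * V) (Real.log (x / n)) - Phi V (Real.log (x / n))| ≤
      x ^ 4 / (n : ℝ) ^ 4 * Real.exp (4 * L - (V * L) ^ 2 / 4) := by
  have hn' : (0 : ℝ) < n := by exact_mod_cast hn
  have h1 : Real.log (x / n) = -L := by
    rw [hL, ← Real.log_inv, inv_div]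
  rw [h1]
  refine (diff_le hV hL0).trans (le_of_eq ?_)
  have h2 : x ^ 4 / (n : ℝ) ^ 4 = Real.exp (-(4 * L)) := by
    have h3 : Real.exp L = n / x := by
      rw [hL, Real.exp_log (div_pos hn' hx)]
    have h4 : Real.exp (4 * L) = (n / x) ^ 4 := by
      rw [← h3, ← Real.exp_nat_mul]
      norm_num
    rw [Real.exp_neg, h4, div_pow, inv_div]
  rw [h2, ← Real.exp_add]
  congr 1
  ring

theorem M_nonneg {M : ℝ} {a : ArithmeticFunction ℂ} (ha : ∀ n : ℕ, ‖a n‖ ≤ M * n) : 0 ≤ M := by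
  have h := (norm_nonneg _).trans (ha 1)
  simpa using h

theorem W_summable {V x M : ℝ} (hV : 1 ≤ V) (hx : 0 < x) {a : ArithmeticFunction ℂ}
    (ha : ∀ n : ℕ, ‖a n‖ ≤ M * n) :
    Summable (fun n : ℕ => ‖a n *
      ((Phi (2 * V) (Real.log (x / n)) - Phi V (Real.log (x / n)) : ℝ) : ℂ)‖) := by
  have hM := M_nonneg ha
  have hg : Summable fun n : ℕ => M * x ^ 4 * (1 / (n : ℝ) ^ 3) :=
    (Real.summable_one_div_nat_pow.2 (by norm_num)).mul_left _
  refine Summable.of_norm_bounded_eventually_nat hg ?_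
  have hN : ∀ᶠ n : ℕ in Filter.atTop, x * Real.exp 16 ≤ n :=
    tendsto_natCast_atTop_atTop.eventually_ge_atTop (x * Real.exp 16)
  filter_upwards [hN, Filter.eventually_ge_atTop 1] with n hn hn1
  have hn' : (0 : ℝ) < n := by exact_mod_cast hn1
  have hL : 16 ≤ Real.log (n / x) := by
    rw [Real.le_log_iff_exp_le (div_pos hn' hx), le_div_iff₀ hx]
    linarith
  set L := Real.log (n / x) with hLd
  have h16 : 16 * L ≤ V ^ 2 * L ^ 2 := by
    have h1 : 16 * L ≤ L ^ 2 := by nlinarith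
    have h2 : L ^ 2 ≤ V ^ 2 * L ^ 2 := le_mul_of_one_le_left (sq_nonneg _) (one_le_pow₀ hV)
    linarith
  have h1 := diff_pow (V := V) hx hn1 hLd (by linarith) (by linarith)
  have h2 : Real.exp (4 * L - (V * L) ^ 2 / 4) ≤ 1 := by
    rw [Real.exp_le_one_iff]
    nlinarith
  have h3 : |Phi (2 * V) (Real.log (x / n)) - Phi V (Real.log (x / n))| ≤
      x ^ 4 / (n : ℝ) ^ 4 :=
    h1.trans (mul_le_of_le_one_right (by positivity) h2)
  rw [norm_norm, norm_mul, Complex.norm_real, Real.norm_eq_abs]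
  calc ‖a n‖ * |Phi (2 * V) (Real.log (x / n)) - Phi V (Real.log (x / n))|
      ≤ (M * n) * (x ^ 4 / (n : ℝ) ^ 4) :=
        mul_le_mul (ha n) h3 (abs_nonneg _) (by positivity)
    _ = M * x ^ 4 * (1 / (n : ℝ) ^ 3) := by
        field_simp

theorem W_add {V x M M' : ℝ} (hV : 1 ≤ V) (hx : 0 < x) {a b : ArithmeticFunction ℂ}
    (ha : ∀ n : ℕ, ‖a n‖ ≤ M * n) (hb : ∀ n : ℕ, ‖b n‖ ≤ M' * n) :
    W V (a + b) x = W V a x + W V b x := by
  unfold W
  rw [← (W_summable hV hx ha).of_norm.tsum_add (W_summable hV hx hb).of_norm]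
  refine tsum_congr fun n => ?_
  rw [ArithmeticFunction.add_apply, add_mul]

theorem W_tail : ∃ C : ℝ, 0 < C ∧ ∀ (V X M x : ℝ) (a : ArithmeticFunction ℂ),
    4 ≤ V → 1 ≤ X → X ≤ V ^ 3 → (∀ n : ℕ, (n : ℝ) ≤ 16 * X → a n = 0) →
    (∀ n : ℕ, ‖a n‖ ≤ M * n) → 0 < x → x ≤ 2 * X → ‖W V a x‖ ≤ C * M := by
  have hs : Summable fun n : ℕ => 1 / (n : ℝ) ^ 3 := Real.summable_one_div_nat_pow.2 (by norm_num)
  set S := ∑' n : ℕ, 1 / (n : ℝ) ^ 3 with hS
  have hS0 : 0 ≤ S := tsum_nonneg fun n => by positivity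
  refine ⟨16 * Real.exp 8 * 720 * S + 1, by positivity, fun V X M x a hV hX hXV h0 ha hx hxX => ?_⟩
  have hM := M_nonneg ha
  have hg : HasSum (fun n : ℕ => 16 * Real.exp 8 * 720 * M * (1 / (n : ℝ) ^ 3))
      (16 * Real.exp 8 * 720 * M * S) := hs.hasSum.mul_left _
  have key : ‖W V a x‖ ≤ 16 * Real.exp 8 * 720 * M * S := by
    refine tsum_of_norm_bounded hg fun n => ?_
    by_cases hn : (n : ℝ) ≤ 16 * X
    · rw [h0 n hn, zero_mul, norm_zero]
      positivity
    · push Not at hn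
      have hn' : (0 : ℝ) < n := by linarith
      have hn1 : 0 < n := by exact_mod_cast hn'
      have hL : 2 ≤ Real.log (n / x) := by
        rw [Real.le_log_iff_exp_le (div_pos hn' hx), le_div_iff₀ hx]
        have h1 : Real.exp 2 ≤ 8 := by
          have h2 := Real.exp_one_lt_d9
          have h3 : Real.exp 2 = Real.exp 1 * Real.exp 1 := by
            rw [← Real.exp_add]
            norm_num
          rw [h3]
          nlinarith [Real.exp_pos 1]
        nlinarith
      set L := Real.log (n / x) with hLd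
      have hV2 : (16 : ℝ) ≤ V ^ 2 := by nlinarith
      have h16 : 16 * L ≤ V ^ 2 * L ^ 2 := by
        have h1 : 16 * L ≤ 16 * L ^ 2 := by nlinarith
        have h2 : 16 * L ^ 2 ≤ V ^ 2 * L ^ 2 := mul_le_mul_of_nonneg_right hV2 (sq_nonneg _)
        linarith
      have h1 := diff_pow (V := V) hx hn1 hLd (by linarith) (by linarith)
      have h2 : Real.exp (4 * L - (V * L) ^ 2 / 4) ≤ Real.exp (8 - V ^ 2) := by
        apply Real.exp_le_exp.2
        have h3 : 0 ≤ (L - 2) * (V ^ 2 * (L + 2) - 16) := by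
          apply mul_nonneg (by linarith)
          nlinarith
        nlinarith
      have h4 : V ^ 12 * Real.exp (-V ^ 2) ≤ 720 := by
        have h5 := Real.pow_div_factorial_le_exp (V ^ 2) (sq_nonneg V) 6
        have h6 : (V ^ 2) ^ 6 = V ^ 12 := by ring
        rw [h6] at h5
        have h7 : ((Nat.factorial 6 : ℕ) : ℝ) = 720 := by norm_num [Nat.factorial]
        rw [h7, div_le_iff₀ (by norm_num)] at h5
        calc V ^ 12 * Real.exp (-V ^ 2) ≤ Real.exp (V ^ 2) * 720 * Real.exp (-V ^ 2) :=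
              mul_le_mul_of_nonneg_right h5 (Real.exp_pos _).le
          _ = 720 * (Real.exp (V ^ 2) * Real.exp (-V ^ 2)) := by ring
          _ = 720 := by
              rw [← Real.exp_add]
              simp
      have h8 : x ^ 4 ≤ 16 * V ^ 12 := by
        calc x ^ 4 ≤ (2 * X) ^ 4 := pow_le_pow_left₀ hx.le hxX 4
          _ = 16 * X ^ 4 := by ring
          _ ≤ 16 * (V ^ 3) ^ 4 := by
              have := pow_le_pow_left₀ (by linarith) hXV 4
              linarith
          _ = 16 * V ^ 12 := by ring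
      have h9 : x ^ 4 * Real.exp (8 - V ^ 2) ≤ 16 * Real.exp 8 * 720 := by
        have h10 : Real.exp (8 - V ^ 2) = Real.exp 8 * Real.exp (-V ^ 2) := by
          rw [← Real.exp_add]
          ring_nf
        rw [h10]
        calc x ^ 4 * (Real.exp 8 * Real.exp (-V ^ 2))
            ≤ 16 * V ^ 12 * (Real.exp 8 * Real.exp (-V ^ 2)) :=
              mul_le_mul_of_nonneg_right h8 (by positivity)
          _ = 16 * Real.exp 8 * (V ^ 12 * Real.exp (-V ^ 2)) := by ring
          _ ≤ 16 * Real.exp 8 * 720 := mul_le_mul_of_nonneg_left h4 (by positivity)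
      rw [norm_mul, Complex.norm_real, Real.norm_eq_abs]
      calc ‖a n‖ * |Phi (2 * V) (Real.log (x / n)) - Phi V (Real.log (x / n))|
          ≤ (M * n) * (x ^ 4 / (n : ℝ) ^ 4 * Real.exp (8 - V ^ 2)) :=
            mul_le_mul (ha n) (h1.trans (mul_le_mul_of_nonneg_left h2 (by positivity)))
              (abs_nonneg _) (by positivity)
        _ = (x ^ 4 * Real.exp (8 - V ^ 2)) * (M * (1 / (n : ℝ) ^ 3)) := by
            field_simp
        _ ≤ (16 * Real.exp 8 * 720) * (M * (1 / (n : ℝ) ^ 3)) :=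
            mul_le_mul_of_nonneg_right h9 (by positivity)
        _ = 16 * Real.exp 8 * 720 * M * (1 / (n : ℝ) ^ 3) := by ring
  nlinarith

end DAD
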