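import Pool.Agent.DAD.Defs
import Pool.Agent.WYL.Smr

set_option autoImplicit false

/-!
# DAD/Win: smoothed sums as integrals

`W_fin`: termwise `HYM.perron_pos` (`c = 1/2`) for `2V` and `V`.
`W_sel`: `W V (af G * b) x = ∑_{m ≤ B} b m * W V (af G) (x/m)` and, for `y > 0`,
`W V (af G) y = G.EV (2V) y - G.EV V y + (rho (2V) y - rho V y)`, where (`EVq_strip`, `Win_ser`)
`rho V y = (2 pi i)^(-1) ∮_{|z-1|=ρ} G.L z y^z e^(z²/V²) / z dz`;
so `‖rho (2V) y - rho V y‖ ≤ C y^(1+ε) / V²` for `y ≥ 1`.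
Sum over `m ≤ B ≤ x`: `∑ ‖b m‖ (x/m)^(1+ε) ≤ d x^(1+ε) (1 + log B)`.
-/

open Complex MeasureTheory

namespace DAD

open HYM

theorem Win_int {V c : ℝ} (hV : 0 < V) (hc : 0 < c) (y : ℝ) :
    Integrable (fun t : ℝ => cexp ((ln c t) ^ 2 / (V : ℂ) ^ 2 + y * ln c t) / ln c t) ∧
    ∫ t : ℝ, ‖cexp ((ln c t) ^ 2 / (V : ℂ) ^ 2 + y * ln c t) / ln c t‖ ≤
      Real.exp (c * y) * (c⁻¹ * ∫ t : ℝ, Real.exp ((c ^ 2 - t ^ 2) / V ^ 2)) := by
  have hg : Integrable (fun t : ℝ => Real.exp ((c ^ 2 - t ^ 2) / V ^ 2)) := by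
    have h1 : (fun t : ℝ => Real.exp ((c ^ 2 - t ^ 2) / V ^ 2)) =
        fun t : ℝ => Real.exp (c ^ 2 / V ^ 2) * Real.exp (-(1 / V ^ 2) * t ^ 2) := by
      funext t
      rw [← Real.exp_add]
      congr 1
      ring
    rw [h1]
    exact (integrable_exp_neg_mul_sq (by positivity)).const_mul _
  have hg2 := (hg.const_mul c⁻¹).const_mul (Real.exp (c * y))
  have hne : ∀ t : ℝ, ln c t ≠ 0 := by
    intro t h
    have := congrArg Complex.re h
    rw [ln_re, Complex.zero_re] at this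
    exact hc.ne' this
  have hbd : ∀ t : ℝ, ‖cexp ((ln c t) ^ 2 / (V : ℂ) ^ 2 + y * ln c t) / ln c t‖ ≤
      Real.exp (c * y) * (c⁻¹ * Real.exp ((c ^ 2 - t ^ 2) / V ^ 2)) := by
    intro t
    rw [norm_div]
    have e2 : ‖cexp ((ln c t) ^ 2 / (V : ℂ) ^ 2 + y * ln c t)‖ =
        Real.exp (c * y) * Real.exp ((c ^ 2 - t ^ 2) / V ^ 2) := by
      rw [Complex.norm_exp, ← Real.exp_add]
      congr 1
      have h1 : (ln c t) ^ 2 / (V : ℂ) ^ 2 + y * ln c t =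
          ((c * y + (c ^ 2 - t ^ 2) / V ^ 2 : ℝ) : ℂ) +
            ((2 * c * t / V ^ 2 + y * t : ℝ) : ℂ) * I := by
        unfold ln
        push_cast
        have hI : I ^ 2 = -1 := Complex.I_sq
        linear_combination ((t : ℂ) ^ 2 / (V : ℂ) ^ 2) * hI
      rw [h1, Complex.add_re, Complex.ofReal_re, Complex.re_ofReal_mul, Complex.I_re, mul_zero,
        add_zero]
    have e3 : c ≤ ‖ln c t‖ := by
      have := Complex.abs_re_le_norm (ln c t)
      rw [ln_re, abs_of_pos hc] at this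
      exact this
    rw [e2, mul_div_assoc]
    apply mul_le_mul_of_nonneg_left _ (Real.exp_pos _).le
    rw [div_le_iff₀ (hc.trans_le e3)]
    have : Real.exp ((c ^ 2 - t ^ 2) / V ^ 2) =
        c⁻¹ * Real.exp ((c ^ 2 - t ^ 2) / V ^ 2) * c := by
      rw [mul_right_comm, inv_mul_cancel₀ hc.ne', one_mul]
    calc Real.exp ((c ^ 2 - t ^ 2) / V ^ 2) = c⁻¹ * Real.exp ((c ^ 2 - t ^ 2) / V ^ 2) * c := this
      _ ≤ _ := mul_le_mul_of_nonneg_left e3 (by positivity)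
  have hcont : Continuous (fun t : ℝ =>
      cexp ((ln c t) ^ 2 / (V : ℂ) ^ 2 + y * ln c t) / ln c t) := by
    have h1 : Continuous (fun t : ℝ => ln c t) := by unfold ln; fun_prop
    apply Continuous.div _ h1 hne
    fun_prop
  have hint := hg2.mono' hcont.aestronglyMeasurable (Filter.Eventually.of_forall hbd)
  refine ⟨hint, ?_⟩
  have h5 := integral_mono hint.norm hg2 hbd
  rwa [integral_const_mul, integral_const_mul] at h5

theorem Win_term (V : ℝ) {x : ℝ} (hx : 0 < x) {n : ℕ} (hn : n ≠ 0) (c t : ℝ) :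
    cexp ((ln c t) ^ 2 / (V : ℂ) ^ 2 + (Real.log (x / n) : ℂ) * ln c t) =
      cexp ((ln c t) ^ 2 / (V : ℂ) ^ 2) * (x : ℂ) ^ (ln c t) / (n : ℂ) ^ (ln c t) := by
  have hxc : (x : ℂ) ≠ 0 := by exact_mod_cast hx.ne'
  have hn' : (0 : ℝ) < n := by exact_mod_cast Nat.pos_of_ne_zero hn
  have hnc : (n : ℂ) ≠ 0 := by exact_mod_cast hn
  rw [Complex.cpow_def_of_ne_zero hxc, Complex.cpow_def_of_ne_zero hnc, ← Complex.exp_add,
    ← Complex.exp_sub]
  congr 1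
  rw [Real.log_div hx.ne' hn'.ne']
  push_cast [Complex.ofReal_log hx.le]
  rw [← Complex.natCast_log]
  ring

theorem Win_out {A : ℝ} {a : ArithmeticFunction ℂ} (ha : ∀ n : ℕ, A < n → a n = 0) {n : ℕ}
    (hn : n ∉ Finset.Icc 1 ⌊A⌋₊) : a n = 0 := by
  rcases Nat.eq_zero_or_pos n with rfl | hn0
  · exact ArithmeticFunction.map_zero
  · apply ha
    rw [Finset.mem_Icc, not_and_or] at hn
    rcases hn with hn | hn
    · omega
    · exact Nat.lt_of_floor_lt (not_le.1 hn)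

theorem Win_dp {A : ℝ} {a : ArithmeticFunction ℂ} (ha : ∀ n : ℕ, A < n → a n = 0) (t : ℝ) :
    dp a t = ∑ n ∈ Finset.Icc 1 ⌊A⌋₊, a n / (n : ℂ) ^ (ln (1 / 2) t) := by
  unfold dp LSeries
  rw [tsum_eq_sum (s := Finset.Icc 1 ⌊A⌋₊)]
  · apply Finset.sum_congr rfl
    intro n hn
    rw [Finset.mem_Icc] at hn
    rw [LSeries.term_of_ne_zero (by omega)]
  · intro n hn
    rcases Nat.eq_zero_or_pos n with rfl | hn0
    · rw [LSeries.term_zero]
    · rw [LSeries.term_of_ne_zero hn0.ne', Win_out ha hn, zero_div]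

theorem W_fin (V x A : ℝ) (hV : 0 < V) (hx : 0 < x) (a : ArithmeticFunction ℂ)
    (ha : ∀ n : ℕ, A < n → a n = 0) :
    W V a x = vint (1 / 2) (fun t => dp a t * wt V t) x := by
  have hV2 : 0 < 2 * V := by linarith
  have h1 : W V a x = ∑ n ∈ Finset.Icc 1 ⌊A⌋₊, a n *
      ((Phi (2 * V) (Real.log (x / n)) - Phi V (Real.log (x / n)) : ℝ) : ℂ) := by
    unfold W
    apply tsum_eq_sum
    intro n hn
    rw [Win_out ha hn, zero_mul]
  rw [h1]
  unfold vint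
  have h2 : ∀ t : ℝ, dp a t * wt V t * (x : ℂ) ^ (ln (1 / 2) t) =
      ∑ n ∈ Finset.Icc 1 ⌊A⌋₊, a n *
      (cexp ((ln (1 / 2) t) ^ 2 / ((2 * V : ℝ) : ℂ) ^ 2 +
          (Real.log (x / n) : ℂ) * ln (1 / 2) t) / ln (1 / 2) t -
        cexp ((ln (1 / 2) t) ^ 2 / (V : ℂ) ^ 2 +
          (Real.log (x / n) : ℂ) * ln (1 / 2) t) / ln (1 / 2) t) := by
    intro t
    rw [Win_dp ha, Finset.sum_mul, Finset.sum_mul]
    apply Finset.sum_congr rfl
    intro n hn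
    rw [Finset.mem_Icc] at hn
    rw [Win_term _ hx (by omega), Win_term _ hx (by omega)]
    unfold wt
    ring
  simp only [h2]
  rw [integral_finsetSum, Finset.mul_sum]
  · apply Finset.sum_congr rfl
    intro n hn
    rw [integral_const_mul, integral_sub (Win_int hV2 (by norm_num) _).1
      (Win_int hV (by norm_num) _).1]
    rw [mul_left_comm, mul_sub, perron_pos hV2 (by norm_num), perron_pos hV (by norm_num)]
    push_cast
    ring
  · intro n hn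
    exact ((Win_int hV2 (by norm_num) _).1.sub (Win_int hV (by norm_num) _).1).const_mul _

/-- the smoothed sum of the coefficients -/
theorem Win_ser (F : Sel) {V x : ℝ} (hV : 0 < V) (hx : 0 < x) :
    HasSum (fun n : ℕ => af F n * (Phi V (Real.log (x / n)) : ℂ))
      (vint 2 (fun t => F.L (ln 2 t) / ln 2 t * cexp ((ln 2 t) ^ 2 / (V : ℂ) ^ 2)) x) := by
  have haf : ∀ n : ℕ, af F n = if n = 0 then 0 else F.f n := fun n => rfl
  have hpt : ∀ t : ℝ, F.L (ln 2 t) / ln 2 t * cexp ((ln 2 t) ^ 2 / (V : ℂ) ^ 2) *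
      (x : ℂ) ^ (ln 2 t) = ∑' n : ℕ, af F n *
      (cexp ((ln 2 t) ^ 2 / (V : ℂ) ^ 2 + (Real.log (x / n) : ℂ) * ln 2 t) / ln 2 t) := by
    intro t
    have hL : F.L (ln 2 t) = LSeries F.f (ln 2 t) :=
      (F.series (ln 2 t) (by rw [ln_re]; norm_num)).symm
    rw [hL]
    unfold LSeries
    rw [div_mul_eq_mul_div, div_mul_eq_mul_div, mul_assoc, ← tsum_mul_right, ← tsum_div_const]
    apply tsum_congr
    intro n
    rcases Nat.eq_zero_or_pos n with rfl | hn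
    · simp
    · rw [LSeries.term_of_ne_zero hn.ne', haf, if_neg hn.ne', Win_term V hx hn.ne']
      ring
  have hint : ∀ n : ℕ, Integrable (fun t : ℝ => af F n *
      (cexp ((ln 2 t) ^ 2 / (V : ℂ) ^ 2 + (Real.log (x / n) : ℂ) * ln 2 t) / ln 2 t)) :=
    fun n => (Win_int hV (by norm_num) _).1.const_mul _
  have hsum : Summable (fun n : ℕ => ∫ t : ℝ, ‖af F n *
      (cexp ((ln 2 t) ^ 2 / (V : ℂ) ^ 2 + (Real.log (x / n) : ℂ) * ln 2 t) / ln 2 t)‖) := by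
    have h := ((F.summable 2 (by norm_num)).norm.mul_left (x ^ 2)).mul_right
      ((2 : ℝ)⁻¹ * ∫ t : ℝ, Real.exp (((2 : ℝ) ^ 2 - t ^ 2) / V ^ 2))
    refine Summable.of_nonneg_of_le (fun n => integral_nonneg fun t => norm_nonneg _)
      (fun n => ?_) h
    rcases Nat.eq_zero_or_pos n with rfl | hn
    · simp [haf]
    · have hn' : (0 : ℝ) < n := by exact_mod_cast hn
      simp only [norm_mul (af F n)]
      rw [integral_const_mul, haf, if_neg hn.ne']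
      have h2 := (Win_int hV (by norm_num : (0 : ℝ) < 2) (Real.log (x / n))).2
      have h3 : Real.exp (2 * Real.log (x / n)) = x ^ 2 / (n : ℝ) ^ 2 := by
        have : 2 * Real.log (x / n) = ((2 : ℕ) : ℝ) * Real.log (x / n) := by norm_num
        rw [this, Real.exp_nat_mul, Real.exp_log (by positivity), div_pow]
      rw [h3] at h2
      rw [LSeries.norm_term_eq, if_neg hn.ne', show (2 : ℂ).re = ((2 : ℕ) : ℝ) by norm_num,
        Real.rpow_natCast]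
      refine (mul_le_mul_of_nonneg_left h2 (norm_nonneg _)).trans (le_of_eq ?_)
      ring
  have h := (hasSum_integral_of_summable_integral_norm hint hsum).mul_left
    ((2 * (Real.pi : ℂ))⁻¹)
  have e : (fun n : ℕ => (2 * (Real.pi : ℂ))⁻¹ * ∫ t : ℝ, af F n *
      (cexp ((ln 2 t) ^ 2 / (V : ℂ) ^ 2 + (Real.log (x / n) : ℂ) * ln 2 t) / ln 2 t)) =
      fun n : ℕ => af F n * (Phi V (Real.log (x / n)) : ℂ) := by
    funext n
    rw [integral_const_mul, mul_left_comm, perron_pos hV (by norm_num)]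
  rw [e] at h
  unfold vint
  simp only [hpt]
  exact h

/-- the integrand of the residue with the Gaussian factor -/
theorem Win_circ (F : Sel) (V : ℝ) {x ρ : ℝ} (hx : 0 < x) (hρ : 0 < ρ) (hρ2 : ρ ≤ 1 / 2) :
    (∮ z in C(1, 1 / 2), F.L z * ((x : ℂ) ^ z * cexp (z ^ 2 / (V : ℂ) ^ 2)) / z) =
      ∮ z in C(1, ρ), WYL.rint F x z * cexp (z ^ 2 / (V : ℂ) ^ 2) := by
  have h0 : (∮ z in C(1, 1 / 2), F.L z * ((x : ℂ) ^ z * cexp (z ^ 2 / (V : ℂ) ^ 2)) / z) =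
      ∮ z in C(1, 1 / 2), WYL.rint F x z * cexp (z ^ 2 / (V : ℂ) ^ 2) := by
    congr 1
    funext z
    unfold WYL.rint
    ring
  rw [h0]
  have hd : ∀ z : ℂ, z ≠ 1 → z ≠ 0 →
      DifferentiableAt ℂ (fun z => WYL.rint F x z * cexp (z ^ 2 / (V : ℂ) ^ 2)) z :=
    fun z h1 h2 => (WYL.rint_diff F hx h1 h2).mul (by fun_prop)
  exact Complex.circleIntegral_eq_of_differentiable_on_annulus_off_countable (c := (1 : ℂ))
    (r := ρ) (R := 1 / 2) hρ hρ2 (s := ∅) Set.countable_empty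
    (fun z hz => by
      have h1 : dist z 1 ≤ 1 / 2 := Metric.mem_closedBall.1 hz.1
      have h2 : ρ ≤ dist z 1 := not_lt.1 (fun h => hz.2 (Metric.mem_ball.2 h))
      exact (hd z (WYL.ne_one_of_far hρ h2)
        (WYL.ne_zero_of_near le_rfl h1)).continuousAt.continuousWithinAt)
    (fun z hz => by
      have h1 : dist z 1 ≤ 1 / 2 := (Metric.mem_ball.1 hz.1.1).le
      have h2 : ρ ≤ dist z 1 := (not_le.1 (fun h => hz.1.2 (Metric.mem_closedBall.2 h))).le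
      exact hd z (WYL.ne_one_of_far hρ h2) (WYL.ne_zero_of_near le_rfl h1))

theorem Win_rho (F : Sel) {ε : ℝ} (hε : 0 < ε) : ∃ C : ℝ, 0 < C ∧ ∀ V x : ℝ, 1 ≤ V → 1 ≤ x →
    ‖(2 * (Real.pi : ℂ) * I)⁻¹ * (∮ z in C(1, 1 / 2), F.L z * ((x : ℂ) ^ z *
        cexp (z ^ 2 / ((2 * V : ℝ) : ℂ) ^ 2)) / z) -
      (2 * (Real.pi : ℂ) * I)⁻¹ * (∮ z in C(1, 1 / 2), F.L z * ((x : ℂ) ^ z *
        cexp (z ^ 2 / (V : ℂ) ^ 2)) / z)‖ ≤ C * x ^ (1 + ε) / V ^ 2 := by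
  obtain ⟨ρ, hρdef⟩ : ∃ ρ : ℝ, ρ = min ε (1 / 2) := ⟨_, rfl⟩
  have hρ : 0 < ρ := by rw [hρdef]; exact lt_min hε (by norm_num)
  have hρ2 : ρ ≤ 1 / 2 := by rw [hρdef]; exact min_le_right _ _
  have hρε : ρ ≤ ε := by rw [hρdef]; exact min_le_left _ _
  have hsph : ∀ z ∈ Metric.sphere (1 : ℂ) ρ, z ≠ 1 ∧ z ≠ 0 := by
    intro z hz
    have h1 : dist z 1 = ρ := Metric.mem_sphere.1 hz
    exact ⟨WYL.ne_one_of_far hρ h1.ge, WYL.ne_zero_of_near hρ2 h1.le⟩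
  obtain ⟨B, hB⟩ : ∃ B : ℝ, ∀ z ∈ Metric.sphere (1 : ℂ) ρ, ‖F.L z / z‖ ≤ B := by
    have hc : ContinuousOn (fun z : ℂ => F.L z / z) (Metric.sphere (1 : ℂ) ρ) := by
      intro z hz
      have h1 : DifferentiableAt ℂ (fun z => F.P z / (z - 1) ^ F.m) z :=
        (F.P_diff z).div ((differentiableAt_id.sub_const 1).pow _)
          (pow_ne_zero _ (sub_ne_zero.2 (hsph z hz).1))
      exact (h1.div differentiableAt_id (hsph z hz).2).continuousAt.continuousWithinAt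
    exact (isCompact_sphere (1 : ℂ) ρ).exists_bound_of_continuousOn hc
  obtain ⟨M, hM⟩ : ∃ M : ℝ, M = Real.exp (9 / 4) * (2 * Real.exp 2) := ⟨_, rfl⟩
  have hM0 : 0 < M := by rw [hM]; positivity
  refine ⟨(|B| + 1) * M, by positivity, ?_⟩
  intro V x hV hx
  have hx0 : 0 < x := by linarith
  have hV0 : 0 < V := by linarith
  have hV2 : 1 ≤ V ^ 2 := one_le_pow₀ hV
  have hcont : ∀ W : ℝ, ContinuousOn (fun z => WYL.rint F x z * cexp (z ^ 2 / (W : ℂ) ^ 2))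
      (Metric.sphere (1 : ℂ) ρ) := by
    intro W
    exact (WYL.rint_cont F hx0 _ hsph).mul (by fun_prop)
  rw [Win_circ F (2 * V) hx0 hρ hρ2, Win_circ F V hx0 hρ hρ2, ← mul_sub,
    ← circleIntegral.integral_sub ((hcont _).circleIntegrable hρ.le)
    ((hcont _).circleIntegrable hρ.le)]
  have hbd : ∀ z ∈ Metric.sphere (1 : ℂ) ρ,
      ‖WYL.rint F x z * cexp (z ^ 2 / ((2 * V : ℝ) : ℂ) ^ 2) -
        WYL.rint F x z * cexp (z ^ 2 / (V : ℂ) ^ 2)‖ ≤ |B| * x ^ (1 + ε) * (M / V ^ 2) := by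
    intro z hz
    have hz1 : dist z 1 = ρ := Metric.mem_sphere.1 hz
    have hznorm : ‖z‖ ≤ 3 / 2 := by
      have h1 : ‖z‖ ≤ ‖z - 1‖ + ‖(1 : ℂ)‖ := by
        have := norm_add_le (z - 1) 1
        rwa [sub_add_cancel] at this
      rw [← dist_eq_norm, hz1, norm_one] at h1
      linarith
    have hre : |z.re - 1| ≤ ρ := by
      have h1 := Complex.abs_re_le_norm (z - 1)
      rw [← dist_eq_norm, hz1, Complex.sub_re, Complex.one_re] at h1
      exact h1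
    have hre2 := (abs_le.1 hre).2
    have hz2 : ‖z‖ ^ 2 ≤ 9 / 4 := by nlinarith [norm_nonneg z]
    have hVn : ‖(V : ℂ) ^ 2‖ = V ^ 2 := by
      rw [norm_pow, Complex.norm_real, Real.norm_of_nonneg hV0.le]
    have hb : ‖z ^ 2 / (V : ℂ) ^ 2‖ ≤ 9 / 4 := by
      rw [norm_div, norm_pow, hVn, div_le_iff₀ (by positivity)]
      nlinarith
    have hVc : (V : ℂ) ≠ 0 := by exact_mod_cast hV0.ne'
    have hd : z ^ 2 / ((2 * V : ℝ) : ℂ) ^ 2 =
        z ^ 2 / (V : ℂ) ^ 2 + -(3 / 4) * (z ^ 2 / (V : ℂ) ^ 2) := by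
      push_cast
      field_simp
      ring
    have hw : ‖-(3 / 4) * (z ^ 2 / (V : ℂ) ^ 2)‖ ≤ 2 / V ^ 2 := by
      rw [norm_mul, norm_div, norm_pow, hVn, norm_neg,
        show ‖(3 / 4 : ℂ)‖ = 3 / 4 by norm_num, mul_div_assoc']
      apply div_le_div_of_nonneg_right _ (by positivity)
      linarith
    have hw2 : 2 / V ^ 2 ≤ 2 := div_le_self (by norm_num) hV2
    have hb2 : ‖cexp (z ^ 2 / ((2 * V : ℝ) : ℂ) ^ 2) - cexp (z ^ 2 / (V : ℂ) ^ 2)‖ ≤
        M / V ^ 2 := by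
      have h1 : cexp (z ^ 2 / ((2 * V : ℝ) : ℂ) ^ 2) - cexp (z ^ 2 / (V : ℂ) ^ 2) =
          cexp (z ^ 2 / (V : ℂ) ^ 2) * (cexp (-(3 / 4) * (z ^ 2 / (V : ℂ) ^ 2)) - 1) := by
        rw [hd, Complex.exp_add]
        ring
      rw [h1, norm_mul]
      have h2 : ‖cexp (z ^ 2 / (V : ℂ) ^ 2)‖ ≤ Real.exp (9 / 4) := by
        rw [Complex.norm_exp]
        exact Real.exp_le_exp.2 ((Complex.re_le_norm _).trans hb)
      have h3 := WYL.norm_exp_sub_one_le' (-(3 / 4) * (z ^ 2 / (V : ℂ) ^ 2))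
      have h4 : ‖-(3 / 4) * (z ^ 2 / (V : ℂ) ^ 2)‖ *
          Real.exp ‖-(3 / 4) * (z ^ 2 / (V : ℂ) ^ 2)‖ ≤ 2 / V ^ 2 * Real.exp 2 :=
        mul_le_mul hw (Real.exp_le_exp.2 (hw.trans hw2)) (Real.exp_pos _).le (by positivity)
      calc ‖cexp (z ^ 2 / (V : ℂ) ^ 2)‖ * ‖cexp (-(3 / 4) * (z ^ 2 / (V : ℂ) ^ 2)) - 1‖ ≤
          Real.exp (9 / 4) * (2 / V ^ 2 * Real.exp 2) :=
            mul_le_mul h2 (h3.trans h4) (norm_nonneg _) (Real.exp_pos _).le
        _ = M / V ^ 2 := by rw [hM]; ring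
    have hb1 : ‖(x : ℂ) ^ z‖ ≤ x ^ (1 + ε) := by
      rw [Complex.norm_cpow_eq_rpow_re_of_pos hx0]
      exact Real.rpow_le_rpow_of_exponent_le hx (by linarith)
    have hb0 : ‖F.L z / z‖ ≤ |B| := (hB z hz).trans (le_abs_self _)
    have hsplit : WYL.rint F x z * cexp (z ^ 2 / ((2 * V : ℝ) : ℂ) ^ 2) -
        WYL.rint F x z * cexp (z ^ 2 / (V : ℂ) ^ 2) = (F.L z / z) * (x : ℂ) ^ z *
        (cexp (z ^ 2 / ((2 * V : ℝ) : ℂ) ^ 2) - cexp (z ^ 2 / (V : ℂ) ^ 2)) := by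
      unfold WYL.rint
      ring
    rw [hsplit, norm_mul, norm_mul]
    exact mul_le_mul (mul_le_mul hb0 hb1 (norm_nonneg _) (abs_nonneg _)) hb2 (norm_nonneg _)
      (by positivity)
  have hfin := circleIntegral.norm_two_pi_i_inv_smul_integral_le_of_norm_le_const hρ.le hbd
  rw [smul_eq_mul] at hfin
  refine hfin.trans ?_
  have hP : 0 ≤ x ^ (1 + ε) * (M / V ^ 2) := by positivity
  calc ρ * (|B| * x ^ (1 + ε) * (M / V ^ 2)) ≤ 1 * (|B| * x ^ (1 + ε) * (M / V ^ 2)) :=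
        mul_le_mul_of_nonneg_right (by linarith) (by positivity)
    _ ≤ (|B| + 1) * (x ^ (1 + ε) * (M / V ^ 2)) := by
        rw [one_mul, mul_assoc]
        exact mul_le_mul_of_nonneg_right (by linarith) hP
    _ = (|B| + 1) * M * x ^ (1 + ε) / V ^ 2 := by ring

theorem Win_W_hasSum (F : Sel) {V x : ℝ} (hV : 0 < V) (hx : 0 < x) :
    HasSum (fun n : ℕ => af F n *
      ((Phi (2 * V) (Real.log (x / n)) - Phi V (Real.log (x / n)) : ℝ) : ℂ))
      (vint 2 (fun t => F.L (ln 2 t) / ln 2 t *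
          cexp ((ln 2 t) ^ 2 / ((2 * V : ℝ) : ℂ) ^ 2)) x -
        vint 2 (fun t => F.L (ln 2 t) / ln 2 t * cexp ((ln 2 t) ^ 2 / (V : ℂ) ^ 2)) x) := by
  have h := (Win_ser F (by linarith : 0 < 2 * V) hx).sub (Win_ser F hV hx)
  have e : (fun n : ℕ => af F n *
      ((Phi (2 * V) (Real.log (x / n)) - Phi V (Real.log (x / n)) : ℝ) : ℂ)) =
      fun n : ℕ => af F n * (Phi (2 * V) (Real.log (x / n)) : ℂ) -
        af F n * (Phi V (Real.log (x / n)) : ℂ) := by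
    funext n
    push_cast
    ring
  rw [e]
  exact h

theorem W_self (K : Sel) {ε : ℝ} (hε : 0 < ε) : ∃ C : ℝ, 0 < C ∧
    ∀ V x : ℝ, 1 ≤ V → 1 ≤ x →
    ‖W V (af K) x - (K.EV (2 * V) x - K.EV V x)‖ ≤ C * x ^ (1 + ε) / V ^ 2 := by
  obtain ⟨C, hC, h⟩ := Win_rho K hε
  refine ⟨C, hC, fun V x hV hx => ?_⟩
  have hx0 : 0 < x := by linarith
  have hV0 : 0 < V := by linarith
  have h1 : W V (af K) x = _ := (Win_W_hasSum K hV0 hx0).tsum_eq
  have h2 := EVq_strip K (by linarith : 0 < 2 * V) hx0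
  have h3 := EVq_strip K hV0 hx0
  have h4 := h V x hV hx
  rw [← h2, ← h3] at h4
  rw [h1]
  refine le_of_eq_of_le ?_ h4
  congr 1
  ring

theorem Win_conv (G : Sel) {V x : ℝ} (hV : 0 < V) (hx : 0 < x) {B : ℝ}
    {b : ArithmeticFunction ℂ} (hb : ∀ n : ℕ, B < n → b n = 0) :
    W V (af G * b) x = ∑ m ∈ Finset.Icc 1 ⌊B⌋₊, b m * W V (af G) (x / m) := by
  obtain ⟨D, hD⟩ : ∃ D : ℝ → ℕ → ℂ, D = fun (y : ℝ) (k : ℕ) =>
    ((Phi (2 * V) (Real.log (y / (k : ℝ))) - Phi V (Real.log (y / (k : ℝ))) : ℝ) : ℂ) :=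
    ⟨_, rfl⟩
  have hs : ∀ y : ℝ, 0 < y → HasSum (fun k : ℕ => af G k * D y k) (W V (af G) y) := by
    intro y hy
    have h := (Win_W_hasSum G hV hy).summable.hasSum
    rw [hD]
    exact h
  have hm : ∀ m ∈ Finset.Icc 1 ⌊B⌋₊, HasSum (fun n : ℕ => if m ∣ n then
      af G (n / m) * b m * D x n else 0) (b m * W V (af G) (x / m)) := by
    intro m hm
    rw [Finset.mem_Icc] at hm
    have hm0 : 0 < m := by omega
    have hmR : (0 : ℝ) < m := by exact_mod_cast hm0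
    have hinj : Function.Injective (fun k : ℕ => m * k) := fun k l h =>
      Nat.eq_of_mul_eq_mul_left hm0 h
    rw [← hinj.hasSum_iff]
    · have h := (hs (x / m) (div_pos hx hmR)).mul_left (b m)
      have e : ((fun n : ℕ => if m ∣ n then af G (n / m) * b m * D x n else 0) ∘
          fun k : ℕ => m * k) = fun k : ℕ => b m * (af G k * D (x / m) k) := by
        funext k
        show (if m ∣ m * k then af G (m * k / m) * b m * D x (m * k) else 0) = _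
        rw [if_pos (Nat.dvd_mul_right m k), Nat.mul_div_cancel_left k hm0]
        have h5 : D x (m * k) = D (x / m) k := by
          rw [hD]
          show ((Phi (2 * V) (Real.log (x / ((m * k : ℕ) : ℝ))) -
            Phi V (Real.log (x / ((m * k : ℕ) : ℝ))) : ℝ) : ℂ) = _
          rw [Nat.cast_mul, ← div_div]
        rw [h5]
        ring
      rw [e]
      exact h
    · intro n hn
      rw [if_neg]
      rintro ⟨k, rfl⟩
      exact hn ⟨k, rfl⟩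
  have h := hasSum_sum hm
  have e : (fun n : ℕ => ∑ m ∈ Finset.Icc 1 ⌊B⌋₊, if m ∣ n then
      af G (n / m) * b m * D x n else 0) = fun n : ℕ => (af G * b) n * D x n := by
    funext n
    rcases Nat.eq_zero_or_pos n with rfl | hn
    · rw [ArithmeticFunction.map_zero, zero_mul]
      apply Finset.sum_eq_zero
      intro m _
      rw [Nat.zero_div, ArithmeticFunction.map_zero]
      simp
    · rw [ArithmeticFunction.mul_apply,
        Nat.sum_divisorsAntidiagonal' (fun i j => af G i * b j), Finset.sum_mul,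
        ← Finset.sum_filter]
      apply Finset.sum_subset
      · intro m hm
        rw [Finset.mem_filter] at hm
        exact Nat.mem_divisors.2 ⟨hm.2, hn.ne'⟩
      · intro m hm hm2
        have h6 : b m = 0 := by
          apply Win_out hb
          intro h7
          exact hm2 (Finset.mem_filter.2 ⟨h7, (Nat.mem_divisors.1 hm).1⟩)
        rw [h6, mul_zero, zero_mul]
  rw [e, hD] at h
  exact h.tsum_eq

theorem Win_EVint (G : Sel) {V y : ℝ} (hV : 0 < V) (hy : 0 < y) :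
    Integrable (fun t : ℝ => G.L (ln (1 / 2) t) / ln (1 / 2) t *
      cexp ((ln (1 / 2) t) ^ 2 / (V : ℂ) ^ 2) * (y : ℂ) ^ (ln (1 / 2) t)) := by
  obtain ⟨C, K, hC, hP⟩ := P_growth G (1 / 2) (1 / 2)
  have hyc : (y : ℂ) ≠ 0 := by exact_mod_cast hy.ne'
  have hne : ∀ t : ℝ, ln (1 / 2) t ≠ 0 := by
    intro t h
    have := congrArg Complex.re h
    rw [ln_re, Complex.zero_re] at this
    norm_num at this
  have hne1 : ∀ t : ℝ, ln (1 / 2) t - 1 ≠ 0 := by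
    intro t h
    have := congrArg Complex.re h
    rw [Complex.sub_re, ln_re, Complex.zero_re, Complex.one_re] at this
    norm_num at this
  have hcont : Continuous (fun t : ℝ => G.L (ln (1 / 2) t) / ln (1 / 2) t *
      cexp ((ln (1 / 2) t) ^ 2 / (V : ℂ) ^ 2) * (y : ℂ) ^ (ln (1 / 2) t)) := by
    have h1 : Continuous (fun t : ℝ => ln (1 / 2) t) := by unfold ln; fun_prop
    have h2 : Continuous (fun t : ℝ => G.L (ln (1 / 2) t)) := by
      unfold Sel.L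
      exact (G.P_diff.continuous.comp h1).div ((h1.sub continuous_const).pow _)
        fun t => pow_ne_zero _ (hne1 t)
    exact ((h2.div h1 hne).mul (by fun_prop)).mul (h1.const_cpow (Or.inl hyc))
  have hg : Integrable (fun t : ℝ => (C * 2 ^ G.m * 2 * Real.exp (1 / 4 / V ^ 2) *
      y ^ (1 / 2 : ℝ) * Real.exp (((K : ℝ) + 2) ^ 2 * V ^ 2 / 4)) * (1 + t ^ 2)⁻¹) :=
    integrable_inv_one_add_sq.const_mul _
  refine hg.mono' hcont.aestronglyMeasurable (Filter.Eventually.of_forall fun t => ?_)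
  have e1 : ‖G.P (ln (1 / 2) t)‖ ≤ C * (1 + |t|) ^ K := by
    have := hP (ln (1 / 2) t) (by rw [ln_re]) (by rw [ln_re])
    rwa [ln_im] at this
  have e2 : (1 / 2 : ℝ) ≤ ‖ln (1 / 2) t - 1‖ := by
    have := Complex.abs_re_le_norm (ln (1 / 2) t - 1)
    rw [Complex.sub_re, ln_re, Complex.one_re] at this
    norm_num at this ⊢
    exact this
  have e3 : (1 / 2 : ℝ) ≤ ‖ln (1 / 2) t‖ := by
    have := Complex.abs_re_le_norm (ln (1 / 2) t)
    rw [ln_re] at this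
    norm_num at this ⊢
    exact this
  have e4 : ‖G.L (ln (1 / 2) t)‖ ≤ C * (1 + |t|) ^ K * 2 ^ G.m := by
    unfold Sel.L
    rw [norm_div, norm_pow, div_le_iff₀ (by positivity)]
    have h5 : (1 : ℝ) ≤ 2 ^ G.m * ‖ln (1 / 2) t - 1‖ ^ G.m := by
      rw [← mul_pow]
      exact one_le_pow₀ (by linarith)
    calc ‖G.P (ln (1 / 2) t)‖ ≤ C * (1 + |t|) ^ K * 1 := by rw [mul_one]; exact e1
      _ ≤ C * (1 + |t|) ^ K * (2 ^ G.m * ‖ln (1 / 2) t - 1‖ ^ G.m) :=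
          mul_le_mul_of_nonneg_left h5 (by positivity)
      _ = _ := by ring
  have e5 : ‖G.L (ln (1 / 2) t) / ln (1 / 2) t‖ ≤ C * (1 + |t|) ^ K * 2 ^ G.m * 2 := by
    rw [norm_div, div_le_iff₀ (by linarith)]
    calc ‖G.L (ln (1 / 2) t)‖ ≤ C * (1 + |t|) ^ K * 2 ^ G.m * 1 := by rw [mul_one]; exact e4
      _ ≤ C * (1 + |t|) ^ K * 2 ^ G.m * (2 * ‖ln (1 / 2) t‖) :=
          mul_le_mul_of_nonneg_left (by linarith) (by positivity)
      _ = _ := by ring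
  have e6 : ‖cexp ((ln (1 / 2) t) ^ 2 / (V : ℂ) ^ 2)‖ =
      Real.exp (1 / 4 / V ^ 2) * Real.exp (-(t ^ 2) / V ^ 2) := by
    rw [Complex.norm_exp, ← Real.exp_add]
    congr 1
    have h7 : (ln (1 / 2) t) ^ 2 / (V : ℂ) ^ 2 =
        (ln (1 / 2) t) ^ 2 / ((V ^ 2 : ℝ) : ℂ) := by push_cast; rfl
    rw [h7, Complex.div_ofReal_re, sq, Complex.mul_re, ln_re, ln_im]
    ring
  have e7 : ‖(y : ℂ) ^ (ln (1 / 2) t)‖ = y ^ (1 / 2 : ℝ) := by
    rw [Complex.norm_cpow_eq_rpow_re_of_pos hy, ln_re]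
  have e8 := EVq_gauss hV K t
  rw [norm_mul, norm_mul, e6, e7]
  calc ‖G.L (ln (1 / 2) t) / ln (1 / 2) t‖ *
        (Real.exp (1 / 4 / V ^ 2) * Real.exp (-(t ^ 2) / V ^ 2)) * y ^ (1 / 2 : ℝ) ≤
      (C * (1 + |t|) ^ K * 2 ^ G.m * 2) *
        (Real.exp (1 / 4 / V ^ 2) * Real.exp (-(t ^ 2) / V ^ 2)) * y ^ (1 / 2 : ℝ) := by
        gcongr
    _ = C * 2 ^ G.m * 2 * Real.exp (1 / 4 / V ^ 2) * y ^ (1 / 2 : ℝ) *
        ((1 + |t|) ^ K * Real.exp (-(t ^ 2) / V ^ 2)) := by ring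
    _ ≤ C * 2 ^ G.m * 2 * Real.exp (1 / 4 / V ^ 2) * y ^ (1 / 2 : ℝ) *
        (Real.exp (((K : ℝ) + 2) ^ 2 * V ^ 2 / 4) / (1 + t ^ 2)) :=
        mul_le_mul_of_nonneg_left e8 (by positivity)
    _ = _ := by ring

theorem Win_vint (G : Sel) {V x : ℝ} (hV : 0 < V) (hx : 0 < x) {B : ℝ}
    {b : ArithmeticFunction ℂ} (hb : ∀ n : ℕ, B < n → b n = 0) :
    vint (1 / 2) (fun t => G.L (ln (1 / 2) t) * dp b t * wt V t) x =
      ∑ m ∈ Finset.Icc 1 ⌊B⌋₊, b m * (G.EV (2 * V) (x / m) - G.EV V (x / m)) := by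
  have hV2 : 0 < 2 * V := by linarith
  unfold vint
  have h2 : ∀ t : ℝ, G.L (ln (1 / 2) t) * dp b t * wt V t * (x : ℂ) ^ (ln (1 / 2) t) =
      ∑ m ∈ Finset.Icc 1 ⌊B⌋₊, b m *
      (G.L (ln (1 / 2) t) / ln (1 / 2) t * cexp ((ln (1 / 2) t) ^ 2 / ((2 * V : ℝ) : ℂ) ^ 2) *
          ((x / m : ℝ) : ℂ) ^ (ln (1 / 2) t) -
        G.L (ln (1 / 2) t) / ln (1 / 2) t * cexp ((ln (1 / 2) t) ^ 2 / (V : ℂ) ^ 2) *
          ((x / m : ℝ) : ℂ) ^ (ln (1 / 2) t)) := by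
    intro t
    rw [Win_dp hb, Finset.mul_sum, Finset.sum_mul, Finset.sum_mul]
    apply Finset.sum_congr rfl
    intro m hm
    have h3 : ((x / m : ℝ) : ℂ) ^ (ln (1 / 2) t) =
        (x : ℂ) ^ (ln (1 / 2) t) / (m : ℂ) ^ (ln (1 / 2) t) := by
      rw [Complex.ofReal_div, Complex.div_cpow_ofReal_nonneg hx.le (Nat.cast_nonneg m)]
      simp
    rw [h3]
    unfold wt
    ring
  simp only [h2]
  have hpos : ∀ m ∈ Finset.Icc 1 ⌊B⌋₊, 0 < x / (m : ℝ) := by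
    intro m hm
    rw [Finset.mem_Icc] at hm
    have : (0 : ℝ) < m := by exact_mod_cast (by omega : 0 < m)
    positivity
  rw [integral_finsetSum, Finset.mul_sum]
  · apply Finset.sum_congr rfl
    intro m hm
    rw [integral_const_mul, integral_sub (Win_EVint G hV2 (hpos m hm))
      (Win_EVint G hV (hpos m hm)), mul_left_comm, mul_sub]
    rfl
  · intro m hm
    exact ((Win_EVint G hV2 (hpos m hm)).sub (Win_EVint G hV (hpos m hm))).const_mul _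

theorem W_sel (G : Sel) {ε : ℝ} (hε : 0 < ε) : ∃ C : ℝ, 0 < C ∧
    ∀ (V B d x : ℝ) (b : ArithmeticFunction ℂ), 1 ≤ V → 1 ≤ B → B ≤ x →
    (∀ n : ℕ, B < n → b n = 0) → (∀ n : ℕ, ‖b n‖ ≤ d) →
    ‖W V (af G * b) x - vint (1 / 2) (fun t => G.L (ln (1 / 2) t) * dp b t * wt V t) x‖ ≤
      C * d * x ^ (1 + ε) * (1 + Real.log B) / V ^ 2 := by
  obtain ⟨C, hC, h⟩ := W_self G hε
  refine ⟨C, hC, fun V B d x b hV hB hBx hb hd => ?_⟩
  have hx : 1 ≤ x := hB.trans hBx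
  have hx0 : 0 < x := by linarith
  have hV0 : 0 < V := by linarith
  have hd0 : 0 ≤ d := (norm_nonneg _).trans (hd 0)
  rw [Win_conv G hV0 hx0 hb, Win_vint G hV0 hx0 hb, ← Finset.sum_sub_distrib]
  have h1 : ∀ m ∈ Finset.Icc 1 ⌊B⌋₊, ‖b m * W V (af G) (x / m) -
      b m * (G.EV (2 * V) (x / m) - G.EV V (x / m))‖ ≤
      (C * d * x ^ (1 + ε) / V ^ 2) * (m : ℝ)⁻¹ := by
    intro m hm
    rw [Finset.mem_Icc] at hm
    have hm1 : (1 : ℝ) ≤ m := by exact_mod_cast hm.1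
    have hm0 : (0 : ℝ) < m := by linarith
    have hmB : (m : ℝ) ≤ B := (Nat.le_floor_iff (by linarith)).1 hm.2
    have hxm : 1 ≤ x / m := by
      rw [one_le_div hm0]
      linarith
    rw [← mul_sub, norm_mul]
    have h2 := h V (x / m) hV hxm
    have h3 : (x / m) ^ (1 + ε) ≤ x ^ (1 + ε) * (m : ℝ)⁻¹ := by
      rw [Real.div_rpow hx0.le hm0.le, div_eq_mul_inv]
      apply mul_le_mul_of_nonneg_left _ (by positivity)
      apply inv_anti₀ hm0
      calc (m : ℝ) = (m : ℝ) ^ (1 : ℝ) := (Real.rpow_one _).symm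
        _ ≤ (m : ℝ) ^ (1 + ε) := Real.rpow_le_rpow_of_exponent_le hm1 (by linarith)
    calc ‖b m‖ * ‖W V (af G) (x / m) - (G.EV (2 * V) (x / m) - G.EV V (x / m))‖
        ≤ d * (C * (x / m) ^ (1 + ε) / V ^ 2) :=
          mul_le_mul (hd m) h2 (norm_nonneg _) hd0
      _ ≤ d * (C * (x ^ (1 + ε) * (m : ℝ)⁻¹) / V ^ 2) := by gcongr
      _ = _ := by ring
  refine (norm_sum_le_of_le _ h1).trans ?_
  rw [← Finset.mul_sum]
  have h4 : ∑ m ∈ Finset.Icc 1 ⌊B⌋₊, (m : ℝ)⁻¹ ≤ 1 + Real.log B := by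
    have h5 := harmonic_floor_le_one_add_log B hB
    rw [harmonic_eq_sum_Icc] at h5
    push_cast at h5
    exact h5
  refine (mul_le_mul_of_nonneg_left h4 (by positivity)).trans (le_of_eq ?_)
  ring

end DAD
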