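import Pool.Agent.DAD.Mvg
import Pool.Agent.DAD.Win
import Pool.Agent.DAD.Pack
import Pool.Agent.DAD.Tail

set_option autoImplicit false

/-!
# DAD/Mid: the middle frequencies

Plan: `N = B = X^(53/200)` in `pack`; on `[X, 2X]`,
`K.EV (2V) - K.EV V = W V (af K) + O(X^(1+ε)/V²)` (`W_self`), `af K = ∏ af (G i)`, then `W_add`, `W_fin`
(pieces `z`, `u*w`; note `dp (u*w) = dp u * dp w`, `LSeries_convolution'`, and `z = z * 1`), `W_sel`
(pieces `af (G j) * h j`), `W_tail` (piece `e`; `V ≥ X^(41/100) ≥ 4`, `X ≤ V^3`). `Lam` is the sum of the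
integrands; `mvf`, `mvg` give `∫ ‖Lam‖ ≤ C X^(13/80 + ε)`:
`V^(-1/4) X^(53/200) ≤ X^(13/80)`, `V^(1/4) ≤ X^(3/20)`, `(X^(147/200)/V)^(1/2) ≤ X^(13/80)`,
`X^(1/2)/V ≤ X^(9/100)`.
-/

open Complex MeasureTheory

namespace DAD

open HYM

/-- at most linear growth -/
private def MidLB (a : ArithmeticFunction ℂ) : Prop := ∃ M : ℝ, 0 ≤ M ∧ ∀ n : ℕ, ‖a n‖ ≤ M * n

private theorem midLB_add {a b : ArithmeticFunction ℂ} (ha : MidLB a) (hb : MidLB b) :
    MidLB (a + b) := by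
  obtain ⟨M, hM, h⟩ := ha
  obtain ⟨M', hM', h'⟩ := hb
  refine ⟨M + M', by positivity, fun n => ?_⟩
  rw [ArithmeticFunction.add_apply]
  calc ‖a n + b n‖ ≤ ‖a n‖ + ‖b n‖ := norm_add_le _ _
    _ ≤ M * n + M' * n := add_le_add (h n) (h' n)
    _ = (M + M') * n := by ring

private theorem midLB_zero : MidLB 0 := ⟨0, le_refl _, fun n => by simp⟩

private theorem midLB_sum {ι : Type*} (s : Finset ι) (a : ι → ArithmeticFunction ℂ)
    (h : ∀ i ∈ s, MidLB (a i)) : MidLB (∑ i ∈ s, a i) := by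
  classical
  induction s using Finset.induction_on with
  | empty => simpa using midLB_zero
  | insert i s hi ih =>
    rw [Finset.sum_insert hi]
    exact midLB_add (h i (Finset.mem_insert_self _ _))
      (ih fun j hj => h j (Finset.mem_insert_of_mem hj))

private theorem mid_W_zero (V x : ℝ) : W V 0 x = 0 := by
  simp [W]

private theorem mid_W_add {V x : ℝ} (hV : 1 ≤ V) (hx : 0 < x) {a b : ArithmeticFunction ℂ}
    (ha : MidLB a) (hb : MidLB b) : W V (a + b) x = W V a x + W V b x := by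
  obtain ⟨M, -, h⟩ := ha
  obtain ⟨M', -, h'⟩ := hb
  exact W_add hV hx h h'

private theorem mid_W_sum {ι : Type*} {V x : ℝ} (hV : 1 ≤ V) (hx : 0 < x) (s : Finset ι)
    (a : ι → ArithmeticFunction ℂ) (h : ∀ i ∈ s, MidLB (a i)) :
    W V (∑ i ∈ s, a i) x = ∑ i ∈ s, W V (a i) x := by
  classical
  induction s using Finset.induction_on with
  | empty => simpa using mid_W_zero V x
  | insert i s hi ih =>
    rw [Finset.sum_insert hi, Finset.sum_insert hi,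
      mid_W_add hV hx (h i (Finset.mem_insert_self _ _))
        (midLB_sum s a fun j hj => h j (Finset.mem_insert_of_mem hj)),
      ih fun j hj => h j (Finset.mem_insert_of_mem hj)]

private theorem midLB_bdd {a : ArithmeticFunction ℂ} {c : ℝ} (h : ∀ n : ℕ, ‖a n‖ ≤ c) :
    MidLB a := by
  have hc : 0 ≤ c := (norm_nonneg _).trans (h 0)
  refine ⟨c, hc, fun n => ?_⟩
  rcases Nat.eq_zero_or_pos n with rfl | hn
  · simp
  · have h1 : (1 : ℝ) ≤ n := by exact_mod_cast hn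
    calc _ ≤ c := h n
      _ ≤ c * n := le_mul_of_one_le_right hc h1

private theorem midLB_mul {a b : ArithmeticFunction ℂ} (ha : MidLB a) {B d : ℝ}
    (hB : ∀ n : ℕ, B < n → b n = 0) (hd : ∀ n : ℕ, ‖b n‖ ≤ d) : MidLB (a * b) := by
  obtain ⟨M, hM, h⟩ := ha
  have hd0 : 0 ≤ d := (norm_nonneg _).trans (hd 0)
  refine ⟨M * (d * (⌊B⌋₊ + 1)), by positivity, fun n => ?_⟩
  rw [ArithmeticFunction.mul_apply, Nat.sum_divisorsAntidiagonal' (fun i j => a i * b j)]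
  have h1 : ∑ i ∈ n.divisors, ‖b i‖ ≤ d * (⌊B⌋₊ + 1) := by
    calc ∑ i ∈ n.divisors, ‖b i‖
        = ∑ i ∈ n.divisors.filter (fun i => i ∈ Finset.range (⌊B⌋₊ + 1)), ‖b i‖ := by
          rw [Finset.sum_filter]
          refine Finset.sum_congr rfl fun i _ => ?_
          split_ifs with hi
          · rfl
          · rw [Finset.mem_range, not_lt] at hi
            rw [hB i (Nat.lt_of_floor_lt (by omega)), norm_zero]
      _ ≤ ∑ i ∈ Finset.range (⌊B⌋₊ + 1), ‖b i‖ :=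
          Finset.sum_le_sum_of_subset_of_nonneg
            (fun i hi => (Finset.mem_filter.1 hi).2) fun i _ _ => norm_nonneg _
      _ ≤ ∑ i ∈ Finset.range (⌊B⌋₊ + 1), d := Finset.sum_le_sum fun i _ => hd i
      _ = d * (⌊B⌋₊ + 1) := by simp; ring
  calc ‖∑ i ∈ n.divisors, a (n / i) * b i‖ ≤ ∑ i ∈ n.divisors, ‖a (n / i) * b i‖ :=
        norm_sum_le _ _
    _ ≤ ∑ i ∈ n.divisors, (M * n) * ‖b i‖ := by
        refine Finset.sum_le_sum fun i _ => ?_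
        rw [norm_mul]
        refine mul_le_mul_of_nonneg_right ((h _).trans ?_) (norm_nonneg _)
        refine mul_le_mul_of_nonneg_left ?_ hM
        exact_mod_cast Nat.div_le_self n i
    _ = (M * n) * ∑ i ∈ n.divisors, ‖b i‖ := by rw [Finset.mul_sum]
    _ ≤ (M * n) * (d * (⌊B⌋₊ + 1)) := mul_le_mul_of_nonneg_left h1 (by positivity)
    _ = M * (d * (⌊B⌋₊ + 1)) * n := by ring

private theorem midLB_af (G : Sel) : MidLB (af G) := by
  obtain ⟨C, hC⟩ := G.ram 1 one_pos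
  refine ⟨max C 0, le_max_right _ _, fun n => ?_⟩
  rcases Nat.eq_zero_or_pos n with rfl | hn
  · simp
  · have h1 := hC n hn
    rw [Real.rpow_one] at h1
    have h2 : af G n = G.f n := by simp [af, hn.ne']
    rw [h2]
    exact h1.trans (mul_le_mul_of_nonneg_right (le_max_left _ _) (Nat.cast_nonneg n))

private theorem mid_mul_supp {a b : ArithmeticFunction ℂ} {A B : ℝ} (hA0 : 0 ≤ A)
    (hA : ∀ n : ℕ, A < n → a n = 0) (hB : ∀ n : ℕ, B < n → b n = 0) :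
    ∀ n : ℕ, A * B < n → (a * b) n = 0 := by
  intro n hn
  rw [ArithmeticFunction.mul_apply]
  refine Finset.sum_eq_zero fun p hp => ?_
  by_cases h1 : A < p.1
  · rw [hA _ h1, zero_mul]
  · by_cases h2 : B < p.2
    · rw [hB _ h2, mul_zero]
    · exfalso
      rw [not_lt] at h1 h2
      have h3 : (p.1 * p.2 : ℕ) = n := (Nat.mem_divisorsAntidiagonal.1 hp).1
      have h4 : (n : ℝ) = p.1 * p.2 := by rw [← h3]; push_cast; ring
      have h5 : (p.1 : ℝ) * p.2 ≤ A * B := by gcongr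
      linarith

private theorem mid_summable {a : ArithmeticFunction ℂ} {A : ℝ}
    (hA : ∀ n : ℕ, A < n → a n = 0) (s : ℂ) : LSeriesSummable (fun n => a n) s := by
  refine summable_of_hasFiniteSupport ((Set.finite_Iic ⌊A⌋₊).subset fun n hn => ?_)
  rw [Set.mem_Iic]
  by_contra h
  rw [not_le] at h
  refine hn ?_
  rw [LSeries.term_def]
  split_ifs with h0
  · rfl
  · rw [hA n (Nat.lt_of_floor_lt h), zero_div]

private theorem mid_dp_mul {a b : ArithmeticFunction ℂ} {A B : ℝ}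
    (hA : ∀ n : ℕ, A < n → a n = 0) (hB : ∀ n : ℕ, B < n → b n = 0) (t : ℝ) :
    dp (a * b) t = dp a t * dp b t :=
  ArithmeticFunction.LSeries_mul' (mid_summable hA _) (mid_summable hB _)

private theorem mid_af (G : ℕ → Sel) (r : ℕ) (K : Sel)
    (hK : ∀ n : ℕ, 1 ≤ n → K.f n = (∏ i ∈ Finset.range r, af (G i)) n) :
    af K = ∏ i ∈ Finset.range r, af (G i) := by
  ext n
  rcases Nat.eq_zero_or_pos n with rfl | hn
  · simp
  · rw [← hK n hn]
    simp [af, hn.ne']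

private theorem mid_vint_add {L L' : ℝ → ℂ} (h : Integrable L) (h' : Integrable L') {x : ℝ}
    (hx : 0 < x) : vint (1 / 2) (fun t => L t + L' t) x = vint (1 / 2) L x + vint (1 / 2) L' x := by
  unfold vint
  rw [← mul_add, ← integral_add (bil_integrable h hx) (bil_integrable h' hx)]
  congr 1
  refine integral_congr_ae (Filter.Eventually.of_forall fun t => ?_)
  simp only [add_mul]

private theorem mid_vint_sum {ι : Type*} (s : Finset ι) {L : ι → ℝ → ℂ}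
    (h : ∀ i ∈ s, Integrable (L i)) {x : ℝ} (hx : 0 < x) :
    vint (1 / 2) (fun t => ∑ i ∈ s, L i t) x = ∑ i ∈ s, vint (1 / 2) (L i) x := by
  unfold vint
  rw [← Finset.mul_sum, ← integral_finsetSum s fun i hi => bil_integrable (h i hi) hx]
  congr 1
  refine integral_congr_ae (Filter.Eventually.of_forall fun t => ?_)
  simp only [Finset.sum_mul]

private theorem mid_log {X δ Y : ℝ} (hX : 64 ≤ X) (hδ : 0 < δ) (hY : 0 < Y) (hYX : Y ≤ X ^ 2) :
    1 + Real.log Y ≤ 2 * (1 + 1 / δ) * X ^ δ := by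
  have hX0 : (0 : ℝ) < X := by linarith
  have h1 : Real.log Y ≤ 2 * Real.log X := by
    have := Real.log_le_log hY hYX
    rwa [Real.log_pow, Nat.cast_ofNat] at this
  have h2 : Real.log X ≤ X ^ δ / δ := Real.log_le_rpow_div hX0.le hδ
  have h3 : (1 : ℝ) ≤ X ^ δ := Real.one_le_rpow (by linarith) hδ.le
  have h4 : 2 * (1 + 1 / δ) * X ^ δ = 2 * X ^ δ + 2 * (X ^ δ / δ) := by ring
  rw [h4]
  linarith

private theorem mid_P {X : ℝ} (hX : 64 ≤ X) : (1 : ℝ) ≤ X ^ (13 / 40 : ℝ) :=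
  Real.one_le_rpow (by linarith) (by norm_num)

private theorem mid_sq {X : ℝ} (hX : 64 ≤ X) : (X ^ (13 / 80 : ℝ)) ^ 2 = X ^ (13 / 40 : ℝ) := by
  rw [← Real.rpow_natCast, ← Real.rpow_mul (by linarith)]
  norm_num

private theorem mid_rt {V S c Q : ℝ} (hV : 0 < V) (hc : 0 ≤ c) (hQ : 0 ≤ Q)
    (h : S ≤ c ^ 2 * (V ^ 2 * Q ^ 2)) : √S / V ≤ c * Q := by
  rw [div_le_iff₀ hV]
  refine Real.sqrt_le_iff.2 ⟨by positivity, h.trans (le_of_eq (by ring))⟩

private theorem mid_V {X V : ℝ} (hX : 64 ≤ X) (hV : X ^ (41 / 100 : ℝ) ≤ V) : 4 ≤ V := by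
  refine le_trans ?_ hV
  have h1 : (64 : ℝ) ^ (41 / 100 : ℝ) ≤ X ^ (41 / 100 : ℝ) :=
    Real.rpow_le_rpow (by norm_num) hX (by norm_num)
  refine le_trans ?_ h1
  have h2 : (4 : ℝ) = 64 ^ (1 / 3 : ℝ) := by
    have : (64 : ℝ) = 4 ^ (3 : ℝ) := by norm_num
    rw [this, ← Real.rpow_mul (by norm_num)]
    norm_num
  rw [h2]
  exact Real.rpow_le_rpow_of_exponent_le (by norm_num) (by norm_num)

private theorem mid_rt1 {X V : ℝ} (hX : 64 ≤ X) (hV : X ^ (41 / 100 : ℝ) ≤ V) :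
    √((V + X ^ (53 / 100 : ℝ)) * (V + 1)) / V ≤ 2 * X ^ (13 / 80 : ℝ) := by
  have hX0 : (0 : ℝ) < X := by linarith
  have hV4 := mid_V hX hV
  have hP := mid_P hX
  refine mid_rt (by linarith) (by norm_num) (by positivity) ?_
  rw [mid_sq hX]
  have h1 : X ^ (53 / 100 : ℝ) ≤ V * X ^ (13 / 40 : ℝ) := by
    calc X ^ (53 / 100 : ℝ) ≤ X ^ (41 / 100 + 13 / 40 : ℝ) :=
          Real.rpow_le_rpow_of_exponent_le (by linarith) (by norm_num)
      _ = X ^ (41 / 100 : ℝ) * X ^ (13 / 40 : ℝ) := Real.rpow_add hX0 _ _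
      _ ≤ V * X ^ (13 / 40 : ℝ) := by gcongr
  set P := X ^ (13 / 40 : ℝ)
  calc (V + X ^ (53 / 100 : ℝ)) * (V + 1) ≤ (V + V * P) * (V + V) := by gcongr; linarith
    _ = 2 * V ^ 2 * (1 + P) := by ring
    _ ≤ 2 * V ^ 2 * (P + P) := by gcongr
    _ = 2 ^ 2 * (V ^ 2 * P) := by ring

private theorem mid_rt2 {X V A : ℝ} (hX : 64 ≤ X) (hV : X ^ (41 / 100 : ℝ) ≤ V)
    (hA : X ^ (53 / 200 : ℝ) ≤ A) (hA' : A ≤ 16 * X / X ^ (53 / 200 : ℝ)) :
    √((V + 2 * A) * (V + 16 * X / A)) / V ≤ 9 * X ^ (13 / 80 : ℝ) := by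
  have hX0 : (0 : ℝ) < X := by linarith
  have hV4 := mid_V hX hV
  have hP := mid_P hX
  have hN : 0 < X ^ (53 / 200 : ℝ) := by positivity
  have hA0 : 0 < A := hN.trans_le hA
  refine mid_rt (by linarith) (by norm_num) (by positivity) ?_
  rw [mid_sq hX]
  have h0 : X / X ^ (53 / 200 : ℝ) ≤ V * X ^ (13 / 40 : ℝ) := by
    have : X / X ^ (53 / 200 : ℝ) = X ^ (41 / 100 : ℝ) * X ^ (13 / 40 : ℝ) := by
      rw [← Real.rpow_add hX0, div_eq_iff hN.ne', ← Real.rpow_add hX0]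
      norm_num
    rw [this]
    gcongr
  have h1 : X / A ≤ V * X ^ (13 / 40 : ℝ) :=
    (div_le_div_of_nonneg_left hX0.le hN hA).trans h0
  have h2 : A ≤ 16 * (V * X ^ (13 / 40 : ℝ)) := by
    refine hA'.trans ?_
    rw [mul_div_assoc]
    gcongr
  have h3 : X ≤ V ^ 2 * X ^ (13 / 40 : ℝ) := by
    have h4 : X ≤ (X ^ (41 / 100 : ℝ)) ^ 2 * X ^ (13 / 40 : ℝ) := by
      rw [← Real.rpow_natCast, ← Real.rpow_mul hX0.le, ← Real.rpow_add hX0]
      conv_lhs => rw [← Real.rpow_one X]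
      exact Real.rpow_le_rpow_of_exponent_le (by linarith) (by norm_num)
    refine h4.trans ?_
    gcongr
  set P := X ^ (13 / 40 : ℝ)
  have h5 : (V + 2 * A) * (V + 16 * X / A) = V ^ 2 + 16 * (X / A) * V + 2 * A * V + 32 * X := by
    field_simp
    ring
  rw [h5]
  have h6 : 16 * (X / A) * V ≤ 16 * (V * P) * V := by gcongr
  have h7 : 2 * A * V ≤ 2 * (16 * (V * P)) * V := by gcongr
  have h8 : V ^ 2 ≤ V ^ 2 * P := le_mul_of_one_le_right (by positivity) hP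
  calc V ^ 2 + 16 * (X / A) * V + 2 * A * V + 32 * X
      ≤ V ^ 2 * P + 16 * (V * P) * V + 2 * (16 * (V * P)) * V + 32 * (V ^ 2 * P) := by
        linarith
    _ = 9 ^ 2 * (V ^ 2 * P) := by ring

private theorem mid_rt3 {X V δ : ℝ} (hδ : 0 < δ) (hX : 64 ≤ X) (hV : X ^ (41 / 100 : ℝ) ≤ V)
    (hV' : V ≤ X ^ (3 / 5 : ℝ)) :
    √(V ^ (3 / 2 + δ) * (V + X ^ (53 / 100 : ℝ))) / V ≤ 2 * (X ^ (13 / 80 : ℝ) * X ^ δ) := by
  have hX0 : (0 : ℝ) < X := by linarith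
  have hV4 := mid_V hX hV
  have hV0 : 0 < V := by linarith
  have hP := mid_P hX
  refine mid_rt hV0 (by norm_num) (by positivity) ?_
  rw [mul_pow, mid_sq hX]
  have hY : (1 : ℝ) ≤ X ^ δ := Real.one_le_rpow (by linarith) hδ.le
  have h1 : V ^ δ ≤ X ^ δ := by
    refine Real.rpow_le_rpow hV0.le (hV'.trans ?_) hδ.le
    conv_rhs => rw [← Real.rpow_one X]
    exact Real.rpow_le_rpow_of_exponent_le (by linarith) (by norm_num)
  have h2 : V ^ (3 / 2 + δ) = V ^ (3 / 2 : ℝ) * V ^ δ := Real.rpow_add hV0 _ _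
  have h3 : V ^ (3 / 2 : ℝ) * V ^ (1 / 2 : ℝ) = V ^ 2 := by
    rw [← Real.rpow_add hV0, ← Real.rpow_natCast]
    norm_num
  have h4 : V ^ (1 / 2 : ℝ) * V ^ (1 / 2 : ℝ) = V := by
    rw [← Real.rpow_add hV0]
    norm_num
  have h5 : V ^ (1 / 2 : ℝ) ≤ X ^ (13 / 40 : ℝ) := by
    calc V ^ (1 / 2 : ℝ) ≤ (X ^ (3 / 5 : ℝ)) ^ (1 / 2 : ℝ) :=
          Real.rpow_le_rpow hV0.le hV' (by norm_num)
      _ = X ^ (3 / 10 : ℝ) := by rw [← Real.rpow_mul hX0.le]; norm_num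
      _ ≤ _ := Real.rpow_le_rpow_of_exponent_le (by linarith) (by norm_num)
  have h6 : X ^ (53 / 100 : ℝ) ≤ V ^ (1 / 2 : ℝ) * X ^ (13 / 40 : ℝ) := by
    have h7 : X ^ (41 / 200 : ℝ) ≤ V ^ (1 / 2 : ℝ) := by
      calc X ^ (41 / 200 : ℝ) = (X ^ (41 / 100 : ℝ)) ^ (1 / 2 : ℝ) := by
            rw [← Real.rpow_mul hX0.le]; norm_num
        _ ≤ V ^ (1 / 2 : ℝ) := Real.rpow_le_rpow (by positivity) hV (by norm_num)
    calc X ^ (53 / 100 : ℝ) = X ^ (41 / 200 : ℝ) * X ^ (13 / 40 : ℝ) := by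
          rw [← Real.rpow_add hX0]; norm_num
      _ ≤ _ := by gcongr
  set P := X ^ (13 / 40 : ℝ)
  set R := V ^ (1 / 2 : ℝ)
  set T := V ^ (3 / 2 : ℝ)
  have hR : 0 ≤ R := by positivity
  have hT : 0 ≤ T := by positivity
  rw [h2]
  have h8 : T * (V + X ^ (53 / 100 : ℝ)) ≤ 2 * (V ^ 2 * P) := by
    calc T * (V + X ^ (53 / 100 : ℝ)) ≤ T * (R * R + R * P) := by
          rw [h4]; gcongr
      _ = T * R * R + T * R * P := by ring
      _ = V ^ 2 * R + V ^ 2 * P := by rw [h3]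
      _ ≤ V ^ 2 * P + V ^ 2 * P := by gcongr
      _ = _ := by ring
  calc T * V ^ δ * (V + X ^ (53 / 100 : ℝ)) = T * (V + X ^ (53 / 100 : ℝ)) * V ^ δ := by ring
    _ ≤ 2 * (V ^ 2 * P) * X ^ δ := by gcongr
    _ ≤ 2 * (V ^ 2 * P) * (2 * (X ^ δ) ^ 2) := by
        gcongr
        nlinarith
    _ = 2 ^ 2 * (V ^ 2 * (P * (X ^ δ) ^ 2)) := by ring

private theorem mid_one_supp : ∀ n : ℕ, (1 : ℝ) < n → (1 : ArithmeticFunction ℂ) n = 0 := by
  intro n hn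
  have h : n ≠ 1 := by
    rintro rfl
    norm_num at hn
  exact ArithmeticFunction.one_apply_ne h

private theorem mid_one_bdd : ∀ n : ℕ, ‖(1 : ArithmeticFunction ℂ) n‖ ≤ 1 := by
  intro n
  by_cases h : n = 1
  · subst h
    simp
  · rw [ArithmeticFunction.one_apply_ne h, norm_zero]
    exact zero_le_one

private theorem mid_dp_one (t : ℝ) : dp 1 t = 1 := by
  unfold dp LSeries
  rw [tsum_eq_single 1]
  · simp
  · intro n hn
    rw [LSeries.term_def]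
    split_ifs
    · rfl
    · rw [ArithmeticFunction.one_apply_ne hn, zero_div]

theorem mid_rep (G : ℕ → Sel) (r : ℕ) (hG : ∀ i < r, (G i).deg ≤ 3) (K : Sel)
    (hK : ∀ n : ℕ, 1 ≤ n → K.f n = (∏ i ∈ Finset.range r, af (G i)) n)
    {ε : ℝ} (hε : 0 < ε) : ∃ C : ℝ, 0 < C ∧
    ∀ X V : ℝ, 64 ≤ X → X ^ (41 / 100 : ℝ) ≤ V → V ≤ X ^ (3 / 5 : ℝ) →
    ∃ Lam : ℝ → ℂ, Integrable Lam ∧ ∫ t : ℝ, ‖Lam t‖ ≤ C * X ^ (13 / 80 + ε) ∧
      ∀ x : ℝ, X ≤ x → x ≤ 2 * X →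
        ‖K.EV (2 * V) x - K.EV V x - vint (1 / 2) Lam x‖ ≤ C * X ^ (1 + ε) / V ^ 2 + C := by
  obtain ⟨δ, hδd⟩ : ∃ δ : ℝ, δ = ε / 12 := ⟨_, rfl⟩
  have hδ : 0 < δ := by rw [hδd]; positivity
  obtain ⟨C1, hC1, H1⟩ := pack G r hδ
  obtain ⟨C2, hC2, H2⟩ := W_self K hδ
  obtain ⟨C3, hC3, H3⟩ := mvf
  obtain ⟨C6, hC6, H6⟩ := W_tail
  have h4 : ∀ j : ℕ, ∃ C : ℝ, 0 < C ∧ (j < r → ∀ (V B d : ℝ) (b : ArithmeticFunction ℂ),
      1 ≤ V → 1 ≤ B → (∀ n : ℕ, B < n → b n = 0) → (∀ n : ℕ, ‖b n‖ ≤ d) →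
      Integrable (fun t : ℝ => (G j).L (ln (1 / 2) t) * dp b t * wt V t) ∧
      ∫ t : ℝ, ‖(G j).L (ln (1 / 2) t) * dp b t * wt V t‖ ≤
        C * d * (√(V ^ (3 / 2 + δ) * (V + B)) / V) * (1 + Real.log B)) := by
    intro j
    by_cases hj : j < r
    · obtain ⟨C, hC, h⟩ := mvg (G j) (hG j hj) hδ
      exact ⟨C, hC, fun _ => h⟩
    · exact ⟨1, one_pos, fun h => absurd h hj⟩
  choose C4 hC4 H4 using h4
  choose C5 hC5 H5 using fun j : ℕ => W_sel (G j) hδ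
  obtain ⟨c0, hc0d⟩ : ∃ c0 : ℝ, c0 = 2 * (1 + 1 / δ) := ⟨_, rfl⟩
  have hc0 : 0 < c0 := by rw [hc0d]; positivity
  obtain ⟨S4, hS4d⟩ : ∃ S4 : ℝ, S4 = ∑ j ∈ Finset.range r, C4 j := ⟨_, rfl⟩
  obtain ⟨S5, hS5d⟩ : ∃ S5 : ℝ, S5 = ∑ j ∈ Finset.range r, C5 j := ⟨_, rfl⟩
  have hS4 : 0 ≤ S4 := by rw [hS4d]; exact Finset.sum_nonneg fun j _ => (hC4 j).le
  have hS5 : 0 ≤ S5 := by rw [hS5d]; exact Finset.sum_nonneg fun j _ => (hC5 j).le
  obtain ⟨D1, hD1d⟩ : ∃ D1 : ℝ, D1 = 2 * C3 * C1 * c0 + 2 * S4 * C1 * c0 +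
    9 * r * C3 * C1 ^ 3 * c0 ^ 3 := ⟨_, rfl⟩
  obtain ⟨D2, hD2d⟩ : ∃ D2 : ℝ, D2 = C2 * 2 ^ (1 + δ) + S5 * C1 * 2 ^ (1 + δ) * c0 := ⟨_, rfl⟩
  have hD1 : 0 ≤ D1 := by rw [hD1d]; positivity
  have hD2 : 0 ≤ D2 := by rw [hD2d]; positivity
  refine ⟨D1 + D2 + C6 * C1 + 1, by positivity, fun X V hX hV hV' => ?_⟩
  have hX0 : (0 : ℝ) < X := by linarith
  have hV4 := mid_V hX hV
  have hV0 : 0 < V := by linarith
  have hV1 : 1 ≤ V := by linarith
  obtain ⟨N, hNd⟩ : ∃ N : ℝ, N = X ^ (53 / 200 : ℝ) := ⟨_, rfl⟩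
  have hN1 : 1 ≤ N := by rw [hNd]; exact Real.one_le_rpow (by linarith) (by norm_num)
  have hNN : N * N = X ^ (53 / 100 : ℝ) := by
    rw [hNd, ← Real.rpow_add hX0]; norm_num
  have hNX : N * N ≤ X := by
    rw [hNN]
    conv_rhs => rw [← Real.rpow_one X]
    exact Real.rpow_le_rpow_of_exponent_le (by linarith) (by norm_num)
  have hNN1 : 1 ≤ N * N := by nlinarith
  obtain ⟨Y, hYd⟩ : ∃ Y : ℝ, Y = X ^ δ := ⟨_, rfl⟩
  have hY1 : 1 ≤ Y := by rw [hYd]; exact Real.one_le_rpow (by linarith) hδ.le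
  have hY0 : 0 < Y := by linarith
  have hY12 : Y ^ 12 = X ^ ε := by
    rw [hYd, ← Real.rpow_natCast, ← Real.rpow_mul hX0.le, hδd]
    congr 1
    norm_num
  obtain ⟨P, hPd⟩ : ∃ P : ℝ, P = X ^ (13 / 80 : ℝ) := ⟨_, rfl⟩
  have hP0 : 0 < P := by rw [hPd]; positivity
  obtain ⟨z, e, h, J, u, w, A, hdec, hJ, hz, hzb, hh, hA, huw, he, heb⟩ :=
    H1 X N N hN1 hN1 hNX
  rw [← hYd] at hzb hh huw
  have hlog : ∀ Z : ℝ, 0 < Z → Z ≤ X ^ 2 → 1 + Real.log Z ≤ c0 * Y := by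
    intro Z hZ hZX
    rw [hc0d, hYd]
    exact mid_log hX hδ hZ hZX
  have hXX : X ≤ X ^ 2 := by nlinarith
  have hlogN : 1 + Real.log (N * N) ≤ c0 * Y := hlog _ (by positivity) (hNX.trans hXX)
  have hlogN0 : 0 ≤ 1 + Real.log (N * N) := by
    have := Real.log_nonneg hNN1
    linarith
  have hJ' : (J : ℝ) ≤ C1 * (c0 * Y) := by
    refine hJ.trans (mul_le_mul_of_nonneg_left (hlog X hX0 hXX) hC1.le)
  -- the facts for the ranges of the pieces
  have hA0 : ∀ i < J, 0 < A i := fun i hi => lt_of_lt_of_le (by positivity) (hA i hi).1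
  have hA1 : ∀ i < J, 1 ≤ 2 * A i := fun i hi => by
    have := (hA i hi).1
    linarith
  have hA2 : ∀ i < J, 1 ≤ 16 * X / A i := fun i hi => by
    rw [le_div_iff₀ (hA0 i hi), one_mul]
    refine (hA i hi).2.trans (div_le_self (by positivity) hN1)
  have hA3 : ∀ i < J, 2 * A i ≤ X ^ 2 := fun i hi => by
    have h1 := (hA i hi).2.trans (div_le_self (by positivity) hN1)
    nlinarith
  have hA4 : ∀ i < J, 16 * X / A i ≤ X ^ 2 := fun i hi => by
    have h1 : 16 * X / A i ≤ 16 * X := div_le_self (by positivity) (hN1.trans (hA i hi).1)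
    nlinarith
  -- the integrands
  have I1 := H3 V (N * N) 1 (C1 * Y) 1 z 1 hV1 hNN1 le_rfl hz mid_one_supp hzb mid_one_bdd
  have I2 : ∀ j < r, _ := fun j hj => H4 j hj V (N * N) (C1 * Y) (h j) hV1 hNN1 (hh j hj).1
    (hh j hj).2
  have I3 : ∀ j < r, ∀ i < J, _ := fun j hj i hi =>
    H3 V (2 * A i) (16 * X / A i) (C1 * Y) (C1 * Y) (u j i) (w j i) hV1 (hA1 i hi) (hA2 i hi)
      (huw j hj i hi).1 (huw j hj i hi).2.1 (huw j hj i hi).2.2.1 (huw j hj i hi).2.2.2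
  obtain ⟨L1, hL1⟩ : ∃ L1 : ℝ → ℂ, L1 = fun t => dp z t * dp 1 t * wt V t := ⟨_, rfl⟩
  obtain ⟨L2, hL2⟩ : ∃ L2 : ℕ → ℝ → ℂ, L2 = fun j t =>
    (G j).L (ln (1 / 2) t) * dp (h j) t * wt V t := ⟨_, rfl⟩
  obtain ⟨L3, hL3⟩ : ∃ L3 : ℕ → ℕ → ℝ → ℂ, L3 = fun j i t =>
    dp (u j i) t * dp (w j i) t * wt V t := ⟨_, rfl⟩
  have i1 : Integrable L1 := by rw [hL1]; exact I1.1
  have i2 : ∀ j < r, Integrable (L2 j) := fun j hj => by rw [hL2]; exact (I2 j hj).1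
  have i3 : ∀ j < r, ∀ i < J, Integrable (L3 j i) := fun j hj i hi => by
    rw [hL3]; exact (I3 j hj i hi).1
  have b1 : ∫ t : ℝ, ‖L1 t‖ ≤ 2 * C3 * C1 * c0 * (P * Y ^ 5) := by
    rw [hL1]
    refine I1.2.trans ?_
    have h1 := mid_rt1 hX hV
    rw [← hNN, ← hPd] at h1
    rw [Real.log_one, add_zero, mul_one, mul_one]
    calc C3 * (C1 * Y) * (√((V + N * N) * (V + 1)) / V) * (1 + Real.log (N * N))
        ≤ C3 * (C1 * Y) * (2 * P) * (c0 * Y) := by gcongr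
      _ = 2 * C3 * C1 * c0 * (P * Y ^ 2) := by ring
      _ ≤ 2 * C3 * C1 * c0 * (P * Y ^ 5) := by
          gcongr
          norm_num
  have b2 : ∀ j < r, ∫ t : ℝ, ‖L2 j t‖ ≤ 2 * C4 j * C1 * c0 * (P * Y ^ 5) := by
    intro j hj
    have hC4j := hC4 j
    rw [hL2]
    refine (I2 j hj).2.trans ?_
    have h1 := mid_rt3 hδ hX hV hV'
    rw [← hNN, ← hPd, ← hYd] at h1
    calc C4 j * (C1 * Y) * (√(V ^ (3 / 2 + δ) * (V + N * N)) / V) * (1 + Real.log (N * N))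
        ≤ C4 j * (C1 * Y) * (2 * (P * Y)) * (c0 * Y) := by gcongr
      _ = 2 * C4 j * C1 * c0 * (P * Y ^ 3) := by ring
      _ ≤ 2 * C4 j * C1 * c0 * (P * Y ^ 5) := by
          gcongr
          norm_num
  have b3 : ∀ j < r, ∀ i < J, ∫ t : ℝ, ‖L3 j i t‖ ≤ 9 * C3 * C1 ^ 2 * c0 ^ 2 * (P * Y ^ 4) := by
    intro j hj i hi
    rw [hL3]
    refine (I3 j hj i hi).2.trans ?_
    have h1 := mid_rt2 (A := A i) hX hV (by rw [← hNd]; exact (hA i hi).1)
      (by rw [← hNd]; exact (hA i hi).2)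
    rw [← hPd] at h1
    have h2 := hlog _ (by linarith [hA1 i hi]) (hA3 i hi)
    have h3 := hlog _ (by linarith [hA2 i hi]) (hA4 i hi)
    have h4 : 0 ≤ 1 + Real.log (2 * A i) := by
      have := Real.log_nonneg (hA1 i hi)
      linarith
    have h5 : 0 ≤ 1 + Real.log (16 * X / A i) := by
      have := Real.log_nonneg (hA2 i hi)
      linarith
    calc C3 * (C1 * Y) * (C1 * Y) * (√((V + 2 * A i) * (V + 16 * X / A i)) / V) *
          ((1 + Real.log (2 * A i)) * (1 + Real.log (16 * X / A i)))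
        ≤ C3 * (C1 * Y) * (C1 * Y) * (9 * P) * ((c0 * Y) * (c0 * Y)) := by gcongr
      _ = 9 * C3 * C1 ^ 2 * c0 ^ 2 * (P * Y ^ 4) := by ring
  refine ⟨fun t => (L1 t + ∑ j ∈ Finset.range r, L2 j t) +
    ∑ j ∈ Finset.range r, ∑ i ∈ Finset.range J, L3 j i t, ?_, ?_, ?_⟩
  · refine (i1.add (integrable_finsetSum _ fun j hj => i2 j (Finset.mem_range.1 hj))).add
      (integrable_finsetSum _ fun j hj => integrable_finsetSum _ fun i hi =>
        i3 j (Finset.mem_range.1 hj) i (Finset.mem_range.1 hi))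
  · have n1 : Integrable (fun t => ‖L1 t‖) := i1.norm
    have n2 : Integrable (fun t => ∑ j ∈ Finset.range r, ‖L2 j t‖) :=
      integrable_finsetSum _ fun j hj => (i2 j (Finset.mem_range.1 hj)).norm
    have n3 : Integrable (fun t => ∑ j ∈ Finset.range r, ∑ i ∈ Finset.range J, ‖L3 j i t‖) :=
      integrable_finsetSum _ fun j hj => integrable_finsetSum _ fun i hi =>
        (i3 j (Finset.mem_range.1 hj) i (Finset.mem_range.1 hi)).norm
    have n12 : Integrable (fun t => ‖L1 t‖ + ∑ j ∈ Finset.range r, ‖L2 j t‖) := n1.add n2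
    have h1 : ∫ t : ℝ, ‖(L1 t + ∑ j ∈ Finset.range r, L2 j t) +
        ∑ j ∈ Finset.range r, ∑ i ∈ Finset.range J, L3 j i t‖ ≤
        ∫ t : ℝ, ((‖L1 t‖ + ∑ j ∈ Finset.range r, ‖L2 j t‖) +
          ∑ j ∈ Finset.range r, ∑ i ∈ Finset.range J, ‖L3 j i t‖) := by
      refine integral_mono ?_ ((n1.add n2).add n3) fun t => ?_
      · exact ((i1.add (integrable_finsetSum _ fun j hj => i2 j (Finset.mem_range.1 hj))).add
          (integrable_finsetSum _ fun j hj => integrable_finsetSum _ fun i hi =>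
            i3 j (Finset.mem_range.1 hj) i (Finset.mem_range.1 hi))).norm
      · refine (norm_add_le _ _).trans (add_le_add ((norm_add_le _ _).trans
          (add_le_add le_rfl (norm_sum_le _ _))) ((norm_sum_le _ _).trans
            (Finset.sum_le_sum fun j _ => norm_sum_le _ _)))
    have h2 : ∫ t : ℝ, ((‖L1 t‖ + ∑ j ∈ Finset.range r, ‖L2 j t‖) +
          ∑ j ∈ Finset.range r, ∑ i ∈ Finset.range J, ‖L3 j i t‖) =
        (∫ t : ℝ, ‖L1 t‖) + (∑ j ∈ Finset.range r, ∫ t : ℝ, ‖L2 j t‖) +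
          ∑ j ∈ Finset.range r, ∑ i ∈ Finset.range J, ∫ t : ℝ, ‖L3 j i t‖ := by
      rw [integral_add n12 n3, integral_add n1 n2,
        integral_finsetSum _ fun j hj => (i2 j (Finset.mem_range.1 hj)).norm,
        integral_finsetSum _ fun j hj => integrable_finsetSum _ fun i hi =>
          (i3 j (Finset.mem_range.1 hj) i (Finset.mem_range.1 hi)).norm]
      congr 1
      refine Finset.sum_congr rfl fun j hj => ?_
      exact integral_finsetSum _ fun i hi =>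
          (i3 j (Finset.mem_range.1 hj) i (Finset.mem_range.1 hi)).norm
    have h3 : ∑ j ∈ Finset.range r, ∫ t : ℝ, ‖L2 j t‖ ≤ 2 * S4 * C1 * c0 * (P * Y ^ 5) := by
      refine (Finset.sum_le_sum fun j hj => b2 j (Finset.mem_range.1 hj)).trans (le_of_eq ?_)
      rw [hS4d, Finset.mul_sum, Finset.sum_mul, Finset.sum_mul, Finset.sum_mul]
    have h4 : ∑ j ∈ Finset.range r, ∑ i ∈ Finset.range J, ∫ t : ℝ, ‖L3 j i t‖ ≤
        9 * r * C3 * C1 ^ 3 * c0 ^ 3 * (P * Y ^ 5) := by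
      calc ∑ j ∈ Finset.range r, ∑ i ∈ Finset.range J, ∫ t : ℝ, ‖L3 j i t‖
          ≤ ∑ j ∈ Finset.range r, ∑ i ∈ Finset.range J,
            9 * C3 * C1 ^ 2 * c0 ^ 2 * (P * Y ^ 4) :=
            Finset.sum_le_sum fun j hj => Finset.sum_le_sum fun i hi =>
              b3 j (Finset.mem_range.1 hj) i (Finset.mem_range.1 hi)
        _ = r * (J * (9 * C3 * C1 ^ 2 * c0 ^ 2 * (P * Y ^ 4))) := by simp
        _ ≤ r * ((C1 * (c0 * Y)) * (9 * C3 * C1 ^ 2 * c0 ^ 2 * (P * Y ^ 4))) := by gcongr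
        _ = 9 * r * C3 * C1 ^ 3 * c0 ^ 3 * (P * Y ^ 5) := by ring
    have h5 : P * Y ^ 5 ≤ X ^ (13 / 80 + ε) := by
      rw [Real.rpow_add hX0, ← hPd, ← hY12]
      gcongr
      norm_num
    have h6 : 0 ≤ X ^ (13 / 80 + ε) := by positivity
    refine h1.trans (h2.le.trans ?_)
    calc (∫ t : ℝ, ‖L1 t‖) + (∑ j ∈ Finset.range r, ∫ t : ℝ, ‖L2 j t‖) +
          ∑ j ∈ Finset.range r, ∑ i ∈ Finset.range J, ∫ t : ℝ, ‖L3 j i t‖
        ≤ 2 * C3 * C1 * c0 * (P * Y ^ 5) + 2 * S4 * C1 * c0 * (P * Y ^ 5) +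
          9 * r * C3 * C1 ^ 3 * c0 ^ 3 * (P * Y ^ 5) := add_le_add (add_le_add b1 h3) h4
      _ = D1 * (P * Y ^ 5) := by rw [hD1d]; ring
      _ ≤ D1 * X ^ (13 / 80 + ε) := mul_le_mul_of_nonneg_left h5 hD1
      _ ≤ (D1 + D2 + C6 * C1 + 1) * X ^ (13 / 80 + ε) := by
          refine mul_le_mul_of_nonneg_right ?_ h6
          have : 0 ≤ C6 * C1 := by positivity
          linarith
  · intro x hx1 hx2
    have hx0 : 0 < x := by linarith
    have l1 : MidLB z := midLB_bdd hzb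
    have l2 : ∀ j ∈ Finset.range r, MidLB (af (G j) * h j) := fun j hj =>
      midLB_mul (midLB_af _) (hh j (Finset.mem_range.1 hj)).1 (hh j (Finset.mem_range.1 hj)).2
    have l3 : ∀ j ∈ Finset.range r, ∀ i ∈ Finset.range J, MidLB (u j i * w j i) :=
      fun j hj i hi => by
        have h := huw j (Finset.mem_range.1 hj) i (Finset.mem_range.1 hi)
        exact midLB_mul (midLB_bdd h.2.2.1) h.2.1 h.2.2.2
    have l4 : MidLB e := ⟨C1, hC1.le, heb⟩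
    have l3' : ∀ j ∈ Finset.range r, MidLB (∑ i ∈ Finset.range J, u j i * w j i) :=
      fun j hj => midLB_sum _ _ (l3 j hj)
    have hW : W V (af K) x = W V z x + ∑ j ∈ Finset.range r, W V (af (G j) * h j) x +
        ∑ j ∈ Finset.range r, ∑ i ∈ Finset.range J, W V (u j i * w j i) x + W V e x := by
      rw [mid_af G r K hK, hdec,
        mid_W_add hV1 hx0 (midLB_add (midLB_add l1 (midLB_sum _ _ l2)) (midLB_sum _ _ l3')) l4,
        mid_W_add hV1 hx0 (midLB_add l1 (midLB_sum _ _ l2)) (midLB_sum _ _ l3'),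
        mid_W_add hV1 hx0 l1 (midLB_sum _ _ l2), mid_W_sum hV1 hx0 _ _ l2,
        mid_W_sum hV1 hx0 _ _ l3']
      congr 2
      exact Finset.sum_congr rfl fun j hj => mid_W_sum hV1 hx0 _ _ (l3 j hj)
    have hz1 : W V z x = vint (1 / 2) L1 x := by
      rw [W_fin V x (N * N) hV0 hx0 z hz, hL1]
      congr 1
      funext t
      rw [mid_dp_one, mul_one]
    have huw1 : ∀ j ∈ Finset.range r, ∀ i ∈ Finset.range J,
        W V (u j i * w j i) x = vint (1 / 2) (L3 j i) x := by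
      intro j hj i hi
      have hj' := Finset.mem_range.1 hj
      have hi' := Finset.mem_range.1 hi
      have hA0' := hA0 i hi'
      rw [W_fin V x (2 * A i * (16 * X / A i)) hV0 hx0 (u j i * w j i)
        (mid_mul_supp (by positivity) (huw j hj' i hi').1 (huw j hj' i hi').2.1), hL3]
      congr 1
      funext t
      rw [mid_dp_mul (huw j hj' i hi').1 (huw j hj' i hi').2.1]
    have hvint : vint (1 / 2) (fun t => (L1 t + ∑ j ∈ Finset.range r, L2 j t) +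
        ∑ j ∈ Finset.range r, ∑ i ∈ Finset.range J, L3 j i t) x =
        vint (1 / 2) L1 x + ∑ j ∈ Finset.range r, vint (1 / 2) (L2 j) x +
          ∑ j ∈ Finset.range r, ∑ i ∈ Finset.range J, vint (1 / 2) (L3 j i) x := by
      have s2 : Integrable (fun t => ∑ j ∈ Finset.range r, L2 j t) :=
        integrable_finsetSum _ fun j hj => i2 j (Finset.mem_range.1 hj)
      have s3 : ∀ j ∈ Finset.range r, Integrable (fun t => ∑ i ∈ Finset.range J, L3 j i t) :=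
        fun j hj => integrable_finsetSum _ fun i hi =>
          i3 j (Finset.mem_range.1 hj) i (Finset.mem_range.1 hi)
      have s12 : Integrable (fun t => L1 t + ∑ j ∈ Finset.range r, L2 j t) := i1.add s2
      have s4 : Integrable (fun t => ∑ j ∈ Finset.range r, ∑ i ∈ Finset.range J, L3 j i t) :=
        integrable_finsetSum _ s3
      rw [mid_vint_add s12 s4 hx0, mid_vint_add i1 s2 hx0,
        mid_vint_sum _ (fun j hj => i2 j (Finset.mem_range.1 hj)) hx0, mid_vint_sum _ s3 hx0]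
      congr 1
      exact Finset.sum_congr rfl fun j hj => mid_vint_sum _
        (fun i hi => i3 j (Finset.mem_range.1 hj) i (Finset.mem_range.1 hi)) hx0
    have hdiff : W V (af K) x - vint (1 / 2) (fun t => (L1 t + ∑ j ∈ Finset.range r, L2 j t) +
        ∑ j ∈ Finset.range r, ∑ i ∈ Finset.range J, L3 j i t) x =
        ∑ j ∈ Finset.range r, (W V (af (G j) * h j) x - vint (1 / 2) (L2 j) x) + W V e x := by
      rw [hW, hvint, hz1, Finset.sum_congr rfl fun j hj =>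
        Finset.sum_congr rfl fun i hi => huw1 j hj i hi, Finset.sum_sub_distrib]
      ring
    have hxp : x ^ (1 + δ) ≤ 2 ^ (1 + δ) * (X * Y) := by
      calc x ^ (1 + δ) ≤ (2 * X) ^ (1 + δ) := Real.rpow_le_rpow hx0.le hx2 (by linarith)
        _ = 2 ^ (1 + δ) * X ^ (1 + δ) := Real.mul_rpow (by norm_num) hX0.le
        _ = 2 ^ (1 + δ) * (X * Y) := by rw [Real.rpow_add hX0 1 δ, Real.rpow_one, hYd]
    have e1 : ∀ j ∈ Finset.range r, ‖W V (af (G j) * h j) x - vint (1 / 2) (L2 j) x‖ ≤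
        C5 j * (C1 * 2 ^ (1 + δ) * c0 * (X * Y ^ 3 / V ^ 2)) := by
      intro j hj
      have hj' := Finset.mem_range.1 hj
      have hC5j := hC5 j
      have h7 := H5 j V (N * N) (C1 * Y) x (h j) hV1 hNN1 (hNX.trans hx1) (hh j hj').1
        (hh j hj').2
      rw [hL2]
      refine h7.trans ?_
      calc C5 j * (C1 * Y) * x ^ (1 + δ) * (1 + Real.log (N * N)) / V ^ 2
          ≤ C5 j * (C1 * Y) * (2 ^ (1 + δ) * (X * Y)) * (c0 * Y) / V ^ 2 := by gcongr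
        _ = C5 j * (C1 * 2 ^ (1 + δ) * c0 * (X * Y ^ 3 / V ^ 2)) := by ring
    have e2 : ‖W V e x‖ ≤ C6 * C1 := by
      refine H6 V X C1 x e hV4 (by linarith) ?_ he heb hx0 hx2
      calc X = X ^ (1 : ℝ) := (Real.rpow_one X).symm
        _ ≤ X ^ (123 / 100 : ℝ) :=
            Real.rpow_le_rpow_of_exponent_le (by linarith) (by norm_num)
        _ = (X ^ (41 / 100 : ℝ)) ^ 3 := by
            rw [← Real.rpow_natCast, ← Real.rpow_mul hX0.le]; norm_num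
        _ ≤ V ^ 3 := by gcongr
    have e3 := H2 V x hV1 (by linarith)
    have h8 : X * Y ^ 3 / V ^ 2 ≤ X ^ (1 + ε) / V ^ 2 := by
      rw [Real.rpow_add hX0, Real.rpow_one, ← hY12]
      gcongr
      norm_num
    have h9 : X * Y / V ^ 2 ≤ X ^ (1 + ε) / V ^ 2 := by
      refine le_trans ?_ h8
      gcongr
      nlinarith [hY1, mul_nonneg hY0.le hY0.le, pow_pos hY0 3, one_le_pow₀ hY1 (n := 2),
        show Y ^ 3 = Y * Y ^ 2 by ring]
    have e4 : ‖W V (af K) x - vint (1 / 2) (fun t => (L1 t + ∑ j ∈ Finset.range r, L2 j t) +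
        ∑ j ∈ Finset.range r, ∑ i ∈ Finset.range J, L3 j i t) x‖ ≤
        S5 * C1 * 2 ^ (1 + δ) * c0 * (X ^ (1 + ε) / V ^ 2) + C6 * C1 := by
      rw [hdiff]
      refine (norm_add_le _ _).trans (add_le_add ((norm_sum_le _ _).trans
        ((Finset.sum_le_sum e1).trans ?_)) e2)
      rw [← Finset.sum_mul, ← hS5d]
      calc S5 * (C1 * 2 ^ (1 + δ) * c0 * (X * Y ^ 3 / V ^ 2))
          ≤ S5 * (C1 * 2 ^ (1 + δ) * c0 * (X ^ (1 + ε) / V ^ 2)) := by gcongr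
        _ = _ := by ring
    have e5 : ‖W V (af K) x - (K.EV (2 * V) x - K.EV V x)‖ ≤
        C2 * 2 ^ (1 + δ) * (X ^ (1 + ε) / V ^ 2) := by
      refine e3.trans ?_
      calc C2 * x ^ (1 + δ) / V ^ 2 ≤ C2 * (2 ^ (1 + δ) * (X * Y)) / V ^ 2 := by gcongr
        _ = C2 * 2 ^ (1 + δ) * (X * Y / V ^ 2) := by ring
        _ ≤ _ := by gcongr
    have h10 : 0 ≤ X ^ (1 + ε) / V ^ 2 := by positivity
    have h11 : 0 ≤ C6 * C1 := by positivity
    obtain ⟨Z, hZ⟩ : ∃ Z : ℝ, Z = X ^ (1 + ε) / V ^ 2 := ⟨_, rfl⟩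
    rw [mul_div_assoc]
    rw [← hZ] at e4 e5 h10 ⊢
    obtain ⟨v, hv⟩ : ∃ v : ℂ, v = vint (1 / 2) (fun t => (L1 t + ∑ j ∈ Finset.range r, L2 j t) +
        ∑ j ∈ Finset.range r, ∑ i ∈ Finset.range J, L3 j i t) x := ⟨_, rfl⟩
    rw [← hv] at e4 ⊢
    calc ‖K.EV (2 * V) x - K.EV V x - v‖
        = ‖(W V (af K) x - v) - (W V (af K) x - (K.EV (2 * V) x - K.EV V x))‖ := by
          congr 1; ring
      _ ≤ ‖W V (af K) x - v‖ + ‖W V (af K) x - (K.EV (2 * V) x - K.EV V x)‖ := norm_sub_le _ _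
      _ ≤ (S5 * C1 * 2 ^ (1 + δ) * c0 * Z + C6 * C1) + C2 * 2 ^ (1 + δ) * Z := add_le_add e4 e5
      _ = D2 * Z + C6 * C1 := by rw [hD2d]; ring
      _ ≤ (D1 + D2 + C6 * C1 + 1) * Z + (D1 + D2 + C6 * C1 + 1) := by
          nlinarith [mul_nonneg hD1 h10, mul_nonneg h11 h10]

end DAD
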