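import Pool.Agent.DAD.Div

set_option autoImplicit false

/-!
# DAD/MulSel: the class is closed under products

`f = af G * af H` (as a function), `P = G.P * H.P`, `m = G.m + H.m`, `Q = G.Q * H.Q`,
`r = G.r + H.r`, `lam = Fin.append`, `mu = Fin.append`, `om = G.om * H.om`; `ram` from DAD/Div
(`Sm_mul`).
-/

open Complex MeasureTheory

namespace DAD

open HYM

private theorem ms_order {P1 P2 : ℂ → ℂ} (h1 : Differentiable ℂ P1) (h2 : Differentiable ℂ P2)
    (o1 : ∃ A B : ℝ, ∀ s : ℂ, ‖P1 s‖ ≤ A * Real.exp (‖s‖ ^ B))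
    (o2 : ∃ A B : ℝ, ∀ s : ℂ, ‖P2 s‖ ≤ A * Real.exp (‖s‖ ^ B)) :
    ∃ A B : ℝ, ∀ s : ℂ, ‖P1 s * P2 s‖ ≤ A * Real.exp (‖s‖ ^ B) := by
  obtain ⟨A1, B1, H1⟩ := o1
  obtain ⟨A2, B2, H2⟩ := o2
  have hA1 : 0 ≤ A1 := nonneg_of_mul_nonneg_left ((norm_nonneg _).trans (H1 0)) (Real.exp_pos _)
  have hA2 : 0 ≤ A2 := nonneg_of_mul_nonneg_left ((norm_nonneg _).trans (H2 0)) (Real.exp_pos _)
  obtain ⟨M, hM⟩ := (isCompact_closedBall (0 : ℂ) 2).exists_bound_of_continuousOn
    (h1.mul h2).continuous.continuousOn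
  have hM0 : 0 ≤ M := (norm_nonneg _).trans (hM 0 (by simp))
  obtain ⟨B, hB⟩ : ∃ B : ℝ, B = max (max B1 B2) 0 := ⟨_, rfl⟩
  have hb1 : B1 ≤ B := by rw [hB]; exact (le_max_left _ _).trans (le_max_left _ _)
  have hb2 : B2 ≤ B := by rw [hB]; exact (le_max_right _ _).trans (le_max_left _ _)
  refine ⟨M + A1 * A2, B + 1, fun s => ?_⟩
  have he : 1 ≤ Real.exp (‖s‖ ^ (B + 1)) := Real.one_le_exp (by positivity)
  by_cases hs : ‖s‖ ≤ 2
  · have h3 := hM s (by simpa using hs)
    have h4 : ‖P1 s * P2 s‖ ≤ M := h3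
    nlinarith [mul_nonneg hA1 hA2]
  · have hs : 2 < ‖s‖ := not_le.1 hs
    have h3 : ‖s‖ ^ B1 + ‖s‖ ^ B2 ≤ ‖s‖ ^ (B + 1) := by
      have h4 : ‖s‖ ^ B1 ≤ ‖s‖ ^ B := Real.rpow_le_rpow_of_exponent_le (by linarith) hb1
      have h5 : ‖s‖ ^ B2 ≤ ‖s‖ ^ B := Real.rpow_le_rpow_of_exponent_le (by linarith) hb2
      have h6 : ‖s‖ ^ (B + 1) = ‖s‖ ^ B * ‖s‖ := by
        rw [Real.rpow_add (by linarith), Real.rpow_one]
      have h7 : 0 < ‖s‖ ^ B := Real.rpow_pos_of_pos (by linarith) _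
      rw [h6]
      nlinarith
    rw [norm_mul]
    calc ‖P1 s‖ * ‖P2 s‖ ≤ (A1 * Real.exp (‖s‖ ^ B1)) * (A2 * Real.exp (‖s‖ ^ B2)) :=
          mul_le_mul (H1 s) (H2 s) (norm_nonneg _) (by positivity)
      _ = A1 * A2 * Real.exp (‖s‖ ^ B1 + ‖s‖ ^ B2) := by
          rw [Real.exp_add]
          ring
      _ ≤ A1 * A2 * Real.exp (‖s‖ ^ (B + 1)) :=
          mul_le_mul_of_nonneg_left (Real.exp_le_exp.2 h3) (by positivity)
      _ ≤ (M + A1 * A2) * Real.exp (‖s‖ ^ (B + 1)) :=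
          mul_le_mul_of_nonneg_right (by linarith) (Real.exp_pos _).le

private theorem ms_af (G : Sel) {n : ℕ} (hn : n ≠ 0) : G.f n = af G n := by
  show G.f n = if n = 0 then 0 else G.f n
  rw [if_neg hn]

private theorem ms_sum (G : Sel) {s : ℂ} (hs : 1 < s.re) : LSeriesSummable (fun n => af G n) s :=
  (LSeriesSummable_congr s fun {_} hn => ms_af G hn).1 (G.summable s hs)

private theorem ms_ser (G : Sel) {s : ℂ} (hs : 1 < s.re) :
    LSeries (fun n => af G n) s = G.P s / (s - 1) ^ G.m := by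
  rw [← G.series s hs]
  exact (LSeries_congr (fun {_} hn => ms_af G hn) s).symm

/-- The product of two members of the class. -/
noncomputable def mulSel (G H : Sel) : Sel where
  f := fun n => (af G * af H) n
  m := G.m + H.m
  P := fun s => G.P s * H.P s
  Q := G.Q * H.Q
  r := G.r + H.r
  lam := Fin.append G.lam H.lam
  mu := Fin.append G.mu H.mu
  om := G.om * H.om
  P_diff := G.P_diff.mul H.P_diff
  P_order := ms_order G.P_diff H.P_diff G.P_order H.P_order
  summable := fun s hs => ArithmeticFunction.LSeriesSummable_mul (ms_sum G hs) (ms_sum H hs)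
  series := fun s hs => by
    have h := ArithmeticFunction.LSeries_mul' (ms_sum G hs) (ms_sum H hs)
    rw [ms_ser G hs, ms_ser H hs] at h
    rw [h, pow_add, div_mul_div_comm]
  Q_pos := mul_pos G.Q_pos H.Q_pos
  lam_pos := fun j => by
    refine Fin.addCases (fun i => ?_) (fun i => ?_) j
    · rw [Fin.append_left]
      exact G.lam_pos i
    · rw [Fin.append_right]
      exact H.lam_pos i
  mu_re := fun j => by
    refine Fin.addCases (fun i => ?_) (fun i => ?_) j
    · rw [Fin.append_left]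
      exact G.mu_re i
    · rw [Fin.append_right]
      exact H.mu_re i
  om_norm := by rw [norm_mul, G.om_norm, H.om_norm, mul_one]
  functional := fun s h0 h1 => by
    have hG := G.functional s h0 h1
    have hH := H.functional s h0 h1
    rw [Fin.prod_univ_add, Fin.prod_univ_add, Complex.ofReal_mul,
      Complex.mul_cpow_ofReal_nonneg G.Q_pos.le H.Q_pos.le,
      Complex.mul_cpow_ofReal_nonneg G.Q_pos.le H.Q_pos.le, pow_add, pow_add]
    simp only [Fin.append_left, Fin.append_right]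
    have e1 : (G.Q : ℂ) ^ s * (H.Q : ℂ) ^ s *
        ((∏ i, Gamma (G.lam i * s + G.mu i)) * ∏ i, Gamma (H.lam i * s + H.mu i)) *
        (G.P s * H.P s / ((s - 1) ^ G.m * (s - 1) ^ H.m)) =
        ((G.Q : ℂ) ^ s * (∏ i, Gamma (G.lam i * s + G.mu i)) * (G.P s / (s - 1) ^ G.m)) *
        ((H.Q : ℂ) ^ s * (∏ i, Gamma (H.lam i * s + H.mu i)) * (H.P s / (s - 1) ^ H.m)) := by
      rw [← div_mul_div_comm]
      ring
    rw [e1, hG, hH, mul_mul_mul_comm, ← map_mul]
    congr 2
    rw [← div_mul_div_comm]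
    ring
  ram := fun ε hε => by
    obtain ⟨C, hC, h⟩ := Sm_mul (Sm_af G) (Sm_af H) ε hε
    refine ⟨C, fun n hn => ?_⟩
    refine (dom_mul (A := ab (af G)) (B := ab (af H)) (fun n => le_of_eq rfl)
      (fun n => le_of_eq rfl) n).trans ((le_abs_self _).trans (h n hn))

theorem exists_mul (G H : Sel) : ∃ K : Sel, K.deg = G.deg + H.deg ∧
    ∀ n : ℕ, 1 ≤ n → K.f n = (af G * af H) n := by
  refine ⟨mulSel G H, ?_, fun n _ => rfl⟩
  show 2 * ∑ j, Fin.append G.lam H.lam j = 2 * ∑ j, G.lam j + 2 * ∑ j, H.lam j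
  rw [Fin.sum_univ_add]
  simp only [Fin.append_left, Fin.append_right]
  ring

/-- The constant function `1`. -/
noncomputable def oneSel : Sel where
  f := fun n => (1 : ArithmeticFunction ℂ) n
  m := 0
  P := fun _ => 1
  Q := 1
  r := 0
  lam := Fin.elim0
  mu := Fin.elim0
  om := 1
  P_diff := differentiable_const 1
  P_order := ⟨1, 1, fun s => by
    rw [norm_one, one_mul]
    exact Real.one_le_exp (by positivity)⟩
  summable := fun s hs => LSeriesSummable_of_bounded_of_one_lt_re (m := 1) (fun n _ => by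
    rw [ArithmeticFunction.one_apply]
    split_ifs <;> simp) hs
  series := fun s _ => by
    rw [pow_zero, div_one, ArithmeticFunction.one_eq_delta, LSeries_delta]
    rfl
  Q_pos := one_pos
  lam_pos := fun j => j.elim0
  mu_re := fun j => j.elim0
  om_norm := norm_one
  functional := fun s _ _ => by simp
  ram := fun ε hε => by
    obtain ⟨C, hC, h⟩ := Sm_one ε hε
    refine ⟨C, fun n hn => ?_⟩
    refine le_trans (le_of_eq ?_) (h n hn)
    rw [ArithmeticFunction.one_apply, ArithmeticFunction.one_apply]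
    split_ifs <;> simp

theorem exists_prod (G : ℕ → Sel) (s : Finset ℕ) : ∃ K : Sel,
    K.deg = ∑ i ∈ s, (G i).deg ∧ ∀ n : ℕ, 1 ≤ n → K.f n = (∏ i ∈ s, af (G i)) n := by
  classical
  induction s using Finset.induction_on with
  | empty =>
    refine ⟨oneSel, ?_, fun n _ => rfl⟩
    show 2 * ∑ j : Fin 0, (Fin.elim0 j : ℝ) = _
    simp
  | insert i s hi ih =>
    obtain ⟨K, hK, hf⟩ := ih
    obtain ⟨K', hK', hf'⟩ := exists_mul (G i) K
    have e : af K = ∏ i ∈ s, af (G i) := by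
      ext n
      by_cases hn : n = 0
      · rw [hn, ArithmeticFunction.map_zero, ArithmeticFunction.map_zero]
      · rw [← ms_af K hn]
        exact hf n (Nat.one_le_iff_ne_zero.2 hn)
    refine ⟨K', ?_, fun n hn => ?_⟩
    · rw [hK', hK, Finset.sum_insert hi]
    · rw [hf' n hn, e, Finset.prod_insert hi]

end DAD
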