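import Pool.Agent.DAD.Defs

set_option autoImplicit false

/-!
# DAD/Mvf: first moment of a product of two Dirichlet polynomials

Plan: `‖wt V t‖ ≤ C V^(-1) exp (-(t/(2V))²/2)` (for `|t| ≤ V` by `|e^u - e^v| ≤ |u-v| max`, for
`|t| > V` trivially), Cauchy-Schwarz, and `∫ exp (-(t/(2V))²/2) ‖dp a t‖² ≤ C ∑ ‖a n‖²/n (V + n)`
(`HYM.large_sieve` in HYM/LSG.lean; used in `HYM.blk_mean`), `∑_{n≤A} 1/n ≤ 1 + log A`.
-/

open Complex MeasureTheory

namespace DAD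

open HYM

private theorem mvg_ln_cont (c : ℝ) : Continuous (fun t : ℝ => ln c t) := by
  unfold ln
  fun_prop

/-- `dp` as a finite sum. -/
theorem dp_fin {B : ℝ} {b : ArithmeticFunction ℂ} (hb : ∀ n : ℕ, B < n → b n = 0) (t : ℝ) :
    dp b t = ∑ n ∈ Finset.range (⌊B⌋₊ + 1), LSeries.term (fun n => b n) (ln (1 / 2) t) n := by
  unfold dp LSeries
  refine tsum_eq_sum fun n hn => ?_
  have h1 : ⌊B⌋₊ < n := by
    rw [Finset.mem_range, not_lt] at hn
    omega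
  have h2 : B < n := Nat.lt_of_floor_lt h1
  rw [LSeries.term_def]
  split_ifs
  · rfl
  · rw [hb n h2, zero_div]

theorem dp_cont {B : ℝ} {b : ArithmeticFunction ℂ} (hb : ∀ n : ℕ, B < n → b n = 0) :
    Continuous (fun t : ℝ => dp b t) := by
  have h : (fun t : ℝ => dp b t) = fun t =>
      ∑ n ∈ Finset.range (⌊B⌋₊ + 1), LSeries.term (fun n => b n) (ln (1 / 2) t) n := by
    funext t
    exact dp_fin hb t
  rw [h]
  refine continuous_finsetSum _ fun n _ => ?_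
  simp only [LSeries.term_def]
  rcases Nat.eq_zero_or_pos n with rfl | hn
  · simpa using continuous_const
  · have hn0 : (n : ℂ) ≠ 0 := by exact_mod_cast hn.ne'
    simp only [hn.ne', if_false]
    refine continuous_const.div ((mvg_ln_cont _).const_cpow (Or.inl hn0)) fun t => ?_
    exact cpow_ne_zero_iff.2 (Or.inl hn0)

theorem wt_cont (V : ℝ) : Continuous (fun t : ℝ => wt V t) := by
  unfold wt
  have h := mvg_ln_cont (1 / 2)
  refine Continuous.div ?_ h fun t => ?_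
  · exact (Complex.continuous_exp.comp ((h.pow 2).div_const _)).sub
      (Complex.continuous_exp.comp ((h.pow 2).div_const _))
  · intro h1
    have h2 := congrArg Complex.re h1
    rw [ln_re] at h2
    norm_num at h2

private theorem mvg_harm {W B : ℝ} (hW : 0 ≤ W) (hB : 1 ≤ B) :
    ∑ n ∈ Finset.range (⌊B⌋₊ + 1), (if n = 0 then 0 else (W + n) / (n : ℝ)) ≤
      (W + B) * (1 + Real.log B) := by
  have h1 : ∑ n ∈ Finset.range (⌊B⌋₊ + 1), (if n = 0 then 0 else (W + n) / (n : ℝ)) =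
      ∑ n ∈ Finset.range ⌊B⌋₊, (W * ((n : ℝ) + 1)⁻¹ + 1) := by
    rw [Finset.sum_range_succ']
    simp only [if_true, add_zero, Nat.succ_ne_zero, Nat.add_eq_zero_iff, one_ne_zero, and_false,
      if_false]
    refine Finset.sum_congr rfl fun n _ => ?_
    have : ((n + 1 : ℕ) : ℝ) ≠ 0 := by positivity
    push_cast at this ⊢
    field_simp
  rw [h1, Finset.sum_add_distrib, ← Finset.mul_sum, Finset.sum_const, Finset.card_range,
    nsmul_eq_mul, mul_one]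
  have h2 : ∑ n ∈ Finset.range ⌊B⌋₊, ((n : ℝ) + 1)⁻¹ ≤ 1 + Real.log B := by
    have h3 := harmonic_floor_le_one_add_log B hB
    have h4 : ((harmonic ⌊B⌋₊ : ℚ) : ℝ) = ∑ n ∈ Finset.range ⌊B⌋₊, ((n : ℝ) + 1)⁻¹ := by
      rw [harmonic]
      push_cast
      rfl
    rwa [h4] at h3
  have h5 : (⌊B⌋₊ : ℝ) ≤ B := Nat.floor_le (by linarith)
  have h6 : 0 ≤ Real.log B := Real.log_nonneg hB
  have h7 := mul_le_mul_of_nonneg_left h2 hW
  nlinarith

/-- The mean square of a Dirichlet polynomial on `Re s = 1/2`. -/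
theorem dp_ms : ∃ C : ℝ, 0 < C ∧ ∀ (W B d : ℝ) (b : ArithmeticFunction ℂ),
    1 ≤ W → 1 ≤ B → (∀ n : ℕ, B < n → b n = 0) → (∀ n : ℕ, ‖b n‖ ≤ d) →
    Integrable (fun t : ℝ => Real.exp (-(t / W) ^ 2) * ‖dp b t‖ ^ 2) ∧
    ∫ t : ℝ, Real.exp (-(t / W) ^ 2) * ‖dp b t‖ ^ 2 ≤
      C * (d ^ 2 * ((W + B) * (1 + Real.log B))) := by
  obtain ⟨C, hC, hls⟩ := large_sieve
  refine ⟨C, hC, fun W B d b hW hB hb hd => ?_⟩
  have hd0 : 0 ≤ d := (norm_nonneg _).trans (hd 0)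
  obtain ⟨a, ha⟩ : ∃ a : ℕ → ℂ, a = fun n => if n = 0 then 0 else
    (starRingEnd ℂ) (b n) * (((n : ℝ) ^ (-(1 / 2) : ℝ) : ℝ) : ℂ) := ⟨_, rfl⟩
  have ha0 : a 0 = 0 := by rw [ha]; simp
  have hsupp : ∀ n ∉ Finset.range (⌊B⌋₊ + 1), a n = 0 := by
    intro n hn
    have h1 : ⌊B⌋₊ < n := by
      rw [Finset.mem_range, not_lt] at hn
      omega
    have h2 : B < n := Nat.lt_of_floor_lt h1
    rw [ha]
    simp only
    rw [hb n h2]
    simp
  have hs1 : Summable (fun n => ‖a n‖) :=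
    summable_of_ne_finset_zero (s := Finset.range (⌊B⌋₊ + 1)) fun n hn => by
      rw [hsupp n hn, norm_zero]
  have hs2 : Summable (fun n : ℕ => ‖a n‖ ^ 2 * n) :=
    summable_of_ne_finset_zero (s := Finset.range (⌊B⌋₊ + 1)) fun n hn => by
      rw [hsupp n hn, norm_zero]; ring
  have hnorm : ∀ n : ℕ, ‖a n‖ ^ 2 ≤ if n = 0 then 0 else d ^ 2 / (n : ℝ) := by
    intro n
    rw [ha]
    simp only
    split_ifs with h
    · simp
    · have hn : (0 : ℝ) < n := by exact_mod_cast Nat.pos_of_ne_zero h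
      rw [norm_mul, RCLike.norm_conj, Complex.norm_real, Real.norm_of_nonneg (by positivity),
        mul_pow, ← Real.rpow_natCast ((n : ℝ) ^ (-(1 / 2) : ℝ)) 2, ← Real.rpow_mul hn.le]
      have h1 : (-(1 / 2) : ℝ) * ((2 : ℕ) : ℝ) = -1 := by norm_num
      rw [h1, Real.rpow_neg_one, div_eq_mul_inv]
      exact mul_le_mul_of_nonneg_right (pow_le_pow_left₀ (norm_nonneg _) (hd n) 2) (by positivity)
  have hdp : ∀ t : ℝ, ‖∑' n : ℕ, a n * (n : ℂ) ^ (t * I)‖ = ‖dp b t‖ := by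
    intro t
    rw [← RCLike.norm_conj (dp b t), dp_fin hb t, map_sum,
      tsum_eq_sum (s := Finset.range (⌊B⌋₊ + 1)) (fun n hn => by rw [hsupp n hn, zero_mul])]
    congr 1
    refine Finset.sum_congr rfl fun n _ => ?_
    rw [ha, LSeries.term_def]
    simp only
    split_ifs with h
    · simp
    · have hn : (0 : ℝ) < n := by exact_mod_cast Nat.pos_of_ne_zero h
      have hn0 : (n : ℂ) ≠ 0 := by exact_mod_cast h
      have h1 : (starRingEnd ℂ) ((n : ℂ) ^ ln (1 / 2) t) = (n : ℂ) ^ ln (1 / 2) (-t) := by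
        have h2 : ((n : ℂ)).arg ≠ Real.pi := by
          rw [Complex.natCast_arg]
          exact Real.pi_pos.ne
        have h3 := Complex.cpow_conj (n : ℂ) (ln (1 / 2) t) h2
        rw [Complex.conj_natCast] at h3
        rw [← h3]
        congr 1
        apply Complex.ext <;> simp [ln]
      have h4 : (starRingEnd ℂ) (b n / (n : ℂ) ^ ln (1 / 2) t) =
          (starRingEnd ℂ) (b n) * (n : ℂ) ^ (-(ln (1 / 2) (-t))) := by
        rw [map_div₀, h1, div_eq_mul_inv, cpow_neg]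
      rw [h4, mul_assoc]
      congr 1
      rw [Complex.ofReal_cpow hn.le, Complex.ofReal_natCast, ← cpow_add _ _ hn0]
      congr 1
      unfold ln
      push_cast
      ring
  have h := hls a ha0 hs1 hs2 W hW
  simp only [hdp] at h
  refine ⟨h.1, h.2.trans (mul_le_mul_of_nonneg_left ?_ hC.le)⟩
  rw [tsum_eq_sum (s := Finset.range (⌊B⌋₊ + 1)) (fun n hn => by rw [hsupp n hn, norm_zero]; ring)]
  refine le_trans (Finset.sum_le_sum (g := fun n : ℕ =>
    d ^ 2 * (if n = 0 then 0 else (W + n) / (n : ℝ))) fun n _ => ?_) ?_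
  · refine (mul_le_mul_of_nonneg_right (hnorm n) (by positivity)).trans (le_of_eq ?_)
    split_ifs
    · ring
    · ring
  · rw [← Finset.mul_sum]
    exact mul_le_mul_of_nonneg_left (mvg_harm (by linarith) hB) (by positivity)

theorem amgm_opt {A B J : ℝ} (hA : 0 ≤ A) (hB : 0 ≤ B)
    (h : ∀ l : ℝ, 0 < l → J ≤ (l * A + B / l) / 2) : J ≤ √(A * B) := by
  rcases hA.eq_or_lt with hA | hA
  · subst hA
    rw [zero_mul, Real.sqrt_zero]
    by_contra hJ
    rw [not_le] at hJ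
    have h1 := h ((B + 1) / J) (by positivity)
    rw [mul_zero, zero_add, div_div_eq_mul_div] at h1
    have h2 : B * J / (B + 1) ≤ J := by
      rw [div_le_iff₀ (by linarith)]
      nlinarith
    linarith
  rcases hB.eq_or_lt with hB | hB
  · subst hB
    rw [mul_zero, Real.sqrt_zero]
    by_contra hJ
    rw [not_le] at hJ
    have h1 := h (J / A) (by positivity)
    rw [zero_div, add_zero, div_mul_cancel₀ _ hA.ne'] at h1
    linarith
  · have hs : 0 < √(A * B) := Real.sqrt_pos.2 (by positivity)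
    have h1 := h (√(A * B) / A) (by positivity)
    have h2 : B / (√(A * B) / A) = √(A * B) := by
      rw [div_div_eq_mul_div, div_eq_iff hs.ne', Real.mul_self_sqrt (by positivity)]
      ring
    rw [h2, div_mul_cancel₀ _ hA.ne'] at h1
    linarith

theorem wt_bound : ∃ C : ℝ, 0 < C ∧ ∀ V : ℝ, 1 ≤ V → ∀ t : ℝ,
    ‖wt V t‖ ≤ C / V * Real.exp (-(t / (2 * V)) ^ 2 / 2) := by
  refine ⟨3 * Real.exp (1 / 4), by positivity, fun V hV t => ?_⟩
  have hV0 : 0 < V := by linarith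
  set s : ℂ := ln (1 / 2) t with hs
  have hsre : s.re = 1 / 2 := ln_re _ _
  have hsim : s.im = t := ln_im _ _
  have hs0 : s ≠ 0 := by
    intro h
    rw [h, Complex.zero_re] at hsre
    norm_num at hsre
  have hsn : 0 < ‖s‖ := norm_pos_iff.2 hs0
  have hs2re : (s ^ 2).re = 1 / 4 - t ^ 2 := by
    rw [sq, Complex.mul_re, hsre, hsim]; ring
  have hre : ∀ r : ℝ, (s ^ 2 / ((r : ℝ) : ℂ) ^ 2).re = (1 / 4 - t ^ 2) / r ^ 2 := by
    intro r
    rw [← Complex.ofReal_pow, Complex.div_ofReal_re, hs2re]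
  set M : ℝ := 1 / 4 - t ^ 2 / (4 * V ^ 2) with hM
  have hV2 : 1 ≤ V ^ 2 := one_le_pow₀ hV
  have hu : (s ^ 2 / (((2 * V : ℝ)) : ℂ) ^ 2).re ≤ M := by
    rw [hre, hM]
    have h1 : (1 / 4 - t ^ 2) / (2 * V) ^ 2 = 1 / (16 * V ^ 2) - t ^ 2 / (4 * V ^ 2) := by
      field_simp
      ring
    have h2 : 1 / (16 * V ^ 2) ≤ 1 / 4 := by
      apply one_div_le_one_div_of_le (by norm_num)
      linarith
    rw [h1]; linarith
  have hv : (s ^ 2 / ((V : ℝ) : ℂ) ^ 2).re ≤ M := by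
    rw [hre, hM]
    have h1 : (1 / 4 - t ^ 2) / V ^ 2 = 1 / (4 * V ^ 2) - t ^ 2 / V ^ 2 := by
      field_simp
    have h2 : 1 / (4 * V ^ 2) ≤ 1 / 4 := by
      apply one_div_le_one_div_of_le (by norm_num)
      linarith
    have h3 : t ^ 2 / (4 * V ^ 2) ≤ t ^ 2 / V ^ 2 := by
      apply div_le_div_of_nonneg_left (sq_nonneg _) (by positivity)
      linarith
    rw [h1]; linarith
  have hmv : ‖cexp (s ^ 2 / (((2 * V : ℝ)) : ℂ) ^ 2) - cexp (s ^ 2 / ((V : ℝ) : ℂ) ^ 2)‖ ≤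
      Real.exp M * ‖s ^ 2 / (((2 * V : ℝ)) : ℂ) ^ 2 - s ^ 2 / ((V : ℝ) : ℂ) ^ 2‖ := by
    refine Convex.norm_image_sub_le_of_norm_deriv_le (𝕜 := ℂ) (f := cexp)
      (s := {w : ℂ | w.re ≤ M}) (fun w _ => Complex.differentiable_exp w) (fun w hw => ?_)
      (convex_halfSpace_re_le M) hv hu
    rw [Complex.deriv_exp, Complex.norm_exp]
    exact Real.exp_le_exp.2 hw
  have hdiff : ‖s ^ 2 / (((2 * V : ℝ)) : ℂ) ^ 2 - s ^ 2 / ((V : ℝ) : ℂ) ^ 2‖ =
      3 / 4 * ‖s‖ ^ 2 / V ^ 2 := by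
    have hVc : (V : ℂ) ≠ 0 := by exact_mod_cast hV0.ne'
    have h1 : s ^ 2 / (((2 * V : ℝ)) : ℂ) ^ 2 - s ^ 2 / ((V : ℝ) : ℂ) ^ 2 =
        -((3 / 4 : ℝ) : ℂ) * s ^ 2 / ((V : ℝ) : ℂ) ^ 2 := by
      push_cast
      field_simp
      ring
    rw [h1, norm_div, norm_mul, norm_neg, Complex.norm_real, norm_pow, norm_pow,
      Complex.norm_real, Real.norm_of_nonneg hV0.le, Real.norm_of_nonneg (by norm_num)]
  have hwt : ‖wt V t‖ ≤ Real.exp M * (3 / 4 * ‖s‖ / V ^ 2) := by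
    unfold wt
    rw [norm_div, div_le_iff₀ hsn]
    refine hmv.trans (le_of_eq ?_)
    rw [hdiff]
    ring
  have hsb : ‖s‖ ≤ 1 / 2 + |t| := by
    have h1 := Complex.norm_le_abs_re_add_abs_im s
    rw [hsre, hsim, abs_of_nonneg (by norm_num : (0 : ℝ) ≤ 1 / 2)] at h1
    exact h1
  set x : ℝ := |t| / V with hx
  have hx0 : 0 ≤ x := by positivity
  have htV : |t| = x * V := by rw [hx]; field_simp
  have hx2 : t ^ 2 = x ^ 2 * V ^ 2 := by rw [← sq_abs t, htV]; ring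
  have hM2 : M = 1 / 4 - x ^ 2 / 8 - x ^ 2 / 8 := by
    rw [hM, hx2]; field_simp; ring
  have hex : -(t / (2 * V)) ^ 2 / 2 = -(x ^ 2 / 8) := by
    rw [div_pow, hx2]; field_simp; ring
  have hxe : x ≤ 2 * Real.exp (x ^ 2 / 8) := by
    have h1 := Real.add_one_le_exp (x ^ 2 / 8)
    nlinarith [sq_nonneg (x - 2)]
  have h1e : 1 ≤ Real.exp (x ^ 2 / 8) := Real.one_le_exp (by positivity)
  have hsV : ‖s‖ ≤ 4 * V * Real.exp (x ^ 2 / 8) := by
    refine hsb.trans ?_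
    rw [htV]
    have h2 : x * V ≤ 2 * Real.exp (x ^ 2 / 8) * V := mul_le_mul_of_nonneg_right hxe hV0.le
    have h3 : (1 : ℝ) ≤ V * Real.exp (x ^ 2 / 8) := by nlinarith
    nlinarith
  rw [hex]
  refine hwt.trans ?_
  rw [hM2]
  have h4 : Real.exp (1 / 4 - x ^ 2 / 8 - x ^ 2 / 8) =
      Real.exp (1 / 4) * (Real.exp (-(x ^ 2 / 8)) * Real.exp (-(x ^ 2 / 8))) := by
    rw [← Real.exp_add, ← Real.exp_add]
    congr 1
    ring
  have h5 : Real.exp (-(x ^ 2 / 8)) * Real.exp (x ^ 2 / 8) = 1 := by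
    rw [← Real.exp_add]; simp
  rw [h4]
  have h6 : 3 / 4 * ‖s‖ / V ^ 2 ≤ 3 / 4 * (4 * V * Real.exp (x ^ 2 / 8)) / V ^ 2 := by
    apply div_le_div_of_nonneg_right _ (by positivity)
    linarith
  calc Real.exp (1 / 4) * (Real.exp (-(x ^ 2 / 8)) * Real.exp (-(x ^ 2 / 8))) *
        (3 / 4 * ‖s‖ / V ^ 2)
      ≤ Real.exp (1 / 4) * (Real.exp (-(x ^ 2 / 8)) * Real.exp (-(x ^ 2 / 8))) *
        (3 / 4 * (4 * V * Real.exp (x ^ 2 / 8)) / V ^ 2) :=
        mul_le_mul_of_nonneg_left h6 (by positivity)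
    _ = 3 * Real.exp (1 / 4) / V * Real.exp (-(x ^ 2 / 8)) *
        (Real.exp (-(x ^ 2 / 8)) * Real.exp (x ^ 2 / 8)) := by
        field_simp
    _ = 3 * Real.exp (1 / 4) / V * Real.exp (-(x ^ 2 / 8)) := by rw [h5, mul_one]

/-- Cauchy-Schwarz with the weight `wt`. -/
theorem cs_wt {C1 V A' B' W : ℝ} {g p : ℝ → ℂ} (hC1 : 0 < C1) (hV : 0 < V)
    (hw : ∀ t : ℝ, ‖wt V t‖ ≤ C1 / V * Real.exp (-(t / W) ^ 2))
    (hg : Continuous g) (hp : Continuous p)
    (hig : Integrable (fun t => Real.exp (-(t / W) ^ 2) * ‖g t‖ ^ 2))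
    (hip : Integrable (fun t => Real.exp (-(t / W) ^ 2) * ‖p t‖ ^ 2))
    (hA : ∫ t, Real.exp (-(t / W) ^ 2) * ‖g t‖ ^ 2 ≤ A')
    (hB : ∫ t, Real.exp (-(t / W) ^ 2) * ‖p t‖ ^ 2 ≤ B') :
    Integrable (fun t => g t * p t * wt V t) ∧
    ∫ t, ‖g t * p t * wt V t‖ ≤ C1 / V * √(A' * B') := by
  have hA0 : 0 ≤ A' := (integral_nonneg fun t => by positivity).trans hA
  have hB0 : 0 ≤ B' := (integral_nonneg fun t => by positivity).trans hB
  have hmeas : Continuous (fun t : ℝ => g t * p t * wt V t) := (hg.mul hp).mul (wt_cont V)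
  have hpt : ∀ l : ℝ, 0 < l → ∀ t : ℝ, ‖g t * p t * wt V t‖ ≤
      C1 / V * ((l * (Real.exp (-(t / W) ^ 2) * ‖g t‖ ^ 2) +
        (Real.exp (-(t / W) ^ 2) * ‖p t‖ ^ 2) / l) / 2) := by
    intro l hl t
    rw [norm_mul, norm_mul]
    have h5 := hw t
    have h6 : ‖g t‖ * ‖p t‖ ≤ (l * ‖g t‖ ^ 2 + ‖p t‖ ^ 2 / l) / 2 := by
      have h7 : 0 ≤ (l * ‖g t‖ - ‖p t‖) ^ 2 / l := by positivity
      have h8 : (l * ‖g t‖ - ‖p t‖) ^ 2 / l =
          l * ‖g t‖ ^ 2 - 2 * (‖g t‖ * ‖p t‖) + ‖p t‖ ^ 2 / l := by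
        field_simp
        ring
      linarith
    calc ‖g t‖ * ‖p t‖ * ‖wt V t‖
        ≤ ‖g t‖ * ‖p t‖ * (C1 / V * Real.exp (-(t / W) ^ 2)) :=
          mul_le_mul_of_nonneg_left h5 (by positivity)
      _ ≤ (l * ‖g t‖ ^ 2 + ‖p t‖ ^ 2 / l) / 2 * (C1 / V * Real.exp (-(t / W) ^ 2)) :=
          mul_le_mul_of_nonneg_right h6 (by positivity)
      _ = _ := by ring
  have hint : ∀ l : ℝ, Integrable (fun t : ℝ => C1 / V * ((l * (Real.exp (-(t / W) ^ 2) *
      ‖g t‖ ^ 2) + (Real.exp (-(t / W) ^ 2) * ‖p t‖ ^ 2) / l) / 2)) := fun l =>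
    (((hig.const_mul l).add (hip.div_const l)).div_const 2).const_mul _
  have hI : Integrable (fun t => g t * p t * wt V t) :=
    (hint 1).mono' hmeas.aestronglyMeasurable (by
      filter_upwards with t
      exact hpt 1 one_pos t)
  refine ⟨hI, ?_⟩
  have hCV : 0 < C1 / V := by positivity
  rw [← div_le_iff₀' hCV]
  refine amgm_opt hA0 hB0 fun l hl => ?_
  rw [div_le_iff₀' hCV]
  refine (integral_mono hI.norm (hint l) (hpt l hl)).trans ?_
  rw [integral_const_mul, integral_div, integral_add (hig.const_mul l) (hip.div_const l),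
    integral_const_mul, integral_div]
  refine mul_le_mul_of_nonneg_left ?_ hCV.le
  have h10 := mul_le_mul_of_nonneg_left hA hl.le
  have h11 := div_le_div_of_nonneg_right hB hl.le
  linarith

theorem wt_bound' : ∃ C : ℝ, 0 < C ∧ ∀ V : ℝ, 1 ≤ V → 1 ≤ √8 * V ∧ √8 * V ≤ 3 * V ∧
    ∀ t : ℝ, ‖wt V t‖ ≤ C / V * Real.exp (-(t / (√8 * V)) ^ 2) := by
  obtain ⟨C, hC, h⟩ := wt_bound
  refine ⟨C, hC, fun V hV => ⟨?_, ?_, fun t => ?_⟩⟩
  · have : 1 ≤ √8 := by rw [Real.one_le_sqrt]; norm_num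
    nlinarith
  · have : √8 ≤ 3 := by rw [Real.sqrt_le_left (by norm_num)]; norm_num
    nlinarith
  · have hs8 : √8 * √8 = 8 := Real.mul_self_sqrt (by norm_num)
    have h1 : -(t / (2 * V)) ^ 2 / 2 = -(t / (√8 * V)) ^ 2 := by
      have hV0 : 0 < V := by linarith
      rw [div_pow, div_pow, mul_pow, mul_pow, sq (√8), hs8]
      field_simp
      ring
    rw [← h1]
    exact h V hV t

theorem mvf : ∃ C : ℝ, 0 < C ∧ ∀ (V A B c d : ℝ) (a b : ArithmeticFunction ℂ),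
    1 ≤ V → 1 ≤ A → 1 ≤ B → (∀ n : ℕ, A < n → a n = 0) → (∀ n : ℕ, B < n → b n = 0) →
    (∀ n : ℕ, ‖a n‖ ≤ c) → (∀ n : ℕ, ‖b n‖ ≤ d) →
    Integrable (fun t : ℝ => dp a t * dp b t * wt V t) ∧
    ∫ t : ℝ, ‖dp a t * dp b t * wt V t‖ ≤
      C * c * d * (√((V + A) * (V + B)) / V) * ((1 + Real.log A) * (1 + Real.log B)) := by
  obtain ⟨C1, hC1, hw⟩ := wt_bound'
  obtain ⟨C3, hC3, h3⟩ := dp_ms
  refine ⟨C1 * (3 * C3), by positivity, fun V A B c d a b hV hA hB ha hb hc hd => ?_⟩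
  have hV0 : 0 < V := by linarith
  have hc0 : 0 ≤ c := (norm_nonneg _).trans (hc 0)
  have hd0 : 0 ≤ d := (norm_nonneg _).trans (hd 0)
  have hlA : 0 ≤ Real.log A := Real.log_nonneg hA
  have hlB : 0 ≤ Real.log B := Real.log_nonneg hB
  obtain ⟨hW1, hW3, hwt⟩ := hw V hV
  obtain ⟨hia, hba⟩ := h3 (√8 * V) A c a hW1 hA ha hc
  obtain ⟨hib, hbb⟩ := h3 (√8 * V) B d b hW1 hB hb hd
  obtain ⟨h4, h5⟩ := cs_wt hC1 hV0 hwt (dp_cont ha) (dp_cont hb) hia hib hba hbb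
  refine ⟨h4, h5.trans ?_⟩
  have h12 : C3 * (c ^ 2 * ((√8 * V + A) * (1 + Real.log A))) *
      (C3 * (d ^ 2 * ((√8 * V + B) * (1 + Real.log B)))) ≤
      (3 * C3 * (c * d) * ((1 + Real.log A) * (1 + Real.log B))) ^ 2 * ((V + A) * (V + B)) := by
    have ha1 : (√8 * V + A) * (1 + Real.log A) ≤ 3 * (V + A) * (1 + Real.log A) ^ 2 := by
      have h14 : (√8 * V + A) * (1 + Real.log A) ≤ (3 * (V + A)) * (1 + Real.log A) :=
        mul_le_mul_of_nonneg_right (by linarith) (by linarith)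
      have h15 : (1 + Real.log A) ≤ (1 + Real.log A) ^ 2 := by nlinarith
      have h16 := mul_le_mul_of_nonneg_left h15 (show 0 ≤ 3 * (V + A) by linarith)
      linarith
    have hb1 : (√8 * V + B) * (1 + Real.log B) ≤ 3 * (V + B) * (1 + Real.log B) ^ 2 := by
      have h14 : (√8 * V + B) * (1 + Real.log B) ≤ (3 * (V + B)) * (1 + Real.log B) :=
        mul_le_mul_of_nonneg_right (by linarith) (by linarith)
      have h15 : (1 + Real.log B) ≤ (1 + Real.log B) ^ 2 := by nlinarith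
      have h16 := mul_le_mul_of_nonneg_left h15 (show 0 ≤ 3 * (V + B) by linarith)
      linarith
    have hm := mul_le_mul ha1 hb1 (by positivity) (by positivity)
    have hm2 := mul_le_mul_of_nonneg_left hm (show 0 ≤ C3 ^ 2 * c ^ 2 * d ^ 2 by positivity)
    calc _ = C3 ^ 2 * c ^ 2 * d ^ 2 * ((√8 * V + A) * (1 + Real.log A) *
          ((√8 * V + B) * (1 + Real.log B))) := by ring
      _ ≤ _ := hm2
      _ = _ := by ring
  have h20 : √((3 * C3 * (c * d) * ((1 + Real.log A) * (1 + Real.log B))) ^ 2 *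
      ((V + A) * (V + B))) = (3 * C3 * (c * d) * ((1 + Real.log A) * (1 + Real.log B))) *
      √((V + A) * (V + B)) := by
    rw [Real.sqrt_mul (by positivity), Real.sqrt_sq (by positivity)]
  have h19 := Real.sqrt_le_sqrt h12
  rw [h20] at h19
  calc C1 / V * √(C3 * (c ^ 2 * ((√8 * V + A) * (1 + Real.log A))) *
      (C3 * (d ^ 2 * ((√8 * V + B) * (1 + Real.log B)))))
      ≤ C1 / V * ((3 * C3 * (c * d) * ((1 + Real.log A) * (1 + Real.log B))) *
      √((V + A) * (V + B))) := mul_le_mul_of_nonneg_left h19 (by positivity)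
    _ = _ := by ring

end DAD
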