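import Pool.Agent.DAD.Mvf
import Pool.Agent.WYL.Ms3

set_option autoImplicit false

/-!
# DAD/Mvg: first moment of a function of degree at most 3 times a Dirichlet polynomial

Plan: as Mvf with `WYL.ms3` (`∫ exp (-(t/2^K)²) ‖G.L‖² ≤ C (2^K)^(3/2+ε)`, take `2^K ≥ 4 V`).
-/

open Complex MeasureTheory

namespace DAD

open HYM

private theorem mvg_ln_cont (c : ℝ) : Continuous (fun t : ℝ => ln c t) := by
  unfold ln
  fun_prop

private theorem mvg_L_cont (F : Sel) : Continuous (fun t : ℝ => F.L (ln (1 / 2) t)) := by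
  unfold Sel.L
  apply Continuous.div
  · exact F.P_diff.continuous.comp (mvg_ln_cont _)
  · exact ((mvg_ln_cont _).sub continuous_const).pow _
  · intro t
    apply pow_ne_zero
    intro h
    have h1 := congrArg Complex.re h
    rw [Complex.sub_re, ln_re] at h1
    norm_num at h1

theorem mvg (G : Sel) (hG : G.deg ≤ 3) {ε : ℝ} (hε : 0 < ε) : ∃ C : ℝ, 0 < C ∧
    ∀ (V B d : ℝ) (b : ArithmeticFunction ℂ),
    1 ≤ V → 1 ≤ B → (∀ n : ℕ, B < n → b n = 0) → (∀ n : ℕ, ‖b n‖ ≤ d) →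
    Integrable (fun t : ℝ => G.L (ln (1 / 2) t) * dp b t * wt V t) ∧
    ∫ t : ℝ, ‖G.L (ln (1 / 2) t) * dp b t * wt V t‖ ≤
      C * d * (√(V ^ (3 / 2 + ε) * (V + B)) / V) * (1 + Real.log B) := by
  obtain ⟨C1, hC1, hw⟩ := wt_bound
  obtain ⟨C2, hC2, h2⟩ := WYL.ms3 G hG hε
  obtain ⟨C3, hC3, h3⟩ := dp_ms
  refine ⟨C1 * √(3 * C2 * C3 * 8 ^ (3 / 2 + ε)), by positivity, fun V B d b hV hB hb hd => ?_⟩
  have hV0 : 0 < V := by linarith
  have hd0 : 0 ≤ d := (norm_nonneg _).trans (hd 0)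
  have hlB : 0 ≤ Real.log B := Real.log_nonneg hB
  obtain ⟨k, hk1, hk2⟩ := exists_nat_pow_near (x := 4 * V) (y := (2 : ℝ)) (by linarith)
    (by norm_num)
  have hK1 : 4 * V ≤ 2 ^ (k + 1) := hk2.le
  have hK2 : (2 : ℝ) ^ (k + 1) ≤ 8 * V := by rw [pow_succ]; linarith
  obtain ⟨hi2, hb2⟩ := h2 (k + 1) (by omega)
  obtain ⟨W, hWd⟩ : ∃ W : ℝ, W = √8 * V := ⟨_, rfl⟩
  have hs8 : √8 * √8 = 8 := Real.mul_self_sqrt (by norm_num)
  have hs8a : 1 ≤ √8 := by rw [Real.one_le_sqrt]; norm_num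
  have hs8b : √8 ≤ 3 := by rw [Real.sqrt_le_left (by norm_num)]; norm_num
  have hW1 : 1 ≤ W := by rw [hWd]; nlinarith
  have hW3 : W ≤ 3 * V := by rw [hWd]; nlinarith
  obtain ⟨hi3, hb3⟩ := h3 W B d b hW1 hB hb hd
  have hker : ∀ t : ℝ, Real.exp (-(t / (2 * V)) ^ 2 / 2) = Real.exp (-(t / W) ^ 2) := by
    intro t
    congr 1
    rw [hWd, div_pow, div_pow, mul_pow, mul_pow, sq (√8), hs8]
    field_simp
    ring
  have hker2 : ∀ t : ℝ, Real.exp (-(t / W) ^ 2) ≤ Real.exp (-(t / 2 ^ (k + 1)) ^ 2) := by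
    intro t
    apply Real.exp_le_exp.2
    have h4 : (t / 2 ^ (k + 1)) ^ 2 ≤ (t / W) ^ 2 := by
      rw [div_pow, div_pow]
      apply div_le_div_of_nonneg_left (sq_nonneg _) (by positivity)
      apply pow_le_pow_left₀ (by linarith)
      linarith
    linarith
  set g : ℝ → ℝ := fun t => ‖G.L (ln (1 / 2) t)‖ with hg
  set p : ℝ → ℝ := fun t => ‖dp b t‖ with hp
  have hgc : Continuous g := (mvg_L_cont G).norm
  have hpc : Continuous p := (dp_cont hb).norm
  have hig : Integrable (fun t => Real.exp (-(t / W) ^ 2) * g t ^ 2) ∧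
      ∫ t, Real.exp (-(t / W) ^ 2) * g t ^ 2 ≤ C2 * (8 * V) ^ (3 / 2 + ε) := by
    have h5 : ∀ t, Real.exp (-(t / W) ^ 2) * g t ^ 2 ≤
        Real.exp (-(t / 2 ^ (k + 1)) ^ 2) * ‖G.L (ln (1 / 2) t)‖ ^ 2 := fun t =>
      mul_le_mul_of_nonneg_right (hker2 t) (by positivity)
    have h6 : Integrable (fun t => Real.exp (-(t / W) ^ 2) * g t ^ 2) :=
      hi2.mono' (by fun_prop) (by
        filter_upwards with t
        rw [Real.norm_of_nonneg (by positivity)]
        exact h5 t)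
    refine ⟨h6, (integral_mono h6 hi2 h5).trans (hb2.trans ?_)⟩
    exact mul_le_mul_of_nonneg_left (Real.rpow_le_rpow (by positivity) hK2 (by linarith)) hC2.le
  have hmeas : Continuous (fun t : ℝ => G.L (ln (1 / 2) t) * dp b t * wt V t) :=
    ((mvg_L_cont G).mul (dp_cont hb)).mul (wt_cont V)
  have hpt : ∀ l : ℝ, 0 < l → ∀ t : ℝ, ‖G.L (ln (1 / 2) t) * dp b t * wt V t‖ ≤
      C1 / V * ((l * (Real.exp (-(t / W) ^ 2) * g t ^ 2) +
        (Real.exp (-(t / W) ^ 2) * p t ^ 2) / l) / 2) := by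
    intro l hl t
    rw [norm_mul, norm_mul]
    have h5 := hw V hV t
    rw [hker t] at h5
    have h6 : g t * p t ≤ (l * g t ^ 2 + p t ^ 2 / l) / 2 := by
      have h7 : 0 ≤ (l * g t - p t) ^ 2 / l := by positivity
      have h8 : (l * g t - p t) ^ 2 / l = l * g t ^ 2 - 2 * (g t * p t) + p t ^ 2 / l := by
        field_simp
        ring
      linarith
    have hg0 : 0 ≤ g t := norm_nonneg _
    have hp0 : 0 ≤ p t := norm_nonneg _
    calc ‖G.L (ln (1 / 2) t)‖ * ‖dp b t‖ * ‖wt V t‖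
        ≤ g t * p t * (C1 / V * Real.exp (-(t / W) ^ 2)) :=
          mul_le_mul_of_nonneg_left h5 (mul_nonneg hg0 hp0)
      _ ≤ (l * g t ^ 2 + p t ^ 2 / l) / 2 * (C1 / V * Real.exp (-(t / W) ^ 2)) :=
          mul_le_mul_of_nonneg_right h6 (by positivity)
      _ = _ := by ring
  have hint : ∀ l : ℝ, Integrable (fun t : ℝ => C1 / V * ((l * (Real.exp (-(t / W) ^ 2) * g t ^ 2) +
        (Real.exp (-(t / W) ^ 2) * p t ^ 2) / l) / 2)) := fun l =>
    (((hig.1.const_mul l).add (hi3.div_const l)).div_const 2).const_mul _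
  refine ⟨(hint 1).mono' hmeas.aestronglyMeasurable (by
    filter_upwards with t
    exact hpt 1 one_pos t), ?_⟩
  have hA : 0 < C2 * (8 * V) ^ (3 / 2 + ε) := by positivity
  have hBB : 0 ≤ C3 * (d ^ 2 * ((W + B) * (1 + Real.log B))) := by positivity
  have hopt : ∫ t : ℝ, ‖G.L (ln (1 / 2) t) * dp b t * wt V t‖ ≤ C1 / V *
      √(C2 * (8 * V) ^ (3 / 2 + ε) * (C3 * (d ^ 2 * ((W + B) * (1 + Real.log B))))) := by
    have hCV : 0 < C1 / V := by positivity
    rw [← div_le_iff₀' hCV]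
    refine amgm_opt hA.le hBB fun l hl => ?_
    rw [div_le_iff₀' hCV]
    have h9 : Integrable (fun t : ℝ => ‖G.L (ln (1 / 2) t) * dp b t * wt V t‖) :=
      ((hint l).mono' hmeas.aestronglyMeasurable (by
        filter_upwards with t
        exact hpt l hl t)).norm
    refine (integral_mono h9 (hint l) (hpt l hl)).trans ?_
    rw [integral_const_mul, integral_div, integral_add (hig.1.const_mul l) (hi3.div_const l),
      integral_const_mul, integral_div]
    refine mul_le_mul_of_nonneg_left ?_ hCV.le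
    have h10 := mul_le_mul_of_nonneg_left hig.2 hl.le
    have h11 := div_le_div_of_nonneg_right hb3 hl.le
    linarith
  refine hopt.trans ?_
  have hWB : W + B ≤ 3 * (V + B) := by linarith
  have h12 : C2 * (8 * V) ^ (3 / 2 + ε) * (C3 * (d ^ 2 * ((W + B) * (1 + Real.log B)))) ≤
      (3 * C2 * C3 * 8 ^ (3 / 2 + ε)) * (d * (1 + Real.log B)) ^ 2 *
        (V ^ (3 / 2 + ε) * (V + B)) := by
    rw [Real.mul_rpow (by norm_num) hV0.le]
    have h13 : (W + B) * (1 + Real.log B) ≤ 3 * (V + B) * (1 + Real.log B) ^ 2 := by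
      have h14 : (W + B) * (1 + Real.log B) ≤ (3 * (V + B)) * (1 + Real.log B) :=
        mul_le_mul_of_nonneg_right hWB (by linarith)
      have h15 : (1 + Real.log B) ≤ (1 + Real.log B) ^ 2 := by nlinarith
      have h16 := mul_le_mul_of_nonneg_left h15 (show 0 ≤ 3 * (V + B) by linarith)
      linarith
    have h17 : 0 ≤ C2 * (8 ^ (3 / 2 + ε) * V ^ (3 / 2 + ε)) * C3 * d ^ 2 := by positivity
    have h18 := mul_le_mul_of_nonneg_left h13 h17
    calc _ = C2 * (8 ^ (3 / 2 + ε) * V ^ (3 / 2 + ε)) * C3 * d ^ 2 *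
          ((W + B) * (1 + Real.log B)) := by ring
      _ ≤ _ := h18
      _ = _ := by ring
  have h20 : √((3 * C2 * C3 * 8 ^ (3 / 2 + ε)) * (d * (1 + Real.log B)) ^ 2 *
      (V ^ (3 / 2 + ε) * (V + B))) = √(3 * C2 * C3 * 8 ^ (3 / 2 + ε)) * (d * (1 + Real.log B)) *
      √(V ^ (3 / 2 + ε) * (V + B)) := by
    rw [Real.sqrt_mul (by positivity), Real.sqrt_mul (by positivity),
      Real.sqrt_sq (by positivity)]
  have h19 := Real.sqrt_le_sqrt h12
  rw [h20] at h19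
  calc C1 / V * √(C2 * (8 * V) ^ (3 / 2 + ε) * (C3 * (d ^ 2 * ((W + B) * (1 + Real.log B)))))
      ≤ C1 / V * (√(3 * C2 * C3 * 8 ^ (3 / 2 + ε)) * (d * (1 + Real.log B)) *
        √(V ^ (3 / 2 + ε) * (V + B))) := mul_le_mul_of_nonneg_left h19 (by positivity)
    _ = _ := by ring

end DAD
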