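import Pool.Agent.DAD.Vdi
import Pool.Agent.HYM.Chi

set_option autoImplicit false

/-!
# DAD/Phs: the oscillation of the factor of the functional equation

Plan. On `Re s = 1/2`, `chi (1/2+it) = om Q^(-2it) ∏_j conj Γ(z_j) / Γ(z_j)`, `z_j = lam_j/2 + mu_j + i lam_j t`,
`Re z_j > 0`. `Γ(z) = lim GammaSeq z n` (Mathlib `Complex.GammaSeq_tendsto_Gamma`), so
`conj Γ(z)/Γ(z) = lim exp (-2 i Im z log n) ∏_{k ≤ n} (z+k)/conj (z+k)`, and
`(z+k)/conj(z+k) = exp (2 i arctan (Im z/(Re z + k)))`. So `chi(1/2+it) y^(it) = lim_n c exp (i φ_n t)`, with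
`φ_n t = ∑_j (-2 Im z_j log n + 2 ∑_{k ≤ n} arctan (Im z_j/(Re z_j+k))) - 2 t log Q + t log y`,
`φ_n'' t = -4 ∑_j lam_j² ∑_{k≤n} (Re z_j+k) Im z_j / ((Re z_j+k)²+(Im z_j)²)²`, which for `t ≥ t0` (all
`Im z_j > 0`, `≥ 1`) and `n ≥ 2 T'` is `≤ -c/T` on `t ≤ T` (terms `k ∈ [Im z, 2 Im z]`). `vdc2` for `-φ_n`,
uniformly in `n`, then `n → ∞` (dominated convergence, modulus 1). Symmetric for `t ≤ -t0`; `|t| ≤ t0`
trivially.
-/

open Complex MeasureTheory Filter Topology

open scoped ComplexConjugate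

namespace DAD

open HYM

private lemma rot {c u : ℝ} (hc : 0 < c) :
    ((c : ℂ) + u * I) / ((c : ℂ) - u * I) =
      cexp (I * ((2 * Real.arctan (u / c) : ℝ) : ℂ)) := by
  set x : ℝ := u / c with hx
  have hcC : (c : ℂ) ≠ 0 := by exact_mod_cast hc.ne'
  have hu : (u : ℂ) = x * c := by
    rw [hx]; push_cast; field_simp
  have h1 : cexp (I * ((2 * Real.arctan x : ℝ) : ℂ)) =
      cexp (I * (Real.arctan x : ℂ)) * cexp (I * (Real.arctan x : ℂ)) := by
    rw [← Complex.exp_add]; congr 1; push_cast; ring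
  have h2 : cexp (I * (Real.arctan x : ℂ)) = (1 + x * I) / ((√(1 + x ^ 2) : ℝ) : ℂ) := by
    rw [mul_comm, Complex.exp_mul_I, ← Complex.ofReal_cos, ← Complex.ofReal_sin,
      Real.cos_arctan, Real.sin_arctan]
    push_cast
    ring
  have hpos : 0 < 1 + x ^ 2 := by positivity
  have h3 : ((√(1 + x ^ 2) : ℝ) : ℂ) * ((√(1 + x ^ 2) : ℝ) : ℂ) = (1 + x * I) * (1 - x * I) := by
    rw [← Complex.ofReal_mul, Real.mul_self_sqrt hpos.le]
    push_cast
    linear_combination (x : ℂ) ^ 2 * Complex.I_sq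
  have h4 : (1 + (x : ℂ) * I) ≠ 0 := by
    intro h
    have := congrArg Complex.re h
    simp at this
  have h5 : (1 - (x : ℂ) * I) ≠ 0 := by
    intro h
    have := congrArg Complex.re h
    simp at this
  rw [h1, h2, div_mul_div_comm, h3, hu]
  have h6 : ((c : ℂ) - x * c * I) = c * (1 - x * I) := by ring
  have h7 : ((c : ℂ) + x * c * I) = c * (1 + x * I) := by ring
  rw [h6, h7, mul_div_mul_left _ _ hcC, mul_div_mul_left _ _ h4]

private noncomputable def th (σ u : ℝ) (n : ℕ) : ℝ :=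
  -(2 * u * Real.log n) + ∑ k ∈ Finset.range (n + 1), 2 * Real.arctan (u / (σ + k))

private lemma gseq {σ u : ℝ} (hσ : 0 < σ) {n : ℕ} (hn : 0 < n) :
    conj (Complex.GammaSeq ((σ : ℂ) + u * I) n) / Complex.GammaSeq ((σ : ℂ) + u * I) n =
      cexp (I * (th σ u n : ℂ)) := by
  have hn0 : (n : ℂ) ≠ 0 := by exact_mod_cast hn.ne'
  have hk : ∀ k : ℕ, 0 < σ + k := fun k => by positivity
  have hE : conj ((n : ℂ) ^ ((σ : ℂ) + u * I)) / (n : ℂ) ^ ((σ : ℂ) + u * I) =
      cexp (I * ((-(2 * u * Real.log n) : ℝ) : ℂ)) := by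
    rw [Complex.cpow_def_of_ne_zero hn0, ← Complex.exp_conj, ← Complex.exp_sub]
    congr 1
    rw [← Complex.natCast_log]
    simp only [map_mul, map_add, Complex.conj_ofReal, Complex.conj_I]
    push_cast
    ring
  have hz : ∀ k : ℕ, ((σ : ℂ) + u * I + k) ≠ 0 := by
    intro k h
    have h1 := congrArg Complex.re h
    simp at h1
    have := hk k
    linarith
  have hP : (∏ k ∈ Finset.range (n + 1), ((σ : ℂ) + u * I + k)) /
      conj (∏ k ∈ Finset.range (n + 1), ((σ : ℂ) + u * I + k)) =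
      cexp (I * ((∑ k ∈ Finset.range (n + 1), 2 * Real.arctan (u / (σ + k)) : ℝ) : ℂ)) := by
    rw [map_prod, ← Finset.prod_div_distrib]
    push_cast
    rw [Finset.mul_sum, Complex.exp_sum]
    refine Finset.prod_congr rfl fun k _ => ?_
    have h1 := rot (u := u) (hk k)
    push_cast at h1
    rw [← h1]
    congr 1
    · ring
    · simp only [map_add, map_mul, Complex.conj_ofReal, Complex.conj_I, map_natCast]
      ring
  have hPne : (∏ k ∈ Finset.range (n + 1), ((σ : ℂ) + u * I + k)) ≠ 0 :=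
    Finset.prod_ne_zero_iff.2 fun k _ => hz k
  have hPne' : conj (∏ k ∈ Finset.range (n + 1), ((σ : ℂ) + u * I + k)) ≠ 0 :=
    (map_ne_zero _).2 hPne
  have hEne : (n : ℂ) ^ ((σ : ℂ) + u * I) ≠ 0 := by
    rw [Complex.cpow_def_of_ne_zero hn0]
    exact Complex.exp_ne_zero _
  have hf : ((n.factorial : ℕ) : ℂ) ≠ 0 := by exact_mod_cast n.factorial_ne_zero
  have hth : cexp (I * (th σ u n : ℂ)) =
      cexp (I * ((-(2 * u * Real.log n) : ℝ) : ℂ)) *
      cexp (I * ((∑ k ∈ Finset.range (n + 1), 2 * Real.arctan (u / (σ + k)) : ℝ) : ℂ)) := by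
    rw [← Complex.exp_add]
    congr 1
    unfold th
    push_cast
    ring
  rw [hth, ← hE, ← hP]
  unfold Complex.GammaSeq
  rw [map_div₀, map_mul, map_natCast]
  field_simp

private lemma gam_lim {σ : ℝ} (hσ : 0 < σ) (u : ℝ) :
    Tendsto (fun n : ℕ => cexp (I * (th σ u n : ℂ))) atTop
      (𝓝 (Gamma ((σ : ℂ) - u * I) * (Gamma ((σ : ℂ) + u * I))⁻¹)) := by
  have h0 : Gamma ((σ : ℂ) + u * I) ≠ 0 := by
    apply Complex.Gamma_ne_zero_of_re_pos
    simpa using hσ
  have h1 := Complex.GammaSeq_tendsto_Gamma ((σ : ℂ) + u * I)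
  have h2 : Tendsto (fun n => conj (Complex.GammaSeq ((σ : ℂ) + u * I) n)) atTop
      (𝓝 (conj (Gamma ((σ : ℂ) + u * I)))) := (Complex.continuous_conj.tendsto _).comp h1
  have h3 := h2.div h1 h0
  have h4 : conj (Gamma ((σ : ℂ) + u * I)) = Gamma ((σ : ℂ) - u * I) := by
    rw [← Complex.Gamma_conj]
    congr 1
    simp only [map_add, map_mul, Complex.conj_ofReal, Complex.conj_I]
    ring
  rw [h4, div_eq_mul_inv] at h3
  refine h3.congr' ?_
  filter_upwards [eventually_gt_atTop 0] with n hn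
  exact gseq hσ hn


/-! ## The phase and its derivatives -/

private noncomputable def ps {r : ℕ} (lam sig eta : Fin r → ℝ) (n : ℕ) (A B t : ℝ) : ℝ :=
  (∑ j, ∑ k ∈ Finset.range (n + 1), 2 * Real.arctan ((lam j * t + eta j) / (sig j + k))) +
    A * t + B

private noncomputable def ps1 {r : ℕ} (lam sig eta : Fin r → ℝ) (n : ℕ) (A t : ℝ) : ℝ :=
  (∑ j, ∑ k ∈ Finset.range (n + 1), 2 * lam j * (sig j + k) /
    ((sig j + k) ^ 2 + (lam j * t + eta j) ^ 2)) + A

private noncomputable def ps2 {r : ℕ} (lam sig eta : Fin r → ℝ) (n : ℕ) (t : ℝ) : ℝ :=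
  ∑ j, ∑ k ∈ Finset.range (n + 1), -(4 * lam j ^ 2 * ((sig j + k) * (lam j * t + eta j)) /
    ((sig j + k) ^ 2 + (lam j * t + eta j) ^ 2) ^ 2)

private lemma ps_deriv {r : ℕ} (lam sig eta : Fin r → ℝ) (hs : ∀ j, 0 < sig j) (n : ℕ)
    (A B t : ℝ) : HasDerivAt (ps lam sig eta n A B) (ps1 lam sig eta n A t) t := by
  unfold ps ps1
  apply HasDerivAt.add_const
  have hA : HasDerivAt (fun t : ℝ => A * t) A t := by
    simpa using (hasDerivAt_id t).const_mul A
  refine HasDerivAt.add ?_ hA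
  refine HasDerivAt.fun_sum fun j _ => HasDerivAt.fun_sum fun k _ => ?_
  have hc : 0 < sig j + k := by have := hs j; positivity
  have h1 : HasDerivAt (fun t : ℝ => (lam j * t + eta j) / (sig j + k)) (lam j / (sig j + k)) t := by
    have h2 : HasDerivAt (fun t : ℝ => lam j * t) (lam j) t := by
      simpa using (hasDerivAt_id t).const_mul (lam j)
    exact (h2.add_const (eta j)).div_const _
  have h3 := (h1.arctan).const_mul 2
  refine h3.congr_deriv ?_
  have h4 : (sig j + k) ^ 2 + (lam j * t + eta j) ^ 2 ≠ 0 := by positivity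
  have h5 : 1 + ((lam j * t + eta j) / (sig j + k)) ^ 2 ≠ 0 := by positivity
  field_simp

private lemma ps1_deriv {r : ℕ} (lam sig eta : Fin r → ℝ) (hs : ∀ j, 0 < sig j) (n : ℕ)
    (A t : ℝ) : HasDerivAt (ps1 lam sig eta n A) (ps2 lam sig eta n t) t := by
  unfold ps1 ps2
  apply HasDerivAt.add_const
  refine HasDerivAt.fun_sum fun j _ => HasDerivAt.fun_sum fun k _ => ?_
  have hc : 0 < sig j + k := by have := hs j; positivity
  have h2 : HasDerivAt (fun t : ℝ => lam j * t + eta j) (lam j) t := by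
    have h2 : HasDerivAt (fun t : ℝ => lam j * t) (lam j) t := by
      simpa using (hasDerivAt_id t).const_mul (lam j)
    exact h2.add_const (eta j)
  have h3 : HasDerivAt (fun t : ℝ => (sig j + k) ^ 2 + (lam j * t + eta j) ^ 2)
      (2 * (lam j * t + eta j) * lam j) t := by
    have := (h2.pow 2).const_add ((sig j + k) ^ 2)
    simpa using this
  have h4 : (sig j + k) ^ 2 + (lam j * t + eta j) ^ 2 ≠ 0 := by positivity
  have h5 := (hasDerivAt_const t (2 * lam j * (sig j + k))).div h3 h4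
  refine h5.congr_deriv ?_
  field_simp
  ring

private lemma ps2_cont {r : ℕ} (lam sig eta : Fin r → ℝ) (hs : ∀ j, 0 < sig j) (n : ℕ) :
    Continuous (ps2 lam sig eta n) := by
  unfold ps2
  refine continuous_finsetSum _ fun j _ => continuous_finsetSum _ fun k _ => ?_
  refine Continuous.neg ?_
  refine Continuous.div (by fun_prop) (by fun_prop) fun t => ?_
  have hc : 0 < sig j + k := by have := hs j; positivity
  positivity

/-- the lower bound for one gamma factor -/
private lemma lowk {σ u : ℝ} (hσ : 0 < σ) (h1 : 1 ≤ u) (h2 : σ ≤ u) {n : ℕ}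
    (hn : 2 * ⌈u⌉₊ ≤ n) :
    1 / (289 * u) ≤ ∑ k ∈ Finset.range (n + 1), (σ + k) * u / ((σ + k) ^ 2 + u ^ 2) ^ 2 := by
  have hu0 : 0 < u := by linarith
  set K : ℕ := ⌈u⌉₊ with hK
  have hKu : u ≤ K := Nat.le_ceil u
  have hKu' : (K : ℝ) < u + 1 := Nat.ceil_lt_add_one hu0.le
  have hsub : Finset.Ico K (2 * K) ⊆ Finset.range (n + 1) := by
    intro k hk
    rw [Finset.mem_Ico] at hk
    rw [Finset.mem_range]
    omega
  have hnn : ∀ k : ℕ, 0 ≤ (σ + k) * u / ((σ + k) ^ 2 + u ^ 2) ^ 2 := by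
    intro k
    have : 0 < σ + k := by positivity
    positivity
  refine le_trans ?_ (Finset.sum_le_sum_of_subset_of_nonneg hsub fun k _ _ => hnn k)
  have hterm : ∀ k ∈ Finset.Ico K (2 * K), 1 / (289 * u ^ 2) ≤
      (σ + k) * u / ((σ + k) ^ 2 + u ^ 2) ^ 2 := by
    intro k hk
    rw [Finset.mem_Ico] at hk
    have hk1 : (K : ℝ) ≤ k := by exact_mod_cast hk.1
    have hk2 : (k : ℝ) + 1 ≤ 2 * K := by
      have : k + 1 ≤ 2 * K := by omega
      exact_mod_cast this
    have hc1 : u ≤ σ + k := by linarith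
    have hc2 : σ + k ≤ 4 * u := by linarith
    have h3 : (σ + k) ^ 2 + u ^ 2 ≤ 17 * u ^ 2 := by nlinarith
    have h4 : ((σ + k) ^ 2 + u ^ 2) ^ 2 ≤ (17 * u ^ 2) ^ 2 :=
      pow_le_pow_left₀ (by positivity) h3 2
    have h5 : 0 < (σ + k) ^ 2 + u ^ 2 := by positivity
    rw [div_le_div_iff₀ (by positivity) (by positivity), one_mul]
    calc ((σ + k) ^ 2 + u ^ 2) ^ 2 ≤ (17 * u ^ 2) ^ 2 := h4
      _ = u * u * (289 * u ^ 2) := by ring
      _ ≤ (σ + k) * u * (289 * u ^ 2) := by gcongr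
  calc 1 / (289 * u) = u * (1 / (289 * u ^ 2)) := by field_simp
    _ ≤ K * (1 / (289 * u ^ 2)) := by gcongr
    _ = ∑ k ∈ Finset.Ico K (2 * K), 1 / (289 * u ^ 2) := by
      rw [Finset.sum_const, Nat.card_Ico, nsmul_eq_mul]
      congr 2
      omega
    _ ≤ _ := Finset.sum_le_sum hterm

private lemma osc {r : ℕ} (lam sig eta : Fin r → ℝ) (hl : ∀ j, 0 < lam j)
    (hs : ∀ j, 0 < sig j) (hr : 0 < r) :
    ∃ C t0 : ℝ, 0 < C ∧ 0 < t0 ∧ ∀ T a b : ℝ, 1 ≤ T → t0 ≤ a → a ≤ b → b ≤ T →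
      ∃ N : ℕ, ∀ n ≥ N, ∀ A B : ℝ,
        ‖∫ t in a..b, cexp (I * (ps lam sig eta n A B t : ℂ))‖ ≤ C * √T := by
  set i0 : Fin r := ⟨0, hr⟩
  set c0 : ℝ := 4 * lam i0 ^ 2 / (289 * (lam i0 + |eta i0|)) with hc0
  have hden : 0 < lam i0 + |eta i0| := by have := hl i0; positivity
  have hc0p : 0 < c0 := by have := hl i0; positivity
  set t0 : ℝ := 1 + ∑ j, (1 + sig j + |eta j|) / lam j with ht0
  have hterm : ∀ j, 0 < (1 + sig j + |eta j|) / lam j := by
    intro j
    have := hl j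
    have := hs j
    positivity
  have ht0p : 0 < t0 := by
    have := Finset.sum_nonneg fun j (_ : j ∈ Finset.univ) => (hterm j).le
    rw [ht0]; linarith
  have hu : ∀ j t, t0 ≤ t → 1 + sig j ≤ lam j * t + eta j := by
    intro j t ht
    have h1 : (1 + sig j + |eta j|) / lam j ≤ ∑ j, (1 + sig j + |eta j|) / lam j :=
      Finset.single_le_sum (f := fun j => (1 + sig j + |eta j|) / lam j)
        (fun j _ => (hterm j).le) (Finset.mem_univ j)
    have h2 : (1 + sig j + |eta j|) / lam j ≤ t := by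
      rw [ht0] at ht; linarith
    rw [div_le_iff₀ (hl j)] at h2
    have := neg_abs_le (eta j)
    linarith
  refine ⟨10 / √c0, t0, by positivity, ht0p, ?_⟩
  intro T a b hT ha hab hb
  refine ⟨2 * ⌈(lam i0 + |eta i0|) * T⌉₊, ?_⟩
  intro n hn A B
  have hT0 : 0 < T := by linarith
  have hneg : ‖∫ t in a..b, cexp (I * (ps lam sig eta n A B t : ℂ))‖ =
      ‖∫ t in a..b, cexp (I * ((-ps lam sig eta n A B t : ℝ) : ℂ))‖ := by
    have h1 : (∫ t in a..b, cexp (I * ((-ps lam sig eta n A B t : ℝ) : ℂ))) =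
        conj (∫ t in a..b, cexp (I * (ps lam sig eta n A B t : ℂ))) := by
      rw [intervalIntegral.integral_of_le hab, intervalIntegral.integral_of_le hab,
        ← integral_conj]
      congr 1
      ext t
      rw [← Complex.exp_conj]
      congr 1
      simp only [map_mul, Complex.conj_ofReal, Complex.conj_I]
      push_cast
      ring
    rw [h1, RCLike.norm_conj]
  rw [hneg]
  have hkey := vdc2 (a := a) (b := b) (lam := c0 / T) hab (by positivity)
    (fun t => -ps lam sig eta n A B t) (fun t => -ps1 lam sig eta n A t)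
    (fun t => -ps2 lam sig eta n t)
    (fun t _ => (ps_deriv lam sig eta hs n A B t).neg)
    (fun t _ => (ps1_deriv lam sig eta hs n A t).neg)
    ((ps2_cont lam sig eta hs n).neg.continuousOn) ?_
  · refine hkey.trans (le_of_eq ?_)
    rw [Real.sqrt_div hc0p.le]
    field_simp
  · intro t ht
    have htt : t0 ≤ t := ha.trans ht.1
    have htT : t ≤ T := ht.2.trans hb
    have hnn : ∀ j, ∀ k : ℕ, 0 ≤ 4 * lam j ^ 2 * ((sig j + k) * (lam j * t + eta j)) /
        ((sig j + k) ^ 2 + (lam j * t + eta j) ^ 2) ^ 2 := by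
      intro j k
      have h1 : 0 < sig j + k := by have := hs j; positivity
      have h2 : 0 ≤ lam j * t + eta j := by have := hu j t htt; have := hs j; linarith
      positivity
    have h1 : -ps2 lam sig eta n t = ∑ j, ∑ k ∈ Finset.range (n + 1),
        (4 * lam j ^ 2 * ((sig j + k) * (lam j * t + eta j)) /
          ((sig j + k) ^ 2 + (lam j * t + eta j) ^ 2) ^ 2) := by
      unfold ps2
      simp only [Finset.sum_neg_distrib, neg_neg]
    rw [h1]
    have h2 : ∑ k ∈ Finset.range (n + 1),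
        (4 * lam i0 ^ 2 * ((sig i0 + k) * (lam i0 * t + eta i0)) /
          ((sig i0 + k) ^ 2 + (lam i0 * t + eta i0) ^ 2) ^ 2) ≤
        ∑ j, ∑ k ∈ Finset.range (n + 1),
        (4 * lam j ^ 2 * ((sig j + k) * (lam j * t + eta j)) /
          ((sig j + k) ^ 2 + (lam j * t + eta j) ^ 2) ^ 2) :=
      Finset.single_le_sum (f := fun j => ∑ k ∈ Finset.range (n + 1),
        (4 * lam j ^ 2 * ((sig j + k) * (lam j * t + eta j)) /
          ((sig j + k) ^ 2 + (lam j * t + eta j) ^ 2) ^ 2))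
        (fun j _ => Finset.sum_nonneg fun k _ => hnn j k) (Finset.mem_univ i0)
    refine le_trans ?_ h2
    have hu0 := hu i0 t htt
    have hs0 := hs i0
    have hl0 := hl i0
    set u : ℝ := lam i0 * t + eta i0 with hudef
    have hu1 : 1 ≤ u := by linarith
    have hu2 : sig i0 ≤ u := by linarith
    have huT : u ≤ (lam i0 + |eta i0|) * T := by
      have h3 := le_abs_self (eta i0)
      have h4 := abs_nonneg (eta i0)
      rw [hudef]
      nlinarith
    have h3 : 2 * ⌈u⌉₊ ≤ n := by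
      have := Nat.ceil_le_ceil huT
      omega
    have h4 := lowk hs0 hu1 hu2 h3
    have h5 : ∑ k ∈ Finset.range (n + 1), (4 * lam i0 ^ 2 * ((sig i0 + k) * u) /
        ((sig i0 + k) ^ 2 + u ^ 2) ^ 2) = 4 * lam i0 ^ 2 *
        ∑ k ∈ Finset.range (n + 1), (sig i0 + k) * u / ((sig i0 + k) ^ 2 + u ^ 2) ^ 2 := by
      rw [Finset.mul_sum]
      exact Finset.sum_congr rfl fun k _ => by ring
    rw [h5]
    refine le_trans ?_ (mul_le_mul_of_nonneg_left h4 (by positivity))
    rw [hc0, div_div, mul_one_div]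
    apply div_le_div_of_nonneg_left (by positivity) (by positivity)
    nlinarith


private lemma nconj (f : ℝ → ℝ) {a b : ℝ} (hab : a ≤ b) :
    ‖∫ t in a..b, cexp (I * ((-f t : ℝ) : ℂ))‖ = ‖∫ t in a..b, cexp (I * (f t : ℂ))‖ := by
  have h1 : (∫ t in a..b, cexp (I * ((-f t : ℝ) : ℂ))) =
      conj (∫ t in a..b, cexp (I * (f t : ℂ))) := by
    rw [intervalIntegral.integral_of_le hab, intervalIntegral.integral_of_le hab,
      ← integral_conj]
    congr 1
    ext t
    rw [← Complex.exp_conj]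
    congr 1
    simp only [map_mul, Complex.conj_ofReal, Complex.conj_I]
    push_cast
    ring
  rw [h1, RCLike.norm_conj]

private lemma ps_neg {r : ℕ} (lam sig eta : Fin r → ℝ) (n : ℕ) (A B t : ℝ) :
    ps lam sig eta n A B (-t) = -ps lam sig (fun j => -eta j) n A (-B) t := by
  unfold ps
  have h1 : ∀ j, ∀ k : ℕ, 2 * Real.arctan ((lam j * -t + eta j) / (sig j + k)) =
      -(2 * Real.arctan ((lam j * t + -eta j) / (sig j + k))) := by
    intro j k
    have h2 : (lam j * -t + eta j) / (sig j + k) = -((lam j * t + -eta j) / (sig j + k)) := by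
      ring
    rw [h2, Real.arctan_neg]
    ring
  simp only [h1, Finset.sum_neg_distrib]
  ring

private lemma osc_neg {r : ℕ} (lam sig eta : Fin r → ℝ) (hl : ∀ j, 0 < lam j)
    (hs : ∀ j, 0 < sig j) (hr : 0 < r) :
    ∃ C t0 : ℝ, 0 < C ∧ 0 < t0 ∧ ∀ T a b : ℝ, 1 ≤ T → -T ≤ a → a ≤ b → b ≤ -t0 →
      ∃ N : ℕ, ∀ n ≥ N, ∀ A B : ℝ,
        ‖∫ t in a..b, cexp (I * (ps lam sig eta n A B t : ℂ))‖ ≤ C * √T := by
  obtain ⟨C, t0, hC, ht0, h⟩ := osc lam sig (fun j => -eta j) hl hs hr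
  refine ⟨C, t0, hC, ht0, ?_⟩
  intro T a b hT ha hab hb
  obtain ⟨N, hN⟩ := h T (-b) (-a) hT (by linarith) (by linarith) (by linarith)
  refine ⟨N, fun n hn A B => ?_⟩
  have h1 : (∫ t in a..b, cexp (I * (ps lam sig eta n A B t : ℂ))) =
      ∫ t in (-b)..(-a), cexp (I * ((-ps lam sig (fun j => -eta j) n A (-B) t : ℝ) : ℂ)) := by
    rw [← intervalIntegral.integral_comp_neg]
    refine intervalIntegral.integral_congr fun t _ => ?_
    rw [← ps_neg, neg_neg]
  rw [h1, nconj _ (by linarith)]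
  exact hN n hn A (-B)

/-! ## The factor of the functional equation as a limit -/

private noncomputable def Ac (F : Sel) (y : ℝ) (n : ℕ) : ℝ :=
  -(2 * ∑ j, F.lam j * Real.log n) + Real.log y - 2 * Real.log F.Q

private noncomputable def Bc (F : Sel) (n : ℕ) : ℝ := -(2 * ∑ j, (F.mu j).im * Real.log n)

private noncomputable def sg (F : Sel) (j : Fin F.r) : ℝ := F.lam j / 2 + (F.mu j).re

private noncomputable def et (F : Sel) (j : Fin F.r) : ℝ := (F.mu j).im

private lemma sg_pos (F : Sel) (j : Fin F.r) : 0 < sg F j := by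
  have h1 := F.lam_pos j
  have h2 := F.mu_re j
  unfold sg
  positivity

private lemma chi_lim (F : Sel) (t : ℝ) {y : ℝ} (hy : 0 < y) :
    Tendsto (fun n : ℕ => F.om * cexp (I * (ps F.lam (sg F) (et F) n (Ac F y n) (Bc F n) t : ℂ)))
      atTop (𝓝 (F.chi (ln (1 / 2) t) * (y : ℂ) ^ ((t : ℂ) * I))) := by
  have h1 : Tendsto (fun n : ℕ => ∏ j, cexp (I * (th (sg F j) (F.lam j * t + et F j) n : ℂ)))
      atTop (𝓝 (∏ j, (Gamma ((sg F j : ℂ) - (F.lam j * t + et F j : ℝ) * I) *
        (Gamma ((sg F j : ℂ) + (F.lam j * t + et F j : ℝ) * I))⁻¹))) :=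
    tendsto_finsetProd _ fun j _ => gam_lim (sg_pos F j) _
  have h2 := (h1.const_mul (F.om * (F.Q : ℂ) ^ (1 - 2 * ln (1 / 2) t))).mul_const
    ((y : ℂ) ^ ((t : ℂ) * I))
  have h3 : F.chi (ln (1 / 2) t) = F.om * (F.Q : ℂ) ^ (1 - 2 * ln (1 / 2) t) *
      ∏ j, (Gamma ((sg F j : ℂ) - (F.lam j * t + et F j : ℝ) * I) *
        (Gamma ((sg F j : ℂ) + (F.lam j * t + et F j : ℝ) * I))⁻¹) := by
    unfold Sel.chi
    congr 1
    refine Finset.prod_congr rfl fun j _ => ?_
    congr 2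
    · unfold sg et ln
      apply Complex.ext
      · simp
        ring
      · simp
        ring
    · congr 1
      unfold sg et ln
      apply Complex.ext
      · simp
        ring
      · simp
  rw [h3]
  refine h2.congr fun n => ?_
  have hQ : (F.Q : ℂ) ≠ 0 := by exact_mod_cast F.Q_pos.ne'
  have hy0 : (y : ℂ) ≠ 0 := by exact_mod_cast hy.ne'
  rw [Complex.cpow_def_of_ne_zero hQ, Complex.cpow_def_of_ne_zero hy0,
    ← Complex.ofReal_log F.Q_pos.le, ← Complex.ofReal_log hy.le, ← Complex.exp_sum]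
  rw [mul_assoc F.om, mul_assoc F.om, ← Complex.exp_add, ← Complex.exp_add]
  congr 2
  rw [← Finset.mul_sum, ← Complex.ofReal_sum]
  have h4 : ∑ j, th (sg F j) (F.lam j * t + et F j) n =
      (∑ j, ∑ k ∈ Finset.range (n + 1), 2 * Real.arctan ((F.lam j * t + et F j) / (sg F j + k))) -
      (2 * ∑ j, F.lam j * Real.log n) * t - (2 * ∑ j, (F.mu j).im * Real.log n) := by
    unfold th
    rw [Finset.sum_add_distrib]
    have h5 : ∑ j, -(2 * (F.lam j * t + et F j) * Real.log n) =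
        -(2 * ∑ j, F.lam j * Real.log n) * t - (2 * ∑ j, (F.mu j).im * Real.log n) := by
      rw [Finset.mul_sum, Finset.mul_sum, neg_mul, Finset.sum_mul, ← Finset.sum_neg_distrib,
        ← Finset.sum_sub_distrib]
      refine Finset.sum_congr rfl fun j _ => ?_
      unfold et
      ring
    rw [h5]
    ring
  rw [h4]
  unfold ps Ac Bc ln
  push_cast
  ring

private lemma g_norm (F : Sel) (n : ℕ) (A B t : ℝ) :
    ‖F.om * cexp (I * (ps F.lam (sg F) (et F) n A B t : ℂ))‖ = 1 := by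
  rw [norm_mul, F.om_norm, one_mul, mul_comm, Complex.norm_exp_ofReal_mul_I]

private lemma int_lim (F : Sel) {y : ℝ} (hy : 0 < y) (a b : ℝ) :
    Tendsto (fun n : ℕ => ∫ t in a..b,
        F.om * cexp (I * (ps F.lam (sg F) (et F) n (Ac F y n) (Bc F n) t : ℂ)))
      atTop (𝓝 (∫ t in a..b, F.chi (ln (1 / 2) t) * (y : ℂ) ^ ((t : ℂ) * I))) := by
  refine intervalIntegral.tendsto_integral_filter_of_dominated_convergence (fun _ => 1) ?_ ?_ ?_ ?_
  · refine Eventually.of_forall fun n => ?_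
    refine Continuous.aestronglyMeasurable ?_
    have h1 : Continuous (ps F.lam (sg F) (et F) n (Ac F y n) (Bc F n)) := by
      rw [continuous_iff_continuousAt]
      intro t
      exact (ps_deriv F.lam (sg F) (et F) (sg_pos F) n _ _ t).continuousAt
    fun_prop
  · refine Eventually.of_forall fun n => Eventually.of_forall fun t _ => ?_
    rw [g_norm]
  · exact intervalIntegrable_const
  · exact Eventually.of_forall fun t _ => chi_lim F t hy

private lemma bd_of (F : Sel) {y : ℝ} (hy : 0 < y) {a b M : ℝ}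
    (h : ∃ N : ℕ, ∀ n ≥ N, ∀ A B : ℝ,
      ‖∫ t in a..b, cexp (I * (ps F.lam (sg F) (et F) n A B t : ℂ))‖ ≤ M) :
    ‖∫ t in a..b, F.chi (ln (1 / 2) t) * (y : ℂ) ^ ((t : ℂ) * I)‖ ≤ M := by
  obtain ⟨N, hN⟩ := h
  refine le_of_tendsto (int_lim F hy a b).norm ?_
  filter_upwards [eventually_ge_atTop N] with n hn
  rw [intervalIntegral.integral_const_mul, norm_mul, F.om_norm, one_mul]
  exact hN n hn _ _

private lemma g_cont (F : Sel) {y : ℝ} (hy : 0 < y) :
    Continuous fun t : ℝ => F.chi (ln (1 / 2) t) * (y : ℂ) ^ ((t : ℂ) * I) := by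
  have h1 : Continuous fun t : ℝ => F.chi (ln (1 / 2) t) := by
    refine (chi_diff F).continuousOn.comp_continuous ?_ ?_
    · unfold ln
      fun_prop
    · intro t
      simp only [Set.mem_ofPred_eq, ln_re]
      norm_num
  have hy0 : (y : ℂ) ≠ 0 := by exact_mod_cast hy.ne'
  have h2 : Continuous fun t : ℝ => (y : ℂ) ^ ((t : ℂ) * I) := by
    have : (fun t : ℝ => (y : ℂ) ^ ((t : ℂ) * I)) =
        fun t : ℝ => cexp (Complex.log y * ((t : ℂ) * I)) := by
      ext t
      rw [Complex.cpow_def_of_ne_zero hy0]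
    rw [this]
    fun_prop
  exact h1.mul h2

private lemma triv_bd (F : Sel) {y : ℝ} (hy : 0 < y) {a b : ℝ} (hab : a ≤ b) :
    ‖∫ t in a..b, F.chi (ln (1 / 2) t) * (y : ℂ) ^ ((t : ℂ) * I)‖ ≤ b - a := by
  have h1 : ∀ t : ℝ, ‖F.chi (ln (1 / 2) t) * (y : ℂ) ^ ((t : ℂ) * I)‖ ≤ 1 := by
    intro t
    refine le_of_tendsto (chi_lim F t hy).norm (Eventually.of_forall fun n => ?_)
    rw [g_norm]
  have h2 := intervalIntegral.norm_integral_le_of_norm_le_const (a := a) (b := b) (C := 1)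
    (f := fun t : ℝ => F.chi (ln (1 / 2) t) * (y : ℂ) ^ ((t : ℂ) * I)) fun t _ => h1 t
  rwa [one_mul, abs_of_nonneg (by linarith)] at h2

theorem chi_osc (F : Sel) (hF : 0 < F.deg) : ∃ C : ℝ, 0 < C ∧ ∀ T a b y : ℝ, 1 ≤ T →
    -T ≤ a → a ≤ b → b ≤ T → 0 < y →
    ‖∫ t in a..b, F.chi (ln (1 / 2) t) * (y : ℂ) ^ ((t : ℂ) * I)‖ ≤ C * √T := by
  have hr : 0 < F.r := by
    rcases Nat.eq_zero_or_pos F.r with h | h
    · exfalso
      unfold Sel.deg at hF
      have : IsEmpty (Fin F.r) := by rw [h]; infer_instance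
      rw [Finset.univ_eq_empty, Finset.sum_empty] at hF
      simp at hF
    · exact h
  obtain ⟨C1, t1, hC1, ht1, h1⟩ := osc F.lam (sg F) (et F) F.lam_pos (sg_pos F) hr
  obtain ⟨C2, t2, hC2, ht2, h2⟩ := osc_neg F.lam (sg F) (et F) F.lam_pos (sg_pos F) hr
  refine ⟨C1 + C2 + (t1 + t2), by positivity, ?_⟩
  intro T a b y hT ha hab hb hy
  have hsT : 1 ≤ √T := Real.one_le_sqrt.2 hT
  have hsT0 : 0 ≤ √T := Real.sqrt_nonneg T
  set p : ℝ := max a (min b (-t2)) with hp
  set q : ℝ := max a (min b t1) with hq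
  have hap : a ≤ p := le_max_left _ _
  have hpq : p ≤ q := max_le_max le_rfl (min_le_min le_rfl (by linarith))
  have hqb : q ≤ b := max_le hab (min_le_left _ _)
  have hint : ∀ u v : ℝ, IntervalIntegrable
      (fun t : ℝ => F.chi (ln (1 / 2) t) * (y : ℂ) ^ ((t : ℂ) * I)) volume u v :=
    fun u v => (g_cont F hy).intervalIntegrable u v
  rw [← intervalIntegral.integral_add_adjacent_intervals (hint a p) (hint p b),
    ← intervalIntegral.integral_add_adjacent_intervals (hint p q) (hint q b)]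
  have e1 : ‖∫ t in a..p, F.chi (ln (1 / 2) t) * (y : ℂ) ^ ((t : ℂ) * I)‖ ≤ C2 * √T := by
    rcases le_total a (min b (-t2)) with h | h
    · have hp' : p ≤ -t2 := by rw [hp, max_eq_right h]; exact min_le_right _ _
      exact bd_of F hy (h2 T a p hT ha hap hp')
    · have hp' : p = a := by rw [hp, max_eq_left h]
      rw [hp', intervalIntegral.integral_same, norm_zero]
      positivity
  have e2 : ‖∫ t in p..q, F.chi (ln (1 / 2) t) * (y : ℂ) ^ ((t : ℂ) * I)‖ ≤ (t1 + t2) * √T := by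
    refine (triv_bd F hy hpq).trans ?_
    have h3 : q - p ≤ t1 + t2 := by
      rw [hp, hq]
      rcases le_total a (min b t1) with h | h
      · rw [max_eq_right h]
        have h4 : min b (-t2) ≤ max a (min b (-t2)) := le_max_right _ _
        rcases le_total b (-t2) with h5 | h5
        · rw [min_eq_left h5] at h4 ⊢
          have h6 : min b t1 ≤ b := min_le_left _ _
          linarith
        · rw [min_eq_right h5] at h4 ⊢
          have h6 : min b t1 ≤ t1 := min_le_right _ _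
          linarith
      · rw [max_eq_left h]
        have h4 : a ≤ max a (min b (-t2)) := le_max_left _ _
        linarith
    calc q - p ≤ t1 + t2 := h3
      _ = (t1 + t2) * 1 := by ring
      _ ≤ (t1 + t2) * √T := by gcongr
  have e3 : ‖∫ t in q..b, F.chi (ln (1 / 2) t) * (y : ℂ) ^ ((t : ℂ) * I)‖ ≤ C1 * √T := by
    rcases le_total b t1 with h | h
    · have hq' : q = b := by rw [hq, min_eq_left h, max_eq_right hab]
      rw [hq', intervalIntegral.integral_same, norm_zero]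
      positivity
    · have hq' : t1 ≤ q := by rw [hq, min_eq_right h]; exact le_max_right _ _
      exact bd_of F hy (h1 T q b hT hq' hqb hb)
  calc _ ≤ ‖∫ t in a..p, F.chi (ln (1 / 2) t) * (y : ℂ) ^ ((t : ℂ) * I)‖ +
        (‖∫ t in p..q, F.chi (ln (1 / 2) t) * (y : ℂ) ^ ((t : ℂ) * I)‖ +
        ‖∫ t in q..b, F.chi (ln (1 / 2) t) * (y : ℂ) ^ ((t : ℂ) * I)‖) :=
        (norm_add_le _ _).trans (by gcongr; exact norm_add_le _ _)
    _ ≤ C2 * √T + ((t1 + t2) * √T + C1 * √T) := by gcongr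
    _ = (C1 + C2 + (t1 + t2)) * √T := by ring

end DAD
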