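import Pool.Agent.HYM.MainB

set_option autoImplicit false

/-!
# DAD/Sc: the smooth cutoff

`psi R a b x = Phi R (log (x/a)) - Phi R (log (x/b))` is the convolution of the Gaussian density with
the indicator function of `[log a, log b]` (in `log x`), so its Mellin transform is
`exp (z²/R²) ∫_{log a}^{log b} exp (z w) dw`. On the line `Re s = -A` (`A` large in terms of `δ`, `Bd`)
`F.EV Y x - F.L 0 = vint (-A) (F.full A Y) x`, and the integral in question is
`∫∫ Lam t₁ F.full A Y t₂ (Mellin transform at 3/2 - A + i (t₁ + t₂))`.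
-/

open Complex MeasureTheory

namespace DAD

open HYM

/-- The smooth cutoff of `[a, b]`. -/
noncomputable def psi (R a b x : ℝ) : ℝ := Phi R (Real.log (x / a)) - Phi R (Real.log (x / b))

/-! ## The Mellin transform of the cutoff -/

private theorem psi_exp {R a b : ℝ} (hR : 0 < R) (ha : 0 < a) (hb : 0 < b) (y : ℝ) :
    psi R a b (Real.exp y) = ∫ w in Real.log a..Real.log b, kV R (y - w) := by
  unfold psi Phi
  rw [Real.log_div (Real.exp_pos y).ne' ha.ne', Real.log_div (Real.exp_pos y).ne' hb.ne',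
    Real.log_exp, intervalIntegral.integral_comp_sub_left (fun u => kV R u) y,
    intervalIntegral.integral_Iic_sub_Iic (kV_integrable hR).integrableOn
      (kV_integrable hR).integrableOn]

private theorem J_integrable {R : ℝ} (hR : 0 < R) (z : ℂ) :
    Integrable fun u : ℝ => (kV R u : ℂ) * cexp (z * u) := by
  have h1 := kV_exp_integrable hR |z.re|
  have hc : Continuous fun u : ℝ => (kV R u : ℂ) * cexp (z * u) := by
    have := EVq_kV_cont R
    fun_prop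
  refine h1.mono' hc.aestronglyMeasurable (Filter.Eventually.of_forall fun u => ?_)
  rw [norm_mul, Complex.norm_real, Real.norm_of_nonneg (kV_pos hR u).le, Complex.norm_exp]
  refine mul_le_mul_of_nonneg_left (Real.exp_le_exp.2 ?_) (kV_pos hR u).le
  rw [Complex.re_mul_ofReal, ← abs_mul]
  exact le_abs_self _

private theorem J_integral {R : ℝ} (hR : 0 < R) (z : ℂ) :
    ∫ u : ℝ, (kV R u : ℂ) * cexp (z * u) = cexp (z ^ 2 / (R : ℂ) ^ 2) := by
  have h := kV_mgf hR (-z)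
  rw [neg_sq] at h
  rw [← h]
  refine integral_congr_ae (Filter.Eventually.of_forall fun u => ?_)
  simp only [neg_mul, neg_neg]

private theorem mel_y {R a b : ℝ} (hR : 0 < R) (ha : 0 < a) (hab : a ≤ b) (z : ℂ) :
    Integrable (fun y : ℝ => (psi R a b (Real.exp y) : ℂ) * cexp (z * y)) ∧
    ∫ y : ℝ, (psi R a b (Real.exp y) : ℂ) * cexp (z * y) =
      cexp (z ^ 2 / (R : ℂ) ^ 2) * ∫ w in Set.Ioc (Real.log a) (Real.log b), cexp (z * w) := by
  have hb : 0 < b := ha.trans_le hab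
  have hl : Real.log a ≤ Real.log b := Real.log_le_log ha hab
  set μ : Measure ℝ := volume.restrict (Set.Ioc (Real.log a) (Real.log b)) with hμ
  have hfw : ∀ w : ℝ, (fun y : ℝ => (kV R (y - w) : ℂ) * cexp (z * y)) =
      fun y : ℝ => cexp (z * w) * ((kV R (y - w) : ℂ) * cexp (z * ((y - w : ℝ) : ℂ))) := by
    intro w
    funext y
    rw [mul_left_comm, ← Complex.exp_add]
    congr 2
    push_cast
    ring
  have hiw : ∀ w : ℝ, Integrable fun y : ℝ => (kV R (y - w) : ℂ) * cexp (z * y) := by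
    intro w
    rw [hfw]
    exact ((J_integrable hR z).comp_sub_right w).const_mul _
  have hvw : ∀ w : ℝ, ∫ y : ℝ, (kV R (y - w) : ℂ) * cexp (z * y) =
      cexp (z * w) * cexp (z ^ 2 / (R : ℂ) ^ 2) := by
    intro w
    rw [hfw, integral_const_mul,
      integral_sub_right_eq_self (fun u : ℝ => (kV R u : ℂ) * cexp (z * u)), J_integral hR]
  have hnw : ∀ w : ℝ, ∫ y : ℝ, ‖(kV R (y - w) : ℂ) * cexp (z * y)‖ =
      ‖cexp (z * w)‖ * ∫ u : ℝ, ‖(kV R u : ℂ) * cexp (z * u)‖ := by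
    intro w
    have e : ∀ y : ℝ, ‖(kV R (y - w) : ℂ) * cexp (z * y)‖ =
        ‖cexp (z * w)‖ * ‖(kV R (y - w) : ℂ) * cexp (z * ((y - w : ℝ) : ℂ))‖ := by
      intro y
      rw [← norm_mul]
      exact congrArg _ (congrFun (hfw w) y)
    simp_rw [e]
    rw [integral_const_mul,
      integral_sub_right_eq_self (fun u : ℝ => ‖(kV R u : ℂ) * cexp (z * u)‖)]
  have hint : Integrable (Function.uncurry fun (w y : ℝ) => (kV R (y - w) : ℂ) * cexp (z * y))
      (μ.prod volume) := by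
    have hm : AEStronglyMeasurable
        (Function.uncurry fun (w y : ℝ) => (kV R (y - w) : ℂ) * cexp (z * y)) (μ.prod volume) := by
      apply Continuous.aestronglyMeasurable
      have := EVq_kV_cont R
      fun_prop
    refine (integrable_prod_iff hm).2 ⟨Filter.Eventually.of_forall fun w => hiw w, ?_⟩
    have e : (fun w : ℝ => ∫ y : ℝ, ‖Function.uncurry
        (fun (w y : ℝ) => (kV R (y - w) : ℂ) * cexp (z * y)) (w, y)‖) =
        fun w : ℝ => ‖cexp (z * w)‖ * ∫ u : ℝ, ‖(kV R u : ℂ) * cexp (z * u)‖ := by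
      funext w
      exact hnw w
    rw [e]
    have hc : Continuous fun w : ℝ => ‖cexp (z * w)‖ * ∫ u : ℝ, ‖(kV R u : ℂ) * cexp (z * u)‖ := by
      fun_prop
    exact (hc.integrableOn_Icc).mono_set Set.Ioc_subset_Icc_self
  have hpy : ∀ y : ℝ, (psi R a b (Real.exp y) : ℂ) * cexp (z * y) =
      ∫ w, (kV R (y - w) : ℂ) * cexp (z * y) ∂μ := by
    intro y
    rw [psi_exp hR ha hb, intervalIntegral.integral_of_le hl, integral_mul_const]
    congr 1
    exact integral_complex_ofReal.symm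
  simp_rw [hpy]
  refine ⟨hint.integral_prod_right, ?_⟩
  rw [← integral_integral_swap hint]
  simp_rw [hvw]
  rw [integral_mul_const, mul_comm]

private theorem cpow_exp (y : ℝ) (z : ℂ) : ((Real.exp y : ℝ) : ℂ) ^ z = cexp (z * y) := by
  rw [Complex.cpow_def_of_ne_zero (Complex.ofReal_ne_zero.2 (Real.exp_pos y).ne'),
    ← Complex.ofReal_log (Real.exp_pos y).le, Real.log_exp, mul_comm]

private theorem mel {R a b : ℝ} (hR : 0 < R) (ha : 0 < a) (hab : a ≤ b) (z : ℂ) :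
    IntegrableOn (fun x : ℝ => (psi R a b x : ℂ) * (x : ℂ) ^ z) (Set.Ioi 0) ∧
    ∫ x in Set.Ioi (0 : ℝ), (psi R a b x : ℂ) * (x : ℂ) ^ z =
      cexp ((1 + z) ^ 2 / (R : ℂ) ^ 2) *
        ∫ w in Set.Ioc (Real.log a) (Real.log b), cexp ((1 + z) * w) := by
  have hder : ∀ y ∈ (Set.univ : Set ℝ), HasDerivWithinAt Real.exp (Real.exp y) Set.univ y :=
    fun y _ => (Real.hasDerivAt_exp y).hasDerivWithinAt
  have himg : Real.exp '' Set.univ = Set.Ioi 0 := by
    rw [Set.image_univ, Real.range_exp]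
  have hfun : ∀ y : ℝ, |Real.exp y| • ((psi R a b (Real.exp y) : ℂ) *
      ((Real.exp y : ℝ) : ℂ) ^ z) = (psi R a b (Real.exp y) : ℂ) * cexp ((1 + z) * y) := by
    intro y
    rw [cpow_exp, abs_of_pos (Real.exp_pos y), Complex.real_smul, Complex.ofReal_exp,
      mul_left_comm, ← Complex.exp_add]
    congr 2
    ring
  obtain ⟨h1, h2⟩ := mel_y hR ha hab (1 + z)
  constructor
  · rw [← himg, integrableOn_image_iff_integrableOn_abs_deriv_smul MeasurableSet.univ hder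
      Real.exp_injective.injOn, integrableOn_univ]
    simp_rw [hfun]
    exact h1
  · rw [← himg, integral_image_eq_integral_abs_deriv_smul MeasurableSet.univ hder
      Real.exp_injective.injOn, Measure.restrict_univ]
    simp_rw [hfun]
    exact h2

/-! ## Fubini -/

private theorem psi_prod {R a b : ℝ} (hR : 0 < R) (ha : 0 < a) (hab : a ≤ b) {c₁ c₂ : ℝ}
    {L₁ L₂ : ℝ → ℂ} (h₁ : Integrable L₁) (h₂ : Integrable L₂) :
    IntegrableOn (fun x : ℝ => (psi R a b x : ℂ) * (vint c₁ L₁ x * vint c₂ L₂ x)) (Set.Ioi 0) ∧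
    ∫ x in Set.Ioi (0 : ℝ), (psi R a b x : ℂ) * (vint c₁ L₁ x * vint c₂ L₂ x) =
      ((2 * (Real.pi : ℂ))⁻¹) ^ 2 * ∫ z : ℝ × ℝ, L₁ z.1 * L₂ z.2 *
        (cexp ((1 + (ln c₁ z.1 + ln c₂ z.2)) ^ 2 / (R : ℂ) ^ 2) *
          ∫ w in Set.Ioc (Real.log a) (Real.log b), cexp ((1 + (ln c₁ z.1 + ln c₂ z.2)) * w))
        ∂(volume.prod volume) := by
  have e1 : ∀ x ∈ Set.Ioi (0 : ℝ), (psi R a b x : ℂ) * (vint c₁ L₁ x * vint c₂ L₂ x) =
      ((2 * (Real.pi : ℂ))⁻¹) ^ 2 * ∫ z : ℝ × ℝ,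
        L₁ z.1 * L₂ z.2 * ((psi R a b x : ℂ) * (x : ℂ) ^ (ln c₁ z.1 + ln c₂ z.2))
          ∂(volume.prod volume) := by
    intro x hx
    have hx0 : (0 : ℝ) < x := hx
    have h3 : ∀ z : ℝ × ℝ, L₁ z.1 * L₂ z.2 *
        ((psi R a b x : ℂ) * (x : ℂ) ^ (ln c₁ z.1 + ln c₂ z.2)) =
        (psi R a b x : ℂ) * ((L₁ z.1 * (x : ℂ) ^ (ln c₁ z.1)) *
          (L₂ z.2 * (x : ℂ) ^ (ln c₂ z.2))) := by
      intro z
      rw [cpow_add _ _ (ofReal_ne_zero.2 hx0.ne')]
      ring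
    simp only [h3]
    rw [integral_const_mul, integral_prod_mul (fun t => L₁ t * (x : ℂ) ^ (ln c₁ t))
      (fun t => L₂ t * (x : ℂ) ^ (ln c₂ t))]
    unfold vint
    ring
  have hint : Integrable (fun q : ℝ × (ℝ × ℝ) =>
      L₁ q.2.1 * L₂ q.2.2 * ((psi R a b q.1 : ℂ) * (q.1 : ℂ) ^ (ln c₁ q.2.1 + ln c₂ q.2.2)))
      ((volume.restrict (Set.Ioi (0 : ℝ))).prod (volume.prod volume)) := by
    have h4 : Integrable (fun x : ℝ => (psi R a b x : ℂ) * (x : ℂ) ^ (((c₁ + c₂ : ℝ)) : ℂ))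
        (volume.restrict (Set.Ioi 0)) := (mel hR ha hab (((c₁ + c₂ : ℝ)) : ℂ)).1
    have h5 := h4.mul_prod (h₁.mul_prod h₂)
    have h6 : Measurable fun q : ℝ × (ℝ × ℝ) =>
        cexp (((q.2.1 + q.2.2 : ℝ) : ℂ) * I * (Real.log q.1 : ℂ)) := by
      fun_prop
    have h7 := h5.mul_bdd (c := 1) h6.aestronglyMeasurable
      (Filter.Eventually.of_forall fun q => (bil_exp_norm (q.2.1 + q.2.2) (Real.log q.1)).le)
    refine h7.congr ?_
    have h8 : ∀ᵐ q : ℝ × (ℝ × ℝ) ∂((volume.restrict (Set.Ioi (0 : ℝ))).prod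
        (volume.prod volume)), q.1 ∈ Set.Ioi (0 : ℝ) :=
      (Measure.quasiMeasurePreserving_fst (μ := (volume : Measure ℝ).restrict (Set.Ioi 0))
        (ν := (volume : Measure ℝ).prod (volume : Measure ℝ))).ae
        (ae_restrict_mem (measurableSet_Ioi))
    filter_upwards [h8] with q hq
    have hq0 : (0 : ℝ) < q.1 := hq
    rw [bil_add, bil_cpow hq0, ofReal_cpow hq0.le]
    ring
  have e2 : (fun x : ℝ => (psi R a b x : ℂ) * (vint c₁ L₁ x * vint c₂ L₂ x))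
      =ᵐ[volume.restrict (Set.Ioi 0)] fun x : ℝ => ((2 * (Real.pi : ℂ))⁻¹) ^ 2 * ∫ z : ℝ × ℝ,
        L₁ z.1 * L₂ z.2 * ((psi R a b x : ℂ) * (x : ℂ) ^ (ln c₁ z.1 + ln c₂ z.2))
          ∂(volume.prod volume) := by
    filter_upwards [ae_restrict_mem (measurableSet_Ioi (a := (0 : ℝ)))] with x hx
    exact e1 x hx
  constructor
  · exact (hint.integral_prod_left.const_mul _).congr e2.symm
  · rw [integral_congr_ae e2, integral_const_mul, integral_integral_swap hint]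
    congr 1
    refine integral_congr_ae (Filter.Eventually.of_forall fun z => ?_)
    change ∫ x in Set.Ioi (0 : ℝ), L₁ z.1 * L₂ z.2 *
      ((psi R a b x : ℂ) * (x : ℂ) ^ (ln c₁ z.1 + ln c₂ z.2)) = _
    rw [integral_const_mul, (mel hR ha hab _).2]

/-! ## Moving the line far to the left -/

private theorem sc_poly (n : ℕ) (V t : ℝ) (hV : 0 < V) :
    (1 + |t|) ^ n * Real.exp (-(t ^ 2 / V ^ 2)) ≤ n.factorial * Real.exp (1 + V ^ 2 / 4) := by
  have h1 : (1 + |t|) ^ n / n.factorial ≤ Real.exp (1 + |t|) :=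
    Real.pow_div_factorial_le_exp _ (by positivity) n
  have h2 : (1 + |t|) ^ n ≤ n.factorial * Real.exp (1 + |t|) := by
    rw [div_le_iff₀ (by positivity)] at h1
    linarith
  have h3 : (1 + |t|) + -(t ^ 2 / V ^ 2) ≤ 1 + V ^ 2 / 4 := by
    have h4 : |t| - t ^ 2 / V ^ 2 = V ^ 2 / 4 - (|t| / V - V / 2) ^ 2 := by
      have : |t| ^ 2 = t ^ 2 := sq_abs t
      field_simp
      rw [← this]
      ring
    nlinarith [sq_nonneg (|t| / V - V / 2)]
  calc (1 + |t|) ^ n * Real.exp (-(t ^ 2 / V ^ 2))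
      ≤ (n.factorial * Real.exp (1 + |t|)) * Real.exp (-(t ^ 2 / V ^ 2)) :=
        mul_le_mul_of_nonneg_right h2 (Real.exp_pos _).le
    _ = n.factorial * Real.exp ((1 + |t|) + -(t ^ 2 / V ^ 2)) := by
        rw [mul_assoc, ← Real.exp_add]
    _ ≤ n.factorial * Real.exp (1 + V ^ 2 / 4) := by
        apply mul_le_mul_of_nonneg_left (Real.exp_le_exp.2 h3) (by positivity)

/-- `EV_left` on every line `Re s = -A`. -/
theorem EV_left_gen (F : Sel) {A V x : ℝ} (hA : 1 / 2 ≤ A) (hV : 0 < V) (hx : 0 < x) :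
    F.EV V x = F.L 0 + vint (-A) (F.full A V) x := by
  have hA0 : 0 < A := by linarith
  set G : ℂ → ℂ := fun s => F.L s * (x : ℂ) ^ s * cexp (s ^ 2 / (V : ℂ) ^ 2) with hG
  have hx0 : (x : ℂ) ≠ 0 := by exact_mod_cast hx.ne'
  have hdiff : ∀ s : ℂ, s.re ≤ 1 / 2 → DifferentiableAt ℂ G s := by
    intro s hs
    have hne : s - 1 ≠ 0 := by
      intro h
      have := congrArg Complex.re h
      simp at this
      linarith
    have h1 : DifferentiableAt ℂ F.L s := by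
      unfold Sel.L
      apply DifferentiableAt.div (F.P_diff s)
      · fun_prop
      · exact pow_ne_zero _ hne
    have h2 : DifferentiableAt ℂ (fun s : ℂ => (x : ℂ) ^ s) s :=
      DifferentiableAt.const_cpow differentiableAt_id (Or.inl hx0)
    have h3 : DifferentiableAt ℂ (fun s : ℂ => cexp (s ^ 2 / (V : ℂ) ^ 2)) s := by
      fun_prop
    exact (h1.mul h2).mul h3
  obtain ⟨C, K, hC, hP⟩ := P_growth F (-A) (1 / 2)
  set B : ℝ := C * 2 ^ F.m * Real.exp (|Real.log x| * A) * Real.exp (A ^ 2 / V ^ 2) *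
    ((K + 2).factorial * Real.exp (1 + V ^ 2 / 4)) with hBdef
  have hB : ∀ s : ℂ, -A ≤ s.re → s.re ≤ 1 / 2 → ‖G s‖ ≤ B / (1 + s.im ^ 2) := by
    intro s h1 h2
    have hPs := hP s h1 h2
    have hre : |s.re| ≤ A := by rw [abs_le]; constructor <;> linarith
    have hd : (1 / 2 : ℝ) ≤ ‖s - 1‖ := by
      have h3 : |(s - 1).re| ≤ ‖s - 1‖ := Complex.abs_re_le_norm _
      have h4 : (s - 1).re = s.re - 1 := by simp
      rw [h4] at h3
      have h5 : 1 / 2 ≤ |s.re - 1| := by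
        rw [le_abs]; right; linarith
      linarith
    have hL : ‖F.L s‖ ≤ C * 2 ^ F.m * (1 + |s.im|) ^ K := by
      unfold Sel.L
      rw [norm_div, norm_pow]
      have h6 : (1 / 2 : ℝ) ^ F.m ≤ ‖s - 1‖ ^ F.m := pow_le_pow_left₀ (by norm_num) hd _
      rw [div_le_iff₀ (lt_of_lt_of_le (by positivity) h6)]
      have h7 : (1 : ℝ) = 2 ^ F.m * (1 / 2) ^ F.m := by rw [← mul_pow]; norm_num
      calc ‖F.P s‖ ≤ C * (1 + |s.im|) ^ K := hPs
        _ = C * (1 + |s.im|) ^ K * 1 := by ring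
        _ = C * (1 + |s.im|) ^ K * (2 ^ F.m * (1 / 2) ^ F.m) := by rw [← h7]
        _ = C * 2 ^ F.m * (1 + |s.im|) ^ K * (1 / 2) ^ F.m := by ring
        _ ≤ C * 2 ^ F.m * (1 + |s.im|) ^ K * ‖s - 1‖ ^ F.m :=
            mul_le_mul_of_nonneg_left h6 (by positivity)
    have hX : ‖(x : ℂ) ^ s‖ ≤ Real.exp (|Real.log x| * A) := by
      rw [Complex.norm_cpow_eq_rpow_re_of_pos hx, Real.rpow_def_of_pos hx]
      apply Real.exp_le_exp.2
      calc Real.log x * s.re ≤ |Real.log x * s.re| := le_abs_self _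
        _ = |Real.log x| * |s.re| := abs_mul _ _
        _ ≤ |Real.log x| * A := mul_le_mul_of_nonneg_left hre (abs_nonneg _)
    have hE : ‖cexp (s ^ 2 / (V : ℂ) ^ 2)‖ ≤
        Real.exp (A ^ 2 / V ^ 2) * Real.exp (-(s.im ^ 2 / V ^ 2)) := by
      rw [Complex.norm_exp, ← Real.exp_add]
      apply Real.exp_le_exp.2
      have h8 : (s ^ 2 / (V : ℂ) ^ 2).re = (s.re ^ 2 - s.im ^ 2) / V ^ 2 := by
        rw [← Complex.ofReal_pow, Complex.div_ofReal_re]
        congr 1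
        rw [sq, Complex.mul_re]
        ring
      rw [h8, sub_div, sub_eq_add_neg]
      have h9 : s.re ^ 2 ≤ A ^ 2 := by
        rw [← sq_abs s.re]
        exact pow_le_pow_left₀ (abs_nonneg _) hre 2
      have h10 : s.re ^ 2 / V ^ 2 ≤ A ^ 2 / V ^ 2 := by gcongr
      linarith
    have hfac : (1 + |s.im|) ^ K * Real.exp (-(s.im ^ 2 / V ^ 2)) * (1 + s.im ^ 2) ≤
        (K + 2).factorial * Real.exp (1 + V ^ 2 / 4) := by
      refine le_trans ?_ (sc_poly (K + 2) V s.im hV)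
      have h11 : 1 + s.im ^ 2 ≤ (1 + |s.im|) ^ 2 := by
        have := sq_abs s.im
        nlinarith [abs_nonneg s.im]
      calc (1 + |s.im|) ^ K * Real.exp (-(s.im ^ 2 / V ^ 2)) * (1 + s.im ^ 2)
          ≤ (1 + |s.im|) ^ K * Real.exp (-(s.im ^ 2 / V ^ 2)) * (1 + |s.im|) ^ 2 :=
            mul_le_mul_of_nonneg_left h11 (by positivity)
        _ = (1 + |s.im|) ^ (K + 2) * Real.exp (-(s.im ^ 2 / V ^ 2)) := by
            rw [pow_add]; ring
    rw [le_div_iff₀ (by positivity)]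
    calc ‖G s‖ * (1 + s.im ^ 2)
        = ‖F.L s‖ * ‖(x : ℂ) ^ s‖ * ‖cexp (s ^ 2 / (V : ℂ) ^ 2)‖ * (1 + s.im ^ 2) := by
          simp only [hG, norm_mul]
      _ ≤ (C * 2 ^ F.m * (1 + |s.im|) ^ K) * Real.exp (|Real.log x| * A) *
          (Real.exp (A ^ 2 / V ^ 2) * Real.exp (-(s.im ^ 2 / V ^ 2))) * (1 + s.im ^ 2) := by
          gcongr
      _ = C * 2 ^ F.m * Real.exp (|Real.log x| * A) * Real.exp (A ^ 2 / V ^ 2) *
          ((1 + |s.im|) ^ K * Real.exp (-(s.im ^ 2 / V ^ 2)) * (1 + s.im ^ 2)) := by ring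
      _ ≤ B := by
          rw [hBdef]
          exact mul_le_mul_of_nonneg_left hfac (by positivity)
  have hmain := strip_res (G := G) (a := -A) (b := 1 / 2) (w := 0) (B := B) (ρ := 1 / 2)
    (by norm_num) (by linarith) (by norm_num) (fun s _ h2 => hdiff s h2) hB 1
  have hcauchy : (∮ z in C(((0 : ℝ) : ℂ), 1 / 2), G z / (z - ((0 : ℝ) : ℂ)) ^ 1) =
      (2 * (Real.pi : ℂ) * I) * F.L 0 := by
    have hball : ∀ z ∈ Metric.closedBall (0 : ℂ) (1 / 2), z.re ≤ 1 / 2 := by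
      intro z hz
      rw [mem_closedBall_zero_iff] at hz
      have := Complex.re_le_norm z
      linarith
    have h1 := Complex.circleIntegral_sub_inv_smul_of_differentiable_on_off_countable
      (f := G) (c := 0) (w := 0) (R := 1 / 2) Set.countable_empty
      (Metric.mem_ball_self (by norm_num))
      (fun z hz => (hdiff z (hball z hz)).continuousAt.continuousWithinAt)
      (fun z hz => hdiff z (hball z (Metric.ball_subset_closedBall hz.1)))
    have h2 : G 0 = F.L 0 := by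
      simp [hG]
    rw [h2, smul_eq_mul] at h1
    rw [← h1]
    simp only [Complex.ofReal_zero, sub_zero, pow_one, smul_eq_mul]
    congr 1
    ext z
    rw [div_eq_inv_mul]
  rw [hcauchy] at hmain
  have hpi : (2 * (Real.pi : ℂ) * I) ≠ 0 := by
    simp [Real.pi_ne_zero]
  rw [inv_mul_cancel_left₀ hpi] at hmain
  have e1 : F.EV V x = (2 * (Real.pi : ℂ))⁻¹ *
      (∫ t : ℝ, G (ln (1 / 2) t) / (ln (1 / 2) t - ((0 : ℝ) : ℂ)) ^ 1) := by
    unfold Sel.EV vint
    congr 2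
    ext t
    simp only [hG, Complex.ofReal_zero, sub_zero, pow_one]
    ring
  have e2 : vint (-A) (F.full A V) x = (2 * (Real.pi : ℂ))⁻¹ *
      (∫ t : ℝ, G (ln (-A) t) / (ln (-A) t - ((0 : ℝ) : ℂ)) ^ 1) := by
    unfold vint Sel.full
    congr 2
    ext t
    simp only [hG, Complex.ofReal_zero, sub_zero, pow_one]
    ring
  rw [e1, e2]
  linear_combination hmain

/-! ## The bound -/

private theorem K_bound {R a b X r : ℝ} (hR : 1 ≤ R) (hX : 1 ≤ X) (ha : X ≤ a) (hab : a ≤ b)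
    (hb : b ≤ 2 * X) (hr : 0 ≤ r) (t : ℝ) :
    ‖cexp ((ln (-r) t) ^ 2 / (R : ℂ) ^ 2) *
      ∫ w in Set.Ioc (Real.log a) (Real.log b), cexp (ln (-r) t * w)‖ ≤
      Real.exp (r ^ 2) * X ^ (-r) * Real.exp (-(t / R) ^ 2) := by
  have hX0 : 0 < X := by linarith
  have ha0 : 0 < a := by linarith
  have hb0 : 0 < b := by linarith
  have hla : Real.log X ≤ Real.log a := Real.log_le_log hX0 ha
  have hl : Real.log a ≤ Real.log b := Real.log_le_log ha0 hab
  have hlb : Real.log b ≤ Real.log 2 + Real.log X := by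
    rw [← Real.log_mul (by norm_num) hX0.ne']
    exact Real.log_le_log hb0 hb
  have hl2 : Real.log 2 ≤ 1 := by
    have := Real.log_two_lt_d9
    linarith
  have hXr : 0 ≤ X ^ (-r) := Real.rpow_nonneg hX0.le _
  have h1 := ful_exp r R t hR
  have h2 : ‖∫ w in Set.Ioc (Real.log a) (Real.log b), cexp (ln (-r) t * w)‖ ≤ X ^ (-r) := by
    have h3 : ∀ w ∈ Set.Ioc (Real.log a) (Real.log b), ‖cexp (ln (-r) t * w)‖ ≤ X ^ (-r) := by
      intro w hw
      rw [Complex.norm_exp, Complex.re_mul_ofReal, ln_re, Real.rpow_def_of_pos hX0]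
      apply Real.exp_le_exp.2
      have : Real.log X ≤ w := hla.trans hw.1.le
      nlinarith
    have h4 := norm_setIntegral_le_of_norm_le_const (μ := volume) (by simp) h3
    rw [Real.volume_real_Ioc_of_le hl] at h4
    refine h4.trans (mul_le_of_le_one_right hXr ?_)
    linarith
  rw [norm_mul]
  calc _ ≤ (Real.exp (r ^ 2) * Real.exp (-(t / R) ^ 2)) * X ^ (-r) :=
        mul_le_mul h1 h2 (norm_nonneg _) (by positivity)
    _ = _ := by ring

theorem smooth_small (F : Sel) (hF : F.deg ≤ 2) {δ Bd : ℝ} (hδ : 0 < δ) (hB : 0 ≤ Bd) :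
    ∃ C : ℝ, 0 < C ∧ ∀ (X Y V R a b c : ℝ) (Lam : ℝ → ℂ), 1 ≤ X → X ≤ Y → 1 ≤ V → 1 ≤ R →
      V * R ≤ X ^ (1 / 2 - δ) → X ≤ a → a ≤ b → b ≤ 2 * X → 0 ≤ c → Continuous Lam →
      (∀ t : ℝ, ‖Lam t‖ ≤ c * (1 + |t|) ^ Bd * Real.exp (-(t / (2 * V)) ^ 2)) →
      IntegrableOn (fun x : ℝ => (psi R a b x : ℂ) * ((F.EV Y x - F.L 0) * vint (1 / 2) Lam x))
        (Set.Ioi 0) ∧
      ‖∫ x in Set.Ioi (0 : ℝ), (psi R a b x : ℂ) * ((F.EV Y x - F.L 0) * vint (1 / 2) Lam x)‖ ≤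
        C * c := by
  obtain ⟨A, hA2, hAδ⟩ : ∃ A : ℝ, 2 ≤ A ∧ (Bd + 4) / 2 ≤ 2 * δ * A := by
    refine ⟨max 2 ((Bd + 4) / (4 * δ)), le_max_left _ _, ?_⟩
    have h1 : (Bd + 4) / (4 * δ) ≤ max 2 ((Bd + 4) / (4 * δ)) := le_max_right _ _
    have h2 : 2 * δ * ((Bd + 4) / (4 * δ)) = (Bd + 4) / 2 := by
      field_simp
      ring
    rw [← h2]
    exact mul_le_mul_of_nonneg_left h1 (by positivity)
  have hA0 : 0 < A := by linarith
  set r : ℝ := A - 3 / 2 with hr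
  have hr0 : 0 ≤ r := by rw [hr]; linarith
  set q : ℝ := 2 * A + Bd + 1 with hq
  have hq0 : 0 < q := by rw [hq]; linarith
  obtain ⟨CF, hCF, HF⟩ := full_bound_gen F hA0
  obtain ⟨C₁, hC₁, H₁⟩ := int_weight (q := 2 * A + 1) (by linarith)
  obtain ⟨C₂, hC₂, H₂⟩ := int_weight hq0
  obtain ⟨C₃, hC₃, H₃⟩ := int_weight (q := Bd + 1) (by linarith)
  refine ⟨Real.exp (r ^ 2) * CF * C₁ * C₂ * 2 ^ q, by positivity, ?_⟩
  intro X Y V R a b c Lam hX hXY hV hR hVR ha hab hb hc hLc hL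
  have hX0 : 0 < X := by linarith
  have hY : 1 ≤ Y := by linarith
  have hY0 : 0 < Y := by linarith
  have hR0 : 0 < R := by linarith
  have hV0 : 0 < V := by linarith
  have hV2 : 1 ≤ 2 * V := by linarith
  have ha0 : 0 < a := by linarith
  have iL : Integrable Lam := by
    refine ((H₃ (2 * V) hV2).1.const_mul c).mono' hLc.aestronglyMeasurable
      (Filter.Eventually.of_forall fun t => (hL t).trans (le_of_eq ?_))
    have e : -1 + (Bd + 1) = Bd := by ring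
    rw [e, mul_assoc]
  have iF : Integrable (F.full A Y) := full_integrable F hA0 hY
  obtain ⟨p1, p2⟩ := psi_prod hR0 ha0 hab (c₁ := 1 / 2) (c₂ := -A) iL iF
  have hfun : Set.EqOn
      (fun x : ℝ => (psi R a b x : ℂ) * (vint (1 / 2) Lam x * vint (-A) (F.full A Y) x))
      (fun x : ℝ => (psi R a b x : ℂ) * ((F.EV Y x - F.L 0) * vint (1 / 2) Lam x))
      (Set.Ioi 0) := by
    intro x hx
    have hx0 : (0 : ℝ) < x := hx
    simp only
    rw [EV_left_gen F (A := A) (by linarith) hY0 hx0]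
    ring
  refine ⟨p1.congr_fun hfun measurableSet_Ioi, ?_⟩
  rw [← setIntegral_congr_fun measurableSet_Ioi hfun, p2, norm_mul]
  have hpi : ‖((2 * (Real.pi : ℂ))⁻¹) ^ 2‖ ≤ 1 := by
    rw [norm_pow, norm_inv, norm_mul, Complex.norm_real, Real.norm_of_nonneg Real.pi_pos.le,
      Complex.norm_ofNat]
    have := Real.pi_gt_three
    exact pow_le_one₀ (by positivity) (inv_le_one_of_one_le₀ (by linarith))
  refine (mul_le_mul_of_nonneg_right hpi (norm_nonneg _)).trans ?_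
  rw [one_mul]
  set M : ℝ := Real.exp (r ^ 2) * X ^ (-r) with hM
  have hM0 : 0 ≤ M := by rw [hM]; positivity
  -- the absolutely convergent majorant
  have hEi : Integrable (fun z : ℝ × ℝ => ‖Lam z.1‖ * ‖F.full A Y z.2‖ *
      (M * Real.exp (-((z.1 + z.2) / R) ^ 2))) (volume.prod volume) := by
    have h3 : Continuous fun z : ℝ × ℝ => M * Real.exp (-((z.1 + z.2) / R) ^ 2) := by fun_prop
    refine (iL.norm.mul_prod iF.norm).mul_bdd (c := M) h3.aestronglyMeasurable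
      (Filter.Eventually.of_forall fun z => ?_)
    rw [Real.norm_of_nonneg (by positivity)]
    refine mul_le_of_le_one_right hM0 ?_
    rw [Real.exp_le_one_iff]
    nlinarith [sq_nonneg ((z.1 + z.2) / R)]
  have hle : ‖∫ z : ℝ × ℝ, Lam z.1 * F.full A Y z.2 *
        (cexp ((1 + (ln (1 / 2) z.1 + ln (-A) z.2)) ^ 2 / (R : ℂ) ^ 2) *
          ∫ w in Set.Ioc (Real.log a) (Real.log b),
            cexp ((1 + (ln (1 / 2) z.1 + ln (-A) z.2)) * w))
        ∂(volume.prod volume)‖ ≤ ∫ z : ℝ × ℝ, ‖Lam z.1‖ * ‖F.full A Y z.2‖ *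
      (M * Real.exp (-((z.1 + z.2) / R) ^ 2)) ∂(volume.prod volume) := by
    refine norm_integral_le_of_norm_le hEi (Filter.Eventually.of_forall fun z => ?_)
    have e : (1 : ℂ) + (ln (1 / 2) z.1 + ln (-A) z.2) = ln (-r) (z.1 + z.2) := by
      rw [hr]
      unfold ln
      push_cast
      ring
    rw [e, norm_mul, norm_mul]
    exact mul_le_mul_of_nonneg_left (K_bound hR hX ha hab hb hr0 (z.1 + z.2)) (by positivity)
  refine hle.trans ?_
  rw [integral_prod _ hEi]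
  -- the inner integral
  have hin : ∀ t₁ : ℝ, ∫ t₂ : ℝ, ‖Lam t₁‖ * ‖F.full A Y t₂‖ *
      (M * Real.exp (-((t₁ + t₂) / R) ^ 2)) ≤
      (M * CF * (C₁ * R ^ (2 * A + 1)) * c) *
        ((1 + |t₁|) ^ (-1 + q) * Real.exp (-(t₁ / (2 * V)) ^ 2)) := by
    intro t₁
    obtain ⟨k1, k2⟩ := H₁ R hR
    have e21 : -1 + (2 * A + 1) = 2 * A := by ring
    rw [e21] at k1 k2
    have hb1 : 0 < 1 + |t₁| := by positivity
    have hpt : ∀ t₂ : ℝ, ‖Lam t₁‖ * ‖F.full A Y t₂‖ * (M * Real.exp (-((t₁ + t₂) / R) ^ 2)) ≤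
        (‖Lam t₁‖ * M * CF * (1 + |t₁|) ^ (2 * A)) *
          ((1 + |t₁ + t₂|) ^ (2 * A) * Real.exp (-((t₁ + t₂) / R) ^ 2)) := by
      intro t₂
      have hb2 : 0 < 1 + |t₂| := by positivity
      have hb3 : 0 < 1 + |t₁ + t₂| := by positivity
      have g1 : ‖F.full A Y t₂‖ ≤ CF * (1 + |t₂|) ^ (2 * A) := by
        refine (HF Y hY t₂).trans ?_
        have g2 : Real.exp (-(t₂ / Y) ^ 2) ≤ 1 := by
          rw [Real.exp_le_one_iff]
          nlinarith [sq_nonneg (t₂ / Y)]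
        have g3 : (1 + |t₂|) ^ (F.deg * (1 / 2 + A) - 1) ≤ (1 + |t₂|) ^ (2 * A) := by
          apply Real.rpow_le_rpow_of_exponent_le (by linarith [abs_nonneg t₂])
          nlinarith
        calc _ ≤ CF * (1 + |t₂|) ^ (F.deg * (1 / 2 + A) - 1) * 1 :=
              mul_le_mul_of_nonneg_left g2 (by positivity)
          _ ≤ _ := by
              rw [mul_one]
              exact mul_le_mul_of_nonneg_left g3 hCF.le
      have g4 : (1 + |t₂|) ^ (2 * A) ≤ (1 + |t₁|) ^ (2 * A) * (1 + |t₁ + t₂|) ^ (2 * A) := by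
        rw [← Real.mul_rpow hb1.le hb3.le]
        apply Real.rpow_le_rpow hb2.le _ (by linarith)
        have g5 : |t₂| ≤ |t₁ + t₂| + |t₁| := by
          have := abs_sub (t₁ + t₂) t₁
          rwa [add_sub_cancel_left] at this
        nlinarith [abs_nonneg t₁, abs_nonneg (t₁ + t₂),
          mul_nonneg (abs_nonneg t₁) (abs_nonneg (t₁ + t₂))]
      have g6 : ‖F.full A Y t₂‖ ≤
          CF * ((1 + |t₁|) ^ (2 * A) * (1 + |t₁ + t₂|) ^ (2 * A)) :=
        g1.trans (mul_le_mul_of_nonneg_left g4 hCF.le)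
      calc _ = ‖F.full A Y t₂‖ * (‖Lam t₁‖ * (M * Real.exp (-((t₁ + t₂) / R) ^ 2))) := by ring
        _ ≤ (CF * ((1 + |t₁|) ^ (2 * A) * (1 + |t₁ + t₂|) ^ (2 * A))) *
            (‖Lam t₁‖ * (M * Real.exp (-((t₁ + t₂) / R) ^ 2))) :=
            mul_le_mul_of_nonneg_right g6 (by positivity)
        _ = _ := by ring
    have ik : Integrable fun t₂ : ℝ =>
        (1 + |t₁ + t₂|) ^ (2 * A) * Real.exp (-((t₁ + t₂) / R) ^ 2) :=
      k1.comp_add_left t₁
    have vk : ∫ t₂ : ℝ, (1 + |t₁ + t₂|) ^ (2 * A) * Real.exp (-((t₁ + t₂) / R) ^ 2) =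
        ∫ t : ℝ, (1 + |t|) ^ (2 * A) * Real.exp (-(t / R) ^ 2) :=
      integral_add_left_eq_self
        (fun t : ℝ => (1 + |t|) ^ (2 * A) * Real.exp (-(t / R) ^ 2)) t₁
    have hRq : 0 ≤ R ^ (2 * A + 1) := Real.rpow_nonneg hR0.le _
    calc _ ≤ ∫ t₂ : ℝ, (‖Lam t₁‖ * M * CF * (1 + |t₁|) ^ (2 * A)) *
          ((1 + |t₁ + t₂|) ^ (2 * A) * Real.exp (-((t₁ + t₂) / R) ^ 2)) :=
          integral_mono_of_nonneg (Filter.Eventually.of_forall fun t₂ => by positivity)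
            (ik.const_mul _) (Filter.Eventually.of_forall hpt)
      _ = (‖Lam t₁‖ * M * CF * (1 + |t₁|) ^ (2 * A)) *
          ∫ t : ℝ, (1 + |t|) ^ (2 * A) * Real.exp (-(t / R) ^ 2) := by
          rw [integral_const_mul, vk]
      _ ≤ (‖Lam t₁‖ * M * CF * (1 + |t₁|) ^ (2 * A)) * (C₁ * R ^ (2 * A + 1)) :=
          mul_le_mul_of_nonneg_left k2 (by positivity)
      _ = ‖Lam t₁‖ * (M * CF * (1 + |t₁|) ^ (2 * A) * (C₁ * R ^ (2 * A + 1))) := by ring
      _ ≤ (c * (1 + |t₁|) ^ Bd * Real.exp (-(t₁ / (2 * V)) ^ 2)) *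
          (M * CF * (1 + |t₁|) ^ (2 * A) * (C₁ * R ^ (2 * A + 1))) :=
          mul_le_mul_of_nonneg_right (hL t₁) (by positivity)
      _ = (M * CF * (C₁ * R ^ (2 * A + 1)) * c) *
          (((1 + |t₁|) ^ (2 * A) * (1 + |t₁|) ^ Bd) * Real.exp (-(t₁ / (2 * V)) ^ 2)) := by ring
      _ = _ := by
          rw [← Real.rpow_add hb1]
          congr 3
          rw [hq]
          ring
  obtain ⟨l1, l2⟩ := H₂ (2 * V) hV2
  have hRq : 0 ≤ R ^ (2 * A + 1) := Real.rpow_nonneg hR0.le _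
  have hfin : ∫ t₁ : ℝ, ∫ t₂ : ℝ, ‖Lam t₁‖ * ‖F.full A Y t₂‖ *
      (M * Real.exp (-((t₁ + t₂) / R) ^ 2)) ≤
      (M * CF * (C₁ * R ^ (2 * A + 1)) * c) * (C₂ * (2 * V) ^ q) := by
    calc _ ≤ ∫ t₁ : ℝ, (M * CF * (C₁ * R ^ (2 * A + 1)) * c) *
          ((1 + |t₁|) ^ (-1 + q) * Real.exp (-(t₁ / (2 * V)) ^ 2)) :=
          integral_mono_of_nonneg (Filter.Eventually.of_forall fun t₁ =>
            integral_nonneg fun t₂ => by positivity) (l1.const_mul _)
            (Filter.Eventually.of_forall hin)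
      _ = (M * CF * (C₁ * R ^ (2 * A + 1)) * c) *
          ∫ t₁ : ℝ, ((1 + |t₁|) ^ (-1 + q) * Real.exp (-(t₁ / (2 * V)) ^ 2)) := by
          rw [integral_const_mul]
      _ ≤ _ := mul_le_mul_of_nonneg_left l2 (by positivity)
  refine hfin.trans ?_
  -- the exponents
  have e1 : R ^ (2 * A + 1) ≤ R ^ q :=
    Real.rpow_le_rpow_of_exponent_le hR (by rw [hq]; linarith)
  have e2 : X ^ (-r) * (R ^ q * V ^ q) ≤ 1 := by
    have h1 : R ^ q * V ^ q ≤ X ^ ((1 / 2 - δ) * q) := by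
      rw [← Real.mul_rpow hR0.le hV0.le, Real.rpow_mul hX0.le, mul_comm R V]
      exact Real.rpow_le_rpow (by positivity) hVR hq0.le
    calc X ^ (-r) * (R ^ q * V ^ q) ≤ X ^ (-r) * X ^ ((1 / 2 - δ) * q) :=
          mul_le_mul_of_nonneg_left h1 (by positivity)
      _ = X ^ (-r + (1 / 2 - δ) * q) := (Real.rpow_add hX0 _ _).symm
      _ ≤ 1 := by
          apply Real.rpow_le_one_of_one_le_of_nonpos hX
          rw [hr, hq]
          nlinarith [mul_nonneg hδ.le hB]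
  have hC0 : 0 ≤ Real.exp (r ^ 2) * CF * C₁ * C₂ * 2 ^ q * c := by positivity
  calc (M * CF * (C₁ * R ^ (2 * A + 1)) * c) * (C₂ * (2 * V) ^ q)
      ≤ (M * CF * (C₁ * R ^ q) * c) * (C₂ * (2 * V) ^ q) := by gcongr
    _ = (Real.exp (r ^ 2) * CF * C₁ * C₂ * 2 ^ q * c) * (X ^ (-r) * (R ^ q * V ^ q)) := by
        rw [hM, Real.mul_rpow (by norm_num) hV0.le]
        ring
    _ ≤ (Real.exp (r ^ 2) * CF * C₁ * C₂ * 2 ^ q * c) * 1 :=
        mul_le_mul_of_nonneg_left e2 hC0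
    _ = Real.exp (r ^ 2) * CF * C₁ * C₂ * 2 ^ q * c := mul_one _

end DAD
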