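import Mathlib

set_option autoImplicit false

/-!
# DAD/Vdi: van der Corput's second derivative test for integrals

Plan: first derivative test: on an interval where `φ1` has constant sign, `|φ1| ≥ μ`, `φ1` monotone:
`e^(iφ) = (e^(iφ))' / (i φ1)`, integration by parts: `≤ 3/μ`. Then split at the zero of `φ1` (if any)
with `δ = 1/√lam`.
-/

open Complex MeasureTheory

namespace DAD

theorem vdc1 {a b μ : ℝ} (hab : a ≤ b) (hμ : 0 < μ) (φ φ1 φ2 : ℝ → ℝ)
    (h1 : ∀ t ∈ Set.Icc a b, HasDerivAt φ (φ1 t) t)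
    (h2 : ∀ t ∈ Set.Icc a b, HasDerivAt φ1 (φ2 t) t)
    (hc : ContinuousOn φ2 (Set.Icc a b)) (hb : ∀ t ∈ Set.Icc a b, 0 ≤ φ2 t)
    (hp : ∀ t ∈ Set.Icc a b, μ ≤ φ1 t) :
    ‖∫ t in a..b, cexp (I * (φ t : ℂ))‖ ≤ 2 / μ := by
  have hpos : ∀ t ∈ Set.Icc a b, 0 < φ1 t := fun t ht => lt_of_lt_of_le hμ (hp t ht)
  have hne : ∀ t ∈ Set.Icc a b, I * (φ1 t : ℂ) ≠ 0 := by
    intro t ht
    have := (hpos t ht).ne'
    exact mul_ne_zero I_ne_zero (by exact_mod_cast this)
  have hc1 : ContinuousOn φ1 (Set.Icc a b) := fun t ht => (h2 t ht).continuousAt.continuousWithinAt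
  have hc0 : ContinuousOn φ (Set.Icc a b) := fun t ht => (h1 t ht).continuousAt.continuousWithinAt
  have hui : Set.uIcc a b = Set.Icc a b := Set.uIcc_of_le hab
  let u : ℝ → ℂ := fun t => (I * (φ1 t : ℂ))⁻¹
  let u' : ℝ → ℂ := fun t => -(I * (φ2 t : ℂ)) / (I * (φ1 t : ℂ)) ^ 2
  let v : ℝ → ℂ := fun t => cexp (I * (φ t : ℂ))
  let v' : ℝ → ℂ := fun t => cexp (I * (φ t : ℂ)) * (I * (φ1 t : ℂ))
  have hu : ∀ x ∈ Set.uIcc a b, HasDerivAt u (u' x) x := by
    intro x hx
    rw [hui] at hx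
    exact (((h2 x hx).ofReal_comp).const_mul I).inv (hne x hx)
  have hv : ∀ x ∈ Set.uIcc a b, HasDerivAt v (v' x) x := by
    intro x hx
    rw [hui] at hx
    exact (((h1 x hx).ofReal_comp).const_mul I).cexp
  have cu' : ContinuousOn u' (Set.uIcc a b) := by
    rw [hui]
    apply ContinuousOn.div
    · exact (continuousOn_const.mul (Complex.continuous_ofReal.comp_continuousOn hc)).neg
    · exact (continuousOn_const.mul (Complex.continuous_ofReal.comp_continuousOn hc1)).pow 2
    · intro t ht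
      exact pow_ne_zero 2 (hne t ht)
  have cv : ContinuousOn v (Set.uIcc a b) := by
    rw [hui]
    exact (continuousOn_const.mul (Complex.continuous_ofReal.comp_continuousOn hc0)).cexp
  have cv' : ContinuousOn v' (Set.uIcc a b) := by
    rw [hui]
    have := cv
    rw [hui] at this
    exact this.mul (continuousOn_const.mul (Complex.continuous_ofReal.comp_continuousOn hc1))
  have key := intervalIntegral.integral_mul_deriv_eq_deriv_mul hu hv
    cu'.intervalIntegrable cv'.intervalIntegrable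
  have e1 : ∫ t in a..b, u t * v' t = ∫ t in a..b, cexp (I * (φ t : ℂ)) := by
    apply intervalIntegral.integral_congr
    intro t ht
    rw [hui] at ht
    have := hne t ht
    change (I * (φ1 t : ℂ))⁻¹ * (cexp (I * (φ t : ℂ)) * (I * (φ1 t : ℂ))) = _
    rw [mul_left_comm, inv_mul_cancel₀ this, mul_one]
  rw [e1] at key
  rw [key]
  have nv : ∀ t, ‖v t‖ = 1 := by
    intro t
    simp only [v]
    rw [mul_comm, Complex.norm_exp_ofReal_mul_I]
  have nu : ∀ t ∈ Set.Icc a b, ‖u t‖ = 1 / φ1 t := by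
    intro t ht
    simp only [u]
    rw [norm_inv, norm_mul, Complex.norm_I, one_mul, Complex.norm_real, Real.norm_eq_abs,
      abs_of_pos (hpos t ht), one_div]
  have ha : a ∈ Set.Icc a b := ⟨le_rfl, hab⟩
  have hb' : b ∈ Set.Icc a b := ⟨hab, le_rfl⟩
  have n1 : ‖u b * v b‖ = 1 / φ1 b := by rw [norm_mul, nv, mul_one, nu b hb']
  have n2 : ‖u a * v a‖ = 1 / φ1 a := by rw [norm_mul, nv, mul_one, nu a ha]
  have n3 : ‖∫ t in a..b, u' t * v t‖ ≤ 1 / φ1 a - 1 / φ1 b := by
    refine (intervalIntegral.norm_integral_le_integral_norm hab).trans ?_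
    have e2 : ∫ t in a..b, ‖u' t * v t‖ = ∫ t in a..b, φ2 t / φ1 t ^ 2 := by
      apply intervalIntegral.integral_congr
      intro t ht
      rw [hui] at ht
      simp only [u']
      rw [norm_mul, nv, mul_one, norm_div, norm_neg, norm_mul, norm_pow, norm_mul, Complex.norm_I,
        one_mul, one_mul, Complex.norm_real, Complex.norm_real, Real.norm_eq_abs, Real.norm_eq_abs,
        abs_of_pos (hpos t ht), abs_of_nonneg (hb t ht)]
    rw [e2]
    have e3 : ∫ t in a..b, φ2 t / φ1 t ^ 2 = -(φ1 b)⁻¹ - -(φ1 a)⁻¹ := by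
      apply intervalIntegral.integral_eq_sub_of_hasDerivAt (f := fun t => -(φ1 t)⁻¹)
      · intro t ht
        rw [hui] at ht
        have := ((h2 t ht).inv (hpos t ht).ne').neg
        rw [neg_div, neg_neg] at this
        exact this
      · apply ContinuousOn.intervalIntegrable
        rw [hui]
        apply hc.div (hc1.pow 2)
        intro t ht
        exact pow_ne_zero 2 (hpos t ht).ne'
    rw [e3, one_div, one_div]
    linarith
  have t1 : ‖u b * v b - u a * v a - ∫ t in a..b, u' t * v t‖ ≤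
      ‖u b * v b‖ + ‖u a * v a‖ + ‖∫ t in a..b, u' t * v t‖ :=
    (norm_sub_le _ _).trans (add_le_add (norm_sub_le _ _) le_rfl)
  have t2 : 1 / φ1 a ≤ 1 / μ := one_div_le_one_div_of_le hμ (hp a ha)
  have t3 : 2 / μ = 1 / μ + 1 / μ := by ring
  rw [n1, n2] at t1
  linarith

theorem trivial_bd {a b : ℝ} (hab : a ≤ b) (φ : ℝ → ℝ) :
    ‖∫ t in a..b, cexp (I * (φ t : ℂ))‖ ≤ b - a := by
  have h := intervalIntegral.norm_integral_le_of_norm_le_const (a := a) (b := b) (C := 1)
    (f := fun t => cexp (I * (φ t : ℂ))) (by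
      intro t _
      rw [mul_comm, Complex.norm_exp_ofReal_mul_I])
  rw [one_mul, abs_of_nonneg (sub_nonneg.2 hab)] at h
  exact h

theorem vdc2_pos {a b lam : ℝ} (hab : a ≤ b) (hl : 0 < lam) (φ φ1 φ2 : ℝ → ℝ)
    (h1 : ∀ t ∈ Set.Icc a b, HasDerivAt φ (φ1 t) t)
    (h2 : ∀ t ∈ Set.Icc a b, HasDerivAt φ1 (φ2 t) t)
    (hc : ContinuousOn φ2 (Set.Icc a b)) (hb : ∀ t ∈ Set.Icc a b, lam ≤ φ2 t)
    (h0 : 0 ≤ φ1 a) :
    ‖∫ t in a..b, cexp (I * (φ t : ℂ))‖ ≤ 3 / √lam := by
  have hs : 0 < √lam := Real.sqrt_pos.2 hl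
  have hsq : √lam * √lam = lam := Real.mul_self_sqrt hl.le
  have e3 : 3 / √lam = 1 / √lam + 2 / √lam := by ring
  rcases le_total b (a + 1 / √lam) with hcase | hcase
  · have := trivial_bd hab φ
    have h5 : 0 < 2 / √lam := by positivity
    rw [e3]
    linarith
  · set m := a + 1 / √lam with hm
    have ham : a ≤ m := by
      have : 0 < 1 / √lam := by positivity
      linarith
    have hc0 : ContinuousOn φ (Set.Icc a b) :=
      fun t ht => (h1 t ht).continuousAt.continuousWithinAt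
    have cv : ContinuousOn (fun t : ℝ => cexp (I * (φ t : ℂ))) (Set.Icc a b) :=
      (continuousOn_const.mul (Complex.continuous_ofReal.comp_continuousOn hc0)).cexp
    have i1 : IntervalIntegrable (fun t : ℝ => cexp (I * (φ t : ℂ))) volume a m := by
      apply ContinuousOn.intervalIntegrable
      rw [Set.uIcc_of_le ham]
      exact cv.mono (Set.Icc_subset_Icc le_rfl hcase)
    have i2 : IntervalIntegrable (fun t : ℝ => cexp (I * (φ t : ℂ))) volume m b := by
      apply ContinuousOn.intervalIntegrable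
      rw [Set.uIcc_of_le hcase]
      exact cv.mono (Set.Icc_subset_Icc ham le_rfl)
    rw [← intervalIntegral.integral_add_adjacent_intervals i1 i2]
    refine (norm_add_le _ _).trans ?_
    have j1 := trivial_bd ham φ
    have hsub : Set.Icc m b ⊆ Set.Icc a b := Set.Icc_subset_Icc ham le_rfl
    have hgrow : ∀ t ∈ Set.Icc a b, lam * (t - a) ≤ φ1 t := by
      intro t ht
      have hmono : MonotoneOn (fun s => φ1 s - lam * (s - a)) (Set.Icc a b) := by
        apply monotoneOn_of_deriv_nonneg (convex_Icc a b)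
        · exact ContinuousOn.sub (fun s hs => (h2 s hs).continuousAt.continuousWithinAt)
            (by fun_prop)
        · intro s hs
          rw [interior_Icc] at hs
          have hs' : s ∈ Set.Icc a b := Set.Ioo_subset_Icc_self hs
          exact ((h2 s hs').differentiableAt.sub (by fun_prop)).differentiableWithinAt
        · intro s hs
          rw [interior_Icc] at hs
          have hs' : s ∈ Set.Icc a b := Set.Ioo_subset_Icc_self hs
          have hd : HasDerivAt (fun s => φ1 s - lam * (s - a)) (φ2 s - lam * 1) s :=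
            (h2 s hs').sub (((hasDerivAt_id s).sub_const a).const_mul lam)
          rw [hd.deriv]
          have := hb s hs'
          linarith
      have := hmono ⟨le_rfl, hab⟩ ht ht.1
      simp only [sub_self, mul_zero, sub_zero] at this
      linarith
    have j2 := vdc1 hcase hs φ φ1 φ2 (fun t ht => h1 t (hsub ht)) (fun t ht => h2 t (hsub ht))
      (hc.mono hsub) (fun t ht => hl.le.trans (hb t (hsub ht))) (by
        intro t ht
        have k1 := hgrow t (hsub ht)
        have k2 : lam * (1 / √lam) ≤ lam * (t - a) := by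
          apply mul_le_mul_of_nonneg_left _ hl.le
          have := ht.1
          linarith
        have k3 : lam * (1 / √lam) = √lam := by
          rw [mul_one_div, div_eq_iff hs.ne']
          exact hsq.symm
        linarith)
    rw [e3]
    have : m - a = 1 / √lam := by rw [hm]; ring
    linarith

theorem vdc2_neg {a b lam : ℝ} (hab : a ≤ b) (hl : 0 < lam) (φ φ1 φ2 : ℝ → ℝ)
    (h1 : ∀ t ∈ Set.Icc a b, HasDerivAt φ (φ1 t) t)
    (h2 : ∀ t ∈ Set.Icc a b, HasDerivAt φ1 (φ2 t) t)
    (hc : ContinuousOn φ2 (Set.Icc a b)) (hb : ∀ t ∈ Set.Icc a b, lam ≤ φ2 t)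
    (h0 : φ1 b ≤ 0) :
    ‖∫ t in a..b, cexp (I * (φ t : ℂ))‖ ≤ 3 / √lam := by
  have hmem : ∀ t ∈ Set.Icc (-b) (-a), -t ∈ Set.Icc a b := by
    intro t ht
    exact ⟨by linarith [ht.2], by linarith [ht.1]⟩
  have key := vdc2_pos (a := -b) (b := -a) (by linarith) hl (fun t => φ (-t))
    (fun t => -φ1 (-t)) (fun t => φ2 (-t)) (by
      intro t ht
      have := (h1 (-t) (hmem t ht)).comp t (hasDerivAt_neg t)
      rw [mul_neg_one] at this
      exact this) (by
      intro t ht
      have := ((h2 (-t) (hmem t ht)).comp t (hasDerivAt_neg t)).neg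
      rw [mul_neg_one, neg_neg] at this
      exact this) (hc.comp continuous_neg.continuousOn hmem) (fun t ht => hb _ (hmem t ht)) (by
      simp only [neg_neg]
      linarith)
  rw [← intervalIntegral.integral_comp_neg (fun t => cexp (I * (φ (-t) : ℂ)))] at key
  simpa using key

theorem vdc2 {a b lam : ℝ} (hab : a ≤ b) (hl : 0 < lam) (φ φ1 φ2 : ℝ → ℝ)
    (h1 : ∀ t ∈ Set.Icc a b, HasDerivAt φ (φ1 t) t)
    (h2 : ∀ t ∈ Set.Icc a b, HasDerivAt φ1 (φ2 t) t)
    (hc : ContinuousOn φ2 (Set.Icc a b)) (hb : ∀ t ∈ Set.Icc a b, lam ≤ φ2 t) :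
    ‖∫ t in a..b, cexp (I * (φ t : ℂ))‖ ≤ 10 / √lam := by
  have hs : 0 < √lam := Real.sqrt_pos.2 hl
  have e1 : 10 / √lam = 3 / √lam + 3 / √lam + 4 / √lam := by ring
  have e2 : 0 < 3 / √lam := by positivity
  have e3 : 0 < 4 / √lam := by positivity
  rcases le_or_gt 0 (φ1 a) with h0 | h0
  · have := vdc2_pos hab hl φ φ1 φ2 h1 h2 hc hb h0
    linarith
  rcases le_or_gt (φ1 b) 0 with h3 | h3
  · have := vdc2_neg hab hl φ φ1 φ2 h1 h2 hc hb h3
    linarith
  have hc1 : ContinuousOn φ1 (Set.Icc a b) := fun t ht => (h2 t ht).continuousAt.continuousWithinAt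
  obtain ⟨m, hm, hm0⟩ := intermediate_value_Icc hab hc1 ⟨h0.le, h3.le⟩
  have s1 : Set.Icc a m ⊆ Set.Icc a b := Set.Icc_subset_Icc le_rfl hm.2
  have s2 : Set.Icc m b ⊆ Set.Icc a b := Set.Icc_subset_Icc hm.1 le_rfl
  have hc0 : ContinuousOn φ (Set.Icc a b) :=
    fun t ht => (h1 t ht).continuousAt.continuousWithinAt
  have cv : ContinuousOn (fun t : ℝ => cexp (I * (φ t : ℂ))) (Set.Icc a b) :=
    (continuousOn_const.mul (Complex.continuous_ofReal.comp_continuousOn hc0)).cexp
  have i1 : IntervalIntegrable (fun t : ℝ => cexp (I * (φ t : ℂ))) volume a m := by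
    apply ContinuousOn.intervalIntegrable
    rw [Set.uIcc_of_le hm.1]
    exact cv.mono s1
  have i2 : IntervalIntegrable (fun t : ℝ => cexp (I * (φ t : ℂ))) volume m b := by
    apply ContinuousOn.intervalIntegrable
    rw [Set.uIcc_of_le hm.2]
    exact cv.mono s2
  rw [← intervalIntegral.integral_add_adjacent_intervals i1 i2]
  refine (norm_add_le _ _).trans ?_
  have j1 := vdc2_neg hm.1 hl φ φ1 φ2 (fun t ht => h1 t (s1 ht)) (fun t ht => h2 t (s1 ht))
    (hc.mono s1) (fun t ht => hb t (s1 ht)) hm0.le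
  have j2 := vdc2_pos hm.2 hl φ φ1 φ2 (fun t ht => h1 t (s2 ht)) (fun t ht => h2 t (s2 ht))
    (hc.mono s2) (fun t ht => hb t (s2 ht)) hm0.ge
  linarith

end DAD
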